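import Mathlib

set_option autoImplicit false

open scoped Manifold ContDiff

namespace Run7.h978

/-- Euclidean space -/
abbrev Eu (n : ℕ) := EuclideanSpace ℝ (Fin n)

section coord

variable {n m : ℕ} {V : Type*} [NormedAddCommGroup V] [NormedSpace ℝ V]

/-- The `i`-th partial derivative of `u` at `y`. -/
noncomputable def pd (i : Fin n) (u : Eu n → V) (y : Eu n) : V :=
  fderiv ℝ u y (EuclideanSpace.single i (1 : ℝ))

/-- The metric induced by `X`: the matrix of inner products of its partial derivatives. -/
noncomputable def metric (X : Eu n → Eu m) (y : Eu n) : Matrix (Fin n) (Fin n) ℝ :=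
  Matrix.of fun i j => inner ℝ (pd i X y) (pd j X y)

/-- The (nonnegative) Laplace operator of the metric induced by `X`, applied to `u`:
`-(det g)^(-1/2) ∑ i, ∂_i ((det g)^(1/2) ∑ j, g^{ij} ∂_j u)`. -/
noncomputable def lap (X : Eu n → Eu m) (u : Eu n → V) (y : Eu n) : V :=
  -((Real.sqrt (metric X y).det)⁻¹ •
    ∑ i, pd i (fun z => Real.sqrt (metric X z).det • ∑ j, (metric X z)⁻¹ i j • pd j u z) y)

end coord

section mfd

variable (n : ℕ) {m : ℕ} {M : Type*} [TopologicalSpace M] [ChartedSpace (Eu n) M]

/-- `u` is smooth on the `n`-manifold `M`: it is smooth in every chart of the atlas. -/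
def IsSmooth (u : M → Eu m) : Prop :=
  ∀ e ∈ atlas (Eu n) M, ContDiffOn ℝ ∞ (u ∘ e.symm) e.target

/-- `x` is a smooth immersion of the `n`-manifold `M` into the Euclidean space: it is smooth, and
in every chart of the atlas its derivative is injective at every point. -/
def IsImmersion (x : M → Eu m) : Prop :=
  IsSmooth n x ∧ ∀ e ∈ atlas (Eu n) M, ∀ y ∈ e.target,
    Function.Injective (fderiv ℝ (x ∘ e.symm) y)

/-- `u` is a smooth vector valued eigenfunction, with the eigenvalue `μ`, of the Laplace operator
of the metric which the immersion `x` induces on `M`: `Δ u = μ u` in every chart of the atlas. -/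
def IsEigenmap (x u : M → Eu m) (μ : ℝ) : Prop :=
  IsSmooth n u ∧
    ∀ e ∈ atlas (Eu n) M, ∀ y ∈ e.target, lap (x ∘ e.symm) (u ∘ e.symm) y = μ • u (e.symm y)

/-- `x` is of finite type: it is the sum of a constant vector and of finitely many non-constant
eigenmaps of the Laplace operator of the induced metric. -/
def IsFiniteType (x : M → Eu m) : Prop :=
  ∃ (k : ℕ) (c : Eu m) (u : Fin k → M → Eu m) (μ : Fin k → ℝ),
    (∀ p, x p = c + ∑ i, u i p) ∧ (∀ i, IsEigenmap n x (u i) (μ i)) ∧ ∀ i, ∃ p q, u i p ≠ u i q

end mfd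

end Run7.h978
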