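import Mathlib
import Pool.Agent.Helper772_Chen.Geo1
import Pool.Agent.Run7.h978.Defs

set_option autoImplicit false

/-!
The Laplace operator of an induced metric in coordinates. The computations are those of
`Pool.Agent.Helper772_Chen.Geo1` (starting repository), for arbitrary functions `u`.
-/

open Set Filter Topology Matrix
open scoped RealInnerProductSpace ContDiff
open Helper772Chen (ee diffAt sm_fderiv symm2 fd_congr fd_apply_const sm_apply_const fd_inner
  sm_inner fd_smul sm_det sm_inv hasFDerivAt_det inv_entry)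

namespace Run7.h978

section

variable {E G : Type*} [NormedAddCommGroup E] [NormedSpace ℝ E] [NormedAddCommGroup G]
  [NormedSpace ℝ G] {V : Set E}

theorem fd_smul' (hV : IsOpen V) {c : E → ℝ} {v : E → G} (hc : ContDiffOn ℝ ∞ c V)
    (hv : ContDiffOn ℝ ∞ v V) {x : E} (hx : x ∈ V) (w : E) :
    fderiv ℝ (fun y => c y • v y) x w = c x • fderiv ℝ v x w + fderiv ℝ c x w • v x := by
  rw [fderiv_fun_smul (diffAt hV hc hx) (diffAt hV hv hx)]
  simp

end

section

variable {n m : ℕ} {X : Eu n → Eu m} {U : Set (Eu n)}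

/-- the dual frame -/
noncomputable def phi (X : Eu n → Eu m) (i : Fin n) (y : Eu n) : Eu m :=
  ∑ j, (metric X y)⁻¹ i j • fderiv ℝ X y (ee j)

/-- the coefficient of the first order terms -/
noncomputable def AA (X : Eu n → Eu m) (x : Eu n) (j : Fin n) : ℝ :=
  (Real.sqrt (metric X x).det)⁻¹ *
    ∑ i, fderiv ℝ (fun y => Real.sqrt (metric X y).det * (metric X y)⁻¹ i j) x (ee i)

theorem metric_apply (x : Eu n) (i j : Fin n) :
    metric X x i j = ⟪fderiv ℝ X x (ee i), fderiv ℝ X x (ee j)⟫ := rfl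

/-- an immersion of an open set -/
structure Imm (X : Eu n → Eu m) (U : Set (Eu n)) : Prop where
  hU : IsOpen U
  sm : ContDiffOn ℝ ∞ X U
  inj : ∀ x ∈ U, Function.Injective (fderiv ℝ X x)

theorem Imm.mono (h : Imm X U) {V : Set (Eu n)} (hV : IsOpen V) (hVU : V ⊆ U) : Imm X V :=
  ⟨hV, h.sm.mono hVU, fun x hx => h.inj x (hVU hx)⟩

namespace Imm

variable (h : Imm X U)
include h

theorem sD (j : Fin n) : ContDiffOn ℝ ∞ (fun y => fderiv ℝ X y (ee j)) U :=
  sm_apply_const h.hU h.sm _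

theorem sg (i j : Fin n) : ContDiffOn ℝ ∞ (fun y => metric X y i j) U := by
  simp only [metric_apply]
  exact sm_inner (h.sD i) (h.sD j)

theorem hdet {x : Eu n} (hx : x ∈ U) : 0 < (metric X x).det := by
  have h1 : metric X x = Matrix.gram ℝ (fun i => fderiv ℝ X x (ee i)) := by
    ext i j
    rw [Matrix.gram_apply, metric_apply]
  have h2 := (EuclideanSpace.basisFun (Fin n) ℝ).toBasis.linearIndependent
  have h3 : LinearIndependent ℝ (fun i => fderiv ℝ X x (ee i)) := by
    have h4 := h2.map' (fderiv ℝ X x).toLinearMap (LinearMap.ker_eq_bot.2 (h.inj x hx))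
    have e : (fun i => fderiv ℝ X x (ee i)) =
        (fderiv ℝ X x).toLinearMap ∘ (EuclideanSpace.basisFun (Fin n) ℝ).toBasis := by
      funext i
      simp [ee]
    rw [e]
    exact h4
  rw [h1]
  exact Matrix.PosDef.det_pos (Matrix.posDef_gram_of_linearIndependent h3)

theorem hdet0 : ∀ x ∈ U, (metric X x).det ≠ 0 := fun _ hx => (h.hdet hx).ne'

theorem sdet : ContDiffOn ℝ ∞ (fun y => (metric X y).det) U := sm_det h.sg

theorem sinv (i j : Fin n) : ContDiffOn ℝ ∞ (fun y => (metric X y)⁻¹ i j) U :=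
  sm_inv h.sg h.hdet0 i j

theorem ssq : ContDiffOn ℝ ∞ (fun y => Real.sqrt (metric X y).det) U := h.sdet.sqrt h.hdet0

theorem hsq {x : Eu n} (hx : x ∈ U) : 0 < Real.sqrt (metric X x).det :=
  Real.sqrt_pos.2 (h.hdet hx)

theorem sphi (i : Fin n) : ContDiffOn ℝ ∞ (phi X i) U :=
  ContDiffOn.sum fun j _ => (h.sinv i j).smul (h.sD j)

theorem b1 {x : Eu n} (hx : x ∈ U) (i k : Fin n) :
    ⟪phi X i x, fderiv ℝ X x (ee k)⟫ = if i = k then 1 else 0 := by
  have h1 : ((metric X x)⁻¹ * metric X x) i k = if i = k then 1 else 0 := by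
    rw [Matrix.nonsing_inv_mul _ (isUnit_iff_ne_zero.2 (h.hdet0 x hx)), Matrix.one_apply]
  rw [← h1, Matrix.mul_apply, phi, sum_inner]
  refine Finset.sum_congr rfl fun j _ => ?_
  rw [real_inner_smul_left, metric_apply]

omit h in
theorem phi_inner (x : Eu n) (w : Eu m) (i : Fin n) :
    ⟪phi X i x, w⟫ = ∑ j, (metric X x)⁻¹ i j * ⟪fderiv ℝ X x (ee j), w⟫ := by
  rw [phi, sum_inner]
  refine Finset.sum_congr rfl fun j _ => ?_
  rw [real_inner_smul_left]

omit h in
theorem b2 {x : Eu n} {w : Eu m} (hw : ∀ j, ⟪w, fderiv ℝ X x (ee j)⟫ = 0) (i : Fin n) :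
    ⟪phi X i x, w⟫ = 0 := by
  rw [phi_inner]
  refine Finset.sum_eq_zero fun j _ => ?_
  rw [real_inner_comm, hw j, mul_zero]

theorem ginv {x : Eu n} (hx : x ∈ U) (i j : Fin n) :
    ⟪phi X i x, phi X j x⟫ = (metric X x)⁻¹ i j := by
  have h1 : ⟪phi X j x, phi X i x⟫ =
      ∑ k, (metric X x)⁻¹ i k * ⟪phi X j x, fderiv ℝ X x (ee k)⟫ := by
    rw [real_inner_comm, phi_inner]
    refine Finset.sum_congr rfl fun k _ => ?_
    rw [real_inner_comm]
  rw [real_inner_comm, h1]
  simp only [h.b1 hx, mul_ite, mul_one, mul_zero, Finset.sum_ite_eq, Finset.mem_univ, if_true]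

/-- the Laplace operator in terms of second derivatives -/
theorem lap_eq {V : Type*} [NormedAddCommGroup V] [NormedSpace ℝ V] {u : Eu n → V}
    (su : ContDiffOn ℝ ∞ u U) {x : Eu n} (hx : x ∈ U) :
    lap X u x = -(∑ i, ∑ j, ⟪phi X i x, phi X j x⟫ • fderiv ℝ (fderiv ℝ u) x (ee i) (ee j) +
        ∑ j, AA X x j • fderiv ℝ u x (ee j)) := by
  have sP : ∀ i j, ContDiffOn ℝ ∞ (fun y => Real.sqrt (metric X y).det * (metric X y)⁻¹ i j) U :=
    fun i j => h.ssq.mul (h.sinv i j)
  rw [lap]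
  congr 1
  have h1 : ∀ i, pd i (fun y => Real.sqrt (metric X y).det •
      ∑ j, (metric X y)⁻¹ i j • pd j u y) x =
      ∑ j, ((Real.sqrt (metric X x).det * (metric X x)⁻¹ i j) •
          fderiv ℝ (fderiv ℝ u) x (ee i) (ee j) +
        fderiv ℝ (fun y => Real.sqrt (metric X y).det * (metric X y)⁻¹ i j) x (ee i) •
          fderiv ℝ u x (ee j)) := by
    intro i
    have h2 : (fun y => Real.sqrt (metric X y).det •
      ∑ j, (metric X y)⁻¹ i j • pd j u y) =
        fun y => ∑ j, (Real.sqrt (metric X y).det * (metric X y)⁻¹ i j) •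
          fderiv ℝ u y (ee j) := by
      funext y
      rw [Finset.smul_sum]
      refine Finset.sum_congr rfl fun j _ => ?_
      rw [smul_smul]
      rfl
    rw [pd, h2, fderiv_fun_sum (A := fun j y => (Real.sqrt (metric X y).det *
      (metric X y)⁻¹ i j) • fderiv ℝ u y (ee j))
      (fun j _ => diffAt h.hU ((sP i j).smul (sm_apply_const h.hU su _)) hx)]
    rw [_root_.sum_apply]
    refine Finset.sum_congr rfl fun j _ => ?_
    have h3 := fd_smul' h.hU (sP i j) (sm_apply_const h.hU su (ee j)) hx (ee i)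
    rw [fd_apply_const h.hU su hx] at h3
    exact h3
  simp only [h1]
  have h4 : ∑ i, ∑ j, ((Real.sqrt (metric X x).det * (metric X x)⁻¹ i j) •
          fderiv ℝ (fderiv ℝ u) x (ee i) (ee j) +
        fderiv ℝ (fun y => Real.sqrt (metric X y).det * (metric X y)⁻¹ i j) x (ee i) •
          fderiv ℝ u x (ee j)) =
      ∑ i, ∑ j, (Real.sqrt (metric X x).det * (metric X x)⁻¹ i j) •
          fderiv ℝ (fderiv ℝ u) x (ee i) (ee j) +
      ∑ j, (∑ i, fderiv ℝ (fun y => Real.sqrt (metric X y).det * (metric X y)⁻¹ i j) x (ee i)) •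
          fderiv ℝ u x (ee j) := by
    simp only [Finset.sum_add_distrib]
    congr 1
    rw [Finset.sum_comm]
    refine Finset.sum_congr rfl fun j _ => ?_
    rw [Finset.sum_smul]
  rw [h4, smul_add]
  congr 1
  · rw [Finset.smul_sum]
    refine Finset.sum_congr rfl fun i _ => ?_
    rw [Finset.smul_sum]
    refine Finset.sum_congr rfl fun j _ => ?_
    rw [smul_smul, h.ginv hx]
    congr 1
    rw [← mul_assoc, inv_mul_cancel₀ (h.hsq hx).ne', one_mul]
  · rw [Finset.smul_sum]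
    refine Finset.sum_congr rfl fun j _ => ?_
    rw [smul_smul]
    rfl

/-- smoothness of the Laplacian -/
theorem s_lap {V : Type*} [NormedAddCommGroup V] [NormedSpace ℝ V] {u : Eu n → V}
    (su : ContDiffOn ℝ ∞ u U) : ContDiffOn ℝ ∞ (lap X u) U := by
  have h1 : lap X u = fun x => -((Real.sqrt (metric X x).det)⁻¹ •
      ∑ i, fderiv ℝ (fun y => Real.sqrt (metric X y).det •
        ∑ j, (metric X y)⁻¹ i j • fderiv ℝ u y (ee j)) x (ee i)) := rfl
  rw [h1]
  refine ContDiffOn.neg (ContDiffOn.smul (h.ssq.inv fun x hx => (h.hsq hx).ne')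
    (ContDiffOn.sum fun i _ => ?_))
  exact sm_apply_const h.hU (h.ssq.smul (ContDiffOn.sum fun j _ =>
    (h.sinv i j).smul (sm_apply_const h.hU su _))) _

/-- derivative of the square root of the determinant -/
theorem dsq {x : Eu n} (hx : x ∈ U) (k : Fin n) :
    fderiv ℝ (fun y => Real.sqrt (metric X y).det) x (ee k) =
      Real.sqrt (metric X x).det * ∑ i, ⟪phi X i x, fderiv ℝ (fderiv ℝ X) x (ee i) (ee k)⟫ := by
  have h1 : fderiv ℝ (fun y => (metric X y).det) x (ee k) =
      (metric X x).det * (2 * ∑ i, ⟪phi X i x, fderiv ℝ (fderiv ℝ X) x (ee i) (ee k)⟫) := by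
    rw [hasFDerivAt_det (metric X) (fun i j => diffAt h.hU (h.sg i j) hx)]
    have h2 : ∀ i j, fderiv ℝ (fun y => metric X y i j) x (ee k) =
        ⟪fderiv ℝ X x (ee i), fderiv ℝ (fderiv ℝ X) x (ee j) (ee k)⟫ +
        ⟪fderiv ℝ (fderiv ℝ X) x (ee i) (ee k), fderiv ℝ X x (ee j)⟫ := by
      intro i j
      simp only [metric_apply]
      rw [fd_inner h.hU (h.sD i) (h.sD j) hx, fd_apply_const h.hU h.sm hx,
        fd_apply_const h.hU h.sm hx,
        symm2 h.hU h.sm hx (ee k) (ee j), symm2 h.hU h.sm hx (ee k) (ee i)]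
    have h3 : ∀ i j, (metric X x).adjugate j i = (metric X x).det * (metric X x)⁻¹ j i := by
      intro i j
      rw [inv_entry, ← mul_assoc, mul_inv_cancel₀ (h.hdet0 x hx), one_mul]
    have h4 : ∑ i, ∑ j, (metric X x)⁻¹ j i * ⟪fderiv ℝ X x (ee i),
        fderiv ℝ (fderiv ℝ X) x (ee j) (ee k)⟫ =
        ∑ i, ⟪phi X i x, fderiv ℝ (fderiv ℝ X) x (ee i) (ee k)⟫ := by
      rw [Finset.sum_comm]
      refine Finset.sum_congr rfl fun j _ => ?_
      rw [phi_inner]
    have h5 : ∑ i, ∑ j, (metric X x)⁻¹ j i * ⟪fderiv ℝ (fderiv ℝ X) x (ee i) (ee k),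
        fderiv ℝ X x (ee j)⟫ =
        ∑ i, ⟪phi X i x, fderiv ℝ (fderiv ℝ X) x (ee i) (ee k)⟫ := by
      refine Finset.sum_congr rfl fun i _ => ?_
      rw [phi_inner]
      refine Finset.sum_congr rfl fun j _ => ?_
      rw [← h.ginv hx, ← h.ginv hx, real_inner_comm (phi X i x), real_inner_comm (fderiv ℝ X x _)]
    calc ∑ i, ∑ j, (metric X x).adjugate j i * fderiv ℝ (fun y => metric X y i j) x (ee k)
        = ∑ i, ∑ j, ((metric X x).det * ((metric X x)⁻¹ j i * ⟪fderiv ℝ X x (ee i),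
            fderiv ℝ (fderiv ℝ X) x (ee j) (ee k)⟫) +
            (metric X x).det * ((metric X x)⁻¹ j i * ⟪fderiv ℝ (fderiv ℝ X) x (ee i) (ee k),
            fderiv ℝ X x (ee j)⟫)) := by
          refine Finset.sum_congr rfl fun i _ => Finset.sum_congr rfl fun j _ => ?_
          rw [h2, h3]
          ring
      _ = (metric X x).det * ∑ i, ∑ j, (metric X x)⁻¹ j i * ⟪fderiv ℝ X x (ee i),
            fderiv ℝ (fderiv ℝ X) x (ee j) (ee k)⟫ +
          (metric X x).det * ∑ i, ∑ j, (metric X x)⁻¹ j i *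
            ⟪fderiv ℝ (fderiv ℝ X) x (ee i) (ee k), fderiv ℝ X x (ee j)⟫ := by
          simp only [Finset.sum_add_distrib, Finset.mul_sum]
      _ = _ := by
          rw [h4, h5]
          ring
  have h2 := ((diffAt h.hU h.sdet hx).hasFDerivAt.sqrt (h.hdet0 x hx)).fderiv
  rw [h2, _root_.smul_apply, h1, smul_eq_mul]
  have h3 := h.hsq hx
  have h4 : (metric X x).det = Real.sqrt (metric X x).det * Real.sqrt (metric X x).det :=
    (Real.mul_self_sqrt (h.hdet hx).le).symm
  have h5 : ∀ S : ℝ, 1 / (2 * Real.sqrt (metric X x).det) *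
      ((Real.sqrt (metric X x).det * Real.sqrt (metric X x).det) * (2 * S)) =
        Real.sqrt (metric X x).det * S := by
    intro S
    field_simp
  rw [← h5, ← h4]

/-- the Laplacian of the immersion is normal -/
theorem b5 {x : Eu n} (hx : x ∈ U) (k : Fin n) : ⟪lap X X x, fderiv ℝ X x (ee k)⟫ = 0 := by
  have h1 : ∀ i, ⟪fderiv ℝ (phi X i) x (ee i), fderiv ℝ X x (ee k)⟫ =
      -⟪phi X i x, fderiv ℝ (fderiv ℝ X) x (ee i) (ee k)⟫ := by
    intro i
    have h2 : fderiv ℝ (fun y => ⟪phi X i y, fderiv ℝ X y (ee k)⟫) x (ee i) = 0 := by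
      have h3 : fderiv ℝ (fun y => ⟪phi X i y, fderiv ℝ X y (ee k)⟫) x =
          fderiv ℝ (fun _ => if i = k then (1 : ℝ) else 0) x :=
        fd_congr h.hU (fun y hy => h.b1 hy i k) hx
      rw [h3]
      simp
    rw [fd_inner h.hU (h.sphi i) (h.sD k) hx, fd_apply_const h.hU h.sm hx] at h2
    linarith
  have hLf : lap X X x = -((Real.sqrt (metric X x).det)⁻¹ •
      ∑ i, fderiv ℝ (fun y => Real.sqrt (metric X y).det • phi X i y) x (ee i)) := rfl
  rw [hLf, inner_neg_left, real_inner_smul_left, sum_inner]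
  have h2 : ∀ i, ⟪fderiv ℝ (fun y => Real.sqrt (metric X y).det • phi X i y) x (ee i),
      fderiv ℝ X x (ee k)⟫ = -(Real.sqrt (metric X x).det *
        ⟪phi X i x, fderiv ℝ (fderiv ℝ X) x (ee i) (ee k)⟫) +
        fderiv ℝ (fun y => Real.sqrt (metric X y).det) x (ee i) * (if i = k then 1 else 0) := by
    intro i
    rw [fd_smul h.hU h.ssq (h.sphi i) hx, inner_add_left, real_inner_smul_left,
      real_inner_smul_left, h1, h.b1 hx]
    ring
  simp only [h2, Finset.sum_add_distrib, mul_ite, mul_one, mul_zero, Finset.sum_ite_eq',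
    Finset.mem_univ, if_true, Finset.sum_neg_distrib]
  rw [h.dsq hx, Finset.mul_sum]
  simp

end Imm

end

end Run7.h978
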