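import Mathlib
import Pool.Agent.Run7.h978.Chart

set_option autoImplicit false

/-!
The Laplace operator of a hypersurface contained in a level set, in terms of ambient derivatives.
-/

open Set Filter Topology Matrix
open scoped RealInnerProductSpace ContDiff
open Helper772Chen (ee diffAt sm_fderiv symm2 fd_congr fd_apply_const sm_apply_const fd_inner
  sm_inner)

namespace Run7.h978

section coord

variable {N : ℕ}

theorem inner_eq_sum (v w : Eu N) : ⟪v, w⟫ = ∑ a, v a * w a := by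
  rw [PiLp.inner_apply]
  refine Finset.sum_congr rfl fun a _ => ?_
  simp [mul_comm]

/-- the functional with the coefficients `c` -/
noncomputable def fnl (c : Fin N → ℝ) : Eu N →L[ℝ] ℝ :=
  ∑ a, c a • EuclideanSpace.proj a

theorem fnl_apply (c : Fin N → ℝ) (v : Eu N) : fnl c v = ∑ a, c a * v a := by
  rw [fnl, _root_.sum_apply]
  rfl

end coord

section

variable {n : ℕ} {X : Eu n → Eu (n + 1)} {U : Set (Eu n)}

namespace Imm

variable (h : Imm X U)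
include h

theorem expand {x : Eu n} (hx : x ∈ U) {ν : Eu (n + 1)} (hν : ν ≠ 0)
    (hνX : ∀ j, ⟪ν, fderiv ℝ X x (ee j)⟫ = 0) (w : Eu (n + 1)) :
    w = ∑ i, ⟪phi X i x, w⟫ • fderiv ℝ X x (ee i) + (⟪ν, w⟫ / ⟪ν, ν⟫) • ν := by
  classical
  have hνν : ⟪ν, ν⟫ ≠ 0 := fun h0 => hν (inner_self_eq_zero.1 h0)
  let v : Option (Fin n) → Eu (n + 1) := fun o => o.elim ν (fun i => fderiv ℝ X x (ee i))
  have key : ∀ c : Option (Fin n) → ℝ, (∀ i, ⟪phi X i x, ∑ o, c o • v o⟫ = c (some i)) ∧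
      ⟪ν, ∑ o, c o • v o⟫ / ⟪ν, ν⟫ = c none := by
    intro c
    rw [Fintype.sum_option]
    constructor
    · intro i
      simp only [v, Option.elim_none, Option.elim_some]
      rw [inner_add_right, real_inner_smul_right, b2 hνX, inner_sum]
      simp only [real_inner_smul_right, h.b1 hx]
      simp
    · simp only [v, Option.elim_none, Option.elim_some]
      rw [inner_add_right, real_inner_smul_right, inner_sum]
      simp only [real_inner_smul_right, hνX, mul_zero, Finset.sum_const_zero, add_zero]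
      rw [mul_div_assoc, div_self hνν, mul_one]
  have hli : LinearIndependent ℝ v := by
    rw [Fintype.linearIndependent_iff]
    intro c hc o
    obtain ⟨k1, k2⟩ := key c
    rw [hc] at k1 k2
    rcases o with _ | i
    · rw [← k2, inner_zero_right, zero_div]
    · rw [← k1 i, inner_zero_right]
  have hsp : Submodule.span ℝ (Set.range v) = ⊤ :=
    hli.span_eq_top_of_card_eq_finrank (by simp)
  have hw : w ∈ Submodule.span ℝ (Set.range v) := by rw [hsp]; trivial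
  obtain ⟨c, hc⟩ := (Submodule.mem_span_range_iff_exists_fun ℝ).1 hw
  obtain ⟨k1, k2⟩ := key c
  rw [hc] at k1 k2
  simp only [k1, k2]
  rw [← hc, Fintype.sum_option]
  exact add_comm _ _

theorem phi_expand {x : Eu n} (hx : x ∈ U) {ν : Eu (n + 1)} (hν : ν ≠ 0)
    (hνX : ∀ j, ⟪ν, fderiv ℝ X x (ee j)⟫ = 0) (i : Fin n) :
    ∑ j, ⟪phi X i x, phi X j x⟫ • fderiv ℝ X x (ee j) = phi X i x := by
  conv_rhs => rw [h.expand hx hν hνX (phi X i x)]
  rw [real_inner_comm, b2 hνX, zero_div, zero_smul, add_zero]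
  refine Finset.sum_congr rfl fun j _ => ?_
  rw [real_inner_comm]

/-- the trace over the tangent space -/
theorem trace_eq {x : Eu n} (hx : x ∈ U) {ν : Eu (n + 1)} (hν : ν ≠ 0)
    (hνX : ∀ j, ⟪ν, fderiv ℝ X x (ee j)⟫ = 0) (B : Fin (n + 1) → Fin (n + 1) → ℝ) :
    ∑ i, ∑ j, ⟪phi X i x, phi X j x⟫ *
      (∑ a, ∑ b, B a b * (fderiv ℝ X x (ee i)) b * (fderiv ℝ X x (ee j)) a) =
    ∑ a, B a a - (∑ a, ∑ b, B a b * ν b * ν a) / ⟪ν, ν⟫ := by
  classical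
  have hνν : ⟪ν, ν⟫ ≠ 0 := fun h0 => hν (inner_self_eq_zero.1 h0)
  have h1 : ∀ i (a : Fin (n + 1)), ∑ j, ⟪phi X i x, phi X j x⟫ * (fderiv ℝ X x (ee j)) a =
      (phi X i x) a := by
    intro i a
    have h2 := congrArg (fun v : Eu (n + 1) => v a) (h.phi_expand hx hν hνX i)
    simpa using h2
  have h3 : ∀ i, ∑ j, ⟪phi X i x, phi X j x⟫ *
      (∑ a, ∑ b, B a b * (fderiv ℝ X x (ee i)) b * (fderiv ℝ X x (ee j)) a) =
      ∑ a, ∑ b, B a b * (fderiv ℝ X x (ee i)) b * (phi X i x) a := by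
    intro i
    simp only [← h1, Finset.mul_sum]
    rw [Finset.sum_comm]
    refine Finset.sum_congr rfl fun a _ => ?_
    rw [Finset.sum_comm]
    refine Finset.sum_congr rfl fun b _ => ?_
    refine Finset.sum_congr rfl fun j _ => ?_
    ring
  simp only [h3]
  -- the standard basis
  have h4 : ∀ a b : Fin (n + 1), (if b = a then (1 : ℝ) else 0) =
      ∑ i, (phi X i x) a * (fderiv ℝ X x (ee i)) b + ν a / ⟪ν, ν⟫ * ν b := by
    intro a b
    have h5 := congrArg (fun v : Eu (n + 1) => v b)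
      (h.expand hx hν hνX (EuclideanSpace.single a (1 : ℝ)))
    simpa [EuclideanSpace.inner_single_right, Pi.single_apply] using h5
  have h6 : ∀ a, B a a = ∑ b, B a b * (if b = a then (1 : ℝ) else 0) := by
    intro a
    simp
  have h7 : ∑ a, B a a = ∑ i, ∑ a, ∑ b, B a b * (fderiv ℝ X x (ee i)) b * (phi X i x) a +
      (∑ a, ∑ b, B a b * ν b * ν a) / ⟪ν, ν⟫ := by
    simp only [h6, h4]
    rw [Finset.sum_comm (s := (Finset.univ : Finset (Fin n))), Finset.sum_div,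
      ← Finset.sum_add_distrib]
    refine Finset.sum_congr rfl fun a _ => ?_
    rw [Finset.sum_comm (s := (Finset.univ : Finset (Fin n))), Finset.sum_div,
      ← Finset.sum_add_distrib]
    refine Finset.sum_congr rfl fun b _ => ?_
    rw [mul_add, Finset.mul_sum]
    congr 1
    · refine Finset.sum_congr rfl fun i _ => ?_
      ring
    · ring
  rw [h7]
  ring

end Imm

end

/-- `Φ1`, `Φ2` are the partial derivatives of first and second order of `Φ` in `Ω`. -/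
structure Jet {N : ℕ} (Ω : Set (Eu N)) (Φ : Eu N → ℝ) (Φ1 : Fin N → Eu N → ℝ)
    (Φ2 : Fin N → Fin N → Eu N → ℝ) : Prop where
  sm : ContDiffOn ℝ ∞ Φ Ω
  d1 : ∀ y ∈ Ω, HasFDerivAt Φ (fnl fun a => Φ1 a y) y
  d2 : ∀ a, ∀ y ∈ Ω, HasFDerivAt (Φ1 a) (fnl fun b => Φ2 a b y) y

section

variable {n : ℕ} {X : Eu n → Eu (n + 1)} {U : Set (Eu n)}

namespace Imm

variable (h : Imm X U)
include h

theorem comp_sm {V : Type*} [NormedAddCommGroup V] [NormedSpace ℝ V] {Ω : Set (Eu (n + 1))}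
    {Φ : Eu (n + 1) → V} (hs : ContDiffOn ℝ ∞ Φ Ω) (hXΩ : ∀ x ∈ U, X x ∈ Ω) :
    ContDiffOn ℝ ∞ (fun x => Φ (X x)) U :=
  hs.comp h.sm hXΩ

theorem fd_comp {Ω : Set (Eu (n + 1))} {Φ : Eu (n + 1) → ℝ} {Φ1 : Fin (n + 1) → Eu (n + 1) → ℝ}
    {Φ2 : Fin (n + 1) → Fin (n + 1) → Eu (n + 1) → ℝ} (hJ : Jet Ω Φ Φ1 Φ2)
    (hXΩ : ∀ x ∈ U, X x ∈ Ω) {x : Eu n} (hx : x ∈ U) (v : Eu n) :
    fderiv ℝ (fun x => Φ (X x)) x v = ∑ a, Φ1 a (X x) * (fderiv ℝ X x v) a := by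
  have h1 := (hJ.d1 _ (hXΩ x hx)).comp x (diffAt h.hU h.sm hx).hasFDerivAt
  have h2 : fderiv ℝ (fun x => Φ (X x)) x = _ := h1.fderiv
  rw [h2]
  change (fnl fun a => Φ1 a (X x)) (fderiv ℝ X x v) = _
  rw [fnl_apply]

theorem fd2_comp {Ω : Set (Eu (n + 1))} {Φ : Eu (n + 1) → ℝ} {Φ1 : Fin (n + 1) → Eu (n + 1) → ℝ}
    {Φ2 : Fin (n + 1) → Fin (n + 1) → Eu (n + 1) → ℝ} (hJ : Jet Ω Φ Φ1 Φ2)
    (hXΩ : ∀ x ∈ U, X x ∈ Ω) {x : Eu n} (hx : x ∈ U) (i j : Fin n) :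
    fderiv ℝ (fderiv ℝ (fun x => Φ (X x))) x (ee i) (ee j) =
      ∑ a, ∑ b, Φ2 a b (X x) * (fderiv ℝ X x (ee i)) b * (fderiv ℝ X x (ee j)) a +
      ∑ a, Φ1 a (X x) * (fderiv ℝ (fderiv ℝ X) x (ee i) (ee j)) a := by
  rw [← fd_apply_const h.hU (h.comp_sm hJ.sm hXΩ) hx (ee j) (ee i)]
  have h1 : fderiv ℝ (fun y => fderiv ℝ (fun x => Φ (X x)) y (ee j)) x =
      fderiv ℝ (fun y => ∑ a, Φ1 a (X y) * (fderiv ℝ X y (ee j)) a) x :=
    fd_congr h.hU (fun y hy => h.fd_comp hJ hXΩ hy _) hx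
  rw [h1]
  have h2 : ∀ a, HasFDerivAt (fun y => Φ1 a (X y))
      ((fnl fun b => Φ2 a b (X x)).comp (fderiv ℝ X x)) x := fun a =>
    (hJ.d2 a _ (hXΩ x hx)).comp x (diffAt h.hU h.sm hx).hasFDerivAt
  have h3 : ∀ a : Fin (n + 1), HasFDerivAt (fun y => (fderiv ℝ X y (ee j)) a)
      ((EuclideanSpace.proj a).comp (fderiv ℝ (fun y => fderiv ℝ X y (ee j)) x)) x := fun a =>
    (EuclideanSpace.proj (𝕜 := ℝ) a).hasFDerivAt.comp x (diffAt h.hU (h.sD j) hx).hasFDerivAt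
  have h4 := HasFDerivAt.fun_sum (u := Finset.univ) fun a _ => (h2 a).mul (h3 a)
  have h5 : fderiv ℝ (fun y => ∑ a, Φ1 a (X y) * (fderiv ℝ X y (ee j)) a) x = _ := h4.fderiv
  rw [h5, _root_.sum_apply, ← Finset.sum_add_distrib]
  refine Finset.sum_congr rfl fun a _ => ?_
  simp only [_root_.add_apply, _root_.smul_apply, ContinuousLinearMap.comp_apply, smul_eq_mul,
    fnl_apply, fd_apply_const h.hU h.sm hx]
  rw [add_comm]
  congr 1
  rw [Finset.mul_sum]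
  refine Finset.sum_congr rfl fun b _ => ?_
  ring

/-- the Laplacian of a composite function -/
theorem lap_comp {Ω : Set (Eu (n + 1))} {Φ : Eu (n + 1) → ℝ}
    {Φ1 : Fin (n + 1) → Eu (n + 1) → ℝ}
    {Φ2 : Fin (n + 1) → Fin (n + 1) → Eu (n + 1) → ℝ} (hJ : Jet Ω Φ Φ1 Φ2)
    (hXΩ : ∀ x ∈ U, X x ∈ Ω) {x : Eu n} (hx : x ∈ U) {ν : Eu (n + 1)} (hν : ν ≠ 0)
    (hνX : ∀ j, ⟪ν, fderiv ℝ X x (ee j)⟫ = 0) :
    lap X (fun x => Φ (X x)) x =
      -(∑ a, Φ2 a a (X x) - (∑ a, ∑ b, Φ2 a b (X x) * ν b * ν a) / ⟪ν, ν⟫) +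
      ∑ a, Φ1 a (X x) * (lap X X x) a := by
  rw [h.lap_eq (h.comp_sm hJ.sm hXΩ) hx, h.lap_eq h.sm hx]
  rw [← h.trace_eq hx hν hνX fun a b => Φ2 a b (X x)]
  simp only [h.fd2_comp hJ hXΩ hx, h.fd_comp hJ hXΩ hx, smul_eq_mul]
  have h1 : ∀ a : Fin (n + 1), (-(∑ i, ∑ j, ⟪phi X i x, phi X j x⟫ •
      fderiv ℝ (fderiv ℝ X) x (ee i) (ee j) + ∑ j, AA X x j • fderiv ℝ X x (ee j)) :
      Eu (n + 1)) a = -(∑ i, ∑ j, ⟪phi X i x, phi X j x⟫ *
      (fderiv ℝ (fderiv ℝ X) x (ee i) (ee j)) a +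
      ∑ j, AA X x j * (fderiv ℝ X x (ee j)) a) := by
    intro a
    simp
  simp only [h1]
  have h2 : ∑ a, Φ1 a (X x) * -(∑ i, ∑ j, ⟪phi X i x, phi X j x⟫ *
      (fderiv ℝ (fderiv ℝ X) x (ee i) (ee j)) a +
      ∑ j, AA X x j * (fderiv ℝ X x (ee j)) a) =
      -(∑ i, ∑ j, ⟪phi X i x, phi X j x⟫ *
        ∑ a, Φ1 a (X x) * (fderiv ℝ (fderiv ℝ X) x (ee i) (ee j)) a) -
      ∑ j, AA X x j * ∑ a, Φ1 a (X x) * (fderiv ℝ X x (ee j)) a := by
    simp only [Finset.mul_sum, mul_neg, mul_add, Finset.sum_neg_distrib, Finset.sum_add_distrib]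
    rw [neg_add, sub_eq_add_neg]
    congr 2
    · rw [Finset.sum_comm]
      refine Finset.sum_congr rfl fun i _ => ?_
      rw [Finset.sum_comm]
      refine Finset.sum_congr rfl fun j _ => ?_
      refine Finset.sum_congr rfl fun a _ => ?_
      ring
    · rw [Finset.sum_comm]
      refine Finset.sum_congr rfl fun j _ => ?_
      refine Finset.sum_congr rfl fun a _ => ?_
      ring
  rw [h2]
  simp only [mul_add, Finset.sum_add_distrib]
  ring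

/-- the Laplacian of the position vector of a level set -/
theorem lap_self {Ω : Set (Eu (n + 1))} {F : Eu (n + 1) → ℝ}
    {F1 : Fin (n + 1) → Eu (n + 1) → ℝ}
    {F2 : Fin (n + 1) → Fin (n + 1) → Eu (n + 1) → ℝ} (hF : Jet Ω F F1 F2)
    (hXΩ : ∀ x ∈ U, X x ∈ Ω) (hF0 : ∀ x ∈ U, F (X x) = 0) {x : Eu n} (hx : x ∈ U)
    (hW : ∑ a, F1 a (X x) ^ 2 ≠ 0) :
    ∀ a, (lap X X x) a = (∑ c, F2 c c (X x) - (∑ c, ∑ b, F2 c b (X x) * F1 b (X x) * F1 c (X x)) /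
      (∑ c, F1 c (X x) ^ 2)) / (∑ c, F1 c (X x) ^ 2) * F1 a (X x) := by
  set ν : Eu (n + 1) := WithLp.toLp 2 fun a => F1 a (X x) with hνdef
  have hνa : ∀ a, ν a = F1 a (X x) := fun a => rfl
  have hνν : ⟪ν, ν⟫ = ∑ a, F1 a (X x) ^ 2 := by
    rw [inner_eq_sum]
    refine Finset.sum_congr rfl fun a _ => ?_
    rw [hνa, sq]
  have hν : ν ≠ 0 := by
    intro h0
    apply hW
    rw [← hνν, h0, inner_zero_left]
  have hd0 : ∀ v, fderiv ℝ (fun x => F (X x)) x v = 0 := by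
    intro v
    have h1 : fderiv ℝ (fun x => F (X x)) x = fderiv ℝ (fun _ => (0 : ℝ)) x :=
      fd_congr h.hU (fun y hy => hF0 y hy) hx
    rw [h1]
    simp
  have hνX : ∀ j, ⟪ν, fderiv ℝ X x (ee j)⟫ = 0 := by
    intro j
    rw [inner_eq_sum, ← hd0 (ee j), h.fd_comp hF hXΩ hx]
  have hl0 : lap X (fun x => F (X x)) x = 0 := by
    have h1 : ∀ y ∈ U, fderiv ℝ (fun x => F (X x)) y = fderiv ℝ (fun _ => (0 : ℝ)) y :=
      fun y hy => fd_congr h.hU (fun y hy => hF0 y hy) hy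
    rw [h.lap_eq (h.comp_sm hF.sm hXΩ) hx]
    have h2 : fderiv ℝ (fderiv ℝ (fun x => F (X x))) x =
        fderiv ℝ (fun _ => (0 : Eu n →L[ℝ] ℝ)) x :=
      fd_congr h.hU (fun y hy => by rw [h1 y hy]; simp) hx
    rw [h2, h1 x hx]
    simp
  have hl := h.lap_comp hF hXΩ hx hν hνX
  rw [hl0, hνν] at hl
  have hexp := h.expand hx hν hνX (lap X X x)
  have hphi : ∀ i, ⟪phi X i x, lap X X x⟫ = 0 := fun i => b2 (h.b5 hx) i
  simp only [hphi, zero_smul, Finset.sum_const_zero, zero_add] at hexp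
  have hin : ⟪ν, lap X X x⟫ = ∑ a, F1 a (X x) * (lap X X x) a := by
    rw [inner_eq_sum]
  intro a
  have h5 := congrArg (fun v : Eu (n + 1) => v a) hexp
  have h6 : (lap X X x) a = ⟪ν, lap X X x⟫ / ⟪ν, ν⟫ * F1 a (X x) := by
    simpa using h5
  rw [h6, hνν, hin]
  have h7 : ∑ a, F1 a (X x) * (lap X X x) a = ∑ c, F2 c c (X x) -
      (∑ c, ∑ b, F2 c b (X x) * F1 b (X x) * F1 c (X x)) / (∑ c, F1 c (X x) ^ 2) := by
    simp only [hνa] at hl
    linarith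
  rw [h7]

end Imm

end

end Run7.h978
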