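import Mathlib
import Pool.Agent.Run7.h978.Hyp

set_option autoImplicit false

/-!
Polynomial form of the iterated Laplacian on a hypersurface contained in `{F = 0}`.
-/

open Set Filter Topology MvPolynomial
open scoped RealInnerProductSpace ContDiff
open Helper772Chen (ee diffAt sm_fderiv symm2 fd_congr fd_apply_const sm_apply_const fd_inner
  sm_inner)

namespace Run7.h978

variable {N : ℕ}

/-- the value of a polynomial -/
noncomputable def ev (p : MvPolynomial (Fin N) ℝ) (x : Eu N) : ℝ := eval (fun a => x a) p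

theorem hasFDerivAt_ev (p : MvPolynomial (Fin N) ℝ) (x : Eu N) :
    HasFDerivAt (ev p) (fnl fun a => ev (pderiv a p) x) x := by
  induction p using MvPolynomial.induction_on with
  | C r =>
    have h1 : (ev (C r) : Eu N → ℝ) = fun _ => r := by
      funext y
      simp [ev]
    have h2 : (fnl fun a => ev (pderiv a (C r)) x : Eu N →L[ℝ] ℝ) = 0 := by
      ext v
      rw [fnl_apply]
      simp [ev]
    rw [h1, h2]
    exact hasFDerivAt_const r x
  | add p q hp hq =>
    have h1 : (ev (p + q) : Eu N → ℝ) = fun y => ev p y + ev q y := by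
      funext y
      simp [ev]
    have h2 : (fnl fun a => ev (pderiv a (p + q)) x : Eu N →L[ℝ] ℝ) =
        (fnl fun a => ev (pderiv a p) x) + (fnl fun a => ev (pderiv a q) x) := by
      ext v
      rw [_root_.add_apply]
      simp only [fnl_apply, ← Finset.sum_add_distrib]
      refine Finset.sum_congr rfl fun a _ => ?_
      simp only [ev, map_add]
      ring
    rw [h1, h2]
    exact hp.add hq
  | mul_X p i hp =>
    have h1 : (ev (p * X i) : Eu N → ℝ) = fun y => ev p y * y i := by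
      funext y
      simp [ev]
    have h3 : HasFDerivAt (fun y : Eu N => y i) (EuclideanSpace.proj i : Eu N →L[ℝ] ℝ) x :=
      (EuclideanSpace.proj (𝕜 := ℝ) i).hasFDerivAt
    rw [h1]
    refine (hp.mul h3).congr_fderiv ?_
    ext v
    rw [_root_.add_apply, _root_.smul_apply, _root_.smul_apply, fnl_apply, fnl_apply]
    have h4 : ∀ a, ev (pderiv a (p * X i)) x =
        (if i = a then ev p x else 0) + ev (pderiv a p) x * x i := by
      intro a
      simp only [ev, Derivation.leibniz, map_add, smul_eq_mul, map_mul, pderiv_X, eval_X]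
      by_cases hia : i = a
      · subst hia
        simp
        ring
      · rw [Pi.single_apply, if_neg hia, if_neg hia]
        simp
        ring
    simp only [h4, add_mul, Finset.sum_add_distrib, ite_mul, zero_mul, Finset.sum_ite_eq,
      Finset.mem_univ, if_true, smul_eq_mul]
    congr 1
    rw [Finset.mul_sum]
    refine Finset.sum_congr rfl fun a _ => ?_
    ring

theorem sm_ev (p : MvPolynomial (Fin N) ℝ) : ContDiff ℝ ∞ (ev p) := by
  induction p using MvPolynomial.induction_on with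
  | C r =>
    have h1 : (ev (C r) : Eu N → ℝ) = fun _ => r := by
      funext y
      simp [ev]
    rw [h1]
    exact contDiff_const
  | add p q hp hq =>
    have h1 : (ev (p + q) : Eu N → ℝ) = fun y => ev p y + ev q y := by
      funext y
      simp [ev]
    rw [h1]
    exact hp.add hq
  | mul_X p i hp =>
    have h1 : (ev (p * X i) : Eu N → ℝ) = fun y => ev p y * y i := by
      funext y
      simp [ev]
    rw [h1]
    exact hp.mul (EuclideanSpace.proj (𝕜 := ℝ) i).contDiff

/-- the squared length of the gradient -/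
noncomputable def WW (F : MvPolynomial (Fin N) ℝ) : MvPolynomial (Fin N) ℝ :=
  ∑ a, pderiv a F ^ 2

/-- numerator of a partial derivative of `A / W ^ j` -/
noncomputable def PP (W : MvPolynomial (Fin N) ℝ) (j : ℕ) (A : MvPolynomial (Fin N) ℝ)
    (a : Fin N) : MvPolynomial (Fin N) ℝ :=
  pderiv a A * W - C (j : ℝ) * A * pderiv a W

theorem hasFDerivAt_quot {W : MvPolynomial (Fin N) ℝ} (j : ℕ) (A : MvPolynomial (Fin N) ℝ)
    {x : Eu N} (hx : ev W x ≠ 0) :
    HasFDerivAt (fun y => ev A y / ev W y ^ j)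
      (fnl fun a => ev (PP W j A a) x / ev W x ^ (j + 1)) x := by
  have h0 : HasDerivAt (fun t : ℝ => (t ^ j)⁻¹)
      (-(j * ev W x ^ (j - 1)) / (ev W x ^ j) ^ 2) (ev W x) :=
    (hasDerivAt_pow j (ev W x)).fun_inv (pow_ne_zero j hx)
  have h1 := (hasFDerivAt_ev A x).mul (h0.comp_hasFDerivAt x (hasFDerivAt_ev W x))
  have h00 : (fun y => ev A y / ev W y ^ j) = fun y => ev A y * (ev W y ^ j)⁻¹ := by
    funext y
    rw [div_eq_mul_inv]
  rw [h00]
  refine h1.congr_fderiv ?_
  ext v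
  simp only [_root_.smul_apply, _root_.add_apply, fnl_apply, smul_eq_mul, Function.comp_apply]
  have h2 : ∀ a, ev (PP W j A a) x / ev W x ^ (j + 1) * v a =
      (ev W x ^ j)⁻¹ * (ev (pderiv a A) x * v a) -
      ((j : ℝ) * ev A x / ev W x ^ (j + 1)) * (ev (pderiv a W) x * v a) := by
    intro a
    have h3 : ev (PP W j A a) x = ev (pderiv a A) x * ev W x - j * ev A x * ev (pderiv a W) x := by
      simp [PP, ev]
    rw [h3]
    field_simp
    ring
  simp only [h2, Finset.sum_sub_distrib, ← Finset.mul_sum]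
  rcases Nat.eq_zero_or_pos j with rfl | hj
  · simp
  · obtain ⟨l, rfl⟩ : ∃ l, j = l + 1 := ⟨j - 1, by omega⟩
    simp only [Nat.add_sub_cancel]
    field_simp
    ring

theorem jet_ev (p : MvPolynomial (Fin N) ℝ) (Ω : Set (Eu N)) :
    Jet Ω (ev p) (fun a => ev (pderiv a p)) (fun a b => ev (pderiv b (pderiv a p))) where
  sm := (sm_ev p).contDiffOn
  d1 := fun y _ => hasFDerivAt_ev p y
  d2 := fun a y _ => hasFDerivAt_ev (pderiv a p) y

theorem jet_quot (W : MvPolynomial (Fin N) ℝ) (j : ℕ) (A : MvPolynomial (Fin N) ℝ) :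
    Jet {y | ev W y ≠ 0} (fun y => ev A y / ev W y ^ j)
      (fun a y => ev (PP W j A a) y / ev W y ^ (j + 1))
      (fun a b y => ev (PP W (j + 1) (PP W j A a) b) y / ev W y ^ (j + 2)) where
  sm := (sm_ev A).contDiffOn.div ((sm_ev W).contDiffOn.pow j) fun y hy => pow_ne_zero j hy
  d1 := fun _ hy => hasFDerivAt_quot j A hy
  d2 := fun a _ hy => hasFDerivAt_quot (j + 1) (PP W j A a) hy

/-- the polynomial `∑ F_a F_b F_{ab}` -/
noncomputable def QF (F : MvPolynomial (Fin N) ℝ) : MvPolynomial (Fin N) ℝ :=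
  ∑ c, ∑ b, pderiv b (pderiv c F) * pderiv b F * pderiv c F

/-- numerator of the Laplacian of `A / W ^ j` -/
noncomputable def LL (F : MvPolynomial (Fin N) ℝ) (j : ℕ) (A : MvPolynomial (Fin N) ℝ) :
    MvPolynomial (Fin N) ℝ :=
  -(WW F * ∑ a, PP (WW F) (j + 1) (PP (WW F) j A a) a) +
    ∑ a, ∑ b, PP (WW F) (j + 1) (PP (WW F) j A a) b * pderiv b F * pderiv a F +
    (WW F * ∑ c, pderiv c (pderiv c F) - QF F) * ∑ a, pderiv a F * PP (WW F) j A a

theorem ev_LL (F : MvPolynomial (Fin N) ℝ) (j : ℕ) (A : MvPolynomial (Fin N) ℝ) (x : Eu N) :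
    ev (LL F j A) x = -(ev (WW F) x * ∑ a, ev (PP (WW F) (j + 1) (PP (WW F) j A a) a) x) +
    ∑ a, ∑ b, ev (PP (WW F) (j + 1) (PP (WW F) j A a) b) x * ev (pderiv b F) x *
      ev (pderiv a F) x +
    (ev (WW F) x * ∑ c, ev (pderiv c (pderiv c F)) x - ev (QF F) x) *
      ∑ a, ev (pderiv a F) x * ev (PP (WW F) j A a) x := by
  simp only [ev, LL, map_add, map_neg, map_mul, map_sum, map_sub]

theorem ev_WW (F : MvPolynomial (Fin N) ℝ) (x : Eu N) :
    ev (WW F) x = ∑ a, ev (pderiv a F) x ^ 2 := by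
  simp [ev, WW]

theorem ev_QF (F : MvPolynomial (Fin N) ℝ) (x : Eu N) :
    ev (QF F) x = ∑ c, ∑ b, ev (pderiv b (pderiv c F)) x * ev (pderiv b F) x *
      ev (pderiv c F) x := by
  simp [ev, QF]

section

variable {n : ℕ} {X : Eu n → Eu (n + 1)} {U : Set (Eu n)}

theorem lap_quot (h : Imm X U) {F : MvPolynomial (Fin (n + 1)) ℝ}
    (hF0 : ∀ x ∈ U, ev F (X x) = 0) (hW : ∀ x ∈ U, ev (WW F) (X x) ≠ 0)
    (j : ℕ) (A : MvPolynomial (Fin (n + 1)) ℝ) {x : Eu n} (hx : x ∈ U) :
    lap X (fun y => ev A (X y) / ev (WW F) (X y) ^ j) x =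
      ev (LL F j A) (X x) / ev (WW F) (X x) ^ (j + 3) := by
  have hWx := hW x hx
  have hWs := ev_WW F (X x)
  set ν : Eu (n + 1) := WithLp.toLp 2 fun a => ev (pderiv a F) (X x) with hνdef
  have hνa : ∀ a, ν a = ev (pderiv a F) (X x) := fun a => rfl
  have hνν : ⟪ν, ν⟫ = ev (WW F) (X x) := by
    rw [inner_eq_sum, hWs]
    refine Finset.sum_congr rfl fun a _ => ?_
    rw [hνa, sq]
  have hν : ν ≠ 0 := by
    intro h0
    apply hWx
    rw [← hνν, h0, inner_zero_left]
  have hd0 : ∀ v, fderiv ℝ (fun x => ev F (X x)) x v = 0 := by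
    intro v
    have h1 : fderiv ℝ (fun x => ev F (X x)) x = fderiv ℝ (fun _ => (0 : ℝ)) x :=
      fd_congr h.hU (fun y hy => hF0 y hy) hx
    rw [h1]
    simp
  have hνX : ∀ j, ⟪ν, fderiv ℝ X x (ee j)⟫ = 0 := by
    intro j
    rw [inner_eq_sum, ← hd0 (ee j), h.fd_comp (jet_ev F univ) (fun _ _ => mem_univ _) hx]
  have h1 := h.lap_comp (jet_quot (WW F) j A) hW hx hν hνX
  have h2 := h.lap_self (jet_ev F univ) (fun _ _ => mem_univ _) hF0 hx (by rw [← hWs]; exact hWx)
  rw [h1, ev_LL, ev_QF]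
  simp only [h2, ← hWs, hνν, hνa]
  have e1 : ∑ a, ev (PP (WW F) (j + 1) (PP (WW F) j A a) a) (X x) / ev (WW F) (X x) ^ (j + 2) =
      (∑ a, ev (PP (WW F) (j + 1) (PP (WW F) j A a) a) (X x)) / ev (WW F) (X x) ^ (j + 2) := by
    rw [Finset.sum_div]
  have e2 : ∑ a, ∑ b, ev (PP (WW F) (j + 1) (PP (WW F) j A a) b) (X x) /
      ev (WW F) (X x) ^ (j + 2) * ev (pderiv b F) (X x) * ev (pderiv a F) (X x) =
      (∑ a, ∑ b, ev (PP (WW F) (j + 1) (PP (WW F) j A a) b) (X x) * ev (pderiv b F) (X x) *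
        ev (pderiv a F) (X x)) / ev (WW F) (X x) ^ (j + 2) := by
    rw [Finset.sum_div]
    refine Finset.sum_congr rfl fun a _ => ?_
    rw [Finset.sum_div]
    refine Finset.sum_congr rfl fun b _ => ?_
    ring
  have e3 : ∀ κ : ℝ, ∑ a, ev (PP (WW F) j A a) (X x) / ev (WW F) (X x) ^ (j + 1) *
      (κ * ev (pderiv a F) (X x)) =
      κ * (∑ a, ev (pderiv a F) (X x) * ev (PP (WW F) j A a) (X x)) /
        ev (WW F) (X x) ^ (j + 1) := by
    intro κ
    rw [Finset.mul_sum, Finset.sum_div]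
    refine Finset.sum_congr rfl fun a _ => ?_
    ring
  rw [e1, e2, e3]
  field_simp
  ring

/-- linearity of the Laplacian -/
theorem lap_sum (h : Imm X U) {ι : Type*} [Fintype ι] {u : ι → Eu n → ℝ}
    (su : ∀ i, ContDiffOn ℝ ∞ (u i) U) (κ : ι → ℝ) {x : Eu n} (hx : x ∈ U) :
    lap X (fun y => ∑ i, κ i * u i y) x = ∑ i, κ i * lap X (u i) x := by
  have s1 : ContDiffOn ℝ ∞ (fun y => ∑ i, κ i * u i y) U :=
    ContDiffOn.sum fun i _ => contDiffOn_const.mul (su i)
  have h1 : ∀ y ∈ U, fderiv ℝ (fun y => ∑ i, κ i * u i y) y = ∑ i, κ i • fderiv ℝ (u i) y := by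
    intro y hy
    have := HasFDerivAt.fun_sum (u := Finset.univ)
      fun i _ => ((diffAt h.hU (su i) hy).hasFDerivAt.const_mul (κ i))
    exact this.fderiv
  have h2 : fderiv ℝ (fderiv ℝ (fun y => ∑ i, κ i * u i y)) x =
      ∑ i, κ i • fderiv ℝ (fderiv ℝ (u i)) x := by
    rw [fd_congr h.hU h1 hx]
    have := HasFDerivAt.fun_sum (u := Finset.univ)
      fun i _ => ((diffAt h.hU (sm_fderiv h.hU (su i)) hx).hasFDerivAt.const_smul (κ i))
    exact this.fderiv
  rw [h.lap_eq s1 hx, h2, h1 x hx]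
  simp only [fun i => h.lap_eq (su i) hx]
  simp only [_root_.sum_apply, _root_.smul_apply, smul_eq_mul, mul_neg, Finset.sum_neg_distrib,
    mul_add, Finset.sum_add_distrib, neg_add, Finset.mul_sum]
  congr 2
  · rw [Finset.sum_comm (s := (Finset.univ : Finset ι))]
    refine Finset.sum_congr rfl fun a _ => ?_
    rw [Finset.sum_comm (s := (Finset.univ : Finset ι))]
    refine Finset.sum_congr rfl fun b _ => ?_
    refine Finset.sum_congr rfl fun i _ => ?_
    ring
  · rw [Finset.sum_comm (s := (Finset.univ : Finset ι))]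
    refine Finset.sum_congr rfl fun a _ => ?_
    refine Finset.sum_congr rfl fun i _ => ?_
    ring

/-- components of a vector valued function -/
theorem lap_component (h : Imm X U) {u : Eu n → Eu (n + 1)} (su : ContDiffOn ℝ ∞ u U)
    (a : Fin (n + 1)) {x : Eu n} (hx : x ∈ U) :
    lap X (fun y => u y a) x = (lap X u x) a := by
  have s1 : ContDiffOn ℝ ∞ (fun y => u y a) U :=
    (EuclideanSpace.proj (𝕜 := ℝ) a).contDiff.comp_contDiffOn su
  have h1 : ∀ y ∈ U, fderiv ℝ (fun y => u y a) y =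
      (EuclideanSpace.proj (𝕜 := ℝ) a).comp (fderiv ℝ u y) := by
    intro y hy
    exact ((EuclideanSpace.proj (𝕜 := ℝ) a).hasFDerivAt.comp y
      (diffAt h.hU su hy).hasFDerivAt).fderiv
  have h2 : ∀ v w, fderiv ℝ (fderiv ℝ (fun y => u y a)) x v w =
      (fderiv ℝ (fderiv ℝ u) x v w) a := by
    intro v w
    rw [← fd_apply_const h.hU s1 hx, ← fd_apply_const h.hU su hx]
    have h3 : fderiv ℝ (fun y => fderiv ℝ (fun y => u y a) y w) x =
        fderiv ℝ (fun y => (fderiv ℝ u y w) a) x :=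
      fd_congr h.hU (fun y hy => by rw [h1 y hy]; rfl) hx
    rw [h3]
    have h4 : fderiv ℝ (fun y => (fderiv ℝ u y w) a) x =
      (EuclideanSpace.proj (𝕜 := ℝ) a).comp (fderiv ℝ (fun y => fderiv ℝ u y w) x) :=
      ((EuclideanSpace.proj (𝕜 := ℝ) a).hasFDerivAt.comp x
        (diffAt h.hU (sm_apply_const h.hU su w) hx).hasFDerivAt).fderiv
    rw [h4]
    rfl
  rw [h.lap_eq s1 hx, h.lap_eq su hx]
  simp only [h2, h1 x hx, ContinuousLinearMap.comp_apply]
  simp

/-- the operators `Δ - μ` on numerators -/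
noncomputable def iter (F : MvPolynomial (Fin N) ℝ) :
    List ℝ → ℕ → MvPolynomial (Fin N) ℝ → MvPolynomial (Fin N) ℝ
  | [], _, A => A
  | μ :: l, j, A => iter F l (j + 3) (LL F j A - C μ * WW F ^ 3 * A)

theorem iter_eq (h : Imm X U) {F : MvPolynomial (Fin (n + 1)) ℝ}
    (hF0 : ∀ x ∈ U, ev F (X x) = 0) (hW : ∀ x ∈ U, ev (WW F) (X x) ≠ 0)
    {ι : Type*} [Fintype ι] {u : ι → Eu n → ℝ} (su : ∀ i, ContDiffOn ℝ ∞ (u i) U)
    {μ : ι → ℝ} (hu : ∀ i, ∀ x ∈ U, lap X (u i) x = μ i * u i x) (l : List ℝ) :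
    ∀ (j : ℕ) (A : MvPolynomial (Fin (n + 1)) ℝ) (κ : ι → ℝ),
      (∀ x ∈ U, ev A (X x) / ev (WW F) (X x) ^ j = ∑ i, κ i * u i x) →
      ∀ x ∈ U, ev (iter F l j A) (X x) / ev (WW F) (X x) ^ (j + 3 * l.length) =
        ∑ i, (κ i * (l.map fun t => μ i - t).prod) * u i x := by
  induction l with
  | nil =>
    intro j A κ hA x hx
    simpa [iter] using hA x hx
  | cons t l ih =>
    intro j A κ hA x hx
    have h1 : ∀ x ∈ U, ev (LL F j A - C t * WW F ^ 3 * A) (X x) / ev (WW F) (X x) ^ (j + 3) =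
        ∑ i, (κ i * (μ i - t)) * u i x := by
      intro x hx
      have h2 := lap_quot h hF0 hW j A hx
      have h3 : lap X (fun y => ev A (X y) / ev (WW F) (X y) ^ j) x =
          lap X (fun y => ∑ i, κ i * u i y) x := by
        have s1 : ContDiffOn ℝ ∞ (fun y => ∑ i, κ i * u i y) U :=
          ContDiffOn.sum fun i _ => contDiffOn_const.mul (su i)
        have s2 : ContDiffOn ℝ ∞ (fun y => ev A (X y) / ev (WW F) (X y) ^ j) U :=
          s1.congr hA
        rw [h.lap_eq s1 hx, h.lap_eq s2 hx]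
        have e1 : ∀ y ∈ U, fderiv ℝ (fun y => ev A (X y) / ev (WW F) (X y) ^ j) y =
            fderiv ℝ (fun y => ∑ i, κ i * u i y) y := fun y hy => fd_congr h.hU hA hy
        rw [fd_congr h.hU e1 hx, e1 x hx]
      rw [h3, lap_sum h su κ hx] at h2
      simp only [fun i => hu i x hx] at h2
      have h4 : ev (LL F j A - C t * WW F ^ 3 * A) (X x) =
          ev (LL F j A) (X x) - t * ev (WW F) (X x) ^ 3 * ev A (X x) := by
        simp [ev]
      have h5 := hA x hx
      have hw := hW x hx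
      rw [h4, sub_div, ← h2]
      have h6 : t * ev (WW F) (X x) ^ 3 * ev A (X x) / ev (WW F) (X x) ^ (j + 3) =
          t * (ev A (X x) / ev (WW F) (X x) ^ j) := by
        field_simp
        ring
      rw [h6, h5, Finset.mul_sum, ← Finset.sum_sub_distrib]
      refine Finset.sum_congr rfl fun i _ => ?_
      ring
    have h2 := ih (j + 3) _ _ h1 x hx
    rw [iter, List.length_cons, show j + 3 * (l.length + 1) = j + 3 + 3 * l.length by ring, h2]
    refine Finset.sum_congr rfl fun i _ => ?_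
    rw [List.map_cons, List.prod_cons]
    ring

end

end Run7.h978
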