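import Mathlib
import Pool.Agent.Run7.h978.Poly

set_option autoImplicit false

/-!
Weighted degrees and the weighted leading part of the iterated Laplacian.
-/

open MvPolynomial

namespace Run7.h978

variable {N : ℕ}

/-- the weighted homogenization map -/
noncomputable def Th (ω : Fin N → ℕ) :
    MvPolynomial (Fin N) ℝ →ₐ[ℝ] Polynomial (MvPolynomial (Fin N) ℝ) :=
  aeval fun a => Polynomial.C (X a) * Polynomial.X ^ ω a

theorem Th_X (ω : Fin N → ℕ) (a : Fin N) :
    Th ω (X a) = Polynomial.C (X a) * Polynomial.X ^ ω a := by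
  simp [Th]

theorem Th_C (ω : Fin N → ℕ) (r : ℝ) : Th ω (C r) = Polynomial.C (C r) := by
  simp [Th]

/-- the graded component in degree `d` -/
noncomputable def gc (ω : Fin N → ℕ) (p : MvPolynomial (Fin N) ℝ) (d : ℤ) :
    MvPolynomial (Fin N) ℝ :=
  if 0 ≤ d then (Th ω p).coeff d.toNat else 0

theorem gc_nat (ω : Fin N → ℕ) (p : MvPolynomial (Fin N) ℝ) (d : ℕ) :
    gc ω p d = (Th ω p).coeff d := by
  simp [gc]

theorem gc_neg' (ω : Fin N → ℕ) (p : MvPolynomial (Fin N) ℝ) {d : ℤ} (hd : d < 0) :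
    gc ω p d = 0 := by
  simp [gc, not_le.mpr hd]

theorem Th_monomial (ω : Fin N → ℕ) (s : Fin N →₀ ℕ) (r : ℝ) :
    Th ω (monomial s r) = Polynomial.C (monomial s r) * Polynomial.X ^ (Finsupp.weight ω s) := by
  have h1 : (monomial s r : MvPolynomial (Fin N) ℝ) = C r * ∏ a, X a ^ s a := by
    rw [monomial_eq, Finsupp.prod_fintype _ _ (fun _ => pow_zero _)]
  rw [h1, map_mul, map_prod, Th_C]
  simp only [map_pow, Th_X, mul_pow, Finset.prod_mul_distrib, map_mul, map_prod, ← pow_mul]
  rw [mul_assoc]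
  congr 2
  rw [Finset.prod_pow_eq_pow_sum]
  congr 1
  rw [Finsupp.weight_apply, Finsupp.sum_fintype _ _ (fun _ => by simp)]
  refine Finset.sum_congr rfl fun a _ => ?_
  simp [mul_comm]

theorem coeff_Th (ω : Fin N → ℕ) (p : MvPolynomial (Fin N) ℝ) (e : ℕ) :
    (Th ω p).coeff e = weightedHomogeneousComponent ω e p := by
  classical
  induction p using MvPolynomial.induction_on' with
  | monomial s r =>
    rw [Th_monomial, Polynomial.coeff_C_mul, Polynomial.coeff_X_pow]
    ext t
    rw [coeff_weightedHomogeneousComponent]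
    by_cases h : e = Finsupp.weight ω s
    · rw [if_pos h, mul_one, coeff_monomial]
      by_cases h2 : s = t
      · subst h2
        rw [if_pos rfl, if_pos h.symm]
      · rw [if_neg h2]
        simp
    · rw [if_neg h, mul_zero, coeff_zero, coeff_monomial]
      by_cases h2 : s = t
      · subst h2
        rw [if_neg (Ne.symm h)]
      · rw [if_neg h2]
        simp
  | add p q hp hq =>
    rw [map_add, Polynomial.coeff_add, hp, hq, map_add]

theorem Th_pderiv (ω : Fin N → ℕ) (p : MvPolynomial (Fin N) ℝ) (a : Fin N) (e : ℕ) :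
    (Th ω (pderiv a p) * Polynomial.X ^ ω a).coeff e = pderiv a ((Th ω p).coeff e) := by
  induction p using MvPolynomial.induction_on' with
  | monomial s r =>
    rw [pderiv_monomial, Th_monomial, Th_monomial, mul_assoc, ← pow_add,
      Polynomial.coeff_C_mul, Polynomial.coeff_C_mul, Polynomial.coeff_X_pow,
      Polynomial.coeff_X_pow]
    by_cases hs : s a = 0
    · have h1 : (monomial (s - Finsupp.single a 1) (r * (s a : ℝ)) : MvPolynomial (Fin N) ℝ) = 0 := by
        rw [hs]
        simp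
      rw [h1, zero_mul, Derivation.leibniz, pderiv_monomial, h1]
      by_cases he : e = Finsupp.weight ω s
      · simp [he]
      · simp [he]
    · have h2 : Finsupp.weight ω (s - Finsupp.single a 1) + ω a = Finsupp.weight ω s := by
        have h3 : s - Finsupp.single a 1 + Finsupp.single a 1 = s := by
          ext b
          by_cases hb : a = b
          · subst hb
            simp
            omega
          · simp [hb]
        conv_rhs => rw [← h3, map_add, Finsupp.weight_single]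
        simp
      rw [h2]
      by_cases he : e = Finsupp.weight ω s
      · simp [he, pderiv_monomial]
      · simp [he]
  | add p q hp hq =>
    rw [map_add, map_add, add_mul, Polynomial.coeff_add, hp, hq, map_add, Polynomial.coeff_add,
      map_add]

theorem gc_pderiv (ω : Fin N → ℕ) (p : MvPolynomial (Fin N) ℝ) (a : Fin N) (d : ℤ) :
    gc ω (pderiv a p) (d - ω a) = pderiv a (gc ω p d) := by
  rcases lt_or_ge d 0 with hd | hd
  · rw [gc_neg' ω p hd, gc_neg' ω _ (by omega), map_zero]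
  · obtain ⟨e, rfl⟩ := Int.eq_ofNat_of_zero_le hd
    rw [gc_nat, ← Th_pderiv, Polynomial.coeff_mul_X_pow']
    by_cases h : ω a ≤ e
    · rw [if_pos h, ← gc_nat]
      congr 1
      omega
    · rw [if_neg h, gc_neg' ω _ (by omega)]

/-- `p` has weighted degree at most `d`, with component `t` in degree `d` -/
def Top (ω : Fin N → ℕ) (p : MvPolynomial (Fin N) ℝ) (d : ℤ) (t : MvPolynomial (Fin N) ℝ) : Prop :=
  (∀ e, d < e → gc ω p e = 0) ∧ gc ω p d = t

section

variable {ω : Fin N → ℕ} {p q t s : MvPolynomial (Fin N) ℝ} {d e : ℤ}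

theorem gc_add (ω : Fin N → ℕ) (p q : MvPolynomial (Fin N) ℝ) (d : ℤ) :
    gc ω (p + q) d = gc ω p d + gc ω q d := by
  unfold gc
  split
  · simp
  · simp

theorem gc_neg (ω : Fin N → ℕ) (p : MvPolynomial (Fin N) ℝ) (d : ℤ) :
    gc ω (-p) d = -gc ω p d := by
  unfold gc
  split
  · simp
  · simp

theorem gc_zero (ω : Fin N → ℕ) (d : ℤ) : gc ω 0 d = 0 := by
  simp [gc]

theorem Top.add (h : Top ω p d t) (h' : Top ω q d s) : Top ω (p + q) d (t + s) :=
  ⟨fun e he => by rw [gc_add, h.1 e he, h'.1 e he, add_zero], by rw [gc_add, h.2, h'.2]⟩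

theorem Top.neg (h : Top ω p d t) : Top ω (-p) d (-t) :=
  ⟨fun e he => by rw [gc_neg, h.1 e he, neg_zero], by rw [gc_neg, h.2]⟩

theorem Top.sub (h : Top ω p d t) (h' : Top ω q d s) : Top ω (p - q) d (t - s) := by
  rw [sub_eq_add_neg, sub_eq_add_neg]
  exact h.add h'.neg

theorem Top.zero : Top ω 0 d 0 := ⟨fun e _ => gc_zero ω e, gc_zero ω d⟩

theorem Top.sum {ι : Type*} (S : Finset ι) {p t : ι → MvPolynomial (Fin N) ℝ}
    (h : ∀ i ∈ S, Top ω (p i) d (t i)) : Top ω (∑ i ∈ S, p i) d (∑ i ∈ S, t i) := by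
  classical
  induction S using Finset.induction_on with
  | empty =>
    simpa using (Top.zero : Top ω 0 d 0)
  | insert a S ha ih =>
    rw [Finset.sum_insert ha, Finset.sum_insert ha]
    exact (h a (Finset.mem_insert_self a S)).add (ih fun i hi => h i (Finset.mem_insert_of_mem hi))

theorem Top.mono (h : Top ω p d t) (hde : d < e) : Top ω p e 0 :=
  ⟨fun e' he' => h.1 e' (hde.trans he'), h.1 e hde⟩

theorem Top.natDegree (h : Top ω p d t) (hd : 0 ≤ d) : (Th ω p).natDegree ≤ d.toNat := by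
  rw [Polynomial.natDegree_le_iff_coeff_eq_zero]
  intro k hk
  have := h.1 k (by omega)
  rwa [gc_nat] at this

theorem Top.eq_zero (h : Top ω p d t) (hd : d < 0) : Th ω p = 0 := by
  ext1 k
  have := h.1 k (by omega)
  rw [gc_nat] at this
  rw [this, Polynomial.coeff_zero]

theorem Top.mul (h : Top ω p d t) (h' : Top ω q e s) : Top ω (p * q) (d + e) (t * s) := by
  rcases lt_or_ge d 0 with hd | hd
  · have h0 := h.eq_zero hd
    have h1 : t = 0 := by rw [← h.2, gc_neg' ω p hd]
    have h2 : ∀ e, gc ω (p * q) e = 0 := by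
      intro e
      simp [gc, h0]
    exact ⟨fun e _ => h2 e, by rw [h2, h1, zero_mul]⟩
  rcases lt_or_ge e 0 with he | he
  · have h0 := h'.eq_zero he
    have h1 : s = 0 := by rw [← h'.2, gc_neg' ω q he]
    have h2 : ∀ e, gc ω (p * q) e = 0 := by
      intro e
      simp [gc, h0]
    exact ⟨fun e _ => h2 e, by rw [h2, h1, mul_zero]⟩
  have hn := h.natDegree hd
  have hn' := h'.natDegree he
  obtain ⟨d, rfl⟩ := Int.eq_ofNat_of_zero_le hd
  obtain ⟨e, rfl⟩ := Int.eq_ofNat_of_zero_le he
  simp only [Int.toNat_natCast] at hn hn'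
  constructor
  · intro k hk
    have hk0 : 0 ≤ k := by omega
    obtain ⟨k, rfl⟩ := Int.eq_ofNat_of_zero_le hk0
    rw [gc_nat, map_mul]
    apply Polynomial.coeff_eq_zero_of_natDegree_lt
    have h3 : (d : ℤ) + e < k := hk
    have h4 := Polynomial.natDegree_mul_le (p := Th ω p) (q := Th ω q)
    omega
  · have h3 : ((d : ℤ) + e) = ((d + e : ℕ) : ℤ) := by push_cast; rfl
    rw [h3, gc_nat, map_mul, Polynomial.coeff_mul_add_eq_of_natDegree_le hn hn', ← h.2, ← h'.2, gc_nat,
      gc_nat]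

theorem Top.C (r : ℝ) : Top ω (C r) 0 (C r) := by
  constructor
  · intro e he
    have he0 : 0 ≤ e := by omega
    obtain ⟨k, rfl⟩ := Int.eq_ofNat_of_zero_le he0
    rw [gc_nat, Th_C]
    apply Polynomial.coeff_C_of_ne_zero
    omega
  · have h3 : (0 : ℤ) = ((0 : ℕ) : ℤ) := rfl
    rw [h3, gc_nat, Th_C, Polynomial.coeff_C_zero]

theorem Top.X (a : Fin N) : Top ω (X a) (ω a) (X a) := by
  constructor
  · intro e he
    have he0 : 0 ≤ e := by omega
    obtain ⟨k, rfl⟩ := Int.eq_ofNat_of_zero_le he0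
    rw [gc_nat, Th_X, Polynomial.coeff_C_mul, Polynomial.coeff_X_pow, if_neg, mul_zero]
    rintro rfl
    exact lt_irrefl _ he
  · rw [gc_nat, Th_X, Polynomial.coeff_C_mul, Polynomial.coeff_X_pow, if_pos rfl, mul_one]

theorem Top.pderiv (h : Top ω p d t) (a : Fin N) :
    Top ω (pderiv a p) (d - ω a) (pderiv a t) := by
  constructor
  · intro e he
    have h1 : e = e + ω a - ω a := by ring
    rw [h1, gc_pderiv, h.1 _ (by omega), map_zero]
  · rw [gc_pderiv, h.2]

theorem Top.pow (h : Top ω p d t) (k : ℕ) : Top ω (p ^ k) (k * d) (t ^ k) := by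
  induction k with
  | zero =>
    simpa using Top.C (ω := ω) 1
  | succ k ih =>
    rw [pow_succ, pow_succ]
    have h1 : ((k + 1 : ℕ) : ℤ) * d = k * d + d := by push_cast; ring
    rw [h1]
    exact ih.mul h

/-- weighted degree at most `d` -/
def DL (ω : Fin N → ℕ) (p : MvPolynomial (Fin N) ℝ) (d : ℤ) : Prop := ∀ e, d < e → gc ω p e = 0

theorem DL.top (h : DL ω p d) : Top ω p d (gc ω p d) := ⟨h, rfl⟩

theorem Top.dl (h : Top ω p d t) : DL ω p d := h.1

theorem DL.mono (h : DL ω p d) (hde : d ≤ e) : DL ω p e := fun e' he' => h e' (by omega)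

theorem DL.add (h : DL ω p d) (h' : DL ω q d) : DL ω (p + q) d := (h.top.add h'.top).dl

theorem DL.sub (h : DL ω p d) (h' : DL ω q d) : DL ω (p - q) d := (h.top.sub h'.top).dl

theorem DL.neg (h : DL ω p d) : DL ω (-p) d := h.top.neg.dl

theorem DL.mul (h : DL ω p d) (h' : DL ω q e) : DL ω (p * q) (d + e) := (h.top.mul h'.top).dl

theorem DL.sum {ι : Type*} (S : Finset ι) {p : ι → MvPolynomial (Fin N) ℝ}
    (h : ∀ i ∈ S, DL ω (p i) d) : DL ω (∑ i ∈ S, p i) d :=
  (Top.sum S fun i hi => (h i hi).top).dl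

theorem DL.C (r : ℝ) : DL ω (C r) 0 := (Top.C r).dl

theorem DL.pderiv (h : DL ω p d) (a : Fin N) : DL ω (pderiv a p) (d - ω a) := (h.top.pderiv a).dl

end

section

variable {ω : Fin N → ℕ} {m : ℕ} {F f : MvPolynomial (Fin N) ℝ} {D : ℤ}

/-- the leading part of `|∇F|²` -/
noncomputable def wtop (ω : Fin N → ℕ) (m : ℕ) (f : MvPolynomial (Fin N) ℝ) :
    MvPolynomial (Fin N) ℝ :=
  ∑ a, if ω a = m then pderiv a f ^ 2 else 0

theorem top_WW (hm : ∀ a, m ≤ ω a) (hF : Top ω F D f) :
    Top ω (WW F) (2 * (D - m)) (wtop ω m f) := by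
  apply Top.sum
  intro a _
  have h1 := (hF.pderiv a).pow 2
  by_cases ha : ω a = m
  · rw [if_pos ha]
    have h2 : ((2 : ℕ) : ℤ) * (D - ω a) = 2 * (D - m) := by rw [ha]; norm_num
    rwa [h2] at h1
  · rw [if_neg ha]
    refine h1.mono ?_
    have := hm a
    push_cast
    omega

theorem dl_PP {W A : MvPolynomial (Fin N) ℝ} {δ e : ℤ} (hW : DL ω W δ) (hA : DL ω A e) (j : ℕ)
    (a : Fin N) : DL ω (PP W j A a) (e + δ - ω a) := by
  apply DL.sub
  · exact ((hA.pderiv a).mul hW).mono (by omega)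
  · exact (((DL.C (j : ℝ)).mul hA).mul (hW.pderiv a)).mono (by omega)

theorem dl_LL (hm : ∀ a, m ≤ ω a) (hF : DL ω F D) {A : MvPolynomial (Fin N) ℝ} {e : ℤ}
    (hA : DL ω A e) (j : ℕ) : DL ω (LL F j A) (e + 3 * (2 * (D - m)) - 2 * m) := by
  have hW : DL ω (WW F) (2 * (D - m)) := (top_WW hm hF.top).dl
  have hP : ∀ a, DL ω (PP (WW F) j A a) (e + 2 * (D - m) - ω a) := fun a => dl_PP hW hA j a
  have hPP : ∀ a b, DL ω (PP (WW F) (j + 1) (PP (WW F) j A a) b)
      (e + 2 * (2 * (D - m)) - ω a - ω b) := fun a b =>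
    (dl_PP hW (hP a) (j + 1) b).mono (by omega)
  unfold LL
  apply DL.add
  · apply DL.add
    · apply DL.neg
      have h1 : DL ω (∑ a, PP (WW F) (j + 1) (PP (WW F) j A a) a)
          (e + 2 * (2 * (D - m)) - 2 * m) :=
        DL.sum _ fun a _ => (hPP a a).mono (by have := hm a; omega)
      exact (hW.mul h1).mono (by omega)
    · apply DL.sum
      intro a _
      apply DL.sum
      intro b _
      refine (((hPP a b).mul (hF.pderiv b)).mul (hF.pderiv a)).mono ?_
      have := hm a
      have := hm b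
      omega
  · have h1 : DL ω (∑ c, pderiv c (pderiv c F)) (D - 2 * m) :=
      DL.sum _ fun c _ => ((hF.pderiv c).pderiv c).mono (by have := hm c; omega)
    have h2 : DL ω (QF F) (2 * (D - m) + (D - 2 * m)) := by
      apply DL.sum
      intro c _
      apply DL.sum
      intro b _
      refine ((((hF.pderiv c).pderiv b).mul (hF.pderiv b)).mul (hF.pderiv c)).mono ?_
      have := hm c
      have := hm b
      omega
    have h3 : DL ω (∑ a, pderiv a F * PP (WW F) j A a) (D + e + 2 * (D - m) - 2 * m) :=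
      DL.sum _ fun a _ => ((hF.pderiv a).mul (hP a)).mono (by have := hm a; omega)
    exact (((hW.mul h1).sub h2).mul h3).mono (by omega)

theorem top_iter (hm : ∀ a, m ≤ ω a) (hm1 : 1 ≤ m) (hF : Top ω F D f) (l : List ℝ) :
    ∀ (j : ℕ) (A t : MvPolynomial (Fin N) ℝ) (e : ℤ), Top ω A e t →
      Top ω (iter F l j A) (e + 3 * (2 * (D - m)) * l.length)
        (C ((l.map fun μ => -μ).prod) * wtop ω m f ^ (3 * l.length) * t) := by
  induction l with
  | nil =>
    intro j A t e hA
    simpa [iter] using hA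
  | cons μ l ih =>
    intro j A t e hA
    have hW := top_WW hm hF
    have h1 : Top ω (LL F j A) (e + 3 * (2 * (D - m))) 0 :=
      (dl_LL hm hF.dl hA.dl j).top.mono (by omega)
    have h2 : Top ω (C μ * WW F ^ 3 * A) (e + 3 * (2 * (D - m))) (C μ * wtop ω m f ^ 3 * t) := by
      have h3 := ((Top.C (ω := ω) μ).mul (hW.pow 3)).mul hA
      have h4 : (0 : ℤ) + ((3 : ℕ) : ℤ) * (2 * (D - m)) + e = e + 3 * (2 * (D - m)) := by
        push_cast; ring
      rwa [h4] at h3
    have h3 := ih (j + 3) _ _ _ (h1.sub h2)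
    have h4 : e + 3 * (2 * (D - m)) * (μ :: l).length =
        e + 3 * (2 * (D - m)) + 3 * (2 * (D - m)) * l.length := by
      rw [List.length_cons]; push_cast; ring
    have h5 : C (((μ :: l).map fun μ => -μ).prod) * wtop ω m f ^ (3 * (μ :: l).length) * t =
        C ((l.map fun μ => -μ).prod) * wtop ω m f ^ (3 * l.length) *
          (0 - C μ * wtop ω m f ^ 3 * t) := by
      rw [List.map_cons, List.prod_cons, List.length_cons, map_mul, map_neg]
      ring
    rw [iter, h4, h5]
    exact h3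

theorem Top.ne_zero_th {p : MvPolynomial (Fin N) ℝ} (hp : p ≠ 0) : Th ω p ≠ 0 := by
  classical
  intro h
  apply hp
  rw [← sum_weightedHomogeneousComponent ω p]
  have : ∀ e : ℕ, weightedHomogeneousComponent ω e p = 0 := by
    intro e
    rw [← coeff_Th, h, Polynomial.coeff_zero]
  simp [this]

theorem top_dvd {P t : MvPolynomial (Fin N) ℝ} {e : ℤ} (hF : Top ω F D f) (hf : f ≠ 0)
    (hP : Top ω P e t) (hd : F ∣ P) : f ∣ t := by
  obtain ⟨G, rfl⟩ := hd
  by_cases hG : G = 0
  · subst hG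
    rw [mul_zero] at hP
    rw [← hP.2, gc_zero]
    exact dvd_zero f
  have h1 : Th ω G ≠ 0 := Top.ne_zero_th hG
  set g : ℕ := (Th ω G).natDegree
  have h2 : Top ω G g (Th ω G).leadingCoeff := by
    constructor
    · intro k hk
      have hk0 : 0 ≤ k := by omega
      obtain ⟨k, rfl⟩ := Int.eq_ofNat_of_zero_le hk0
      rw [gc_nat]
      apply Polynomial.coeff_eq_zero_of_natDegree_lt
      exact_mod_cast hk
    · rw [gc_nat]
      rfl
  have h3 := hF.mul h2
  have h4 : f * (Th ω G).leadingCoeff ≠ 0 :=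
    mul_ne_zero hf (Polynomial.leadingCoeff_ne_zero.mpr h1)
  rcases lt_trichotomy (D + g) e with h | h | h
  · rw [← hP.2, (h3.mono h).2]
    exact dvd_zero f
  · rw [← hP.2, ← h, h3.2]
    exact Dvd.intro _ rfl
  · exfalso
    apply h4
    rw [← h3.2, hP.1 _ h]

end

end Run7.h978
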