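import Mathlib
import Pool.Agent.Run7.h978.Deg

set_option autoImplicit false

/-!
A polynomial vanishing on a piece of a hypersurface contained in `{F = 0}`, `F` irreducible,
is a multiple of `F`.
-/

open Set Filter Topology MvPolynomial
open scoped RealInnerProductSpace ContDiff
open Helper772Chen (ee diffAt)

namespace Run7.h978

theorem bezout {R : Type*} [CommRing R] [IsDomain R] [IsGCDMonoid R] {F G : Polynomial R}
    (hF : Irreducible F) (hd : F.natDegree ≠ 0) (hG : ¬F ∣ G) :
    ∃ r : R, r ≠ 0 ∧ ∃ u v : Polynomial R, u * F + v * G = Polynomial.C r := by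
  have hp := hF.isPrimitive hd
  set K := FractionRing R
  have h1 : Irreducible (F.map (algebraMap R K)) :=
    hp.irreducible_iff_irreducible_map_fraction_map.1 hF
  have h2 : ¬F.map (algebraMap R K) ∣ G.map (algebraMap R K) := fun h =>
    hG (hp.dvd_of_fraction_map_dvd_fraction_map h)
  obtain ⟨u, v, huv⟩ := (Irreducible.coprime_iff_not_dvd h1).2 h2
  obtain ⟨b, hb, hb'⟩ := IsLocalization.integerNormalization_spec (nonZeroDivisors R) u
  obtain ⟨c, hc, hc'⟩ := IsLocalization.integerNormalization_spec (nonZeroDivisors R) v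
  refine ⟨b * c, mul_ne_zero (nonZeroDivisors.ne_zero hb) (nonZeroDivisors.ne_zero hc),
    Polynomial.C c * IsLocalization.integerNormalization (nonZeroDivisors R) u,
    Polynomial.C b * IsLocalization.integerNormalization (nonZeroDivisors R) v, ?_⟩
  apply Polynomial.map_injective (algebraMap R K) (IsFractionRing.injective R K)
  have h3 : (b • u : Polynomial K) = Polynomial.C (algebraMap R K b) * u := by
    rw [← algebraMap_smul K b u, Polynomial.smul_eq_C_mul]
  have h4 : (c • v : Polynomial K) = Polynomial.C (algebraMap R K c) * v := by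
    rw [← algebraMap_smul K c v, Polynomial.smul_eq_C_mul]
  rw [Polynomial.map_add, Polynomial.map_mul, Polynomial.map_mul, Polynomial.map_mul,
    Polynomial.map_mul, hb', hc', Polynomial.map_C, Polynomial.map_C, Polynomial.map_C, h3, h4,
    map_mul, Polynomial.C_mul]
  linear_combination (Polynomial.C (algebraMap R K b) * Polynomial.C (algebraMap R K c)) * huv

/-- a polynomial which vanishes near a point is zero -/
theorem eq_zero_of_nhds {n : ℕ} {p : MvPolynomial (Fin n) ℝ} {y : Eu n}
    (h : ∀ᶠ z in 𝓝 y, ev p z = 0) : p = 0 := by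
  have h1 : Tendsto (fun w : Fin n → ℝ => (WithLp.toLp 2 w : Eu n)) (𝓝 (fun a => y a)) (𝓝 y) := by
    have h2 : Continuous (fun w : Fin n → ℝ => (WithLp.toLp 2 w : Eu n)) :=
      PiLp.continuous_toLp 2 _
    exact h2.tendsto (fun a => y a)
  have h2 := h1.eventually h
  obtain ⟨ε, hε, hε'⟩ := Metric.eventually_nhds_iff.1 h2
  refine MvPolynomial.funext_set (fun a => Metric.ball (y a) ε) (fun a => ?_) fun w hw => ?_
  · rw [Real.ball_eq_Ioo]
    exact Set.Ioo_infinite (by linarith)
  · have h3 : dist w (fun a => y a) < ε := by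
      rw [dist_pi_lt_iff hε]
      intro a
      exact hw a (mem_univ a)
    have := hε' h3
    rw [map_zero]
    exact this

section

variable {n : ℕ} {X : Eu n → Eu (n + 1)} {U : Set (Eu n)}

/-- forget the coordinate `a` -/
noncomputable def proj (a : Fin (n + 1)) : Eu (n + 1) →L[ℝ] Eu n :=
  ((EuclideanSpace.equiv (Fin n) ℝ).symm : (Fin n → ℝ) →L[ℝ] Eu n).comp
    (ContinuousLinearMap.pi fun i => EuclideanSpace.proj (a.succAbove i))

theorem proj_apply (a : Fin (n + 1)) (v : Eu (n + 1)) (i : Fin n) :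
    proj a v i = v (a.succAbove i) := rfl

theorem exists_open_proj (h : Imm X U) {x : Eu n} (hx : x ∈ U) :
    ∃ a : Fin (n + 1), map (fun y => proj a (X y)) (𝓝 x) = 𝓝 (proj a (X x)) := by
  have hinj := h.inj x hx
  have h1 : ∃ a : Fin (n + 1), ee a ∉ (fderiv ℝ X x).range := by
    by_contra hcon
    push Not at hcon
    have h2 : (fderiv ℝ X x).range = ⊤ := by
      rw [eq_top_iff]
      intro v _
      have h3 : v = ∑ a, v a • (ee a : Eu (n + 1)) := by
        ext b
        simp [ee, Pi.single_apply]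
      rw [h3]
      exact Submodule.sum_mem _ fun a _ => Submodule.smul_mem _ _ (hcon a)
    have h3 := LinearMap.finrank_range_of_inj (f := (fderiv ℝ X x).toLinearMap) hinj
    have h4 : Module.finrank ℝ (fderiv ℝ X x).range = n + 1 := by
      rw [h2]
      simp
    have h5 : Module.finrank ℝ (fderiv ℝ X x).range = Module.finrank ℝ (Eu n) := h3
    rw [h4] at h5
    simp at h5
  obtain ⟨a, ha⟩ := h1
  refine ⟨a, ?_⟩
  have hs : ContDiffAt ℝ ∞ X x := h.sm.contDiffAt (h.hU.mem_nhds hx)
  have hst : HasStrictFDerivAt X (fderiv ℝ X x) x := hs.hasStrictFDerivAt (by simp)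
  have hst2 : HasStrictFDerivAt (fun y => proj a (X y)) ((proj a).comp (fderiv ℝ X x)) x :=
    (proj a).hasStrictFDerivAt.comp x hst
  apply hst2.map_nhds_eq_of_surj
  have h6 : Function.Injective ((proj a).comp (fderiv ℝ X x)) := by
    rw [injective_iff_map_eq_zero]
    intro v hv
    have h7 : fderiv ℝ X x v = (fderiv ℝ X x v a) • (ee a : Eu (n + 1)) := by
      ext b
      rcases eq_or_ne b a with rfl | hb
      · simp [ee]
      · obtain ⟨i, rfl⟩ := Fin.exists_succAbove_eq hb
        have h8 : proj a (fderiv ℝ X x v) i = 0 := by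
          have : proj a (fderiv ℝ X x v) = 0 := hv
          rw [this]
          rfl
        rw [proj_apply] at h8
        rw [h8]
        simp [ee]
    have h9 : fderiv ℝ X x v a = 0 := by
      by_contra h10
      apply ha
      have h12 : (fderiv ℝ X x v a)⁻¹ * (fderiv ℝ X x v a) = 1 := inv_mul_cancel₀ h10
      have h13 : (ee a : Eu (n + 1)) = (fderiv ℝ X x v a)⁻¹ • (fderiv ℝ X x v) := by
        calc (ee a : Eu (n + 1)) = ((fderiv ℝ X x v a)⁻¹ * (fderiv ℝ X x v a)) • ee a := by
              rw [h12, one_smul]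
          _ = (fderiv ℝ X x v a)⁻¹ • ((fderiv ℝ X x v a) • ee a) := by rw [smul_smul]
          _ = (fderiv ℝ X x v a)⁻¹ • (fderiv ℝ X x v) := by rw [← h7]
      rw [h13]
      exact Submodule.smul_mem _ _ ⟨v, rfl⟩
    rw [h9, zero_smul] at h7
    exact (injective_iff_map_eq_zero _).1 hinj v h7
  have h7 : Function.Surjective ((proj a).comp (fderiv ℝ X x)) :=
    LinearMap.surjective_of_injective (f := ((proj a).comp (fderiv ℝ X x)).toLinearMap) h6
  exact LinearMap.range_eq_top.2 h7

/-- the isomorphism which singles out the coordinate `a` -/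
noncomputable def sing (a : Fin (n + 1)) :
    MvPolynomial (Fin (n + 1)) ℝ ≃ₐ[ℝ] Polynomial (MvPolynomial (Fin n) ℝ) :=
  (renameEquiv ℝ (finSuccEquiv' a)).trans
    ((renameEquiv ℝ (finSuccEquiv' (0 : Fin (n + 1))).symm).trans (finSuccEquiv ℝ n))

theorem eval_sing (a : Fin (n + 1)) (p : MvPolynomial (Fin (n + 1)) ℝ) (x : Eu (n + 1)) :
    Polynomial.eval (x a) (Polynomial.map (eval fun i => proj a x i) (sing a p)) = ev p x := by
  rw [sing]
  simp only [AlgEquiv.trans_apply]
  rw [← eval_eq_eval_mv_eval']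
  simp only [renameEquiv_apply, eval_rename, ev]
  congr 1
  congr 1
  funext b
  rcases eq_or_ne b a with rfl | hb
  · simp
  · obtain ⟨i, rfl⟩ := Fin.exists_succAbove_eq hb
    simp [proj_apply]

theorem dvd_of_vanish (h : Imm X U) (hne : U.Nonempty) {F G : MvPolynomial (Fin (n + 1)) ℝ}
    (hF : Irreducible F) (hF0 : ∀ x ∈ U, ev F (X x) = 0) (hG0 : ∀ x ∈ U, ev G (X x) = 0) :
    F ∣ G := by
  obtain ⟨x, hx⟩ := hne
  obtain ⟨a, ha⟩ := exists_open_proj h hx
  have hvan : ∀ r : MvPolynomial (Fin n) ℝ, (∀ y ∈ U, ev r (proj a (X y)) = 0) → r = 0 := by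
    intro r hr
    apply eq_zero_of_nhds (y := proj a (X x))
    rw [← ha, eventually_map]
    filter_upwards [h.hU.mem_nhds hx] with y hy
    exact hr y hy
  by_contra hcon
  have hFi : Irreducible (sing a F) := (MulEquiv.irreducible_iff (sing a)).2 hF
  have hGi : ¬(sing a F) ∣ (sing a G) := by
    intro h1
    exact hcon ((map_dvd_iff (sing a)).1 h1)
  rcases eq_or_ne (sing a F).natDegree 0 with hd | hd
  · rw [Polynomial.eq_C_of_natDegree_eq_zero hd] at hFi
    have h1 : (sing a F).coeff 0 = 0 := by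
      apply hvan
      intro y hy
      have h2 := eval_sing a F (X y)
      rw [hF0 y hy, Polynomial.eq_C_of_natDegree_eq_zero hd, Polynomial.map_C,
        Polynomial.eval_C] at h2
      exact h2
    rw [h1, Polynomial.C_0] at hFi
    exact not_irreducible_zero hFi
  · obtain ⟨r, hr0, u, v, huv⟩ := bezout hFi hd hGi
    apply hr0
    apply hvan
    intro y hy
    have h2 := congrArg (fun q => Polynomial.eval (X y a)
      (Polynomial.map (eval fun i => proj a (X y) i) q)) huv
    simp only [Polynomial.map_add, Polynomial.map_mul, Polynomial.eval_add, Polynomial.eval_mul,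
      eval_sing, hF0 y hy, hG0 y hy, mul_zero, add_zero, Polynomial.map_C, Polynomial.eval_C] at h2
    exact h2.symm

theorem not_dvd_pderiv {N : ℕ} {F : MvPolynomial (Fin N) ℝ} (a : Fin N)
    (hd : F ∣ pderiv a F) : pderiv a F = 0 := by
  by_contra h0
  obtain ⟨G, hG⟩ := hd
  have hF : F ≠ 0 := by
    rintro rfl
    simp at h0
  have hG0 : G ≠ 0 := by
    rintro rfl
    rw [mul_zero] at hG
    exact h0 hG
  set wt : Fin N → ℕ := fun _ => 1
  have h1 : Th wt F ≠ 0 := Top.ne_zero_th hF
  have h2 : Th wt G ≠ 0 := Top.ne_zero_th hG0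
  have h3 : DL wt F ((Th wt F).natDegree) := by
    intro k hk
    have hk0 : 0 ≤ k := by omega
    obtain ⟨k, rfl⟩ := Int.eq_ofNat_of_zero_le hk0
    rw [gc_nat]
    apply Polynomial.coeff_eq_zero_of_natDegree_lt
    exact_mod_cast hk
  have h4 := (h3.pderiv a).top
  have h5 : ((wt a : ℕ) : ℤ) = 1 := rfl
  rw [h5] at h4
  have h6 : (Th wt (pderiv a F)).natDegree = (Th wt F).natDegree + (Th wt G).natDegree := by
    rw [hG, map_mul, Polynomial.natDegree_mul h1 h2]
  rcases lt_or_ge (((Th wt F).natDegree : ℤ) - 1) 0 with h7 | h7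
  · exact Top.ne_zero_th h0 (h4.eq_zero h7)
  · have := h4.natDegree h7
    omega

theorem exists_pderiv_ne {N : ℕ} {F : MvPolynomial (Fin N) ℝ} (hF : Irreducible F) :
    ∃ a, pderiv a F ≠ 0 := by
  by_contra hcon
  push Not at hcon
  have h1 : ∀ x : Eu N, fderiv ℝ (ev F) x = 0 := by
    intro x
    rw [(hasFDerivAt_ev F x).fderiv]
    ext v
    rw [fnl_apply]
    simp [hcon, ev]
  have h2 : Differentiable ℝ (ev F) := fun x => (hasFDerivAt_ev F x).differentiableAt
  have h3 := is_const_of_fderiv_eq_zero h2 h1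
  have h4 : F = C (ev F 0) := by
    apply MvPolynomial.funext
    intro w
    rw [eval_C]
    exact h3 (WithLp.toLp 2 w) 0
  rw [h4] at hF
  rcases eq_or_ne (ev F 0) 0 with h5 | h5
  · rw [h5, C_0] at hF
    exact not_irreducible_zero hF
  · exact hF.not_isUnit ((isUnit_iff_ne_zero.2 h5).map C)

theorem exists_WW_ne (h : Imm X U) (hne : U.Nonempty) {F : MvPolynomial (Fin (n + 1)) ℝ}
    (hF : Irreducible F) (hF0 : ∀ x ∈ U, ev F (X x) = 0) : ∃ x ∈ U, ev (WW F) (X x) ≠ 0 := by
  by_contra hcon
  push Not at hcon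
  obtain ⟨a, ha⟩ := exists_pderiv_ne hF
  apply ha
  apply not_dvd_pderiv
  apply dvd_of_vanish h hne hF hF0
  intro x hx
  have h1 := hcon x hx
  rw [ev_WW] at h1
  have h2 := (Finset.sum_eq_zero_iff_of_nonneg (fun a _ => sq_nonneg (ev (pderiv a F) (X x)))).1 h1
    a (Finset.mem_univ a)
  exact pow_eq_zero_iff (two_ne_zero) |>.1 h2

/-- the local criterion -/
theorem local_criterion_top (h : Imm X U) (hne : U.Nonempty) {F : MvPolynomial (Fin (n + 1)) ℝ}
    (hF : Irreducible F) (hF0 : ∀ x ∈ U, ev F (X x) = 0)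
    {k : ℕ} (c : Eu (n + 1)) {u : Fin k → Eu n → Eu (n + 1)}
    (su : ∀ i, ContDiffOn ℝ ∞ (u i) U) {μ : Fin k → ℝ} (hμ : ∀ i, μ i ≠ 0)
    (hu : ∀ i, ∀ x ∈ U, lap X (u i) x = μ i • u i x) (hX : ∀ x ∈ U, X x = c + ∑ i, u i x)
    (wt : Fin (n + 1) → ℕ) {m : ℕ} (hm1 : 1 ≤ m) (hm : ∀ a, m ≤ wt a)
    {f : MvPolynomial (Fin (n + 1)) ℝ} {D : ℤ} (hTF : Top wt F D f) (hf0 : f ≠ 0)
    (b : Fin (n + 1) → ℂ) (hb : aeval b f = 0) :
    b = 0 ∨ ∑ a, (if wt a = m then aeval b (pderiv a f) ^ 2 else 0) = 0 := by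
  classical
  -- the good open set
  obtain ⟨x0, hx0, hx0'⟩ := exists_WW_ne h hne hF hF0
  set V : Set (Eu n) := U ∩ {x | ev (WW F) (X x) ≠ 0} with hV
  have hVo : IsOpen V := by
    have h1 : ContinuousOn (fun x => ev (WW F) (X x)) U :=
      (sm_ev (WW F)).continuous.comp_continuousOn h.sm.continuousOn
    exact h1.isOpen_inter_preimage h.hU isOpen_ne
  have hVi : Imm X V := h.mono hVo inter_subset_left
  have hVne : V.Nonempty := ⟨x0, hx0, hx0'⟩
  set l : List ℝ := List.ofFn μ with hl
  have key : ∀ a, f ∣ C ((l.map fun μ => -μ).prod) * wtop wt m f ^ (3 * l.length) *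
      (MvPolynomial.X a - 0) := by
    intro a
    have hA : Top wt (MvPolynomial.X a - C (c a)) (wt a) (MvPolynomial.X a - 0) := by
      refine (Top.X a).sub ((Top.C (c a)).mono ?_)
      have := hm a
      omega
    refine top_dvd hTF hf0 (top_iter hm hm1 hTF l 0 _ _ _ hA) ?_
    apply dvd_of_vanish hVi hVne hF fun x hx => hF0 x hx.1
    intro x hx
    have hsu : ∀ i, ContDiffOn ℝ ∞ (fun y => u i y a) V := fun i =>
      (EuclideanSpace.proj (𝕜 := ℝ) a).contDiff.comp_contDiffOn ((su i).mono inter_subset_left)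
    have h1 := iter_eq hVi (fun x hx => hF0 x hx.1) (fun x hx => hx.2) hsu (μ := μ)
      (fun i y hy => by
        rw [lap_component hVi ((su i).mono inter_subset_left) a hy, hu i y hy.1]
        rfl) l 0 (MvPolynomial.X a - C (c a)) (fun _ => 1) (by
        intro y hy
        have h2 : ev (MvPolynomial.X a - C (c a) : MvPolynomial (Fin (n + 1)) ℝ) (X y) =
            X y a - c a := by
          simp [ev]
        rw [h2, pow_zero, div_one, hX y hy.1]
        simp) x hx
    have h2 : ∀ i, (l.map fun t => μ i - t).prod = 0 := by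
      intro i
      apply List.prod_eq_zero
      rw [List.mem_map]
      exact ⟨μ i, by rw [hl, List.mem_ofFn]; exact ⟨i, rfl⟩, sub_self _⟩
    simp only [h2, mul_zero, zero_mul, Finset.sum_const_zero] at h1
    have h3 : ev (WW F) (X x) ^ (0 + 3 * l.length) ≠ 0 := pow_ne_zero _ hx.2
    exact (div_eq_zero_iff.1 h1).resolve_right h3
  have hprod : (l.map fun μ => -μ).prod ≠ 0 := by
    rw [Ne, List.prod_eq_zero_iff, List.mem_map]
    rintro ⟨t, ht, ht0⟩
    rw [hl, List.mem_ofFn] at ht
    obtain ⟨i, rfl⟩ := ht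
    exact hμ i (neg_eq_zero.1 ht0)
  have hw : aeval b (wtop wt m f) = ∑ a, (if wt a = m then aeval b (pderiv a f) ^ 2 else 0) := by
    rw [wtop, map_sum]
    refine Finset.sum_congr rfl fun a _ => ?_
    split
    · rw [map_pow]
    · rw [map_zero]
  by_cases hw0 : aeval b (wtop wt m f) = 0
  · right
    rw [← hw, hw0]
  · left
    funext a
    obtain ⟨G, hG⟩ := key a
    have h1 := congrArg (aeval b) hG
    have h1' : aeval b (f * G) = 0 := by rw [map_mul, hb, zero_mul]
    rw [h1', sub_zero, map_mul, map_mul, aeval_X, map_pow] at h1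
    have h2 : aeval b (C (List.map (fun μ => -μ) l).prod : MvPolynomial (Fin (n + 1)) ℝ) ≠
        (0 : ℂ) := by
      rw [aeval_C]
      simpa using hprod
    rcases mul_eq_zero.1 h1 with h3 | h3
    · exact absurd h3 (mul_ne_zero h2 (pow_ne_zero _ hw0))
    · rw [h3]
      rfl

theorem top_weighted (wt : Fin (n + 1) → ℕ) {F : MvPolynomial (Fin (n + 1)) ℝ} (hF : F ≠ 0) :
    Top wt F ((weightedTotalDegree wt F : ℕ) : ℤ)
      (weightedHomogeneousComponent wt (weightedTotalDegree wt F) F) ∧
    weightedHomogeneousComponent wt (weightedTotalDegree wt F) F ≠ 0 := by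
  classical
  set D := weightedTotalDegree wt F with hD
  set f := weightedHomogeneousComponent wt D F with hf
  constructor
  · constructor
    · intro e he
      have he0 : 0 ≤ e := by omega
      obtain ⟨e, rfl⟩ := Int.eq_ofNat_of_zero_le he0
      rw [gc_nat, coeff_Th]
      apply weightedHomogeneousComponent_eq_zero
      exact_mod_cast he
    · rw [gc_nat, coeff_Th]
  · intro hf0
    have h2 : ∀ s ∈ F.support, Finsupp.weight wt s < D := by
      intro s hs
      have h3 : Finsupp.weight wt s ≤ D := le_weightedTotalDegree wt hs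
      refine lt_of_le_of_ne h3 fun h4 => ?_
      have h5 : coeff s f = coeff s F := by
        rw [hf, coeff_weightedHomogeneousComponent, if_pos h4]
      rw [hf0, coeff_zero] at h5
      exact (mem_support_iff.1 hs) h5.symm
    obtain ⟨s, hs⟩ : F.support.Nonempty := by
      rw [Finset.nonempty_iff_ne_empty]
      intro h6
      exact hF (support_eq_empty.1 h6)
    have h7 : weightedTotalDegree wt F < D := by
      rw [weightedTotalDegree, Finset.sup_lt_iff]
      · exact h2
      · exact lt_of_le_of_lt (Nat.zero_le _) (h2 s hs)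
    exact lt_irrefl _ h7

end

end Run7.h978
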