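import Mathlib
import Pool.Agent.H234R3.Hopf
import Pool.Agent.Run7.h978.Dense

set_option autoImplicit false

/-!
A harmonic function for the metric induced by an immersion of a compact connected manifold is
constant. The local strong maximum principle is that of `Pool.Agent.H234R3.Hopf` (starting
repository).
-/

open Set Filter Topology Matrix Module
open scoped RealInnerProductSpace ContDiff Manifold
open Helper772Chen (ee diffAt sm_fderiv symm2 fd_congr fd_apply_const sm_apply_const fd_inner
  sm_inner)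

namespace Run7.h978

section

variable {n m : ℕ} {X : Eu n → Eu m} {U : Set (Eu n)}

/-- the induced metric, as a field of bilinear forms -/
noncomputable def GG (X : Eu n → Eu m) (z : Eu n) : Eu n →L[ℝ] Eu n →L[ℝ] ℝ :=
  ∑ c : Fin m, ((EuclideanSpace.proj (𝕜 := ℝ) c).comp (fderiv ℝ X z)).smulRight
    ((EuclideanSpace.proj (𝕜 := ℝ) c).comp (fderiv ℝ X z))

theorem GG_apply (z a b : Eu n) : GG X z a b = ⟪fderiv ℝ X z b, fderiv ℝ X z a⟫ := by
  rw [GG, _root_.sum_apply, _root_.sum_apply, inner_eq_sum]
  refine Finset.sum_congr rfl fun c _ => ?_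
  rw [mul_comm]
  rfl

theorem eu_sum (v : Eu n) : v = ∑ a, v a • (ee a : Eu n) := by
  ext b
  simp [ee, Pi.single_apply]

theorem der_eq (u : Eu n → ℝ) (y a : Eu n) : Pool.Agent.H234R3.der u y a = fderiv ℝ u y a := rfl

theorem dd_eq {u : Eu n → ℝ} {y : Eu n} (hU : IsOpen U) (su : ContDiffOn ℝ ∞ u U) (hy : y ∈ U)
    (a : Eu n) : Pool.Agent.H234R3.dd u y a = fderiv ℝ (fderiv ℝ u) y a a := by
  unfold Pool.Agent.H234R3.dd
  have hc : Continuous fun t : ℝ => y + t • a := by fun_prop
  have h0 : ∀ᶠ t : ℝ in 𝓝 0, y + t • a ∈ U := by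
    apply hc.continuousAt.eventually
    apply hU.mem_nhds
    simpa using hy
  have hl : ∀ t : ℝ, HasDerivAt (fun t : ℝ => y + t • a) a t := by
    intro t
    have := ((hasDerivAt_id t).smul_const a).const_add y
    simpa using this
  have h1 : (deriv fun t : ℝ => u (y + t • a)) =ᶠ[𝓝 0] fun t => fderiv ℝ u (y + t • a) a := by
    filter_upwards [h0] with t ht
    exact ((diffAt hU su ht).hasFDerivAt.comp_hasDerivAt t (hl t)).deriv
  rw [h1.deriv_eq]
  have h2 : HasFDerivAt (fun z => fderiv ℝ u z a) (fderiv ℝ (fun z => fderiv ℝ u z a) y)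
      (y + (0 : ℝ) • a) := by
    rw [zero_smul, add_zero]
    exact (diffAt hU (sm_apply_const hU su a) hy).hasFDerivAt
  have h3 := (h2.comp_hasDerivAt (0 : ℝ) (hl 0)).deriv
  rw [show (fun t : ℝ => fderiv ℝ u (y + t • a) a) =
    (fun z => fderiv ℝ u z a) ∘ (fun t : ℝ => y + t • a) from rfl, h3,
    fd_apply_const hU su hy]

namespace Imm

variable (h : Imm X U)
include h

theorem phi_dX {x : Eu n} (hx : x ∈ U) (i : Fin n) (v : Eu n) :
    ⟪phi X i x, fderiv ℝ X x v⟫ = v i := by
  conv_lhs => rw [eu_sum v]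
  rw [map_sum, inner_sum]
  simp only [map_smul, real_inner_smul_right, h.b1 hx]
  simp

theorem dX_expand {x : Eu n} (hx : x ∈ U) (v : Eu n) :
    ∑ k, ⟪fderiv ℝ X x v, fderiv ℝ X x (ee k)⟫ • phi X k x = fderiv ℝ X x v := by
  have h1 : ∀ k, phi X k x = ∑ l, ⟪phi X k x, phi X l x⟫ • fderiv ℝ X x (ee l) := by
    intro k
    conv_lhs => rw [phi]
    refine Finset.sum_congr rfl fun l _ => ?_
    rw [h.ginv hx]
  have h2 : ∑ k, ⟪fderiv ℝ X x v, fderiv ℝ X x (ee k)⟫ • phi X k x =
      ∑ l, (∑ k, (metric X x)⁻¹ l k * ⟪fderiv ℝ X x (ee k), fderiv ℝ X x v⟫) •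
        fderiv ℝ X x (ee l) := by
    calc ∑ k, ⟪fderiv ℝ X x v, fderiv ℝ X x (ee k)⟫ • phi X k x
        = ∑ k, ∑ l, (⟪fderiv ℝ X x v, fderiv ℝ X x (ee k)⟫ * ⟪phi X k x, phi X l x⟫) •
            fderiv ℝ X x (ee l) := by
          refine Finset.sum_congr rfl fun k _ => ?_
          conv_lhs => rw [h1 k]
          rw [Finset.smul_sum]
          refine Finset.sum_congr rfl fun l _ => ?_
          rw [smul_smul]
      _ = _ := by
          rw [Finset.sum_comm]
          refine Finset.sum_congr rfl fun l _ => ?_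
          rw [Finset.sum_smul]
          refine Finset.sum_congr rfl fun k _ => ?_
          rw [← h.ginv hx, real_inner_comm (phi X l x), real_inner_comm (fderiv ℝ X x v), mul_comm]
  rw [h2]
  simp only [← phi_inner, h.phi_dX hx]
  conv_rhs => rw [eu_sum v]
  rw [map_sum]
  simp only [map_smul]

theorem AA_eq {x : Eu n} (hx : x ∈ U) (k : Fin n) :
    AA X x k = -∑ i, ∑ j, ⟪phi X i x, phi X j x⟫ *
      ⟪phi X k x, fderiv ℝ (fderiv ℝ X) x (ee i) (ee j)⟫ := by
  have h1 := b2 (h.b5 hx) k
  rw [h.lap_eq h.sm hx, inner_neg_right, inner_add_right, inner_sum, inner_sum] at h1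
  simp only [inner_sum, real_inner_smul_right, h.b1 hx] at h1
  simp at h1
  linarith

/-- a harmonic function satisfies the hypothesis of the maximum principle -/
theorem subAt {u : Eu n → ℝ} (su : ContDiffOn ℝ ∞ u U) {x : Eu n} (hx : x ∈ U)
    (hu : lap X u x = 0) :
    Pool.Agent.H234R3.SubAt (fun z a b => GG X z a b) u x := by
  classical
  have hinj := h.inj x hx
  set L := fderiv ℝ X x with hL
  have hfr : finrank ℝ L.toLinearMap.range = finrank ℝ (Eu n) :=
    LinearMap.finrank_range_of_inj (f := L.toLinearMap) hinj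
  let E := LinearEquiv.ofInjective L.toLinearMap hinj
  let b0 : OrthonormalBasis (Fin (finrank ℝ (Eu n))) ℝ L.toLinearMap.range :=
    (stdOrthonormalBasis ℝ L.toLinearMap.range).reindex (finCongr hfr)
  let e : Basis (Fin (finrank ℝ (Eu n))) ℝ (Eu n) := b0.toBasis.map E.symm
  have he : ∀ i, L (e i) = (b0 i : Eu m) := by
    intro i
    have h1 : E (e i) = b0 i := by
      simp [e]
    have h2 : ((E (e i) : L.toLinearMap.range) : Eu m) = L (e i) := rfl
    rw [← h2, h1]
  let Γ : Eu n → Eu n → Eu n := fun a b => ∑ k, ⟪phi X k x, fderiv ℝ (fderiv ℝ X) x a b⟫ • ee k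
  refine ⟨Γ, e, ?_, ?_, ?_⟩
  · -- Koszul
    intro a b c
    have hk : ∀ a b c : Eu n, Pool.Agent.H234R3.der (fun z => GG X z b c) x a =
        ⟪fderiv ℝ X x c, fderiv ℝ (fderiv ℝ X) x a b⟫ +
          ⟪fderiv ℝ (fderiv ℝ X) x a c, fderiv ℝ X x b⟫ := by
      intro a b c
      rw [der_eq]
      have : (fun z => GG X z b c) = fun z => ⟪fderiv ℝ X z c, fderiv ℝ X z b⟫ := by
        funext z
        exact GG_apply z b c
      rw [this, fd_inner h.hU (sm_apply_const h.hU h.sm c) (sm_apply_const h.hU h.sm b) hx,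
        fd_apply_const h.hU h.sm hx, fd_apply_const h.hU h.sm hx]
    have h1 : GG X x (Γ a b) c = ⟪fderiv ℝ X x c, fderiv ℝ (fderiv ℝ X) x a b⟫ := by
      rw [GG_apply]
      simp only [Γ]
      rw [map_sum, inner_sum]
      conv_rhs => rw [← h.dX_expand hx c]
      rw [sum_inner]
      refine Finset.sum_congr rfl fun k _ => ?_
      rw [map_smul, real_inner_smul_right, real_inner_smul_left, mul_comm]
    show GG X x (Γ a b) c = _
    rw [h1, Pool.Agent.H234R3.koszul]
    rw [hk a b c, hk b a c, hk c a b, symm2 h.hU h.sm hx b a, symm2 h.hU h.sm hx c a,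
      symm2 h.hU h.sm hx c b, real_inner_comm (fderiv ℝ X x b), real_inner_comm (fderiv ℝ X x a)]
    ring
  · intro i j
    show GG X x (e i) (e j) = _
    rw [GG_apply, ← hL, he, he]
    have := orthonormal_iff_ite.1 b0.orthonormal j i
    rw [show (⟪((b0 j : L.toLinearMap.range) : Eu m), ((b0 i : L.toLinearMap.range) : Eu m)⟫ : ℝ) =
      ⟪b0 j, b0 i⟫ from rfl, this]
    by_cases hij : i = j
    · simp [hij]
    · rw [if_neg hij, if_neg (Ne.symm hij)]
  · -- the trace
    let B : Eu n → Eu n → ℝ := fun a b => fderiv ℝ (fderiv ℝ u) x a b -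
      ∑ k, ⟪phi X k x, fderiv ℝ (fderiv ℝ X) x a b⟫ * fderiv ℝ u x (ee k)
    have hB : ∀ a b : Eu n, B a b = ∑ i, ∑ j, a i * b j * B (ee i) (ee j) := by
      intro a b
      have h1 : ∀ {V : Type} [NormedAddCommGroup V] [NormedSpace ℝ V] (T : Eu n →L[ℝ] Eu n →L[ℝ] V),
          T a b = ∑ i, ∑ j, (a i * b j) • T (ee i) (ee j) := by
        intro V _ _ T
        have k1 : T a = ∑ i, a i • T (ee i) := by
          conv_lhs => rw [eu_sum a]
          rw [map_sum]
          simp only [map_smul]
        have k2 : ∀ i, T (ee i) b = ∑ j, b j • T (ee i) (ee j) := by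
          intro i
          conv_lhs => rw [eu_sum b]
          rw [map_sum]
          simp only [map_smul]
        rw [k1, _root_.sum_apply]
        refine Finset.sum_congr rfl fun i _ => ?_
        rw [_root_.smul_apply, k2, Finset.smul_sum]
        refine Finset.sum_congr rfl fun j _ => ?_
        rw [smul_smul]
      simp only [B]
      rw [h1 (fderiv ℝ (fderiv ℝ u) x), h1 (fderiv ℝ (fderiv ℝ X) x)]
      simp only [inner_sum, real_inner_smul_right, smul_eq_mul, mul_sub, Finset.sum_sub_distrib]
      congr 1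
      simp only [Finset.sum_mul, Finset.mul_sum]
      rw [Finset.sum_comm]
      refine Finset.sum_congr rfl fun i _ => ?_
      rw [Finset.sum_comm]
      refine Finset.sum_congr rfl fun j _ => ?_
      refine Finset.sum_congr rfl fun k _ => ?_
      ring
    have h2 : ∀ i, Pool.Agent.H234R3.dd u x (e i) -
        Pool.Agent.H234R3.der u x (Γ (e i) (e i)) = B (e i) (e i) := by
      intro i
      rw [dd_eq h.hU su hx, der_eq]
      simp only [B, Γ]
      rw [map_sum]
      simp only [map_smul, smul_eq_mul]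
    have h3 : ∀ i j, ∑ k, e k i * e k j = ⟪phi X i x, phi X j x⟫ := by
      intro i j
      have hm : ∀ i, phi X i x ∈ L.toLinearMap.range := by
        intro i
        rw [phi]
        exact Submodule.sum_mem _ fun j _ => Submodule.smul_mem _ _ ⟨ee j, rfl⟩
      have h4 := b0.sum_inner_mul_inner (⟨phi X i x, hm i⟩ : L.toLinearMap.range)
        ⟨phi X j x, hm j⟩
      have h5 : (inner ℝ (⟨phi X i x, hm i⟩ : L.toLinearMap.range) ⟨phi X j x, hm j⟩ : ℝ) =
        ⟪phi X i x, phi X j x⟫ := rfl
      rw [← h5, ← h4]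
      refine Finset.sum_congr rfl fun k _ => ?_
      have h6 : ∀ i, (inner ℝ (⟨phi X i x, hm i⟩ : L.toLinearMap.range) (b0 k) : ℝ) = e k i := by
        intro i
        rw [← h.phi_dX hx i (e k), ← hL, he]
        rfl
      rw [h6 i, real_inner_comm, h6 j]
    have h4 : ∑ i, (Pool.Agent.H234R3.dd u x (e i) -
        Pool.Agent.H234R3.der u x (Γ (e i) (e i))) = -lap X u x := by
      simp only [h2]
      calc ∑ k, B (e k) (e k) = ∑ i, ∑ j, (∑ k, e k i * e k j) * B (ee i) (ee j) := by
            simp only [hB (e _) (e _), Finset.sum_mul]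
            rw [Finset.sum_comm]
            refine Finset.sum_congr rfl fun i _ => ?_
            rw [Finset.sum_comm]
        _ = ∑ i, ∑ j, ⟪phi X i x, phi X j x⟫ * B (ee i) (ee j) := by simp only [h3]
        _ = _ := by
            rw [h.lap_eq su hx, neg_neg]
            simp only [B, mul_sub, Finset.sum_sub_distrib, smul_eq_mul, h.AA_eq hx]
            rw [sub_eq_add_neg]
            congr 1
            simp only [neg_mul, Finset.sum_neg_distrib]
            congr 1
            simp only [Finset.sum_mul, Finset.mul_sum]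
            rw [Finset.sum_comm' (s := Finset.univ) (t := fun _ => Finset.univ)
              (s' := fun _ => Finset.univ) (t' := Finset.univ) (by simp)]
            rw [Finset.sum_comm]
            have e1 : ∀ (T : Fin n → Fin n → Fin n → ℝ),
                ∑ i, ∑ j, ∑ k, T i j k = ∑ k, ∑ i, ∑ j, T i j k := by
              intro T
              calc ∑ i, ∑ j, ∑ k, T i j k = ∑ i, ∑ k, ∑ j, T i j k :=
                    Finset.sum_congr rfl fun i _ => Finset.sum_comm
                _ = _ := Finset.sum_comm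
            rw [e1]
            refine Finset.sum_congr rfl fun k _ => Finset.sum_congr rfl fun i _ =>
              Finset.sum_congr rfl fun j _ => ?_
            ring
    rw [h4, hu, neg_zero]

theorem GG_smooth {x : Eu n} (hx : x ∈ U) : ContDiffAt ℝ ∞ (GG X) x := by
  have h1 : ContDiffAt ℝ ∞ (fderiv ℝ X) x :=
    (sm_fderiv h.hU h.sm).contDiffAt (h.hU.mem_nhds hx)
  have h2 : ∀ c : Fin m, ContDiffAt ℝ ∞
      (fun z => (EuclideanSpace.proj (𝕜 := ℝ) c).comp (fderiv ℝ X z)) x := fun c =>
    contDiffAt_const.clm_comp h1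
  exact ContDiffAt.sum fun c _ => (h2 c).smulRight (h2 c)

theorem GG_pos {x : Eu n} (hx : x ∈ U) (v : Eu n) (hv : v ≠ 0) : 0 < GG X x v v := by
  rw [GG_apply]
  apply real_inner_self_pos.2
  intro h0
  exact hv ((injective_iff_map_eq_zero _).1 (h.inj x hx) v h0)

/-- local constancy at an interior maximum -/
theorem max_local {u : Eu n → ℝ} (su : ContDiffOn ℝ ∞ u U) (hu : ∀ x ∈ U, lap X u x = 0)
    {x : Eu n} (hx : x ∈ U) (hmax : ∀ y ∈ U, u y ≤ u x) : ∀ᶠ y in 𝓝 x, u y = u x := by
  refine Pool.Agent.H234R3.local_smp (G := GG X) ((h.GG_smooth hx).of_le (by simp))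
    (h.GG_pos hx) ((su.contDiffAt (h.hU.mem_nhds hx)).of_le ENat.LEInfty.out) ?_ ?_
  · filter_upwards [h.hU.mem_nhds hx] with y hy
    exact h.subAt su hy (hu y hy)
  · filter_upwards [h.hU.mem_nhds hx] with y hy
    exact hmax y hy

end Imm

end

section mfd

variable {n : ℕ} {M : Type*} [TopologicalSpace M] [ChartedSpace (Eu n) M]

theorem imm_of_chart {m : ℕ} {x : M → Eu m} (hx : IsImmersion n x)
    {e : OpenPartialHomeomorph M (Eu n)} (he : e ∈ atlas (Eu n) M) :
    Imm (x ∘ e.symm) e.target := ⟨e.open_target, hx.1 e he, hx.2 e he⟩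

theorem IsSmooth.continuous {m : ℕ} {u : M → Eu m} (hu : IsSmooth n u) : Continuous u := by
  rw [continuous_iff_continuousAt]
  intro p
  set e := chartAt (Eu n) p with he
  have hps : p ∈ e.source := mem_chart_source (Eu n) p
  have h1 := hu e (chart_mem_atlas (Eu n) p)
  have h2 : ContinuousAt (u ∘ e.symm) (e p) :=
    (h1.continuousOn).continuousAt (e.open_target.mem_nhds (e.map_source hps))
  have h3 : ContinuousAt ((u ∘ e.symm) ∘ e) p := h2.comp (e.continuousAt hps)
  refine h3.congr ?_
  filter_upwards [e.open_source.mem_nhds hps] with q hq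
  simp only [Function.comp_apply]
  rw [e.left_inv hq]

/-- a harmonic map on a compact connected hypersurface is constant -/
theorem harmonic_const [CompactSpace M] [ConnectedSpace M] {x u : M → Eu (n + 1)}
    (hx : IsImmersion n x) (hu : IsEigenmap n x u 0) (p q : M) : u p = u q := by
  have hcomp : ∀ a, ∃ c : ℝ, ∀ p, u p a = c := by
    intro a
    have hc : Continuous fun p => u p a :=
      (EuclideanSpace.proj (𝕜 := ℝ) a).continuous.comp hu.1.continuous
    obtain ⟨p, -, hp⟩ := isCompact_univ.exists_isMaxOn univ_nonempty hc.continuousOn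
    have hmax : ∀ x, u x a ≤ u p a := fun x => hp (mem_univ x)
    have hS : IsClopen {x | u x a = u p a} := by
      refine ⟨isClosed_eq hc continuous_const, ?_⟩
      rw [isOpen_iff_mem_nhds]
      intro x0 hx0
      have hx0' : u x0 a = u p a := hx0
      set e := chartAt (Eu n) x0 with he
      have hea : e ∈ atlas (Eu n) M := chart_mem_atlas (Eu n) x0
      have hi := imm_of_chart hx hea
      have hs := hu.1 e hea
      have hx0s : x0 ∈ e.source := mem_chart_source (Eu n) x0
      have hb : e.symm (e x0) = x0 := e.left_inv hx0s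
      have h1 := hi.max_local (u := fun y => (u ∘ e.symm) y a)
        ((EuclideanSpace.proj (𝕜 := ℝ) a).contDiff.comp_contDiffOn hs) (by
          intro y hy
          rw [lap_component hi hs a hy, hu.2 e hea y hy, zero_smul]
          rfl) (e.map_source hx0s) (by
          intro y _
          simp only [Function.comp_apply]
          rw [hb, hx0']
          exact hmax _)
      have h2 := (e.continuousAt hx0s).eventually h1
      filter_upwards [h2, e.open_source.mem_nhds hx0s] with x hx hxs
      simp only [Function.comp_apply] at hx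
      rw [hb, e.left_inv hxs] at hx
      show u x a = u p a
      rw [hx, hx0']
    have huniv := hS.eq_univ ⟨p, rfl⟩
    refine ⟨u p a, fun x => ?_⟩
    have : x ∈ {x | u x a = u p a} := by rw [huniv]; trivial
    exact this
  ext a
  obtain ⟨c, hc⟩ := hcomp a
  rw [hc, hc]

end mfd

end Run7.h978
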