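import Mathlib
import Pool.Agent.Run7.h978.Max

set_option autoImplicit false

/-!
The criterion for compact manifolds.
-/

open Set Filter Topology MvPolynomial
open scoped RealInnerProductSpace ContDiff Manifold

namespace Run7.h978

variable {n : ℕ} {M : Type*} [TopologicalSpace M] [ChartedSpace (Eu n) M]

theorem eigenvalue_ne_zero [CompactSpace M] [ConnectedSpace M] {x u : M → Eu (n + 1)}
    (hx : IsImmersion n x) {μ : ℝ} (hu : IsEigenmap n x u μ) (hne : ∃ p q, u p ≠ u q) : μ ≠ 0 := by
  rintro rfl
  obtain ⟨p, q, hpq⟩ := hne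
  exact hpq (harmonic_const hx hu p q)

theorem criterion_top [CompactSpace M] [ConnectedSpace M] {x : M → Eu (n + 1)}
    (hx : IsImmersion n x) (hft : IsFiniteType n x) {O : Set M} (hO : IsOpen O)
    (hOne : O.Nonempty) {F : MvPolynomial (Fin (n + 1)) ℝ} (hF : Irreducible F)
    (hF0 : ∀ p ∈ O, ev F (x p) = 0)
    (wt : Fin (n + 1) → ℕ) {m : ℕ} (hm1 : 1 ≤ m) (hm : ∀ a, m ≤ wt a)
    {f : MvPolynomial (Fin (n + 1)) ℝ} {D : ℤ} (hTF : Top wt F D f) (hf0 : f ≠ 0)
    (b : Fin (n + 1) → ℂ) (hb : aeval b f = 0) :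
    b = 0 ∨ ∑ a, (if wt a = m then aeval b (pderiv a f) ^ 2 else 0) = 0 := by
  obtain ⟨k, c, u, μ, hsum, hu, hne⟩ := hft
  obtain ⟨p, hp⟩ := hOne
  set e := chartAt (Eu n) p with he
  have hea : e ∈ atlas (Eu n) M := chart_mem_atlas (Eu n) p
  have hps : p ∈ e.source := mem_chart_source (Eu n) p
  have hi := imm_of_chart hx hea
  set U : Set (Eu n) := e.target ∩ e.symm ⁻¹' O with hU
  have hUo : IsOpen U := e.symm.isOpen_inter_preimage hO
  have hUi : Imm (x ∘ e.symm) U := hi.mono hUo inter_subset_left
  refine local_criterion_top hUi ⟨e p, e.map_source hps, ?_⟩ hF (fun y hy => hF0 _ hy.2) c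
    (u := fun i => u i ∘ e.symm) (fun i => ((hu i).1 e hea).mono inter_subset_left)
    (μ := μ) (fun i => eigenvalue_ne_zero hx (hu i) (hne i))
    (fun i y hy => (hu i).2 e hea y hy.1) (fun y _ => hsum _) wt hm1 hm hTF hf0 b hb
  show e.symm (e p) ∈ O
  rw [e.left_inv hps]
  exact hp

theorem criterion [CompactSpace M] [ConnectedSpace M] {x : M → Eu (n + 1)}
    (hx : IsImmersion n x) (hft : IsFiniteType n x) {O : Set M} (hO : IsOpen O)
    (hOne : O.Nonempty) {F : MvPolynomial (Fin (n + 1)) ℝ} (hF : Irreducible F)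
    (hF0 : ∀ p ∈ O, ev F (x p) = 0)
    (wt : Fin (n + 1) → ℕ) {m : ℕ} (hm1 : 1 ≤ m) (hm : ∀ a, m ≤ wt a)
    (b : Fin (n + 1) → ℂ)
    (hb : aeval b (weightedHomogeneousComponent wt (weightedTotalDegree wt F) F) = 0) :
    b = 0 ∨ ∑ a, (if wt a = m then
      aeval b (pderiv a (weightedHomogeneousComponent wt (weightedTotalDegree wt F) F)) ^ 2 else 0)
        = 0 := by
  obtain ⟨h1, h2⟩ := top_weighted wt hF.ne_zero
  exact criterion_top hx hft hO hOne hF hF0 wt hm1 hm h1 h2 b hb

/-- the criterion, for every complex zero of the leading part -/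
theorem criterion_all [CompactSpace M] [ConnectedSpace M] (hn : 1 ≤ n) {x : M → Eu (n + 1)}
    (hx : IsImmersion n x) (hft : IsFiniteType n x) {O : Set M} (hO : IsOpen O)
    (hOne : O.Nonempty) {F : MvPolynomial (Fin (n + 1)) ℝ} (hF : Irreducible F)
    (hF0 : ∀ p ∈ O, ev F (x p) = 0)
    (wt : Fin (n + 1) → ℕ) {m : ℕ} (hm1 : 1 ≤ m) (hm : ∀ a, m ≤ wt a)
    (b : Fin (n + 1) → ℂ)
    (hb : aeval b (weightedHomogeneousComponent wt (weightedTotalDegree wt F) F) = 0) :
    ∑ a, (if wt a = m then
      aeval b (pderiv a (weightedHomogeneousComponent wt (weightedTotalDegree wt F) F)) ^ 2 else 0)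
        = 0 := by
  classical
  have hcr := fun b => criterion hx hft hO hOne hF hF0 wt hm1 hm b
  rcases hcr b hb with h0 | h0
  swap
  · exact h0
  subst h0
  set D := weightedTotalDegree wt F with hD
  set f := weightedHomogeneousComponent wt D F with hf
  have hfh : IsWeightedHomogeneous wt f D := weightedHomogeneousComponent_isWeightedHomogeneous D F
  by_cases hall : ∀ a, wt a = m → aeval (0 : Fin (n + 1) → ℂ) (pderiv a f) = 0
  · apply Finset.sum_eq_zero
    intro a _
    split
    · rename_i h
      rw [hall a h]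
      simp
    · rfl
  · exfalso
    push Not at hall
    obtain ⟨a0, ha0, hne⟩ := hall
    have hcoef : ∀ p : MvPolynomial (Fin (n + 1)) ℝ,
        aeval (0 : Fin (n + 1) → ℂ) p = ((coeff 0 p : ℝ) : ℂ) := by
      intro p
      rw [aeval_zero]
      rfl
    have hc0 : coeff 0 (pderiv a0 f) ≠ 0 := by
      intro h1
      apply hne
      rw [hcoef, h1]
      simp
    have hw : ∀ (a : Fin (n + 1)) (t : Fin (n + 1) →₀ ℕ), coeff t (pderiv a f) ≠ 0 →
        Finsupp.weight wt t + wt a = D := by
      intro a t ht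
      rw [coeff_pderiv] at ht
      have h1 := hfh (left_ne_zero_of_mul ht)
      rw [map_add, Finsupp.weight_single] at h1
      simpa using h1
    have hDm : D = m := by
      have h1 := hw a0 0 hc0
      rw [map_zero, ha0, zero_add] at h1
      exact h1.symm
    have hconst : ∀ a, pderiv a f = C (coeff 0 (pderiv a f)) := by
      intro a
      ext t
      rw [coeff_C]
      by_cases ht : 0 = t
      · rw [if_pos ht, ← ht]
      · rw [if_neg ht]
        by_contra h1
        have h2 := hw a t h1
        have h3 := hm a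
        have h4 : Finsupp.weight wt t = 0 := by omega
        apply ht
        ext b
        rw [Finsupp.coe_zero, Pi.zero_apply]
        by_contra h5
        have h6 : wt b ≤ Finsupp.weight wt t := Finsupp.le_weight_of_ne_zero' wt (Ne.symm h5)
        have h7 := hm b
        omega
    have hwa : ∀ a, coeff 0 (pderiv a f) ≠ 0 → wt a = m := by
      intro a ha
      have h1 := hw a 0 ha
      rw [map_zero, zero_add] at h1
      rw [h1, hDm]
    obtain ⟨a1, ha1⟩ : ∃ a1, a1 ≠ a0 := by
      have : Nontrivial (Fin (n + 1)) := Fin.nontrivial_iff_two_le.2 (by omega)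
      exact exists_ne a0
    set c : Fin (n + 1) → ℝ := fun a => coeff 0 (pderiv a f) with hc
    set b : Fin (n + 1) → ℂ := fun a => if a = a1 then (c a0 : ℂ) else if a = a0 then -(c a1 : ℂ)
      else 0 with hbdef
    have hac : ∀ a, aeval b (pderiv a f) = (c a : ℂ) := by
      intro a
      rw [hconst a, aeval_C]
      rfl
    have hb1 : b ≠ 0 := by
      intro h1
      have h2 := congrFun h1 a1
      simp only [hbdef, if_true, Pi.zero_apply] at h2
      exact hc0 (by exact_mod_cast h2)
    have heul := congrArg (aeval b) hfh.sum_weight_X_mul_pderiv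
    rw [map_sum] at heul
    have h1 : ∀ a, aeval b (wt a • (X a * pderiv a f)) = (m : ℂ) * (b a * (c a : ℂ)) := by
      intro a
      rw [map_nsmul, map_mul, aeval_X, hac, nsmul_eq_mul]
      by_cases h2 : c a = 0
      · rw [h2]
        simp
      · rw [hwa a h2]
    have h2 : ∑ a, b a * (c a : ℂ) = 0 := by
      rw [Finset.sum_eq_add a1 a0 ha1]
      · simp only [hbdef, if_true, if_neg (Ne.symm ha1)]
        ring
      · intro a _ ha
        simp only [hbdef, if_neg ha.1, if_neg ha.2, zero_mul]
      · intro h3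
        exact absurd (Finset.mem_univ _) h3
      · intro h3
        exact absurd (Finset.mem_univ _) h3
    have hfb : aeval b f = 0 := by
      simp only [h1] at heul
      rw [← Finset.mul_sum, h2, mul_zero, map_nsmul, nsmul_eq_mul, hDm] at heul
      have h3 : (m : ℂ) ≠ 0 := by
        have : m ≠ 0 := by omega
        exact_mod_cast this
      exact (mul_eq_zero.1 heul.symm).resolve_left h3
    rcases hcr b hfb with h3 | h3
    · exact hb1 h3
    · simp only [hac] at h3
      have h4 : ∑ a, (if wt a = m then c a ^ 2 else 0) = 0 := by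
        have h5 : ((∑ a, (if wt a = m then c a ^ 2 else 0) : ℝ) : ℂ) = 0 := by
          rw [Complex.ofReal_sum, ← h3]
          refine Finset.sum_congr rfl fun a _ => ?_
          split <;> simp
        exact_mod_cast h5
      have h6 := (Finset.sum_eq_zero_iff_of_nonneg (fun a _ => by
        split
        · exact sq_nonneg _
        · exact le_rfl)).1 h4 a0 (Finset.mem_univ a0)
      rw [if_pos ha0] at h6
      exact hc0 (pow_eq_zero_iff (two_ne_zero) |>.1 h6)

end Run7.h978
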