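import Mathlib

set_option autoImplicit false

/-!
Roots of polynomials over a ring of formal power series.
-/

open PowerSeries

namespace Run7.h978

section

variable {L : Type*} [Field L]

theorem mem_pow_iff (k : ℕ) (f : L⟦X⟧) :
    f ∈ (IsLocalRing.maximalIdeal L⟦X⟧ ^ k • ⊤ : Submodule L⟦X⟧ L⟦X⟧) ↔
      ∀ m < k, coeff m f = 0 := by
  rw [smul_eq_mul, Ideal.mul_top, PowerSeries.maximalIdeal_eq_span_X, Ideal.span_singleton_pow,
    Ideal.mem_span_singleton, X_pow_dvd_iff]

instance isAdicComplete_ps : IsAdicComplete (IsLocalRing.maximalIdeal L⟦X⟧) L⟦X⟧ where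
  haus' := by
    intro x hx
    ext m
    have h1 := hx (m + 1)
    rw [SModEq.zero, mem_pow_iff] at h1
    rw [h1 m (Nat.lt_succ_self m), map_zero]
  prec' := by
    intro f hf
    refine ⟨PowerSeries.mk fun m => coeff m (f (m + 1)), fun k => ?_⟩
    rw [SModEq.sub_mem, mem_pow_iff]
    intro m hm
    have h1 := hf (Nat.succ_le_of_lt hm)
    rw [SModEq.sub_mem, mem_pow_iff] at h1
    have h2 := h1 m (Nat.lt_succ_self m)
    rw [map_sub, sub_eq_zero] at h2
    rw [map_sub, coeff_mk, sub_eq_zero]
    exact h2.symm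

/-- the reduction of a polynomial over the ring of power series -/
noncomputable def red (P : Polynomial L⟦X⟧) : Polynomial L := P.map (constantCoeff (R := L))

theorem exists_factor {P : Polynomial L⟦X⟧} (hP : red P ≠ 0) (a : L) :
    ∃ Q : Polynomial L⟦X⟧, Q.Monic ∧ Q.natDegree = (red P).rootMultiplicity a ∧
      red Q = Polynomial.X ^ Q.natDegree ∧
      Q ∣ P.comp (Polynomial.X + Polynomial.C (C a)) := by
  set P1 : Polynomial L⟦X⟧ := P.comp (Polynomial.X + Polynomial.C (C a)) with hP1
  have hred1 : red P1 = (red P).comp (Polynomial.X + Polynomial.C a) := by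
    rw [hP1, red, red, Polynomial.map_comp]
    simp
  have hred2 : red P1 ≠ 0 := by
    rw [hred1]
    intro h
    rw [Polynomial.comp_eq_zero_iff] at h
    rcases h with h | ⟨_, h⟩
    · exact hP h
    · have h2 := congrArg Polynomial.natDegree h
      rw [Polynomial.natDegree_X_add_C, Polynomial.natDegree_C] at h2
      omega
  have hne : (P1 : (L⟦X⟧)⟦X⟧).map (IsLocalRing.residue L⟦X⟧) ≠ 0 := by
    intro h
    apply hred2
    ext i
    rw [red, Polynomial.coeff_map, Polynomial.coeff_zero]
    have h2 := congrArg (coeff i) h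
    rw [coeff_map, Polynomial.coeff_coe, map_zero, IsLocalRing.residue_eq_zero_iff,
      PowerSeries.maximalIdeal_eq_span_X, Ideal.mem_span_singleton, X_dvd_iff] at h2
    exact h2
  obtain ⟨Q, h, H⟩ := exists_isWeierstrassFactorization hne
  have hQm := H.isDistinguishedAt.monic
  have hQr : red Q = Polynomial.X ^ Q.natDegree := by
    ext i
    rw [red, Polynomial.coeff_map, Polynomial.coeff_X_pow]
    rcases lt_trichotomy i Q.natDegree with hi | hi | hi
    · rw [if_neg hi.ne]
      have h3 := H.isDistinguishedAt.mem hi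
      rwa [PowerSeries.maximalIdeal_eq_span_X, Ideal.mem_span_singleton, X_dvd_iff] at h3
    · rw [if_pos hi, hi, Polynomial.coeff_natDegree, hQm.leadingCoeff, map_one]
    · rw [if_neg hi.ne', Polynomial.coeff_eq_zero_of_natDegree_lt hi, map_zero]
  refine ⟨Q, hQm, ?_, hQr, ?_⟩
  · rw [Polynomial.rootMultiplicity_eq_natTrailingDegree, ← hred1]
    have h1 := congrArg (PowerSeries.map (constantCoeff (R := L))) H.eq_mul
    rw [map_mul] at h1
    have h2 : ∀ R : Polynomial L⟦X⟧, PowerSeries.map (constantCoeff (R := L)) (R : (L⟦X⟧)⟦X⟧) =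
        (red R : L⟦X⟧) := by
      intro R
      ext i
      simp [red]
    rw [h2, h2, hQr, Polynomial.coe_pow, Polynomial.coe_X] at h1
    set u := PowerSeries.map (constantCoeff (R := L)) h with hu
    have hu0 : coeff 0 u ≠ 0 := by
      have h3 : IsUnit u := H.isUnit.map _
      rw [PowerSeries.isUnit_iff_constantCoeff] at h3
      rw [coeff_zero_eq_constantCoeff]
      exact h3.ne_zero
    have hc : ∀ i, (red P1).coeff i = coeff i (X ^ Q.natDegree * u) := by
      intro i
      rw [← h1, Polynomial.coeff_coe]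
    apply le_antisymm
    · by_contra h3
      push Not at h3
      have h4 := hc (red P1).natTrailingDegree
      rw [coeff_X_pow_mul', if_neg (by omega)] at h4
      exact hred2 (Polynomial.coeff_natTrailingDegree_eq_zero.1 h4)
    · apply Polynomial.natTrailingDegree_le_of_ne_zero
      rw [hc, coeff_X_pow_mul', if_pos le_rfl, Nat.sub_self]
      exact hu0
  · set n := Q.natDegree
    have h1 : P1 = Q * (P1 /ₘ Q) + P1 %ₘ Q := by
      rw [add_comm]
      exact (Polynomial.modByMonic_add_div P1 Q).symm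
    have h2 : (Q : (L⟦X⟧)⟦X⟧) * (h - (P1 /ₘ Q : Polynomial L⟦X⟧)) =
        ((P1 %ₘ Q : Polynomial L⟦X⟧) : (L⟦X⟧)⟦X⟧) := by
      have h3 := congrArg (fun R : Polynomial L⟦X⟧ => (R : (L⟦X⟧)⟦X⟧)) h1
      simp only [Polynomial.coe_add, Polynomial.coe_mul] at h3
      rw [H.eq_mul] at h3
      linear_combination h3
    have h4 := H.isDistinguishedAt.isWeierstrassDivisorAt' (I := IsLocalRing.maximalIdeal L⟦X⟧)
    have h5 : ((Q : (L⟦X⟧)⟦X⟧).map (Ideal.Quotient.mk
        (IsLocalRing.maximalIdeal L⟦X⟧))).order.toNat = Q.natDegree := by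
      rw [← H.isDistinguishedAt.coe_natDegree_eq_order_map (Q : (L⟦X⟧)⟦X⟧) 1
        (by
          rw [constantCoeff_one, ← Ideal.ne_top_iff_one]
          exact Ideal.IsMaximal.ne_top inferInstance) (by simp)]
      rfl
    have h6 := (h4.eq_zero_of_mul_eq (r := P1 %ₘ Q) (by
      rw [h5]
      refine lt_of_lt_of_le (Polynomial.degree_modByMonic_lt P1 hQm) ?_
      exact Polynomial.degree_le_natDegree) h2).2
    rw [h6, add_zero] at h1
    exact Dvd.intro _ h1.symm

end

end Run7.h978
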