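import Mathlib
import Pool.Agent.Run7.h978.Iso1

set_option autoImplicit false

/-!
The theorem of Newton and Puiseux.
-/

open PowerSeries

namespace Run7.h978

section

variable {L : Type*} [Field L]

/-- the substitution `s ↦ s ^ M` -/
noncomputable def ex (M : ℕ) (hM : M ≠ 0) : L⟦X⟧ →+* L⟦X⟧ :=
  (PowerSeries.expand M hM : L⟦X⟧ →ₐ[L] L⟦X⟧).toRingHom

theorem ex_apply (M : ℕ) (hM : M ≠ 0) (f : L⟦X⟧) : ex M hM f = PowerSeries.expand M hM f := rfl

theorem ex_X (M : ℕ) (hM : M ≠ 0) : ex M hM (X : L⟦X⟧) = X ^ M := by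
  rw [ex_apply, expand_X]

theorem ex_C (M : ℕ) (hM : M ≠ 0) (a : L) : ex M hM (C a : L⟦X⟧) = C a := by
  rw [ex_apply, expand_C]

theorem ex_mul (M M' : ℕ) (hM : M ≠ 0) (hM' : M' ≠ 0) (hMM : M * M' ≠ 0) :
    (ex (M * M') hMM : L⟦X⟧ →+* L⟦X⟧) = (ex M hM).comp (ex M' hM') := by
  apply RingHom.ext
  intro f
  rw [RingHom.comp_apply, ex_apply, ex_apply, ex_apply, ← expand_mul]

theorem red_map_ex (M : ℕ) (hM : M ≠ 0) (P : Polynomial L⟦X⟧) : red (P.map (ex M hM)) = red P := by
  rw [red, red, Polynomial.map_map]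
  congr 1
  apply RingHom.ext
  intro f
  rw [RingHom.comp_apply, ex_apply, constantCoeff_expand]

theorem coeff_tschirnhaus {R : Type*} [CommRing R] {Q : Polynomial R} (hQ : Q.Monic) {m : ℕ}
    (hm : Q.natDegree = m + 1) (c : R) (hc : (m + 1 : ℕ) * c = Q.coeff m) :
    (Polynomial.taylor (-c) Q).coeff m = 0 := by
  rw [Polynomial.taylor_coeff, Polynomial.eval_eq_sum_range' (n := 2)]
  · rw [Finset.sum_range_succ, Finset.sum_range_one, Polynomial.hasseDeriv_coeff,
      Polynomial.hasseDeriv_coeff, zero_add, add_comm 1 m]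
    have h1 : Q.coeff (m + 1) = 1 := by
      rw [← hm]
      exact hQ
    rw [h1, Nat.choose_self, Nat.choose_symm_add, Nat.choose_one_right, ← hc]
    push_cast
    ring
  · refine lt_of_le_of_lt (Polynomial.natDegree_hasseDeriv_le Q m) ?_
    omega

theorem puiseux [CharZero L] {O : ℕ → Prop} (h0 : ¬O 0)
    (hO : ∀ p : Polynomial L, p.Monic → O p.natDegree → ∃ a, O (p.rootMultiplicity a)) :
    ∀ m, O m → ∀ Q : Polynomial L⟦X⟧, Q.Monic → Q.natDegree = m →
      ∃ (M : ℕ) (hM : M ≠ 0) (η : L⟦X⟧), (Q.map (ex M hM)).eval η = 0 := by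
  classical
  intro m
  induction m using Nat.strong_induction_on with
  | _ m ih =>
  intro hm Q hQ hQm
  obtain ⟨k, rfl⟩ : ∃ k, m = k + 1 := by
    rcases m with _ | k
    · exact absurd hm h0
    · exact ⟨k, rfl⟩
  have hk0 : ((k + 1 : ℕ) : L) ≠ 0 := Nat.cast_ne_zero.2 (Nat.succ_ne_zero k)
  set c : L⟦X⟧ := C (((k + 1 : ℕ) : L)⁻¹) * Q.coeff k with hc
  have hc' : ((k + 1 : ℕ) : L⟦X⟧) * c = Q.coeff k := by
    rw [hc, ← mul_assoc]
    have h1 : ((k + 1 : ℕ) : L⟦X⟧) = C ((k + 1 : ℕ) : L) := by rw [map_natCast]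
    rw [h1, ← map_mul, mul_inv_cancel₀ hk0, map_one, one_mul]
  set Q1 := Polynomial.taylor (-c) Q with hQ1
  have hQ1m : Q1.natDegree = k + 1 := by rw [hQ1, Polynomial.natDegree_taylor, hQm]
  have hQ1M : Q1.Monic := by
    rw [Polynomial.Monic, hQ1, Polynomial.leadingCoeff_taylor]
    exact hQ
  have hQ1k : Q1.coeff k = 0 := coeff_tschirnhaus hQ hQm c hc'
  -- it is enough to find a root of `Q1`
  suffices hsuff : ∃ (M : ℕ) (hM : M ≠ 0) (η : L⟦X⟧), (Q1.map (ex M hM)).eval η = 0 by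
    obtain ⟨M, hM, η, hη⟩ := hsuff
    refine ⟨M, hM, η + ex M hM (-c), ?_⟩
    rw [← Polynomial.taylor_eval, ← Polynomial.map_taylor]
    exact hη
  by_cases hall : ∀ i < k + 1, Q1.coeff i = 0
  · refine ⟨1, one_ne_zero, 0, ?_⟩
    have h1 : Q1.coeff 0 = 0 := hall 0 (Nat.succ_pos k)
    rw [← Polynomial.coeff_zero_eq_eval_zero, Polynomial.coeff_map, h1, map_zero]
  push Not at hall
  -- the minimizing index
  set S := (Finset.range (k + 1)).filter fun i => Q1.coeff i ≠ 0 with hS
  have hSne : S.Nonempty := by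
    obtain ⟨i, hi, hi'⟩ := hall
    exact ⟨i, by rw [hS, Finset.mem_filter, Finset.mem_range]; exact ⟨hi, hi'⟩⟩
  obtain ⟨j, hj, hjmin⟩ := Finset.exists_min_image S
    (fun i => ((Q1.coeff i).order.toNat : ℚ) / ((k + 1 - i : ℕ) : ℚ)) hSne
  rw [hS, Finset.mem_filter, Finset.mem_range] at hj
  obtain ⟨hjk, hj0⟩ := hj
  set i0 : ℕ := k + 1 - j with hi0
  have hi0' : i0 ≠ 0 := by omega
  set p : ℕ := (Q1.coeff j).order.toNat with hp
  have hdiv : ∀ i ≤ k + 1, ∃ d : L⟦X⟧, ex i0 hi0' (Q1.coeff i) = X ^ (p * (k + 1 - i)) * d := by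
    intro i hi
    rcases hi.lt_or_eq with hi | rfl
    · by_cases hz : Q1.coeff i = 0
      · exact ⟨0, by rw [hz, map_zero, mul_zero]⟩
      · have h1 : X ^ (p * (k + 1 - i)) ∣ ex i0 hi0' (Q1.coeff i) := by
          have h2 : X ^ (i0 * (Q1.coeff i).order.toNat) ∣ ex i0 hi0' (Q1.coeff i) := by
            have h3 : (X : L⟦X⟧) ^ (Q1.coeff i).order.toNat ∣ Q1.coeff i := X_pow_order_dvd
            have h4 := map_dvd (ex i0 hi0') h3
            rwa [map_pow, ex_X, ← pow_mul] at h4
          refine dvd_trans (pow_dvd_pow X ?_) h2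
          have h5 := hjmin i (by rw [hS, Finset.mem_filter, Finset.mem_range]; exact ⟨hi, hz⟩)
          have h6 : (0 : ℚ) < ((k + 1 - j : ℕ) : ℚ) := by
            have : 0 < k + 1 - j := by omega
            exact_mod_cast this
          have h7 : (0 : ℚ) < ((k + 1 - i : ℕ) : ℚ) := by
            have : 0 < k + 1 - i := by omega
            exact_mod_cast this
          rw [div_le_div_iff₀ h6 h7] at h5
          have h8 : p * (k + 1 - i) ≤ (Q1.coeff i).order.toNat * (k + 1 - j) := by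
            exact_mod_cast h5
          rw [mul_comm i0]
          exact h8
        obtain ⟨d, hd⟩ := h1
        exact ⟨d, hd⟩
    · refine ⟨1, ?_⟩
      have h1 : Q1.coeff (k + 1) = 1 := by
        rw [← hQ1m]
        exact hQ1M
      rw [h1, Nat.sub_self, mul_zero, pow_zero, map_one, one_mul]
  choose! d hd using hdiv
  have hdtop : d (k + 1) = 1 := by
    have h1 := hd (k + 1) le_rfl
    have h2 : Q1.coeff (k + 1) = 1 := by
      rw [← hQ1m]
      exact hQ1M
    rw [h2, Nat.sub_self, mul_zero, pow_zero, map_one, one_mul] at h1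
    exact h1.symm
  have hXne : ∀ e : ℕ, (X : L⟦X⟧) ^ e ≠ 0 := fun e => pow_ne_zero e X_ne_zero
  have hdk : d k = 0 := by
    have h1 := hd k (Nat.le_succ k)
    rw [hQ1k, map_zero] at h1
    exact (mul_eq_zero.1 h1.symm).resolve_left (hXne _)
  have hdj : constantCoeff (d j) ≠ 0 := by
    have h1 := hd j hjk.le
    have h2 : coeff (p * (k + 1 - j)) (ex i0 hi0' (Q1.coeff j)) = coeff p (Q1.coeff j) := by
      rw [ex_apply, mul_comm, ← hi0, coeff_expand_mul]
    rw [h1, coeff_X_pow_mul', if_pos le_rfl, Nat.sub_self, coeff_zero_eq_constantCoeff] at h2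
    rw [h2]
    exact coeff_order hj0
  set Q2 : Polynomial L⟦X⟧ :=
    ∑ i ∈ Finset.range (k + 2), Polynomial.C (d i) * Polynomial.X ^ i with hQ2
  have hQ2c : ∀ i ≤ k + 1, Q2.coeff i = d i := by
    intro i hi
    rw [hQ2, Polynomial.finsetSum_coeff]
    simp only [Polynomial.coeff_C_mul, Polynomial.coeff_X_pow]
    rw [Finset.sum_eq_single i]
    · rw [if_pos rfl, mul_one]
    · intro l _ hl
      rw [if_neg (Ne.symm hl), mul_zero]
    · intro h
      exact absurd (Finset.mem_range.2 (by omega)) h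
  have hQ2d : Q2.natDegree ≤ k + 1 := by
    rw [hQ2]
    apply Polynomial.natDegree_sum_le_of_forall_le
    intro i hi
    rw [Finset.mem_range] at hi
    refine (Polynomial.natDegree_C_mul_X_pow_le _ _).trans (by omega)
  have hQ2M : Q2.Monic := by
    apply Polynomial.monic_of_natDegree_le_of_coeff_eq_one (k + 1) hQ2d
    rw [hQ2c _ le_rfl, hdtop]
  have hQ2m : Q2.natDegree = k + 1 := by
    apply le_antisymm hQ2d
    apply Polynomial.le_natDegree_of_ne_zero
    rw [hQ2c _ le_rfl, hdtop]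
    exact one_ne_zero
  have hredM : (red Q2).Monic := hQ2M.map _
  have hredm : (red Q2).natDegree = k + 1 := by
    rw [red, hQ2M.natDegree_map, hQ2m]
  obtain ⟨a, ha⟩ := hO (red Q2) hredM (by rw [hredm]; exact hm)
  have hlt : (red Q2).rootMultiplicity a < k + 1 := by
    have h1 := Polynomial.pow_rootMultiplicity_dvd (red Q2) a
    refine lt_of_le_of_ne ?_ ?_
    · have h2 := Polynomial.natDegree_le_of_dvd h1 hredM.ne_zero
      rwa [Polynomial.natDegree_pow, Polynomial.natDegree_X_sub_C, mul_one, hredm] at h2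
    · intro h2
      rw [h2] at h1
      have h3 : (Polynomial.X - Polynomial.C a) ^ (k + 1) = red Q2 := by
        symm
        apply Polynomial.eq_of_monic_of_dvd_of_natDegree_le
          ((Polynomial.monic_X_sub_C a).pow (k + 1)) hredM h1
        rw [hredm, Polynomial.natDegree_pow, Polynomial.natDegree_X_sub_C, mul_one]
      have h4 : (red Q2).coeff k = 0 := by
        rw [red, Polynomial.coeff_map, hQ2c k (Nat.le_succ k), hdk, map_zero]
      rw [← h3, sub_eq_add_neg, ← Polynomial.C_neg, Polynomial.coeff_X_add_C_pow] at h4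
      have h5 : a = 0 := by
        rw [show k + 1 - k = 1 by omega, pow_one, Nat.choose_succ_self_right] at h4
        rcases mul_eq_zero.1 h4 with h6 | h6
        · exact neg_eq_zero.1 h6
        · exact absurd h6 hk0
      rw [h5, Polynomial.C_0, sub_zero] at h3
      apply hdj
      have h6 : (red Q2).coeff j = 0 := by
        rw [← h3, Polynomial.coeff_X_pow, if_neg (by omega)]
      rwa [red, Polynomial.coeff_map, hQ2c j hjk.le] at h6
  obtain ⟨Q3, hQ3M, hQ3m, _, hQ3⟩ := exists_factor hredM.ne_zero a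
  obtain ⟨M, hM, η, hη⟩ := ih _ hlt ha Q3 hQ3M hQ3m
  refine ⟨M * i0, mul_ne_zero hM hi0', (X ^ M) ^ p * (η + C a), ?_⟩
  set ζ := η + C a with hζ
  have h2 : (Q2.map (ex M hM)).eval ζ = 0 := by
    have h3 := Polynomial.map_dvd (ex M hM) hQ3
    have h4 := Polynomial.eval_dvd (x := η) h3
    rw [hη, zero_dvd_iff, Polynomial.map_comp, Polynomial.eval_comp] at h4
    simpa [ex_C] using h4
  have h3 : (Q1.map (ex (M * i0) (mul_ne_zero hM hi0'))).eval ((X ^ M) ^ p * ζ) =
      (X ^ M) ^ (p * (k + 1)) * (Q2.map (ex M hM)).eval ζ := by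
    rw [Polynomial.eval_eq_sum_range' (n := k + 2), Polynomial.eval_eq_sum_range' (n := k + 2),
      Finset.mul_sum]
    · refine Finset.sum_congr rfl fun i hi => ?_
      rw [Finset.mem_range] at hi
      have hi' : i ≤ k + 1 := by omega
      rw [Polynomial.coeff_map, Polynomial.coeff_map, hQ2c i hi',
        ex_mul M i0 hM hi0' (mul_ne_zero hM hi0'), RingHom.comp_apply, hd i hi', map_mul, map_pow,
        ex_X, mul_pow]
      have h5 : p * (k + 1) = p * (k + 1 - i) + p * i := by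
        rw [← mul_add]
        congr 1
        omega
      rw [h5, pow_add, ← pow_mul _ p i]
      ring
    · refine lt_of_le_of_lt Polynomial.natDegree_map_le ?_
      omega
    · refine lt_of_le_of_lt Polynomial.natDegree_map_le ?_
      omega
  rw [h3, h2, mul_zero]

/-- a root of the reduction lifts to a root -/
theorem exists_root_lift [CharZero L] {O : ℕ → Prop} (h0 : ¬O 0)
    (hO : ∀ p : Polynomial L, p.Monic → O p.natDegree → ∃ a, O (p.rootMultiplicity a))
    {P : Polynomial L⟦X⟧} (hP : red P ≠ 0) {a : L} (ha : O ((red P).rootMultiplicity a)) :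
    ∃ (M : ℕ) (hM : M ≠ 0) (η : L⟦X⟧), (P.map (ex M hM)).eval η = 0 ∧ constantCoeff η = a := by
  obtain ⟨Q, hQM, hQm, hQr, hQ⟩ := exists_factor hP a
  obtain ⟨M, hM, ζ, hζ⟩ := puiseux h0 hO _ ha Q hQM hQm
  refine ⟨M, hM, ζ + C a, ?_, ?_⟩
  · have h3 := Polynomial.map_dvd (ex M hM) hQ
    have h4 := Polynomial.eval_dvd (x := ζ) h3
    rw [hζ, zero_dvd_iff, Polynomial.map_comp, Polynomial.eval_comp] at h4
    simpa [ex_C] using h4
  · have h1 : (red Q).eval (constantCoeff ζ) = 0 := by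
      rw [← red_map_ex M hM Q, red, Polynomial.eval_map_apply, hζ, map_zero]
    rw [hQr, Polynomial.eval_pow, Polynomial.eval_X] at h1
    have h2 : Q.natDegree ≠ 0 := by
      rw [hQm]
      intro h
      rw [h] at ha
      exact h0 ha
    rw [map_add, constantCoeff_C, (pow_eq_zero_iff h2).1 h1, zero_add]

end

end Run7.h978
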