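import Mathlib

set_option autoImplicit false

/-!
Extension of derivations.
-/

open TensorProduct

namespace Run7.h978

theorem exists_derivation {R A B : Type*} [CommRing R] [CommRing A] [CommRing B] [Algebra R A]
    [Algebra R B] [Algebra A B] [IsScalarTower R A B] [Algebra.FormallyEtale A B]
    (d : Derivation R A B) : ∃ D : Derivation R B B, ∀ a, D (algebraMap A B a) = d a := by
  set e := KaehlerDifferential.tensorKaehlerEquivOfFormallyEtale R A B
  set φ : B ⊗[A] Ω[A⁄R] →ₗ[B] B := LinearMap.liftBaseChange B d.liftKaehlerDifferential with hφ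
  refine ⟨(φ.comp e.symm.toLinearMap).compDer (KaehlerDifferential.D R B), fun a => ?_⟩
  have h1 := KaehlerDifferential.tensorKaehlerEquivOfFormallyEtale_symm_D_algebraMap R A B a
  show φ (e.symm (KaehlerDifferential.D R B (algebraMap A B a))) = d a
  have h2 : e.symm (KaehlerDifferential.D R B (algebraMap A B a)) =
      1 ⊗ₜ KaehlerDifferential.D R A a := h1
  rw [h2, hφ, LinearMap.liftBaseChange_tmul, one_smul, Derivation.liftKaehlerDifferential_comp_D]

/-- the algebraic closure of the field of rational functions of `n` variables -/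
abbrev LL' (n : ℕ) := AlgebraicClosure (FractionRing (MvPolynomial (Fin n) ℂ))

theorem formallyEtale_LL' (n : ℕ) : Algebra.FormallyEtale (MvPolynomial (Fin n) ℂ) (LL' n) := by
  have h1 : Algebra.FormallyEtale (MvPolynomial (Fin n) ℂ) (FractionRing (MvPolynomial (Fin n) ℂ)) :=
    Algebra.FormallyEtale.of_isLocalization (nonZeroDivisors (MvPolynomial (Fin n) ℂ))
  have h2 : Algebra.FormallyEtale (FractionRing (MvPolynomial (Fin n) ℂ)) (LL' n) :=
    Algebra.FormallyEtale.of_isSeparable _ _
  exact Algebra.FormallyEtale.comp _ (FractionRing (MvPolynomial (Fin n) ℂ)) _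

/-- a field with generic elements and the corresponding derivations -/
structure GenField (n : ℕ) (L : Type*) [Field L] [Algebra ℂ L] where
  /-- the generic elements -/
  b : Fin n → L
  /-- the derivations -/
  D : Fin n → Derivation ℂ L L
  D_b : ∀ i k, D i (b k) = if i = k then 1 else 0
  inj : Function.Injective (MvPolynomial.aeval b : MvPolynomial (Fin n) ℂ →ₐ[ℂ] L)

theorem exists_genField (n : ℕ) : Nonempty (GenField n (LL' n)) := by
  have := formallyEtale_LL' n
  set A := MvPolynomial (Fin n) ℂ
  set φ : A →ₐ[ℂ] LL' n := IsScalarTower.toAlgHom ℂ A (LL' n) with hφ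
  have hinj : Function.Injective φ := by
    have h2 : Function.Injective (algebraMap A (LL' n)) := by
      rw [IsScalarTower.algebraMap_eq A (FractionRing A) (LL' n)]
      exact (algebraMap (FractionRing A) (LL' n)).injective.comp
        (IsFractionRing.injective A (FractionRing A))
    exact h2
  have h1 : ∀ i : Fin n, ∃ D : Derivation ℂ (LL' n) (LL' n), ∀ a : A,
      D (algebraMap A (LL' n) a) = algebraMap A (LL' n) (MvPolynomial.pderiv i a) := by
    intro i
    obtain ⟨D, hD⟩ := exists_derivation (R := ℂ) (A := A) (B := LL' n)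
      ((Algebra.linearMap A (LL' n)).compDer (MvPolynomial.pderiv i))
    exact ⟨D, hD⟩
  choose D hD using h1
  refine ⟨⟨fun i => φ (MvPolynomial.X i), D, fun i k => ?_, ?_⟩⟩
  · have h2 := hD i (MvPolynomial.X k)
    rw [MvPolynomial.pderiv_X, Pi.single_apply] at h2
    show D i (algebraMap A (LL' n) (MvPolynomial.X k)) = _
    rw [h2]
    by_cases h : i = k
    · rw [if_pos h, if_pos h.symm, map_one]
    · rw [if_neg h, if_neg (Ne.symm h), map_zero]
  · have h2 : (MvPolynomial.aeval (fun i => φ (MvPolynomial.X i)) : A →ₐ[ℂ] LL' n) = φ := by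
      apply MvPolynomial.algHom_ext
      intro i
      rw [MvPolynomial.aeval_X]
    rw [h2]
    exact hinj

end Run7.h978
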