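import Mathlib
import Pool.Agent.Run7.h978.Iso3

set_option autoImplicit false

/-!
Derivations of rings of power series and of their fraction fields.
-/

open PowerSeries

namespace Run7.h978

section

variable {R L : Type*} [CommRing R] [Field L] [Algebra R L]

/-- coefficientwise derivation -/
noncomputable def psD (D : Derivation R L L) : Derivation R L⟦X⟧ L⟦X⟧ where
  toFun f := PowerSeries.mk fun n => D (coeff n f)
  map_add' f g := by
    ext n
    simp
  map_smul' r f := by
    ext n
    simp
  map_one_eq_zero' := by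
    ext n
    simp only [LinearMap.coe_mk, AddHom.coe_mk, coeff_mk, coeff_one, map_zero]
    split
    · exact D.map_one_eq_zero
    · exact map_zero D
  leibniz' f g := by
    ext n
    simp only [LinearMap.coe_mk, AddHom.coe_mk, coeff_mk, map_add, smul_eq_mul, coeff_mul,
      map_sum, Derivation.leibniz, Finset.sum_add_distrib]
    congr 1
    exact Finset.Nat.sum_antidiagonal_swap (f := fun x => coeff x.1 g * D (coeff x.2 f))

theorem coeff_psD (D : Derivation R L L) (f : L⟦X⟧) (n : ℕ) : coeff n (psD D f) = D (coeff n f) := by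
  show coeff n (PowerSeries.mk fun n => D (coeff n f)) = _
  rw [coeff_mk]

theorem psD_X (D : Derivation R L L) : psD D (X : L⟦X⟧) = 0 := by
  ext n
  rw [coeff_psD, coeff_X, map_zero]
  split
  · exact D.map_one_eq_zero
  · exact map_zero D

theorem psD_C (D : Derivation R L L) (a : L) : psD D (C a : L⟦X⟧) = C (D a) := by
  ext n
  rw [coeff_psD, coeff_C, coeff_C]
  split
  · rfl
  · exact map_zero D

/-- the extension to the fraction field -/
theorem exists_frD (D : Derivation R L L) : ∃ E : Derivation R (FractionRing L⟦X⟧)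
    (FractionRing L⟦X⟧), ∀ f : L⟦X⟧, E (algebraMap L⟦X⟧ (FractionRing L⟦X⟧) f) =
      algebraMap L⟦X⟧ (FractionRing L⟦X⟧) (psD D f) := by
  have h1 : Algebra.FormallyEtale L⟦X⟧ (FractionRing L⟦X⟧) :=
    Algebra.FormallyEtale.of_isLocalization (nonZeroDivisors L⟦X⟧)
  obtain ⟨E, hE⟩ := exists_derivation (R := R) (A := L⟦X⟧) (B := FractionRing L⟦X⟧)
    ((Algebra.linearMap L⟦X⟧ (FractionRing L⟦X⟧)).compDer (psD D))
  exact ⟨E, hE⟩

end

end Run7.h978
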