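import Mathlib
import Pool.Agent.Run7.h978.Poly

set_option autoImplicit false

/-!
The Laplace operator in terms of derivations of a field.
-/

open MvPolynomial

namespace Run7.h978

theorem chain {R K σ : Type*} [CommRing R] [Field K] [Algebra R K] [Fintype σ]
    (D : Derivation R K K) (x : σ → K) (p : MvPolynomial σ R) :
    D (aeval x p) = ∑ a, aeval x (pderiv a p) * D (x a) := by
  classical
  induction p using MvPolynomial.induction_on with
  | C r => simp
  | add p q hp hq => simp only [map_add, hp, hq, add_mul, Finset.sum_add_distrib]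
  | mul_X p i hp =>
    have h4 : ∀ a, aeval x (pderiv a (p * X i)) * D (x a) =
        (if a = i then aeval x p * D (x a) else 0) +
          x i * (aeval x (pderiv a p) * D (x a)) := by
      intro a
      rw [Derivation.leibniz, pderiv_X, map_add, smul_eq_mul, smul_eq_mul, map_mul, map_mul,
        aeval_X]
      by_cases hia : a = i
      · subst hia
        rw [if_pos rfl, Pi.single_eq_same, map_one]
        ring
      · rw [if_neg hia, Pi.single_eq_of_ne (Ne.symm hia), map_zero]
        ring
    simp only [h4, Finset.sum_add_distrib, Finset.sum_ite_eq', Finset.mem_univ, if_true,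
      ← Finset.mul_sum, ← hp]
    rw [map_mul, aeval_X, Derivation.leibniz, smul_eq_mul, smul_eq_mul]

section

variable {K : Type*} [Field K] [Algebra ℝ K] {N : ℕ}

/-- the derivations `δ a` are the components of the tangential gradient at the point `x` -/
structure Tang (x : Fin N → K) (F : MvPolynomial (Fin N) ℝ) (δ : Fin N → Derivation ℝ K K) :
    Prop where
  W_ne : aeval x (WW F) ≠ 0
  dx : ∀ a b, δ a (x b) = (if a = b then 1 else 0) -
    aeval x (pderiv a F) * aeval x (pderiv b F) / aeval x (WW F)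
  perp : ∀ h, ∑ a, aeval x (pderiv a F) * δ a h = 0

/-- the Laplace operator -/
noncomputable def lapK (δ : Fin N → Derivation ℝ K K) (h : K) : K := -∑ a, δ a (δ a h)

variable {x : Fin N → K} {F : MvPolynomial (Fin N) ℝ} {δ : Fin N → Derivation ℝ K K}

theorem aeval_WW (x : Fin N → K) (F : MvPolynomial (Fin N) ℝ) :
    aeval x (WW F) = ∑ a, aeval x (pderiv a F) ^ 2 := by
  simp [WW]

theorem Tang.d_quot (h : Tang x F δ) (j : ℕ) (A : MvPolynomial (Fin N) ℝ) (a : Fin N) :
    δ a (aeval x A / aeval x (WW F) ^ j) =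
      ∑ b, aeval x (PP (WW F) j A b) / aeval x (WW F) ^ (j + 1) * δ a (x b) := by
  have hW := h.W_ne
  set W : K := aeval x (WW F) with hWdef
  set u : K := aeval x A / W ^ j with hu
  have h1 : u * W ^ j = aeval x A := div_mul_cancel₀ _ (pow_ne_zero j hW)
  have h2 := congrArg (δ a) h1
  rw [Derivation.leibniz, Derivation.leibniz_pow, smul_eq_mul, smul_eq_mul] at h2
  have hA : δ a (aeval x A) = ∑ b, aeval x (pderiv b A) * δ a (x b) := chain _ _ _
  have h3 : δ a W = ∑ b, aeval x (pderiv b (WW F)) * δ a (x b) := chain _ _ _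
  have h4 : ∀ b, aeval x (PP (WW F) j A b) = aeval x (pderiv b A) * W -
      (j : K) * aeval x A * aeval x (pderiv b (WW F)) := by
    intro b
    rw [PP, map_sub, map_mul, map_mul, map_mul, aeval_C, hWdef]
    congr 3
    exact map_natCast (algebraMap ℝ K) j
  have h5 : ∑ b, aeval x (PP (WW F) j A b) / W ^ (j + 1) * δ a (x b) =
      ((∑ b, aeval x (pderiv b A) * δ a (x b)) * W - (j : K) * aeval x A * δ a W) /
        W ^ (j + 1) := by
    rw [h3, Finset.sum_mul, Finset.mul_sum, ← Finset.sum_sub_distrib, Finset.sum_div]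
    refine Finset.sum_congr rfl fun b _ => ?_
    rw [h4]
    ring
  rw [h5, ← hA, ← h2, ← h1, eq_div_iff (pow_ne_zero _ hW)]
  rcases Nat.eq_zero_or_pos j with rfl | hj
  · simp
  · obtain ⟨l, rfl⟩ : ∃ l, j = l + 1 := ⟨j - 1, by omega⟩
    simp only [Nat.add_sub_cancel, nsmul_eq_mul, smul_eq_mul]
    ring

theorem Tang.lap_quot (h : Tang x F δ) (j : ℕ) (A : MvPolynomial (Fin N) ℝ) :
    lapK δ (aeval x A / aeval x (WW F) ^ j) =
      aeval x (LL F j A) / aeval x (WW F) ^ (j + 3) := by
  classical
  have hW := h.W_ne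
  have hWs := aeval_WW x F
  have hdx := h.dx
  have hperp := h.perp
  have hq1 := h.d_quot j A
  have hq2 : ∀ a b, δ a (aeval x (PP (WW F) j A b) / aeval x (WW F) ^ (j + 1)) =
      ∑ c, aeval x (PP (WW F) (j + 1) (PP (WW F) j A b) c) / aeval x (WW F) ^ (j + 2) *
        δ a (x c) := fun a b => h.d_quot (j + 1) (PP (WW F) j A b) a
  set W : K := aeval x (WW F) with hWdef
  set g : Fin N → K := fun a => aeval x (pderiv a F) with hg
  have hga : ∀ a, aeval x (pderiv a F) = g a := fun a => rfl
  simp only [hga] at hdx hperp hWs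
  set u : Fin N → K := fun b => aeval x (PP (WW F) j A b) / W ^ (j + 1) with hu
  set v : Fin N → Fin N → K := fun b c =>
    aeval x (PP (WW F) (j + 1) (PP (WW F) j A b) c) / W ^ (j + 2) with hv
  have hq1' : ∀ a, δ a (aeval x A / W ^ j) = ∑ b, u b * δ a (x b) := hq1
  have hq2' : ∀ a b, δ a (u b) = ∑ c, v b c * δ a (x c) := hq2
  -- projection
  have hP : ∀ b c, ∑ a, δ a (x c) * δ a (x b) = (if b = c then 1 else 0) - g b * g c / W := by
    intro b c
    simp only [hdx, sub_mul, mul_sub, Finset.sum_sub_distrib, ite_mul, mul_ite, one_mul, mul_one,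
      zero_mul, mul_zero, Finset.sum_ite_eq', Finset.mem_univ, if_true]
    have e1 : ∑ a, g a * g c / W * (g a * g b / W) = g b * g c / W := by
      have e2 : ∀ a, g a * g c / W * (g a * g b / W) = g a ^ 2 * (g b * g c / W ^ 2) := by
        intro a
        ring
      simp only [e2]
      rw [← Finset.sum_mul, ← hWs]
      field_simp
    rw [e1]
    by_cases hbc : b = c
    · subst hbc
      simp
    · rw [if_neg hbc]
      ring
  -- second derivatives of the coordinates
  have hT : ∀ b, ∑ a, δ a (δ a (x b)) = -((∑ a, δ a (g a)) * (g b / W)) := by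
    intro b
    have e1 : ∀ a, δ a (δ a (x b)) = -(g a * δ a (g b / W)) - δ a (g a) * (g b / W) := by
      intro a
      rw [hdx]
      have e2 : g a * g b / W = g a * (g b / W) := by ring
      rw [map_sub, e2, Derivation.leibniz, smul_eq_mul, smul_eq_mul]
      have e3 : δ a (if a = b then (1 : K) else 0) = 0 := by
        split
        · exact (δ a).map_one_eq_zero
        · exact map_zero _
      rw [e3]
      ring
    simp only [e1, Finset.sum_sub_distrib, Finset.sum_neg_distrib]
    have e4 : ∑ a, g a * δ a (g b / W) = 0 := by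
      have e5 : ∀ a, g a * δ a (g b / W) = g a * δ a (g b / W) := fun a => rfl
      exact hperp _
    rw [e4, neg_zero, zero_sub, Finset.sum_mul]
  have hG : ∑ a, δ a (g a) = (∑ c, aeval x (pderiv c (pderiv c F))) -
      aeval x (QF F) / W := by
    have e1 : ∀ a, δ a (g a) = aeval x (pderiv a (pderiv a F)) -
        (∑ b, aeval x (pderiv b (pderiv a F)) * g b * g a) / W := by
      intro a
      rw [← hga a, chain]
      simp only [hdx, mul_sub, Finset.sum_sub_distrib, mul_ite, mul_one, mul_zero,
        Finset.sum_ite_eq, Finset.mem_univ, if_true]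
      congr 1
      rw [Finset.sum_div]
      refine Finset.sum_congr rfl fun b _ => ?_
      ring
    simp only [e1, Finset.sum_sub_distrib]
    congr 1
    rw [QF, map_sum, Finset.sum_div]
    refine Finset.sum_congr rfl fun a _ => ?_
    congr 1
    rw [map_sum]
    refine Finset.sum_congr rfl fun b _ => ?_
    rw [map_mul, map_mul]
  -- assembling
  have hmain : ∑ a, δ a (δ a (aeval x A / W ^ j)) =
      (∑ b, v b b) - (∑ b, ∑ c, v b c * g c * g b) / W -
        ((∑ c, aeval x (pderiv c (pderiv c F))) - aeval x (QF F) / W) *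
          (∑ b, u b * g b) / W := by
    have e1 : ∀ a, δ a (δ a (aeval x A / W ^ j)) =
        ∑ b, (∑ c, v b c * (δ a (x c) * δ a (x b)) + u b * δ a (δ a (x b))) := by
      intro a
      rw [hq1', map_sum]
      refine Finset.sum_congr rfl fun b _ => ?_
      rw [Derivation.leibniz, smul_eq_mul, smul_eq_mul, hq2', Finset.mul_sum]
      rw [add_comm]
      congr 1
      refine Finset.sum_congr rfl fun c _ => ?_
      ring
    simp only [e1]
    rw [Finset.sum_comm]
    simp only [Finset.sum_add_distrib]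
    have e2 : ∀ b, ∑ a, ∑ c, v b c * (δ a (x c) * δ a (x b)) =
        v b b - (∑ c, v b c * g c * g b) / W := by
      intro b
      rw [Finset.sum_comm]
      simp only [← Finset.mul_sum, hP, mul_sub, Finset.sum_sub_distrib, mul_ite, mul_one,
        mul_zero, Finset.sum_ite_eq, Finset.mem_univ, if_true]
      congr 1
      rw [Finset.sum_div]
      refine Finset.sum_congr rfl fun c _ => ?_
      ring
    have e3 : ∀ b, ∑ a, u b * δ a (δ a (x b)) =
        -((∑ a, δ a (g a)) * (u b * g b) / W) := by
      intro b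
      rw [← Finset.mul_sum, hT]
      ring
    simp only [e2, e3, Finset.sum_sub_distrib, Finset.sum_neg_distrib, ← Finset.sum_div,
      ← Finset.mul_sum, hG]
    ring
  rw [lapK, hmain]
  have hLL : aeval x (LL F j A) = -(W * ∑ a, aeval x (PP (WW F) (j + 1) (PP (WW F) j A a) a)) +
      ∑ a, ∑ b, aeval x (PP (WW F) (j + 1) (PP (WW F) j A a) b) * g b * g a +
      (W * ∑ c, aeval x (pderiv c (pderiv c F)) - aeval x (QF F)) *
        ∑ a, g a * aeval x (PP (WW F) j A a) := by
    simp only [LL, map_add, map_neg, map_mul, map_sum, map_sub, hga, hWdef]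
  rw [hLL]
  have e1 : ∑ b, v b b = (∑ a, aeval x (PP (WW F) (j + 1) (PP (WW F) j A a) a)) /
      W ^ (j + 2) := by
    rw [Finset.sum_div]
  have e2 : ∑ b, ∑ c, v b c * g c * g b =
      (∑ a, ∑ b, aeval x (PP (WW F) (j + 1) (PP (WW F) j A a) b) * g b * g a) /
        W ^ (j + 2) := by
    rw [Finset.sum_div]
    refine Finset.sum_congr rfl fun a _ => ?_
    rw [Finset.sum_div]
    refine Finset.sum_congr rfl fun b _ => ?_
    simp only [hv]
    ring
  have e3 : ∑ b, u b * g b = (∑ a, g a * aeval x (PP (WW F) j A a)) / W ^ (j + 1) := by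
    rw [Finset.sum_div]
    refine Finset.sum_congr rfl fun a _ => ?_
    simp only [hu]
    ring
  rw [e1, e2, e3]
  field_simp
  ring

/-- the operators `Δ - μ` -/
noncomputable def itK (δ : Fin N → Derivation ℝ K K) : List ℝ → K → K
  | [], h => h
  | μ :: l, h => itK δ l (lapK δ h - algebraMap ℝ K μ * h)

theorem Tang.iter_eq (h : Tang x F δ) (l : List ℝ) : ∀ (j : ℕ) (A : MvPolynomial (Fin N) ℝ),
    aeval x (iter F l j A) / aeval x (WW F) ^ (j + 3 * l.length) =
      itK δ l (aeval x A / aeval x (WW F) ^ j) := by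
  induction l with
  | nil =>
    intro j A
    simp [iter, itK]
  | cons μ l ih =>
    intro j A
    have h1 := ih (j + 3) (LL F j A - C μ * WW F ^ 3 * A)
    rw [iter, List.length_cons, show j + 3 * (l.length + 1) = j + 3 + 3 * l.length by ring, h1,
      itK, h.lap_quot]
    congr 1
    have hW := h.W_ne
    rw [map_sub, map_mul, map_mul, map_pow, aeval_C, sub_div]
    congr 1
    field_simp
    ring

theorem lapK_mem {O : Subalgebra ℝ K} (hO : ∀ a, ∀ h ∈ O, δ a h ∈ O) {h : K}
    (hh : ∀ a, δ a h ∈ O) : lapK δ h ∈ O :=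
  O.neg_mem (O.sum_mem fun a _ => hO a _ (hh a))

theorem mem_of_itK {O : Subalgebra ℝ K} (hO : ∀ a, ∀ h ∈ O, δ a h ∈ O) (l : List ℝ)
    (hl : ∀ μ ∈ l, μ ≠ 0) : ∀ h : K, (∀ a, δ a h ∈ O) → itK δ l h ∈ O → h ∈ O := by
  induction l with
  | nil =>
    intro h _ h2
    exact h2
  | cons μ l ih =>
    intro h h1 h2
    have hμ : μ ≠ 0 := hl μ List.mem_cons_self
    have hL := lapK_mem hO h1
    have h3 : lapK δ h - algebraMap ℝ K μ * h ∈ O := by
      apply ih (fun ν hν => hl ν (List.mem_cons_of_mem μ hν)) _ _ h2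
      intro a
      rw [map_sub, ← Algebra.smul_def, Derivation.map_smul]
      exact O.sub_mem (hO a _ hL) (O.smul_mem (h1 a) μ)
    have h4 : algebraMap ℝ K μ * h ∈ O := by
      have h5 := O.sub_mem hL h3
      rwa [sub_sub_cancel] at h5
    have h5 := O.smul_mem h4 μ⁻¹
    rw [Algebra.smul_def, ← mul_assoc, ← map_mul, inv_mul_cancel₀ hμ, map_one, one_mul] at h5
    exact h5

/-- the coordinates of a point with values in `K` belong to `O` -/
theorem Tang.mem (h : Tang x F δ) {O : Subalgebra ℝ K} (hO : ∀ a, ∀ h ∈ O, δ a h ∈ O)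
    (hx : ∀ a b, δ a (x b) ∈ O) (hF : aeval x F = 0) {l : List ℝ} (hl : ∀ μ ∈ l, μ ≠ 0)
    {c : Fin N → ℝ} (hd : ∀ a, F ∣ iter F l 0 (X a - C (c a))) (a : Fin N) : x a ∈ O := by
  have h1 := h.iter_eq l 0 (X a - C (c a))
  obtain ⟨G, hG⟩ := hd a
  rw [hG, map_mul, hF, zero_mul, zero_div, pow_zero, div_one, map_sub, aeval_X, aeval_C] at h1
  have h2 : x a - algebraMap ℝ K (c a) ∈ O := by
    apply mem_of_itK hO l hl
    · intro b
      rw [map_sub, Derivation.map_algebraMap, sub_zero]
      exact hx b a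
    · rw [← h1]
      exact O.zero_mem
  have h3 := O.add_mem h2 (O.algebraMap_mem (c a))
  rwa [sub_add_cancel] at h3

end

end Run7.h978
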