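import Mathlib
import Pool.Agent.Run7.h978.Dense
import Pool.Agent.Run7.h978.Iso5

set_option autoImplicit false

/-!
Evaluation of polynomials, one variable being singled out.
-/

open MvPolynomial

namespace Run7.h978

theorem map_aeval' {k R1 R2 σ : Type*} [CommRing k] [CommRing R1] [CommRing R2] [Algebra k R1]
    [Algebra k R2] (φ : R1 →+* R2) (hφ : ∀ r, φ (algebraMap k R1 r) = algebraMap k R2 r)
    (z : σ → R1) (p : MvPolynomial σ k) : φ (aeval z p) = aeval (fun a => φ (z a)) p := by
  induction p using MvPolynomial.induction_on with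
  | C r => simp [hφ]
  | add p q hp hq => simp [hp, hq]
  | mul_X p i hp => simp [hp]

section

variable {R : Type*} [CommRing R] {n : ℕ}

/-- the isomorphism which singles out the coordinate `a` -/
noncomputable def sg (a : Fin (n + 1)) :
    MvPolynomial (Fin (n + 1)) R ≃ₐ[R] Polynomial (MvPolynomial (Fin n) R) :=
  (renameEquiv R (finSuccEquiv' a)).trans
    ((renameEquiv R (finSuccEquiv' (0 : Fin (n + 1))).symm).trans (finSuccEquiv R n))

theorem sg_X_self (a : Fin (n + 1)) : sg (R := R) a (X a) = Polynomial.X := by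
  rw [sg]
  simp [finSuccEquiv_X_zero]

theorem sg_X_succAbove (a : Fin (n + 1)) (i : Fin n) :
    sg (R := R) a (X (a.succAbove i)) = Polynomial.C (X i) := by
  rw [sg]
  simp [finSuccEquiv_X_succ]

theorem sg_C (a : Fin (n + 1)) (r : R) : sg a (C r) = Polynomial.C (C r) := by
  have h1 := (sg (R := R) a).commutes r
  rw [MvPolynomial.algebraMap_eq] at h1
  rw [h1]
  rfl

theorem aeval_sg {S : Type*} [CommRing S] [Algebra R S] (a : Fin (n + 1)) (x : Fin (n + 1) → S)
    (p : MvPolynomial (Fin (n + 1)) R) :
    Polynomial.eval₂ (aeval (fun i => x (a.succAbove i)) : MvPolynomial (Fin n) R →ₐ[R] S).toRingHom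
      (x a) (sg a p) = aeval x p := by
  induction p using MvPolynomial.induction_on with
  | C r => simp [sg_C]
  | add p q hp hq => rw [map_add, Polynomial.eval₂_add, hp, hq, map_add]
  | mul_X p i hp =>
    rw [map_mul, Polynomial.eval₂_mul, hp, map_mul, aeval_X]
    congr 1
    rcases eq_or_ne i a with rfl | hi
    · rw [sg_X_self, Polynomial.eval₂_X]
    · obtain ⟨k, rfl⟩ := Fin.exists_succAbove_eq hi
      rw [sg_X_succAbove, Polynomial.eval₂_C]
      simp

theorem derivative_sg (a : Fin (n + 1)) (p : MvPolynomial (Fin (n + 1)) R) :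
    Polynomial.derivative (sg a p) = sg a (pderiv a p) := by
  induction p using MvPolynomial.induction_on with
  | C r => simp [sg_C]
  | add p q hp hq => simp only [map_add, hp, hq]
  | mul_X p i hp =>
    rw [map_mul, Polynomial.derivative_mul, hp, Derivation.leibniz, map_add, smul_eq_mul,
      smul_eq_mul, map_mul, map_mul]
    rcases eq_or_ne i a with rfl | hi
    · rw [sg_X_self, Polynomial.derivative_X, pderiv_X_self, map_one]
      ring
    · obtain ⟨k, rfl⟩ := Fin.exists_succAbove_eq hi
      rw [sg_X_succAbove, Polynomial.derivative_C, pderiv_X_of_ne hi, map_zero]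
      ring

theorem natDegree_sg_ne [IsDomain R] [CharZero R] (a : Fin (n + 1))
    {p : MvPolynomial (Fin (n + 1)) R} (hp : pderiv a p ≠ 0) : (sg a p).natDegree ≠ 0 := by
  intro h
  apply hp
  apply (sg (R := R) a).injective
  rw [← derivative_sg, Polynomial.eq_C_of_natDegree_eq_zero h, Polynomial.derivative_C, map_zero]

end

/-- a multiple of `F` and of `G` which does not contain the variable `a` -/
theorem exists_elim {k : Type*} [Field k] [CharZero k] {n : ℕ} (a : Fin (n + 1))
    {F G : MvPolynomial (Fin (n + 1)) k} (hF : Irreducible F) (ha : pderiv a F ≠ 0) (hG : ¬F ∣ G) :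
    ∃ r : MvPolynomial (Fin n) k, r ≠ 0 ∧ ∀ (S : Type) [CommRing S] [Algebra k S]
      (x : Fin (n + 1) → S), aeval x F = 0 → aeval x G = 0 →
        aeval (fun i => x (a.succAbove i)) r = 0 := by
  have hFi : Irreducible (sg a F) := (MulEquiv.irreducible_iff (sg a)).2 hF
  have hGi : ¬(sg a F) ∣ (sg a G) := by
    intro h1
    exact hG ((map_dvd_iff (sg a)).1 h1)
  obtain ⟨r, hr0, u, v, huv⟩ := bezout hFi (natDegree_sg_ne a ha) hGi
  refine ⟨r, hr0, fun S _ _ x hx hy => ?_⟩
  have h2 := congrArg (Polynomial.eval₂ (aeval (fun i => x (a.succAbove i)) :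
    MvPolynomial (Fin n) k →ₐ[k] S).toRingHom (x a)) huv
  rw [Polynomial.eval₂_add, Polynomial.eval₂_mul, Polynomial.eval₂_mul, aeval_sg, aeval_sg, hx, hy,
    mul_zero, mul_zero, add_zero, Polynomial.eval₂_C] at h2
  exact h2.symm

/-- scaling of a weighted homogeneous polynomial -/
theorem aeval_scale {k K σ : Type*} [CommRing k] [CommRing K] [Algebra k K] [Fintype σ]
    {w : σ → ℕ} {d : ℕ} {p : MvPolynomial σ k} (hp : IsWeightedHomogeneous w p d) (z : σ → K)
    (t : K) : aeval (fun a => z a * t ^ w a) p = t ^ d * aeval z p := by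
  rw [aeval_def, aeval_def, eval₂_eq', eval₂_eq', Finset.mul_sum]
  refine Finset.sum_congr rfl fun s hs => ?_
  have h1 : ∏ i, (z i * t ^ w i) ^ s i = (∏ i, z i ^ s i) * t ^ d := by
    simp only [mul_pow, Finset.prod_mul_distrib, ← pow_mul]
    congr 1
    rw [Finset.prod_pow_eq_pow_sum]
    congr 1
    have h2 := hp (mem_support_iff.1 hs)
    rw [Finsupp.weight_apply, Finsupp.sum_fintype _ _ (fun _ => by simp)] at h2
    rw [← h2]
    refine Finset.sum_congr rfl fun a _ => ?_
    rw [smul_eq_mul, mul_comm]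
  rw [h1]
  ring

theorem pderiv_component {N : ℕ} (w : Fin N → ℕ) {F : MvPolynomial (Fin N) ℝ} {a : Fin N}
    (h : pderiv a F = 0) (d : ℕ) : pderiv a (weightedHomogeneousComponent w d F) = 0 := by
  rw [← coeff_Th, ← Th_pderiv, h, map_zero, zero_mul, Polynomial.coeff_zero]

theorem eq_C_of_pderiv {N : ℕ} {F : MvPolynomial (Fin N) ℝ} (hcon : ∀ a, pderiv a F = 0) :
    F = C (ev F 0) := by
  have h1 : ∀ x : Eu N, fderiv ℝ (ev F) x = 0 := by
    intro x
    rw [(hasFDerivAt_ev F x).fderiv]
    ext v
    rw [fnl_apply]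
    simp [hcon, ev]
  have h2 : Differentiable ℝ (ev F) := fun x => (hasFDerivAt_ev F x).differentiableAt
  have h3 := is_const_of_fderiv_eq_zero h2 h1
  apply MvPolynomial.funext
  intro w
  rw [eval_C]
  exact h3 (WithLp.toLp 2 w) 0

/-- elements with dual derivations are algebraically independent -/
theorem eq_zero_of_aeval {K : Type*} [Field K] [Algebra ℝ K] {N : ℕ} {x : Fin N → K}
    {E : Fin N → Derivation ℝ K K} {t : Fin N → K} (ht : ∀ i, t i ≠ 0)
    (hE : ∀ i k, E i (x k) = if i = k then t i else 0) (r : MvPolynomial (Fin N) ℝ)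
    (hr : aeval x r = 0) : r = 0 := by
  have key : ∀ d : ℕ, ∀ r : MvPolynomial (Fin N) ℝ, DL (fun _ => 1) r ((d : ℤ) - 1) →
      aeval x r = 0 → r = 0 := by
    intro d
    induction d with
    | zero =>
      intro r hr _
      by_contra h0
      exact Top.ne_zero_th h0 (hr.top.eq_zero (by simp))
    | succ d ih =>
      intro r hr hx
      have h1 : ∀ a, pderiv a r = 0 := by
        intro a
        apply ih
        · have h2 := hr.pderiv a
          refine h2.mono ?_
          push_cast
          omega
        · have h2 := congrArg (E a) hx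
          rw [chain, map_zero] at h2
          simp only [hE, mul_ite, mul_zero, Finset.sum_ite_eq, Finset.mem_univ, if_true] at h2
          exact (mul_eq_zero.1 h2).resolve_right (ht a)
      have h2 := eq_C_of_pderiv h1
      rw [h2, aeval_C] at hx
      have h3 : ev r 0 = 0 := by
        have := (map_eq_zero_iff _ (algebraMap ℝ K).injective).1 hx
        exact this
      rw [h2, h3, C_0]
  refine key ((Th (fun _ => 1) r).natDegree + 1) r ?_ hr
  intro k hk
  have hk0 : 0 ≤ k := by
    push_cast at hk
    omega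
  obtain ⟨k, rfl⟩ := Int.eq_ofNat_of_zero_le hk0
  rw [gc_nat]
  apply Polynomial.coeff_eq_zero_of_natDegree_lt
  push_cast at hk
  omega

end Run7.h978
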