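import Mathlib
import Pool.Agent.Run7.h978.Iso2
import Pool.Agent.Run7.h978.Iso4
import Pool.Agent.Run7.h978.Iso6

set_option autoImplicit false

/-!
The point at infinity and the contradiction.
-/

open MvPolynomial

namespace Run7.h978

theorem sum_components {N : ℕ} (w : Fin N → ℕ) (F : MvPolynomial (Fin N) ℝ) :
    F = ∑ k ∈ Finset.range (weightedTotalDegree w F + 1), weightedHomogeneousComponent w k F := by
  conv_lhs => rw [← sum_weightedHomogeneousComponent w F]
  rw [finsum_eq_sum_of_support_subset]
  intro k hk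
  rw [Function.mem_support] at hk
  by_contra h
  apply hk
  apply weightedHomogeneousComponent_eq_zero
  simp only [Finset.coe_range, Set.mem_Iio, not_lt] at h
  omega

section

variable {n : ℕ} {L : Type} [Field L] [Algebra ℝ L]

/-- power series -/
abbrev PS (L : Type) := PowerSeries L

/-- fractions of power series -/
abbrev FK (L : Type) [Field L] := FractionRing (PowerSeries L)

/-- the inclusion of power series in fractions -/
noncomputable abbrev io : PS L →+* FK L := algebraMap (PowerSeries L) (FractionRing (PowerSeries L))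

/-- the data: generic elements and derivations -/
theorem core [CharZero L] {b : Fin n → L} {D : Fin n → Derivation ℝ L L}
    (hDb : ∀ i k, D i (b k) = if i = k then 1 else 0)
    {F : MvPolynomial (Fin (n + 1)) ℝ} (hF : Irreducible F) {l : List ℝ} (hl : ∀ μ ∈ l, μ ≠ 0)
    {c : Fin (n + 1) → ℝ} (hd : ∀ a, F ∣ iter F l 0 (X a - C (c a)))
    (w : Fin (n + 1) → ℕ) (j : Fin (n + 1)) (hjm : ∀ a, w j ≤ w a) (hFj : pderiv j F ≠ 0)
    {i0 : Fin n} (hi0 : w (j.succAbove i0) ≠ 0) {M : ℕ} (hM : M ≠ 0) {η : PS L}
    (hη : ∑ k ∈ Finset.range (weightedTotalDegree w F + 1),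
      (PowerSeries.X : PS L) ^ (M * (weightedTotalDegree w F - k)) *
        aeval (Fin.insertNth (α := fun _ => PS L) j η fun i => PowerSeries.C (b i))
          (weightedHomogeneousComponent w k F) = 0)
    (hy : 1 + ∑ i, (if w (j.succAbove i) = w j then
      (D i (PowerSeries.constantCoeff η)) ^ 2 else 0) ≠ 0) : False := by
  classical
  have hιinj : Function.Injective (io : PS L →+* FK L) := IsFractionRing.injective _ _
  set D0 := weightedTotalDegree w F with hD0
  choose E hE using fun i => exists_frD (D i)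
  have hE' : ∀ i (f : PS L), E i (io f) = io (psD (D i) f) := hE
  set zA : Fin (n + 1) → PS L := Fin.insertNth (α := fun _ => PS L) j η fun i =>
    PowerSeries.C (b i) with hzA
  have hzj : zA j = η := Fin.insertNth_apply_same (α := fun _ => PS L) j η _
  have hzi : ∀ i, zA (j.succAbove i) = PowerSeries.C (b i) := fun i =>
    Fin.insertNth_apply_succAbove (α := fun _ => PS L) j η _ i
  set σ : FK L := io (PowerSeries.X ^ M : PS L) with hσ
  have hσ0 : σ ≠ 0 := by
    intro h
    have h1 : (PowerSeries.X ^ M : PS L) = 0 := hιinj (by rw [map_zero]; exact h)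
    exact PowerSeries.X_ne_zero (pow_eq_zero_iff hM |>.1 h1)
  have hEσ : ∀ i (k : ℕ), E i (σ ^ k) = 0 := by
    intro i k
    rw [hσ, ← map_pow, hE', ← pow_mul, Derivation.leibniz_pow, psD_X, smul_zero, smul_zero,
      map_zero]
  have hEσinv : ∀ i (k : ℕ), E i (σ⁻¹ ^ k) = 0 := by
    intro i k
    rw [inv_pow, Derivation.leibniz_inv, hEσ, smul_zero]
  set x : Fin (n + 1) → FK L := fun a => io (zA a) * σ⁻¹ ^ w a with hx
  -- the point lies on `F = 0`
  have hFx : aeval x F = 0 := by
    rw [sum_components w F, map_sum]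
    have h1 : ∀ k, aeval x (weightedHomogeneousComponent w k F) =
        σ⁻¹ ^ k * io (aeval zA (weightedHomogeneousComponent w k F)) := by
      intro k
      rw [hx, aeval_scale (weightedHomogeneousComponent_isWeightedHomogeneous k F)]
      congr 1
      exact (map_aeval' (io : PS L →+* FK L)
        (fun r => (IsScalarTower.algebraMap_apply ℝ (PS L) (FK L) r).symm) zA _).symm
    simp only [h1]
    have h2 := congrArg (io : PS L →+* FK L) hη
    rw [map_zero, map_sum] at h2
    have h3 : σ ^ D0 * ∑ k ∈ Finset.range (D0 + 1),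
        σ⁻¹ ^ k * io (aeval zA (weightedHomogeneousComponent w k F)) = 0 := by
      rw [← h2, Finset.mul_sum]
      refine Finset.sum_congr rfl fun k hk => ?_
      rw [Finset.mem_range] at hk
      rw [map_mul, pow_mul, map_pow, ← hσ, ← mul_assoc]
      congr 1
      rw [inv_pow, ← div_eq_mul_inv, div_eq_iff (pow_ne_zero _ hσ0), ← pow_add]
      congr 1
      omega
    exact (mul_eq_zero.1 h3).resolve_left (pow_ne_zero _ hσ0)
  have hEx : ∀ i k, E i (x (j.succAbove k)) = if i = k then σ⁻¹ ^ w (j.succAbove k) else 0 := by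
    intro i k
    rw [hx]
    simp only [Derivation.leibniz, hEσinv, zero_add, hzi, hE', psD_C, hDb, smul_eq_mul,
      mul_zero]
    by_cases h : i = k
    · rw [if_pos h, if_pos h, map_one, map_one, mul_one]
    · rw [if_neg h, if_neg h, map_zero, map_zero, mul_zero]
  have hExj : ∀ i, E i (x j) = σ⁻¹ ^ w j * io (psD (D i) η) := by
    intro i
    rw [hx]
    simp only [Derivation.leibniz, hEσinv, zero_add, hzj, hE', smul_eq_mul, mul_zero]
  set g : Fin (n + 1) → FK L := fun a => aeval x (pderiv a F) with hg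
  have hgj : g j ≠ 0 := by
    intro h0
    obtain ⟨r, hr0, hr⟩ := exists_elim j hF hFj (fun h => hFj (not_dvd_pderiv j h))
    apply hr0
    exact eq_zero_of_aeval (x := fun i => x (j.succAbove i)) (E := E)
      (t := fun k => σ⁻¹ ^ w (j.succAbove k)) (fun k => pow_ne_zero _ (inv_ne_zero hσ0)) (by
        intro i k
        rw [hEx]
        by_cases h : i = k
        · rw [if_pos h, if_pos h, h]
        · rw [if_neg h, if_neg h]) r (hr (FK L) x hFx h0)
  -- the normal direction
  set γ : Fin (n + 1) → PS L := Fin.insertNth (α := fun _ => PS L) j 1 fun i =>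
    -((PowerSeries.X ^ M) ^ (w (j.succAbove i) - w j) * psD (D i) η) with hγ
  have hγj : γ j = 1 := Fin.insertNth_apply_same (α := fun _ => PS L) j 1 _
  have hγi : ∀ i, γ (j.succAbove i) =
      -((PowerSeries.X ^ M) ^ (w (j.succAbove i) - w j) * psD (D i) η) := fun i =>
    Fin.insertNth_apply_succAbove (α := fun _ => PS L) j 1 _ i
  have hgi : ∀ i, g (j.succAbove i) = -(g j * (σ ^ (w (j.succAbove i) - w j) *
      io (psD (D i) η))) := by
    intro i
    have h1 := congrArg (E i) hFx
    rw [chain, map_zero, Fin.sum_univ_succAbove _ j, hExj] at h1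
    simp only [hEx, mul_ite, mul_zero, Finset.sum_ite_eq, Finset.mem_univ, if_true] at h1
    have h2 : g j * (σ⁻¹ ^ w j * io (psD (D i) η)) +
      g (j.succAbove i) * σ⁻¹ ^ w (j.succAbove i) = 0 := h1
    have h3 : w (j.succAbove i) = w (j.succAbove i) - w j + w j := by
      have := hjm (j.succAbove i)
      omega
    have h4 : σ ^ w (j.succAbove i) = σ ^ (w (j.succAbove i) - w j) * σ ^ w j := by
      rw [← pow_add, ← h3]
    rw [inv_pow, inv_pow] at h2
    have h5 : (σ : FK L) ^ w j ≠ 0 := pow_ne_zero _ hσ0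
    have h6 : (σ : FK L) ^ (w (j.succAbove i) - w j) ≠ 0 := pow_ne_zero _ hσ0
    rw [h4] at h2
    field_simp at h2
    linear_combination h2
  have hgγ : ∀ a, g a = g j * io (γ a) := by
    intro a
    rcases eq_or_ne a j with rfl | ha
    · rw [hγj, map_one, mul_one]
    · obtain ⟨i, rfl⟩ := Fin.exists_succAbove_eq ha
      rw [hgi, hγi, map_neg, map_mul, map_pow, ← hσ]
      ring
  set Wt : PS L := ∑ a, γ a ^ 2 with hWt
  have hWtc : PowerSeries.constantCoeff Wt ≠ 0 := by
    have h1 : PowerSeries.constantCoeff Wt = 1 + ∑ i, (if w (j.succAbove i) = w j then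
      (D i (PowerSeries.constantCoeff η)) ^ 2 else 0) := by
      rw [hWt, Fin.sum_univ_succAbove _ j, hγj, map_add, map_pow, map_one, one_pow, map_sum]
      congr 1
      refine Finset.sum_congr rfl fun i _ => ?_
      rw [hγi, map_pow, map_neg, map_mul, map_pow, map_pow, PowerSeries.constantCoeff_X,
        zero_pow hM, neg_sq, mul_pow]
      have h3 : PowerSeries.constantCoeff (psD (D i) η) = D i (PowerSeries.constantCoeff η) := by
        rw [← PowerSeries.coeff_zero_eq_constantCoeff, coeff_psD,
          PowerSeries.coeff_zero_eq_constantCoeff]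
      rw [h3]
      have h2 := hjm (j.succAbove i)
      by_cases h : w (j.succAbove i) = w j
      · rw [if_pos h, h, Nat.sub_self, pow_zero, one_pow, one_mul]
      · rw [if_neg h, zero_pow (by omega)]
        ring
    rw [h1]
    exact hy
  have hWtu : Wt * Wt⁻¹ = 1 := PowerSeries.mul_inv_cancel Wt hWtc
  have hW : aeval x (WW F) = g j ^ 2 * io Wt := by
    rw [aeval_WW, hWt, map_sum, Finset.mul_sum]
    refine Finset.sum_congr rfl fun a _ => ?_
    have : aeval x (pderiv a F) = g j * io (γ a) := hgγ a
    rw [this, mul_pow, map_pow]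
  have hWt0 : (io Wt : FK L) ≠ 0 := by
    intro h
    have h1 : Wt = 0 := hιinj (by rw [map_zero]; exact h)
    rw [h1, map_zero] at hWtc
    exact hWtc rfl
  have hWtinv : (io Wt⁻¹ : FK L) = (io Wt)⁻¹ := by
    apply eq_inv_of_mul_eq_one_left
    rw [← map_mul, mul_comm, hWtu, map_one]
  set π : Fin (n + 1) → Fin (n + 1) → PS L := fun a b =>
    (if a = b then 1 else 0) - γ a * γ b * Wt⁻¹ with hπ
  have hπK : ∀ a b, (io (π a b) : FK L) = (if a = b then 1 else 0) -
      g a * g b / aeval x (WW F) := by
    intro a b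
    rw [hW, hgγ a, hgγ b]
    simp only [hπ, map_sub, map_mul, hWtinv]
    have h1 : (io (if a = b then 1 else 0) : FK L) = if a = b then 1 else 0 := by
      split
      · exact map_one _
      · exact map_zero _
    rw [h1]
    congr 1
    field_simp
  have hπγ : ∀ a, ∑ b, π a b * γ b = 0 := by
    intro a
    simp only [hπ, sub_mul, ite_mul, one_mul, zero_mul, Finset.sum_sub_distrib,
      Finset.sum_ite_eq, Finset.mem_univ, if_true]
    have h1 : ∑ b, γ a * γ b * Wt⁻¹ * γ b = γ a * (Wt * Wt⁻¹) := by
      rw [hWt, Finset.sum_mul, Finset.mul_sum]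
      refine Finset.sum_congr rfl fun b _ => ?_
      ring
    rw [h1, hWtu, mul_one, sub_self]
  have hπs : ∀ a b, π a b = π b a := by
    intro a b
    simp only [hπ]
    by_cases h : a = b
    · rw [h]
    · rw [if_neg h, if_neg (Ne.symm h)]
      ring
  -- the derivations
  set δ : Fin (n + 1) → Derivation ℝ (FK L) (FK L) := fun a =>
    ∑ i, (io (π a (j.succAbove i)) * σ ^ w (j.succAbove i)) • E i with hδ
  have hδa : ∀ a h, δ a h = ∑ i, io (π a (j.succAbove i)) * σ ^ w (j.succAbove i) * E i h := by
    intro a h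
    have h1 := congrFun (map_sum (Derivation.coeFnAddMonoidHom (R := ℝ) (A := FK L) (M := FK L))
      (fun i => (io (π a (j.succAbove i)) * σ ^ w (j.succAbove i)) • E i) Finset.univ) h
    rw [Finset.sum_apply] at h1
    exact h1
  have hδx : ∀ a b, δ a (x b) = io (π a b) := by
    intro a b
    rw [hδa]
    rcases eq_or_ne b j with rfl | hb
    · simp only [hExj]
      have h1 := hπγ a
      rw [Fin.sum_univ_succAbove _ b, hγj, mul_one] at h1
      have h2 : π a b = -∑ i, π a (b.succAbove i) * γ (b.succAbove i) := by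
        linear_combination h1
      rw [h2, map_neg, map_sum, ← Finset.sum_neg_distrib]
      refine Finset.sum_congr rfl fun i _ => ?_
      rw [hγi, map_mul, map_neg, map_mul, map_pow, ← hσ]
      have h3 : w (b.succAbove i) = w (b.succAbove i) - w b + w b := by
        have := hjm (b.succAbove i)
        omega
      have h4 : σ ^ w (b.succAbove i) = σ ^ (w (b.succAbove i) - w b) * σ ^ w b := by
        rw [← pow_add, ← h3]
      rw [h4, inv_pow]
      have h5 : (σ : FK L) ^ w b ≠ 0 := pow_ne_zero _ hσ0
      field_simp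
    · obtain ⟨k, rfl⟩ := Fin.exists_succAbove_eq hb
      simp only [hEx, mul_ite, mul_zero, Finset.sum_ite_eq', Finset.mem_univ, if_true]
      rw [mul_assoc, ← mul_pow, mul_inv_cancel₀ hσ0, one_pow, mul_one]
  have hT : Tang x F δ := by
    refine ⟨?_, ?_, ?_⟩
    · rw [hW]
      exact mul_ne_zero (pow_ne_zero 2 hgj) hWt0
    · intro a b
      rw [hδx, hπK]
    · intro h
      have h1 : ∀ a, aeval x (pderiv a F) * δ a h =
          ∑ i, (g j * io (π (j.succAbove i) a * γ a)) * (σ ^ w (j.succAbove i) * E i h) := by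
        intro a
        have h2 : aeval x (pderiv a F) = g j * io (γ a) := hgγ a
        rw [h2, hδa, Finset.mul_sum]
        refine Finset.sum_congr rfl fun i _ => ?_
        rw [hπs (j.succAbove i) a, map_mul]
        ring
      simp only [h1]
      rw [Finset.sum_comm]
      apply Finset.sum_eq_zero
      intro i _
      rw [← Finset.sum_mul, ← Finset.mul_sum, ← map_sum, hπγ, map_zero, mul_zero, zero_mul]
  -- the ring of power series
  set O : Subalgebra ℝ (FK L) := (IsScalarTower.toAlgHom ℝ (PS L) (FK L)).range with hO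
  have hOm : ∀ f : PS L, (io f : FK L) ∈ O := fun f => ⟨f, rfl⟩
  have hOδ : ∀ a, ∀ h ∈ O, δ a h ∈ O := by
    rintro a _ ⟨f, rfl⟩
    rw [hδa]
    apply O.sum_mem
    intro i _
    have h1 : E i ((IsScalarTower.toAlgHom ℝ (PS L) (FK L)) f) = io (psD (D i) f) := hE' i f
    have h2 := O.mul_mem (O.mul_mem (hOm (π a (j.succAbove i))) (O.pow_mem (hOm
      (PowerSeries.X ^ M : PS L)) (w (j.succAbove i)))) (hOm (psD (D i) f))
    rw [← h1] at h2
    exact h2
  have hfin := hT.mem hOδ (fun a b => by rw [hδx]; exact hOm _) hFx hl hd (j.succAbove i0)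
  obtain ⟨f, hf⟩ := hfin
  have h1 : (io f : FK L) = io (zA (j.succAbove i0)) * σ⁻¹ ^ w (j.succAbove i0) := hf
  rw [hzi, inv_pow, ← div_eq_mul_inv, eq_div_iff (pow_ne_zero _ hσ0), hσ, ← map_pow, ← map_mul] at h1
  have h2 := hιinj h1
  have h3 := congrArg (PowerSeries.constantCoeff (R := L)) h2
  rw [map_mul, map_pow, map_pow, PowerSeries.constantCoeff_X, zero_pow hM, zero_pow hi0, mul_zero,
    PowerSeries.constantCoeff_C] at h3
  have h4 := hDb i0 i0
  rw [← h3, map_zero, if_pos rfl] at h4
  exact zero_ne_one h4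

end

end Run7.h978
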