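import Mathlib
import Pool.Agent.Run7.h978.Iso7

set_option autoImplicit false

/-!
Every irreducible factor of a leading part is isotropic.
-/

open MvPolynomial

namespace Run7.h978

/-- the sum of the squares of the partial derivatives over the coordinates of weight `m` -/
noncomputable def gsq {N : ℕ} (w : Fin N → ℕ) (m : ℕ) (q : MvPolynomial (Fin N) ℂ) :
    MvPolynomial (Fin N) ℂ :=
  ∑ a, if w a = m then pderiv a q ^ 2 else 0

theorem not_dvd_pderiv' {k : Type*} [Field k] [CharZero k] {n : ℕ} {j : Fin (n + 1)}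
    {q : MvPolynomial (Fin (n + 1)) k} (hj : pderiv j q ≠ 0) : ¬q ∣ pderiv j q := by
  intro h
  have h1 : sg j q ∣ Polynomial.derivative (sg j q) := by
    rw [derivative_sg]
    exact (map_dvd_iff (sg j)).2 h
  have h2 := natDegree_sg_ne j hj
  have h3 : Polynomial.derivative (sg j q) ≠ 0 := by
    rw [derivative_sg]
    intro h4
    exact hj ((sg (R := k) j).injective (by rw [h4, map_zero]))
  have h4 := Polynomial.natDegree_le_of_dvd h1 h3
  have h5 := Polynomial.natDegree_derivative_lt h2
  omega

theorem exists_real_derivation {L : Type} [Field L] [Algebra ℝ L] (d : L → L)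
    (h1 : ∀ x y, d (x + y) = d x + d y) (h2 : ∀ x y, d (x * y) = x * d y + y * d x)
    (h3 : ∀ r : ℝ, d (algebraMap ℝ L r) = 0) : ∃ D : Derivation ℝ L L, ∀ x, D x = d x := by
  refine ⟨Derivation.mk' { toFun := d, map_add' := h1, map_smul' := fun r x => ?_ } fun x y => ?_,
    fun x => rfl⟩
  · rw [RingHom.id_apply, Algebra.smul_def, Algebra.smul_def, h2, h3, mul_zero, add_zero]
  · exact h2 x y

theorem no_factor {n : ℕ} (hn : n ≠ 0) {F : MvPolynomial (Fin (n + 1)) ℝ} (hF : Irreducible F)
    {l : List ℝ} (hl : ∀ μ ∈ l, μ ≠ 0) {c : Fin (n + 1) → ℝ}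
    (hd : ∀ a, F ∣ iter F l 0 (X a - C (c a))) {w : Fin (n + 1) → ℕ} (hw : w ≠ 0) {m : ℕ}
    (hm : ∀ a, m ≤ w a) {q : MvPolynomial (Fin (n + 1)) ℂ} (hq : Irreducible q)
    (hqf : q ∣ map (algebraMap ℝ ℂ)
      (weightedHomogeneousComponent w (weightedTotalDegree w F) F)) : q ∣ gsq w m q := by
  classical
  by_contra hcon
  obtain ⟨⟨b, D, hDb, hinj⟩⟩ := exists_genField n
  set D0 := weightedTotalDegree w F with hD0
  set f := weightedHomogeneousComponent w D0 F with hf
  have hf0 : f ≠ 0 := (top_weighted w hF.ne_zero).2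
  have hfc0 : map (algebraMap ℝ ℂ) f ≠ 0 := by
    intro h
    exact hf0 (map_injective _ (algebraMap ℝ ℂ).injective (by rw [h, map_zero]))
  -- a coordinate of weight `m`
  obtain ⟨j, hjw, hjq⟩ : ∃ j, w j = m ∧ pderiv j q ≠ 0 := by
    by_contra h
    push Not at h
    apply hcon
    rw [gsq, Finset.sum_eq_zero]
    · exact dvd_zero q
    · intro a _
      split
      · rename_i h1
        rw [h a h1]
        ring
      · rfl
  have hjm : ∀ a, w j ≤ w a := fun a => by rw [hjw]; exact hm a
  have hprime : Prime q := hq.prime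
  have hG : ¬q ∣ pderiv j q * gsq w m q := fun h =>
    (hprime.dvd_or_dvd h).elim (not_dvd_pderiv' hjq) hcon
  obtain ⟨r, hr0, hr⟩ := exists_elim j hq hjq hG
  -- the root
  set φ : MvPolynomial (Fin n) ℂ →+* LL' n :=
    (aeval b : MvPolynomial (Fin n) ℂ →ₐ[ℂ] LL' n).toRingHom with hφ
  have hφinj : Function.Injective φ := hinj
  obtain ⟨y, hy⟩ : ∃ y : LL' n, Polynomial.IsRoot ((sg j q).map φ) y := by
    apply IsAlgClosed.exists_root
    rw [Polynomial.degree_map_eq_of_injective hφinj]
    intro h
    apply natDegree_sg_ne j hjq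
    exact Polynomial.natDegree_eq_of_degree_eq_some h
  set z : Fin (n + 1) → LL' n := Fin.insertNth (α := fun _ => LL' n) j y b with hz
  have hzj : z j = y := Fin.insertNth_apply_same (α := fun _ => LL' n) j y _
  have hzi : ∀ i, z (j.succAbove i) = b i := fun i =>
    Fin.insertNth_apply_succAbove (α := fun _ => LL' n) j y _ i
  have hzi' : (fun i => z (j.succAbove i)) = b := funext hzi
  have hqz : aeval z q = 0 := by
    rw [← aeval_sg j z q, hzi', hzj, ← hφ, ← Polynomial.eval_map]
    exact hy
  have hGz : aeval z (pderiv j q * gsq w m q) ≠ 0 := by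
    intro h
    have h1 := hr (LL' n) z hqz h
    rw [hzi'] at h1
    exact hr0 (hinj (by rw [h1, map_zero]))
  rw [map_mul] at hGz
  have hqj : aeval z (pderiv j q) ≠ 0 := left_ne_zero_of_mul hGz
  have hgs : aeval z (gsq w m q) ≠ 0 := right_ne_zero_of_mul hGz
  have hDz : ∀ i, aeval z (pderiv (j.succAbove i) q) = -(aeval z (pderiv j q) * D i y) := by
    intro i
    have h1 := congrArg (D i) hqz
    rw [chain, map_zero, Fin.sum_univ_succAbove _ j, hzj] at h1
    simp only [hzi, hDb, mul_ite, mul_one, mul_zero, Finset.sum_ite_eq, Finset.mem_univ,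
      if_true] at h1
    linear_combination h1
  have hsum : 1 + ∑ i, (if w (j.succAbove i) = w j then (D i y) ^ 2 else 0) ≠ 0 := by
    intro h
    apply hgs
    have h1 : aeval z (gsq w m q) = aeval z (pderiv j q) ^ 2 *
        (1 + ∑ i, (if w (j.succAbove i) = w j then (D i y) ^ 2 else 0)) := by
      rw [gsq, map_sum, Fin.sum_univ_succAbove _ j, if_pos hjw, map_pow, mul_add, mul_one,
        Finset.mul_sum]
      congr 1
      refine Finset.sum_congr rfl fun i _ => ?_
      rw [hjw]
      by_cases h2 : w (j.succAbove i) = m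
      · rw [if_pos h2, if_pos h2, map_pow, hDz]
        ring
      · rw [if_neg h2, if_neg h2, map_zero, mul_zero]
    rw [h1, h, mul_zero]
  have hfz : aeval z f = 0 := by
    rw [← aeval_map_algebraMap ℂ z f]
    obtain ⟨h, hh⟩ := hqf
    rw [hh, map_mul, hqz, zero_mul]
  -- the polynomial over the power series
  set zY : Fin (n + 1) → Polynomial (PowerSeries (LL' n)) :=
    Fin.insertNth (α := fun _ => Polynomial (PowerSeries (LL' n))) j Polynomial.X
      fun i => Polynomial.C (PowerSeries.C (b i)) with hzY
  have hzYj : zY j = Polynomial.X :=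
    Fin.insertNth_apply_same (α := fun _ => Polynomial (PowerSeries (LL' n))) j _ _
  have hzYi : ∀ i, zY (j.succAbove i) = Polynomial.C (PowerSeries.C (b i)) := fun i =>
    Fin.insertNth_apply_succAbove (α := fun _ => Polynomial (PowerSeries (LL' n))) j _ _ i
  set P : Polynomial (PowerSeries (LL' n)) := ∑ k ∈ Finset.range (D0 + 1),
    Polynomial.C (PowerSeries.X ^ (D0 - k)) * aeval zY (weightedHomogeneousComponent w k F) with hP
  set zR : Fin (n + 1) → Polynomial (LL' n) :=
    Fin.insertNth (α := fun _ => Polynomial (LL' n)) j Polynomial.X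
      fun i => Polynomial.C (b i) with hzR
  have hzRj : zR j = Polynomial.X :=
    Fin.insertNth_apply_same (α := fun _ => Polynomial (LL' n)) j _ _
  have hzRi : ∀ i, zR (j.succAbove i) = Polynomial.C (b i) := fun i =>
    Fin.insertNth_apply_succAbove (α := fun _ => Polynomial (LL' n)) j _ _ i
  have hredP : red P = aeval zR f := by
    rw [red, hP, Polynomial.map_sum, Finset.sum_eq_single D0]
    · rw [Nat.sub_self, pow_zero, map_one, one_mul]
      have h1 := map_aeval' (Polynomial.mapRingHom (PowerSeries.constantCoeff (R := LL' n)))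
        (k := ℝ) (R1 := Polynomial (PowerSeries (LL' n))) (R2 := Polynomial (LL' n)) (fun r => by
          rw [Polynomial.coe_mapRingHom, Polynomial.algebraMap_apply, Polynomial.algebraMap_apply,
            Polynomial.map_C, PowerSeries.algebraMap_apply, PowerSeries.constantCoeff_C]) zY f
      rw [Polynomial.coe_mapRingHom] at h1
      rw [← hf, h1]
      congr 2
      funext a
      rcases eq_or_ne a j with rfl | ha
      · rw [hzYj, hzRj, Polynomial.map_X]
      · obtain ⟨i, rfl⟩ := Fin.exists_succAbove_eq ha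
        rw [hzYi, hzRi, Polynomial.map_C, PowerSeries.constantCoeff_C]
    · intro k hk hk2
      rw [Finset.mem_range] at hk
      rw [Polynomial.map_mul, Polynomial.map_C, map_pow, PowerSeries.constantCoeff_X,
        zero_pow (by omega), Polynomial.C_0, zero_mul]
    · intro h
      exact absurd (Finset.mem_range.2 (Nat.lt_succ_self D0)) h
  have hredP0 : red P ≠ 0 := by
    rw [hredP]
    intro h
    have h1 := aeval_sg j zR f
    rw [h, hzRj] at h1
    have h2 : Polynomial.eval₂ (aeval (fun i => zR (j.succAbove i)) :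
        MvPolynomial (Fin n) ℝ →ₐ[ℝ] Polynomial (LL' n)).toRingHom Polynomial.X (sg j f) =
        (sg j f).map (aeval b : MvPolynomial (Fin n) ℝ →ₐ[ℝ] LL' n).toRingHom := by
      rw [Polynomial.map, Polynomial.eval₂_eq_sum, Polynomial.eval₂_eq_sum]
      congr 1
      funext i p
      congr 1
      have h3 : (fun i => zR (j.succAbove i)) = fun i => Polynomial.C (b i) := funext hzRi
      rw [h3]
      exact (map_aeval' (Polynomial.C : LL' n →+* Polynomial (LL' n)) (fun r => by
        rw [Polynomial.algebraMap_apply]) b p).symm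
    rw [h2] at h1
    have h4 : Function.Injective (aeval b : MvPolynomial (Fin n) ℝ →ₐ[ℝ] LL' n).toRingHom := by
      intro p1 p2 hp
      have h5 : aeval b (map (algebraMap ℝ ℂ) p1) = aeval b (map (algebraMap ℝ ℂ) p2) := by
        rw [aeval_map_algebraMap, aeval_map_algebraMap]
        exact hp
      exact map_injective _ (algebraMap ℝ ℂ).injective (hinj h5)
    have h6 : sg j f = 0 := Polynomial.map_injective _ h4 (by rw [h1, Polynomial.map_zero])
    exact hf0 ((sg (R := ℝ) j).injective (by rw [h6, map_zero]))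
  have hroot : (red P).rootMultiplicity y ≠ 0 := by
    have h1 : (red P).IsRoot y := by
      rw [Polynomial.IsRoot, hredP]
      have h2 := map_aeval' (Polynomial.evalRingHom y) (k := ℝ) (R1 := Polynomial (LL' n))
        (R2 := LL' n) (fun r => by
          rw [Polynomial.coe_evalRingHom, Polynomial.algebraMap_apply, Polynomial.eval_C]) zR f
      rw [Polynomial.coe_evalRingHom] at h2
      rw [h2, ← hfz]
      congr 2
      funext a
      rcases eq_or_ne a j with rfl | ha
      · rw [hzRj, hzj, Polynomial.eval_X]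
      · obtain ⟨i, rfl⟩ := Fin.exists_succAbove_eq ha
        rw [hzRi, hzi, Polynomial.eval_C]
    exact ((Polynomial.rootMultiplicity_pos hredP0).2 h1).ne'
  obtain ⟨M, hM, η, hη, hηy⟩ := exists_root_lift (L := LL' n) (O := fun k => k ≠ 0)
    (fun h => h rfl) (fun p hp hpd => by
      obtain ⟨a, ha⟩ := IsAlgClosed.exists_root p (by
        intro h
        exact hpd (Polynomial.natDegree_eq_of_degree_eq_some h))
      exact ⟨a, ((Polynomial.rootMultiplicity_pos hp.ne_zero).2 ha).ne'⟩) hredP0 hroot
  -- the equation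
  have hη2 : ∑ k ∈ Finset.range (weightedTotalDegree w F + 1),
      (PowerSeries.X : PS (LL' n)) ^ (M * (weightedTotalDegree w F - k)) *
        aeval (Fin.insertNth (α := fun _ => PS (LL' n)) j η fun i => PowerSeries.C (b i))
          (weightedHomogeneousComponent w k F) = 0 := by
    rw [← hη, hP, Polynomial.map_sum, Polynomial.eval_finsetSum]
    refine Finset.sum_congr rfl fun k _ => ?_
    rw [Polynomial.map_mul, Polynomial.map_C, Polynomial.eval_mul, Polynomial.eval_C, map_pow, ex_X,
      ← pow_mul]
    congr 1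
    have h1 := map_aeval' ((Polynomial.evalRingHom η).comp (Polynomial.mapRingHom (ex M hM)))
      (k := ℝ) (R1 := Polynomial (PowerSeries (LL' n))) (R2 := PowerSeries (LL' n)) (fun r => by
        rw [RingHom.comp_apply, Polynomial.coe_mapRingHom, Polynomial.coe_evalRingHom,
          Polynomial.algebraMap_apply, Polynomial.map_C, Polynomial.eval_C,
          PowerSeries.algebraMap_apply, ex_C]) zY (weightedHomogeneousComponent w k F)
    rw [RingHom.comp_apply, Polynomial.coe_mapRingHom, Polynomial.coe_evalRingHom] at h1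
    rw [h1]
    congr 2
    funext a
    rw [RingHom.comp_apply, Polynomial.coe_mapRingHom, Polynomial.coe_evalRingHom]
    rcases eq_or_ne a j with rfl | ha
    · rw [hzYj, Polynomial.map_X, Polynomial.eval_X]
      exact Fin.insertNth_apply_same (α := fun _ => PS (LL' n)) a η _
    · obtain ⟨i, rfl⟩ := Fin.exists_succAbove_eq ha
      rw [hzYi, Polynomial.map_C, Polynomial.eval_C, ex_C]
      exact Fin.insertNth_apply_succAbove (α := fun _ => PS (LL' n)) j η _ i
  -- the polynomial `F` contains the variable `j`
  have hFj : pderiv j F ≠ 0 := by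
    intro h
    have h1 : pderiv j (map (algebraMap ℝ ℂ) f) = 0 := by
      rw [pderiv_map, pderiv_component w h, map_zero]
    have h2 : Polynomial.derivative (sg j (map (algebraMap ℝ ℂ) f)) = 0 := by
      rw [derivative_sg, h1, map_zero]
    have h3 := Polynomial.derivative_eq_zero.1 h2
    have h4 : sg j q ∣ sg j (map (algebraMap ℝ ℂ) f) := (map_dvd_iff (sg j)).2 hqf
    have h5 : sg j (map (algebraMap ℝ ℂ) f) ≠ 0 := by
      intro h6
      exact hfc0 ((sg (R := ℂ) j).injective (by rw [h6, map_zero]))
    have h6 := Polynomial.natDegree_le_of_dvd h4 h5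
    have h7 := natDegree_sg_ne j hjq
    omega
  obtain ⟨i0, hi0⟩ : ∃ i0 : Fin n, w (j.succAbove i0) ≠ 0 := by
    by_contra h
    push Not at h
    have h1 : w j = 0 := by
      have h2 := hjm (j.succAbove ⟨0, Nat.pos_of_ne_zero hn⟩)
      rw [h] at h2
      exact Nat.le_zero.1 h2
    apply hw
    funext a
    rcases eq_or_ne a j with rfl | ha
    · exact h1
    · obtain ⟨i, rfl⟩ := Fin.exists_succAbove_eq ha
      exact h i
  choose DR hDR using fun i => exists_real_derivation (L := LL' n) (fun x => D i x)
    (fun x y => map_add (D i) x y) (fun x y => (D i).leibniz x y) (fun r => by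
      have h1 : algebraMap ℝ (LL' n) r = algebraMap ℂ (LL' n) (algebraMap ℝ ℂ r) :=
        IsScalarTower.algebraMap_apply ℝ ℂ (LL' n) r
      rw [h1]
      exact (D i).map_algebraMap _)
  refine core (b := b) (D := DR) (fun i k => by rw [hDR]; exact hDb i k) hF
    hl hd w j hjm hFj hi0 hM hη2 ?_
  rw [hηy]
  simp only [hDR]
  exact hsum

end Run7.h978
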