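import Mathlib
import Pool.Agent.Run7.h978.Crit
import Pool.Agent.Run7.h978.Iso8

set_option autoImplicit false

/-!
The algebraic criterion for compact manifolds.
-/

open Set Filter Topology MvPolynomial
open scoped RealInnerProductSpace ContDiff Manifold

namespace Run7.h978

section

variable {n : ℕ} {X : Eu n → Eu (n + 1)} {U : Set (Eu n)}

/-- the finite type condition in terms of polynomials -/
theorem exists_iter_dvd (h : Imm X U) (hne : U.Nonempty) {F : MvPolynomial (Fin (n + 1)) ℝ}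
    (hF : Irreducible F) (hF0 : ∀ x ∈ U, ev F (X x) = 0)
    {k : ℕ} (c : Eu (n + 1)) {u : Fin k → Eu n → Eu (n + 1)}
    (su : ∀ i, ContDiffOn ℝ ∞ (u i) U) {μ : Fin k → ℝ} (hμ : ∀ i, μ i ≠ 0)
    (hu : ∀ i, ∀ x ∈ U, lap X (u i) x = μ i • u i x) (hX : ∀ x ∈ U, X x = c + ∑ i, u i x) :
    ∃ l : List ℝ, (∀ t ∈ l, t ≠ 0) ∧
      ∀ a, F ∣ iter F l 0 (MvPolynomial.X a - MvPolynomial.C (c a)) := by
  classical
  obtain ⟨x0, hx0, hx0'⟩ := exists_WW_ne h hne hF hF0
  set V : Set (Eu n) := U ∩ {x | ev (WW F) (X x) ≠ 0} with hV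
  have hVo : IsOpen V := by
    have h1 : ContinuousOn (fun x => ev (WW F) (X x)) U :=
      (sm_ev (WW F)).continuous.comp_continuousOn h.sm.continuousOn
    exact h1.isOpen_inter_preimage h.hU isOpen_ne
  have hVi : Imm X V := h.mono hVo inter_subset_left
  have hVne : V.Nonempty := ⟨x0, hx0, hx0'⟩
  refine ⟨List.ofFn μ, ?_, fun a => ?_⟩
  · intro t ht
    rw [List.mem_ofFn] at ht
    obtain ⟨i, rfl⟩ := ht
    exact hμ i
  apply dvd_of_vanish hVi hVne hF fun x hx => hF0 x hx.1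
  intro x hx
  have hsu : ∀ i, ContDiffOn ℝ ∞ (fun y => u i y a) V := fun i =>
    (EuclideanSpace.proj (𝕜 := ℝ) a).contDiff.comp_contDiffOn ((su i).mono inter_subset_left)
  have h1 := iter_eq hVi (fun x hx => hF0 x hx.1) (fun x hx => hx.2) hsu (μ := μ)
    (fun i y hy => by
      rw [lap_component hVi ((su i).mono inter_subset_left) a hy, hu i y hy.1]
      rfl) (List.ofFn μ) 0 (MvPolynomial.X a - MvPolynomial.C (c a)) (fun _ => 1) (by
      intro y hy
      have h2 : ev (MvPolynomial.X a - MvPolynomial.C (c a) :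
          MvPolynomial (Fin (n + 1)) ℝ) (X y) = X y a - c a := by
        simp [ev]
      rw [h2, pow_zero, div_one, hX y hy.1]
      simp) x hx
  have h2 : ∀ i, ((List.ofFn μ).map fun t => μ i - t).prod = 0 := by
    intro i
    apply List.prod_eq_zero
    rw [List.mem_map]
    exact ⟨μ i, by rw [List.mem_ofFn]; exact ⟨i, rfl⟩, sub_self _⟩
  simp only [h2, mul_zero, zero_mul, Finset.sum_const_zero] at h1
  have h3 : ev (WW F) (X x) ^ (0 + 3 * (List.ofFn μ).length) ≠ 0 := pow_ne_zero _ hx.2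
  exact (div_eq_zero_iff.1 h1).resolve_right h3

end

variable {n : ℕ} {M : Type*} [TopologicalSpace M] [ChartedSpace (Eu n) M]

theorem exists_iter_dvd_mfd [CompactSpace M] [ConnectedSpace M] {x : M → Eu (n + 1)}
    (hx : IsImmersion n x) (hft : IsFiniteType n x) {O : Set M} (hO : IsOpen O)
    (hOne : O.Nonempty) {F : MvPolynomial (Fin (n + 1)) ℝ} (hF : Irreducible F)
    (hF0 : ∀ p ∈ O, ev F (x p) = 0) :
    ∃ (c : Eu (n + 1)) (l : List ℝ), (∀ t ∈ l, t ≠ 0) ∧
      ∀ a, F ∣ iter F l 0 (MvPolynomial.X a - MvPolynomial.C (c a)) := by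
  obtain ⟨k, c, u, μ, hsum, hu, hne⟩ := hft
  obtain ⟨p, hp⟩ := hOne
  set e := chartAt (Eu n) p with he
  have hea : e ∈ atlas (Eu n) M := chart_mem_atlas (Eu n) p
  have hps : p ∈ e.source := mem_chart_source (Eu n) p
  have hi := imm_of_chart hx hea
  set U : Set (Eu n) := e.target ∩ e.symm ⁻¹' O with hU
  have hUo : IsOpen U := e.symm.isOpen_inter_preimage hO
  have hUi : Imm (x ∘ e.symm) U := hi.mono hUo inter_subset_left
  obtain ⟨l, hl, hl'⟩ := exists_iter_dvd hUi ⟨e p, e.map_source hps, by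
      show e.symm (e p) ∈ O
      rw [e.left_inv hps]
      exact hp⟩ hF (fun y hy => hF0 _ hy.2) c
    (u := fun i => u i ∘ e.symm) (fun i => ((hu i).1 e hea).mono inter_subset_left)
    (μ := μ) (fun i => eigenvalue_ne_zero hx (hu i) (hne i))
    (fun i y hy => (hu i).2 e hea y hy.1) (fun y _ => hsum _)
  exact ⟨c, l, hl, hl'⟩

theorem criterion_factor [CompactSpace M] [ConnectedSpace M] (hn : n ≠ 0) {x : M → Eu (n + 1)}
    (hx : IsImmersion n x) (hft : IsFiniteType n x) {O : Set M} (hO : IsOpen O)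
    (hOne : O.Nonempty) {F : MvPolynomial (Fin (n + 1)) ℝ} (hF : Irreducible F)
    (hF0 : ∀ p ∈ O, ev F (x p) = 0) {w : Fin (n + 1) → ℕ} (hw : w ≠ 0) {m : ℕ}
    (hm : ∀ a, m ≤ w a) {q : MvPolynomial (Fin (n + 1)) ℂ} (hq : Irreducible q)
    (hqf : q ∣ map (algebraMap ℝ ℂ)
      (weightedHomogeneousComponent w (weightedTotalDegree w F) F)) : q ∣ gsq w m q := by
  obtain ⟨c, l, hl, hd⟩ := exists_iter_dvd_mfd hx hft hO hOne hF hF0
  exact no_factor hn hF hl hd hw hm hq hqf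

end Run7.h978
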