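import Mathlib
import Pool.Agent.Run7.h978.Defs

set_option autoImplicit false

open scoped Manifold ContDiff

namespace Run7.h978

/-- The unit sphere of the Euclidean space of dimension `n + 1`. -/
abbrev USphere (n : ℕ) : Type := Metric.sphere (0 : Eu (n + 1)) 1

/-- The linear isometries of the Euclidean space. -/
abbrev LIso (n : ℕ) : Type := Eu n ≃ₗᵢ[ℝ] Eu n

/-- The value of a linear isometry. -/
noncomputable def LIso.act {n : ℕ} (A : LIso n) (y : Eu n) : Eu n := A y

/-- The first coordinate vector. -/
noncomputable def axisVec (n : ℕ) : Eu (n + 1) := EuclideanSpace.single 0 1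

/-- The map `x` of the unit sphere is rotational: it commutes with every linear isometry of the
Euclidean space which fixes the first coordinate vector. -/
def IsRotational {n : ℕ} (x : USphere n → Eu (n + 1)) : Prop :=
  ∀ A : LIso (n + 1), A.act (axisVec n) = axisVec n →
    ∀ p q : USphere n, q.1 = A.act p.1 → x q = A.act (x p)

/-- `x` is of finite type, with the eigenvalues `μ i`: it is the sum of a constant vector and of
non-constant eigenmaps with these eigenvalues of the Laplace operator of the induced metric. -/
def IsFiniteTypeWith (n : ℕ) {m k : ℕ} {M : Type*} [TopologicalSpace M] [ChartedSpace (Eu n) M]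
    (x : M → Eu m) (μ : Fin k → ℝ) : Prop :=
  ∃ (c : Eu m) (u : Fin k → M → Eu m),
    (∀ p, x p = c + ∑ i, u i p) ∧ (∀ i, IsEigenmap n x (u i) (μ i)) ∧ ∀ i, ∃ p q, u i p ≠ u i q

/-- The numbers `μ i` are pairwise distinct, and if there are at least three of them, then the
smallest `μ i`, the second largest `μ j` and the largest `μ l` do not satisfy the equation
`√(1 + 8 μ i / μ l) + √(1 + 8 μ j / μ l) = 4`. -/
def NonResonant {k : ℕ} (μ : Fin k → ℝ) : Prop :=
  Function.Injective μ ∧ ∀ i j l, μ i < μ j → μ j < μ l → (∀ p, μ i ≤ μ p) →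
    (∀ p, p ≠ l → μ p ≤ μ j) →
      Real.sqrt (1 + 8 * μ i / μ l) + Real.sqrt (1 + 8 * μ j / μ l) ≠ 4

end Run7.h978
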