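import Mathlib
import Pool.Agent.Run7.h978.Deg

set_option autoImplicit false

/-!
Cubic polynomials whose leading form is the cube of a coordinate.
-/

open MvPolynomial

namespace Run7.h978

/-- the conclusion of the criterion -/
def Crit {N : ℕ} (F : MvPolynomial (Fin N) ℝ) : Prop :=
  ∀ (wt : Fin N → ℕ) (m : ℕ) (f : MvPolynomial (Fin N) ℝ) (D : ℤ) (b : Fin N → ℂ), 1 ≤ m →
    (∀ a, m ≤ wt a) → Top wt F D f → f ≠ 0 → aeval b f = 0 →
    b = 0 ∨ ∑ a, (if wt a = m then aeval b (pderiv a f) ^ 2 else 0) = 0

theorem exists_cubic_root (a b d : ℝ) : ∃ t : ℝ, t ^ 3 + a * t ^ 2 + b * t + d = 0 := by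
  set M : ℝ := 1 + |a| + |b| + |d| with hM
  have hM1 : 1 ≤ M := by
    have := abs_nonneg a
    have := abs_nonneg b
    have := abs_nonneg d
    linarith
  have key : |a| * M ^ 2 + |b| * M + |d| ≤ (M - 1) * M ^ 2 := by
    have h1 : M ≤ M ^ 2 := by nlinarith
    have h2 : 1 ≤ M ^ 2 := by nlinarith
    have h3 : |b| * M ≤ |b| * M ^ 2 := mul_le_mul_of_nonneg_left h1 (abs_nonneg b)
    have h4 : |d| ≤ |d| * M ^ 2 := le_mul_of_one_le_right (abs_nonneg d) h2
    have h5 : (M - 1) * M ^ 2 = |a| * M ^ 2 + |b| * M ^ 2 + |d| * M ^ 2 := by rw [hM]; ring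
    linarith
  have hM2 : 0 < M ^ 2 := by positivity
  have hpos : 0 ≤ M ^ 3 + a * M ^ 2 + b * M + d := by
    have h1 := neg_abs_le a
    have h2 := neg_abs_le b
    have h3 := neg_abs_le d
    have h4 : -|a| * M ^ 2 ≤ a * M ^ 2 := mul_le_mul_of_nonneg_right h1 hM2.le
    have h5 : -|b| * M ≤ b * M := mul_le_mul_of_nonneg_right h2 (by linarith)
    nlinarith
  have hneg : (-M) ^ 3 + a * (-M) ^ 2 + b * (-M) + d ≤ 0 := by
    have h1 := le_abs_self a
    have h2 := neg_abs_le b
    have h3 := le_abs_self d
    have h4 : a * M ^ 2 ≤ |a| * M ^ 2 := mul_le_mul_of_nonneg_right h1 hM2.le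
    have h5 : -|b| * M ≤ b * M := mul_le_mul_of_nonneg_right h2 (by linarith)
    nlinarith
  have hc : ContinuousOn (fun t : ℝ => t ^ 3 + a * t ^ 2 + b * t + d) (Set.Icc (-M) M) := by
    fun_prop
  obtain ⟨t, -, ht⟩ := intermediate_value_Icc (by linarith : -M ≤ M) hc ⟨hneg, hpos⟩
  exact ⟨t, ht⟩

theorem not_unit_of_pderiv {N : ℕ} {p : MvPolynomial (Fin N) ℝ} {a : Fin N}
    (h : pderiv a p ≠ 0) : ¬IsUnit p := by
  intro hu
  rw [isUnit_iff_eq_C_of_isReduced] at hu
  obtain ⟨r, _, rfl⟩ := hu
  simp at h

section

variable {n : ℕ}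

/-- an explicit cubic -/
noncomputable def cub (c : ℝ) (h : Fin (n + 1) → Fin (n + 1) → ℝ) (l : Fin (n + 1) → ℝ) (K : ℝ) :
    MvPolynomial (Fin (n + 1)) ℝ :=
  C c * X 0 ^ 3 + ∑ a, ∑ b, C (h a b) * (X a * X b) + ∑ a, C (l a) * X a + C K

/-- its part of weighted degree `D = 3 wt 0` -/
noncomputable def cubt (wt : Fin (n + 1) → ℕ) (c : ℝ) (h : Fin (n + 1) → Fin (n + 1) → ℝ)
    (l : Fin (n + 1) → ℝ) : MvPolynomial (Fin (n + 1)) ℝ :=
  C c * X 0 ^ 3 + ∑ a, ∑ b, (if wt a + wt b = 3 * wt 0 then C (h a b) * (X a * X b) else 0) +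
    ∑ a, (if wt a = 3 * wt 0 then C (l a) * X a else 0)

theorem top_cub {wt : Fin (n + 1) → ℕ} {c : ℝ} {h : Fin (n + 1) → Fin (n + 1) → ℝ}
    {l : Fin (n + 1) → ℝ} {K : ℝ} (h0 : 0 < wt 0)
    (hh : ∀ a b, h a b ≠ 0 → wt a + wt b ≤ 3 * wt 0) (hl : ∀ a, l a ≠ 0 → wt a ≤ 3 * wt 0) :
    Top wt (cub c h l K) ((3 * wt 0 : ℕ) : ℤ) (cubt wt c h l) := by
  have e1 : Top wt (C c * X 0 ^ 3) ((3 * wt 0 : ℕ) : ℤ) (C c * X 0 ^ 3) := by
    have := (Top.C (ω := wt) c).mul ((Top.X (ω := wt) (0 : Fin (n + 1))).pow 3)
    have h2 : (0 : ℤ) + ((3 : ℕ) : ℤ) * (wt 0 : ℤ) = ((3 * wt 0 : ℕ) : ℤ) := by push_cast; ring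
    rwa [h2] at this
  have e2 : Top wt (∑ a, ∑ b, C (h a b) * (X a * X b)) ((3 * wt 0 : ℕ) : ℤ)
      (∑ a, ∑ b, (if wt a + wt b = 3 * wt 0 then C (h a b) * (X a * X b) else 0)) := by
    apply Top.sum
    intro a _
    apply Top.sum
    intro b _
    by_cases hab : h a b = 0
    · rw [hab]
      simp only [C_0, zero_mul, ite_self]
      exact Top.zero
    · have h1 := hh a b hab
      have h2 := (Top.C (ω := wt) (h a b)).mul ((Top.X (ω := wt) a).mul (Top.X b))
      have h3 : (0 : ℤ) + ((wt a : ℤ) + (wt b : ℤ)) = ((wt a + wt b : ℕ) : ℤ) := by push_cast; ring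
      rw [h3] at h2
      by_cases h4 : wt a + wt b = 3 * wt 0
      · rw [if_pos h4, ← h4]
        exact h2
      · rw [if_neg h4]
        exact h2.mono (by exact_mod_cast lt_of_le_of_ne h1 h4)
  have e3 : Top wt (∑ a, C (l a) * X a) ((3 * wt 0 : ℕ) : ℤ)
      (∑ a, (if wt a = 3 * wt 0 then C (l a) * X a else 0)) := by
    apply Top.sum
    intro a _
    by_cases hab : l a = 0
    · rw [hab]
      simp only [C_0, zero_mul, ite_self]
      exact Top.zero
    · have h1 := hl a hab
      have h2 := (Top.C (ω := wt) (l a)).mul (Top.X (ω := wt) a)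
      rw [zero_add] at h2
      by_cases h4 : wt a = 3 * wt 0
      · rw [if_pos h4, ← h4]
        exact h2
      · rw [if_neg h4]
        exact h2.mono (by exact_mod_cast lt_of_le_of_ne h1 h4)
  have e4 : Top wt (C K) ((3 * wt 0 : ℕ) : ℤ) (0 : MvPolynomial (Fin (n + 1)) ℝ) :=
    (Top.C (ω := wt) K).mono (by exact_mod_cast (by omega : 0 < 3 * wt 0))
  have := ((e1.add e2).add e3).add e4
  rw [add_zero] at this
  exact this

theorem aeval_cubt (wt : Fin (n + 1) → ℕ) (c : ℝ) (h : Fin (n + 1) → Fin (n + 1) → ℝ)
    (l : Fin (n + 1) → ℝ) (b : Fin (n + 1) → ℂ) :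
    aeval b (cubt wt c h l) = (c : ℂ) * b 0 ^ 3 +
      ∑ x, ∑ y, (if wt x + wt y = 3 * wt 0 then (h x y : ℂ) * (b x * b y) else 0) +
      ∑ x, (if wt x = 3 * wt 0 then (l x : ℂ) * b x else 0) := by
  have e : ∀ r : ℝ, aeval b (C r : MvPolynomial (Fin (n + 1)) ℝ) = (r : ℂ) := fun r => by
    rw [aeval_C]
    rfl
  rw [cubt, map_add, map_add, map_mul, map_pow, aeval_X, e, map_sum, map_sum]
  congr 1
  · congr 1
    refine Finset.sum_congr rfl fun x _ => ?_
    rw [map_sum]
    refine Finset.sum_congr rfl fun y _ => ?_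
    split
    · rw [map_mul, map_mul, aeval_X, aeval_X, e]
    · rw [map_zero]
  · refine Finset.sum_congr rfl fun x _ => ?_
    split
    · rw [map_mul, aeval_X, e]
    · rw [map_zero]

theorem aeval_pderiv_cubt {wt : Fin (n + 1) → ℕ} (c : ℝ) (h : Fin (n + 1) → Fin (n + 1) → ℝ)
    (l : Fin (n + 1) → ℝ) (h0 : 0 < wt 0) (b : Fin (n + 1) → ℂ) :
    aeval b (pderiv 0 (cubt wt c h l)) = 3 * (c : ℂ) * b 0 ^ 2 +
      ∑ x, (if wt x + wt 0 = 3 * wt 0 then ((h x 0 : ℂ) + (h 0 x : ℂ)) * b x else 0) := by
  classical
  have e : ∀ r : ℝ, aeval b (C r : MvPolynomial (Fin (n + 1)) ℝ) = (r : ℂ) := fun r => by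
    rw [aeval_C]
    rfl
  rw [cubt, map_add, map_add, map_sum, map_sum]
  have e1 : aeval b (pderiv (0 : Fin (n + 1)) (C c * X 0 ^ 3)) = 3 * (c : ℂ) * b 0 ^ 2 := by
    rw [pderiv_C_mul, pderiv_pow, pderiv_X_self]
    simp only [map_mul, e, map_pow, aeval_X]
    simp
    ring
  have e2 : ∀ x y : Fin (n + 1), aeval b (pderiv (0 : Fin (n + 1))
      (if wt x + wt y = 3 * wt 0 then C (h x y) * (X x * X y) else 0)) =
      (if y = 0 then (if wt x + wt 0 = 3 * wt 0 then (h x 0 : ℂ) * b x else 0) else 0) +
      (if x = 0 then (if wt y + wt 0 = 3 * wt 0 then (h 0 y : ℂ) * b y else 0) else 0) := by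
    intro x y
    by_cases hxy : wt x + wt y = 3 * wt 0
    · rw [if_pos hxy, pderiv_C_mul, Derivation.leibniz]
      rw [pderiv_X, pderiv_X]
      by_cases hx : x = 0
      · subst hx
        by_cases hy : y = 0
        · subst hy
          simp [hxy]
          ring
        · have h3 : wt y + wt 0 = 3 * wt 0 := by omega
          simp [hy, h3]
      · by_cases hy : y = 0
        · subst hy
          simp [hx, hxy]
        · simp [hx, hy]
    · rw [if_neg hxy, map_zero, map_zero]
      by_cases hx : x = 0
      · subst hx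
        by_cases hy : y = 0
        · subst hy
          simp [hxy]
        · have h3 : ¬ wt y + wt 0 = 3 * wt 0 := by omega
          simp [hy, h3]
      · by_cases hy : y = 0
        · subst hy
          simp [hx, hxy]
        · simp [hx, hy]
  have e3 : ∀ x : Fin (n + 1), aeval b (pderiv (0 : Fin (n + 1))
      (if wt x = 3 * wt 0 then C (l x) * X x else 0)) = 0 := by
    intro x
    by_cases hx : wt x = 3 * wt 0
    · have h1 : x ≠ 0 := by
        rintro rfl
        omega
      rw [if_pos hx, pderiv_C_mul, pderiv_X]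
      simp [h1]
    · rw [if_neg hx, map_zero, map_zero]
  rw [map_add, map_add, e1, map_sum, map_sum]
  simp only [map_sum, e2, e3]
  simp only [Finset.sum_add_distrib, Finset.sum_const_zero, add_zero, Finset.sum_ite_eq',
    Finset.mem_univ, if_true]
  rw [Finset.sum_comm (s := Finset.univ) (t := Finset.univ) (f := fun x y : Fin (n + 1) =>
    if x = 0 then (if wt y + wt 0 = 3 * wt 0 then (h 0 y : ℂ) * b y else 0) else 0)]
  simp only [Finset.sum_ite_eq', Finset.mem_univ, if_true]
  rw [← Finset.sum_add_distrib]
  congr 1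
  refine Finset.sum_congr rfl fun x _ => ?_
  split
  · ring
  · ring

theorem cubt_ne_zero {wt : Fin (n + 1) → ℕ} {c : ℝ} (hc : c ≠ 0)
    {h : Fin (n + 1) → Fin (n + 1) → ℝ} {l : Fin (n + 1) → ℝ} (h0 : 0 < wt 0) :
    cubt wt c h l ≠ 0 := by
  classical
  intro h1
  have h2 := aeval_cubt wt c h l (Pi.single 0 1)
  rw [h1, map_zero] at h2
  have e2 : ∀ x y : Fin (n + 1), (if wt x + wt y = 3 * wt 0 then
      (h x y : ℂ) * ((Pi.single 0 1 : Fin (n + 1) → ℂ) x * (Pi.single 0 1 : Fin (n + 1) → ℂ) y)
      else 0) = 0 := by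
    intro x y
    by_cases hx : x = 0
    · subst hx
      by_cases hy : y = 0
      · subst hy
        rw [if_neg (by omega)]
      · simp [hy]
    · simp [hx]
  have e3 : ∀ x : Fin (n + 1), (if wt x = 3 * wt 0 then
      (l x : ℂ) * (Pi.single 0 1 : Fin (n + 1) → ℂ) x else 0) = 0 := by
    intro x
    by_cases hx : x = 0
    · subst hx
      rw [if_neg (by omega)]
    · simp [hx]
  simp only [e2, e3, Finset.sum_const_zero, add_zero, Pi.single_eq_same, one_pow, mul_one] at h2
  exact hc (by exact_mod_cast h2.symm)

/-- the criterion for a weight with a unique minimum at `0` -/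
theorem crit_cub {wt : Fin (n + 1) → ℕ} {c : ℝ} (hc : c ≠ 0)
    {h : Fin (n + 1) → Fin (n + 1) → ℝ} {l : Fin (n + 1) → ℝ} {K : ℝ} (h0 : 0 < wt 0)
    (hmin : ∀ a, a ≠ 0 → wt 0 < wt a)
    (hh : ∀ a b, h a b ≠ 0 → wt a + wt b ≤ 3 * wt 0) (hl : ∀ a, l a ≠ 0 → wt a ≤ 3 * wt 0)
    (hC : Crit (cub c h l K)) (b : Fin (n + 1) → ℂ) (hb0 : b ≠ 0)
    (hb : (c : ℂ) * b 0 ^ 3 +
      ∑ x, ∑ y, (if wt x + wt y = 3 * wt 0 then (h x y : ℂ) * (b x * b y) else 0) +
      ∑ x, (if wt x = 3 * wt 0 then (l x : ℂ) * b x else 0) = 0) :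
    3 * (c : ℂ) * b 0 ^ 2 +
      ∑ x, (if wt x + wt 0 = 3 * wt 0 then ((h x 0 : ℂ) + (h 0 x : ℂ)) * b x else 0) = 0 := by
  classical
  rw [← aeval_cubt] at hb
  have h1 := hC wt (wt 0) _ _ b h0 (fun a => by
    by_cases ha : a = 0
    · rw [ha]
    · exact (hmin a ha).le) (top_cub h0 hh hl) (cubt_ne_zero hc h0) hb
  have h2 := h1.resolve_left hb0
  rw [Finset.sum_eq_single (0 : Fin (n + 1))] at h2
  · rw [if_pos rfl, aeval_pderiv_cubt c h l h0] at h2
    exact pow_eq_zero_iff (two_ne_zero) |>.1 h2
  · intro a _ ha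
    rw [if_neg (hmin a ha).ne']
  · intro h3
    exact absurd (Finset.mem_univ _) h3

theorem cub_false {c : ℝ} (hc : c ≠ 0) {h : Fin (n + 1) → Fin (n + 1) → ℝ}
    (hsymm : ∀ a b, h a b = h b a) {l : Fin (n + 1) → ℝ} {K : ℝ}
    (hirr : Irreducible (cub c h l K)) (hC : Crit (cub c h l K)) : False := by
  classical
  have hc' : (c : ℂ) ≠ 0 := by exact_mod_cast hc
  by_cases hq : ∃ a b, a ≠ 0 ∧ b ≠ 0 ∧ h a b ≠ 0
  · -- weights 2, 3, ..., 3
    obtain ⟨v, hv0, hv⟩ : ∃ v : Fin (n + 1) → ℝ, v 0 = 0 ∧ ∑ x, ∑ y, h x y * (v x * v y) ≠ 0 := by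
      by_contra hcon
      push Not at hcon
      obtain ⟨a, b, ha, hb, hab⟩ := hq
      have hz : ∀ s t : ℝ, ∑ x, ∑ y, h x y *
          ((s * (Pi.single a 1 : Fin (n + 1) → ℝ) x + t * (Pi.single b 1 : Fin (n + 1) → ℝ) x) *
          (s * (Pi.single a 1 : Fin (n + 1) → ℝ) y + t * (Pi.single b 1 : Fin (n + 1) → ℝ) y)) =
          0 := fun s t => hcon (fun x => s * (Pi.single a 1 : Fin (n + 1) → ℝ) x +
            t * (Pi.single b 1 : Fin (n + 1) → ℝ) x)
            (by simp [Ne.symm ha, Ne.symm hb])
      have hexp : ∀ s t : ℝ, ∑ x, ∑ y, h x y *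
          ((s * (Pi.single a 1 : Fin (n + 1) → ℝ) x + t * (Pi.single b 1 : Fin (n + 1) → ℝ) x) *
          (s * (Pi.single a 1 : Fin (n + 1) → ℝ) y + t * (Pi.single b 1 : Fin (n + 1) → ℝ) y)) =
          s ^ 2 * h a a + s * t * (h a b + h b a) + t ^ 2 * h b b := by
        intro s t
        have : ∀ x y, h x y *
          ((s * (Pi.single a 1 : Fin (n + 1) → ℝ) x + t * (Pi.single b 1 : Fin (n + 1) → ℝ) x) *
          (s * (Pi.single a 1 : Fin (n + 1) → ℝ) y + t * (Pi.single b 1 : Fin (n + 1) → ℝ) y)) =
          (if x = a then (if y = a then s ^ 2 * h x y else 0) else 0) +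
          (if x = a then (if y = b then s * t * h x y else 0) else 0) +
          (if x = b then (if y = a then s * t * h x y else 0) else 0) +
          (if x = b then (if y = b then t ^ 2 * h x y else 0) else 0) := by
          intro x y
          simp only [Pi.single_apply]
          split_ifs <;> ring
        simp only [this, Finset.sum_add_distrib]
        simp only [Finset.sum_ite_irrel, Finset.sum_const_zero, Finset.sum_ite_eq',
          Finset.mem_univ, if_true]
        ring
      have h1 := hz 1 0
      have h2 := hz 0 1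
      have h3 := hz 1 1
      rw [hexp] at h1 h2 h3
      rw [hsymm b a] at h3
      apply hab
      linarith
    set Q : ℝ := ∑ x, ∑ y, h x y * (v x * v y) with hQ
    obtain ⟨t, ht⟩ := exists_cubic_root 0 0 (Q / c)
    have ht' : c * t ^ 3 + Q = 0 := by
      have : t ^ 3 = -(Q / c) := by linarith
      rw [this]
      field_simp
      ring
    have ht0 : t ≠ 0 := by
      rintro rfl
      apply hv
      simpa using ht'
    set w : Fin (n + 1) → ℂ := fun x => if x = 0 then (t : ℂ) else (v x : ℂ) with hw
    set wt : Fin (n + 1) → ℕ := fun x => if x = 0 then 2 else 3 with hwt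
    have hwt0 : wt 0 = 2 := by simp [hwt]
    have hwta : ∀ a, a ≠ 0 → wt a = 3 := fun a ha => by simp [hwt, ha]
    have hle : ∀ a, wt a ≤ 3 := by
      intro a
      by_cases ha : a = 0
      · rw [ha, hwt0]; norm_num
      · rw [hwta a ha]
    have h1 := crit_cub (wt := wt) hc (by rw [hwt0]; norm_num)
      (fun a ha => by rw [hwt0, hwta a ha]; norm_num)
      (fun a b _ => by rw [hwt0]; have := hle a; have := hle b; omega)
      (fun a _ => by rw [hwt0]; have := hle a; omega) hC w (by
        intro h2
        have h3 := congrFun h2 0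
        simp only [hw, if_true, Pi.zero_apply] at h3
        exact ht0 (by exact_mod_cast h3)) (by
        have e1 : ∀ x y, (if wt x + wt y = 3 * wt 0 then (h x y : ℂ) * (w x * w y) else 0) =
            ((h x y * (v x * v y) : ℝ) : ℂ) := by
          intro x y
          by_cases hx : x = 0
          · subst hx
            rw [if_neg (by rw [hwt0]; have := hle y; omega), hv0]
            simp
          · by_cases hy : y = 0
            · subst hy
              rw [if_neg (by rw [hwt0]; have := hle x; omega), hv0]
              simp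
            · rw [if_pos (by rw [hwt0, hwta x hx, hwta y hy])]
              simp [hw, hx, hy]
        have e2 : ∀ x, (if wt x = 3 * wt 0 then (l x : ℂ) * w x else 0) = 0 := by
          intro x
          rw [if_neg (by rw [hwt0]; have := hle x; omega)]
        simp only [e1, e2, Finset.sum_const_zero, add_zero]
        simp only [← Complex.ofReal_sum]
        rw [← hQ]
        simp only [hw, if_true]
        exact_mod_cast ht')
    have e3 : ∀ x, (if wt x + wt 0 = 3 * wt 0 then ((h x 0 : ℂ) + (h 0 x : ℂ)) * w x else 0) =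
        0 := by
      intro x
      rw [if_neg (by rw [hwt0]; have := hle x; omega)]
    simp only [e3, Finset.sum_const_zero, add_zero] at h1
    simp only [hw, if_true] at h1
    have h2 : (t : ℂ) ≠ 0 := by exact_mod_cast ht0
    exact (mul_ne_zero (mul_ne_zero (by norm_num) hc') (pow_ne_zero 2 h2)) h1
  · push Not at hq
    by_cases hα : ∃ a, a ≠ 0 ∧ h 0 a ≠ 0
    · -- weights 1, 2, ..., 2
      obtain ⟨a, ha, hha⟩ := hα
      have hha' : (h 0 a : ℂ) ≠ 0 := by exact_mod_cast hha
      set s : ℝ := -c / (2 * h 0 a) with hs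
      set w : Fin (n + 1) → ℂ := fun x => if x = 0 then 1 else if x = a then (s : ℂ) else 0 with hw
      set wt : Fin (n + 1) → ℕ := fun x => if x = 0 then 1 else 2 with hwt
      have hwt0 : wt 0 = 1 := by simp [hwt]
      have hwta : ∀ a, a ≠ 0 → wt a = 2 := fun a ha => by simp [hwt, ha]
      have hle : ∀ a, wt a ≤ 2 := by
        intro a
        by_cases ha : a = 0
        · rw [ha, hwt0]; norm_num
        · rw [hwta a ha]
      have hw0 : w 0 = 1 := by simp [hw]
      have hwa : w a = s := by simp [hw, ha]
      have hwo : ∀ x, x ≠ 0 → x ≠ a → w x = 0 := fun x hx hxa => by simp [hw, hx, hxa]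
      have hsum : ∀ g : Fin (n + 1) → ℂ, g 0 = 0 →
          ∑ x, g x * w x = g a * s := by
        intro g hg
        rw [Finset.sum_eq_single a]
        · rw [hwa]
        · intro x _ hx
          by_cases hx0 : x = 0
          · rw [hx0, hg, zero_mul]
          · rw [hwo x hx0 hx, mul_zero]
        · intro h3
          exact absurd (Finset.mem_univ _) h3
      have hs' : (c : ℂ) + 2 * (h 0 a : ℂ) * s = 0 := by
        have : c + 2 * h 0 a * s = 0 := by
          rw [hs]
          field_simp
          ring
        exact_mod_cast this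
      have h1 := crit_cub (wt := wt) hc (by rw [hwt0]; norm_num)
        (fun a ha => by rw [hwt0, hwta a ha]; norm_num)
        (fun x y hxy => by
          rw [hwt0]
          by_cases hx : x = 0
          · rw [hx, hwt0]; have := hle y; omega
          · by_cases hy : y = 0
            · rw [hy, hwt0]; have := hle x; omega
            · exact absurd (hq x y hx hy) hxy)
        (fun a _ => by rw [hwt0]; have := hle a; omega) hC w (by
          intro h2
          have h3 := congrFun h2 0
          rw [hw0] at h3
          simp at h3) (by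
          have e1 : ∀ x, ∑ y, (if wt x + wt y = 3 * wt 0 then (h x y : ℂ) * (w x * w y) else 0) =
              (if x = 0 then (h 0 a : ℂ) * s else 0) + (if x = 0 then 0 else (h x 0 : ℂ)) * w x := by
            intro x
            by_cases hx : x = 0
            · subst hx
              rw [if_pos rfl, if_pos rfl, zero_mul, add_zero]
              have e4 : ∀ y, (if wt 0 + wt y = 3 * wt 0 then (h 0 y : ℂ) * (w 0 * w y) else 0) =
                  (if y = 0 then 0 else (h 0 y : ℂ)) * w y := by
                intro y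
                by_cases hy : y = 0
                · subst hy
                  rw [if_neg (by rw [hwt0]; norm_num), if_pos rfl, zero_mul]
                · rw [if_pos (by rw [hwt0, hwta y hy]), if_neg hy, hw0, one_mul]
              simp only [e4]
              rw [hsum (fun y => if y = 0 then 0 else (h 0 y : ℂ)) (by simp)]
              simp [ha]
            · rw [if_neg hx, if_neg hx, zero_add, Finset.sum_eq_single (0 : Fin (n + 1))]
              · rw [if_pos (by rw [hwt0, hwta x hx]), hw0, mul_one]
              · intro y _ hy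
                rw [if_neg (by rw [hwt0, hwta x hx, hwta y hy]; norm_num)]
              · intro h3
                exact absurd (Finset.mem_univ _) h3
          have e2 : ∀ x, (if wt x = 3 * wt 0 then (l x : ℂ) * w x else 0) = 0 := by
            intro x
            rw [if_neg (by rw [hwt0]; have := hle x; omega)]
          simp only [e1, e2, Finset.sum_const_zero, add_zero, Finset.sum_add_distrib,
            Finset.sum_ite_eq', Finset.mem_univ, if_true]
          rw [hsum (fun x => if x = 0 then 0 else (h x 0 : ℂ)) (by simp), hw0]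
          simp only [if_neg ha]
          rw [hsymm a 0]
          linear_combination hs')
      have e3 : ∀ x, (if wt x + wt 0 = 3 * wt 0 then ((h x 0 : ℂ) + (h 0 x : ℂ)) * w x else 0) =
          (if x = 0 then 0 else ((h x 0 : ℂ) + (h 0 x : ℂ))) * w x := by
        intro x
        by_cases hx : x = 0
        · subst hx
          rw [if_neg (by rw [hwt0]; norm_num), if_pos rfl, zero_mul]
        · rw [if_pos (by rw [hwt0, hwta x hx]), if_neg hx]
      simp only [e3] at h1
      rw [hsum (fun x => if x = 0 then 0 else ((h x 0 : ℂ) + (h 0 x : ℂ))) (by simp), hw0] at h1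
      simp only [if_neg ha] at h1
      rw [hsymm a 0] at h1
      apply hc'
      linear_combination (1 / 2) * h1 - (1 / 2) * hs'
    · push Not at hα
      by_cases hβ : ∃ a, a ≠ 0 ∧ l a ≠ 0
      · -- weights 1, 3, ..., 3
        obtain ⟨a, ha, hla⟩ := hβ
        set s : ℝ := -c / l a with hs
        set w : Fin (n + 1) → ℂ := fun x => if x = 0 then 1 else if x = a then (s : ℂ) else 0
          with hw
        set wt : Fin (n + 1) → ℕ := fun x => if x = 0 then 1 else 3 with hwt
        have hwt0 : wt 0 = 1 := by simp [hwt]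
        have hwta : ∀ a, a ≠ 0 → wt a = 3 := fun a ha => by simp [hwt, ha]
        have hle : ∀ a, wt a ≤ 3 := by
          intro a
          by_cases ha : a = 0
          · rw [ha, hwt0]; norm_num
          · rw [hwta a ha]
        have hw0 : w 0 = 1 := by simp [hw]
        have hwa : w a = s := by simp [hw, ha]
        have hwo : ∀ x, x ≠ 0 → x ≠ a → w x = 0 := fun x hx hxa => by simp [hw, hx, hxa]
        have h00 : ∀ x y, h x y ≠ 0 → x = 0 ∧ y = 0 := by
          intro x y hxy
          by_cases hx : x = 0
          · by_cases hy : y = 0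
            · exact ⟨hx, hy⟩
            · rw [hx] at hxy
              exact absurd (hα y hy) hxy
          · by_cases hy : y = 0
            · rw [hy, hsymm] at hxy
              exact absurd (hα x hx) hxy
            · exact absurd (hq x y hx hy) hxy
        have hs' : (c : ℂ) + (l a : ℂ) * s = 0 := by
          have : c + l a * s = 0 := by
            rw [hs]
            field_simp
            ring
          exact_mod_cast this
        have h1 := crit_cub (wt := wt) hc (by rw [hwt0]; norm_num)
          (fun a ha => by rw [hwt0, hwta a ha]; norm_num)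
          (fun x y hxy => by
            obtain ⟨rfl, rfl⟩ := h00 x y hxy
            omega)
          (fun a _ => by rw [hwt0]; have := hle a; omega) hC w (by
            intro h2
            have h3 := congrFun h2 0
            rw [hw0] at h3
            simp at h3) (by
            have e1 : ∀ x y, (if wt x + wt y = 3 * wt 0 then (h x y : ℂ) * (w x * w y) else 0) =
                0 := by
              intro x y
              by_cases hxy : h x y = 0
              · rw [hxy]
                simp
              · obtain ⟨rfl, rfl⟩ := h00 x y hxy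
                rw [if_neg (by rw [hwt0]; norm_num)]
            have e2 : ∑ x, (if wt x = 3 * wt 0 then (l x : ℂ) * w x else 0) = (l a : ℂ) * s := by
              rw [Finset.sum_eq_single a]
              · rw [if_pos (by rw [hwt0, hwta a ha]), hwa]
              · intro x _ hx
                by_cases hx0 : x = 0
                · subst hx0
                  rw [if_neg (by rw [hwt0]; norm_num)]
                · rw [hwo x hx0 hx, mul_zero, ite_self]
              · intro h3
                exact absurd (Finset.mem_univ _) h3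
            simp only [e1, e2, Finset.sum_const_zero, add_zero, hw0]
            linear_combination hs')
        have e3 : ∀ x, (if wt x + wt 0 = 3 * wt 0 then ((h x 0 : ℂ) + (h 0 x : ℂ)) * w x else 0) =
            0 := by
          intro x
          by_cases hx : x = 0
          · subst hx
            rw [if_neg (by rw [hwt0]; norm_num)]
          · rw [hsymm x 0, hα x hx]
            simp
        simp only [e3, Finset.sum_const_zero, add_zero, hw0] at h1
        apply hc'
        linear_combination (1 / 3) * h1
      · -- a polynomial in one variable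
        push Not at hβ
        have hF : cub c h l K = C c * X 0 ^ 3 + C (h 0 0) * X 0 ^ 2 + C (l 0) * X 0 + C K := by
          rw [cub]
          congr 1
          congr 1
          · congr 1
            rw [Finset.sum_eq_single (0 : Fin (n + 1)), Finset.sum_eq_single (0 : Fin (n + 1))]
            · ring
            · intro y _ hy
              rw [hα y hy]
              simp
            · intro h3
              exact absurd (Finset.mem_univ _) h3
            · intro x _ hx
              apply Finset.sum_eq_zero
              intro y _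
              by_cases hy : y = 0
              · rw [hy, hsymm x 0, hα x hx]
                simp
              · rw [hq x y hx hy]
                simp
            · intro h3
              exact absurd (Finset.mem_univ _) h3
          · rw [Finset.sum_eq_single (0 : Fin (n + 1))]
            · intro y _ hy
              rw [hβ y hy]
              simp
            · intro h3
              exact absurd (Finset.mem_univ _) h3
        obtain ⟨r, hr⟩ := exists_cubic_root (h 0 0 / c) (l 0 / c) (K / c)
        have hr' : c * r ^ 3 + h 0 0 * r ^ 2 + l 0 * r + K = 0 := by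
          have h1 : c * (r ^ 3 + h 0 0 / c * r ^ 2 + l 0 / c * r + K / c) = 0 := by
            rw [hr, mul_zero]
          rw [← h1]
          field_simp
        have hfac : cub c h l K = (X 0 - C r) *
            (C c * X 0 ^ 2 + C (h 0 0 + c * r) * X 0 + C (l 0 + (h 0 0 + c * r) * r)) := by
          rw [hF]
          have h1 : (C K : MvPolynomial (Fin (n + 1)) ℝ) =
              -C (c * r ^ 3 + h 0 0 * r ^ 2 + l 0 * r) := by
            rw [← C_neg]
            congr 1
            linarith
          rw [h1]
          simp only [C_add, C_mul, C_pow]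
          ring
        rcases hirr.isUnit_or_isUnit hfac with hu | hu
        · refine not_unit_of_pderiv (a := (0 : Fin (n + 1))) ?_ hu
          rw [map_sub, pderiv_X_self, pderiv_C, sub_zero]
          exact one_ne_zero
        · refine not_unit_of_pderiv (a := (0 : Fin (n + 1))) ?_ hu
          intro h1
          have h2 := congrArg (pderiv (0 : Fin (n + 1))) h1
          have h3 : pderiv (0 : Fin (n + 1)) (C c * X 0 ^ 2 + C (h 0 0 + c * r) * X 0 +
              C (l 0 + (h 0 0 + c * r) * r)) = C (2 * c) * X 0 + C (h 0 0 + c * r) := by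
            rw [map_add, map_add, pderiv_C, pderiv_C_mul, pderiv_C_mul, pderiv_X_self, pderiv_pow,
              pderiv_X_self]
            rw [C_mul]
            have h4 : (C 2 : MvPolynomial (Fin (n + 1)) ℝ) = 2 := rfl
            rw [h4]
            push_cast
            ring
          rw [h3, map_add, pderiv_C, pderiv_C_mul, pderiv_X_self, map_zero, add_zero, mul_one] at h2
          have h4 : (2 * c : ℝ) = 0 := by
            have h5 := congrArg (fun p : MvPolynomial (Fin (n + 1)) ℝ => eval 0 p) h2
            simpa using h5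
          exact hc (by linarith)

end

end Run7.h978
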