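import Mathlib
import Pool.Agent.Run7.h978.Cubic1
import Pool.Agent.Run7.h978.Crit

set_option autoImplicit false

/-!
Cubic hypersurfaces: reduction to the normal form, by a rotation.
-/

open MvPolynomial
open scoped RealInnerProductSpace ContDiff Manifold
open Helper772Chen (ee)

namespace Run7.h978

section forms

variable {N : ℕ}

theorem pderiv_comm' (p : MvPolynomial (Fin N) ℝ) (a b : Fin N) :
    pderiv a (pderiv b p) = pderiv b (pderiv a p) := by
  have h : ⁅pderiv (R := ℝ) a, pderiv (R := ℝ) b⁆ =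
      (0 : Derivation ℝ (MvPolynomial (Fin N) ℝ) (MvPolynomial (Fin N) ℝ)) := by
    apply derivation_ext
    intro i
    rw [Derivation.commutator_apply, pderiv_X, pderiv_X]
    simp [Pi.single_apply, apply_ite]
  have h1 := congrArg (fun D : Derivation ℝ (MvPolynomial (Fin N) ℝ) (MvPolynomial (Fin N) ℝ) =>
    D p) h
  simp only [Derivation.commutator_apply] at h1
  exact sub_eq_zero.1 h1

theorem homog_zero {p : MvPolynomial (Fin N) ℝ} (h : p.IsHomogeneous 0) : p = C (coeff 0 p) := by
  rw [← totalDegree_zero_iff_isHomogeneous] at h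
  exact totalDegree_eq_zero_iff_eq_C.1 h

theorem homog_one {p : MvPolynomial (Fin N) ℝ} (h : p.IsHomogeneous 1) :
    p = ∑ a, C (coeff 0 (pderiv a p)) * X a := by
  have h1 := h.sum_X_mul_pderiv
  rw [one_smul] at h1
  conv_lhs => rw [← h1]
  refine Finset.sum_congr rfl fun a _ => ?_
  conv_lhs => rw [homog_zero (h.pderiv (i := a))]
  rw [mul_comm]

theorem homog_two {p : MvPolynomial (Fin N) ℝ} (h : p.IsHomogeneous 2) :
    ∃ k : Fin N → Fin N → ℝ, (∀ a b, k a b = k b a) ∧ p = ∑ a, ∑ b, C (k a b) * (X a * X b) := by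
  refine ⟨fun a b => coeff 0 (pderiv b (pderiv a p)) / 2, fun a b => ?_, ?_⟩
  · simp only
    rw [pderiv_comm' p b a]
  · have h1 := h.sum_X_mul_pderiv
    have h2 : (2 : ℕ) • (∑ a, ∑ b, C (coeff 0 (pderiv b (pderiv a p)) / 2) * (X a * X b) :
        MvPolynomial (Fin N) ℝ) = (2 : ℕ) • p := by
      rw [← h1, Finset.smul_sum]
      refine Finset.sum_congr rfl fun a _ => ?_
      conv_rhs => rw [homog_one (h.pderiv (i := a))]
      rw [Finset.smul_sum, Finset.mul_sum]
      refine Finset.sum_congr rfl fun b _ => ?_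
      have h3 : (C (coeff 0 (pderiv b (pderiv a p))) : MvPolynomial (Fin N) ℝ) =
          2 * C (coeff 0 (pderiv b (pderiv a p)) / 2) := by
        have : (2 : MvPolynomial (Fin N) ℝ) = C 2 := rfl
        rw [this, ← C_mul]
        congr 1
        ring
      rw [h3, nsmul_eq_mul]
      push_cast
      ring
    have h4 : (2 : MvPolynomial (Fin N) ℝ) ≠ 0 := two_ne_zero
    rw [nsmul_eq_mul, nsmul_eq_mul] at h2
    exact (mul_left_cancel₀ (by exact_mod_cast h4) h2).symm

theorem homog_three {p : MvPolynomial (Fin N) ℝ} (h : p.IsHomogeneous 3) :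
    ∃ k : Fin N → Fin N → Fin N → ℝ, (∀ a b c, k a b c = k b a c) ∧ (∀ a b c, k a b c = k a c b) ∧
      p = ∑ a, ∑ b, ∑ c, C (k a b c) * (X a * (X b * X c)) ∧
      ∀ a, pderiv a p = 3 * ∑ b, ∑ c, C (k a b c) * (X b * X c) := by
  set k : Fin N → Fin N → Fin N → ℝ := fun a b c =>
    coeff 0 (pderiv c (pderiv b (pderiv a p))) / 6 with hk
  have k1 : ∀ a b c, k a b c = k b a c := by
    intro a b c
    simp only [hk]
    rw [pderiv_comm' p b a]
  have k2 : ∀ a b c, k a b c = k a c b := by
    intro a b c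
    simp only [hk]
    rw [pderiv_comm' (pderiv a p) c b]
  have hd : ∀ a, pderiv a p = 3 * ∑ b, ∑ c, C (k a b c) * (X b * X c) := by
    intro a
    have h1 := (h.pderiv (i := a)).sum_X_mul_pderiv
    have h2 : (2 : ℕ) • (3 * ∑ b, ∑ c, C (k a b c) * (X b * X c) : MvPolynomial (Fin N) ℝ) =
        (2 : ℕ) • (pderiv a p) := by
      have h11 : (3 - 1 : ℕ) = 2 := rfl
      rw [h11] at h1
      rw [← h1, Finset.mul_sum, Finset.smul_sum]
      refine Finset.sum_congr rfl fun b _ => ?_
      conv_rhs => rw [homog_one ((h.pderiv (i := a)).pderiv (i := b))]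
      rw [Finset.mul_sum, Finset.smul_sum, Finset.mul_sum]
      refine Finset.sum_congr rfl fun c _ => ?_
      have h3 : (C (coeff 0 (pderiv c (pderiv b (pderiv a p)))) : MvPolynomial (Fin N) ℝ) =
          6 * C (k a b c) := by
        have : (6 : MvPolynomial (Fin N) ℝ) = C 6 := rfl
        rw [this, ← C_mul, hk]
        congr 1
        simp only
        ring
      rw [h3, nsmul_eq_mul]
      push_cast
      ring
    have h4 : (2 : MvPolynomial (Fin N) ℝ) ≠ 0 := two_ne_zero
    rw [nsmul_eq_mul, nsmul_eq_mul] at h2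
    exact (mul_left_cancel₀ (by exact_mod_cast h4) h2).symm
  refine ⟨k, k1, k2, ?_, hd⟩
  have h1 := h.sum_X_mul_pderiv
  have h2 : (3 : ℕ) • (∑ a, ∑ b, ∑ c, C (k a b c) * (X a * (X b * X c)) :
      MvPolynomial (Fin N) ℝ) = (3 : ℕ) • p := by
    rw [← h1, Finset.smul_sum]
    refine Finset.sum_congr rfl fun a _ => ?_
    rw [hd a, nsmul_eq_mul]
    simp only [Finset.mul_sum]
    refine Finset.sum_congr rfl fun b _ => ?_
    refine Finset.sum_congr rfl fun c _ => ?_
    push_cast
    ring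
  have h4 : (3 : MvPolynomial (Fin N) ℝ) ≠ 0 := by
    have : (3 : MvPolynomial (Fin N) ℝ) = C 3 := rfl
    rw [this, Ne, C_eq_zero]
    norm_num
  rw [nsmul_eq_mul, nsmul_eq_mul] at h2
  exact (mul_left_cancel₀ (by exact_mod_cast h4) h2).symm

/-- the trilinear form -/
noncomputable def tri (k : Fin N → Fin N → Fin N → ℝ) (u v w : Fin N → ℝ) : ℝ :=
  ∑ a, ∑ b, ∑ c, k a b c * (u a * (v b * w c))

theorem tri_swap1 {k : Fin N → Fin N → Fin N → ℝ} (h1 : ∀ a b c, k a b c = k b a c)
    (u v w : Fin N → ℝ) : tri k u v w = tri k v u w := by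
  unfold tri
  rw [Finset.sum_comm]
  refine Finset.sum_congr rfl fun a _ => Finset.sum_congr rfl fun b _ =>
    Finset.sum_congr rfl fun c _ => ?_
  rw [h1 b a c]
  ring

theorem tri_swap2 {k : Fin N → Fin N → Fin N → ℝ} (h2 : ∀ a b c, k a b c = k a c b)
    (u v w : Fin N → ℝ) : tri k u v w = tri k u w v := by
  unfold tri
  refine Finset.sum_congr rfl fun a _ => ?_
  rw [Finset.sum_comm]
  refine Finset.sum_congr rfl fun b _ => Finset.sum_congr rfl fun c _ => ?_
  rw [h2 a c b]
  ring

theorem tri_add (k : Fin N → Fin N → Fin N → ℝ) (u v w z : Fin N → ℝ) (t : ℝ) :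
    tri k (fun a => u a + t * z a) v w = tri k u v w + t * tri k z v w := by
  unfold tri
  simp only [Finset.mul_sum, ← Finset.sum_add_distrib]
  refine Finset.sum_congr rfl fun a _ => Finset.sum_congr rfl fun b _ =>
    Finset.sum_congr rfl fun c _ => ?_
  ring

theorem cube_of_critical {k : Fin N → Fin N → Fin N → ℝ} (h1 : ∀ a b c, k a b c = k b a c)
    (h2 : ∀ a b c, k a b c = k a c b)
    (hcrit : ∀ w : Fin N → ℝ, tri k w w w = 0 → ∀ u, tri k u w w = 0)
    {v : Fin N → ℝ} (hv : tri k v v v ≠ 0) (w : Fin N → ℝ) :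
    tri k w w w = (tri k v v v ^ 2)⁻¹ * tri k w v v ^ 3 := by
  set A := tri k v v v with hA
  set B := tri k w v v with hB
  set C := tri k v w w with hC
  set D := tri k w w w with hD
  have e1 : tri k v w v = B := by rw [tri_swap1 h1]
  have e2 : tri k v v w = B := by rw [tri_swap2 h2, e1]
  have e3 : tri k w v w = C := by rw [tri_swap1 h1]
  have e4 : tri k w w v = C := by rw [tri_swap2 h2, e3]
  have hz : ∀ (t : ℝ) (u : Fin N → ℝ), tri k u (fun a => w a + t * v a) (fun a => w a + t * v a) =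
      tri k u w w + 2 * t * tri k u v w + t ^ 2 * tri k u v v := by
    intro t u
    have a1 : tri k u (fun a => w a + t * v a) (fun a => w a + t * v a) =
        tri k u w (fun a => w a + t * v a) + t * tri k u v (fun a => w a + t * v a) := by
      rw [tri_swap1 h1, tri_add, tri_swap1 h1 w, tri_swap1 h1 v]
    have a2 : ∀ y, tri k u y (fun a => w a + t * v a) = tri k u y w + t * tri k u y v := by
      intro y
      rw [tri_swap2 h2, tri_swap1 h1, tri_add, tri_swap1 h1 w, tri_swap1 h1 v, tri_swap2 h2 u w,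
        tri_swap2 h2 u v]
    rw [a1, a2, a2, tri_swap2 h2 u w v]
    ring
  have hP : ∀ t : ℝ, tri k (fun a => w a + t * v a) (fun a => w a + t * v a)
      (fun a => w a + t * v a) = D + 3 * t * C + 3 * t ^ 2 * B + t ^ 3 * A := by
    intro t
    rw [tri_add, hz, hz, e3, e2]
    ring
  have hq : ∀ t : ℝ, D + 3 * t * C + 3 * t ^ 2 * B + t ^ 3 * A = 0 →
      C + 2 * t * B + t ^ 2 * A = 0 := by
    intro t ht
    rw [← hP t] at ht
    have := hcrit _ ht v
    rw [hz, e2] at this
    exact this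
  obtain ⟨t0, ht0⟩ := exists_cubic_root (3 * B / A) (3 * C / A) (D / A)
  have ht0' : D + 3 * t0 * C + 3 * t0 ^ 2 * B + t0 ^ 3 * A = 0 := by
    have h3 : A * (t0 ^ 3 + 3 * B / A * t0 ^ 2 + 3 * C / A * t0 + D / A) = 0 := by
      rw [ht0, mul_zero]
    rw [← h3]
    field_simp
    ring
  have hc0 := hq t0 ht0'
  set t1 := -3 * B / A - 2 * t0 with ht1
  have hA1 : A * t1 = -3 * B - 2 * (A * t0) := by
    rw [ht1]
    field_simp
  have hC' : C = -2 * t0 * B - t0 ^ 2 * A := by linarith
  have hD' : D = 3 * t0 ^ 2 * B + 2 * t0 ^ 3 * A := by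
    have : D = -3 * t0 * C - 3 * t0 ^ 2 * B - t0 ^ 3 * A := by linarith
    rw [this, hC']
    ring
  have hc1 := hq t1 (by
    rw [hC', hD']
    linear_combination (t1 ^ 2 - 2 * t0 * t1 + t0 ^ 2) * hA1)
  have hkey : A * t0 = -B := by
    have h3 : (t0 - t1) * (2 * B + A * t0 + A * t1) = 0 := by linear_combination hc0 - hc1
    rw [hA1] at h3
    rcases mul_eq_zero.1 h3 with h4 | h4
    · have h5 : t0 = t1 := by linarith
      rw [← h5] at hA1
      linarith
    · linarith
  have ht : t0 = -B / A := by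
    rw [eq_div_iff hv]
    linarith
  rw [hD', ht]
  field_simp
  ring

end forms

section rot

variable {N : ℕ}

theorem exists_rot (κ : Eu (N + 1)) :
    ∃ R : Eu (N + 1) ≃ₗᵢ[ℝ] Eu (N + 1), R κ = ‖κ‖ • (ee 0 : Eu (N + 1)) := by
  refine ⟨(ℝ ∙ (κ - ‖κ‖ • (ee 0 : Eu (N + 1))))ᗮ.reflection, ?_⟩
  apply Submodule.reflection_sub
  rw [norm_smul]
  simp [ee]

/-- substitution of a linear isometry -/
noncomputable def sbs (R : Eu N ≃ₗᵢ[ℝ] Eu N) :
    MvPolynomial (Fin N) ℝ →ₐ[ℝ] MvPolynomial (Fin N) ℝ :=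
  aeval fun a => ∑ b, C ((R.symm (ee b)) a) * X b

theorem ev_sbs (R : Eu N ≃ₗᵢ[ℝ] Eu N) (p : MvPolynomial (Fin N) ℝ) (z : Eu N) :
    ev (sbs R p) z = ev p (R.symm z) := by
  induction p using MvPolynomial.induction_on with
  | C r => simp [sbs, ev]
  | add p q hp hq =>
    simp only [ev, map_add] at hp hq ⊢
    rw [hp, hq]
  | mul_X p i hp =>
    simp only [ev, map_mul, eval_X] at hp ⊢
    rw [hp]
    congr 1
    rw [sbs, aeval_X, map_sum]
    conv_rhs => rw [eu_sum z]
    simp [mul_comm]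

theorem sbs_sbs (R : Eu N ≃ₗᵢ[ℝ] Eu N) (p : MvPolynomial (Fin N) ℝ) :
    sbs R (sbs R.symm p) = p := by
  apply MvPolynomial.funext
  intro w
  have h1 := ev_sbs R (sbs R.symm p) (WithLp.toLp 2 w)
  rw [ev_sbs R.symm] at h1
  simpa [ev] using h1

/-- the substitution as an isomorphism -/
noncomputable def sbsE (R : Eu N ≃ₗᵢ[ℝ] Eu N) :
    MvPolynomial (Fin N) ℝ ≃ₐ[ℝ] MvPolynomial (Fin N) ℝ :=
  AlgEquiv.ofAlgHom (sbs R) (sbs R.symm) (AlgHom.ext fun p => sbs_sbs R p)
    (AlgHom.ext fun p => sbs_sbs R.symm p)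

theorem irr_sbs (R : Eu N ≃ₗᵢ[ℝ] Eu N) {p : MvPolynomial (Fin N) ℝ} (hp : Irreducible p) :
    Irreducible (sbs R p) := (MulEquiv.irreducible_iff (sbsE R)).2 hp

theorem Th_sbs (R : Eu N ≃ₗᵢ[ℝ] Eu N) (p : MvPolynomial (Fin N) ℝ) :
    Th 1 (sbs R p) = Polynomial.map (sbs R : MvPolynomial (Fin N) ℝ →+* MvPolynomial (Fin N) ℝ)
      (Th 1 p) := by
  induction p using MvPolynomial.induction_on with
  | C r =>
    rw [Th_C, Polynomial.map_C]
    have h1 : sbs R (C r) = C r := by
      simp [sbs]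
    rw [h1, Th_C]
    exact (congrArg Polynomial.C h1).symm
  | add p q hp hq => rw [map_add, map_add, map_add, Polynomial.map_add, hp, hq]
  | mul_X p i hp =>
    rw [map_mul, map_mul, map_mul, Polynomial.map_mul, hp, Th_X, Polynomial.map_mul,
      Polynomial.map_C, Polynomial.map_pow, Polynomial.map_X]
    congr 1
    have h1 : sbs R (X i) = ∑ b, C ((R.symm (ee b)) i) * X b := by
      rw [sbs, aeval_X]
    have h2 : (sbs R : MvPolynomial (Fin N) ℝ →+* MvPolynomial (Fin N) ℝ) (X i) =
        ∑ b, C ((R.symm (ee b)) i) * X b := h1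
    rw [h1, h2, map_sum, map_sum, Finset.sum_mul]
    refine Finset.sum_congr rfl fun b _ => ?_
    rw [map_mul, Th_C, Th_X, map_mul]
    simp only [Pi.one_apply, pow_one]
    ring

theorem hc_sbs (R : Eu N ≃ₗᵢ[ℝ] Eu N) (p : MvPolynomial (Fin N) ℝ) (e : ℕ) :
    homogeneousComponent e (sbs R p) = sbs R (homogeneousComponent e p) := by
  have h1 := congrArg (fun q => Polynomial.coeff q e) (Th_sbs R p)
  simp only [Polynomial.coeff_map, coeff_Th] at h1
  exact h1

end rot

section lapRot

variable {n m : ℕ}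

theorem pd_rot {V W : Type*} [NormedAddCommGroup V] [NormedSpace ℝ V] [NormedAddCommGroup W]
    [NormedSpace ℝ W] (R : V ≃ₗᵢ[ℝ] W) (i : Fin n) (u : Eu n → V) (y : Eu n) :
    pd i (fun z => R (u z)) y = R (pd i u y) := by
  unfold pd
  have h1 := R.toContinuousLinearEquiv.comp_fderiv (f := u) (x := y)
  have h2 : (R.toContinuousLinearEquiv ∘ u) = fun z => R (u z) := rfl
  rw [h2] at h1
  rw [h1]
  rfl

theorem metric_rot (R : Eu m ≃ₗᵢ[ℝ] Eu m) (X : Eu n → Eu m) (y : Eu n) :
    metric (fun z => R (X z)) y = metric X y := by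
  ext i j
  simp only [metric, Matrix.of_apply]
  rw [pd_rot, pd_rot, R.inner_map_map]

theorem lap_rot (R : Eu m ≃ₗᵢ[ℝ] Eu m) (X u : Eu n → Eu m) (y : Eu n) :
    lap (fun z => R (X z)) (fun z => R (u z)) y = R (lap X u y) := by
  unfold lap
  simp only [metric_rot, pd_rot, map_neg, map_smul, map_sum]
  congr 1
  congr 1
  refine Finset.sum_congr rfl fun i _ => ?_
  rw [← pd_rot]
  congr 1
  funext z
  simp only [map_smul, map_sum]

variable {M : Type*} [TopologicalSpace M] [ChartedSpace (Eu n) M]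

theorem rot_smooth (R : Eu m ≃ₗᵢ[ℝ] Eu m) {x : M → Eu m} (hx : IsSmooth n x) :
    IsSmooth n (fun p => R (x p)) := fun e he =>
  (show ContDiff ℝ ∞ (fun z : Eu m => R z) from R.contDiff).comp_contDiffOn (hx e he)

theorem rot_imm (R : Eu m ≃ₗᵢ[ℝ] Eu m) {x : M → Eu m} (hx : IsImmersion n x) :
    IsImmersion n (fun p => R (x p)) := by
  refine ⟨rot_smooth R hx.1, fun e he y hy v w hvw => hx.2 e he y hy ?_⟩
  have h1 := R.toContinuousLinearEquiv.comp_fderiv (f := x ∘ e.symm) (x := y)
  have h2 : (R.toContinuousLinearEquiv ∘ (x ∘ e.symm)) = (fun p => R (x p)) ∘ e.symm := rfl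
  rw [h2] at h1
  rw [h1] at hvw
  exact R.injective hvw

theorem rot_ft (R : Eu m ≃ₗᵢ[ℝ] Eu m) {x : M → Eu m} (hx : IsFiniteType n x) :
    IsFiniteType n (fun p => R (x p)) := by
  obtain ⟨k, c, u, μ, hsum, hu, hne⟩ := hx
  refine ⟨k, R c, fun i p => R (u i p), μ, fun p => ?_, fun i => ⟨rot_smooth R (hu i).1, ?_⟩,
    fun i => ?_⟩
  · show R (x p) = R c + ∑ i, R (u i p)
    rw [hsum p, map_add, map_sum]
  · intro e he y hy
    have h1 := (hu i).2 e he y hy
    have h2 := lap_rot R (x ∘ e.symm) (u i ∘ e.symm) y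
    rw [h1, map_smul] at h2
    exact h2
  · obtain ⟨p, q, hpq⟩ := hne i
    exact ⟨p, q, fun h => hpq (R.injective h)⟩

end lapRot

section main

variable {n : ℕ} {M : Type*} [TopologicalSpace M] [ChartedSpace (Eu n) M]

theorem Th_one_eval {N : ℕ} (p : MvPolynomial (Fin N) ℝ) : (Th 1 p).eval 1 = p := by
  induction p using MvPolynomial.induction_on with
  | C r => rw [Th_C, Polynomial.eval_C]
  | add p q hp hq => rw [map_add, Polynomial.eval_add, hp, hq]
  | mul_X p i hp =>
    rw [map_mul, Polynomial.eval_mul, hp, Th_X, Polynomial.eval_mul, Polynomial.eval_C,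
      Polynomial.eval_pow, Polynomial.eval_X, one_pow, mul_one]

theorem crit_of [CompactSpace M] [ConnectedSpace M] {x : M → Eu (n + 1)}
    (hx : IsImmersion n x) (hft : IsFiniteType n x) {O : Set M} (hO : IsOpen O)
    (hOne : O.Nonempty) {F : MvPolynomial (Fin (n + 1)) ℝ} (hF : Irreducible F)
    (hF0 : ∀ p ∈ O, ev F (x p) = 0) : Crit F := fun wt _ _ _ b hm1 hm hT hf hb =>
  criterion_top hx hft hO hOne hF hF0 wt hm1 hm hT hf b hb

theorem aeval_ofReal {N : ℕ} (p : MvPolynomial (Fin N) ℝ) (w : Fin N → ℝ) :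
    aeval (fun a => (w a : ℂ)) p = ((eval w p : ℝ) : ℂ) := by
  induction p using MvPolynomial.induction_on with
  | C r =>
    rw [aeval_C, eval_C]
    rfl
  | add p q hp hq => rw [map_add, hp, hq, map_add, Complex.ofReal_add]
  | mul_X p i hp => rw [map_mul, hp, aeval_X, map_mul, eval_X, Complex.ofReal_mul]

/-- no open piece of a compact hypersurface of finite type lies on an irreducible cubic -/
theorem not_cubic [CompactSpace M] [ConnectedSpace M] {x : M → Eu (n + 1)}
    (hx : IsImmersion n x) (hft : IsFiniteType n x) {O : Set M} (hO : IsOpen O)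
    (hOne : O.Nonempty) {F : MvPolynomial (Fin (n + 1)) ℝ} (hF : Irreducible F)
    (hd : F.totalDegree = 3) (hF0 : ∀ p ∈ O, ev F (x p) = 0) : False := by
  classical
  have hCrit := crit_of hx hft hO hOne hF hF0
  set f := homogeneousComponent 3 F with hf
  have hfh : f.IsHomogeneous 3 := homogeneousComponent_isHomogeneous 3 F
  have hw1 : weightedTotalDegree (1 : Fin (n + 1) → ℕ) F = 3 := by
    rw [← hd]
    exact weightedTotalDegree_one F
  have hT := top_weighted (1 : Fin (n + 1) → ℕ) hF.ne_zero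
  rw [hw1] at hT
  have hTF : Top 1 F ((3 : ℕ) : ℤ) f := hT.1
  have hf0 : f ≠ 0 := hT.2
  obtain ⟨k, k1, k2, hk, hdk⟩ := homog_three hfh
  have hev : ∀ w : Fin (n + 1) → ℝ, eval w f = tri k w w w := by
    intro w
    rw [hk]
    simp [tri]
  have hevd : ∀ (w : Fin (n + 1) → ℝ) (a : Fin (n + 1)), eval w (pderiv a f) =
      3 * ∑ b, ∑ c, k a b c * (w b * w c) := by
    intro w a
    rw [hdk]
    simp
  have htri : ∀ (u w : Fin (n + 1) → ℝ), 3 * tri k u w w = ∑ a, u a * eval w (pderiv a f) := by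
    intro u w
    unfold tri
    rw [Finset.mul_sum]
    refine Finset.sum_congr rfl fun a _ => ?_
    rw [hevd]
    simp only [Finset.mul_sum]
    refine Finset.sum_congr rfl fun b _ => Finset.sum_congr rfl fun c _ => ?_
    ring
  by_cases hcase : ∀ w : Fin (n + 1) → ℝ, tri k w w w = 0 → ∀ a, eval w (pderiv a f) = 0
  · -- the leading form is a cube
    have hcrit : ∀ w : Fin (n + 1) → ℝ, tri k w w w = 0 → ∀ u, tri k u w w = 0 := by
      intro w hw u
      have h1 := htri u w
      rw [Finset.sum_eq_zero (fun a _ => by rw [hcase w hw a, mul_zero])] at h1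
      linarith
    obtain ⟨v, hv⟩ : ∃ v, tri k v v v ≠ 0 := by
      by_contra hcon
      push Not at hcon
      apply hf0
      apply MvPolynomial.funext
      intro w
      rw [hev, hcon, map_zero]
    have hcube := cube_of_critical k1 k2 hcrit hv
    set κ : Eu (n + 1) := WithLp.toLp 2 fun c => ∑ a, ∑ b, k c a b * (v a * v b) with hκ
    have hκw : ∀ w : Eu (n + 1), tri k (fun a => w a) v v = ⟪κ, w⟫ := by
      intro w
      rw [inner_eq_sum]
      unfold tri
      refine Finset.sum_congr rfl fun a _ => ?_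
      rw [hκ]
      simp only
      rw [Finset.sum_mul]
      refine Finset.sum_congr rfl fun b _ => ?_
      rw [Finset.sum_mul]
      refine Finset.sum_congr rfl fun c _ => ?_
      ring
    have hκ0 : κ ≠ 0 := by
      intro h0
      apply hv
      have h1 := hκw (WithLp.toLp 2 v)
      rw [h0, inner_zero_left] at h1
      exact h1
    obtain ⟨R, hR⟩ := exists_rot κ
    have hx' := rot_imm R hx
    have hft' := rot_ft R hft
    set F' := sbs R F with hF'
    have hirr' : Irreducible F' := irr_sbs R hF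
    have hF0' : ∀ p ∈ O, ev F' (R (x p)) = 0 := by
      intro p hp
      rw [hF', ev_sbs, R.symm_apply_apply]
      exact hF0 p hp
    have hC' := crit_of hx' hft' hO hOne hirr' hF0'
    have hnd : (Th 1 F').natDegree ≤ 3 := by
      rw [hF', Th_sbs]
      refine Polynomial.natDegree_map_le.trans ?_
      have := hTF.natDegree (by positivity)
      simpa using this
    have hdec : F' = homogeneousComponent 3 F' + homogeneousComponent 2 F' +
        homogeneousComponent 1 F' + homogeneousComponent 0 F' := by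
      have h1 := Th_one_eval F'
      rw [Polynomial.eval_eq_sum_range' (n := 4) (by omega)] at h1
      conv_lhs => rw [← h1]
      simp only [Finset.sum_range_succ, Finset.sum_range_zero, one_pow, mul_one, coeff_Th, zero_add]
      have e : ∀ j, weightedHomogeneousComponent (1 : Fin (n + 1) → ℕ) j F' =
        homogeneousComponent j F' := fun j => rfl
      simp only [e]
      ring
    set c' : ℝ := (tri k v v v ^ 2)⁻¹ * ‖κ‖ ^ 3 with hc'
    have hc0 : c' ≠ 0 :=
      mul_ne_zero (inv_ne_zero (pow_ne_zero 2 hv)) (pow_ne_zero 3 (norm_ne_zero_iff.2 hκ0))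
    have h3 : homogeneousComponent 3 F' = C c' * X 0 ^ 3 := by
      rw [hF', hc_sbs]
      apply MvPolynomial.funext
      intro w
      have h4 := ev_sbs R f (WithLp.toLp 2 w)
      have h5 : ev f (R.symm (WithLp.toLp 2 w)) =
          tri k (fun a => (R.symm (WithLp.toLp 2 w)) a) (fun a => (R.symm (WithLp.toLp 2 w)) a)
            (fun a => (R.symm (WithLp.toLp 2 w)) a) := hev _
      have h55 := hκw (R.symm (WithLp.toLp 2 w))
      rw [h5, hcube, h55] at h4
      have h6 : ⟪κ, R.symm (WithLp.toLp 2 w)⟫ = ‖κ‖ * w 0 := by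
        rw [← R.inner_map_map, R.apply_symm_apply, hR, real_inner_smul_left]
        congr 1
        rw [ee, EuclideanSpace.inner_single_left]
        simp
      rw [h6] at h4
      have h7 : eval w (sbs R (homogeneousComponent 3 F)) = ev (sbs R f) (WithLp.toLp 2 w) := rfl
      rw [h7, h4]
      simp only [map_mul, map_pow, eval_C, eval_X]
      rw [hc']
      ring
    obtain ⟨h, hs, h2⟩ := homog_two (homogeneousComponent_isHomogeneous 2 F')
    have h1 := homog_one (homogeneousComponent_isHomogeneous 1 F')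
    have h0 := homog_zero (homogeneousComponent_isHomogeneous 0 F')
    have hcub : F' = cub c' h (fun a => coeff 0 (pderiv a (homogeneousComponent 1 F')))
        (coeff 0 (homogeneousComponent 0 F')) := by
      rw [cub, ← h3, ← h2, ← h1, ← h0]
      exact hdec
    rw [hcub] at hirr' hC'
    exact cub_false hc0 hs hirr' hC'
  · push Not at hcase
    obtain ⟨w, hw, a, ha⟩ := hcase
    have h1 := hCrit 1 1 f ((3 : ℕ) : ℤ) (fun a => (w a : ℂ)) le_rfl (fun _ => le_rfl) hTF hf0 (by
      rw [aeval_ofReal, hev, hw]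
      simp)
    rcases h1 with h1 | h1
    · have hw0 : w = 0 := by
        funext b
        have := congrFun h1 b
        simpa using this
      apply ha
      rw [hevd, hw0]
      simp
    · simp only [Pi.one_apply, if_true, aeval_ofReal] at h1
      have h2 : ∑ a, (eval w (pderiv a f)) ^ 2 = 0 := by exact_mod_cast h1
      have h3 := (Finset.sum_eq_zero_iff_of_nonneg
        (fun a _ => sq_nonneg (eval w (pderiv a f)))).1 h2 a (Finset.mem_univ a)
      exact ha (pow_eq_zero_iff (two_ne_zero) |>.1 h3)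

end main

end Run7.h978
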