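import Mathlib
import Pool.Agent.Run7.h978.Crit
import Pool.Agent.Run7.h978.Cubic2

set_option autoImplicit false

/-!
The Laplace operator and linear isometries of the chart.
-/

open Set Filter Topology Matrix Module
open scoped RealInnerProductSpace ContDiff Manifold
open Helper772Chen (ee diffAt sm_fderiv symm2 fd_congr fd_apply_const sm_apply_const fd_inner
  sm_inner)

namespace Run7.h978

section pre

variable {n m : ℕ}

/-- the matrix of a linear isometry -/
noncomputable def rm (R : Eu n ≃ₗᵢ[ℝ] Eu n) : Matrix (Fin n) (Fin n) ℝ :=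
  Matrix.of fun c i => R (ee i) c

theorem inner_ee (i j : Fin n) : ⟪(ee i : Eu n), ee j⟫ = if i = j then 1 else 0 := by
  rw [inner_eq_sum]
  simp [ee, Pi.single_apply, eq_comm]

theorem rm_orth (R : Eu n ≃ₗᵢ[ℝ] Eu n) : (rm R)ᵀ * rm R = 1 := by
  ext i j
  rw [Matrix.mul_apply, Matrix.one_apply, ← inner_ee i j, ← R.inner_map_map, inner_eq_sum]
  rfl

theorem rm_orth' (R : Eu n ≃ₗᵢ[ℝ] Eu n) : rm R * (rm R)ᵀ = 1 :=
  mul_eq_one_comm.1 (rm_orth R)

theorem rm_sum (R : Eu n ≃ₗᵢ[ℝ] Eu n) (b c : Fin n) :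
    ∑ j, R (ee j) b * R (ee j) c = if b = c then 1 else 0 := by
  have h1 : (rm R * (rm R)ᵀ) b c = (1 : Matrix (Fin n) (Fin n) ℝ) b c := by rw [rm_orth']
  rw [Matrix.mul_apply, Matrix.one_apply] at h1
  exact h1

theorem pd_pre {V : Type*} [NormedAddCommGroup V] [NormedSpace ℝ V] (R : Eu n ≃ₗᵢ[ℝ] Eu n)
    (i : Fin n) (u : Eu n → V) (y : Eu n) :
    pd i (fun z => u (R z)) y = ∑ c, R (ee i) c • pd c u (R y) := by
  have h1 := R.toContinuousLinearEquiv.comp_right_fderiv (f := u) (x := y)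
  have h2 : (u ∘ R.toContinuousLinearEquiv) = fun z => u (R z) := rfl
  rw [h2] at h1
  rw [pd, h1]
  show fderiv ℝ u (R y) (R (ee i)) = _
  conv_lhs => rw [eu_sum (R (ee i))]
  rw [map_sum]
  exact Finset.sum_congr rfl fun c _ => by rw [map_smul]; rfl

theorem metric_pre (R : Eu n ≃ₗᵢ[ℝ] Eu n) (X : Eu n → Eu m) (y : Eu n) :
    metric (fun z => X (R z)) y = (rm R)ᵀ * metric X (R y) * rm R := by
  ext i j
  rw [Matrix.mul_apply]
  simp only [Matrix.mul_apply, metric, Matrix.of_apply, Matrix.transpose_apply, rm]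
  rw [pd_pre, pd_pre, sum_inner]
  simp only [inner_sum, real_inner_smul_left, real_inner_smul_right, Finset.sum_mul]
  rw [Finset.sum_comm]
  refine Finset.sum_congr rfl fun b _ => Finset.sum_congr rfl fun a _ => ?_
  ring

theorem det_pre (R : Eu n ≃ₗᵢ[ℝ] Eu n) (M : Matrix (Fin n) (Fin n) ℝ) :
    ((rm R)ᵀ * M * rm R).det = M.det := by
  rw [Matrix.det_mul, Matrix.det_mul, mul_comm _ M.det, mul_assoc, ← Matrix.det_mul, rm_orth,
    Matrix.det_one, mul_one]

theorem inv_pre (R : Eu n ≃ₗᵢ[ℝ] Eu n) (M : Matrix (Fin n) (Fin n) ℝ) :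
    ((rm R)ᵀ * M * rm R)⁻¹ = (rm R)ᵀ * M⁻¹ * rm R := by
  have h1 : (rm R)⁻¹ = (rm R)ᵀ := Matrix.inv_eq_left_inv (rm_orth R)
  have h2 : ((rm R)ᵀ)⁻¹ = rm R := Matrix.inv_eq_left_inv (rm_orth' R)
  rw [Matrix.mul_inv_rev, Matrix.mul_inv_rev, h1, h2, Matrix.mul_assoc]

/-- the flux -/
noncomputable def flx {V : Type*} [NormedAddCommGroup V] [NormedSpace ℝ V] (X : Eu n → Eu m)
    (u : Eu n → V) (a : Fin n) (z : Eu n) : V :=
  Real.sqrt (metric X z).det • ∑ b, (metric X z)⁻¹ a b • pd b u z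

theorem lap_flx {V : Type*} [NormedAddCommGroup V] [NormedSpace ℝ V] (X : Eu n → Eu m)
    (u : Eu n → V) (y : Eu n) :
    lap X u y = -((Real.sqrt (metric X y).det)⁻¹ • ∑ a, pd a (flx X u a) y) := rfl

theorem flx_pre {V : Type*} [NormedAddCommGroup V] [NormedSpace ℝ V] (R : Eu n ≃ₗᵢ[ℝ] Eu n)
    (X : Eu n → Eu m) (u : Eu n → V) (i : Fin n) (z : Eu n) :
    flx (fun z => X (R z)) (fun z => u (R z)) i z = ∑ a, R (ee i) a • flx X u a (R z) := by
  rw [flx, metric_pre, det_pre, inv_pre]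
  have h1 : ∑ b, ((rm R)ᵀ * (metric X (R z))⁻¹ * rm R) i b • pd b (fun z => u (R z)) z =
      ∑ a, R (ee i) a • ∑ b, (metric X (R z))⁻¹ a b • pd b u (R z) := by
    simp only [pd_pre, Matrix.mul_apply, Matrix.transpose_apply]
    set M := (metric X (R z))⁻¹
    calc ∑ j, (∑ b, (∑ a, rm R a i * M a b) * rm R b j) • ∑ c, R (ee j) c • pd c u (R z)
        = ∑ j, ∑ b, ∑ c, ((∑ a, rm R a i * M a b) * (R (ee j) b * R (ee j) c)) •
            pd c u (R z) := by
          refine Finset.sum_congr rfl fun j _ => ?_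
          rw [Finset.sum_smul]
          refine Finset.sum_congr rfl fun b _ => ?_
          rw [Finset.smul_sum]
          refine Finset.sum_congr rfl fun c _ => ?_
          rw [smul_smul]
          congr 1
          show (∑ a, rm R a i * M a b) * R (ee j) b * R (ee j) c = _
          ring
      _ = ∑ b, ∑ c, ((∑ a, rm R a i * M a b) * ∑ j, R (ee j) b * R (ee j) c) •
            pd c u (R z) := by
          rw [Finset.sum_comm]
          refine Finset.sum_congr rfl fun b _ => ?_
          rw [Finset.sum_comm]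
          refine Finset.sum_congr rfl fun c _ => ?_
          rw [Finset.mul_sum, Finset.sum_smul]
      _ = ∑ b, (∑ a, rm R a i * M a b) • pd b u (R z) := by
          refine Finset.sum_congr rfl fun b _ => ?_
          simp only [rm_sum, mul_ite, mul_one, mul_zero, ite_smul, zero_smul,
            Finset.sum_ite_eq, Finset.mem_univ, if_true]
      _ = _ := by
          simp only [Finset.sum_smul]
          rw [Finset.sum_comm]
          refine Finset.sum_congr rfl fun a _ => ?_
          rw [Finset.smul_sum]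
          refine Finset.sum_congr rfl fun b _ => ?_
          rw [smul_smul]
          rfl
  rw [h1, Finset.smul_sum]
  refine Finset.sum_congr rfl fun a _ => ?_
  rw [flx, smul_comm]

theorem sm_flx {V : Type*} [NormedAddCommGroup V] [NormedSpace ℝ V] {X : Eu n → Eu m}
    {U : Set (Eu n)} (h : Imm X U) {u : Eu n → V} (su : ContDiffOn ℝ ∞ u U) (a : Fin n) :
    ContDiffOn ℝ ∞ (flx X u a) U :=
  h.ssq.smul (ContDiffOn.sum fun b _ => (h.sinv a b).smul (sm_apply_const h.hU su _))

/-- precomposition with a linear isometry of the chart -/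
theorem lap_pre {V : Type*} [NormedAddCommGroup V] [NormedSpace ℝ V] (R : Eu n ≃ₗᵢ[ℝ] Eu n)
    {X : Eu n → Eu m} {U : Set (Eu n)} (h : Imm X U) {u : Eu n → V} (su : ContDiffOn ℝ ∞ u U)
    {y : Eu n} (hy : R y ∈ U) :
    lap (fun z => X (R z)) (fun z => u (R z)) y = lap X u (R y) := by
  rw [lap_flx, lap_flx, metric_pre, det_pre]
  congr 2
  have h1 : ∀ i, flx (fun z => X (R z)) (fun z => u (R z)) i =
      fun z => (fun w => ∑ a, R (ee i) a • flx X u a w) (R z) := by
    intro i
    funext z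
    exact flx_pre R X u i z
  simp only [h1]
  have h2 : ∀ i c, pd c (fun w => ∑ a, R (ee i) a • flx X u a w) (R y) =
      ∑ a, R (ee i) a • pd c (flx X u a) (R y) := by
    intro i c
    unfold pd
    have hd : ∀ a, DifferentiableAt ℝ (flx X u a) (R y) := fun a =>
      diffAt h.hU (sm_flx h su a) hy
    rw [fderiv_fun_sum (A := fun a w => R (ee i) a • flx X u a w)
      (fun a _ => (hd a).const_smul _), _root_.sum_apply]
    refine Finset.sum_congr rfl fun a _ => ?_
    rw [fderiv_fun_const_smul (hd a)]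
    rfl
  calc ∑ i, pd i (fun z => (fun w => ∑ a, R (ee i) a • flx X u a w) (R z)) y
      = ∑ i, ∑ c, ∑ a, (R (ee i) c * R (ee i) a) • pd c (flx X u a) (R y) := by
        refine Finset.sum_congr rfl fun i _ => ?_
        rw [pd_pre R i (fun w => ∑ a, R (ee i) a • flx X u a w) y]
        refine Finset.sum_congr rfl fun c _ => ?_
        rw [h2, Finset.smul_sum]
        refine Finset.sum_congr rfl fun a _ => ?_
        rw [smul_smul]
    _ = ∑ c, ∑ a, (∑ i, R (ee i) c * R (ee i) a) • pd c (flx X u a) (R y) := by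
        rw [Finset.sum_comm]
        refine Finset.sum_congr rfl fun c _ => ?_
        rw [Finset.sum_comm]
        refine Finset.sum_congr rfl fun a _ => ?_
        rw [Finset.sum_smul]
    _ = _ := by
        refine Finset.sum_congr rfl fun c _ => ?_
        simp only [rm_sum, ite_smul, one_smul, zero_smul, Finset.sum_ite_eq, Finset.mem_univ,
          if_true]

/-- the operator does not see an isometry of the ambient space -/
theorem lap_post {V : Type*} [NormedAddCommGroup V] [NormedSpace ℝ V] (A : Eu m ≃ₗᵢ[ℝ] Eu m)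
    (X : Eu n → Eu m) (u : Eu n → V) (y : Eu n) :
    lap (fun z => A (X z)) u y = lap X u y := by
  unfold lap
  simp only [metric_rot]

theorem lap_comp_left {V W : Type*} [NormedAddCommGroup V] [NormedSpace ℝ V]
    [NormedAddCommGroup W] [NormedSpace ℝ W] (A : V ≃ₗᵢ[ℝ] W) (X : Eu n → Eu m)
    (u : Eu n → V) (y : Eu n) : lap X (fun z => A (u z)) y = A (lap X u y) := by
  unfold lap
  simp only [pd_rot, map_neg, map_smul, map_sum]
  congr 1
  congr 1
  refine Finset.sum_congr rfl fun i _ => ?_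
  rw [← pd_rot]
  congr 1
  funext z
  simp only [map_smul, map_sum]

end pre

section lin

variable {n m : ℕ} {X : Eu n → Eu m} {U : Set (Eu n)} {V : Type*} [NormedAddCommGroup V]
  [NormedSpace ℝ V]

theorem flx_sum {κ : Type*} (s : Finset κ) {u : κ → Eu n → V} {y : Eu n} (hU : IsOpen U)
    (su : ∀ i, ContDiffOn ℝ ∞ (u i) U) (hy : y ∈ U) (c : κ → ℝ) (a : Fin n) :
    flx X (fun z => ∑ i ∈ s, c i • u i z) a y = ∑ i ∈ s, c i • flx X (u i) a y := by
  have h1 : ∀ b, pd b (fun z => ∑ i ∈ s, c i • u i z) y = ∑ i ∈ s, c i • pd b (u i) y := by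
    intro b
    unfold pd
    have hd : ∀ i, DifferentiableAt ℝ (u i) y := fun i => diffAt hU (su i) hy
    rw [fderiv_fun_sum (A := fun i w => c i • u i w) (fun i _ => (hd i).const_smul _),
      _root_.sum_apply]
    refine Finset.sum_congr rfl fun i _ => ?_
    rw [fderiv_fun_const_smul (hd i)]
    rfl
  unfold flx
  simp only [h1, Finset.smul_sum]
  rw [Finset.sum_comm]
  refine Finset.sum_congr rfl fun i _ => Finset.sum_congr rfl fun b _ => ?_
  simp only [smul_smul]
  congr 1
  ring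

/-- linearity -/
theorem lap_lin (h : Imm X U) {κ : Type*} (s : Finset κ) {u : κ → Eu n → V}
    (su : ∀ i, ContDiffOn ℝ ∞ (u i) U) {y : Eu n} (hy : y ∈ U) (c : κ → ℝ) :
    lap X (fun z => ∑ i ∈ s, c i • u i z) y = ∑ i ∈ s, c i • lap X (u i) y := by
  rw [lap_flx]
  have h1 : ∀ a, pd a (flx X (fun z => ∑ i ∈ s, c i • u i z) a) y =
      ∑ i ∈ s, c i • pd a (flx X (u i) a) y := by
    intro a
    unfold pd
    have e1 : flx X (fun z => ∑ i ∈ s, c i • u i z) a =ᶠ[𝓝 y]
        fun z => ∑ i ∈ s, c i • flx X (u i) a z := by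
      filter_upwards [h.hU.mem_nhds hy] with z hz
      exact flx_sum s h.hU su hz c a
    rw [e1.fderiv_eq]
    have hd : ∀ i, DifferentiableAt ℝ (flx X (u i) a) y := fun i =>
      diffAt h.hU (sm_flx h (su i) a) hy
    rw [fderiv_fun_sum (A := fun i w => c i • flx X (u i) a w) (fun i _ => (hd i).const_smul _),
      _root_.sum_apply]
    refine Finset.sum_congr rfl fun i _ => ?_
    rw [fderiv_fun_const_smul (hd i)]
    rfl
  simp only [h1]
  rw [Finset.sum_comm, Finset.smul_sum, ← Finset.sum_neg_distrib]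
  refine Finset.sum_congr rfl fun i _ => ?_
  rw [lap_flx, ← Finset.smul_sum, smul_comm, smul_neg]

/-- locality -/
theorem lap_congr {u u' : Eu n → V} {y : Eu n} (hU : IsOpen U) (hy : y ∈ U)
    (huu : ∀ z ∈ U, u z = u' z) : lap X u y = lap X u' y := by
  rw [lap_flx, lap_flx]
  congr 2
  refine Finset.sum_congr rfl fun a _ => ?_
  unfold pd
  have e1 : flx X u a =ᶠ[𝓝 y] flx X u' a := by
    filter_upwards [hU.mem_nhds hy] with z hz
    unfold flx pd
    have e2 : u =ᶠ[𝓝 z] u' := by
      filter_upwards [hU.mem_nhds hz] with w hw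
      exact huu w hw
    rw [e2.fderiv_eq]
  rw [e1.fderiv_eq]

theorem lap_const (X : Eu n → Eu m) (v : V) (y : Eu n) : lap X (fun _ => v) y = 0 := by
  unfold lap
  have h1 : ∀ j (z : Eu n), pd j (fun _ : Eu n => v) z = 0 := by
    intro j z
    unfold pd
    rw [fderiv_fun_const]
    rfl
  simp only [h1, smul_zero, Finset.sum_const_zero]
  have h2 : ∀ i (y : Eu n), pd i (fun _ : Eu n => (0 : V)) y = 0 := by
    intro i z
    unfold pd
    rw [fderiv_fun_const]
    rfl
  simp [h2]

theorem lap_add (h : Imm X U) {u w : Eu n → V} (su : ContDiffOn ℝ ∞ u U)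
    (sw : ContDiffOn ℝ ∞ w U) {y : Eu n} (hy : y ∈ U) :
    lap X (fun z => u z + w z) y = lap X u y + lap X w y := by
  have h1 := lap_lin h (Finset.univ : Finset (Fin 2)) (u := ![u, w])
    (Fin.forall_fin_two.2 ⟨su, sw⟩) hy (fun _ => 1)
  simpa using h1

theorem lap_sub (h : Imm X U) {u w : Eu n → V} (su : ContDiffOn ℝ ∞ u U)
    (sw : ContDiffOn ℝ ∞ w U) {y : Eu n} (hy : y ∈ U) :
    lap X (fun z => u z - w z) y = lap X u y - lap X w y := by
  have h1 := lap_lin h (Finset.univ : Finset (Fin 2)) (u := ![u, w])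
    (Fin.forall_fin_two.2 ⟨su, sw⟩) hy ![1, -1]
  simp only [Fin.sum_univ_two, Matrix.cons_val_zero, Matrix.cons_val_one, one_smul, neg_smul,
    ← sub_eq_add_neg] at h1
  exact h1

end lin

end Run7.h978
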