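import Mathlib
import Pool.Agent.Run7.h978.Geo1

set_option autoImplicit false

/-!
Eigencomponents and symmetries.
-/

open Set Filter Topology Matrix Module
open scoped RealInnerProductSpace ContDiff Manifold
open Helper772Chen (ee diffAt sm_fderiv symm2 fd_congr fd_apply_const sm_apply_const fd_inner
  sm_inner)

namespace Run7.h978

section sep

variable {n m : ℕ} {X : Eu n → Eu m} {U : Set (Eu n)} {V : Type*} [NormedAddCommGroup V]
  [NormedSpace ℝ V]

/-- eigenfunctions of different nonzero eigenvalues are independent, modulo constants -/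
theorem sep (h : Imm X U) {κ : Type*} [Fintype κ] {D : κ → Eu n → V}
    (sD : ∀ i, ContDiffOn ℝ ∞ (D i) U) {μ : κ → ℝ} (hμ : ∀ i, μ i ≠ 0)
    (hinj : Function.Injective μ) (hD : ∀ i, ∀ y ∈ U, lap X (D i) y = μ i • D i y) {k0 : V}
    (hsum : ∀ y ∈ U, ∑ i, D i y = k0) : ∀ i, ∀ y ∈ U, D i y = 0 := by
  classical
  have h1 : ∀ j : ℕ, ∀ y ∈ U, ∑ i, μ i ^ (j + 1) • D i y = 0 := by
    intro j
    induction j with
    | zero =>
      intro y hy
      have e1 := lap_lin h Finset.univ sD hy (fun _ => 1)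
      have e2 : lap X (fun z => ∑ i, (1 : ℝ) • D i z) y = lap X (fun _ => k0) y := by
        refine lap_congr h.hU hy fun z hz => ?_
        simp only [one_smul]
        exact hsum z hz
      rw [e2, lap_const] at e1
      rw [e1]
      refine Finset.sum_congr rfl fun i _ => ?_
      rw [hD i y hy, one_smul, zero_add, pow_one]
    | succ j ih =>
      intro y hy
      have e1 := lap_lin h Finset.univ sD hy (fun i => μ i ^ (j + 1))
      have e2 : lap X (fun z => ∑ i, μ i ^ (j + 1) • D i z) y = lap X (fun _ => (0 : V)) y :=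
        lap_congr h.hU hy ih
      rw [e2, lap_const] at e1
      rw [e1]
      refine Finset.sum_congr rfl fun i _ => ?_
      rw [hD i y hy, smul_smul, ← pow_succ]
  intro i0 y hy
  set Q : Polynomial ℝ := ∏ l ∈ Finset.univ.erase i0, (Polynomial.X - Polynomial.C (μ l)) with hQ
  have hQ0 : ∀ i, i ≠ i0 → Q.eval (μ i) = 0 := by
    intro i hi
    rw [hQ, Polynomial.eval_prod]
    refine Finset.prod_eq_zero (Finset.mem_erase.2 ⟨hi, Finset.mem_univ i⟩) ?_
    simp
  have hQ1 : Q.eval (μ i0) ≠ 0 := by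
    rw [hQ, Polynomial.eval_prod, Finset.prod_ne_zero_iff]
    intro l hl
    rw [Polynomial.eval_sub, Polynomial.eval_X, Polynomial.eval_C]
    intro h2
    exact (Finset.mem_erase.1 hl).1 (hinj (sub_eq_zero.1 h2).symm)
  have h2 : ∑ i, (μ i * Q.eval (μ i)) • D i y = 0 := by
    have e1 : ∀ i, (μ i * Q.eval (μ i)) • D i y =
        ∑ j ∈ Finset.range (Q.natDegree + 1), Q.coeff j • (μ i ^ (j + 1) • D i y) := by
      intro i
      rw [Polynomial.eval_eq_sum_range, Finset.mul_sum, Finset.sum_smul]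
      refine Finset.sum_congr rfl fun j _ => ?_
      rw [smul_smul]
      congr 1
      ring
    simp only [e1]
    rw [Finset.sum_comm]
    refine Finset.sum_eq_zero fun j _ => ?_
    rw [← Finset.smul_sum, h1 j y hy, smul_zero]
  rw [Finset.sum_eq_single i0 (fun i _ hi => by rw [hQ0 i hi, mul_zero, zero_smul])
    (fun hi => absurd (Finset.mem_univ _) hi)] at h2
  exact (smul_eq_zero.1 h2).resolve_left (mul_ne_zero (hμ i0) hQ1)

/-- the eigencomponents inherit the symmetries -/
theorem comp_symm (h : Imm X univ) {κ : Type*} [Fintype κ] {W : κ → Eu n → Eu m}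
    (sW : ∀ i, ContDiffOn ℝ ∞ (W i) univ) {μ : κ → ℝ} (hμ : ∀ i, μ i ≠ 0)
    (hinj : Function.Injective μ) (hW : ∀ i y, lap X (W i) y = μ i • W i y) {c : Eu m}
    (hsum : ∀ y, X y = c + ∑ i, W i y) (R : Eu n ≃ₗᵢ[ℝ] Eu n) (A : Eu m ≃ₗᵢ[ℝ] Eu m)
    (hRA : ∀ y, X (R y) = A (X y)) : (∀ i y, W i (R y) = A (W i y)) ∧ A c = c := by
  have hR : ContDiff ℝ ∞ (fun z : Eu n => R z) := R.contDiff
  have hA : ContDiff ℝ ∞ (fun z : Eu m => A z) := A.contDiff
  have s1 : ∀ i, ContDiffOn ℝ ∞ (fun z => W i (R z)) univ := fun i =>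
    (sW i).comp hR.contDiffOn fun _ _ => mem_univ _
  have s2 : ∀ i, ContDiffOn ℝ ∞ (fun z => A (W i z)) univ := fun i =>
    hA.comp_contDiffOn (sW i)
  have e1 : ∀ i y, lap X (fun z => W i (R z)) y = μ i • W i (R y) := by
    intro i y
    have k1 : X = fun z => A.symm (X (R z)) := by
      funext z
      rw [hRA, A.symm_apply_apply]
    rw [← hW i (R y), ← lap_pre R h (sW i) (mem_univ _)]
    conv_lhs => rw [k1]
    exact lap_post A.symm (fun z => X (R z)) (fun z => W i (R z)) y
  have e2 : ∀ i y, lap X (fun z => A (W i z)) y = μ i • A (W i y) := by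
    intro i y
    rw [lap_comp_left, hW, map_smul]
  have h1 := sep h (D := fun i z => W i (R z) - A (W i z)) (k0 := A c - c)
    (fun i => (s1 i).sub (s2 i)) hμ hinj (fun i y hy => by
      rw [lap_sub h (s1 i) (s2 i) hy, e1, e2, smul_sub]) (fun y _ => by
      rw [Finset.sum_sub_distrib, ← map_sum]
      have k1 : ∑ i, W i (R y) = A (X y) - c := by
        rw [← hRA, hsum (R y)]
        abel
      have k2 : ∑ i, W i y = X y - c := by
        rw [hsum y]
        abel
      rw [k1, k2, map_sub]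
      abel)
  have h2 : ∀ i y, W i (R y) = A (W i y) := fun i y => sub_eq_zero.1 (h1 i y (mem_univ y))
  refine ⟨h2, ?_⟩
  have h3 := hRA 0
  rw [hsum (R 0), hsum 0, map_add, map_sum] at h3
  simp only [h2] at h3
  exact (add_right_cancel h3).symm

end sep

end Run7.h978
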