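import Mathlib
import Pool.Agent.Run7.h978.Geo2

set_option autoImplicit false

/-!
The Laplace operator along a ray of a rotational hypersurface.
-/

open Set Filter Topology Matrix Module
open scoped RealInnerProductSpace ContDiff Manifold
open Helper772Chen (ee diffAt sm_fderiv symm2 fd_congr fd_apply_const sm_apply_const fd_inner
  sm_inner)

namespace Run7.h978

section

variable {N m : ℕ}

/-- the splitting of the space into the axis and its complement -/
structure Axis (Λ : Eu (N + 1) →ₗᵢ[ℝ] Eu m) (e0 : Eu m) : Prop where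
  unit : ⟪e0, e0⟫ = 1
  orth : ∀ y, ⟪Λ y, e0⟫ = 0

/-- the polar form of a rotationally symmetric map -/
def Pol (Λ : Eu (N + 1) →ₗᵢ[ℝ] Eu m) (e0 : Eu m) (W : Eu (N + 1) → Eu m) (v u : ℝ → ℝ) : Prop :=
  ∀ (r : ℝ) (z : Eu (N + 1)), ‖z‖ = 1 → W (r • z) = v r • Λ z + u r • e0

theorem norm_ee (i : Fin (N + 1)) : ‖(ee i : Eu (N + 1))‖ = 1 := by
  rw [ee]
  simp

theorem circle_unit (k : Fin N) (t : ℝ) :
    ‖Real.cos t • (ee 0 : Eu (N + 1)) + Real.sin t • ee k.succ‖ = 1 := by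
  have h1 : ⟪Real.cos t • (ee 0 : Eu (N + 1)) + Real.sin t • ee k.succ,
      Real.cos t • (ee 0 : Eu (N + 1)) + Real.sin t • ee k.succ⟫ = 1 := by
    simp only [inner_add_left, inner_add_right, real_inner_smul_left, real_inner_smul_right,
      inner_ee]
    have h2 : (0 : Fin (N + 1)) ≠ k.succ := (Fin.succ_ne_zero k).symm
    simp only [h2, h2.symm, if_true, if_false]
    have := Real.sin_sq_add_cos_sq t
    linarith
  rw [real_inner_self_eq_norm_sq] at h1
  have h3 := norm_nonneg (Real.cos t • (ee 0 : Eu (N + 1)) + Real.sin t • ee k.succ)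
  nlinarith

variable {Λ : Eu (N + 1) →ₗᵢ[ℝ] Eu m} {e0 : Eu m} {W : Eu (N + 1) → Eu m}
  {v u v1 u1 v2 u2 : ℝ → ℝ}

theorem ray1 (sW : ContDiff ℝ ∞ W) (hP : Pol Λ e0 W v u) (dv : ∀ r, HasDerivAt v (v1 r) r)
    (du : ∀ r, HasDerivAt u (u1 r) r) (r : ℝ) :
    fderiv ℝ W (r • ee 0) (ee 0) = v1 r • Λ (ee 0) + u1 r • e0 := by
  have h1 : HasDerivAt (fun t : ℝ => t • (ee 0 : Eu (N + 1))) ((1 : ℝ) • ee 0) r :=
    (hasDerivAt_id r).smul_const _
  have h2 : HasDerivAt (fun t : ℝ => W (t • ee 0)) (fderiv ℝ W (r • ee 0) ((1 : ℝ) • ee 0)) r :=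
    ((sW.differentiable (by simp)).differentiableAt.hasFDerivAt).comp_hasDerivAt r h1
  have h3 : HasDerivAt (fun t : ℝ => W (t • ee 0)) (v1 r • Λ (ee 0) + u1 r • e0) r := by
    have e1 : (fun t : ℝ => W (t • ee 0)) = fun t => v t • Λ (ee 0) + u t • e0 := by
      funext t
      exact hP t (ee 0) (norm_ee 0)
    rw [e1]
    exact ((dv r).smul_const _).add ((du r).smul_const _)
  have := h2.unique h3
  rwa [one_smul] at this

theorem ray2 (sW : ContDiff ℝ ∞ W) (hP : Pol Λ e0 W v u) (dv : ∀ r, HasDerivAt v (v1 r) r)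
    (du : ∀ r, HasDerivAt u (u1 r) r) (dv1 : ∀ r, HasDerivAt v1 (v2 r) r)
    (du1 : ∀ r, HasDerivAt u1 (u2 r) r) (r : ℝ) :
    fderiv ℝ (fderiv ℝ W) (r • ee 0) (ee 0) (ee 0) = v2 r • Λ (ee 0) + u2 r • e0 := by
  have sf : ContDiff ℝ ∞ (fderiv ℝ W) := sW.fderiv_right (by simp)
  have h1 : HasDerivAt (fun t : ℝ => t • (ee 0 : Eu (N + 1))) ((1 : ℝ) • ee 0) r :=
    (hasDerivAt_id r).smul_const _
  have h2 : HasDerivAt (fun t : ℝ => fderiv ℝ W (t • ee 0))
      (fderiv ℝ (fderiv ℝ W) (r • ee 0) ((1 : ℝ) • ee 0)) r :=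
    ((sf.differentiable (by simp)).differentiableAt.hasFDerivAt).comp_hasDerivAt r h1
  have h3 := h2.clm_apply (hasDerivAt_const r (ee 0 : Eu (N + 1)))
  have h4 : HasDerivAt (fun t : ℝ => fderiv ℝ W (t • ee 0) (ee 0))
      (v2 r • Λ (ee 0) + u2 r • e0) r := by
    have e1 : (fun t : ℝ => fderiv ℝ W (t • ee 0) (ee 0)) =
        fun t => v1 t • Λ (ee 0) + u1 t • e0 := by
      funext t
      exact ray1 sW hP dv du t
    rw [e1]
    exact ((dv1 r).smul_const _).add ((du1 r).smul_const _)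
  have := h3.unique h4
  simpa using this

theorem circ (sW : ContDiff ℝ ∞ W) (hP : Pol Λ e0 W v u) (r : ℝ) (k : Fin N) (t : ℝ) :
    fderiv ℝ W (r • (Real.cos t • ee 0 + Real.sin t • ee k.succ))
      (r • (-Real.sin t • ee 0 + Real.cos t • ee k.succ)) =
    v r • (-Real.sin t • Λ (ee 0) + Real.cos t • Λ (ee k.succ)) := by
  have h1 : HasDerivAt (fun t : ℝ => r • (Real.cos t • (ee 0 : Eu (N + 1)) +
      Real.sin t • ee k.succ)) (r • (-Real.sin t • ee 0 + Real.cos t • ee k.succ)) t :=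
    (((Real.hasDerivAt_cos t).smul_const _).add ((Real.hasDerivAt_sin t).smul_const _)).const_smul r
  have h2 := ((sW.differentiable (by simp)).differentiableAt.hasFDerivAt
    (x := r • (Real.cos t • (ee 0 : Eu (N + 1)) + Real.sin t • ee k.succ))).comp_hasDerivAt t h1
  have h3 : HasDerivAt (W ∘ fun t : ℝ => r • (Real.cos t • (ee 0 : Eu (N + 1)) +
      Real.sin t • ee k.succ))
      (v r • (-Real.sin t • Λ (ee 0) + Real.cos t • Λ (ee k.succ))) t := by
    have e1 : (W ∘ fun t : ℝ => r • (Real.cos t • (ee 0 : Eu (N + 1)) +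
        Real.sin t • ee k.succ)) =
        fun t => v r • (Real.cos t • Λ (ee 0) + Real.sin t • Λ (ee k.succ)) + u r • e0 := by
      funext t
      show W (r • (Real.cos t • (ee 0 : Eu (N + 1)) + Real.sin t • ee k.succ)) = _
      rw [hP r _ (circle_unit k t), map_add, map_smul, map_smul]
    rw [e1]
    exact ((((Real.hasDerivAt_cos t).smul_const _).add
      ((Real.hasDerivAt_sin t).smul_const _)).const_smul (v r)).add_const _
  exact h2.unique h3

theorem ray1k (sW : ContDiff ℝ ∞ W) (hP : Pol Λ e0 W v u) {r : ℝ} (hr : r ≠ 0) (k : Fin N) :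
    fderiv ℝ W (r • ee 0) (ee k.succ) = (v r / r) • Λ (ee k.succ) := by
  have h1 := circ sW hP r k 0
  simp only [Real.cos_zero, Real.sin_zero, one_smul, zero_smul, add_zero, neg_zero,
    zero_add, map_smul] at h1
  have h2 : fderiv ℝ W (r • ee 0) (ee k.succ) =
      r⁻¹ • (r • fderiv ℝ W (r • ee 0) (ee k.succ)) := by
    rw [smul_smul, inv_mul_cancel₀ hr, one_smul]
  rw [h2, h1, smul_smul]
  congr 1
  rw [div_eq_inv_mul]

theorem ray2k (sW : ContDiff ℝ ∞ W) (hP : Pol Λ e0 W v u) (dv : ∀ r, HasDerivAt v (v1 r) r)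
    (du : ∀ r, HasDerivAt u (u1 r) r) {r : ℝ} (hr : r ≠ 0) (k : Fin N) :
    fderiv ℝ (fderiv ℝ W) (r • ee 0) (ee k.succ) (ee k.succ) =
      (v1 r / r - v r / r ^ 2) • Λ (ee 0) + (u1 r / r) • e0 := by
  have sf : ContDiff ℝ ∞ (fderiv ℝ W) := sW.fderiv_right (by simp)
  have h1 : HasDerivAt (fun t : ℝ => r • (Real.cos t • (ee 0 : Eu (N + 1)) +
      Real.sin t • ee k.succ)) (r • (-Real.sin 0 • ee 0 + Real.cos 0 • ee k.succ)) 0 :=
    (((Real.hasDerivAt_cos 0).smul_const _).add ((Real.hasDerivAt_sin 0).smul_const _)).const_smul r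
  have h1' : HasDerivAt (fun t : ℝ => r • (-Real.sin t • (ee 0 : Eu (N + 1)) +
      Real.cos t • ee k.succ)) (r • (-Real.cos 0 • ee 0 + -Real.sin 0 • ee k.succ)) 0 :=
    ((((Real.hasDerivAt_sin 0).neg).smul_const _).add
      ((Real.hasDerivAt_cos 0).smul_const _)).const_smul r
  have h2 := ((sf.differentiable (by simp)).differentiableAt.hasFDerivAt
    (x := r • (Real.cos 0 • (ee 0 : Eu (N + 1)) + Real.sin 0 • ee k.succ))).comp_hasDerivAt 0 h1
  have h3 := h2.clm_apply h1'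
  have h4 : HasDerivAt (fun t : ℝ => (fderiv ℝ W ∘ fun t : ℝ => r • (Real.cos t •
      (ee 0 : Eu (N + 1)) + Real.sin t • ee k.succ)) t
      (r • (-Real.sin t • (ee 0 : Eu (N + 1)) + Real.cos t • ee k.succ)))
      (v r • (-Real.cos 0 • Λ (ee 0) + -Real.sin 0 • Λ (ee k.succ))) 0 := by
    have e1 : (fun t : ℝ => (fderiv ℝ W ∘ fun t : ℝ => r • (Real.cos t •
      (ee 0 : Eu (N + 1)) + Real.sin t • ee k.succ)) t
      (r • (-Real.sin t • (ee 0 : Eu (N + 1)) + Real.cos t • ee k.succ))) =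
      fun t => v r • (-Real.sin t • Λ (ee 0) + Real.cos t • Λ (ee k.succ)) := by
      funext t
      exact circ sW hP r k t
    rw [e1]
    exact ((((Real.hasDerivAt_sin 0).neg).smul_const _).add
      ((Real.hasDerivAt_cos 0).smul_const _)).const_smul (v r)
  have h5 := h3.unique h4
  simp only [Function.comp_apply, Real.cos_zero, Real.sin_zero, one_smul, zero_smul, add_zero,
    neg_zero, zero_add, map_smul, neg_smul, _root_.smul_apply, map_neg] at h5
  rw [ray1 sW hP dv du r] at h5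
  have h6 : fderiv ℝ (fderiv ℝ W) (r • ee 0) (ee k.succ) (ee k.succ) =
      (r⁻¹ * r⁻¹) • (r • r • fderiv ℝ (fderiv ℝ W) (r • ee 0) (ee k.succ) (ee k.succ)) := by
    rw [smul_smul, smul_smul]
    have : r⁻¹ * r⁻¹ * r * r = 1 := by field_simp
    rw [this, one_smul]
  have h7 : r • r • fderiv ℝ (fderiv ℝ W) (r • ee 0) (ee k.succ) (ee k.succ) =
      v r • -Λ (ee 0) + r • (v1 r • Λ (ee 0) + u1 r • e0) := by
    rw [← h5]
    simp only [smul_neg]
    abel
  rw [h6, h7]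
  have e1 : v1 r / r - v r / r ^ 2 = (r⁻¹ * r⁻¹) * (r * v1 r - v r) := by
    field_simp
  have e2 : u1 r / r = (r⁻¹ * r⁻¹) * (r * u1 r) := by
    field_simp
  rw [e1, e2]
  simp only [smul_add, smul_neg, smul_smul, mul_sub, sub_smul, mul_assoc]
  abel

end

end Run7.h978
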