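import Mathlib
import Pool.Agent.Run7.h978.Geo3

set_option autoImplicit false

/-!
The Laplace operator along a ray of a rotational hypersurface, continued.
-/

open Set Filter Topology Matrix Module
open scoped RealInnerProductSpace ContDiff Manifold
open Helper772Chen (ee diffAt sm_fderiv symm2 fd_congr fd_apply_const sm_apply_const fd_inner
  sm_inner)

namespace Run7.h978

section

variable {N m : ℕ}

/-- the Laplacian where the metric is diagonal -/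
theorem lap_diag {n : ℕ} {X : Eu n → Eu m} {U : Set (Eu n)} (h : Imm X U) {V : Type*}
    [NormedAddCommGroup V] [NormedSpace ℝ V] {u : Eu n → V} (su : ContDiffOn ℝ ∞ u U) {x : Eu n}
    (hx : x ∈ U) {d : Fin n → ℝ} (hd : ∀ i, d i ≠ 0) (hM : metric X x = Matrix.diagonal d) :
    lap X u x = -(∑ i, (d i)⁻¹ • fderiv ℝ (fderiv ℝ u) x (ee i) (ee i) -
      ∑ k, ((d k)⁻¹ * ∑ i, (d i)⁻¹ * ⟪fderiv ℝ X x (ee k),
        fderiv ℝ (fderiv ℝ X) x (ee i) (ee i)⟫) • fderiv ℝ u x (ee k)) := by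
  have hinv : (metric X x)⁻¹ = Matrix.diagonal (fun i => (d i)⁻¹) := by
    rw [hM]
    refine Matrix.inv_eq_left_inv ?_
    rw [Matrix.diagonal_mul_diagonal]
    have : (fun i => (d i)⁻¹ * d i) = fun _ => (1 : ℝ) := by
      funext i
      exact inv_mul_cancel₀ (hd i)
    rw [this, Matrix.diagonal_one]
  have hphi : ∀ k, phi X k x = (d k)⁻¹ • fderiv ℝ X x (ee k) := by
    intro k
    rw [phi, hinv, Finset.sum_eq_single k]
    · rw [Matrix.diagonal_apply_eq]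
    · intro j _ hj
      rw [Matrix.diagonal_apply_ne _ hj.symm, zero_smul]
    · intro hk
      exact absurd (Finset.mem_univ _) hk
  have hpp : ∀ i j, ⟪phi X i x, phi X j x⟫ = if i = j then (d i)⁻¹ else 0 := by
    intro i j
    rw [h.ginv hx, hinv, Matrix.diagonal_apply]
  have hAA : ∀ k, AA X x k = -((d k)⁻¹ * ∑ i, (d i)⁻¹ * ⟪fderiv ℝ X x (ee k),
      fderiv ℝ (fderiv ℝ X) x (ee i) (ee i)⟫) := by
    intro k
    rw [h.AA_eq hx]
    congr 1
    rw [Finset.mul_sum]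
    refine Finset.sum_congr rfl fun i _ => ?_
    simp only [hpp, ite_mul, zero_mul, Finset.sum_ite_eq, Finset.mem_univ, if_true]
    rw [hphi, real_inner_smul_left]
    ring
  rw [h.lap_eq su hx]
  congr 1
  rw [sub_eq_add_neg]
  congr 1
  · refine Finset.sum_congr rfl fun i _ => ?_
    simp only [hpp, ite_smul, zero_smul, Finset.sum_ite_eq, Finset.mem_univ, if_true]
  · rw [← Finset.sum_neg_distrib]
    refine Finset.sum_congr rfl fun k _ => ?_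
    rw [hAA, neg_smul]

variable {Λ : Eu (N + 1) →ₗᵢ[ℝ] Eu m} {e0 : Eu m} {X W : Eu (N + 1) → Eu m}
  {f g f1 g1 f2 g2 v u v1 u1 v2 u2 : ℝ → ℝ}

theorem ax_inner (ax : Axis Λ e0) (a b c d : ℝ) :
    ⟪a • Λ (ee 0) + b • e0, c • Λ (ee 0) + d • e0⟫ = a * c + b * d := by
  have h1 : ⟪Λ (ee 0), Λ (ee 0)⟫ = 1 := by
    rw [Λ.inner_map_map, inner_ee, if_pos rfl]
  have h2 : ⟪Λ (ee 0), e0⟫ = 0 := ax.orth _
  have h3 : ⟪e0, Λ (ee 0)⟫ = 0 := by rw [real_inner_comm]; exact h2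
  simp only [inner_add_left, inner_add_right, real_inner_smul_left, real_inner_smul_right, h1, h2,
    h3, ax.unit]
  ring

theorem ax_inner_k (ax : Axis Λ e0) (k : Fin N) (a c d : ℝ) :
    ⟪a • Λ (ee k.succ), c • Λ (ee 0) + d • e0⟫ = 0 := by
  have h1 : ⟪Λ (ee k.succ), Λ (ee 0)⟫ = 0 := by
    rw [Λ.inner_map_map, inner_ee, if_neg (Fin.succ_ne_zero k)]
  have h2 : ⟪Λ (ee k.succ), e0⟫ = 0 := ax.orth _
  simp only [inner_add_right, real_inner_smul_left, real_inner_smul_right, h1, h2]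
  ring

theorem ax_inner_kl (k l : Fin N) (a c : ℝ) :
    ⟪a • Λ (ee k.succ), c • Λ (ee l.succ)⟫ = if k = l then a * c else 0 := by
  rw [real_inner_smul_left, real_inner_smul_right, Λ.inner_map_map, inner_ee]
  by_cases hkl : k = l
  · subst hkl
    simp
  · rw [if_neg hkl, if_neg fun h => hkl (Fin.succ_injective _ h)]
    ring

/-- the metric along the ray -/
theorem metric_ray (ax : Axis Λ e0) (sX : ContDiff ℝ ∞ X) (hP : Pol Λ e0 X f g)
    (df : ∀ r, HasDerivAt f (f1 r) r) (dg : ∀ r, HasDerivAt g (g1 r) r) {r : ℝ} (hr : r ≠ 0) :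
    metric X (r • ee 0) = Matrix.diagonal (Fin.cons (f1 r ^ 2 + g1 r ^ 2)
      (fun _ => (f r / r) ^ 2)) := by
  ext i j
  rw [metric_apply]
  refine Fin.cases ?_ (fun k => ?_) i <;> refine Fin.cases ?_ (fun l => ?_) j
  · rw [ray1 sX hP df dg, ax_inner ax, Matrix.diagonal_apply_eq, Fin.cons_zero]
    ring
  · rw [ray1 sX hP df dg, ray1k sX hP hr, real_inner_comm, ax_inner_k ax,
      Matrix.diagonal_apply_ne _ (Fin.succ_ne_zero l).symm]
  · rw [ray1 sX hP df dg, ray1k sX hP hr, ax_inner_k ax,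
      Matrix.diagonal_apply_ne _ (Fin.succ_ne_zero k)]
  · rw [ray1k sX hP hr, ray1k sX hP hr, ax_inner_kl]
    by_cases hkl : k = l
    · subst hkl
      rw [if_pos rfl, Matrix.diagonal_apply_eq, Fin.cons_succ]
      ring
    · rw [if_neg hkl, Matrix.diagonal_apply_ne _ fun h => hkl (Fin.succ_injective _ h)]

/-- the Laplacian along the ray -/
theorem lap_ray (ax : Axis Λ e0) (h : Imm X univ) (sX : ContDiff ℝ ∞ X) (sW : ContDiff ℝ ∞ W)
    (hX : Pol Λ e0 X f g) (hW : Pol Λ e0 W v u)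
    (df : ∀ r, HasDerivAt f (f1 r) r) (dg : ∀ r, HasDerivAt g (g1 r) r)
    (df1 : ∀ r, HasDerivAt f1 (f2 r) r) (dg1 : ∀ r, HasDerivAt g1 (g2 r) r)
    (dv : ∀ r, HasDerivAt v (v1 r) r) (du : ∀ r, HasDerivAt u (u1 r) r)
    (dv1 : ∀ r, HasDerivAt v1 (v2 r) r) (du1 : ∀ r, HasDerivAt u1 (u2 r) r) {r : ℝ} (hr : r ≠ 0)
    (hS : f1 r ^ 2 + g1 r ^ 2 ≠ 0) (hf : f r ≠ 0) :
    lap X W (r • ee 0) = -((v2 r / (f1 r ^ 2 + g1 r ^ 2) -
        (f1 r * f2 r + g1 r * g2 r) / (f1 r ^ 2 + g1 r ^ 2) ^ 2 * v1 r +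
        N * (f1 r / (f r * (f1 r ^ 2 + g1 r ^ 2)) * v1 r - v r / f r ^ 2)) • Λ (ee 0) +
      (u2 r / (f1 r ^ 2 + g1 r ^ 2) -
        (f1 r * f2 r + g1 r * g2 r) / (f1 r ^ 2 + g1 r ^ 2) ^ 2 * u1 r +
        N * (f1 r / (f r * (f1 r ^ 2 + g1 r ^ 2)) * u1 r)) • e0) := by
  set S := f1 r ^ 2 + g1 r ^ 2 with hSdef
  have hd : ∀ i : Fin (N + 1), (Fin.cons S (fun _ => (f r / r) ^ 2) : Fin (N + 1) → ℝ) i ≠ 0 := by
    intro i
    refine Fin.cases ?_ (fun k => ?_) i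
    · rw [Fin.cons_zero]
      exact hS
    · rw [Fin.cons_succ]
      exact pow_ne_zero 2 (div_ne_zero hf hr)
  rw [lap_diag h sW.contDiffOn (mem_univ _) hd (metric_ray ax sX hX df dg hr)]
  congr 1
  simp only [Fin.sum_univ_succ, Fin.cons_zero, Fin.cons_succ]
  rw [ray2 sX hX df dg df1 dg1, ray2 sW hW dv du dv1 du1, ray1 sX hX df dg, ray1 sW hW dv du,
    ax_inner ax]
  simp only [ray2k sX hX df dg hr, ray2k sW hW dv du hr, ray1k sX hX hr, ray1k sW hW hr,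
    ax_inner ax, ax_inner_k ax, mul_zero, Finset.sum_const_zero, add_zero, zero_smul,
    Finset.sum_const, Finset.card_univ, Fintype.card_fin]
  rw [← Nat.cast_smul_eq_nsmul ℝ, ← Nat.cast_smul_eq_nsmul ℝ]
  simp only [smul_add, smul_smul, smul_eq_mul]
  have key : ∀ a b c a' b' c' A B : ℝ, a + b - c = A → a' + b' - c' = B →
      (a • Λ (ee 0) + a' • e0 + (b • Λ (ee 0) + b' • e0) - (c • Λ (ee 0) + c' • e0) : Eu m) =
      A • Λ (ee 0) + B • e0 := by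
    intro a b c a' b' c' A B hA hB
    rw [← hA, ← hB]
    simp only [sub_smul, add_smul]
    abel
  refine key _ _ _ _ _ _ _ _ ?_ ?_
  · field_simp
    ring
  · field_simp
    ring

/-- the equations of the profile functions of an eigenmap -/
theorem eigen_ray (ax : Axis Λ e0) (h : Imm X univ) (sX : ContDiff ℝ ∞ X) (sW : ContDiff ℝ ∞ W)
    (hX : Pol Λ e0 X f g) (hW : Pol Λ e0 W v u)
    (df : ∀ r, HasDerivAt f (f1 r) r) (dg : ∀ r, HasDerivAt g (g1 r) r)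
    (df1 : ∀ r, HasDerivAt f1 (f2 r) r) (dg1 : ∀ r, HasDerivAt g1 (g2 r) r)
    (dv : ∀ r, HasDerivAt v (v1 r) r) (du : ∀ r, HasDerivAt u (u1 r) r)
    (dv1 : ∀ r, HasDerivAt v1 (v2 r) r) (du1 : ∀ r, HasDerivAt u1 (u2 r) r) {r : ℝ} (hr : r ≠ 0)
    (hS : f1 r ^ 2 + g1 r ^ 2 ≠ 0) (hf : f r ≠ 0) {μ : ℝ}
    (hμ : lap X W (r • ee 0) = μ • W (r • ee 0)) :
    f r ^ 2 * (f1 r ^ 2 + g1 r ^ 2) * v2 r - f r ^ 2 * (f1 r * f2 r + g1 r * g2 r) * v1 r +
      N * (f r * f1 r * (f1 r ^ 2 + g1 r ^ 2) * v1 r - (f1 r ^ 2 + g1 r ^ 2) ^ 2 * v r) =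
      -(μ * (f1 r ^ 2 + g1 r ^ 2) ^ 2 * f r ^ 2 * v r) ∧
    f r ^ 2 * (f1 r ^ 2 + g1 r ^ 2) * u2 r - f r ^ 2 * (f1 r * f2 r + g1 r * g2 r) * u1 r +
      N * (f r * f1 r * (f1 r ^ 2 + g1 r ^ 2) * u1 r) =
      -(μ * (f1 r ^ 2 + g1 r ^ 2) ^ 2 * f r ^ 2 * u r) := by
  rw [lap_ray ax h sX sW hX hW df dg df1 dg1 dv du dv1 du1 hr hS hf, hW r (ee 0) (norm_ee 0)] at hμ
  set S := f1 r ^ 2 + g1 r ^ 2 with hSdef
  have e1 := congrArg (fun w => ⟪w, (1 : ℝ) • Λ (ee 0) + (0 : ℝ) • e0⟫) hμ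
  have e2 := congrArg (fun w => ⟪w, (0 : ℝ) • Λ (ee 0) + (1 : ℝ) • e0⟫) hμ
  simp only [inner_neg_left, real_inner_smul_left, ax_inner ax] at e1 e2
  constructor
  · field_simp at e1
    linear_combination -e1
  · field_simp at e2
    refine mul_left_cancel₀ hf ?_
    linear_combination (-(f r)) * e2

end

end Run7.h978
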