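import Mathlib

set_option autoImplicit false

/-!
Elementary lemmas on scalar differential equations at infinity.
-/

open Set Filter Topology

namespace Run7.h978.Rot

theorem mono_ge {f f' : ℝ → ℝ} {a : ℝ} (h : ∀ t, a ≤ t → HasDerivAt f (f' t) t)
    (h0 : ∀ t, a ≤ t → 0 ≤ f' t) {t : ℝ} (ht : a ≤ t) : f a ≤ f t := by
  have hm : MonotoneOn f (Ici a) := by
    apply monotoneOn_of_deriv_nonneg (convex_Ici a)
    · intro x hx
      exact (h x hx).continuousAt.continuousWithinAt
    · intro x hx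
      rw [interior_Ici] at hx
      exact (h x (le_of_lt hx)).differentiableAt.differentiableWithinAt
    · intro x hx
      rw [interior_Ici] at hx
      rw [(h x (le_of_lt hx)).deriv]
      exact h0 x (le_of_lt hx)
  exact hm self_mem_Ici ht ht

theorem mono_le {f f' : ℝ → ℝ} {a : ℝ} (h : ∀ t, a ≤ t → HasDerivAt f (f' t) t)
    (h0 : ∀ t, a ≤ t → f' t ≤ 0) {t : ℝ} (ht : a ≤ t) : f t ≤ f a := by
  have := mono_ge (f := fun t => -f t) (f' := fun t => -f' t) (fun t ht => (h t ht).neg)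
    (fun t ht => by simpa using h0 t ht) ht
  linarith

/-- decay for `y' = -p y + b`, `p ≥ c > 0`, `b → 0` -/
theorem ode_zero {y p b : ℝ → ℝ} {c : ℝ} (hc : 0 < c)
    (hy : ∀ᶠ t in atTop, HasDerivAt y (-p t * y t + b t) t) (hp : ∀ᶠ t in atTop, c ≤ p t)
    (hb : Tendsto b atTop (𝓝 0)) : Tendsto y atTop (𝓝 0) := by
  have key : ∀ ε : ℝ, 0 < ε → ∀ᶠ t in atTop, y t ^ 2 ≤ ε := by
    intro ε hε
    have hb2 : ∀ᶠ t in atTop, b t ^ 2 / c ≤ c * (ε / 2) := by
      have h1 : Tendsto (fun t => b t ^ 2 / c) atTop (𝓝 (0 ^ 2 / c)) := (hb.pow 2).div_const c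
      have h2 : (0 : ℝ) ^ 2 / c < c * (ε / 2) := by
        rw [zero_pow two_ne_zero, zero_div]
        positivity
      exact (h1.eventually (gt_mem_nhds h2)).mono fun t ht => ht.le
    obtain ⟨T, hT⟩ := eventually_atTop.1 ((hy.and hp).and hb2)
    have hd : ∀ t, T ≤ t → HasDerivAt (fun t => Real.exp (c * t) * (y t ^ 2 - ε / 2))
        (Real.exp (c * t) * (c * 1) * (y t ^ 2 - ε / 2) +
          Real.exp (c * t) * ((2 : ℕ) * y t ^ (2 - 1) * (-p t * y t + b t) - 0)) t := by
      intro t ht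
      have h1 : HasDerivAt (fun t => Real.exp (c * t)) (Real.exp (c * t) * (c * 1)) t :=
        ((hasDerivAt_id t).const_mul c).exp
      have h2 := ((hT t ht).1.1.pow 2).sub (hasDerivAt_const t (ε / 2))
      exact h1.mul h2
    have hneg : ∀ t, T ≤ t → Real.exp (c * t) * (c * 1) * (y t ^ 2 - ε / 2) +
          Real.exp (c * t) * ((2 : ℕ) * y t ^ (2 - 1) * (-p t * y t + b t) - 0) ≤ 0 := by
      intro t ht
      have h1 := (hT t ht).1.2
      have h2 := (hT t ht).2
      have h3 : 2 * b t * y t ≤ c * y t ^ 2 + b t ^ 2 / c := by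
        have h4 : 0 ≤ (c * y t - b t) ^ 2 / c := by positivity
        have h5 : (c * y t - b t) ^ 2 / c = c * y t ^ 2 - 2 * b t * y t + b t ^ 2 / c := by
          field_simp
          ring
        linarith
      have h6 : c * y t ^ 2 ≤ p t * y t ^ 2 := mul_le_mul_of_nonneg_right h1 (sq_nonneg _)
      have h7 : c * (y t ^ 2 - ε / 2) + 2 * y t * (-p t * y t + b t) ≤ 0 := by nlinarith
      have h8 : Real.exp (c * t) * (c * 1) * (y t ^ 2 - ε / 2) +
          Real.exp (c * t) * ((2 : ℕ) * y t ^ (2 - 1) * (-p t * y t + b t) - 0) =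
          Real.exp (c * t) * (c * (y t ^ 2 - ε / 2) + 2 * y t * (-p t * y t + b t)) := by
        push_cast
        ring
      rw [h8]
      exact mul_nonpos_of_nonneg_of_nonpos (Real.exp_pos _).le h7
    have hfin : ∀ t, T ≤ t → y t ^ 2 ≤ ε / 2 + Real.exp (-(c * (t - T))) * y T ^ 2 := by
      intro t ht
      have h1 := mono_le hd hneg ht
      have h2 : Real.exp (c * t) * (y t ^ 2 - ε / 2) ≤ Real.exp (c * T) * y T ^ 2 := by
        have : 0 ≤ Real.exp (c * T) * (ε / 2) := by positivity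
        nlinarith
      have h3 : Real.exp (c * T) = Real.exp (c * t) * Real.exp (-(c * (t - T))) := by
        rw [← Real.exp_add]
        congr 1
        ring
      rw [h3, mul_assoc] at h2
      have h4 := le_of_mul_le_mul_left h2 (Real.exp_pos _)
      linarith
    have hlim : Tendsto (fun t => Real.exp (-(c * (t - T))) * y T ^ 2) atTop (𝓝 0) := by
      have h1 : Tendsto (fun t : ℝ => c * (t - T)) atTop atTop :=
        (tendsto_atTop_add_const_right _ _ tendsto_id).const_mul_atTop hc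
      have h2 := (Real.tendsto_exp_neg_atTop_nhds_zero.comp h1).mul_const (y T ^ 2)
      rw [zero_mul] at h2
      exact h2
    have hev := hlim.eventually (gt_mem_nhds (half_pos hε))
    filter_upwards [hev, eventually_ge_atTop T] with t h1 h2
    have := hfin t h2
    linarith
  rw [Metric.tendsto_atTop]
  intro ε hε
  obtain ⟨T, hT⟩ := eventually_atTop.1 (key (ε ^ 2 / 4) (by positivity))
  refine ⟨T, fun t ht => ?_⟩
  have h1 := hT t ht
  rw [Real.dist_0_eq_abs]
  have h2 : |y t| ^ 2 ≤ (ε / 2) ^ 2 := by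
    rw [sq_abs]
    calc y t ^ 2 ≤ ε ^ 2 / 4 := h1
      _ = (ε / 2) ^ 2 := by ring
  have h3 := abs_le_of_sq_le_sq' h2 (by positivity)
  have h4 : |y t| ≤ ε / 2 := h3.2
  linarith

/-- convergence for `y' = -p y + b` -/
theorem ode_lim {y p b : ℝ → ℝ} {p0 b0 : ℝ} (hp0 : 0 < p0)
    (hy : ∀ᶠ t in atTop, HasDerivAt y (-p t * y t + b t) t) (hp : Tendsto p atTop (𝓝 p0))
    (hb : Tendsto b atTop (𝓝 b0)) : Tendsto y atTop (𝓝 (b0 / p0)) := by
  have h1 : Tendsto (fun t => y t - b0 / p0) atTop (𝓝 0) := by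
    refine ode_zero (p := p) (b := fun t => b t - p t * (b0 / p0)) (half_pos hp0) ?_ ?_ ?_
    · filter_upwards [hy] with t ht
      have := ht.sub_const (b0 / p0)
      refine this.congr_deriv ?_
      ring
    · exact (hp.eventually (lt_mem_nhds (half_lt_self hp0))).mono fun t ht => ht.le
    · have := hb.sub (hp.mul_const (b0 / p0))
      have h2 : b0 - p0 * (b0 / p0) = 0 := by
        field_simp
        ring
      rwa [h2] at this
  have h2 := h1.add_const (b0 / p0)
  simpa using h2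

/-- `y' = y g`, `g → g0 > 0` and `y > 0`: then `y → ∞` -/
theorem ode_grow {y g : ℝ → ℝ} {g0 : ℝ} (hg0 : 0 < g0)
    (hy : ∀ᶠ t in atTop, HasDerivAt y (y t * g t) t) (hpos : ∀ᶠ t in atTop, 0 < y t)
    (hg : Tendsto g atTop (𝓝 g0)) : Tendsto y atTop atTop := by
  have h1 : Tendsto (fun t => (y t)⁻¹) atTop (𝓝 0) := by
    refine ode_zero (p := g) (b := fun _ => 0) (half_pos hg0) ?_ ?_ tendsto_const_nhds
    · filter_upwards [hy, hpos] with t h1 h2
      refine (h1.inv h2.ne').congr_deriv ?_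
      field_simp
      ring
    · exact (hg.eventually (lt_mem_nhds (half_lt_self hg0))).mono fun t ht => ht.le
  have h2 : Tendsto (fun t => (y t)⁻¹) atTop (𝓝[>] 0) := by
    rw [tendsto_nhdsWithin_iff]
    refine ⟨h1, ?_⟩
    filter_upwards [hpos] with t ht
    exact inv_pos.2 ht
  have h3 := h2.inv_tendsto_nhdsGT_zero
  refine h3.congr' ?_
  filter_upwards [hpos] with t ht
  simp

/-- `y' = y g`, `g → g0 < 0`: then `y → 0` -/
theorem ode_decay {y g : ℝ → ℝ} {g0 : ℝ} (hg0 : g0 < 0)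
    (hy : ∀ᶠ t in atTop, HasDerivAt y (y t * g t) t)
    (hg : Tendsto g atTop (𝓝 g0)) : Tendsto y atTop (𝓝 0) := by
  refine ode_zero (p := fun t => -g t) (b := fun _ => 0) (c := -g0 / 2) (by linarith) ?_ ?_
    tendsto_const_nhds
  · filter_upwards [hy] with t h1
    refine h1.congr_deriv ?_
    ring
  · have : g0 < g0 / 2 := by linarith
    filter_upwards [hg.eventually (gt_mem_nhds this)] with t ht
    linarith

end Run7.h978.Rot
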