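import Mathlib
import Pool.Agent.Run7.h978.Asy1

set_option autoImplicit false

/-!
The asymptotics of the system of the profile functions, in the rotated (Lorentzian) regime.
-/

open Set Filter Topology

namespace Run7.h978.Rot

section

variable {ι : Type} [Fintype ι]

/-- weighted sum -/
noncomputable def sm (a : ι → ℝ) (f : ι → ℝ → ℝ) (t : ℝ) : ℝ := ∑ l, a l * f l t

/-- logarithmic derivative -/
noncomputable def rr (P P1 : ι → ℝ → ℝ) (i : ι) (t : ℝ) : ℝ := P1 i t / P i t

/-- `φ' / φ` -/
noncomputable def hh (a : ι → ℝ) (P P1 : ι → ℝ → ℝ) (t : ℝ) : ℝ := sm a P1 t / sm a P t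

/-- `1 / φ ^ 2` -/
noncomputable def qq (a : ι → ℝ) (P : ι → ℝ → ℝ) (t : ℝ) : ℝ := 1 / sm a P t ^ 2

/-- the system -/
structure WS (N : ℕ) (lam a d : ι → ℝ) (P P1 U U1 : ι → ℝ → ℝ) : Prop where
  lampos : ∀ i, 0 < lam i
  lamne : Function.Injective lam
  dP : ∀ i t, 0 < t → HasDerivAt (P i) (P1 i t) t
  dP1 : ∀ i t, 0 < t → HasDerivAt (P1 i)
    (lam i * P i t + N * qq a P t * P i t - N * hh a P P1 t * P1 i t) t
  dU : ∀ i t, 0 < t → HasDerivAt (U i) (U1 i t) t
  dU1 : ∀ i t, 0 < t → HasDerivAt (U1 i) (lam i * U i t - N * hh a P P1 t * U1 i t) t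
  posP : ∀ i t, 0 < t → 0 < P i t
  posP1 : ∀ i t, 0 < t → 0 < P1 i t
  posU : ∀ i t, 0 < t → 0 < U i t
  posU1 : ∀ i t, 0 < t → 0 < U1 i t
  posZ : ∀ i t, 0 < t → 0 < P1 i t * U i t - P i t * U1 i t
  posph : ∀ t, 0 < t → 0 < sm a P t
  ph1 : ∀ t, 0 < t → 1 ≤ sm a P1 t
  con : ∀ t, 0 < t → sm a P1 t ^ 2 - sm d U1 t ^ 2 = 1

namespace WS

variable {N : ℕ} {lam a d : ι → ℝ} {P P1 U U1 : ι → ℝ → ℝ} (w : WS N lam a d P P1 U U1)
include w

theorem d_sm {t : ℝ} (ht : 0 < t) : HasDerivAt (sm a P) (sm a P1 t) t := by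
  unfold sm
  exact HasDerivAt.fun_sum fun i _ => (w.dP i t ht).const_mul (a i)

theorem d_q {t : ℝ} (ht : 0 < t) :
    HasDerivAt (qq a P) (-2 * hh a P P1 t * qq a P t) t := by
  have hp := (w.posph t ht).ne'
  have h1 := ((w.d_sm ht).pow 2).inv (pow_ne_zero 2 hp)
  have h2 : qq a P = fun t => (sm a P t ^ 2)⁻¹ := by
    funext t
    rw [qq, one_div]
  rw [h2]
  refine h1.congr_deriv ?_
  rw [hh]
  simp only [Pi.pow_apply]
  field_simp
  ring

theorem d_R (i : ι) {t : ℝ} (ht : 0 < t) : HasDerivAt (rr P P1 i)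
    (lam i + N * qq a P t - rr P P1 i t ^ 2 - N * hh a P P1 t * rr P P1 i t) t := by
  have hp := (w.posP i t ht).ne'
  have h1 := (w.dP1 i t ht).div (w.dP i t ht) hp
  refine h1.congr_deriv ?_
  rw [rr]
  field_simp
  ring

theorem d_S (i : ι) {t : ℝ} (ht : 0 < t) : HasDerivAt (rr U U1 i)
    (lam i - rr U U1 i t ^ 2 - N * hh a P P1 t * rr U U1 i t) t := by
  have hp := (w.posU i t ht).ne'
  have h1 := (w.dU1 i t ht).div (w.dU i t ht) hp
  refine h1.congr_deriv ?_
  rw [rr]
  field_simp
  ring

theorem pos_q {t : ℝ} (ht : 0 < t) : 0 < qq a P t := by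
  have := w.posph t ht
  rw [qq]
  positivity

theorem pos_h {t : ℝ} (ht : 0 < t) : 0 < hh a P P1 t :=
  div_pos (lt_of_lt_of_le one_pos (w.ph1 t ht)) (w.posph t ht)

theorem pos_R (i : ι) {t : ℝ} (ht : 0 < t) : 0 < rr P P1 i t :=
  div_pos (w.posP1 i t ht) (w.posP i t ht)

theorem pos_S (i : ι) {t : ℝ} (ht : 0 < t) : 0 < rr U U1 i t :=
  div_pos (w.posU1 i t ht) (w.posU i t ht)

theorem pos_del (i : ι) {t : ℝ} (ht : 0 < t) : 0 < rr P P1 i t - rr U U1 i t := by
  have h1 := w.posP i t ht
  have h2 := w.posU i t ht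
  have h3 := w.posZ i t ht
  rw [rr, rr, div_sub_div _ _ h1.ne' h2.ne']
  exact div_pos h3 (mul_pos h1 h2)

theorem d_del (i : ι) {t : ℝ} (ht : 0 < t) :
    HasDerivAt (fun t => rr P P1 i t - rr U U1 i t)
      (N * qq a P t - (rr P P1 i t + rr U U1 i t + N * hh a P P1 t) *
        (rr P P1 i t - rr U U1 i t)) t := by
  refine ((w.d_R i ht).sub (w.d_S i ht)).congr_deriv ?_
  ring

/-- the functions are increasing -/
theorem mono_P (i : ι) {s t : ℝ} (hs : 0 < s) (hst : s ≤ t) : P i s ≤ P i t :=
  mono_ge (fun x hx => w.dP i x (lt_of_lt_of_le hs hx))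
    (fun x hx => (w.posP1 i x (lt_of_lt_of_le hs hx)).le) hst

theorem mono_ph {s t : ℝ} (hs : 0 < s) (hst : s ≤ t) : sm a P s + (t - s) ≤ sm a P t := by
  have h1 := mono_ge (f := fun x => sm a P x - x) (f' := fun x => sm a P1 x - 1) (a := s)
    (fun x hx => (w.d_sm (lt_of_lt_of_le hs hx)).sub (hasDerivAt_id x))
    (fun x hx => by have := w.ph1 x (lt_of_lt_of_le hs hx); linarith) hst
  linarith

theorem ph_atTop : Tendsto (sm a P) atTop atTop := by
  have h1 : Tendsto (fun t : ℝ => sm a P 1 + (t - 1)) atTop atTop := by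
    have := tendsto_atTop_add_const_right atTop (-1 : ℝ) (tendsto_id (α := ℝ) (x := atTop))
    exact tendsto_atTop_add_const_left _ _ this
  refine tendsto_atTop_mono' atTop ?_ h1
  filter_upwards [eventually_ge_atTop 1] with t ht
  exact w.mono_ph one_pos ht

theorem lim_q : Tendsto (qq a P) atTop (𝓝 0) := by
  have h1 : Tendsto (fun t => sm a P t ^ 2) atTop atTop :=
    (tendsto_pow_atTop two_ne_zero).comp w.ph_atTop
  have h2 := h1.inv_tendsto_atTop
  refine h2.congr fun t => ?_
  rw [qq, one_div]
  rfl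

/-- linear growth bound -/
theorem exists_K : ∃ K : ℝ, 1 ≤ K ∧ ∀ i t, 1 ≤ t → P1 i t ≤ K * P i t := by
  classical
  have h1 : ∀ i, ∃ K : ℝ, 1 ≤ K ∧ ∀ t, 1 ≤ t → P1 i t ≤ K * P i t := by
    intro i
    set c := lam i + N * qq a P 1 with hc
    have hc0 : 0 < c := by
      have h1 := w.lampos i
      have h2 := w.pos_q one_pos
      positivity
    set K := 1 + |rr P P1 i 1| + c with hK
    have hK1 : 1 ≤ K := by
      have := abs_nonneg (rr P P1 i 1)
      linarith
    have hKc : c ≤ K ^ 2 := by
      have := abs_nonneg (rr P P1 i 1)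
      nlinarith
    refine ⟨K, hK1, fun t ht => ?_⟩
    have h2 := mono_ge (f := fun t => Real.exp (K * t) * (K * P i t - P1 i t))
      (f' := fun t => Real.exp (K * t) * (K * 1) * (K * P i t - P1 i t) +
        Real.exp (K * t) * (K * P1 i t - (lam i * P i t + N * qq a P t * P i t -
          N * hh a P P1 t * P1 i t))) (a := 1)
      (fun x hx => by
        have hx0 : 0 < x := lt_of_lt_of_le one_pos hx
        exact (((hasDerivAt_id x).const_mul K).exp).mul
          (((w.dP i x hx0).const_mul K).sub (w.dP1 i x hx0)))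
      (fun x hx => by
        have hx0 : 0 < x := lt_of_lt_of_le one_pos hx
        have hq : qq a P x ≤ qq a P 1 := by
          have h3 := w.mono_ph one_pos hx
          have h4 := w.posph 1 one_pos
          rw [qq, qq]
          apply one_div_le_one_div_of_le (by positivity)
          apply pow_le_pow_left₀ h4.le
          linarith
        have hP := w.posP i x hx0
        have h5 : 0 ≤ N * hh a P P1 x * P1 i x := by
          have := w.pos_h hx0
          have := w.posP1 i x hx0
          positivity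
        have h6 : N * qq a P x * P i x ≤ N * qq a P 1 * P i x := by gcongr
        have h7 : (lam i + N * qq a P 1) * P i x ≤ K ^ 2 * P i x := by gcongr
        have h8 : Real.exp (K * x) * (K * 1) * (K * P i x - P1 i x) +
          Real.exp (K * x) * (K * P1 i x - (lam i * P i x + N * qq a P x * P i x -
            N * hh a P P1 x * P1 i x)) = Real.exp (K * x) * (K ^ 2 * P i x -
            (lam i * P i x + N * qq a P x * P i x - N * hh a P P1 x * P1 i x)) := by ring
        rw [h8]
        apply mul_nonneg (Real.exp_pos _).le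
        nlinarith) ht
    have h3 : 0 ≤ Real.exp (K * 1) * (K * P i 1 - P1 i 1) := by
      apply mul_nonneg (Real.exp_pos _).le
      have hP := w.posP i 1 one_pos
      have h4 : rr P P1 i 1 ≤ K := by
        have := le_abs_self (rr P P1 i 1)
        linarith
      rw [rr, div_le_iff₀ hP] at h4
      linarith
    have h4 := h3.trans h2
    have h5 := (mul_nonneg_iff_of_pos_left (Real.exp_pos (K * t))).1 h4
    linarith
  choose K hK1 hK using h1
  refine ⟨1 + ∑ i, K i, ?_, fun i t ht => ?_⟩
  · have : 0 ≤ ∑ i, K i := Finset.sum_nonneg fun i _ => by have := hK1 i; linarith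
    linarith
  · have h1 : K i ≤ ∑ i, K i :=
      Finset.single_le_sum (f := K) (fun i _ => by have := hK1 i; linarith) (Finset.mem_univ i)
    have h2 := w.posP i t (lt_of_lt_of_le one_pos ht)
    calc P1 i t ≤ K i * P i t := hK i t ht
      _ ≤ (1 + ∑ i, K i) * P i t := by gcongr; linarith

theorem R_le {K : ℝ} (hK : ∀ i t, 1 ≤ t → P1 i t ≤ K * P i t) (i : ι) {t : ℝ} (ht : 1 ≤ t) :
    rr P P1 i t ≤ K := by
  rw [rr, div_le_iff₀ (w.posP i t (lt_of_lt_of_le one_pos ht))]
  exact hK i t ht

/-- exponential bound -/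
theorem P_le {K : ℝ} (hK : ∀ i t, 1 ≤ t → P1 i t ≤ K * P i t) (i : ι) {t : ℝ} (ht : 1 ≤ t) :
    P i t ≤ P i 1 * Real.exp (K * (t - 1)) := by
  have h2 := mono_le (f := fun t => Real.exp (-(K * t)) * P i t)
    (f' := fun t => Real.exp (-(K * t)) * (-(K * 1)) * P i t + Real.exp (-(K * t)) * P1 i t)
    (a := 1)
    (fun x hx => ((((hasDerivAt_id x).const_mul K).neg).exp).mul
      (w.dP i x (lt_of_lt_of_le one_pos hx)))
    (fun x hx => by
      have h1 := hK i x hx
      have h3 : Real.exp (-(K * x)) * (-(K * 1)) * P i x + Real.exp (-(K * x)) * P1 i x =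
        Real.exp (-(K * x)) * (P1 i x - K * P i x) := by ring
      rw [h3]
      exact mul_nonpos_of_nonneg_of_nonpos (Real.exp_pos _).le (by linarith)) ht
  have h3 : P i 1 * Real.exp (K * (t - 1)) =
      Real.exp (K * t) * (Real.exp (-(K * 1)) * P i 1) := by
    have : Real.exp (K * (t - 1)) = Real.exp (K * t) * Real.exp (-(K * 1)) := by
      rw [← Real.exp_add]
      congr 1
      ring
    rw [this]
    ring
  rw [h3]
  have h4 : P i t = Real.exp (K * t) * (Real.exp (-(K * t)) * P i t) := by
    rw [← mul_assoc, ← Real.exp_add]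
    simp
  rw [h4]
  gcongr

/-- dominance: a smaller eigenvalue gives a smaller solution -/
theorem dom {m i : ι} (hmi : lam i < lam m) : Tendsto (fun t => P i t / P m t) atTop (𝓝 0) := by
  obtain ⟨K, hK1, hK⟩ := w.exists_K
  set Λ := lam m - lam i with hΛ
  have hΛ0 : 0 < Λ := by linarith
  -- the Wronskian
  set Y : ℝ → ℝ := fun t => sm a P t ^ N * (P1 m t * P i t - P m t * P1 i t) with hY
  have dY : ∀ t, 0 < t → HasDerivAt Y (Λ * (sm a P t ^ N * (P m t * P i t))) t := by
    intro t ht
    have h1 := ((w.d_sm ht).pow N).mul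
      (((w.dP1 m t ht).mul (w.dP i t ht)).sub ((w.dP m t ht).mul (w.dP1 i t ht)))
    refine h1.congr_deriv ?_
    have hp := (w.posph t ht).ne'
    simp only [Pi.pow_apply, Pi.sub_apply, Pi.mul_apply]
    rcases Nat.eq_zero_or_pos N with hN | hN
    · subst hN
      simp
      ring
    · obtain ⟨M, rfl⟩ : ∃ M, N = M + 1 := ⟨N - 1, by omega⟩
      simp only [Nat.add_sub_cancel, hh]
      field_simp
      push_cast
      ring
  set c0 : ℝ := Λ * (sm a P 1 ^ N * (P m 1 * P i 1)) with hc0
  have hc0p : 0 < c0 := by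
    have h1 := w.posph 1 one_pos
    have h2 := w.posP m 1 one_pos
    have h3 := w.posP i 1 one_pos
    positivity
  have hYg : ∀ t, 1 ≤ t → Y 1 + c0 * (t - 1) ≤ Y t := by
    intro t ht
    have h1 := mono_ge (f := fun x => Y x - c0 * x)
      (f' := fun x => Λ * (sm a P x ^ N * (P m x * P i x)) - c0 * 1) (a := 1)
      (fun x hx => (dY x (lt_of_lt_of_le one_pos hx)).sub ((hasDerivAt_id x).const_mul c0))
      (fun x hx => by
        have h2 := w.mono_ph one_pos hx
        have h3 := w.mono_P m one_pos hx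
        have h4 := w.mono_P i one_pos hx
        have h5 := w.posph 1 one_pos
        have h6 := w.posP m 1 one_pos
        have h7 := w.posP i 1 one_pos
        have h8 : sm a P 1 ^ N ≤ sm a P x ^ N := pow_le_pow_left₀ h5.le (by linarith) N
        have h9 : sm a P 1 ^ N * (P m 1 * P i 1) ≤ sm a P x ^ N * (P m x * P i x) := by
          have k1 : 0 < sm a P x ^ N := lt_of_lt_of_le (by positivity) h8
          have k2 : 0 < P m x := by linarith
          gcongr
        have h10 := mul_le_mul_of_nonneg_left h9 hΛ0.le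
        rw [hc0]
        linarith) ht
    linarith
  -- from a time on, `Y > 0`
  obtain ⟨T, hT1, hT⟩ : ∃ T, 1 ≤ T ∧ ∀ t, T ≤ t → 0 < Y t := by
    refine ⟨2 + |Y 1| / c0, ?_, fun t ht => ?_⟩
    · have : 0 ≤ |Y 1| / c0 := by positivity
      linarith
    · have h1 : 0 ≤ |Y 1| / c0 := by positivity
      have h2 := hYg t (by linarith)
      have h3 : c0 * (1 + |Y 1| / c0) ≤ c0 * (t - 1) := by
        apply mul_le_mul_of_nonneg_left _ hc0p.le
        linarith
      have h4 : c0 * (1 + |Y 1| / c0) = c0 + |Y 1| := by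
        field_simp
      have := neg_abs_le (Y 1)
      linarith
  have hT0 : 0 < T := by linarith
  -- upper bound of `log Y`
  obtain ⟨C1, hC1⟩ : ∃ C1 : ℝ, ∀ t, T ≤ t → Real.log (Y t) ≤ C1 + (N + 2) * K * (t - 1) := by
    set A0 : ℝ := 1 + ∑ l, |a l| * P l 1 with hA0
    have hA0p : 0 < A0 := by
      have : 0 ≤ ∑ l, |a l| * P l 1 := Finset.sum_nonneg fun l _ => by
        have := w.posP l 1 one_pos
        positivity
      linarith
    have hph : ∀ t, 1 ≤ t → sm a P t ≤ A0 * Real.exp (K * (t - 1)) := by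
      intro t ht
      calc sm a P t ≤ ∑ l, |a l| * (P l 1 * Real.exp (K * (t - 1))) := by
            unfold sm
            apply Finset.sum_le_sum
            intro l _
            have h1 := w.P_le hK l ht
            have h2 := w.posP l t (by linarith)
            have h3 := le_abs_self (a l)
            calc a l * P l t ≤ |a l| * P l t := by gcongr
              _ ≤ _ := by gcongr
        _ = (∑ l, |a l| * P l 1) * Real.exp (K * (t - 1)) := by
            rw [Finset.sum_mul]
            exact Finset.sum_congr rfl fun l _ => by ring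
        _ ≤ A0 * Real.exp (K * (t - 1)) := by
            gcongr
            linarith
    refine ⟨Real.log (A0 ^ N * (K * (P m 1 * P i 1))), fun t ht => ?_⟩
    have ht1 : 1 ≤ t := by linarith
    have ht0 : 0 < t := by linarith
    have h1 : Y t ≤ A0 ^ N * (K * (P m 1 * P i 1)) * Real.exp ((N + 2) * K * (t - 1)) := by
      have h2 := w.posP m t ht0
      have h3 := w.posP i t ht0
      have h4 := w.posP1 i t ht0
      have h5 := hK m t ht1
      have h6 := w.P_le hK m ht1
      have h7 := w.P_le hK i ht1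
      have h8 := hph t ht1
      have h9 := w.posph t ht0
      have h10 := w.posP m 1 one_pos
      have h11 := w.posP i 1 one_pos
      calc Y t ≤ sm a P t ^ N * (K * P m t * P i t) := by
            rw [hY]
            simp only
            apply mul_le_mul_of_nonneg_left _ (by positivity)
            have : P1 m t * P i t ≤ K * P m t * P i t := by gcongr
            have : 0 ≤ P m t * P1 i t := by positivity
            linarith
        _ ≤ (A0 * Real.exp (K * (t - 1))) ^ N * (K * (P m 1 * Real.exp (K * (t - 1))) *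
              (P i 1 * Real.exp (K * (t - 1)))) := by
            gcongr
        _ = A0 ^ N * (K * (P m 1 * P i 1)) * (Real.exp (K * (t - 1)) ^ (N + 2)) := by ring
        _ = _ := by
            rw [← Real.exp_nat_mul]
            congr 2
            push_cast
            ring
    have hpos : 0 < A0 ^ N * (K * (P m 1 * P i 1)) := by
      have h10 := w.posP m 1 one_pos
      have h11 := w.posP i 1 one_pos
      positivity
    calc Real.log (Y t) ≤ Real.log (A0 ^ N * (K * (P m 1 * P i 1)) *
          Real.exp ((N + 2) * K * (t - 1))) := Real.log_le_log (hT t ht) h1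
      _ = _ := by
        rw [Real.log_mul hpos.ne' (Real.exp_pos _).ne', Real.log_exp]
  -- the function `L`
  set C2 : ℝ := (N + 2) * K with hC2
  have hC2p : 0 ≤ C2 := by positivity
  set ε : ℝ := 2 * Λ / (C2 + 1) with hε
  have hεp : 0 < ε := by positivity
  have hεΛ : 2 * Λ / ε = C2 + 1 := by
    rw [hε]
    field_simp
  have hL : ∀ t, T ≤ t → Real.log (Y T) + Λ / ε ^ 2 * (Real.log (P m T) - Real.log (P i T)) +
      (C2 + 1) * (t - T) ≤
      Real.log (Y t) + Λ / ε ^ 2 * (Real.log (P m t) - Real.log (P i t)) := by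
    intro t ht
    have h1 := mono_ge (f := fun x => Real.log (Y x) + Λ / ε ^ 2 * (Real.log (P m x) -
        Real.log (P i x)) - (C2 + 1) * x)
      (f' := fun x => Λ * (sm a P x ^ N * (P m x * P i x)) / Y x +
        Λ / ε ^ 2 * (P1 m x / P m x - P1 i x / P i x) - (C2 + 1) * 1) (a := T)
      (fun x hx => by
        have hx0 : 0 < x := lt_of_lt_of_le hT0 hx
        have h2 := (dY x hx0).log (hT x hx).ne'
        have h3 := (w.dP m x hx0).log (w.posP m x hx0).ne'
        have h4 := (w.dP i x hx0).log (w.posP i x hx0).ne'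
        exact (h2.add ((h3.sub h4).const_mul _)).sub ((hasDerivAt_id x).const_mul _))
      (fun x hx => by
        have hx0 : 0 < x := lt_of_lt_of_le hT0 hx
        have h2 := w.posP m x hx0
        have h3 := w.posP i x hx0
        have h4 := w.posph x hx0
        have h5 := hT x hx
        set ω := P1 m x / P m x - P1 i x / P i x with hω
        have h6 : Y x = sm a P x ^ N * (P m x * P i x) * ω := by
          rw [hY, hω]
          field_simp
        have h7 : 0 < ω := by
          rw [h6] at h5
          exact (mul_pos_iff_of_pos_left (by positivity)).1 h5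
        have h8 : Λ * (sm a P x ^ N * (P m x * P i x)) / Y x = Λ / ω := by
          rw [h6]
          field_simp
        rw [h8]
        have h9 : Λ / ω + Λ / ε ^ 2 * ω - 2 * Λ / ε = Λ * (ε - ω) ^ 2 / (ω * ε ^ 2) := by
          field_simp
          ring
        have h10 : 0 ≤ Λ * (ε - ω) ^ 2 / (ω * ε ^ 2) := by positivity
        rw [← h9, hεΛ] at h10
        linarith) ht
    linarith
  -- conclusion
  have hdiv : Tendsto (fun t => Real.log (P m t) - Real.log (P i t)) atTop atTop := by
    set κ : ℝ := Λ / ε ^ 2 with hκ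
    have hκp : 0 < κ := by positivity
    set E0 : ℝ := Real.log (Y T) + κ * (Real.log (P m T) - Real.log (P i T)) - C1 with hE0
    have h1 : ∀ t, T ≤ t → (E0 - (C2 + 1) * T + C2 + t) / κ ≤
        Real.log (P m t) - Real.log (P i t) := by
      intro t ht
      rw [div_le_iff₀ hκp]
      have h2 := hL t ht
      have h3 := hC1 t ht
      nlinarith
    refine tendsto_atTop_mono' atTop (f₁ := fun t => (E0 - (C2 + 1) * T + C2 + t) / κ) ?_ ?_
    · filter_upwards [eventually_ge_atTop T] with t ht
      exact h1 t ht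
    · exact (tendsto_atTop_add_const_left _ _ tendsto_id).atTop_div_const hκp
  have h1 := (Real.tendsto_exp_neg_atTop_nhds_zero.comp hdiv)
  refine h1.congr' ?_
  filter_upwards [eventually_gt_atTop 0] with t ht
  have h2 := w.posP m t ht
  have h3 := w.posP i t ht
  simp only [Function.comp_apply]
  rw [neg_sub, Real.exp_sub, Real.exp_log h3, Real.exp_log h2]

end WS

end

end Run7.h978.Rot
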