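import Mathlib
import Pool.Agent.Run7.h978.Asy2

set_option autoImplicit false

/-!
First order asymptotics.
-/

open Set Filter Topology

namespace Run7.h978.Rot

theorem zero_mul_bdd {f g : ℝ → ℝ} {C : ℝ} (hf : Tendsto f atTop (𝓝 0))
    (hg : ∀ᶠ t in atTop, |g t| ≤ C) : Tendsto (fun t => f t * g t) atTop (𝓝 0) := by
  have h1 : Tendsto (fun t => |f t| * C) atTop (𝓝 0) := by
    have := hf.abs.mul_const C
    simpa using this
  refine squeeze_zero_norm' ?_ h1
  filter_upwards [hg] with t ht
  rw [Real.norm_eq_abs, abs_mul]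
  gcongr

/-- the positive root of `x² + N x = l` -/
noncomputable def alpha (N : ℕ) (l : ℝ) : ℝ := (Real.sqrt (N ^ 2 + 4 * l) - N) / 2

theorem alpha_eq {N : ℕ} {l : ℝ} (hl : 0 ≤ l) : alpha N l ^ 2 + N * alpha N l = l := by
  have h1 : Real.sqrt (N ^ 2 + 4 * l) ^ 2 = N ^ 2 + 4 * l := Real.sq_sqrt (by positivity)
  rw [alpha]
  linear_combination (1 / 4) * h1

theorem alpha_lt {N : ℕ} {l l' : ℝ} (hl : 0 ≤ l) (h : l < l') : alpha N l < alpha N l' := by
  have h1 : Real.sqrt (N ^ 2 + 4 * l) < Real.sqrt (N ^ 2 + 4 * l') :=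
    Real.sqrt_lt_sqrt (by positivity) (by linarith)
  rw [alpha, alpha]
  linarith

theorem alpha_zero (N : ℕ) : alpha N 0 = 0 := by
  rw [alpha, mul_zero, add_zero, Real.sqrt_sq (by positivity)]
  simp

theorem alpha_pos {N : ℕ} {l : ℝ} (h : 0 < l) : 0 < alpha N l := by
  have := alpha_lt (N := N) le_rfl h
  rwa [alpha_zero] at this

theorem alpha_one (N : ℕ) : alpha N (N + 1) = 1 := by
  have h1 : (N : ℝ) ^ 2 + 4 * (N + 1) = (N + 2) ^ 2 := by ring
  rw [alpha, h1, Real.sqrt_sq (by positivity)]
  ring

section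

variable {ι : Type} [Fintype ι]

/-- the share of a mode -/
noncomputable def th (a : ι → ℝ) (P : ι → ℝ → ℝ) (l : ι) (t : ℝ) : ℝ := a l * P l t / sm a P t

namespace WS

variable {N : ℕ} {lam a d : ι → ℝ} {P P1 U U1 : ι → ℝ → ℝ} (w : WS N lam a d P P1 U U1)
include w

theorem sum_th {t : ℝ} (ht : 0 < t) : ∑ l, th a P l t = 1 := by
  unfold th
  rw [← Finset.sum_div]
  exact div_self (w.posph t ht).ne'

theorem h_eq {t : ℝ} (ht : 0 < t) : hh a P P1 t = ∑ l, th a P l t * rr P P1 l t := by
  rw [hh, sm, Finset.sum_div]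
  refine Finset.sum_congr rfl fun l _ => ?_
  have := (w.posP l t ht).ne'
  rw [th, rr]
  field_simp

theorem h_sub (m : ι) {t : ℝ} (ht : 0 < t) :
    hh a P P1 t - rr P P1 m t = ∑ l, th a P l t * (rr P P1 l t - rr P P1 m t) := by
  rw [w.h_eq ht]
  simp only [mul_sub, Finset.sum_sub_distrib, ← Finset.sum_mul]
  rw [w.sum_th ht, one_mul]

theorem d_th (l : ι) {t : ℝ} (ht : 0 < t) : HasDerivAt (th a P l)
    (th a P l t * (rr P P1 l t - hh a P P1 t)) t := by
  have h1 := ((w.dP l t ht).const_mul (a l)).div (w.d_sm ht) (w.posph t ht).ne'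
  refine h1.congr_deriv ?_
  have h2 := (w.posph t ht).ne'
  have h3 := (w.posP l t ht).ne'
  rw [th, rr, hh]
  field_simp

theorem bdd_R : ∃ C : ℝ, ∀ i t, 1 ≤ t → |rr P P1 i t| ≤ C := by
  obtain ⟨K, _, hK⟩ := w.exists_K
  refine ⟨K, fun i t ht => ?_⟩
  rw [abs_of_pos (w.pos_R i (lt_of_lt_of_le one_pos ht))]
  exact w.R_le hK i ht

theorem bdd_S : ∃ C : ℝ, ∀ i t, 1 ≤ t → |rr U U1 i t| ≤ C := by
  obtain ⟨K, _, hK⟩ := w.exists_K
  refine ⟨K, fun i t ht => ?_⟩
  have ht0 := lt_of_lt_of_le one_pos ht
  rw [abs_of_pos (w.pos_S i ht0)]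
  have := w.pos_del i ht0
  have := w.R_le hK i ht
  linarith

section top

variable {m : ι} (ham : a m ≠ 0) (hm : ∀ i, a i ≠ 0 → i ≠ m → lam i < lam m)
include ham hm

theorem lim_ph_div : Tendsto (fun t => sm a P t / P m t) atTop (𝓝 (a m)) := by
  classical
  have h1 : ∀ l, Tendsto (fun t => a l * (P l t / P m t)) atTop (𝓝 (if l = m then a m else 0)) := by
    intro l
    by_cases hl : l = m
    · subst hl
      rw [if_pos rfl]
      have : Tendsto (fun t : ℝ => a l * 1) atTop (𝓝 (a l)) := by simp
      refine this.congr' ?_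
      filter_upwards [eventually_gt_atTop 0] with t ht
      rw [div_self (w.posP l t ht).ne']
    · rw [if_neg hl]
      by_cases ha : a l = 0
      · rw [ha]
        simp
      · have := (w.dom (hm l ha hl)).const_mul (a l)
        simpa using this
  have h2 := tendsto_finsetSum Finset.univ fun l _ => h1 l
  simp only [Finset.sum_ite_eq', Finset.mem_univ, if_true] at h2
  refine h2.congr fun t => ?_
  rw [sm, Finset.sum_div]
  exact Finset.sum_congr rfl fun l _ => by ring

theorem lim_div_ph : Tendsto (fun t => P m t / sm a P t) atTop (𝓝 (a m)⁻¹) := by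
  have h1 := (w.lim_ph_div ham hm).inv₀ ham
  refine h1.congr fun t => ?_
  rw [inv_div]

theorem am_pos : 0 < a m := by
  have h1 : 0 ≤ a m := by
    refine ge_of_tendsto (w.lim_ph_div ham hm) ?_
    filter_upwards [eventually_gt_atTop 0] with t ht
    have := w.posph t ht
    have := w.posP m t ht
    positivity
  exact lt_of_le_of_ne h1 (Ne.symm ham)

theorem lim_th {l : ι} (hl : l ≠ m) : Tendsto (th a P l) atTop (𝓝 0) := by
  by_cases ha : a l = 0
  · have : th a P l = fun _ => 0 := by
      funext t
      rw [th, ha]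
      simp
    rw [this]
    exact tendsto_const_nhds
  · have h1 := ((w.dom (hm l ha hl)).const_mul (a l)).mul (w.lim_div_ph ham hm)
    rw [mul_zero, zero_mul] at h1
    refine h1.congr' ?_
    filter_upwards [eventually_gt_atTop 0] with t ht
    have h2 := (w.posP m t ht).ne'
    have h3 := (w.posph t ht).ne'
    rw [th]
    field_simp

theorem lim_th_m : Tendsto (th a P m) atTop (𝓝 1) := by
  have h1 := (w.lim_div_ph ham hm).const_mul (a m)
  rw [mul_inv_cancel₀ ham] at h1
  refine h1.congr fun t => ?_
  rw [th, mul_div_assoc]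

theorem lim_h_sub : Tendsto (fun t => hh a P P1 t - rr P P1 m t) atTop (𝓝 0) := by
  classical
  obtain ⟨C, hC⟩ := w.bdd_R
  have h1 : ∀ l, Tendsto (fun t => th a P l t * (rr P P1 l t - rr P P1 m t)) atTop (𝓝 0) := by
    intro l
    by_cases hl : l = m
    · subst hl
      simp
    · refine zero_mul_bdd (C := 2 * C) (w.lim_th ham hm hl) ?_
      filter_upwards [eventually_ge_atTop 1] with t ht
      calc |rr P P1 l t - rr P P1 m t| ≤ |rr P P1 l t| + |rr P P1 m t| := abs_sub _ _
        _ ≤ 2 * C := by linarith [hC l t ht, hC m t ht]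
  have h2 := tendsto_finsetSum Finset.univ fun l _ => h1 l
  rw [Finset.sum_const_zero] at h2
  refine h2.congr' ?_
  filter_upwards [eventually_gt_atTop 0] with t ht
  exact (w.h_sub m ht).symm

variable (hlm : lam m = N + 1)
include hlm

theorem lim_Rm : Tendsto (rr P P1 m) atTop (𝓝 1) := by
  obtain ⟨C, hC⟩ := w.bdd_R
  have h1 : Tendsto (fun t => rr P P1 m t - 1) atTop (𝓝 0) := by
    refine ode_zero (p := fun t => (N + 1) * (1 + rr P P1 m t))
      (b := fun t => N * qq a P t - (hh a P P1 t - rr P P1 m t) * (N * rr P P1 m t))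
      (c := N + 1) (by positivity) ?_ ?_ ?_
    · filter_upwards [eventually_gt_atTop 0] with t ht
      refine ((w.d_R m ht).sub_const 1).congr_deriv ?_
      rw [hlm]
      ring
    · filter_upwards [eventually_gt_atTop 0] with t ht
      have := w.pos_R m ht
      have h3 : (0 : ℝ) ≤ N + 1 := by positivity
      nlinarith
    · have h2 : Tendsto (fun t => (hh a P P1 t - rr P P1 m t) * (N * rr P P1 m t)) atTop (𝓝 0) := by
        refine zero_mul_bdd (C := N * C) (w.lim_h_sub ham hm) ?_
        filter_upwards [eventually_ge_atTop 1] with t ht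
        rw [abs_mul, Nat.abs_cast]
        have := hC m t ht
        gcongr
      have h3 := (w.lim_q.const_mul (N : ℝ)).sub h2
      simpa using h3
  have h2 := h1.add_const 1
  simpa using h2

theorem lim_h : Tendsto (hh a P P1) atTop (𝓝 1) := by
  have h1 := (w.lim_h_sub ham hm).add (w.lim_Rm ham hm hlm)
  simpa using h1

theorem lim_R (i : ι) : Tendsto (rr P P1 i) atTop (𝓝 (alpha N (lam i))) := by
  obtain ⟨C, hC⟩ := w.bdd_R
  have hα := alpha_eq (N := N) (w.lampos i).le
  have hαp := alpha_pos (N := N) (w.lampos i)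
  set α := alpha N (lam i)
  have h1 : Tendsto (fun t => rr P P1 i t - α) atTop (𝓝 0) := by
    refine ode_zero (p := fun t => rr P P1 i t + α + N)
      (b := fun t => N * qq a P t - (hh a P P1 t - 1) * (N * rr P P1 i t))
      (c := α) hαp ?_ ?_ ?_
    · filter_upwards [eventually_gt_atTop 0] with t ht
      refine ((w.d_R i ht).sub_const α).congr_deriv ?_
      linear_combination -hα
    · filter_upwards [eventually_gt_atTop 0] with t ht
      have := w.pos_R i ht
      have h3 : (0 : ℝ) ≤ N := by positivity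
      linarith
    · have h2 : Tendsto (fun t => (hh a P P1 t - 1) * (N * rr P P1 i t)) atTop (𝓝 0) := by
        have h4 := (w.lim_h ham hm hlm).sub_const 1
        rw [sub_self] at h4
        refine zero_mul_bdd (C := N * C) h4 ?_
        filter_upwards [eventually_ge_atTop 1] with t ht
        rw [abs_mul, Nat.abs_cast]
        have := hC i t ht
        gcongr
      have h3 := (w.lim_q.const_mul (N : ℝ)).sub h2
      simpa using h3
  have h2 := h1.add_const α
  simpa using h2

theorem lim_S (i : ι) : Tendsto (rr U U1 i) atTop (𝓝 (alpha N (lam i))) := by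
  obtain ⟨C, hC⟩ := w.bdd_S
  have hα := alpha_eq (N := N) (w.lampos i).le
  have hαp := alpha_pos (N := N) (w.lampos i)
  set α := alpha N (lam i)
  have h1 : Tendsto (fun t => rr U U1 i t - α) atTop (𝓝 0) := by
    refine ode_zero (p := fun t => rr U U1 i t + α + N)
      (b := fun t => -((hh a P P1 t - 1) * (N * rr U U1 i t)))
      (c := α) hαp ?_ ?_ ?_
    · filter_upwards [eventually_gt_atTop 0] with t ht
      refine ((w.d_S i ht).sub_const α).congr_deriv ?_
      linear_combination -hα
    · filter_upwards [eventually_gt_atTop 0] with t ht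
      have := w.pos_S i ht
      have h3 : (0 : ℝ) ≤ N := by positivity
      linarith
    · have h4 := (w.lim_h ham hm hlm).sub_const 1
      rw [sub_self] at h4
      have h2 : Tendsto (fun t => (hh a P P1 t - 1) * (N * rr U U1 i t)) atTop (𝓝 0) := by
        refine zero_mul_bdd (C := N * C) h4 ?_
        filter_upwards [eventually_ge_atTop 1] with t ht
        rw [abs_mul, Nat.abs_cast]
        have := hC i t ht
        gcongr
      have h3 := h2.neg
      simpa using h3
  have h2 := h1.add_const α
  simpa using h2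

/-- ratios of the functions `U` -/
theorem lim_UU {i l : ι} (hil : lam i < lam l) : Tendsto (fun t => U i t / U l t) atTop (𝓝 0) := by
  have h1 := alpha_lt (N := N) (w.lampos i).le hil
  refine ode_decay (g := fun t => rr U U1 i t - rr U U1 l t)
    (g0 := alpha N (lam i) - alpha N (lam l)) (by linarith) ?_
    ((w.lim_S ham hm hlm i).sub (w.lim_S ham hm hlm l))
  filter_upwards [eventually_gt_atTop 0] with t ht
  refine ((w.dU i t ht).div (w.dU l t ht) (w.posU l t ht).ne').congr_deriv ?_
  have h2 := (w.posU l t ht).ne'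
  have h3 := (w.posU i t ht).ne'
  rw [rr, rr]
  field_simp

/-- the eigenvalues of the modes of `γ` are at most that of the top mode of `φ` -/
theorem top_le {M : ι} (hdM : d M ≠ 0) (hMtop : ∀ i, d i ≠ 0 → i ≠ M → lam i < lam M) :
    lam M ≤ lam m := by
  classical
  by_contra hcon
  push Not at hcon
  have hα : 1 < alpha N (lam M) := by
    have := alpha_lt (N := N) (w.lampos m).le hcon
    rwa [hlm, alpha_one] at this
  -- `U_M / φ → ∞`
  have h1 : Tendsto (fun t => U M t / sm a P t) atTop atTop := by
    refine ode_grow (g := fun t => rr U U1 M t - hh a P P1 t) (g0 := alpha N (lam M) - 1)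
      (by linarith) ?_ ?_ ((w.lim_S ham hm hlm M).sub (w.lim_h ham hm hlm))
    · filter_upwards [eventually_gt_atTop 0] with t ht
      refine ((w.dU M t ht).div (w.d_sm ht) (w.posph t ht).ne').congr_deriv ?_
      have h2 := (w.posU M t ht).ne'
      have h3 := (w.posph t ht).ne'
      rw [rr, hh]
      field_simp
    · filter_upwards [eventually_gt_atTop 0] with t ht
      exact div_pos (w.posU M t ht) (w.posph t ht)
  have h2 : Tendsto (fun t => sm a P1 t / U M t) atTop (𝓝 0) := by
    have h3 := h1.inv_tendsto_atTop.mul (w.lim_h ham hm hlm)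
    rw [zero_mul] at h3
    refine h3.congr' ?_
    filter_upwards [eventually_gt_atTop 0] with t ht
    have h4 := (w.posU M t ht).ne'
    have h5 := (w.posph t ht).ne'
    simp only [Pi.inv_apply]
    rw [hh]
    field_simp
  have h3 : Tendsto (fun t => sm d U1 t / U M t) atTop (𝓝 (d M * alpha N (lam M))) := by
    have h4 : ∀ l, Tendsto (fun t => d l * (rr U U1 l t * (U l t / U M t))) atTop
        (𝓝 (if l = M then d M * alpha N (lam M) else 0)) := by
      intro l
      by_cases hl : l = M
      · subst hl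
        rw [if_pos rfl]
        have := (w.lim_S ham hm hlm l).const_mul (d l)
        refine this.congr' ?_
        filter_upwards [eventually_gt_atTop 0] with t ht
        rw [div_self (w.posU l t ht).ne', mul_one]
      · rw [if_neg hl]
        by_cases hd : d l = 0
        · rw [hd]
          simp
        · have := ((w.lim_S ham hm hlm l).mul
            (w.lim_UU ham hm hlm (hMtop l hd hl))).const_mul (d l)
          simpa using this
    have h5 := tendsto_finsetSum Finset.univ fun l _ => h4 l
    simp only [Finset.sum_ite_eq', Finset.mem_univ, if_true] at h5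
    refine h5.congr' ?_
    filter_upwards [eventually_gt_atTop 0] with t ht
    rw [sm, Finset.sum_div]
    refine Finset.sum_congr rfl fun l _ => ?_
    have h6 := (w.posU l t ht).ne'
    rw [rr]
    field_simp
  have h4 : Tendsto (fun t => (sm a P1 t / U M t) ^ 2 - (sm d U1 t / U M t) ^ 2) atTop
      (𝓝 (0 ^ 2 - (d M * alpha N (lam M)) ^ 2)) := (h2.pow 2).sub (h3.pow 2)
  have h5 : (0 : ℝ) ≤ 0 ^ 2 - (d M * alpha N (lam M)) ^ 2 := by
    refine ge_of_tendsto h4 ?_
    filter_upwards [eventually_gt_atTop 0] with t ht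
    have h6 := w.con t ht
    have h7 := w.posU M t ht
    have h8 : (sm a P1 t / U M t) ^ 2 - (sm d U1 t / U M t) ^ 2 = 1 / U M t ^ 2 := by
      rw [div_pow, div_pow, ← sub_div, h6]
    rw [h8]
    positivity
  have h6 : 0 < (d M * alpha N (lam M)) ^ 2 := by
    have : d M * alpha N (lam M) ≠ 0 := mul_ne_zero hdM (by linarith)
    positivity
  linarith

end top

end WS

end

end Run7.h978.Rot
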