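import Mathlib
import Pool.Agent.Run7.h978.Asy3

set_option autoImplicit false

/-!
Second order asymptotics and the contradiction.
-/

open Set Filter Topology

namespace Run7.h978.Rot

section

variable {ι : Type} [Fintype ι]

namespace WS

variable {N : ℕ} {lam a d : ι → ℝ} {P P1 U U1 : ι → ℝ → ℝ} (w : WS N lam a d P P1 U U1)
  {m : ι} (ham : a m ≠ 0) (hm : ∀ i, a i ≠ 0 → i ≠ m → lam i < lam m) (hlm : lam m = N + 1)
include w ham hm hlm

/-- the quotients `P i / U i` converge -/
theorem exists_C (i : ι) : ∃ C : ℝ, 0 < C ∧ Tendsto (fun t => P i t / U i t) atTop (𝓝 C) := by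
  have hαp := alpha_pos (N := N) (w.lampos i)
  set α := alpha N (lam i) with hα
  have hR := w.lim_R ham hm hlm i
  have hS := w.lim_S ham hm hlm i
  have hh := w.lim_h ham hm hlm
  have e1 : ∀ᶠ t in atTop, α / 2 < rr P P1 i t := hR.eventually (lt_mem_nhds (by linarith))
  have e2 : ∀ᶠ t in atTop, α / 2 < rr U U1 i t := hS.eventually (lt_mem_nhds (by linarith))
  have e3 : ∀ᶠ t in atTop, (1 : ℝ) / 2 < Run7.h978.Rot.hh a P P1 t :=
    hh.eventually (lt_mem_nhds (by norm_num))
  obtain ⟨T0, hT0⟩ := eventually_atTop.1 ((e1.and e2).and e3)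
  set T := max T0 1 with hT
  have hT1 : 1 ≤ T := le_max_right _ _
  have hTT : T0 ≤ T := le_max_left _ _
  set f0 : ℝ → ℝ := fun t => Real.log (P i t) - Real.log (U i t) with hf0
  have df0 : ∀ t, T ≤ t → HasDerivAt f0 (rr P P1 i t - rr U U1 i t) t := by
    intro t ht
    have ht0 : 0 < t := by linarith
    exact ((w.dP i t ht0).log (w.posP i t ht0).ne').sub
      ((w.dU i t ht0).log (w.posU i t ht0).ne')
  have hmono : ∀ s t, T ≤ s → s ≤ t → f0 s ≤ f0 t := by
    intro s t hs hst
    exact mono_ge (fun x hx => df0 x (hs.trans hx))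
      (fun x hx => (w.pos_del i (by linarith)).le) hst
  have hbdd : ∀ t, T ≤ t → f0 t ≤ f0 T + (1 / α * (rr P P1 i T - rr U U1 i T) +
      N / α * qq a P T) := by
    intro t ht
    have h1 := mono_le (f := fun x => f0 x + (1 / α * (rr P P1 i x - rr U U1 i x) +
      N / α * qq a P x))
      (f' := fun x => (rr P P1 i x - rr U U1 i x) + (1 / α * (N * qq a P x -
        (rr P P1 i x + rr U U1 i x + N * Run7.h978.Rot.hh a P P1 x) *
        (rr P P1 i x - rr U U1 i x)) + N / α * (-2 * Run7.h978.Rot.hh a P P1 x * qq a P x))) (a := T)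
      (fun x hx => by
        have hx0 : 0 < x := by linarith
        exact (df0 x hx).add (((w.d_del i hx0).const_mul (1 / α)).add
          ((w.d_q hx0).const_mul (N / α))))
      (fun x hx => by
        have hx0 : 0 < x := by linarith
        obtain ⟨⟨g1, g2⟩, g3⟩ := hT0 x (hTT.trans hx)
        have g4 := w.pos_del i hx0
        have g5 := w.pos_q hx0
        have g6 : (0 : ℝ) ≤ N := by positivity
        set δ := rr P P1 i x - rr U U1 i x with hδ
        set hx' := Run7.h978.Rot.hh a P P1 x
        have g7 : δ + (1 / α * (N * qq a P x - (rr P P1 i x + rr U U1 i x + N * hx') * δ) +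
            N / α * (-2 * hx' * qq a P x)) =
            (δ * (α - (rr P P1 i x + rr U U1 i x + N * hx')) +
              N * qq a P x * (1 - 2 * hx')) / α := by
          field_simp
          ring
        rw [g7]
        apply div_nonpos_of_nonpos_of_nonneg _ hαp.le
        have g8 : 0 ≤ N * hx' := by
          have : 0 < hx' := by linarith
          positivity
        have g9 : δ * (α - (rr P P1 i x + rr U U1 i x + N * hx')) ≤ 0 :=
          mul_nonpos_of_nonneg_of_nonpos g4.le (by linarith)
        have g10 : N * qq a P x * (1 - 2 * hx') ≤ 0 :=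
          mul_nonpos_of_nonneg_of_nonpos (by positivity) (by linarith)
        linarith) ht
    have h2 : 0 ≤ 1 / α * (rr P P1 i t - rr U U1 i t) + N / α * qq a P t := by
      have h3 := w.pos_del i (t := t) (by linarith)
      have h4 := w.pos_q (t := t) (by linarith)
      positivity
    linarith
  -- convergence
  set g : ℝ → ℝ := fun t => f0 (max t T) with hg
  have hgm : Monotone g := by
    intro s t hst
    exact hmono _ _ (le_max_right _ _) (max_le_max hst le_rfl)
  have hgb : BddAbove (Set.range g) := by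
    refine ⟨f0 T + (1 / α * (rr P P1 i T - rr U U1 i T) + N / α * qq a P T), ?_⟩
    rintro _ ⟨t, rfl⟩
    exact hbdd _ (le_max_right _ _)
  have hlim := tendsto_atTop_ciSup hgm hgb
  set ℓ := ⨆ t, g t
  refine ⟨Real.exp ℓ, Real.exp_pos _, ?_⟩
  have h3 := (Real.continuous_exp.tendsto ℓ).comp hlim
  refine h3.congr' ?_
  filter_upwards [eventually_ge_atTop T] with t ht
  have ht0 : 0 < t := by linarith
  simp only [Function.comp_apply, hg, hf0]
  rw [max_eq_left ht, Real.exp_sub, Real.exp_log (w.posP i t ht0), Real.exp_log (w.posU i t ht0)]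

/-- `δ_i / q` converges -/
theorem lim_A (i : ι) (hk : 0 < 2 * alpha N (lam i) + N - 2) :
    Tendsto (fun t => (rr P P1 i t - rr U U1 i t) / qq a P t) atTop
      (𝓝 (N / (2 * alpha N (lam i) + N - 2))) := by
  have hR := w.lim_R ham hm hlm i
  have hS := w.lim_S ham hm hlm i
  have hh := w.lim_h ham hm hlm
  refine ode_lim (p := fun t => rr P P1 i t + rr U U1 i t + (N - 2) * Run7.h978.Rot.hh a P P1 t)
    (b := fun _ => N) hk ?_ ?_ tendsto_const_nhds
  · filter_upwards [eventually_gt_atTop 0] with t ht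
    have hq := (w.pos_q ht).ne'
    refine ((w.d_del i ht).div (w.d_q ht) hq).congr_deriv ?_
    field_simp
    ring
  · have h1 := (hR.add hS).add (hh.const_mul ((N : ℝ) - 2))
    have h2 : alpha N (lam i) + alpha N (lam i) + ((N : ℝ) - 2) * 1 =
        2 * alpha N (lam i) + N - 2 := by ring
    rw [← h2]
    exact h1

section C

variable {C : ℝ} {i : ι} (hC0 : 0 < C) (hC : Tendsto (fun t => P i t / U i t) atTop (𝓝 C))
include hC0 hC

/-- `Q = C U / P - 1 → 0` -/
theorem lim_Q : Tendsto (fun t => C * (U i t / P i t) - 1) atTop (𝓝 0) := by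
  have h1 := (hC.inv₀ hC0.ne').const_mul C
  rw [mul_inv_cancel₀ hC0.ne'] at h1
  have h2 := h1.sub_const 1
  rw [sub_self] at h2
  refine h2.congr fun t => ?_
  rw [inv_div]

omit ham hm hlm hC0 hC in
theorem d_Q {t : ℝ} (ht : 0 < t) : HasDerivAt (fun t => C * (U i t / P i t) - 1)
    (-(rr P P1 i t - rr U U1 i t) * (1 + (C * (U i t / P i t) - 1))) t := by
  refine ((((w.dU i t ht).div (w.dP i t ht) (w.posP i t ht).ne').const_mul C).sub_const
    1).congr_deriv ?_
  have h1 := (w.posP i t ht).ne'
  have h2 := (w.posU i t ht).ne'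
  rw [rr, rr]
  field_simp
  ring

/-- `Q / q` converges -/
theorem lim_Qq (hk : 0 < 2 * alpha N (lam i) + N - 2) :
    Tendsto (fun t => (C * (U i t / P i t) - 1) / qq a P t) atTop
      (𝓝 (N / (2 * alpha N (lam i) + N - 2) / 2)) := by
  have hA := w.lim_A ham hm hlm i hk
  have hQ := w.lim_Q ham hm hlm hC0 hC
  have hh := w.lim_h ham hm hlm
  refine HasDerivAt.lhopital_zero_atTop
    (f' := fun t => -(rr P P1 i t - rr U U1 i t) * (1 + (C * (U i t / P i t) - 1)))
    (g' := fun t => -2 * Run7.h978.Rot.hh a P P1 t * qq a P t) ?_ ?_ ?_ hQ w.lim_q ?_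
  · filter_upwards [eventually_gt_atTop 0] with t ht
    exact w.d_Q ht
  · filter_upwards [eventually_gt_atTop 0] with t ht
    exact w.d_q ht
  · filter_upwards [eventually_gt_atTop 0] with t ht
    have h1 := w.pos_h ht
    have h2 := w.pos_q ht
    exact mul_ne_zero (mul_ne_zero (by norm_num) h1.ne') h2.ne'
  · have h1 := (hA.mul (hQ.const_add 1)).div (hh.const_mul 2) (by norm_num)
    have h2 : N / (2 * alpha N (lam i) + N - 2) * (1 + 0) / (2 * 1) =
        N / (2 * alpha N (lam i) + N - 2) / 2 := by ring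
    rw [h2] at h1
    refine h1.congr' ?_
    filter_upwards [eventually_gt_atTop 0] with t ht
    have h1 := (w.pos_h ht).ne'
    have h2 := (w.pos_q ht).ne'
    simp only [Pi.div_apply]
    field_simp

/-- `T = R - (1 + Q) S`, `T / q` converges -/
theorem lim_T (hk : 0 < 2 * alpha N (lam i) + N - 2) :
    Tendsto (fun t => (rr P P1 i t - C * (U i t / P i t) * rr U U1 i t) / qq a P t) atTop
      (𝓝 (N / (2 * alpha N (lam i) + N - 2) * (1 - alpha N (lam i) / 2))) := by
  have hA := w.lim_A ham hm hlm i hk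
  have hQ := w.lim_Qq ham hm hlm hC0 hC hk
  have hS := w.lim_S ham hm hlm i
  have h1 := hA.sub (hQ.mul hS)
  have h2 : N / (2 * alpha N (lam i) + N - 2) -
      N / (2 * alpha N (lam i) + N - 2) / 2 * alpha N (lam i) =
      N / (2 * alpha N (lam i) + N - 2) * (1 - alpha N (lam i) / 2) := by ring
  rw [h2] at h1
  refine h1.congr fun t => ?_
  ring

end C

end WS

end

end Run7.h978.Rot
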