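import Mathlib
import Pool.Agent.Run7.h978.Asy4

set_option autoImplicit false

/-!
The coefficients of `φ` and `γ` match.
-/

open Set Filter Topology

namespace Run7.h978.Rot

section

variable {ι : Type} [Fintype ι]

namespace WS

variable {N : ℕ} {lam a d : ι → ℝ} {P P1 U U1 : ι → ℝ → ℝ} (w : WS N lam a d P P1 U U1)
  {m : ι} (ham : a m ≠ 0) (hm : ∀ i, a i ≠ 0 → i ≠ m → lam i < lam m) (hlm : lam m = N + 1)
include w ham hm hlm

theorem hd_lt {i : ι} (hi : d i ≠ 0) (him : i ≠ m) : lam i < lam m := by
  classical
  obtain ⟨M, hM, hMmax⟩ := Finset.exists_max_image (Finset.univ.filter fun l => d l ≠ 0) lam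
    ⟨i, by simp [hi]⟩
  rw [Finset.mem_filter] at hM
  have h1 : lam M ≤ lam m := by
    refine w.top_le ham hm hlm hM.2 fun l hl hlM => ?_
    have h2 := hMmax l (by simp [hl])
    exact lt_of_le_of_ne h2 fun h3 => hlM (w.lamne h3)
  have h2 := hMmax i (by simp [hi])
  exact lt_of_le_of_ne (h2.trans h1) fun h3 => him (w.lamne h3)

theorem P_top (i : ι) : Tendsto (P i) atTop atTop := by
  refine ode_grow (g := rr P P1 i) (alpha_pos (N := N) (w.lampos i)) ?_ ?_
    (w.lim_R ham hm hlm i)
  · filter_upwards [eventually_gt_atTop 0] with t ht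
    refine (w.dP i t ht).congr_deriv ?_
    have := (w.posP i t ht).ne'
    rw [rr]
    field_simp
  · filter_upwards [eventually_gt_atTop 0] with t ht
    exact w.posP i t ht

theorem U_top (i : ι) : Tendsto (U i) atTop atTop := by
  refine ode_grow (g := rr U U1 i) (alpha_pos (N := N) (w.lampos i)) ?_ ?_
    (w.lim_S ham hm hlm i)
  · filter_upwards [eventually_gt_atTop 0] with t ht
    refine (w.dU i t ht).congr_deriv ?_
    have := (w.posU i t ht).ne'
    rw [rr]
    field_simp
  · filter_upwards [eventually_gt_atTop 0] with t ht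
    exact w.posU i t ht

variable {C : ι → ℝ} (hC0 : ∀ i, 0 < C i)
  (hC : ∀ i, Tendsto (fun t => P i t / U i t) atTop (𝓝 (C i)))
include hC0 hC

/-- the limit of `γ' / P_m` -/
theorem lim_g : Tendsto (fun t => sm d U1 t / P m t) atTop (𝓝 (d m / C m)) := by
  classical
  have hUP : Tendsto (fun t => U m t / P m t) atTop (𝓝 (C m)⁻¹) := by
    refine ((hC m).inv₀ (hC0 m).ne').congr fun t => ?_
    rw [inv_div]
  have h4 : ∀ l, Tendsto (fun t => d l * (rr U U1 l t * ((U l t / U m t) * (U m t / P m t)))) atTop
      (𝓝 (if l = m then d m / C m else 0)) := by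
    intro l
    by_cases hl : l = m
    · subst hl
      rw [if_pos rfl]
      have h1 := ((w.lim_S ham hm hlm l).mul hUP).const_mul (d l)
      rw [hlm, alpha_one, one_mul, ← div_eq_mul_inv] at h1
      refine h1.congr' ?_
      filter_upwards [eventually_gt_atTop 0] with t ht
      rw [div_self (w.posU l t ht).ne', one_mul]
    · rw [if_neg hl]
      by_cases hd : d l = 0
      · rw [hd]
        simp
      · have := ((w.lim_S ham hm hlm l).mul
          ((w.lim_UU ham hm hlm (w.hd_lt ham hm hlm hd hl)).mul hUP)).const_mul (d l)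
        simpa using this
  have h5 := tendsto_finsetSum Finset.univ fun l _ => h4 l
  simp only [Finset.sum_ite_eq', Finset.mem_univ, if_true] at h5
  refine h5.congr' ?_
  filter_upwards [eventually_gt_atTop 0] with t ht
  rw [sm, Finset.sum_div]
  refine Finset.sum_congr rfl fun l _ => ?_
  have h6 := (w.posU l t ht).ne'
  have h7 := (w.posU m t ht).ne'
  have h8 := (w.posP m t ht).ne'
  rw [rr]
  field_simp

omit hC0 hC in
theorem lim_f : Tendsto (fun t => sm a P1 t / P m t) atTop (𝓝 (a m)) := by
  have h1 := (w.lim_h ham hm hlm).mul (w.lim_ph_div ham hm)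
  rw [one_mul] at h1
  refine h1.congr' ?_
  filter_upwards [eventually_gt_atTop 0] with t ht
  have h6 := (w.posph t ht).ne'
  have h8 := (w.posP m t ht).ne'
  rw [hh]
  field_simp

theorem dm_sq : d m ^ 2 = (a m * C m) ^ 2 := by
  have h1 := ((w.lim_f ham hm hlm).pow 2).sub ((w.lim_g ham hm hlm hC0 hC).pow 2)
  have h2 : Tendsto (fun t => (sm a P1 t / P m t) ^ 2 - (sm d U1 t / P m t) ^ 2) atTop (𝓝 0) := by
    have h3 : Tendsto (fun t => (P m t ^ 2)⁻¹) atTop (𝓝 0) :=
      ((tendsto_pow_atTop two_ne_zero).comp (w.P_top ham hm hlm m)).inv_tendsto_atTop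
    refine h3.congr' ?_
    filter_upwards [eventually_gt_atTop 0] with t ht
    rw [div_pow, div_pow, ← sub_div, w.con t ht, one_div]
  have h3 := tendsto_nhds_unique h1 h2
  have hCm := (hC0 m).ne'
  have h4 : d m ^ 2 / C m ^ 2 = a m ^ 2 := by
    rw [div_pow] at h3
    linarith
  rw [div_eq_iff (by positivity)] at h4
  rw [h4]
  ring

variable (hdm : d m = a m * C m)
include hdm

/-- `φ' - γ' → 0` -/
theorem lim_E : Tendsto (fun t => sm a P1 t - sm d U1 t) atTop (𝓝 0) := by
  have hamp := w.am_pos ham hm
  have h1 := (w.lim_f ham hm hlm).add (w.lim_g ham hm hlm hC0 hC)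
  have h2 : a m + d m / C m = 2 * a m := by
    rw [hdm]
    have := (hC0 m).ne'
    field_simp
    ring
  rw [h2] at h1
  have h3 : Tendsto (fun t => sm a P1 t + sm d U1 t) atTop atTop := by
    have h4 := (w.P_top ham hm hlm m).atTop_mul_pos (by linarith : 0 < 2 * a m) h1
    refine h4.congr' ?_
    filter_upwards [eventually_gt_atTop 0] with t ht
    have := (w.posP m t ht).ne'
    field_simp
  refine h3.inv_tendsto_atTop.congr' ?_
  filter_upwards [eventually_gt_atTop 0, h3.eventually_gt_atTop 0] with t ht ht2
  have h5 := w.con t ht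
  simp only [Pi.inv_apply]
  exact inv_eq_of_mul_eq_one_right (by linear_combination h5)

/-- all the coefficients match -/
theorem all_eq (hk : ∀ i, 0 < 2 * alpha N (lam i) + N - 2) (i : ι) : d i = a i * C i := by
  classical
  by_contra hi
  obtain ⟨l, hl, hlmax⟩ := Finset.exists_max_image
    (Finset.univ.filter fun l => d l ≠ a l * C l) lam ⟨i, by simp [hi]⟩
  rw [Finset.mem_filter] at hl
  have hUl := w.U_top ham hm hlm l
  have hinv : Tendsto (fun t => (U l t)⁻¹) atTop (𝓝 0) := hUl.inv_tendsto_atTop
  -- each term
  have hterm : ∀ x, Tendsto (fun t => (a x * P1 x t - d x * U1 x t) * (U l t)⁻¹) atTop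
      (𝓝 (if x = l then (a l * C l - d l) * alpha N (lam l) else 0)) := by
    intro x
    by_cases hxB : d x = a x * C x
    · have hxl : x ≠ l := by
        rintro rfl
        exact hl.2 hxB
      rw [if_neg hxl]
      have hT := w.lim_T ham hm hlm (hC0 x) (hC x) (hk x)
      have h0 : Tendsto (fun t => a x * (P1 x t - C x * U1 x t)) atTop (𝓝 0) := by
        by_cases hax : a x = 0
        · rw [hax]
          simp
        · have hthx : Tendsto (th a P x) atTop (𝓝 (if x = m then 1 else 0)) := by
            by_cases hxm : x = m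
            · rw [if_pos hxm, hxm]
              exact w.lim_th_m ham hm
            · rw [if_neg hxm]
              exact w.lim_th ham hm hxm
          have h1 := (hthx.mul hT).mul w.ph_atTop.inv_tendsto_atTop
          rw [mul_zero] at h1
          refine h1.congr' ?_
          filter_upwards [eventually_gt_atTop 0] with t ht
          have e1 := (w.posph t ht).ne'
          have e2 := (w.posP x t ht).ne'
          have e3 := (w.posU x t ht).ne'
          simp only [Pi.inv_apply]
          rw [th, rr, rr, qq]
          field_simp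
      have h1 := h0.mul hinv
      rw [zero_mul] at h1
      refine h1.congr fun t => ?_
      rw [hxB]
      ring
    · have hle := hlmax x (by simp [hxB])
      by_cases hxl : x = l
      · subst hxl
        rw [if_pos rfl]
        have h1 := (((hC x).mul (w.lim_R ham hm hlm x)).const_mul (a x)).sub
          ((w.lim_S ham hm hlm x).const_mul (d x))
        have h2 : a x * (C x * alpha N (lam x)) - d x * alpha N (lam x) =
            (a x * C x - d x) * alpha N (lam x) := by ring
        rw [h2] at h1
        refine h1.congr' ?_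
        filter_upwards [eventually_gt_atTop 0] with t ht
        have e2 := (w.posP x t ht).ne'
        have e3 := (w.posU x t ht).ne'
        rw [rr, rr]
        field_simp
      · rw [if_neg hxl]
        have hlt : lam x < lam l := lt_of_le_of_ne hle fun h3 => hxl (w.lamne h3)
        have hUU := w.lim_UU ham hm hlm hlt
        have h1 := ((((hC x).mul (w.lim_R ham hm hlm x)).const_mul (a x)).sub
          ((w.lim_S ham hm hlm x).const_mul (d x))).mul hUU
        rw [mul_zero] at h1
        refine h1.congr' ?_
        filter_upwards [eventually_gt_atTop 0] with t ht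
        have e2 := (w.posP x t ht).ne'
        have e3 := (w.posU x t ht).ne'
        have e4 := (w.posU l t ht).ne'
        rw [rr, rr]
        field_simp
  have hsum := tendsto_finsetSum Finset.univ fun x _ => hterm x
  simp only [Finset.sum_ite_eq', Finset.mem_univ, if_true] at hsum
  have hzero := (w.lim_E ham hm hlm hC0 hC hdm).mul hinv
  rw [zero_mul] at hzero
  have huniq := tendsto_nhds_unique (hzero.congr fun t => by
    rw [sm, sm, ← Finset.sum_sub_distrib, Finset.sum_mul]) hsum
  have hαp := alpha_pos (N := N) (w.lampos l)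
  rcases mul_eq_zero.1 huniq.symm with h1 | h1
  · exact hl.2 (by linarith)
  · linarith

end WS

end

end Run7.h978.Rot
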