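import Mathlib
import Pool.Agent.Run7.h978.Asy5

set_option autoImplicit false

/-!
The contradiction for two modes.
-/

open Set Filter Topology

namespace Run7.h978.Rot

/-- the algebraic contradiction -/
theorem alg_contra {N α κ β κ' c : ℝ} (hN : 1 ≤ N) (h0 : 0 < α) (h1 : α < 1)
    (hk : 0 < 2 * α + N - 2)
    (hκ : κ = -(N * (α - 1)) / (2 * (N + 1) + (α - 1))) (hβ : β = κ + (α - 1))
    (hκ' : κ' = -(2 * κ + (N - 2) * β) / (N + (α - 1)))
    (hc : c = (κ' - β) / (3 - α)) :
    -1 / 2 + (κ' - κ / 2 - c) + N / (2 * α + N - 2) * (1 - α / 2) ≠ -β / 2 := by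
  have e1 : 0 < 2 * (N + 1) + (α - 1) := by linarith
  have e2 : 0 < N + (α - 1) := by linarith
  have e3 : 0 < 3 - α := by linarith
  have key : -1 / 2 + (κ' - κ / 2 - c) + N / (2 * α + N - 2) * (1 - α / 2) - (-β / 2) =
      (1 - α) ^ 2 * (α + N) * (α + N + 1) * (N + 3 - α) /
        ((3 - α) * (2 * (N + 1) + (α - 1)) * (N + (α - 1)) * (2 * α + N - 2)) := by
    rw [hc, hκ', hβ, hκ]
    have n1 := e1.ne'
    have n2 := e2.ne'
    have n3 := e3.ne'
    have n4 := hk.ne'
    field_simp
    ring
  have hpos : 0 < (1 - α) ^ 2 * (α + N) * (α + N + 1) * (N + 3 - α) /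
        ((3 - α) * (2 * (N + 1) + (α - 1)) * (N + (α - 1)) * (2 * α + N - 2)) := by
    have f1 : 0 < 1 - α := by linarith
    have f2 : 0 < N + 3 - α := by linarith
    positivity
  intro h
  rw [h, sub_self] at key
  linarith

section

variable {ι : Type} [Fintype ι]

namespace WS

variable {N : ℕ} {lam a d : ι → ℝ} {P P1 U U1 : ι → ℝ → ℝ} (w : WS N lam a d P P1 U U1)
  {m : ι} (ham : a m ≠ 0) (hm : ∀ i, a i ≠ 0 → i ≠ m → lam i < lam m) (hlm : lam m = N + 1)
include w ham hm hlm

variable {C : ι → ℝ} (hC0 : ∀ i, 0 < C i)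
  (hC : ∀ i, Tendsto (fun t => P i t / U i t) atTop (𝓝 (C i)))
include hC0 hC

theorem second_false (hN : 1 ≤ N) (hk : ∀ i, 0 < 2 * alpha N (lam i) + N - 2)
    (hda : ∀ i, d i = a i * C i) {j : ι} (haj : a j ≠ 0) (hjm : j ≠ m)
    (hj : ∀ i, a i ≠ 0 → i ≠ m → i ≠ j → lam i < lam j) : False := by
  classical
  have hN' : (1 : ℝ) ≤ N := by exact_mod_cast hN
  have hα0 : 0 < alpha N (lam j) := alpha_pos (w.lampos j)
  have hα1 : alpha N (lam j) < 1 := by
    have := alpha_lt (N := N) (w.lampos j).le (hm j haj hjm)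
    rwa [hlm, alpha_one] at this
  have hkj := hk j
  set α := alpha N (lam j) with hα
  have lR := fun i => w.lim_R ham hm hlm i
  have lS := fun i => w.lim_S ham hm hlm i
  have lh := w.lim_h ham hm hlm
  have lRm := w.lim_Rm ham hm hlm
  have lSm : Tendsto (rr U U1 m) atTop (𝓝 1) := by
    have := lS m
    rwa [hlm, alpha_one] at this
  have lRj : Tendsto (rr P P1 j) atTop (𝓝 α) := lR j
  set θ : ℝ → ℝ := th a P j with hθ
  have hθ0 : ∀ t, 0 < t → θ t ≠ 0 := by
    intro t ht
    have h1 := w.posph t ht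
    have h2 := w.posP j t ht
    rw [hθ, th]
    exact div_ne_zero (mul_ne_zero haj h2.ne') h1.ne'
  have dθ : ∀ t, 0 < t → HasDerivAt θ (θ t * (rr P P1 j t - hh a P P1 t)) t :=
    fun t ht => w.d_th j ht
  have lθ : Tendsto θ atTop (𝓝 0) := w.lim_th ham hm hjm
  -- ratios of the shares
  have hrat : ∀ l, l ≠ m → l ≠ j → Tendsto (fun t => th a P l t / θ t) atTop (𝓝 0) := by
    intro l hlm' hlj
    by_cases ha : a l = 0
    · have : (fun t => th a P l t / θ t) = fun _ => 0 := by
        funext t
        rw [th, ha]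
        simp
      rw [this]
      exact tendsto_const_nhds
    · have h1 := (w.dom (hj l ha hlm' hlj)).const_mul (a l / a j)
      rw [mul_zero] at h1
      refine h1.congr' ?_
      filter_upwards [eventually_gt_atTop 0] with t ht
      have e1 := (w.posph t ht).ne'
      have e2 := (w.posP j t ht).ne'
      rw [hθ, th, th]
      field_simp
  -- `q / θ → 0`
  have lqθ : Tendsto (fun t => qq a P t / θ t) atTop (𝓝 0) := by
    have h1 := w.ph_atTop.inv_tendsto_atTop.mul
      ((w.P_top ham hm hlm j).inv_tendsto_atTop.const_mul (a j)⁻¹)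
    rw [mul_zero, mul_zero] at h1
    refine h1.congr' ?_
    filter_upwards [eventually_gt_atTop 0] with t ht
    have e1 := (w.posph t ht).ne'
    have e2 := (w.posP j t ht).ne'
    simp only [Pi.inv_apply]
    rw [hθ, th, qq]
    field_simp
  -- `(h - R_m) / θ → α - 1`
  have lg1 : Tendsto (fun t => (hh a P P1 t - rr P P1 m t) / θ t) atTop (𝓝 (α - 1)) := by
    have h1 : ∀ l, Tendsto (fun t => th a P l t / θ t * (rr P P1 l t - rr P P1 m t)) atTop
        (𝓝 (if l = j then α - 1 else 0)) := by
      intro l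
      by_cases hlj : l = j
      · subst hlj
        rw [if_pos rfl]
        refine (lRj.sub lRm).congr' ?_
        filter_upwards [eventually_gt_atTop 0] with t ht
        have : th a P l t / θ t = 1 := div_self (hθ0 t ht)
        rw [this, one_mul]
      · rw [if_neg hlj]
        by_cases hlm' : l = m
        · subst hlm'
          simp
        · have := (hrat l hlm' hlj).mul ((lR l).sub lRm)
          simpa using this
    have h2 := tendsto_finsetSum Finset.univ fun l _ => h1 l
    simp only [Finset.sum_ite_eq', Finset.mem_univ, if_true] at h2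
    refine h2.congr' ?_
    filter_upwards [eventually_gt_atTop 0] with t ht
    rw [w.h_sub m ht, Finset.sum_div]
    exact Finset.sum_congr rfl fun l _ => by ring
  -- `(θ_m - 1) / θ → -1`
  have lθm : Tendsto (fun t => (th a P m t - 1) / θ t) atTop (𝓝 (-1)) := by
    have h1 : ∀ l, Tendsto (fun t => (if l = m then 0 else th a P l t / θ t)) atTop
        (𝓝 (if l = j then 1 else 0)) := by
      intro l
      by_cases hlm' : l = m
      · subst hlm'
        rw [if_neg (Ne.symm hjm)]
        simp
      · simp only [if_neg hlm']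
        by_cases hlj : l = j
        · subst hlj
          rw [if_pos rfl]
          refine tendsto_const_nhds.congr' ?_
          filter_upwards [eventually_gt_atTop 0] with t ht
          exact (div_self (hθ0 t ht)).symm
        · rw [if_neg hlj]
          exact hrat l hlm' hlj
    have h2 := (tendsto_finsetSum Finset.univ fun l _ => h1 l).neg
    simp only [Finset.sum_ite_eq', Finset.mem_univ, if_true] at h2
    refine h2.congr' ?_
    filter_upwards [eventually_gt_atTop 0] with t ht
    have h3 := w.sum_th ht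
    have h4 : ∑ l, (if l = m then 0 else th a P l t / θ t) =
        (∑ l, th a P l t / θ t) - th a P m t / θ t := by
      rw [← Finset.sum_erase_eq_sub (Finset.mem_univ m)]
      rw [← Finset.sum_erase_add _ _ (Finset.mem_univ m), if_pos rfl, add_zero]
      exact Finset.sum_congr rfl fun l hl => if_neg (Finset.ne_of_mem_erase hl)
    rw [h4, ← Finset.sum_div, h3]
    ring
  -- `x = (R_m - 1) / θ → κ`
  set κ : ℝ := -(N * (α - 1)) / (2 * (N + 1) + (α - 1)) with hκ
  have lx : Tendsto (fun t => (rr P P1 m t - 1) / θ t) atTop (𝓝 κ) := by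
    refine ode_lim (p := fun t => (N + 1) * (1 + rr P P1 m t) + (rr P P1 j t - hh a P P1 t))
      (b := fun t => N * (qq a P t / θ t) -
        N * rr P P1 m t * ((hh a P P1 t - rr P P1 m t) / θ t)) (by linarith) ?_ ?_ ?_
    · filter_upwards [eventually_gt_atTop 0] with t ht
      have e1 := hθ0 t ht
      refine (((w.d_R m ht).sub_const 1).div (dθ t ht) e1).congr_deriv ?_
      rw [hlm]
      field_simp
      ring
    · have h1 := ((lRm.const_add 1).const_mul ((N : ℝ) + 1)).add (lRj.sub lh)
      have h2 : ((N : ℝ) + 1) * (1 + 1) + (α - 1) = 2 * (N + 1) + (α - 1) := by ring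
      rwa [h2] at h1
    · have h1 := (lqθ.const_mul (N : ℝ)).sub ((lRm.const_mul (N : ℝ)).mul lg1)
      have h2 : (N : ℝ) * 0 - N * 1 * (α - 1) = -(N * (α - 1)) := by ring
      rwa [h2] at h1
  -- `(h - 1) / θ → β`
  set β : ℝ := κ + (α - 1) with hβ
  have lh1 : Tendsto (fun t => (hh a P P1 t - 1) / θ t) atTop (𝓝 β) := by
    refine (lx.add lg1).congr fun t => ?_
    ring
  -- `A → 1`
  have hkm : 2 * alpha N (lam m) + N - 2 = N := by
    rw [hlm, alpha_one]
    ring
  have lA : Tendsto (fun t => (rr P P1 m t - rr U U1 m t) / qq a P t) atTop (𝓝 1) := by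
    have h1 := w.lim_A ham hm hlm m (hk m)
    rwa [hkm, div_self (by positivity)] at h1
  -- `(S_m - 1) / θ → κ`
  have lS1 : Tendsto (fun t => (rr U U1 m t - 1) / θ t) atTop (𝓝 κ) := by
    have h1 := lx.sub (lA.mul lqθ)
    rw [mul_zero, sub_zero] at h1
    refine h1.congr' ?_
    filter_upwards [eventually_gt_atTop 0] with t ht
    have e1 := hθ0 t ht
    have e2 := (w.pos_q ht).ne'
    field_simp
    ring
  -- `y = (A - 1) / θ → κ'`
  set κ' : ℝ := -(2 * κ + (N - 2) * β) / (N + (α - 1)) with hκ'
  have ly : Tendsto (fun t => ((rr P P1 m t - rr U U1 m t) / qq a P t - 1) / θ t) atTop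
      (𝓝 κ') := by
    refine ode_lim (p := fun t => rr P P1 m t + rr U U1 m t + (N - 2) * hh a P P1 t +
        (rr P P1 j t - hh a P P1 t))
      (b := fun t => -((rr P P1 m t - 1) / θ t + (rr U U1 m t - 1) / θ t +
        (N - 2) * ((hh a P P1 t - 1) / θ t))) (by linarith) ?_ ?_ ?_
    · filter_upwards [eventually_gt_atTop 0] with t ht
      have e1 := hθ0 t ht
      have e2 := (w.pos_q ht).ne'
      refine ((((w.d_del m ht).div (w.d_q ht) e2).sub_const 1).div (dθ t ht) e1).congr_deriv ?_
      simp only [Pi.div_apply]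
      field_simp
      ring
    · have h1 := ((lRm.add lSm).add (lh.const_mul ((N : ℝ) - 2))).add (lRj.sub lh)
      have h2 : (1 : ℝ) + 1 + (N - 2) * 1 + (α - 1) = N + (α - 1) := by ring
      rwa [h2] at h1
    · have h1 := ((lx.add lS1).add (lh1.const_mul ((N : ℝ) - 2))).neg
      have h2 : -(κ + κ + ((N : ℝ) - 2) * β) = -(2 * κ + (N - 2) * β) := by ring
      rwa [h2] at h1
  -- `Q`
  set Q : ℝ → ℝ := fun t => C m * (U m t / P m t) - 1 with hQ
  have lQ : Tendsto Q atTop (𝓝 0) := w.lim_Q ham hm hlm (hC0 m) (hC m)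
  have lQq : Tendsto (fun t => Q t / qq a P t) atTop (𝓝 (1 / 2)) := by
    have h1 := w.lim_Qq ham hm hlm (hC0 m) (hC m) (hk m)
    rwa [hkm, div_self (by positivity)] at h1
  -- `z = (Q - q / 2) / (q θ) → c`
  set c : ℝ := (κ' - β) / (3 - α) with hc
  have lz : Tendsto (fun t => (Q t - qq a P t / 2) / (qq a P t * θ t)) atTop (𝓝 c) := by
    refine HasDerivAt.lhopital_zero_atTop
      (f' := fun t => -(rr P P1 m t - rr U U1 m t) * (1 + Q t) -
        -2 * hh a P P1 t * qq a P t / 2)
      (g' := fun t => -2 * hh a P P1 t * qq a P t * θ t +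
        qq a P t * (θ t * (rr P P1 j t - hh a P P1 t))) ?_ ?_ ?_ ?_ ?_ ?_
    · filter_upwards [eventually_gt_atTop 0] with t ht
      exact (w.d_Q ht).sub ((w.d_q ht).div_const 2)
    · filter_upwards [eventually_gt_atTop 0] with t ht
      exact (w.d_q ht).mul (dθ t ht)
    · have h3 : Tendsto (fun t => rr P P1 j t - 3 * hh a P P1 t) atTop (𝓝 (α - 3 * 1)) :=
        lRj.sub (lh.const_mul 3)
      have h4 : α - 3 * 1 < 0 := by linarith
      filter_upwards [eventually_gt_atTop 0, h3.eventually (gt_mem_nhds h4)] with t ht h5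
      have e1 := hθ0 t ht
      have e2 := (w.pos_q ht).ne'
      have h6 : -2 * hh a P P1 t * qq a P t * θ t +
        qq a P t * (θ t * (rr P P1 j t - hh a P P1 t)) =
        qq a P t * θ t * (rr P P1 j t - 3 * hh a P P1 t) := by ring
      rw [h6]
      exact mul_ne_zero (mul_ne_zero e2 e1) h5.ne
    · have h1 := lQ.sub (w.lim_q.div_const 2)
      simpa using h1
    · have h1 := w.lim_q.mul lθ
      simpa using h1
    · have h1 : Tendsto (fun t => (-(((rr P P1 m t - rr U U1 m t) / qq a P t - 1) / θ t) -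
          (rr P P1 m t - rr U U1 m t) / qq a P t * (Q t / qq a P t * (qq a P t / θ t)) +
          (hh a P P1 t - 1) / θ t) / (rr P P1 j t - 3 * hh a P P1 t)) atTop
          (𝓝 ((-κ' - 1 * (1 / 2 * 0) + β) / (α - 3 * 1))) :=
        ((ly.neg.sub (lA.mul (lQq.mul lqθ))).add lh1).div (lRj.sub (lh.const_mul 3))
          (by linarith)
      have h2 : (-κ' - 1 * (1 / 2 * 0) + β) / (α - 3 * 1) = c := by
        rw [hc]
        have e1 : α - 3 * 1 ≠ 0 := by linarith
        have e2 : 3 - α ≠ 0 := by linarith
        rw [div_eq_div_iff e1 e2]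
        ring
      rw [h2] at h1
      refine h1.congr' ?_
      have h3 : Tendsto (fun t => rr P P1 j t - 3 * hh a P P1 t) atTop (𝓝 (α - 3 * 1)) :=
        lRj.sub (lh.const_mul 3)
      have h4 : α - 3 * 1 < 0 := by linarith
      filter_upwards [eventually_gt_atTop 0, h3.eventually (gt_mem_nhds h4)] with t ht h5
      have e1 := hθ0 t ht
      have e2 := (w.pos_q ht).ne'
      have h6 : -2 * hh a P P1 t * qq a P t * θ t +
        qq a P t * (θ t * (rr P P1 j t - hh a P P1 t)) =
        qq a P t * θ t * (rr P P1 j t - 3 * hh a P P1 t) := by ring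
      rw [h6]
      have e3 := h5.ne
      field_simp
      ring
  -- the top mode
  have lTm : Tendsto (fun t => (rr P P1 m t - C m * (U m t / P m t) * rr U U1 m t) / qq a P t)
      atTop (𝓝 (1 / 2)) := by
    have h1 := w.lim_T ham hm hlm (hC0 m) (hC m) (hk m)
    rw [hkm, div_self (by positivity), hlm, alpha_one] at h1
    have h2 : (1 : ℝ) * (1 - 1 / 2) = 1 / 2 := by norm_num
    rwa [h2] at h1
  have lW : Tendsto (fun t => ((rr P P1 m t - C m * (U m t / P m t) * rr U U1 m t) / qq a P t -
      1 / 2) / θ t) atTop (𝓝 (κ' - κ / 2 - c)) := by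
    have h1 := (ly.sub (lS1.div_const 2)).sub (lz.mul lSm)
    rw [mul_one] at h1
    refine h1.congr' ?_
    filter_upwards [eventually_gt_atTop 0] with t ht
    have e1 := hθ0 t ht
    have e2 := (w.pos_q ht).ne'
    have e3 : C m * (U m t / P m t) = 1 + Q t := by
      rw [hQ]
      ring
    rw [e3]
    field_simp
    ring
  -- the sum
  set Tl : ι → ℝ → ℝ := fun l t =>
    (rr P P1 l t - C l * (U l t / P l t) * rr U U1 l t) / qq a P t with hTl
  have lsum : Tendsto (fun t => (∑ l, th a P l t * Tl l t - 1 / 2) / θ t) atTop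
      (𝓝 (-1 / 2 + (κ' - κ / 2 - c) + N / (2 * α + N - 2) * (1 - α / 2))) := by
    have h1 : ∀ l, Tendsto (fun t => (if l = m then
        (th a P l t * Tl l t - 1 / 2) / θ t else th a P l t / θ t * Tl l t)) atTop
        (𝓝 ((if l = m then -1 / 2 + (κ' - κ / 2 - c) else 0) +
          (if l = j then N / (2 * α + N - 2) * (1 - α / 2) else 0))) := by
      intro l
      by_cases hlm' : l = m
      · subst hlm'
        simp only [if_true, if_neg (Ne.symm hjm), add_zero]
        have h2 := (lθm.mul lTm).add lW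
        have h3 : (-1 : ℝ) * (1 / 2) + (κ' - κ / 2 - c) = -1 / 2 + (κ' - κ / 2 - c) := by ring
        rw [h3] at h2
        refine h2.congr fun t => ?_
        simp only [hTl]
        ring
      · simp only [if_neg hlm', zero_add]
        by_cases hlj : l = j
        · subst hlj
          rw [if_pos rfl]
          have h2 := w.lim_T ham hm hlm (hC0 l) (hC l) (hk l)
          refine h2.congr' ?_
          filter_upwards [eventually_gt_atTop 0] with t ht
          have : th a P l t / θ t = 1 := div_self (hθ0 t ht)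
          rw [this, one_mul]
        · rw [if_neg hlj]
          have h2 := (hrat l hlm' hlj).mul (w.lim_T ham hm hlm (hC0 l) (hC l) (hk l))
          rw [zero_mul] at h2
          exact h2
    have h2 := tendsto_finsetSum Finset.univ fun l _ => h1 l
    simp only [Finset.sum_add_distrib, Finset.sum_ite_eq', Finset.mem_univ, if_true] at h2
    refine h2.congr fun t => ?_
    have h3 : ∀ l, (if l = m then (th a P l t * Tl l t - 1 / 2) / θ t else
        th a P l t / θ t * Tl l t) = th a P l t * Tl l t / θ t -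
          (if l = m then 1 / 2 / θ t else 0) := by
      intro l
      split <;> ring
    simp only [h3, Finset.sum_sub_distrib, Finset.sum_ite_eq', Finset.mem_univ, if_true]
    rw [← Finset.sum_div]
    ring
  -- the constraint
  have lθ2 : Tendsto (fun t => ∑ l, th a P l t * Tl l t) atTop (𝓝 (1 / 2)) := by
    have h1 := (lsum.mul lθ).add_const (1 / 2)
    rw [mul_zero, zero_add] at h1
    refine h1.congr' ?_
    filter_upwards [eventually_gt_atTop 0] with t ht
    have e1 := hθ0 t ht
    field_simp
    ring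
  have hcon : ∀ t, 0 < t → (∑ l, th a P l t * Tl l t) *
      (2 * hh a P P1 t - qq a P t * ∑ l, th a P l t * Tl l t) = 1 := by
    intro t ht
    have e1 := (w.posph t ht).ne'
    have h1 : qq a P t * ∑ l, th a P l t * Tl l t = (sm a P1 t - sm d U1 t) / sm a P t := by
      rw [sm, sm, ← Finset.sum_sub_distrib, Finset.sum_div, Finset.mul_sum]
      refine Finset.sum_congr rfl fun l _ => ?_
      have e2 := (w.posP l t ht).ne'
      have e3 := (w.posU l t ht).ne'
      have e4 := (w.pos_q ht).ne'
      simp only [hTl, hda l, th, rr]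
      field_simp
    have h2 : (∑ l, th a P l t * Tl l t) = (sm a P1 t - sm d U1 t) * sm a P t := by
      have h3 : qq a P t = 1 / sm a P t ^ 2 := rfl
      rw [h3] at h1
      field_simp at h1
      linarith
    rw [h1, h2, hh]
    have h4 := w.con t ht
    field_simp
    linear_combination h4
  have lfin : Tendsto (fun t => (∑ l, th a P l t * Tl l t - 1 / 2) / θ t) atTop
      (𝓝 (-β / 2)) := by
    have h1 : Tendsto (fun t => (-2 * ((hh a P P1 t - 1) / θ t) +
        (∑ l, th a P l t * Tl l t) * (qq a P t / θ t)) /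
        (2 * (2 * hh a P P1 t - qq a P t * ∑ l, th a P l t * Tl l t))) atTop
        (𝓝 ((-2 * β + 1 / 2 * 0) / (2 * (2 * 1 - 0 * (1 / 2))))) :=
      ((lh1.const_mul (-2)).add (lθ2.mul lqθ)).div
        (((lh.const_mul 2).sub (w.lim_q.mul lθ2)).const_mul 2) (by norm_num)
    have h2 : (-2 * β + 1 / 2 * 0) / (2 * (2 * 1 - 0 * (1 / 2))) = -β / 2 := by ring
    rw [h2] at h1
    refine h1.congr' ?_
    filter_upwards [eventually_gt_atTop 0] with t ht
    have e1 := hθ0 t ht
    have h3 := hcon t ht
    set S := ∑ l, th a P l t * Tl l t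
    have e2 : 2 * hh a P P1 t - qq a P t * S ≠ 0 := by
      intro h4
      rw [h4, mul_zero] at h3
      exact zero_ne_one h3
    rw [div_eq_div_iff (by positivity) e1]
    have h5 : (-2 * ((hh a P P1 t - 1) / θ t) + S * (qq a P t / θ t)) * θ t =
        -2 * (hh a P P1 t - 1) + S * qq a P t := by
      field_simp
    rw [h5]
    linear_combination (-2) * h3
  exact alg_contra hN' hα0 hα1 hkj hκ hβ hκ' hc (tendsto_nhds_unique lsum lfin)

end WS

end

end Run7.h978.Rot
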