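import Mathlib
import Pool.Agent.Run7.h978.Asy6

set_option autoImplicit false

/-!
The system has only one active index.
-/

open Set Filter Topology

namespace Run7.h978.Rot

section

variable {ι : Type} [Fintype ι]

namespace WS

variable {N : ℕ} {lam a d : ι → ℝ} {P P1 U U1 : ι → ℝ → ℝ}

theorem neg (w : WS N lam a d P P1 U U1) : WS N lam a (fun i => -d i) P P1 U U1 := by
  refine ⟨w.lampos, w.lamne, w.dP, w.dP1, w.dU, w.dU1, w.posP, w.posP1, w.posU, w.posU1,
    w.posZ, w.posph, w.ph1, fun t ht => ?_⟩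
  have h1 : sm (fun i => -d i) U1 t = -sm d U1 t := by
    rw [sm, sm, ← Finset.sum_neg_distrib]
    exact Finset.sum_congr rfl fun i _ => by ring
  rw [h1, neg_sq]
  exact w.con t ht

theorem single_norm (w : WS N lam a d P P1 U U1) {m : ι} (ham : a m ≠ 0)
    (hm : ∀ i, a i ≠ 0 → i ≠ m → lam i < lam m) (hlm : lam m = N + 1) (hN : 1 ≤ N)
    (hk : ∀ i, 0 < 2 * alpha N (lam i) + N - 2) (i : ι) (him : i ≠ m) : a i = 0 ∧ d i = 0 := by
  classical
  choose C hC0 hC using fun i => w.exists_C ham hm hlm i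
  have key : ∀ d' : ι → ℝ, WS N lam a d' P P1 U U1 → d' m = a m * C m →
      a i = 0 ∧ d' i = 0 := by
    intro d' w' hdm
    have hda := w'.all_eq ham hm hlm hC0 hC hdm hk
    have h1 : a i = 0 := by
      by_contra hai
      obtain ⟨j, hj, hjmax⟩ := Finset.exists_max_image
        (Finset.univ.filter fun l => a l ≠ 0 ∧ l ≠ m) lam ⟨i, by simp [hai, him]⟩
      rw [Finset.mem_filter] at hj
      refine w'.second_false ham hm hlm hC0 hC hN hk hda hj.2.1 hj.2.2 fun l hl hlm' hlj => ?_
      exact lt_of_le_of_ne (hjmax l (by simp [hl, hlm'])) fun h => hlj (w.lamne h)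
    refine ⟨h1, ?_⟩
    rw [hda i, h1, zero_mul]
  have h2 := w.dm_sq ham hm hlm hC0 hC
  rcases sq_eq_sq_iff_eq_or_eq_neg.1 h2 with h3 | h3
  · exact key d w h3
  · have h4 := key _ w.neg (by simp [h3])
    refine ⟨h4.1, ?_⟩
    have := h4.2
    simpa using this

/-- scaling of the time -/
theorem scale (w : WS N lam a d P P1 U U1) {H : ℝ} (hH : 0 < H) :
    WS N (fun i => lam i / H ^ 2) a d (fun i t => H * P i (t / H)) (fun i t => P1 i (t / H))
      (fun i t => H * U i (t / H)) (fun i t => U1 i (t / H)) := by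
  have hH0 := hH.ne'
  have e1 : ∀ (b : ι → ℝ) (f : ι → ℝ → ℝ) (t : ℝ),
      sm b (fun i t => H * f i (t / H)) t = H * sm b f (t / H) := by
    intro b f t
    rw [sm, sm, Finset.mul_sum]
    exact Finset.sum_congr rfl fun i _ => by ring
  have e2 : ∀ (b : ι → ℝ) (f : ι → ℝ → ℝ) (t : ℝ),
      sm b (fun i t => f i (t / H)) t = sm b f (t / H) := fun b f t => rfl
  have hd : ∀ t : ℝ, HasDerivAt (fun t => t / H) (1 / H) t := fun t => (hasDerivAt_id t).div_const H
  have hp : ∀ t : ℝ, 0 < t → 0 < t / H := fun t ht => div_pos ht hH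
  refine ⟨fun i => div_pos (w.lampos i) (by positivity), fun i j hij => ?_, fun i t ht => ?_,
    fun i t ht => ?_, fun i t ht => ?_, fun i t ht => ?_, fun i t ht => ?_, fun i t ht => ?_,
    fun i t ht => ?_, fun i t ht => ?_, fun i t ht => ?_, fun t ht => ?_, fun t ht => ?_,
    fun t ht => ?_⟩
  · refine w.lamne ?_
    have h2 : H ^ 2 ≠ 0 := pow_ne_zero 2 hH0
    have h3 : lam i / H ^ 2 = lam j / H ^ 2 := hij
    rwa [div_left_inj' h2] at h3
  · refine (((w.dP i (t / H) (hp t ht)).comp t (hd t)).const_mul H).congr_deriv ?_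
    field_simp
  · refine ((w.dP1 i (t / H) (hp t ht)).comp t (hd t)).congr_deriv ?_
    have h3 := (w.posph (t / H) (hp t ht)).ne'
    rw [qq, qq, hh, hh, e1, e2]
    field_simp
  · refine (((w.dU i (t / H) (hp t ht)).comp t (hd t)).const_mul H).congr_deriv ?_
    field_simp
  · refine ((w.dU1 i (t / H) (hp t ht)).comp t (hd t)).congr_deriv ?_
    have h3 := (w.posph (t / H) (hp t ht)).ne'
    rw [hh, hh, e1, e2]
    field_simp
  · exact mul_pos hH (w.posP i _ (hp t ht))
  · exact w.posP1 i _ (hp t ht)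
  · exact mul_pos hH (w.posU i _ (hp t ht))
  · exact w.posU1 i _ (hp t ht)
  · have := mul_pos hH (w.posZ i _ (hp t ht))
    linarith
  · rw [e1]
    exact mul_pos hH (w.posph _ (hp t ht))
  · exact w.ph1 _ (hp t ht)
  · exact w.con _ (hp t ht)

/-- only one index is active -/
theorem single (w : WS N lam a d P P1 U U1) (hN : 1 ≤ N)
    (hk : 2 ≤ N ∨ ∀ i j, 3 / 8 * lam j < lam i) :
    ∃ m, a m ≠ 0 ∧ ∀ i, i ≠ m → a i = 0 ∧ d i = 0 := by
  classical
  have h0 : ∃ i, a i ≠ 0 := by
    by_contra hcon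
    push Not at hcon
    have h1 := w.ph1 1 one_pos
    have h2 : sm a P1 1 = 0 := by
      rw [sm]
      exact Finset.sum_eq_zero fun i _ => by rw [hcon i, zero_mul]
    linarith
  obtain ⟨i0, hi0⟩ := h0
  obtain ⟨m, hm, hmax⟩ := Finset.exists_max_image
    (Finset.univ.filter fun l => a l ≠ 0) lam ⟨i0, by simp [hi0]⟩
  rw [Finset.mem_filter] at hm
  have hlm := w.lampos m
  have hN1 : (0 : ℝ) < N + 1 := by positivity
  set H : ℝ := Real.sqrt (lam m / (N + 1)) with hH
  have hH0 : 0 < H := Real.sqrt_pos.2 (by positivity)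
  have hH2 : H ^ 2 = lam m / (N + 1) := Real.sq_sqrt (by positivity)
  refine ⟨m, hm.2, fun i hi => ?_⟩
  refine (w.scale hH0).single_norm hm.2 (fun l hl hlm' => ?_) ?_ hN (fun l => ?_) i hi
  · have h3 : lam l < lam m := lt_of_le_of_ne (hmax l (by simp [hl])) fun h => hlm' (w.lamne h)
    have h4 : 0 < H ^ 2 := by positivity
    exact div_lt_div_of_pos_right h3 h4
  · show lam m / H ^ 2 = N + 1
    rw [hH2]
    field_simp
  · show 0 < 2 * alpha N (lam l / H ^ 2) + N - 2
    have hpos : 0 < lam l / H ^ 2 := div_pos (w.lampos l) (by positivity)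
    have h5 := alpha_pos (N := N) hpos
    rcases hk with h | h
    · have h6 : (2 : ℝ) ≤ N := by exact_mod_cast h
      linarith
    · by_cases h6 : 2 ≤ N
      · have h7 : (2 : ℝ) ≤ N := by exact_mod_cast h6
        linarith
      · have h7 : N = 1 := by omega
        have h8 := alpha_eq (N := N) hpos.le
        have h9 := h l m
        have h10 : lam l / H ^ 2 = 2 * lam l / lam m := by
          rw [hH2, h7]
          push_cast
          field_simp
          ring
        have h11 : 3 / 4 < lam l / H ^ 2 := by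
          rw [h10, lt_div_iff₀ hlm]
          linarith
        set α := alpha N (lam l / H ^ 2)
        rw [h7] at h8 ⊢
        push_cast at h8 ⊢
        nlinarith
end WS

end

end Run7.h978.Rot
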