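import Mathlib

set_option autoImplicit false

/-!
Polynomial vector fields: global existence with an a priori bound, and propagation of
polynomial constraints.
-/

open Set Metric Filter Topology MvPolynomial

namespace Run7.h978.Rot

section loc

variable {E : Type} [NormedAddCommGroup E] [NormedSpace ℝ E]

/-- a solution on `[0,T]` -/
def Sol (V : E → E) (x : ℝ → E) (T : ℝ) : Prop :=
  ∀ t ∈ Icc 0 T, HasDerivWithinAt x (V (x t)) (Icc 0 T) t

theorem Sol.cont {V : E → E} {x : ℝ → E} {T : ℝ} (h : Sol V x T) : ContinuousOn x (Icc 0 T) :=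
  fun t ht => (h t ht).continuousWithinAt

theorem Sol.right {V : E → E} {x : ℝ → E} {T : ℝ} (h : Sol V x T) {t : ℝ} (ht : t ∈ Ico 0 T) :
    HasDerivWithinAt x (V (x t)) (Ici t) t := by
  refine (h t ⟨ht.1, ht.2.le⟩).mono_of_mem_nhdsWithin ?_
  exact mem_of_superset (Icc_mem_nhdsGE ht.2) (Icc_subset_Icc_left ht.1)

theorem Sol.mono {V : E → E} {x : ℝ → E} {T T' : ℝ} (h : Sol V x T) (hT : T' ≤ T) :
    Sol V x T' := fun t ht =>
  (h t ⟨ht.1, ht.2.trans hT⟩).mono (Icc_subset_Icc_right hT)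

theorem glue {V : E → E} {x α : ℝ → E} {T1 T2 : ℝ} (h0 : 0 ≤ T1) (h12 : T1 ≤ T2)
    (hx : Sol V x T1)
    (hα : ∀ t ∈ Icc T1 T2, HasDerivWithinAt α (V (α t)) (Icc T1 T2) t) (hxa : α T1 = x T1) :
    Sol V (fun t => if t ≤ T1 then x t else α t) T2 := by
  intro t ht
  have e1 : ∀ s ∈ Icc (0 : ℝ) T1, (fun t => if t ≤ T1 then x t else α t) s = x s := by
    intro s hs
    simp [hs.2]
  have e2 : ∀ s ∈ Icc T1 T2, (fun t => if t ≤ T1 then x t else α t) s = α s := by
    intro s hs
    rcases eq_or_lt_of_le hs.1 with h | h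
    · subst h
      simp [hxa]
    · simp [not_le.2 h]
  rw [← Icc_union_Icc_eq_Icc h0 h12]
  apply HasDerivWithinAt.union
  · by_cases h : t ≤ T1
    · have ht1 : t ∈ Icc 0 T1 := ⟨ht.1, h⟩
      rw [e1 t ht1]
      exact (hx t ht1).congr e1 (e1 t ht1)
    · rw [hasDerivWithinAt_iff_hasFDerivWithinAt]
      apply HasFDerivWithinAt.of_notMem_closure
      rw [isClosed_Icc.closure_eq]
      intro h2
      exact h h2.2
  · by_cases h : T1 ≤ t
    · have ht1 : t ∈ Icc T1 T2 := ⟨h, ht.2⟩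
      rw [e2 t ht1]
      exact (hα t ht1).congr e2 (e2 t ht1)
    · rw [hasDerivWithinAt_iff_hasFDerivWithinAt]
      apply HasFDerivWithinAt.of_notMem_closure
      rw [isClosed_Icc.closure_eq]
      intro h2
      exact h h2.1

theorem ode_exists [CompleteSpace E] {V : E → E}
    (hV : ∀ r : ℝ, ∃ K : NNReal, LipschitzOnWith K V (closedBall 0 r)) (x0 : E) {T r : ℝ}
    (hT : 0 < T)
    (hap : ∀ (T' : ℝ) (x : ℝ → E), 0 < T' → T' ≤ T → x 0 = x0 → Sol V x T' →
      ∀ t ∈ Icc 0 T', ‖x t‖ ≤ r) :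
    ∃ x : ℝ → E, x 0 = x0 ∧ Sol V x T := by
  set R : ℝ := max r ‖x0‖ with hRdef
  have hR0 : 0 ≤ R := le_max_of_le_right (norm_nonneg _)
  obtain ⟨K, hK⟩ := hV (R + 1)
  set C : ℝ := ‖V 0‖ + K * (R + 1) with hCdef
  have hC0 : 0 ≤ C := by positivity
  have hCb : ∀ x ∈ closedBall (0 : E) (R + 1), ‖V x‖ ≤ C := by
    intro x hx
    have h0 : (0 : E) ∈ closedBall (0 : E) (R + 1) := mem_closedBall_self (by linarith)
    have h1 := hK.dist_le_mul x hx 0 h0
    have h2 : dist x 0 ≤ R + 1 := hx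
    have h3 : ‖V x‖ ≤ dist (V x) (V 0) + ‖V 0‖ := by
      rw [dist_eq_norm]
      exact norm_le_norm_sub_add _ _
    have h4 : (K : ℝ) * dist x 0 ≤ K * (R + 1) := by gcongr
    linarith
  have hloc : ∀ (t0 t1 : ℝ) (y : E), t0 ≤ t1 → t1 - t0 ≤ 1 / (C + 1) → ‖y‖ ≤ R →
      ∃ α : ℝ → E, α t0 = y ∧ ∀ t ∈ Icc t0 t1, HasDerivWithinAt α (V (α t)) (Icc t0 t1) t := by
    intro t0 t1 y h01 hlen hy
    have hsub : closedBall y ((1 : NNReal) : ℝ) ⊆ closedBall (0 : E) (R + 1) := by
      apply closedBall_subset_closedBall'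
      rw [dist_zero_right]
      push_cast
      linarith
    have hpl : IsPicardLindelof (fun _ => V) (⟨t0, left_mem_Icc.2 h01⟩ : Icc t0 t1) y
        (1 : NNReal) (0 : NNReal) (⟨C, hC0⟩ : NNReal) K := by
      apply IsPicardLindelof.of_time_independent
      · intro x hx
        exact hCb x (hsub hx)
      · exact hK.mono hsub
      · have h5 : max (t1 - t0) (t0 - t0) = t1 - t0 := by
          rw [sub_self]; exact max_eq_left (by linarith)
        simp only [NNReal.coe_one, NNReal.coe_zero, sub_zero]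
        rw [h5]
        calc C * (t1 - t0) ≤ C * (1 / (C + 1)) := mul_le_mul_of_nonneg_left hlen hC0
          _ ≤ 1 := by
            rw [mul_one_div, div_le_one (by linarith)]
            linarith
    obtain ⟨α, h1, h2⟩ := hpl.exists_eq_forall_mem_Icc_hasDerivWithinAt₀
    exact ⟨α, h1, h2⟩
  have hstep : ∀ T1 T2 : ℝ, 0 ≤ T1 → T1 ≤ T2 → T2 ≤ T → T2 - T1 ≤ 1 / (C + 1) →
      (∃ x : ℝ → E, x 0 = x0 ∧ Sol V x T1) → ∃ x : ℝ → E, x 0 = x0 ∧ Sol V x T2 := by
    intro T1 T2 h1 h12 h2 hlen hH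
    obtain ⟨x, hx0, hx⟩ := hH
    have hxT : ‖x T1‖ ≤ R := by
      rcases eq_or_lt_of_le h1 with h | h
      · rw [← h, hx0]
        exact le_max_right _ _
      · exact (hap T1 x h (h12.trans h2) hx0 hx T1 (right_mem_Icc.2 h1)).trans (le_max_left _ _)
    obtain ⟨α, ha1, ha2⟩ := hloc T1 T2 (x T1) h12 hlen hxT
    refine ⟨fun t => if t ≤ T1 then x t else α t, ?_, glue h1 h12 hx ha2 ha1⟩
    simp [h1, hx0]
  have hbase : ∃ x : ℝ → E, x 0 = x0 ∧ Sol V x 0 := by
    refine ⟨fun _ => x0, rfl, ?_⟩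
    intro t ht
    rw [Icc_self] at ht ⊢
    have : t = 0 := ht
    subst this
    rw [hasDerivWithinAt_iff_hasFDerivWithinAt]
    exact HasFDerivWithinAt.of_finite (finite_singleton _)
  have hC1 : 0 < 1 / (C + 1) := by positivity
  have hall : ∀ k : ℕ, ∃ x : ℝ → E, x 0 = x0 ∧ Sol V x (min (k * (1 / (C + 1))) T) := by
    intro k
    induction k with
    | zero =>
      rw [Nat.cast_zero, zero_mul, min_eq_left hT.le]
      exact hbase
    | succ k ih =>
      refine hstep _ _ ?_ ?_ (min_le_right _ _) ?_ ih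
      · exact le_min (by positivity) hT.le
      · apply min_le_min_right
        push_cast
        nlinarith
      · push_cast
        rcases le_total ((k : ℝ) * (1 / (C + 1))) T with h | h
        · rw [min_eq_left h]
          have := min_le_left (((k : ℝ) + 1) * (1 / (C + 1))) T
          linarith
        · rw [min_eq_right h]
          have := min_le_right (((k : ℝ) + 1) * (1 / (C + 1))) T
          linarith
  obtain ⟨k, hk⟩ := exists_nat_ge (T / (1 / (C + 1)))
  have hk2 : T ≤ k * (1 / (C + 1)) := by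
    rwa [div_le_iff₀ hC1] at hk
  have := hall k
  rw [min_eq_right hk2] at this
  exact this

theorem sol_unique {V : E → E}
    (hV : ∀ r : ℝ, ∃ K : NNReal, LipschitzOnWith K V (closedBall 0 r)) {x y : ℝ → E} {T : ℝ}
    (hx : Sol V x T) (hy : Sol V y T) (h0 : x 0 = y 0) : EqOn x y (Icc 0 T) := by
  obtain ⟨r1, hr1⟩ := isCompact_Icc.exists_bound_of_continuousOn hx.cont
  obtain ⟨r2, hr2⟩ := isCompact_Icc.exists_bound_of_continuousOn hy.cont
  obtain ⟨K, hK⟩ := hV (max r1 r2)
  refine ODE_solution_unique_of_mem_Icc_right (v := fun _ => V)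
    (s := fun _ => closedBall 0 (max r1 r2)) (fun t _ => hK) hx.cont
    (fun t ht => hx.right ht) (fun t ht => ?_) hy.cont (fun t ht => hy.right ht)
    (fun t ht => ?_) h0
  · rw [mem_closedBall_zero_iff]
    exact (hr1 t ⟨ht.1, ht.2.le⟩).trans (le_max_left _ _)
  · rw [mem_closedBall_zero_iff]
    exact (hr2 t ⟨ht.1, ht.2.le⟩).trans (le_max_right _ _)

theorem ode_glob [CompleteSpace E] {V : E → E}
    (hV : ∀ r : ℝ, ∃ K : NNReal, LipschitzOnWith K V (closedBall 0 r)) (x0 : E)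
    (hap : ∀ T : ℝ, ∃ r : ℝ, ∀ (T' : ℝ) (x : ℝ → E), 0 < T' → T' ≤ T → x 0 = x0 →
      Sol V x T' → ∀ t ∈ Icc 0 T', ‖x t‖ ≤ r) :
    ∃ x : ℝ → E, x 0 = x0 ∧ ∀ T, Sol V x T := by
  have h1 : ∀ n : ℕ, ∃ x : ℝ → E, x 0 = x0 ∧ Sol V x (n + 1) := by
    intro n
    obtain ⟨r, hr⟩ := hap (n + 1)
    exact ode_exists hV x0 (by positivity) hr
  choose y hy0 hy using h1
  have key : ∀ m n : ℕ, ∀ t : ℝ, 0 ≤ t → t ≤ m + 1 → t ≤ n + 1 → y m t = y n t := by
    intro m n t ht0 htm htn
    exact sol_unique hV ((hy m).mono htm) ((hy n).mono htn) ((hy0 m).trans (hy0 n).symm)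
      ⟨ht0, le_rfl⟩
  refine ⟨fun t => y ⌈t⌉₊ t, ?_, fun T t ht => ?_⟩
  · exact hy0 _
  · obtain ⟨n, hn⟩ := exists_nat_ge T
    have e1 : ∀ s ∈ Icc (0 : ℝ) T, (fun t => y ⌈t⌉₊ t) s = y n s := by
      intro s hs
      refine key _ _ s hs.1 ?_ ?_
      · exact (Nat.le_ceil s).trans (by linarith)
      · linarith [hs.2]
    show HasDerivWithinAt (fun t => y ⌈t⌉₊ t) (V ((fun t => y ⌈t⌉₊ t) t)) (Icc 0 T) t
    rw [e1 t ht]
    exact (((hy n).mono (by linarith)) t ht).congr e1 (e1 t ht)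

end loc

section poly

variable {κ : Type} [Fintype κ]

/-- the vector field of a system of polynomials -/
noncomputable def vf (F : κ → MvPolynomial κ ℝ) (x : κ → ℝ) : κ → ℝ := fun k => eval x (F k)

/-- the derivative along the vector field -/
noncomputable def lie (F : κ → MvPolynomial κ ℝ) :
    Derivation ℝ (MvPolynomial κ ℝ) (MvPolynomial κ ℝ) := mkDerivation ℝ F

theorem contDiff_eval (p : MvPolynomial κ ℝ) : ContDiff ℝ 1 (fun x : κ → ℝ => eval x p) := by
  induction p using MvPolynomial.induction_on with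
  | C a =>
    simp only [eval_C]
    exact contDiff_const
  | add p q hp hq =>
    simp only [map_add]
    exact hp.add hq
  | mul_X p i hp =>
    simp only [map_mul, eval_X]
    exact hp.mul (contDiff_apply ℝ ℝ i)

theorem lip_vf (F : κ → MvPolynomial κ ℝ) (r : ℝ) :
    ∃ K : NNReal, LipschitzOnWith K (vf F) (closedBall 0 r) := by
  have h1 : ContDiff ℝ 1 (vf F) := contDiff_pi.2 fun k => contDiff_eval (F k)
  have h2 : LocallyLipschitz (vf F) := h1.locallyLipschitz
  exact LocallyLipschitzOn.exists_lipschitzOnWith_of_compact (isCompact_closedBall 0 r)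
    h2.locallyLipschitzOn

theorem d_eval {F : κ → MvPolynomial κ ℝ} {x : ℝ → κ → ℝ} {s : Set ℝ} {t c : ℝ}
    (hx : ∀ k, HasDerivWithinAt (fun t => x t k) (c * vf F (x t) k) s t)
    (J : MvPolynomial κ ℝ) :
    HasDerivWithinAt (fun t => eval (x t) J) (c * eval (x t) (lie F J)) s t := by
  induction J using MvPolynomial.induction_on with
  | C a =>
    have h1 : lie F (C a) = 0 := derivation_C _ _
    rw [h1, map_zero, mul_zero]
    simp only [eval_C]
    exact hasDerivWithinAt_const _ _ _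
  | add p q hp hq =>
    simp only [map_add, mul_add]
    exact hp.add hq
  | mul_X p i hp =>
    have h1 : lie F (p * X i) = p * F i + X i * lie F p := by
      rw [Derivation.leibniz, smul_eq_mul, smul_eq_mul]
      congr 2
      rw [lie]
      exact mkDerivation_X _ _ _
    rw [h1]
    simp only [map_mul, map_add, eval_X]
    refine (hp.mul (hx i)).congr_deriv ?_
    rw [vf]
    ring

/-- the higher derivatives of a constraint vanish -/
theorem lie_zero {F : κ → MvPolynomial κ ℝ} {x : ℝ → κ → ℝ} {c : ℝ → ℝ} {s : Set ℝ}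
    (hs : IsOpen s) (hc : ∀ t ∈ s, c t ≠ 0)
    (hx : ∀ t ∈ s, ∀ k, HasDerivAt (fun t => x t k) (c t * vf F (x t) k) t)
    {J : MvPolynomial κ ℝ} (hJ : ∀ t ∈ s, eval (x t) J = 0) (k : ℕ) :
    ∀ t ∈ s, eval (x t) ((lie F)^[k] J) = 0 := by
  induction k with
  | zero => exact hJ
  | succ k ih =>
    intro t ht
    rw [Function.iterate_succ_apply']
    have h1 := d_eval (fun k => (hx t ht k).hasDerivWithinAt (s := s)) ((lie F)^[k] J)
    have h2 : HasDerivAt (fun t => eval (x t) ((lie F)^[k] J)) 0 t := by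
      refine (hasDerivAt_const t (0 : ℝ)).congr_of_eventuallyEq ?_
      filter_upwards [hs.mem_nhds ht] with u hu
      exact ih u hu
    have h3 := (h1.hasDerivAt (hs.mem_nhds ht)).unique h2
    exact (mul_eq_zero.1 h3).resolve_left (hc t ht)

/-- constraints propagate -/
theorem propagate {F : κ → MvPolynomial κ ℝ} {x : ℝ → κ → ℝ} {T : ℝ} (hx : Sol (vf F) x T)
    {J : MvPolynomial κ ℝ} (hJ : ∀ k, eval (x 0) ((lie F)^[k] J) = 0) :
    ∀ t ∈ Icc 0 T, eval (x t) J = 0 := by
  classical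
  -- the Noetherian property
  obtain ⟨r, hr⟩ : ∃ r : ℕ, (lie F)^[r] J ∈
      Ideal.span (range fun l : Fin r => (lie F)^[(l : ℕ)] J) := by
    have hmono : Monotone fun r : ℕ =>
        Ideal.span (range fun l : Fin r => (lie F)^[(l : ℕ)] J) := by
      intro a b hab
      refine Ideal.span_mono ?_
      rintro _ ⟨l, rfl⟩
      exact ⟨⟨l, lt_of_lt_of_le l.2 hab⟩, rfl⟩
    obtain ⟨n, hn⟩ := monotone_stabilizes_iff_noetherian.mpr
      (inferInstance : IsNoetherian (MvPolynomial κ ℝ) (MvPolynomial κ ℝ)) ⟨_, hmono⟩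
    refine ⟨n, ?_⟩
    have h1 := hn (n + 1) (Nat.le_succ n)
    have h2 : (lie F)^[n] J ∈
        Ideal.span (range fun l : Fin (n + 1) => (lie F)^[(l : ℕ)] J) :=
      Ideal.subset_span ⟨Fin.last n, rfl⟩
    have h3 : Ideal.span (range fun l : Fin n => (lie F)^[(l : ℕ)] J) =
        Ideal.span (range fun l : Fin (n + 1) => (lie F)^[(l : ℕ)] J) := h1
    rw [h3]
    exact h2
  obtain ⟨c, hc⟩ := Ideal.mem_span_range_iff_exists_fun.1 hr
  -- the derivatives
  have hd : ∀ t ∈ Ico 0 T, ∀ l : ℕ, HasDerivWithinAt (fun t => eval (x t) ((lie F)^[l] J))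
      (eval (x t) ((lie F)^[l + 1] J)) (Ici t) t := by
    intro t ht l
    have h1 := hasDerivWithinAt_pi.1 (hx.right ht)
    have h2 := d_eval (F := F) (x := x) (c := 1) (s := Ici t) (t := t)
      (fun k => by rw [one_mul]; exact h1 k) ((lie F)^[l] J)
    rw [one_mul, ← Function.iterate_succ_apply' (lie F) l J] at h2
    exact h2
  have hcont : ∀ p : MvPolynomial κ ℝ, ContinuousOn (fun t => eval (x t) p) (Icc 0 T) := by
    intro p
    exact (contDiff_eval p).continuous.comp_continuousOn hx.cont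
  -- bound of the coefficients
  have hcb : ∃ K : ℝ, 0 ≤ K ∧ ∀ t ∈ Icc 0 T, ∀ l, |eval (x t) (c l)| ≤ K := by
    choose K hK using fun l => isCompact_Icc.exists_bound_of_continuousOn (hcont (c l))
    refine ⟨∑ l, |K l|, Finset.sum_nonneg fun l _ => abs_nonneg _, fun t ht l => ?_⟩
    calc |eval (x t) (c l)| ≤ K l := hK l t ht
      _ ≤ |K l| := le_abs_self _
      _ ≤ ∑ l, |K l| :=
        Finset.single_le_sum (f := fun l => |K l|) (fun l _ => abs_nonneg _) (Finset.mem_univ l)
  obtain ⟨K, hK0, hK⟩ := hcb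
  set y : ℝ → Fin r → ℝ := fun t l => eval (x t) ((lie F)^[(l : ℕ)] J) with hy
  set y' : ℝ → Fin r → ℝ := fun t l => eval (x t) ((lie F)^[(l : ℕ) + 1] J) with hy'
  have hy0 : ∀ t ∈ Icc 0 T, y t = 0 := by
    refine eq_zero_of_abs_deriv_le_mul_abs_self_of_eq_zero_right (f' := y')
      (K := 1 + r * K) ?_ ?_ ?_ ?_
    · exact continuousOn_pi.2 fun l => hcont _
    · intro t ht
      exact hasDerivWithinAt_pi.2 fun l => hd t ht l
    · funext l
      exact hJ l
    · intro t ht
      have ht' : t ∈ Icc 0 T := ⟨ht.1, ht.2.le⟩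
      refine (pi_norm_le_iff_of_nonneg (by positivity)).2 fun l => ?_
      have hle : ∀ k : Fin r, |y t k| ≤ ‖y t‖ := fun k => norm_le_pi_norm (y t) k
      have hr0 : (0 : ℝ) ≤ r * K := by positivity
      rcases Nat.lt_or_ge ((l : ℕ) + 1) r with h | h
      · have h1 : y' t l = y t ⟨(l : ℕ) + 1, h⟩ := rfl
        rw [h1, Real.norm_eq_abs]
        have h2 := hle ⟨(l : ℕ) + 1, h⟩
        have h3 : 0 ≤ r * K * ‖y t‖ := by positivity
        nlinarith
      · have h1 : (l : ℕ) + 1 = r := le_antisymm l.2 h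
        have h2 : y' t l = ∑ k, eval (x t) (c k) * y t k := by
          rw [hy']
          simp only
          rw [h1, ← hc, map_sum]
          exact Finset.sum_congr rfl fun k _ => by rw [map_mul]
        rw [h2, Real.norm_eq_abs]
        calc |∑ k, eval (x t) (c k) * y t k| ≤ ∑ k, |eval (x t) (c k) * y t k| :=
              Finset.abs_sum_le_sum_abs _ _
          _ ≤ ∑ _k : Fin r, K * ‖y t‖ := by
              refine Finset.sum_le_sum fun k _ => ?_
              rw [abs_mul]
              exact mul_le_mul (hK t ht' k) (hle k) (abs_nonneg _) hK0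
          _ = r * K * ‖y t‖ := by
              rw [Finset.sum_const, Finset.card_univ, Fintype.card_fin, nsmul_eq_mul]
              ring
          _ ≤ (1 + r * K) * ‖y t‖ := by
              have := norm_nonneg (y t)
              nlinarith
  intro t ht
  rcases Nat.eq_zero_or_pos r with h | h
  · subst h
    simp only [Finset.univ_eq_empty, Finset.sum_empty] at hc
    have h1 : J = 0 := by
      simpa using hc.symm
    rw [h1, map_zero]
  · have := congrFun (hy0 t ht) ⟨0, h⟩
    exact this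

end poly

end Run7.h978.Rot
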