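import Mathlib
import Pool.Agent.Run7.h978.Asy2
import Pool.Agent.Run7.h978.Ode1

set_option autoImplicit false

/-!
The system of the profile functions as a polynomial vector field.
-/

open Set Metric Filter Topology MvPolynomial

namespace Run7.h978.Rot

theorem mono_Icc {f f' : ℝ → ℝ} {a b : ℝ} (hc : ContinuousOn f (Icc a b))
    (hd : ∀ x ∈ Ioo a b, HasDerivAt f (f' x) x) (h : ∀ x ∈ Ioo a b, 0 ≤ f' x) :
    ∀ x ∈ Icc a b, f a ≤ f x := by
  have h1 : MonotoneOn f (Icc a b) := by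
    refine monotoneOn_of_deriv_nonneg (convex_Icc a b) hc ?_ ?_
    · rw [interior_Icc]
      exact fun x hx => (hd x hx).differentiableAt.differentiableWithinAt
    · rw [interior_Icc]
      intro x hx
      rw [(hd x hx).deriv]
      exact h x hx
  intro x hx
  exact h1 ⟨le_rfl, hx.1.trans hx.2⟩ hx hx.1

/-- positivity propagates -/
theorem pos_prop {y y1 W k : ℝ → ℝ} (hyc : ContinuousOn y (Ici 0))
    (hy : ∀ t, 0 < t → HasDerivAt y (y1 t) t)
    (hWc : ContinuousOn (fun t => W t * y1 t) (Ici 0))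
    (hW : ∀ t, 0 < t → HasDerivAt (fun t => W t * y1 t) (W t * (k t * y t)) t)
    (hWpos : ∀ t, 0 ≤ t → 0 < W t) (hk : ∀ t, 0 < t → 0 ≤ k t) (h0 : 0 < y 0) (h10 : 0 < y1 0) :
    ∀ t, 0 ≤ t → 0 < y t ∧ 0 < y1 t := by
  have sub : ∀ T : ℝ, Icc 0 T ⊆ Ici 0 := fun T => Icc_subset_Ici_self
  have step : ∀ T : ℝ, (∀ t ∈ Ioo 0 T, 0 < y t) → ∀ t ∈ Icc 0 T, 0 < y1 t := by
    intro T hT t ht
    have h1 := mono_Icc (hWc.mono (sub T)) (fun x hx => hW x hx.1)
      (fun x hx => mul_nonneg (hWpos x hx.1.le).le (mul_nonneg (hk x hx.1) (hT x hx).le)) t ht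
    have h2 : 0 < W 0 * y1 0 := mul_pos (hWpos 0 le_rfl) h10
    have h3 : 0 < W t * y1 t := lt_of_lt_of_le h2 h1
    exact (mul_pos_iff_of_pos_left (hWpos t ht.1)).1 h3
  have hpos : ∀ T : ℝ, ∀ t ∈ Icc 0 T, 0 < y t := by
    intro T
    by_contra hcon
    push Not at hcon
    obtain ⟨t1, ht1, hyt1⟩ := hcon
    have hcl : IsCompact (Icc 0 T ∩ y ⁻¹' Iic 0) :=
      isCompact_Icc.of_isClosed_subset
        ((hyc.mono (sub T)).preimage_isClosed_of_isClosed isClosed_Icc isClosed_Iic)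
        inter_subset_left
    obtain ⟨s, ⟨hs1, hs2⟩, hsmin⟩ := hcl.exists_isLeast ⟨t1, ht1, hyt1⟩
    have hs0 : 0 < s := by
      rcases eq_or_lt_of_le hs1.1 with h | h
      · exfalso
        rw [← h] at hs2
        exact absurd hs2 (not_le.2 h0)
      · exact h
    have hlt : ∀ t ∈ Ioo 0 s, 0 < y t := by
      intro t ht
      by_contra hyt
      exact absurd (hsmin ⟨⟨ht.1.le, ht.2.le.trans hs1.2⟩, not_lt.1 hyt⟩) (not_le.2 ht.2)
    have h1 := step s hlt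
    have h2 := mono_Icc (hyc.mono (sub s)) (fun x hx => hy x hx.1)
      (fun x hx => (h1 x ⟨hx.1.le, hx.2.le⟩).le) s ⟨hs0.le, le_rfl⟩
    have h3 : y s ≤ 0 := hs2
    linarith
  intro t ht
  exact ⟨hpos t t ⟨ht, le_rfl⟩, step t (fun x hx => hpos t x ⟨hx.1.le, hx.2.le⟩) t ⟨ht, le_rfl⟩⟩

section

variable {ι : Type} [Fintype ι]

/-- the variables of the system -/
abbrev St (ι : Type) := ι ⊕ (ι ⊕ (ι ⊕ (ι ⊕ Unit)))

/-- variable -/
def vP (i : ι) : St ι := Sum.inl i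
/-- variable -/
def vP1 (i : ι) : St ι := Sum.inr (Sum.inl i)
/-- variable -/
def vU (i : ι) : St ι := Sum.inr (Sum.inr (Sum.inl i))
/-- variable -/
def vU1 (i : ι) : St ι := Sum.inr (Sum.inr (Sum.inr (Sum.inl i)))
/-- variable -/
def vW : St ι := Sum.inr (Sum.inr (Sum.inr (Sum.inr ())))

theorem st_forall {p : St ι → Prop} (h1 : ∀ i, p (vP i)) (h2 : ∀ i, p (vP1 i))
    (h3 : ∀ i, p (vU i)) (h4 : ∀ i, p (vU1 i)) (h5 : p vW) : ∀ k, p k := by
  intro k
  rcases k with i | i | i | i | u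
  · exact h1 i
  · exact h2 i
  · exact h3 i
  · exact h4 i
  · exact h5

/-- the linear form -/
noncomputable def lf (a : ι → ℝ) (v : ι → St ι) : MvPolynomial (St ι) ℝ := ∑ i, C (a i) * X (v i)

theorem eval_lf (a : ι → ℝ) (v : ι → St ι) (x : St ι → ℝ) :
    eval x (lf a v) = ∑ i, a i * x (v i) := by
  rw [lf, map_sum]
  exact Finset.sum_congr rfl fun i _ => by rw [map_mul, eval_C, eval_X]

/-- the vector field -/
noncomputable def FF (N : ℕ) (lam a : ι → ℝ) : St ι → MvPolynomial (St ι) ℝ :=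
  Sum.elim (fun i => X (vP1 i))
    (Sum.elim (fun i => C (lam i) * X (vP i) + C (N : ℝ) * X vW ^ 2 * X (vP i) -
        C (N : ℝ) * X vW * lf a vP1 * X (vP1 i))
      (Sum.elim (fun i => X (vU1 i))
        (Sum.elim (fun i => C (lam i) * X (vU i) - C (N : ℝ) * X vW * lf a vP1 * X (vU1 i))
          (fun _ => -(X vW ^ 2 * lf a vP1)))))

/-- the constraint -/
noncomputable def JJ (a d : ι → ℝ) : MvPolynomial (St ι) ℝ := lf a vP1 ^ 2 - lf d vU1 ^ 2 - 1

/-- the constraint of the reciprocal -/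
noncomputable def KK (a : ι → ℝ) : MvPolynomial (St ι) ℝ := X vW * lf a vP - 1

variable {N : ℕ} {lam a d : ι → ℝ}

theorem FF_P (x : St ι → ℝ) (i : ι) : vf (FF N lam a) x (vP i) = x (vP1 i) := by
  simp [vf, FF, vP]

theorem FF_P1 (x : St ι → ℝ) (i : ι) : vf (FF N lam a) x (vP1 i) =
    lam i * x (vP i) + N * x vW ^ 2 * x (vP i) -
      N * x vW * (∑ i, a i * x (vP1 i)) * x (vP1 i) := by
  have h : FF N lam a (vP1 i) = C (lam i) * X (vP i) + C (N : ℝ) * X vW ^ 2 * X (vP i) -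
        C (N : ℝ) * X vW * lf a vP1 * X (vP1 i) := rfl
  rw [vf, h]
  simp only [map_sub, map_add, map_mul, map_pow, eval_C, eval_X, eval_lf]

theorem FF_U (x : St ι → ℝ) (i : ι) : vf (FF N lam a) x (vU i) = x (vU1 i) := by
  have h : FF N lam a (vU i) = X (vU1 i) := rfl
  rw [vf, h, eval_X]

theorem FF_U1 (x : St ι → ℝ) (i : ι) : vf (FF N lam a) x (vU1 i) =
    lam i * x (vU i) - N * x vW * (∑ i, a i * x (vP1 i)) * x (vU1 i) := by
  have h : FF N lam a (vU1 i) =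
    C (lam i) * X (vU i) - C (N : ℝ) * X vW * lf a vP1 * X (vU1 i) := rfl
  rw [vf, h]
  simp only [map_sub, map_mul, eval_C, eval_X, eval_lf]

theorem FF_W (x : St ι → ℝ) : vf (FF N lam a) x vW =
    -(x vW ^ 2 * (∑ i, a i * x (vP1 i))) := by
  have h : FF N lam a vW = -(X vW ^ 2 * lf a vP1) := rfl
  rw [vf, h]
  simp only [map_neg, map_mul, map_pow, eval_X, eval_lf]

theorem eval_JJ (x : St ι → ℝ) : eval x (JJ a d) =
    (∑ i, a i * x (vP1 i)) ^ 2 - (∑ i, d i * x (vU1 i)) ^ 2 - 1 := by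
  rw [JJ]
  simp only [map_sub, map_pow, eval_lf, map_one]

theorem eval_KK (x : St ι → ℝ) : eval x (KK a) = x vW * (∑ i, a i * x (vP i)) - 1 := by
  rw [KK]
  simp only [map_sub, map_mul, eval_X, eval_lf, map_one]

/-- the good initial states -/
structure Good (N : ℕ) (lam a d : ι → ℝ) (x : St ι → ℝ) : Prop where
  J : ∀ k, eval x ((lie (FF N lam a))^[k] (JJ a d)) = 0
  K : ∀ k, eval x ((lie (FF N lam a))^[k] (KK a)) = 0
  ph : 0 < ∑ i, a i * x (vP i)
  ph1 : 0 < ∑ i, a i * x (vP1 i)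
  P : ∀ i, 0 < x (vP i)
  P1 : ∀ i, 0 < x (vP1 i)
  U : ∀ i, 0 < x (vU i)
  U1 : ∀ i, 0 < x (vU1 i)
  Z : ∀ i, 0 < x (vP1 i) * x (vU i) - x (vP i) * x (vU1 i)

section sol

variable {x : ℝ → St ι → ℝ} {T : ℝ}

theorem Sol.dAt {κ : Type} [Fintype κ] {V : (κ → ℝ) → κ → ℝ} {x : ℝ → κ → ℝ} {T : ℝ}
    (h : Sol V x T) {t : ℝ} (ht : t ∈ Ioo 0 T) (k : κ) :
    HasDerivAt (fun t => x t k) (V (x t) k) t := by
  have h1 := (h t ⟨ht.1.le, ht.2.le⟩).hasDerivAt (Icc_mem_nhds ht.1 ht.2)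
  exact hasDerivAt_pi.1 h1 k

theorem Sol.cAt {κ : Type} [Fintype κ] {V : (κ → ℝ) → κ → ℝ} {x : ℝ → κ → ℝ} {T : ℝ}
    (h : Sol V x T) (k : κ) : ContinuousOn (fun t => x t k) (Icc 0 T) :=
  continuousOn_pi.1 h.cont k

theorem cont_sum (h : Sol (vf (FF N lam a)) x T) (b : ι → ℝ) (v : ι → St ι) :
    ContinuousOn (fun t => ∑ i, b i * x t (v i)) (Icc 0 T) :=
  continuousOn_finsetSum _ fun i _ => continuousOn_const.mul (h.cAt (v i))

theorem Good.ph1_ge (g : Good N lam a d (x 0)) (h : Sol (vf (FF N lam a)) x T) :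
    ∀ t ∈ Icc 0 T, 1 ≤ ∑ i, a i * x t (vP1 i) := by
  have h1 : ∀ t ∈ Icc 0 T, (∑ i, a i * x t (vP1 i)) ^ 2 = 1 + (∑ i, d i * x t (vU1 i)) ^ 2 := by
    intro t ht
    have h2 := propagate h g.J t ht
    rw [eval_JJ] at h2
    linarith
  intro t ht
  have hpos : 0 < ∑ i, a i * x t (vP1 i) := by
    by_contra hcon
    have h3 : (0 : ℝ) ∈ (fun t => ∑ i, a i * x t (vP1 i)) '' (Icc 0 T) := by
      have h0 : (0 : ℝ) ∈ Icc 0 T := ⟨le_rfl, ht.1.trans ht.2⟩
      exact isPreconnected_Icc.intermediate_value ht h0 (cont_sum h a vP1)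
        ⟨not_lt.1 hcon, g.ph1.le⟩
    obtain ⟨s, hs, hs0⟩ := h3
    have h4 := h1 s hs
    have h5 : (∑ i, a i * x s (vP1 i)) = 0 := hs0
    rw [h5] at h4
    nlinarith [sq_nonneg (∑ i, d i * x s (vU1 i))]
  have h6 := h1 t ht
  nlinarith [sq_nonneg (∑ i, d i * x t (vU1 i))]

theorem Good.ph_ge (g : Good N lam a d (x 0)) (h : Sol (vf (FF N lam a)) x T) :
    ∀ t ∈ Icc 0 T, ∑ i, a i * x 0 (vP i) ≤ ∑ i, a i * x t (vP i) := by
  refine mono_Icc (f' := fun t => ∑ i, a i * x t (vP1 i)) (cont_sum h a vP) ?_ ?_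
  · intro t ht
    refine (HasDerivAt.fun_sum fun i _ => (h.dAt ht (vP i)).const_mul (a i)).congr_deriv ?_
    exact Finset.sum_congr rfl fun i _ => by rw [FF_P]
  · intro t ht
    have := g.ph1_ge h t ⟨ht.1.le, ht.2.le⟩
    linarith

theorem Good.w_eq (g : Good N lam a d (x 0)) (h : Sol (vf (FF N lam a)) x T) :
    ∀ t ∈ Icc 0 T, x t vW = 1 / ∑ i, a i * x t (vP i) := by
  intro t ht
  have h1 := propagate h g.K t ht
  rw [eval_KK] at h1
  have h2 := g.ph_ge h t ht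
  have h3 := g.ph
  rw [eq_div_iff (by linarith)]
  linarith

theorem Good.w_le (g : Good N lam a d (x 0)) (h : Sol (vf (FF N lam a)) x T) :
    ∀ t ∈ Icc 0 T, 0 < x t vW ∧ x t vW ≤ 1 / ∑ i, a i * x 0 (vP i) := by
  intro t ht
  have h2 := g.ph_ge h t ht
  have h3 := g.ph
  rw [g.w_eq h t ht]
  exact ⟨by apply one_div_pos.2; linarith, one_div_le_one_div_of_le h3 h2⟩

/-- the energy -/
def en (x : ℝ → St ι → ℝ) (t : ℝ) : ℝ :=
  ∑ i, (x t (vP i) ^ 2 + x t (vP1 i) ^ 2 + x t (vU i) ^ 2 + x t (vU1 i) ^ 2)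

theorem Good.energy (hl : ∀ i, 0 < lam i) (g : Good N lam a d (x 0))
    (h : Sol (vf (FF N lam a)) x T) {C : ℝ}
    (hC : C = 1 + ∑ i, lam i + N * (1 / ∑ i, a i * x 0 (vP i)) ^ 2) :
    ∀ t ∈ Icc 0 T, en x t ≤ en x 0 * Real.exp (C * t) := by
  have hlam : ∀ i, lam i ≤ ∑ i, lam i :=
    fun i => Finset.single_le_sum (f := lam) (fun i _ => (hl i).le) (Finset.mem_univ i)
  have hcon : ContinuousOn (en x) (Icc 0 T) := by
    refine continuousOn_finsetSum _ fun i _ => ?_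
    exact ((((h.cAt (vP i)).pow 2).add ((h.cAt (vP1 i)).pow 2)).add ((h.cAt (vU i)).pow 2)).add
      ((h.cAt (vU1 i)).pow 2)
  set e' : ℝ → ℝ := fun t => ∑ i, (2 * x t (vP i) * x t (vP1 i) +
    2 * x t (vP1 i) * (lam i * x t (vP i) + N * x t vW ^ 2 * x t (vP i) -
      N * x t vW * (∑ i, a i * x t (vP1 i)) * x t (vP1 i)) +
    2 * x t (vU i) * x t (vU1 i) +
    2 * x t (vU1 i) * (lam i * x t (vU i) -
      N * x t vW * (∑ i, a i * x t (vP1 i)) * x t (vU1 i))) with he'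
  have hd : ∀ t ∈ Ioo 0 T, HasDerivAt (en x) (e' t) t := by
    intro t ht
    refine HasDerivAt.fun_sum fun i _ => ?_
    refine (((((h.dAt ht (vP i)).pow 2).add ((h.dAt ht (vP1 i)).pow 2)).add
      ((h.dAt ht (vU i)).pow 2)).add ((h.dAt ht (vU1 i)).pow 2)).congr_deriv ?_
    rw [FF_P, FF_P1, FF_U, FF_U1]
    push_cast
    ring
  have hle : ∀ t ∈ Ioo 0 T, e' t ≤ C * en x t := by
    intro t ht
    have ht' : t ∈ Icc 0 T := ⟨ht.1.le, ht.2.le⟩
    rw [he', en, Finset.mul_sum]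
    refine Finset.sum_le_sum fun i _ => ?_
    have h1 := g.w_le h t ht'
    have h2 := g.ph1_ge h t ht'
    set w := x t vW
    set w0 := 1 / ∑ i, a i * x 0 (vP i)
    set f1 := ∑ i, a i * x t (vP1 i)
    have h3 := hlam i
    have h4 := hl i
    have hN : (0 : ℝ) ≤ N := Nat.cast_nonneg N
    have h5 : w ^ 2 ≤ w0 ^ 2 := by
      have := h1.1
      gcongr
      exact h1.2
    have h6 : 0 ≤ N * w * f1 := by
      have := h1.1
      positivity
    have h7 : (N : ℝ) * w ^ 2 ≤ N * w0 ^ 2 := by gcongr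
    have h8 : 0 ≤ (N : ℝ) * w ^ 2 := by positivity
    have h9 : ∀ y z : ℝ, 2 * y * z ≤ y ^ 2 + z ^ 2 := fun y z => two_mul_le_add_sq y z
    have h10 := h9 (x t (vP i)) (x t (vP1 i))
    have h11 := h9 (x t (vU i)) (x t (vU1 i))
    set y := x t (vP i)
    set y1 := x t (vP1 i)
    set z := x t (vU i)
    set z1 := x t (vU1 i)
    have h12 : 0 ≤ N * w * f1 * y1 ^ 2 := by positivity
    have h13 : 0 ≤ N * w * f1 * z1 ^ 2 := by positivity
    have h14 : (1 + lam i + N * w ^ 2) * (2 * y * y1) ≤ C * (y ^ 2 + y1 ^ 2) := by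
      calc (1 + lam i + N * w ^ 2) * (2 * y * y1) ≤ (1 + lam i + N * w ^ 2) * (y ^ 2 + y1 ^ 2) := by
            gcongr
        _ ≤ C * (y ^ 2 + y1 ^ 2) := by
            gcongr
            rw [hC]
            linarith
    have h15 : (1 + lam i) * (2 * z * z1) ≤ C * (z ^ 2 + z1 ^ 2) := by
      calc (1 + lam i) * (2 * z * z1) ≤ (1 + lam i) * (z ^ 2 + z1 ^ 2) := by
            gcongr
        _ ≤ C * (z ^ 2 + z1 ^ 2) := by
            gcongr
            rw [hC]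
            linarith
    nlinarith
  intro t ht
  have hmon := mono_Icc (f := fun t => -(en x t * Real.exp (-(C * t))))
    (f' := fun t => -(e' t * Real.exp (-(C * t)) + en x t * (Real.exp (-(C * t)) * -(C * 1))))
    (a := 0) (b := T)
    (hcon.mul (by fun_prop)).neg
    (fun t ht => ((hd t ht).mul (((hasDerivAt_id t).const_mul C).neg.exp)).neg)
    (fun t ht => by
      have h1 := hle t ht
      have h2 := Real.exp_pos (-(C * t))
      nlinarith) t ht
  simp only [mul_zero, neg_zero, Real.exp_zero, mul_one] at hmon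
  have h3 : en x t = en x t * Real.exp (-(C * t)) * Real.exp (C * t) := by
    rw [mul_assoc, ← Real.exp_add]
    simp
  rw [h3]
  have := Real.exp_pos (C * t)
  gcongr
  linarith

end sol

theorem Good.glob (hl : ∀ i, 0 < lam i) {x0 : St ι → ℝ} (g : Good N lam a d x0) :
    ∃ x : ℝ → St ι → ℝ, x 0 = x0 ∧ ∀ T, Sol (vf (FF N lam a)) x T := by
  refine ode_glob (lip_vf _) x0 fun T => ?_
  set C : ℝ := 1 + ∑ i, lam i + N * (1 / ∑ i, a i * x0 (vP i)) ^ 2 with hC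
  have hC0 : 0 ≤ C := by
    have : 0 ≤ ∑ i, lam i := Finset.sum_nonneg fun i _ => (hl i).le
    positivity
  refine ⟨1 + en (fun _ => x0) 0 * Real.exp (C * T) + 1 / ∑ i, a i * x0 (vP i), ?_⟩
  intro T' x hT' hTT hx0 hx t ht
  have g' : Good N lam a d (x 0) := by rw [hx0]; exact g
  have h1 := g'.energy hl hx (C := C) (by rw [hx0]) t ht
  have hen0 : 0 ≤ en (fun _ => x0) 0 := Finset.sum_nonneg fun i _ => by positivity
  have h2 : en x t ≤ en (fun _ => x0) 0 * Real.exp (C * T) := by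
    refine h1.trans ?_
    have e1 : en x 0 = en (fun _ => x0) 0 := by
      simp only [en, hx0]
    rw [e1]
    gcongr
    exact ht.2.trans hTT
  have h3 := g'.w_le hx t ht
  rw [hx0] at h3
  have hw0 : 0 < 1 / ∑ i, a i * x0 (vP i) := lt_of_lt_of_le h3.1 h3.2
  have habs : ∀ y : ℝ, |y| ≤ 1 + y ^ 2 := by
    intro y
    rw [abs_le]
    constructor <;> nlinarith [sq_nonneg (y - 1), sq_nonneg (y + 1)]
  have hcomp : ∀ i, x t (vP i) ^ 2 + x t (vP1 i) ^ 2 + x t (vU i) ^ 2 + x t (vU1 i) ^ 2 ≤ en x t :=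
    fun i => Finset.single_le_sum (f := fun i => x t (vP i) ^ 2 + x t (vP1 i) ^ 2 +
      x t (vU i) ^ 2 + x t (vU1 i) ^ 2) (fun i _ => by positivity) (Finset.mem_univ i)
  refine (pi_norm_le_iff_of_nonneg (by positivity)).2 ?_
  refine st_forall (fun i => ?_) (fun i => ?_) (fun i => ?_) (fun i => ?_) ?_
  · rw [Real.norm_eq_abs]
    have := habs (x t (vP i))
    nlinarith [hcomp i, sq_nonneg (x t (vP1 i)), sq_nonneg (x t (vU i)), sq_nonneg (x t (vU1 i))]
  · rw [Real.norm_eq_abs]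
    have := habs (x t (vP1 i))
    nlinarith [hcomp i, sq_nonneg (x t (vP i)), sq_nonneg (x t (vU i)), sq_nonneg (x t (vU1 i))]
  · rw [Real.norm_eq_abs]
    have := habs (x t (vU i))
    nlinarith [hcomp i, sq_nonneg (x t (vP i)), sq_nonneg (x t (vP1 i)), sq_nonneg (x t (vU1 i))]
  · rw [Real.norm_eq_abs]
    have := habs (x t (vU1 i))
    nlinarith [hcomp i, sq_nonneg (x t (vP i)), sq_nonneg (x t (vP1 i)), sq_nonneg (x t (vU i))]
  · rw [Real.norm_eq_abs, abs_of_pos h3.1]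
    have := Real.exp_pos (C * T)
    have : 0 ≤ en (fun _ => x0) 0 * Real.exp (C * T) := by positivity
    linarith

end

end Run7.h978.Rot
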