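import Mathlib
import Pool.Agent.Run7.h978.Asy7
import Pool.Agent.Run7.h978.Ode2

set_option autoImplicit false

/-!
A good initial state has only one active index.
-/

open Set Metric Filter Topology MvPolynomial

namespace Run7.h978.Rot

section

variable {ι : Type} [Fintype ι] {N : ℕ} {lam a d : ι → ℝ}

theorem Good.exists_WS (hl : ∀ i, 0 < lam i) (hli : Function.Injective lam) {x0 : St ι → ℝ}
    (g : Good N lam a d x0) : ∃ P P1 U U1 : ι → ℝ → ℝ, WS N lam a d P P1 U U1 := by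
  obtain ⟨x, hx0, hx⟩ := g.glob hl
  subst hx0
  have dA : ∀ t : ℝ, 0 < t → ∀ k, HasDerivAt (fun t => x t k) (vf (FF N lam a) (x t) k) t :=
    fun t ht k => (hx (t + 1)).dAt ⟨ht, by linarith⟩ k
  have cA : ∀ k, ContinuousOn (fun t => x t k) (Ici 0) := by
    intro k t ht
    have h1 := (hx (t + 1)).cAt k t ⟨ht, by linarith⟩
    refine h1.mono_of_mem_nhdsWithin ?_
    exact inter_mem_nhdsWithin _ (Iic_mem_nhds (by linarith))
  set φ : ℝ → ℝ := fun t => ∑ i, a i * x t (vP i) with hφ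
  set φ1 : ℝ → ℝ := fun t => ∑ i, a i * x t (vP1 i) with hφ1
  have hφpos : ∀ t, 0 ≤ t → 0 < φ t := fun t ht =>
    lt_of_lt_of_le g.ph (g.ph_ge (hx t) t ⟨ht, le_rfl⟩)
  have hφ1ge : ∀ t, 0 ≤ t → 1 ≤ φ1 t := fun t ht => g.ph1_ge (hx t) t ⟨ht, le_rfl⟩
  have hw : ∀ t, 0 ≤ t → x t vW = 1 / φ t := fun t ht => g.w_eq (hx t) t ⟨ht, le_rfl⟩
  have dφ : ∀ t, 0 < t → HasDerivAt φ (φ1 t) t := by
    intro t ht
    refine (HasDerivAt.fun_sum fun i _ => (dA t ht (vP i)).const_mul (a i)).congr_deriv ?_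
    exact Finset.sum_congr rfl fun i _ => by rw [FF_P]
  have cφ : ContinuousOn φ (Ici 0) :=
    continuousOn_finsetSum _ fun i _ => continuousOn_const.mul (cA (vP i))
  set W : ℝ → ℝ := fun t => Real.exp (N * Real.log (φ t)) with hW
  have Wpos : ∀ t, 0 ≤ t → 0 < W t := fun t _ => Real.exp_pos _
  have cW : ContinuousOn W (Ici 0) :=
    Real.continuous_exp.comp_continuousOn
      (continuousOn_const.mul (cφ.log fun t ht => (hφpos t ht).ne'))
  have dW : ∀ t, 0 < t → HasDerivAt W (W t * (N * (φ1 t / φ t))) t := fun t ht =>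
    (((dφ t ht).log (hφpos t ht.le).ne').const_mul (N : ℝ)).exp
  have dP : ∀ i t, 0 < t → HasDerivAt (fun t => x t (vP i)) (x t (vP1 i)) t := by
    intro i t ht
    have := dA t ht (vP i)
    rwa [FF_P] at this
  have dU : ∀ i t, 0 < t → HasDerivAt (fun t => x t (vU i)) (x t (vU1 i)) t := by
    intro i t ht
    have := dA t ht (vU i)
    rwa [FF_U] at this
  have dP1 : ∀ i t, 0 < t → HasDerivAt (fun t => x t (vP1 i))
      (lam i * x t (vP i) + N * (1 / φ t ^ 2) * x t (vP i) -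
        N * (φ1 t / φ t) * x t (vP1 i)) t := by
    intro i t ht
    have := dA t ht (vP1 i)
    rw [FF_P1, hw t ht.le] at this
    refine this.congr_deriv ?_
    ring
  have dU1 : ∀ i t, 0 < t → HasDerivAt (fun t => x t (vU1 i))
      (lam i * x t (vU i) - N * (φ1 t / φ t) * x t (vU1 i)) t := by
    intro i t ht
    have := dA t ht (vU1 i)
    rw [FF_U1, hw t ht.le] at this
    refine this.congr_deriv ?_
    ring
  have posPP : ∀ i t, 0 ≤ t → 0 < x t (vP i) ∧ 0 < x t (vP1 i) := by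
    intro i
    refine pos_prop (W := W) (k := fun t => lam i + N * (1 / φ t ^ 2)) (cA (vP i)) (dP i)
      (cW.mul (cA (vP1 i))) ?_ Wpos ?_ (g.P i) (g.P1 i)
    · intro t ht
      refine ((dW t ht).mul (dP1 i t ht)).congr_deriv ?_
      ring
    · intro t ht
      have := hφpos t ht.le
      have := hl i
      positivity
  have posUU : ∀ i t, 0 ≤ t → 0 < x t (vU i) ∧ 0 < x t (vU1 i) := by
    intro i
    refine pos_prop (W := W) (k := fun t => lam i) (cA (vU i)) (dU i)
      (cW.mul (cA (vU1 i))) ?_ Wpos ?_ (g.U i) (g.U1 i)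
    · intro t ht
      refine ((dW t ht).mul (dU1 i t ht)).congr_deriv ?_
      ring
    · intro t ht
      exact (hl i).le
  have posZ : ∀ i t, 0 ≤ t → 0 < x t (vP1 i) * x t (vU i) - x t (vP i) * x t (vU1 i) := by
    intro i t ht
    have h1 := mono_Icc
      (f := fun t => W t * (x t (vP1 i) * x t (vU i) - x t (vP i) * x t (vU1 i)))
      (f' := fun t => W t * (N * (1 / φ t ^ 2) * x t (vP i) * x t (vU i))) (a := 0) (b := t)
      ((cW.mul (((cA (vP1 i)).mul (cA (vU i))).sub ((cA (vP i)).mul (cA (vU1 i))))).mono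
        Icc_subset_Ici_self)
      (fun s hs => by
        refine ((dW s hs.1).mul (((dP1 i s hs.1).mul (dU i s hs.1)).sub
          ((dP i s hs.1).mul (dU1 i s hs.1)))).congr_deriv ?_
        simp only [Pi.mul_apply, Pi.sub_apply]
        ring)
      (fun s hs => by
        have h2 := (posPP i s hs.1.le).1
        have h3 := (posUU i s hs.1.le).1
        have h4 := hφpos s hs.1.le
        have h5 := Wpos s hs.1.le
        positivity) t ⟨ht, le_rfl⟩
    have h2 : 0 < W 0 * (x 0 (vP1 i) * x 0 (vU i) - x 0 (vP i) * x 0 (vU1 i)) :=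
      mul_pos (Wpos 0 le_rfl) (g.Z i)
    exact (mul_pos_iff_of_pos_left (Wpos t ht)).1 (lt_of_lt_of_le h2 h1)
  refine ⟨fun i t => x t (vP i), fun i t => x t (vP1 i), fun i t => x t (vU i),
    fun i t => x t (vU1 i), hl, hli, dP, dP1, dU, dU1, fun i t ht => (posPP i t ht.le).1,
    fun i t ht => (posPP i t ht.le).2, fun i t ht => (posUU i t ht.le).1,
    fun i t ht => (posUU i t ht.le).2, fun i t ht => posZ i t ht.le, fun t ht => hφpos t ht.le,
    fun t ht => hφ1ge t ht.le, fun t ht => ?_⟩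
  have h2 := propagate (hx t) g.J t ⟨ht.le, le_rfl⟩
  rw [eval_JJ] at h2
  show (∑ i, a i * x t (vP1 i)) ^ 2 - (∑ i, d i * x t (vU1 i)) ^ 2 = 1
  linarith

/-- a good initial state has only one active index -/
theorem Good.single (hl : ∀ i, 0 < lam i) (hli : Function.Injective lam) {x0 : St ι → ℝ}
    (g : Good N lam a d x0) (hN : 1 ≤ N) (hk : 2 ≤ N ∨ ∀ i j, 3 / 8 * lam j < lam i) :
    ∃ m, a m ≠ 0 ∧ ∀ i, i ≠ m → a i = 0 ∧ d i = 0 := by
  obtain ⟨P, P1, U, U1, w⟩ := g.exists_WS hl hli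
  exact w.single hN hk

end

end Run7.h978.Rot
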