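import Mathlib

set_option autoImplicit false

/-!
Evaluation of convergent power series.
-/

open Set Filter Topology PowerSeries Finset

namespace Run7.h978.Rot

/-- `f` converges for `|z| < r` -/
def Cv (r : ℝ) (f : PowerSeries ℝ) : Prop :=
  ∀ s, 0 ≤ s → s < r → Summable fun k => |coeff k f| * s ^ k

/-- evaluation -/
noncomputable def ev (f : PowerSeries ℝ) (z : ℝ) : ℝ := ∑' k, coeff k f * z ^ k

/-- the Euler derivative -/
noncomputable def eul (f : PowerSeries ℝ) : PowerSeries ℝ := X * d⁄dX ℝ f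

theorem coeff_eul (f : PowerSeries ℝ) (k : ℕ) : coeff k (eul f) = k * coeff k f := by
  rcases k with _ | k
  · simp [eul]
  · rw [eul, coeff_succ_X_mul, coeff_derivative]
    push_cast
    ring

theorem eul_mul (f g : PowerSeries ℝ) : eul (f * g) = eul f * g + f * eul g := by
  rw [eul, eul, eul, Derivation.leibniz, smul_eq_mul, smul_eq_mul]
  ring

theorem eul_add (f g : PowerSeries ℝ) : eul (f + g) = eul f + eul g := by
  rw [eul, eul, eul, map_add]
  ring

theorem eul_sub (f g : PowerSeries ℝ) : eul (f - g) = eul f - eul g := by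
  rw [eul, eul, eul, map_sub]
  ring

theorem eul_C_mul (c : ℝ) (f : PowerSeries ℝ) : eul (C c * f) = C c * eul f := by
  rw [eul_mul]
  have : eul (C c) = 0 := by
    rw [eul, derivative_C, mul_zero]
  rw [this]
  ring

theorem eul_sum {ι : Type} (s : Finset ι) (f : ι → PowerSeries ℝ) :
    eul (∑ i ∈ s, f i) = ∑ i ∈ s, eul (f i) := by
  simp only [eul, map_sum, Finset.mul_sum]

variable {r : ℝ} {f g : PowerSeries ℝ}

theorem Cv.norm (hf : Cv r f) {z : ℝ} (hz : |z| < r) : Summable fun k => ‖coeff k f * z ^ k‖ := by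
  have := hf |z| (abs_nonneg z) hz
  refine this.congr fun k => ?_
  rw [Real.norm_eq_abs, abs_mul, abs_pow]

theorem Cv.summ (hf : Cv r f) {z : ℝ} (hz : |z| < r) : Summable fun k => coeff k f * z ^ k :=
  (hf.norm hz).of_norm

theorem Cv.mono (hf : Cv r f) {r' : ℝ} (h : r' ≤ r) : Cv r' f :=
  fun s hs hs' => hf s hs (lt_of_lt_of_le hs' h)

theorem Cv.add (hf : Cv r f) (hg : Cv r g) : Cv r (f + g) := by
  intro s hs hsr
  refine Summable.of_nonneg_of_le (fun k => by positivity) (fun k => ?_)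
    ((hf s hs hsr).add (hg s hs hsr))
  rw [map_add, ← add_mul]
  gcongr
  exact abs_add_le _ _

theorem Cv.neg (hf : Cv r f) : Cv r (-f) := by
  intro s hs hsr
  refine (hf s hs hsr).congr fun k => ?_
  rw [map_neg, abs_neg]

theorem Cv.sub (hf : Cv r f) (hg : Cv r g) : Cv r (f - g) := by
  rw [sub_eq_add_neg]
  exact hf.add hg.neg

theorem Cv.mul (hf : Cv r f) (hg : Cv r g) : Cv r (f * g) := by
  intro s hs hsr
  have hs' : |s| < r := by rwa [abs_of_nonneg hs]
  have h1 := summable_norm_sum_mul_antidiagonal_of_summable_norm (hf.norm hs') (hg.norm hs')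
  refine h1.congr fun k => ?_
  rw [coeff_mul]
  have h2 : ∑ p ∈ antidiagonal k, coeff p.1 f * s ^ p.1 * (coeff p.2 g * s ^ p.2) =
      (∑ p ∈ antidiagonal k, coeff p.1 f * coeff p.2 g) * s ^ k := by
    rw [Finset.sum_mul]
    refine Finset.sum_congr rfl fun p hp => ?_
    rw [HasAntidiagonal.mem_antidiagonal] at hp
    rw [← hp, pow_add]
    ring
  rw [h2, Real.norm_eq_abs, abs_mul, abs_of_nonneg (pow_nonneg hs k)]

theorem cv_C (c : ℝ) : Cv r (C c) := by
  intro s hs hsr
  refine summable_of_ne_finset_zero (s := {0}) fun k hk => ?_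
  rw [Finset.mem_singleton] at hk
  rw [coeff_C, if_neg hk, abs_zero, zero_mul]

theorem cv_X : Cv r (X : PowerSeries ℝ) := by
  intro s hs hsr
  refine summable_of_ne_finset_zero (s := {1}) fun k hk => ?_
  rw [Finset.mem_singleton] at hk
  rw [coeff_X, if_neg hk, abs_zero, zero_mul]

theorem cv_one : Cv r (1 : PowerSeries ℝ) := by
  have := cv_C (r := r) 1
  rwa [map_one] at this

theorem cv_zero : Cv r (0 : PowerSeries ℝ) := by
  have := cv_C (r := r) 0
  rwa [map_zero] at this

theorem cv_sum {ι : Type} (s : Finset ι) (f : ι → PowerSeries ℝ) (h : ∀ i, Cv r (f i)) :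
    Cv r (∑ i ∈ s, f i) := by
  classical
  induction s using Finset.induction_on with
  | empty =>
    rw [Finset.sum_empty]
    exact cv_zero
  | insert a s ha ih =>
    rw [Finset.sum_insert ha]
    exact (h a).add ih

theorem geo_bound {s s' : ℝ} (hs : 0 < s) (hs' : s < s') :
    ∃ M : ℝ, 0 ≤ M ∧ ∀ k : ℕ, (k : ℝ) * s ^ k ≤ M * s' ^ k := by
  have hs0 : 0 < s' := hs.trans hs'
  have h1 : ‖s / s'‖ < 1 := by
    rw [Real.norm_eq_abs, abs_of_pos (div_pos hs hs0), div_lt_one hs0]
    exact hs'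
  have h2 := summable_pow_mul_geometric_of_norm_lt_one 1 h1
  have h3 : ∀ k : ℕ, 0 ≤ (k : ℝ) ^ 1 * (s / s') ^ k := fun k => by positivity
  refine ⟨∑' k : ℕ, (k : ℝ) ^ 1 * (s / s') ^ k, tsum_nonneg h3, fun k => ?_⟩
  have h4 := h2.le_tsum k fun j _ => h3 j
  rw [div_pow, pow_one, mul_div_assoc', div_le_iff₀ (pow_pos hs0 k)] at h4
  exact h4

theorem Cv.deriv (hf : Cv r f) : Cv r (d⁄dX ℝ f) := by
  intro s hs hsr
  obtain ⟨s1, hs1, hs1r⟩ := exists_between hsr
  obtain ⟨s2, hs2, hs2r⟩ := exists_between hs1r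
  have hs10 : 0 < s1 := lt_of_le_of_lt hs hs1
  obtain ⟨M, hM, hMb⟩ := geo_bound hs10 hs2
  have h1 := (hf s2 (hs10.trans hs2).le hs2r)
  have h2 := (summable_nat_add_iff 1).2 h1
  refine Summable.of_nonneg_of_le (fun k => by positivity) (fun k => ?_) (h2.mul_left (M / s1))
  rw [coeff_derivative, abs_mul]
  have h3 := hMb (k + 1)
  have h4 : s ^ k ≤ s1 ^ k := by gcongr
  have h5 : |(k : ℝ) + 1| = k + 1 := abs_of_nonneg (by positivity)
  rw [h5]
  push_cast at h3
  calc |coeff (k + 1) f| * ((k : ℝ) + 1) * s ^ k ≤ |coeff (k + 1) f| * ((k : ℝ) + 1) * s1 ^ k := by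
        gcongr
    _ = |coeff (k + 1) f| * (((k : ℝ) + 1) * s1 ^ (k + 1)) / s1 := by
        rw [pow_succ]
        field_simp
    _ ≤ |coeff (k + 1) f| * (M * s2 ^ (k + 1)) / s1 := by gcongr
    _ = M / s1 * (|coeff (k + 1) f| * s2 ^ (k + 1)) := by ring

theorem Cv.eul (hf : Cv r f) : Cv r (eul f) := cv_X.mul hf.deriv

theorem ev_add (hf : Cv r f) (hg : Cv r g) {z : ℝ} (hz : |z| < r) :
    ev (f + g) z = ev f z + ev g z := by
  rw [ev, ev, ev, ← (hf.summ hz).tsum_add (hg.summ hz)]
  refine tsum_congr fun k => ?_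
  rw [map_add, add_mul]

theorem ev_neg (f : PowerSeries ℝ) (z : ℝ) : ev (-f) z = -ev f z := by
  rw [ev, ev, ← tsum_neg]
  refine tsum_congr fun k => ?_
  rw [map_neg, neg_mul]

theorem ev_sub (hf : Cv r f) (hg : Cv r g) {z : ℝ} (hz : |z| < r) :
    ev (f - g) z = ev f z - ev g z := by
  rw [sub_eq_add_neg, ev_add hf hg.neg hz, ev_neg, sub_eq_add_neg]

theorem ev_mul (hf : Cv r f) (hg : Cv r g) {z : ℝ} (hz : |z| < r) :
    ev (f * g) z = ev f z * ev g z := by
  rw [ev, ev, ev, tsum_mul_tsum_eq_tsum_sum_antidiagonal_of_summable_norm (hf.norm hz)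
    (hg.norm hz)]
  refine tsum_congr fun k => ?_
  rw [coeff_mul, Finset.sum_mul]
  refine Finset.sum_congr rfl fun p hp => ?_
  rw [HasAntidiagonal.mem_antidiagonal] at hp
  rw [← hp, pow_add]
  ring

theorem ev_C (c z : ℝ) : ev (C c) z = c := by
  rw [ev, tsum_eq_single 0]
  · simp
  · intro k hk
    rw [coeff_C, if_neg hk, zero_mul]

theorem ev_X (z : ℝ) : ev X z = z := by
  rw [ev, tsum_eq_single 1]
  · simp
  · intro k hk
    rw [coeff_X, if_neg hk, zero_mul]

theorem ev_one (z : ℝ) : ev 1 z = 1 := by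
  have := ev_C 1 z
  rwa [map_one] at this

theorem ev_zero_fun (z : ℝ) : ev 0 z = 0 := by
  have := ev_C 0 z
  rwa [map_zero] at this

theorem ev_sum {ι : Type} (s : Finset ι) (f : ι → PowerSeries ℝ) (h : ∀ i, Cv r (f i)) {z : ℝ}
    (hz : |z| < r) : ev (∑ i ∈ s, f i) z = ∑ i ∈ s, ev (f i) z := by
  classical
  induction s using Finset.induction_on with
  | empty =>
    rw [Finset.sum_empty, Finset.sum_empty, ev_zero_fun]
  | insert a s ha ih =>
    rw [Finset.sum_insert ha, Finset.sum_insert ha, ev_add (h a) (cv_sum s f h) hz, ih]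

theorem ev_at_zero (f : PowerSeries ℝ) : ev f 0 = coeff 0 f := by
  rw [ev, tsum_eq_single 0]
  · simp
  · intro k hk
    rw [zero_pow hk, mul_zero]

theorem ev_hasDeriv (hf : Cv r f) {z : ℝ} (hz : |z| < r) :
    HasDerivAt (ev f) (ev (d⁄dX ℝ f) z) z := by
  obtain ⟨s1, hs1, hs1r⟩ := exists_between hz
  obtain ⟨s2, hs2, hs2r⟩ := exists_between hs1r
  have hs10 : 0 < s1 := lt_of_le_of_lt (abs_nonneg z) hs1
  obtain ⟨M, hM, hMb⟩ := geo_bound hs10 hs2
  have h1 := (hf s2 (hs10.trans hs2).le hs2r)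
  have h2 : HasDerivAt (fun z => ∑' k, coeff k f * z ^ k)
      (∑' k : ℕ, coeff k f * (k * z ^ (k - 1))) z := by
    refine hasDerivAt_tsum_of_isPreconnected (u := fun k => M / s1 * (|coeff k f| * s2 ^ k))
      (g := fun k z => coeff k f * z ^ k) (g' := fun k z => coeff k f * (k * z ^ (k - 1)))
      (t := Metric.ball (0 : ℝ) s1) (y₀ := (0 : ℝ)) (h1.mul_left _) Metric.isOpen_ball
      (convex_ball (0 : ℝ) s1).isPreconnected ?_ ?_ ?_ ?_ ?_
    · intro k y _
      exact (hasDerivAt_pow k y).const_mul (coeff k f)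
    · intro k y hy
      rw [Metric.mem_ball, dist_zero_right, Real.norm_eq_abs] at hy
      rw [Real.norm_eq_abs, abs_mul, abs_mul, abs_pow, Nat.abs_cast]
      rcases k with _ | k
      · simp
        positivity
      · have h3 := hMb (k + 1)
        simp only [Nat.add_sub_cancel]
        calc |coeff (k + 1) f| * (((k + 1 : ℕ) : ℝ) * |y| ^ k) ≤
            |coeff (k + 1) f| * (((k + 1 : ℕ) : ℝ) * s1 ^ k) := by gcongr
          _ = |coeff (k + 1) f| * (((k + 1 : ℕ) : ℝ) * s1 ^ (k + 1)) / s1 := by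
              rw [pow_succ]
              field_simp
          _ ≤ |coeff (k + 1) f| * (M * s2 ^ (k + 1)) / s1 := by gcongr
          _ = M / s1 * (|coeff (k + 1) f| * s2 ^ (k + 1)) := by ring
    · exact Metric.mem_ball_self hs10
    · exact hf.summ (by rw [abs_zero]; exact lt_of_le_of_lt (abs_nonneg z) hz)
    · rw [Metric.mem_ball, dist_zero_right, Real.norm_eq_abs]
      exact hs1
  have h3 : (∑' k : ℕ, coeff k f * (k * z ^ (k - 1))) = ev (d⁄dX ℝ f) z := by
    have h4 : Summable fun k : ℕ => coeff (k + 1) f * (((k + 1 : ℕ) : ℝ) * z ^ (k + 1 - 1)) := by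
      refine ((hf.deriv).summ hz).congr fun k => ?_
      rw [coeff_derivative]
      push_cast
      ring
    have h5 := (summable_nat_add_iff (f := fun k : ℕ => coeff k f * ((k : ℝ) * z ^ (k - 1))) 1).1 h4
    rw [h5.tsum_eq_zero_add, ev]
    simp only [Nat.cast_zero, zero_mul, mul_zero, zero_add]
    refine tsum_congr fun k => ?_
    rw [coeff_derivative, Nat.add_sub_cancel]
    push_cast
    ring
  rw [← h3]
  exact h2

theorem ev_eul (hf : Cv r f) {z : ℝ} (hz : |z| < r) : ev (eul f) z = z * ev (d⁄dX ℝ f) z := by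
  rw [eul, ev_mul cv_X hf.deriv hz, ev_X]

theorem ev_cont (hf : Cv r f) {z : ℝ} (hz : |z| < r) : ContinuousAt (ev f) z :=
  (ev_hasDeriv hf hz).continuousAt

/-- the identity theorem -/
theorem ps_identity {ε : ℝ} (hε : 0 < ε) (hr : 0 < r) (hf : Cv r f)
    (h : ∀ z, 0 < z → z < ε → ev f z = 0) : f = 0 := by
  have hε' : 0 < min ε r := lt_min hε hr
  have key : ∀ k : ℕ, ∀ f : PowerSeries ℝ, Cv r f → (∀ z, 0 < z → z < min ε r → ev f z = 0) →
      coeff k f = 0 := by
    intro k
    induction k with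
    | zero =>
      intro f hf h
      have h1 : ContinuousAt (ev f) 0 := ev_cont hf (by rwa [abs_zero])
      have h2 : Tendsto (ev f) (𝓝[>] 0) (𝓝 (ev f 0)) := h1.tendsto.mono_left nhdsWithin_le_nhds
      have h3 : Tendsto (ev f) (𝓝[>] 0) (𝓝 0) := by
        refine (tendsto_const_nhds (x := (0 : ℝ))).congr' ?_
        filter_upwards [Ioo_mem_nhdsGT hε'] with z hz
        exact (h z hz.1 hz.2).symm
      rw [← ev_at_zero]
      exact tendsto_nhds_unique h2 h3
    | succ k ih =>
      intro f hf h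
      have h0 : coeff 0 f = 0 := by
        have h1 : ContinuousAt (ev f) 0 := ev_cont hf (by rwa [abs_zero])
        have h2 : Tendsto (ev f) (𝓝[>] 0) (𝓝 (ev f 0)) := h1.tendsto.mono_left nhdsWithin_le_nhds
        have h3 : Tendsto (ev f) (𝓝[>] 0) (𝓝 0) := by
          refine (tendsto_const_nhds (x := (0 : ℝ))).congr' ?_
          filter_upwards [Ioo_mem_nhdsGT hε'] with z hz
          exact (h z hz.1 hz.2).symm
        rw [← ev_at_zero]
        exact tendsto_nhds_unique h2 h3
      obtain ⟨g, hg⟩ : ∃ g : PowerSeries ℝ, f = X * g := by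
        have : X ∣ f := by
          rw [X_dvd_iff, ← coeff_zero_eq_constantCoeff_apply]
          exact h0
        exact this
      have hgc : ∀ j, coeff j g = coeff (j + 1) f := by
        intro j
        rw [hg, coeff_succ_X_mul]
      have hgcv : Cv r g := by
        intro s hs hsr
        obtain ⟨s1, hs1, hs1r⟩ := exists_between hsr
        have hs10 : 0 < s1 := lt_of_le_of_lt hs hs1
        have h1 := (summable_nat_add_iff 1).2 (hf s1 hs10.le hs1r)
        refine Summable.of_nonneg_of_le (fun j => by positivity) (fun j => ?_)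
          (h1.mul_left (1 / s1))
        rw [hgc, pow_succ]
        have : s ^ j ≤ s1 ^ j := by gcongr
        calc |coeff (j + 1) f| * s ^ j ≤ |coeff (j + 1) f| * s1 ^ j := by gcongr
          _ = 1 / s1 * (|coeff (j + 1) f| * (s1 ^ j * s1)) := by field_simp
      have h4 : ∀ z, 0 < z → z < min ε r → ev g z = 0 := by
        intro z hz hz2
        have h5 := h z hz hz2
        rw [hg, ev_mul cv_X hgcv (by
          rw [abs_of_pos hz]
          exact lt_of_lt_of_le hz2 (min_le_right _ _)), ev_X] at h5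
        exact (mul_eq_zero.1 h5).resolve_left hz.ne'
      rw [← hgc]
      exact ih g hgcv h4
  ext k
  rw [key k f hf fun z hz hz2 => h z hz (lt_of_lt_of_le hz2 (min_le_left _ _)), map_zero]

end Run7.h978.Rot
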