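import Mathlib
import Pool.Agent.Run7.h978.Ps1

set_option autoImplicit false

/-!
The power series solution of the system of the profile functions at the pole.
-/

open Filter Topology PowerSeries Finset

namespace Run7.h978.Rot

theorem exists_rec {S : Type} [Inhabited S] (Φ : ℕ → (ℕ → S) → S)
    (hΦ : ∀ k (y y' : ℕ → S), (∀ j, j < k → y j = y' j) → Φ k y = Φ k y') :
    ∃ y : ℕ → S, ∀ k, y k = Φ k y := by
  set T : (ℕ → S) → (ℕ → S) := fun y k => Φ k y with hT
  set Y : ℕ → ℕ → S := fun n => T^[n] (fun _ => default) with hY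
  have hs : ∀ n, Y (n + 1) = T (Y n) := fun n => Function.iterate_succ_apply' T n _
  have key : ∀ k m n : ℕ, k < m → k < n → Y m k = Y n k := by
    intro k
    induction k using Nat.strong_induction_on with
    | _ k ih =>
      intro m n hm hn
      obtain ⟨m', rfl⟩ : ∃ m', m = m' + 1 := ⟨m - 1, by omega⟩
      obtain ⟨n', rfl⟩ : ∃ n', n = n' + 1 := ⟨n - 1, by omega⟩
      rw [hs, hs]
      exact hΦ k _ _ fun j hj => ih j hj m' n' (by omega) (by omega)
  refine ⟨fun k => Y (k + 1) k, fun k => ?_⟩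
  show Y (k + 1) k = _
  rw [hs]
  exact hΦ k _ _ fun j hj => key j k (j + 1) hj (Nat.lt_succ_self j)

section

variable {ι : Type} [Fintype ι]

/-- the state of the recursion -/
abbrev RS (ι : Type) := ℝ × (ι → ℝ) × (ι → ℝ)

/-- the coefficient of the weighted sum -/
noncomputable def rF (B : ι → ℝ) (y : ℕ → RS ι) (j : ℕ) : ℝ := ∑ i, B i * (y j).2.1 i

/-- recursion for `q` -/
noncomputable def rq (N : ℕ) (lam A : ι → ℝ) (y : ℕ → RS ι) (k : ℕ) : ℝ :=
  if k = 0 then 0 else
    -(N * (∑ p ∈ (antidiagonal k).filter (fun p => p.1 ≠ 0 ∧ p.2 ≠ 0), (y p.1).1 * (y p.2).1) +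
      ∑ p ∈ antidiagonal (k - 1), rF A y p.1 * rF (fun i => lam i * A i) y p.2) / (2 * k + 2 * N)

/-- square -/
noncomputable def rFF (A : ι → ℝ) (y : ℕ → RS ι) (j : ℕ) : ℝ :=
  ∑ p ∈ antidiagonal j, rF A y p.1 * rF A y p.2

/-- recursion for the vector parts -/
noncomputable def rV (N : ℕ) (lam A : ι → ℝ) (y : ℕ → RS ι) (k : ℕ) (i : ι) : ℝ :=
  if k = 0 then 1 else
    -((N - 1) * (∑ p ∈ (antidiagonal k).filter (fun p => p.1 ≠ 0),
        rq N lam A y p.1 * ((2 * p.2 + 1) * (y p.2).2.1 i)) +
      lam i * ∑ p ∈ antidiagonal (k - 1), rFF A y p.1 * (y p.2).2.1 i) /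
      (2 * k * (2 * k + N + 1))

/-- recursion for the scalar parts -/
noncomputable def rU (N : ℕ) (lam A : ι → ℝ) (y : ℕ → RS ι) (k : ℕ) (i : ι) : ℝ :=
  if k = 0 then 1 else
    -((N - 1) * (∑ p ∈ (antidiagonal k).filter (fun p => p.1 ≠ 0),
        rq N lam A y p.1 * ((2 * p.2) * (y p.2).2.2 i)) +
      lam i * ∑ p ∈ antidiagonal (k - 1), rFF A y p.1 * (y p.2).2.2 i) /
      (2 * k * (2 * k + N - 1))

theorem exists_seq (N : ℕ) (lam A : ι → ℝ) : ∃ y : ℕ → RS ι,
    ∀ k, y k = (rq N lam A y k, rV N lam A y k, rU N lam A y k) := by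
  have hF : ∀ (B : ι → ℝ) (y y' : ℕ → RS ι) (j : ℕ), y j = y' j → rF B y j = rF B y' j := by
    intro B y y' j h
    rw [rF, rF, h]
  have hq : ∀ (k : ℕ) (y y' : ℕ → RS ι), (∀ j, j < k → y j = y' j) →
      rq N lam A y k = rq N lam A y' k := by
    intro k y y' h
    rw [rq, rq]
    by_cases hk : k = 0
    · rw [if_pos hk, if_pos hk]
    rw [if_neg hk, if_neg hk]
    have e1 : ∑ p ∈ (antidiagonal k).filter (fun p => p.1 ≠ 0 ∧ p.2 ≠ 0), (y p.1).1 * (y p.2).1 =
        ∑ p ∈ (antidiagonal k).filter (fun p => p.1 ≠ 0 ∧ p.2 ≠ 0), (y' p.1).1 * (y' p.2).1 := by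
      refine Finset.sum_congr rfl fun p hp => ?_
      rw [Finset.mem_filter, HasAntidiagonal.mem_antidiagonal] at hp
      rw [h p.1 (by omega), h p.2 (by omega)]
    have e2 : ∑ p ∈ antidiagonal (k - 1), rF A y p.1 * rF (fun i => lam i * A i) y p.2 =
        ∑ p ∈ antidiagonal (k - 1), rF A y' p.1 * rF (fun i => lam i * A i) y' p.2 := by
      refine Finset.sum_congr rfl fun p hp => ?_
      rw [HasAntidiagonal.mem_antidiagonal] at hp
      rw [hF A y y' p.1 (h _ (by omega)), hF _ y y' p.2 (h _ (by omega))]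
    rw [e1, e2]
  have hFF : ∀ (k : ℕ) (y y' : ℕ → RS ι), (∀ j, j ≤ k → y j = y' j) →
      rFF A y k = rFF A y' k := by
    intro k y y' h
    rw [rFF, rFF]
    refine Finset.sum_congr rfl fun p hp => ?_
    rw [HasAntidiagonal.mem_antidiagonal] at hp
    rw [hF A y y' p.1 (h _ (by omega)), hF _ y y' p.2 (h _ (by omega))]
  refine exists_rec (fun k y => (rq N lam A y k, rV N lam A y k, rU N lam A y k)) ?_
  intro k y y' h
  have h1 := hq k y y' h
  have h2 : rV N lam A y k = rV N lam A y' k := by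
    funext i
    rw [rV, rV]
    by_cases hk : k = 0
    · rw [if_pos hk, if_pos hk]
    rw [if_neg hk, if_neg hk]
    have e1 : ∑ p ∈ (antidiagonal k).filter (fun p => p.1 ≠ 0),
        rq N lam A y p.1 * ((2 * p.2 + 1) * (y p.2).2.1 i) =
        ∑ p ∈ (antidiagonal k).filter (fun p => p.1 ≠ 0),
        rq N lam A y' p.1 * ((2 * p.2 + 1) * (y' p.2).2.1 i) := by
      refine Finset.sum_congr rfl fun p hp => ?_
      rw [Finset.mem_filter, HasAntidiagonal.mem_antidiagonal] at hp
      rw [h p.2 (by omega), hq p.1 y y' fun j hj => h j (by omega)]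
    have e2 : ∑ p ∈ antidiagonal (k - 1), rFF A y p.1 * (y p.2).2.1 i =
        ∑ p ∈ antidiagonal (k - 1), rFF A y' p.1 * (y' p.2).2.1 i := by
      refine Finset.sum_congr rfl fun p hp => ?_
      rw [HasAntidiagonal.mem_antidiagonal] at hp
      rw [h p.2 (by omega), hFF p.1 y y' fun j hj => h j (by omega)]
    rw [e1, e2]
  have h3 : rU N lam A y k = rU N lam A y' k := by
    funext i
    rw [rU, rU]
    by_cases hk : k = 0
    · rw [if_pos hk, if_pos hk]
    rw [if_neg hk, if_neg hk]
    have e1 : ∑ p ∈ (antidiagonal k).filter (fun p => p.1 ≠ 0),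
        rq N lam A y p.1 * ((2 * p.2) * (y p.2).2.2 i) =
        ∑ p ∈ (antidiagonal k).filter (fun p => p.1 ≠ 0),
        rq N lam A y' p.1 * ((2 * p.2) * (y' p.2).2.2 i) := by
      refine Finset.sum_congr rfl fun p hp => ?_
      rw [Finset.mem_filter, HasAntidiagonal.mem_antidiagonal] at hp
      rw [h p.2 (by omega), hq p.1 y y' fun j hj => h j (by omega)]
    have e2 : ∑ p ∈ antidiagonal (k - 1), rFF A y p.1 * (y p.2).2.2 i =
        ∑ p ∈ antidiagonal (k - 1), rFF A y' p.1 * (y' p.2).2.2 i := by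
      refine Finset.sum_congr rfl fun p hp => ?_
      rw [HasAntidiagonal.mem_antidiagonal] at hp
      rw [h p.2 (by omega), hFF p.1 y y' fun j hj => h j (by omega)]
    rw [e1, e2]
  show (_, _, _) = (_, _, _)
  rw [h1, h2, h3]

/-- bounding an antidiagonal sum -/
theorem anti_bound {k : ℕ} {R c : ℝ} (s : Finset (ℕ × ℕ)) (hs : s ⊆ antidiagonal k)
    (f g : ℕ × ℕ → ℝ) {a b : ℝ} (hR : 0 ≤ R) (ha : 0 ≤ a) (hb : 0 ≤ b)
    (hf : ∀ p ∈ s, |f p| ≤ a * R ^ p.1) (hg : ∀ p ∈ s, |g p| ≤ b * R ^ p.2)
    (hc : c = (k + 1) * (a * b * R ^ k)) : |∑ p ∈ s, f p * g p| ≤ c := by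
  calc |∑ p ∈ s, f p * g p| ≤ ∑ p ∈ s, |f p * g p| := Finset.abs_sum_le_sum_abs _ _
    _ ≤ ∑ p ∈ s, a * b * R ^ k := by
        refine Finset.sum_le_sum fun p hp => ?_
        have h1 := hs hp
        rw [HasAntidiagonal.mem_antidiagonal] at h1
        rw [abs_mul, ← h1, pow_add]
        calc |f p| * |g p| ≤ (a * R ^ p.1) * (b * R ^ p.2) := by
              exact mul_le_mul (hf p hp) (hg p hp) (abs_nonneg _) (by positivity)
          _ = a * b * (R ^ p.1 * R ^ p.2) := by ring
    _ ≤ ∑ p ∈ antidiagonal k, a * b * R ^ k :=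
        Finset.sum_le_sum_of_subset_of_nonneg hs fun _ _ _ => by positivity
    _ = c := by
        rw [Finset.sum_const, Finset.Nat.card_antidiagonal, nsmul_eq_mul, hc]
        push_cast
        ring

theorem seq_bound {N : ℕ} (hN : 1 ≤ N) (lam A : ι → ℝ) {y : ℕ → RS ι}
    (hy : ∀ k, y k = (rq N lam A y k, rV N lam A y k, rU N lam A y k)) :
    ∃ R : ℝ, 0 < R ∧ ∀ k, |(y k).1| ≤ R ^ k ∧ (∀ i, |(y k).2.1 i| ≤ R ^ k) ∧
      ∀ i, |(y k).2.2 i| ≤ R ^ k := by
  have hN' : (1 : ℝ) ≤ N := by exact_mod_cast hN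
  set a : ℝ := ∑ i, |A i| with ha
  set l : ℝ := ∑ i, |lam i * A i| with hl
  set Λ : ℝ := ∑ i, |lam i| with hΛ
  have ha0 : 0 ≤ a := Finset.sum_nonneg fun i _ => abs_nonneg _
  have hl0 : 0 ≤ l := Finset.sum_nonneg fun i _ => abs_nonneg _
  have hΛ0 : 0 ≤ Λ := Finset.sum_nonneg fun i _ => abs_nonneg _
  have hΛi : ∀ i, |lam i| ≤ Λ := fun i =>
    Finset.single_le_sum (f := fun i => |lam i|) (fun i _ => abs_nonneg _) (Finset.mem_univ i)
  set R : ℝ := 1 + 4 * N * a * l + Λ * a ^ 2 with hR
  have hR1 : 0 < R := by positivity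
  have hR2 : 4 * N * (a * l) ≤ R := by
    have : 0 ≤ Λ * a ^ 2 := by positivity
    rw [hR]
    linarith
  have hR3 : Λ * a ^ 2 ≤ R := by
    have : 0 ≤ 4 * N * a * l := by positivity
    rw [hR]
    linarith
  have key : ∀ k, |(y k).1| ≤ 1 / (4 * N) * R ^ k ∧ (∀ i, |(y k).2.1 i| ≤ 1 * R ^ k) ∧
      ∀ i, |(y k).2.2 i| ≤ 1 * R ^ k := by
    intro k
    induction k using Nat.strong_induction_on with
    | _ k ih =>
      rcases k with _ | n
      · rw [hy 0]
        simp [rq, rV, rU]
      have hq1 : (y (n + 1)).1 = rq N lam A y (n + 1) := by rw [hy (n + 1)]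
      have hV1 : (y (n + 1)).2.1 = rV N lam A y (n + 1) := by rw [hy (n + 1)]
      have hU1 : (y (n + 1)).2.2 = rU N lam A y (n + 1) := by rw [hy (n + 1)]
      have hF : ∀ (B : ι → ℝ) (j : ℕ), j < n + 1 → |rF B y j| ≤ (∑ i, |B i|) * R ^ j := by
        intro B j hj
        calc |rF B y j| ≤ ∑ i, |B i * (y j).2.1 i| := Finset.abs_sum_le_sum_abs _ _
          _ ≤ ∑ i, |B i| * R ^ j := by
              refine Finset.sum_le_sum fun i _ => ?_
              rw [abs_mul]
              have := (ih j hj).2.1 i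
              rw [one_mul] at this
              gcongr
          _ = (∑ i, |B i|) * R ^ j := by rw [Finset.sum_mul]
      have hFF : ∀ j, j < n + 1 → |rFF A y j| ≤ (n + 1) * a ^ 2 * R ^ j := by
        intro j hj
        have hjn : (j : ℝ) ≤ n := by exact_mod_cast (by omega : j ≤ n)
        refine (anti_bound (k := j) (R := R) (c := (j + 1) * (a * a * R ^ j)) (antidiagonal j)
          (Finset.Subset.refl _) (fun p => rF A y p.1) (fun p => rF A y p.2) hR1.le ha0 ha0
          (fun p hp => ?_) (fun p hp => ?_) rfl).trans ?_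
        · rw [HasAntidiagonal.mem_antidiagonal] at hp
          exact hF A p.1 (by omega)
        · rw [HasAntidiagonal.mem_antidiagonal] at hp
          exact hF A p.2 (by omega)
        · have : 0 ≤ a * a * R ^ j := by positivity
          nlinarith
      have hRn : 0 < R ^ n := pow_pos hR1 n
      have hRs : R ^ (n + 1) = R * R ^ n := by rw [pow_succ]; ring
      have hn0 : (0 : ℝ) ≤ n := Nat.cast_nonneg n
      -- the bound for `q`
      have hqb : |rq N lam A y (n + 1)| ≤ 1 / (4 * N) * R ^ (n + 1) := by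
        rw [rq, if_neg (Nat.succ_ne_zero n), abs_div, abs_neg]
        have hden : (0 : ℝ) < 2 * ((n + 1 : ℕ) : ℝ) + 2 * N := by positivity
        rw [abs_of_pos hden, div_le_iff₀ hden]
        have h1 := anti_bound (k := n + 1) (R := R)
          (c := ((n + 1 : ℕ) + 1) * (1 / (4 * N) * (1 / (4 * N)) * R ^ (n + 1)))
          ((antidiagonal (n + 1)).filter (fun p => p.1 ≠ 0 ∧ p.2 ≠ 0)) (Finset.filter_subset _ _)
          (fun p => (y p.1).1) (fun p => (y p.2).1) hR1.le (a := 1 / (4 * N)) (b := 1 / (4 * N))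
          (by positivity) (by positivity)
          (fun p hp => by
            rw [Finset.mem_filter, HasAntidiagonal.mem_antidiagonal] at hp
            exact (ih p.1 (by omega)).1)
          (fun p hp => by
            rw [Finset.mem_filter, HasAntidiagonal.mem_antidiagonal] at hp
            exact (ih p.2 (by omega)).1) rfl
        have h2 := anti_bound (k := n) (R := R) (c := (n + 1) * (a * l * R ^ n))
          (antidiagonal n) (Finset.Subset.refl _)
          (fun p => rF A y p.1) (fun p => rF (fun i => lam i * A i) y p.2) hR1.le ha0 hl0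
          (fun p hp => by
            rw [HasAntidiagonal.mem_antidiagonal] at hp
            exact hF A p.1 (by omega))
          (fun p hp => by
            rw [HasAntidiagonal.mem_antidiagonal] at hp
            exact hF _ p.2 (by omega)) rfl
        rw [Nat.add_sub_cancel]
        set S1 := ∑ p ∈ (antidiagonal (n + 1)).filter (fun p => p.1 ≠ 0 ∧ p.2 ≠ 0),
          (y p.1).1 * (y p.2).1
        set S2 := ∑ p ∈ antidiagonal n, rF A y p.1 * rF (fun i => lam i * A i) y p.2
        have h3 : |N * S1 + S2| ≤ N * |S1| + |S2| := by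
          refine (abs_add_le _ _).trans ?_
          rw [abs_mul, abs_of_nonneg (by positivity : (0 : ℝ) ≤ N)]
        refine h3.trans ?_
        have h4 : N * |S1| ≤ (n + 2) / (16 * N) * R ^ (n + 1) := by
          calc N * |S1| ≤ N * (((n + 1 : ℕ) + 1) * (1 / (4 * N) * (1 / (4 * N)) * R ^ (n + 1))) := by
                gcongr
            _ = (n + 2) / (16 * N) * R ^ (n + 1) := by
                push_cast
                field_simp
                ring
        have h5 : |S2| ≤ (n + 1) / (4 * N) * R ^ (n + 1) := by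
          refine h2.trans ?_
          rw [hRs, div_mul_eq_mul_div, le_div_iff₀ (by positivity)]
          have h6 : (n + 1) * (a * l * R ^ n) * (4 * N) = (n + 1) * ((4 * N * (a * l)) * R ^ n) := by
            ring
          rw [h6]
          gcongr
        have h7 : (n + 2) / (16 * N) * R ^ (n + 1) + (n + 1) / (4 * N) * R ^ (n + 1) ≤
            1 / (4 * N) * R ^ (n + 1) * (2 * ((n + 1 : ℕ) : ℝ) + 2 * N) := by
          have h8 : (n + 2) / (16 * N) * R ^ (n + 1) + (n + 1) / (4 * N) * R ^ (n + 1) =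
              R ^ (n + 1) / (4 * N) * ((n + 2) / 4 + (n + 1)) := by
            field_simp
            ring
          have h9 : 1 / (4 * N) * R ^ (n + 1) * (2 * ((n + 1 : ℕ) : ℝ) + 2 * N) =
              R ^ (n + 1) / (4 * N) * (2 * (n + 1) + 2 * N) := by
            push_cast
            ring
          rw [h8, h9]
          gcongr ?_ * ?_
          linarith
        linarith
      have hqall : ∀ j, j ≤ n + 1 → |rq N lam A y j| ≤ 1 / (4 * N) * R ^ j := by
        intro j hj
        rcases Nat.lt_or_ge j (n + 1) with h | h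
        · have h1 := (ih j h).1
          have h2 : (y j).1 = rq N lam A y j := by rw [hy j]
          rwa [h2] at h1
        · have h1 : j = n + 1 := le_antisymm hj h
          rw [h1]
          exact hqb
      -- the second sums
      have hsec : ∀ w : ℕ → ℝ, (∀ j, j < n + 1 → |w j| ≤ 1 * R ^ j) → ∀ i,
          |lam i * ∑ p ∈ antidiagonal n, rFF A y p.1 * w p.2| ≤ (n + 1) ^ 2 * R ^ (n + 1) := by
        intro w hw i
        rw [abs_mul]
        have h2 := anti_bound (k := n) (R := R) (c := (n + 1) * ((n + 1) * a ^ 2 * 1 * R ^ n))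
          (antidiagonal n) (Finset.Subset.refl _) (a := (n + 1) * a ^ 2) (b := 1)
          (fun p => rFF A y p.1) (fun p => w p.2) hR1.le (by positivity) one_pos.le
          (fun p hp => by
            rw [HasAntidiagonal.mem_antidiagonal] at hp
            exact hFF p.1 (by omega))
          (fun p hp => by
            rw [HasAntidiagonal.mem_antidiagonal] at hp
            exact hw p.2 (by omega)) rfl
        calc |lam i| * |∑ p ∈ antidiagonal n, rFF A y p.1 * w p.2| ≤
            Λ * ((n + 1) * ((n + 1) * a ^ 2 * 1 * R ^ n)) :=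
              mul_le_mul (hΛi i) h2 (abs_nonneg _) hΛ0
          _ = (n + 1) ^ 2 * ((Λ * a ^ 2) * R ^ n) := by ring
          _ ≤ (n + 1) ^ 2 * (R * R ^ n) := by gcongr
          _ = (n + 1) ^ 2 * R ^ (n + 1) := by rw [hRs]
      have hfir : ∀ (w : ℕ → ℝ) (M : ℝ), 0 ≤ M → (∀ j, j < n + 1 → |w j| ≤ M * R ^ j) →
          |((N : ℝ) - 1) * ∑ p ∈ (antidiagonal (n + 1)).filter (fun p => p.1 ≠ 0),
            rq N lam A y p.1 * w p.2| ≤ (n + 2) * M / 4 * R ^ (n + 1) := by
        intro w M hM hw
        have h1 := anti_bound (k := n + 1) (R := R)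
          (c := ((n + 1 : ℕ) + 1) * (1 / (4 * N) * M * R ^ (n + 1)))
          ((antidiagonal (n + 1)).filter (fun p => p.1 ≠ 0)) (Finset.filter_subset _ _)
          (fun p => rq N lam A y p.1) (fun p => w p.2) hR1.le (a := 1 / (4 * N)) (b := M)
          (by positivity) hM
          (fun p hp => by
            rw [Finset.mem_filter, HasAntidiagonal.mem_antidiagonal] at hp
            exact hqall p.1 (by omega))
          (fun p hp => by
            rw [Finset.mem_filter, HasAntidiagonal.mem_antidiagonal] at hp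
            exact hw p.2 (by omega)) rfl
        rw [abs_mul, abs_of_nonneg (by linarith : (0 : ℝ) ≤ N - 1)]
        calc ((N : ℝ) - 1) * |∑ p ∈ (antidiagonal (n + 1)).filter (fun p => p.1 ≠ 0),
            rq N lam A y p.1 * w p.2| ≤
            (N : ℝ) * (((n + 1 : ℕ) + 1) * (1 / (4 * N) * M * R ^ (n + 1))) := by
              refine mul_le_mul (by linarith) h1 (abs_nonneg _) (by linarith)
          _ = (n + 2) * M / 4 * R ^ (n + 1) := by
              push_cast
              field_simp
              ring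
      refine ⟨by rw [hq1]; exact hqb, fun i => ?_, fun i => ?_⟩
      · rw [hV1, rV, if_neg (Nat.succ_ne_zero n), Nat.add_sub_cancel, abs_div, abs_neg]
        have hden : (0 : ℝ) < 2 * ((n + 1 : ℕ) : ℝ) * (2 * ((n + 1 : ℕ) : ℝ) + N + 1) := by
          positivity
        rw [abs_of_pos hden, div_le_iff₀ hden]
        have h1 := hfir (fun j => (2 * j + 1) * (y j).2.1 i) (2 * n + 1) (by positivity)
          (fun j hj => by
            have hjn : (j : ℝ) ≤ n := by exact_mod_cast (by omega : j ≤ n)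
            have h2 := (ih j hj).2.1 i
            rw [one_mul] at h2
            rw [abs_mul, abs_of_nonneg (by positivity : (0 : ℝ) ≤ 2 * j + 1)]
            exact mul_le_mul (by linarith) h2 (abs_nonneg _) (by positivity))
        have h2 := hsec (fun j => (y j).2.1 i) (fun j hj => (ih j hj).2.1 i) i
        refine (abs_add_le _ _).trans ((add_le_add h1 h2).trans ?_)
        have hRn1 : 0 < R ^ (n + 1) := pow_pos hR1 _
        have h3 : (n + 2) * (2 * n + 1) / 4 * R ^ (n + 1) + (n + 1) ^ 2 * R ^ (n + 1) =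
            ((n + 2) * (2 * n + 1) / 4 + (n + 1) ^ 2) * R ^ (n + 1) := by ring
        rw [h3, one_mul, mul_comm (R ^ (n + 1))]
        refine mul_le_mul_of_nonneg_right ?_ hRn1.le
        push_cast
        nlinarith
      · rw [hU1, rU, if_neg (Nat.succ_ne_zero n), Nat.add_sub_cancel, abs_div, abs_neg]
        have hden : (0 : ℝ) < 2 * ((n + 1 : ℕ) : ℝ) * (2 * ((n + 1 : ℕ) : ℝ) + N - 1) := by
          have : (0 : ℝ) < 2 * ((n + 1 : ℕ) : ℝ) + N - 1 := by
            push_cast
            linarith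
          positivity
        rw [abs_of_pos hden, div_le_iff₀ hden]
        have h1 := hfir (fun j => (2 * j) * (y j).2.2 i) (2 * n) (by positivity)
          (fun j hj => by
            have hjn : (j : ℝ) ≤ n := by exact_mod_cast (by omega : j ≤ n)
            have h2 := (ih j hj).2.2 i
            rw [one_mul] at h2
            rw [abs_mul, abs_of_nonneg (by positivity : (0 : ℝ) ≤ 2 * j)]
            exact mul_le_mul (by linarith) h2 (abs_nonneg _) (by positivity))
        have h2 := hsec (fun j => (y j).2.2 i) (fun j hj => (ih j hj).2.2 i) i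
        refine (abs_add_le _ _).trans ((add_le_add h1 h2).trans ?_)
        have hRn1 : 0 < R ^ (n + 1) := pow_pos hR1 _
        have h3 : (n + 2) * (2 * n) / 4 * R ^ (n + 1) + (n + 1) ^ 2 * R ^ (n + 1) =
            ((n + 2) * (2 * n) / 4 + (n + 1) ^ 2) * R ^ (n + 1) := by ring
        rw [h3, one_mul, mul_comm (R ^ (n + 1))]
        refine mul_le_mul_of_nonneg_right ?_ hRn1.le
        push_cast
        nlinarith
  refine ⟨R, hR1, fun k => ⟨?_, fun i => ?_, fun i => ?_⟩⟩
  · refine (key k).1.trans ?_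
    have h1 : 1 / (4 * (N : ℝ)) ≤ 1 := by
      rw [div_le_one (by positivity)]
      linarith
    have := pow_pos hR1 k
    nlinarith
  · have := (key k).2.1 i
    rwa [one_mul] at this
  · have := (key k).2.2 i
    rwa [one_mul] at this

end

end Run7.h978.Rot
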