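import Mathlib
import Pool.Agent.Run7.h978.Ps2

set_option autoImplicit false

/-!
The power series solution of the system of the profile functions at the pole, continued.
-/

open Filter Topology PowerSeries Finset

namespace Run7.h978.Rot

section

variable {ι : Type} [Fintype ι]

/-- weighted sum of series -/
noncomputable def FS (A : ι → ℝ) (V : ι → PowerSeries ℝ) : PowerSeries ℝ := ∑ i, C (A i) * V i

/-- the power series solution -/
structure PSol (N : ℕ) (lam A : ι → ℝ) (r : ℝ) (q : PowerSeries ℝ) (V U : ι → PowerSeries ℝ) :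
    Prop where
  q0 : coeff 0 q = 0
  V0 : ∀ i, coeff 0 (V i) = 1
  U0 : ∀ i, coeff 0 (U i) = 1
  cq : Cv r q
  cV : ∀ i, Cv r (V i)
  cU : ∀ i, Cv r (U i)
  eq : C (2 : ℝ) * eul q = -(C (2 * N : ℝ) * q) - C (N : ℝ) * (q * q) -
    X * (FS A V * FS (fun i => lam i * A i) V)
  eV : ∀ i, C (4 : ℝ) * eul (eul (V i)) + C (2 * (N + 1) : ℝ) * eul (V i) +
    C (N - 1 : ℝ) * (q * (V i + C (2 : ℝ) * eul (V i))) =
    -(C (lam i) * (X * (FS A V * FS A V * V i)))
  eU : ∀ i, C (4 : ℝ) * eul (eul (U i)) + C (2 * (N - 1) : ℝ) * eul (U i) +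
    C (N - 1 : ℝ) * (q * (C (2 : ℝ) * eul (U i))) =
    -(C (lam i) * (X * (FS A V * FS A V * U i)))

theorem cv_of_bound {f : PowerSeries ℝ} {R : ℝ} (hR : 0 < R) (h : ∀ k, |coeff k f| ≤ R ^ k) :
    Cv (1 / R) f := by
  intro s hs hsr
  have h1 : R * s < 1 := by
    rw [lt_div_iff₀ hR] at hsr
    linarith
  refine Summable.of_nonneg_of_le (fun k => by positivity) (fun k => ?_)
    (summable_geometric_of_lt_one (by positivity) h1)
  rw [mul_pow]
  have := h k
  gcongr

theorem exists_PSol {N : ℕ} (hN : 1 ≤ N) (lam A : ι → ℝ) :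
    ∃ (r : ℝ) (q : PowerSeries ℝ) (V U : ι → PowerSeries ℝ), 0 < r ∧ PSol N lam A r q V U := by
  have hN' : (1 : ℝ) ≤ N := by exact_mod_cast hN
  obtain ⟨y, hy⟩ := exists_seq N lam A
  obtain ⟨R, hR, hb⟩ := seq_bound hN lam A hy
  set q : PowerSeries ℝ := PowerSeries.mk fun k => (y k).1 with hq
  set V : ι → PowerSeries ℝ := fun i => PowerSeries.mk fun k => (y k).2.1 i with hV
  set U : ι → PowerSeries ℝ := fun i => PowerSeries.mk fun k => (y k).2.2 i with hU
  have cq : ∀ k, coeff k q = (y k).1 := fun k => coeff_mk _ _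
  have cV : ∀ i k, coeff k (V i) = (y k).2.1 i := fun i k => coeff_mk _ _
  have cU : ∀ i k, coeff k (U i) = (y k).2.2 i := fun i k => coeff_mk _ _
  have cF : ∀ (B : ι → ℝ) k, coeff k (FS B V) = rF B y k := by
    intro B k
    rw [FS, map_sum, rF]
    exact Finset.sum_congr rfl fun i _ => by rw [coeff_C_mul, cV]
  have cFF : ∀ k, coeff k (FS A V * FS A V) = rFF A y k := by
    intro k
    rw [coeff_mul, rFF]
    exact Finset.sum_congr rfl fun p _ => by rw [cF, cF]
  have q1 : ∀ k, (y k).1 = rq N lam A y k := fun k => by rw [hy k]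
  have V1 : ∀ k i, (y k).2.1 i = rV N lam A y k i := fun k i => by rw [hy k]
  have U1 : ∀ k i, (y k).2.2 i = rU N lam A y k i := fun k i => by rw [hy k]
  have q0 : (y 0).1 = 0 := by rw [q1, rq, if_pos rfl]
  refine ⟨1 / R, q, V, U, by positivity, ⟨?_, ?_, ?_, ?_, ?_, ?_, ?_, ?_, ?_⟩⟩
  · rw [cq, q0]
  · intro i
    rw [cV, V1, rV, if_pos rfl]
  · intro i
    rw [cU, U1, rU, if_pos rfl]
  · exact cv_of_bound hR fun k => by rw [cq]; exact (hb k).1
  · exact fun i => cv_of_bound hR fun k => by rw [cV]; exact (hb k).2.1 i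
  · exact fun i => cv_of_bound hR fun k => by rw [cU]; exact (hb k).2.2 i
  · ext k
    rcases k with _ | n
    · rw [coeff_C_mul, coeff_eul, map_sub, map_sub, map_neg, coeff_C_mul, coeff_C_mul,
        coeff_zero_X_mul, cq, q0, coeff_mul]
      simp [cq, q0]
    · rw [coeff_C_mul, coeff_eul, map_sub, map_sub, map_neg, coeff_C_mul, coeff_C_mul,
        coeff_succ_X_mul, cq, coeff_mul, coeff_mul]
      simp only [cF, cq]
      have h1 := q1 (n + 1)
      rw [rq, if_neg (Nat.succ_ne_zero n), Nat.add_sub_cancel,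
        Finset.sum_filter_of_ne (fun p _ hp => by
          constructor
          · intro h
            apply hp
            rw [h, q0, zero_mul]
          · intro h
            apply hp
            rw [h, q0, mul_zero])] at h1
      have hden : (2 * ((n + 1 : ℕ) : ℝ) + 2 * N) ≠ 0 := by positivity
      rw [eq_div_iff hden] at h1
      linear_combination h1
  · intro i
    ext k
    rcases k with _ | n
    · rw [map_neg, coeff_C_mul, coeff_zero_X_mul, map_add, map_add, coeff_C_mul, coeff_C_mul,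
        coeff_C_mul, coeff_eul, coeff_eul, coeff_mul]
      simp [cq, q0]
    · have h1 := V1 (n + 1) i
      rw [rV, if_neg (Nat.succ_ne_zero n), Nat.add_sub_cancel,
        Finset.sum_filter_of_ne (fun p _ hp => by
          intro h
          apply hp
          rw [h, ← q1, q0, zero_mul])] at h1
      have hden : (2 * ((n + 1 : ℕ) : ℝ) * (2 * ((n + 1 : ℕ) : ℝ) + N + 1)) ≠ 0 := by positivity
      rw [eq_div_iff hden] at h1
      rw [map_neg, coeff_C_mul, coeff_succ_X_mul, map_add, map_add, coeff_C_mul, coeff_C_mul,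
        coeff_C_mul, coeff_eul, coeff_eul, coeff_mul, coeff_mul]
      simp only [cFF, cq, cV, map_add, coeff_C_mul, coeff_eul]
      have h2 : ∑ p ∈ antidiagonal (n + 1), rq N lam A y p.1 * ((2 * p.2 + 1) * (y p.2).2.1 i) =
          ∑ p ∈ antidiagonal (n + 1), (y p.1).1 * ((y p.2).2.1 i + 2 * (p.2 * (y p.2).2.1 i)) :=
        Finset.sum_congr rfl fun p _ => by
          rw [q1]
          ring
      rw [h2] at h1
      linear_combination h1
  · intro i
    ext k
    rcases k with _ | n
    · rw [map_neg, coeff_C_mul, coeff_zero_X_mul, map_add, map_add, coeff_C_mul, coeff_C_mul,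
        coeff_C_mul, coeff_eul, coeff_eul, coeff_mul]
      simp [cq, q0]
    · have h1 := U1 (n + 1) i
      rw [rU, if_neg (Nat.succ_ne_zero n), Nat.add_sub_cancel,
        Finset.sum_filter_of_ne (fun p _ hp => by
          intro h
          apply hp
          rw [h, ← q1, q0, zero_mul])] at h1
      have hden : (2 * ((n + 1 : ℕ) : ℝ) * (2 * ((n + 1 : ℕ) : ℝ) + N - 1)) ≠ 0 := by
        have : (0 : ℝ) < 2 * ((n + 1 : ℕ) : ℝ) + N - 1 := by
          push_cast
          have : (0 : ℝ) ≤ n := Nat.cast_nonneg n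
          linarith
        positivity
      rw [eq_div_iff hden] at h1
      rw [map_neg, coeff_C_mul, coeff_succ_X_mul, map_add, map_add, coeff_C_mul, coeff_C_mul,
        coeff_C_mul, coeff_eul, coeff_eul, coeff_mul, coeff_mul]
      simp only [cFF, cq, cU, coeff_C_mul, coeff_eul]
      have h2 : ∑ p ∈ antidiagonal (n + 1), rq N lam A y p.1 * ((2 * p.2) * (y p.2).2.2 i) =
          ∑ p ∈ antidiagonal (n + 1), (y p.1).1 * (2 * (p.2 * (y p.2).2.2 i)) :=
        Finset.sum_congr rfl fun p _ => by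
          rw [q1]
          ring
      rw [h2] at h1
      linear_combination h1

namespace PSol

variable {N : ℕ} {lam A : ι → ℝ} {r : ℝ} {q : PowerSeries ℝ} {V U : ι → PowerSeries ℝ}
  (h : PSol N lam A r q V U)
include h

theorem cFS (B : ι → ℝ) : Cv r (FS B V) := cv_sum _ _ fun i => (cv_C _).mul (h.cV i)

omit h in
theorem eul_FS (B : ι → ℝ) (V : ι → PowerSeries ℝ) : eul (FS B V) = FS B (fun i => eul (V i)) := by
  rw [FS, FS, eul_sum]
  exact Finset.sum_congr rfl fun i _ => eul_C_mul _ _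

omit h in
theorem FS_sum (B : ι → ℝ) (W : ι → PowerSeries ℝ) (c : ℝ) (g : PowerSeries ℝ) :
    ∑ i, C (B i) * (C c * (g * W i)) = C c * (g * FS B W) := by
  rw [FS, Finset.mul_sum, Finset.mul_sum]
  exact Finset.sum_congr rfl fun i _ => by ring

/-- the equation for the sum -/
theorem eF : C (4 : ℝ) * eul (eul (FS A V)) + C (2 * (N + 1) : ℝ) * eul (FS A V) +
    C (N - 1 : ℝ) * (q * (FS A V + C (2 : ℝ) * eul (FS A V))) =
    -(X * (FS A V * FS A V * FS (fun i => lam i * A i) V)) := by
  rw [eul_FS, eul_FS]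
  have h1 : ∑ i, C (A i) * (C (4 : ℝ) * eul (eul (V i)) + C (2 * (N + 1) : ℝ) * eul (V i) +
      C (N - 1 : ℝ) * (q * (V i + C (2 : ℝ) * eul (V i)))) =
      ∑ i, C (A i) * -(C (lam i) * (X * (FS A V * FS A V * V i))) :=
    Finset.sum_congr rfl fun i _ => by rw [h.eV i]
  have h2 : ∑ i, C (A i) * (C (4 : ℝ) * eul (eul (V i)) + C (2 * (N + 1) : ℝ) * eul (V i) +
      C (N - 1 : ℝ) * (q * (V i + C (2 : ℝ) * eul (V i)))) =
      C (4 : ℝ) * FS A (fun i => eul (eul (V i))) + C (2 * (N + 1) : ℝ) * FS A (fun i => eul (V i)) +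
      C (N - 1 : ℝ) * (q * (FS A V + C (2 : ℝ) * FS A (fun i => eul (V i)))) := by
    simp only [FS, Finset.mul_sum, ← Finset.sum_add_distrib]
    exact Finset.sum_congr rfl fun i _ => by ring
  have h3 : ∀ H : PowerSeries ℝ, ∑ i, C (A i) * -(C (lam i) * (X * (H * V i))) =
      -(X * (H * FS (fun i => lam i * A i) V)) := by
    intro H
    rw [FS, Finset.mul_sum, Finset.mul_sum, ← Finset.sum_neg_distrib]
    exact Finset.sum_congr rfl fun i _ => by
      rw [map_mul]
      ring
  rw [← h2, h1, h3]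

/-- the consistency of the logarithmic derivative -/
theorem consist : C (2 : ℝ) * eul (FS A V) = q * FS A V := by
  have hc2 : ∀ c : ℝ, C (2 * c) = C 2 * C c := fun c => by rw [map_mul]
  have hC1 : C (1 : ℝ) = 1 := map_one _
  have e1 := h.eF
  have e2 := h.eq
  have hC4 : C (4 : ℝ) = C 2 * C 2 := by
    rw [← map_mul]
    norm_num
  have hCN : C (2 * (N + 1) : ℝ) = C 2 * (C (N : ℝ) + 1) := by
    rw [map_mul, map_add, hC1]
  have hCN2 : C (N - 1 : ℝ) = C (N : ℝ) - 1 := by rw [map_sub, hC1]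
  have hCN3 : C (2 * N : ℝ) = C 2 * C (N : ℝ) := map_mul _ _ _
  rw [hC4, hCN, hCN2] at e1
  rw [hCN3] at e2
  set F := FS A V
  set L := FS (fun i => lam i * A i) V
  set G : PowerSeries ℝ := C (2 : ℝ) * eul F - q * F with hG
  have e3 : C (2 : ℝ) * eul G = -((C (N : ℝ) + 1) * G) - C (N : ℝ) * (q * G) := by
    have h1 : eul G = C 2 * eul (eul F) - (eul q * F + q * eul F) := by
      rw [hG, eul_sub, eul_C_mul, eul_mul]
    have hC2 : C (2 : ℝ) = (2 : PowerSeries ℝ) := map_ofNat C 2
    rw [hC2] at e1 e2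
    rw [h1, hG, hC2]
    linear_combination e1 - F * e2
  have hG0 : ∀ k, coeff k G = 0 := by
    clear_value G
    intro k
    induction k using Nat.strong_induction_on with
    | _ k ih =>
      have h1 := congrArg (coeff k) e3
      have h2 : -((C (N : ℝ) + 1) * G) - C (N : ℝ) * (q * G) =
          -(C (N : ℝ) * G) - G - C (N : ℝ) * (q * G) := by ring
      rw [h2, coeff_C_mul, coeff_eul, map_sub, map_sub, map_neg, coeff_C_mul, coeff_C_mul,
        coeff_mul] at h1
      have h3 : ∑ p ∈ antidiagonal k, coeff p.1 q * coeff p.2 G = 0 := by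
        refine Finset.sum_eq_zero fun p hp => ?_
        rw [HasAntidiagonal.mem_antidiagonal] at hp
        rcases Nat.eq_zero_or_pos p.1 with h0 | h0
        · rw [h0, h.q0, zero_mul]
        · rw [ih p.2 (by omega), mul_zero]
      rw [h3, mul_zero, sub_zero] at h1
      have h4 : (2 * (k : ℝ) + N + 1) * coeff k G = 0 := by linarith
      exact (mul_eq_zero.1 h4).resolve_left (by positivity)
  have hGz : G = 0 := by
    ext k
    rw [hG0 k, map_zero]
  exact sub_eq_zero.1 hGz

end PSol

end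

end Run7.h978.Rot
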