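import Mathlib
import Pool.Agent.Run7.h978.Ps3
import Pool.Agent.Run7.h978.Ode3

set_option autoImplicit false

/-!
The rotated solution gives a good initial state.
-/

open Set Filter Topology PowerSeries

namespace Run7.h978.Rot

section

variable {ι : Type} [Fintype ι]

theorem ev_rot {r : ℝ} {f : PowerSeries ℝ} (hf : Cv r f) {ρ : ℝ} (hρ : 0 < ρ) (hρr : ρ ^ 2 < r) :
    HasDerivAt (fun ρ => ev f (-ρ ^ 2)) (2 * ev (eul f) (-ρ ^ 2) / ρ) ρ := by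
  have hz : |-ρ ^ 2| < r := by rwa [abs_neg, abs_of_nonneg (sq_nonneg ρ)]
  have h1 : HasDerivAt (fun ρ : ℝ => -ρ ^ 2) (-(2 * ρ)) ρ := by
    have := (hasDerivAt_pow 2 ρ).neg
    refine this.congr_deriv ?_
    simp
  have h2 := (ev_hasDeriv hf hz).comp ρ h1
  refine h2.congr_deriv ?_
  rw [ev_eul hf hz]
  field_simp

theorem ev_rot_lim {r : ℝ} (hr : 0 < r) {f : PowerSeries ℝ} (hf : Cv r f) :
    Tendsto (fun ρ => ev f (-ρ ^ 2)) (𝓝[>] (0 : ℝ)) (𝓝 (coeff 0 f)) := by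
  have h1 : ContinuousAt (ev f) (-(0 : ℝ) ^ 2) := by
    refine ev_cont hf ?_
    simpa using hr
  have h2 : Tendsto (fun ρ : ℝ => -ρ ^ 2) (𝓝[>] (0 : ℝ)) (𝓝 (-(0 : ℝ) ^ 2)) := by
    have : Continuous fun ρ : ℝ => -ρ ^ 2 := by fun_prop
    exact (this.tendsto 0).mono_left nhdsWithin_le_nhds
  have h3 := h1.tendsto.comp h2
  have h4 : ev f (-(0 : ℝ) ^ 2) = coeff 0 f := by
    rw [← ev_at_zero]
    norm_num
  rwa [h4] at h3

namespace PSol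

variable {N : ℕ} {lam A : ι → ℝ} {r : ℝ} {q : PowerSeries ℝ} {V U : ι → PowerSeries ℝ}
  (h : PSol N lam A r q V U)
include h

theorem U1_coeff (i : ι) : (2 * N + 2) * coeff 1 (U i) = -(lam i * (∑ j, A j) ^ 2) := by
  have hF0 : coeff 0 (FS A V) = ∑ j, A j := by
    rw [FS, map_sum]
    exact Finset.sum_congr rfl fun j _ => by rw [coeff_C_mul, h.V0, mul_one]
  have h1 := congrArg (coeff 1) (h.eU i)
  have e1 : ∀ H : PowerSeries ℝ, coeff 1 (X * H) = coeff 0 H := fun H => coeff_succ_X_mul 0 H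
  rw [map_neg, coeff_C_mul, map_add, map_add, coeff_C_mul, coeff_C_mul, coeff_C_mul, coeff_eul,
    coeff_eul, e1, coeff_mul] at h1
  have h2 : ∑ p ∈ Finset.HasAntidiagonal.antidiagonal 1,
      coeff p.1 q * coeff p.2 (C (2 : ℝ) * eul (U i)) = 0 := by
    refine Finset.sum_eq_zero fun p hp => ?_
    rw [Finset.HasAntidiagonal.mem_antidiagonal] at hp
    rcases Nat.eq_zero_or_pos p.1 with h0 | h0
    · rw [h0, h.q0, zero_mul]
    · have : p.2 = 0 := by omega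
      rw [this, coeff_C_mul, coeff_eul]
      simp
  have h3 : ∀ f g : PowerSeries ℝ, coeff 0 (f * g) = coeff 0 f * coeff 0 g := by
    intro f g
    rw [coeff_mul, Finset.Nat.antidiagonal_zero, Finset.sum_singleton]
  rw [h2, h3, h3, hF0, h.U0] at h1
  push_cast at h1
  linear_combination h1

theorem lorentz (hr : 0 < r) (hl : ∀ i, 0 < lam i) (hA : 0 < ∑ i, A i) (B : ι → ℝ)
    (hJ : X * ((FS A V + C (2 : ℝ) * eul (FS A V)) * (FS A V + C (2 : ℝ) * eul (FS A V))) +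
      C (4 : ℝ) * (FS B (fun i => eul (U i)) * FS B (fun i => eul (U i))) -
      X * (FS A V * FS A V) = 0) : ∃ x0, Good N lam A B x0 := by
  set F := FS A V with hF
  have cF : Cv r F := h.cFS A
  have cdF : Cv r (eul F) := cF.eul
  have hF0 : coeff 0 F = ∑ j, A j := by
    rw [hF, FS, map_sum]
    exact Finset.sum_congr rfl fun j _ => by rw [coeff_C_mul, h.V0, mul_one]
  -- the equations, evaluated
  have cV := h.cV
  have cU := h.cU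
  have cq := h.cq
  set eF : ℝ → ℝ := fun ρ => ev F (-ρ ^ 2) with heF
  set dF : ℝ → ℝ := fun ρ => ev (eul F) (-ρ ^ 2) with hdF
  set eV : ι → ℝ → ℝ := fun i ρ => ev (V i) (-ρ ^ 2) with heV
  set dV : ι → ℝ → ℝ := fun i ρ => ev (eul (V i)) (-ρ ^ 2) with hdV
  set ddV : ι → ℝ → ℝ := fun i ρ => ev (eul (eul (V i))) (-ρ ^ 2) with hddV
  set eU : ι → ℝ → ℝ := fun i ρ => ev (U i) (-ρ ^ 2) with heU
  set dU : ι → ℝ → ℝ := fun i ρ => ev (eul (U i)) (-ρ ^ 2) with hdU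
  set ddU : ι → ℝ → ℝ := fun i ρ => ev (eul (eul (U i))) (-ρ ^ 2) with hddU
  set eq : ℝ → ℝ := fun ρ => ev q (-ρ ^ 2) with heq
  have hz : ∀ ρ : ℝ, ρ ^ 2 < r → |-ρ ^ 2| < r := fun ρ hρ => by
    rwa [abs_neg, abs_of_nonneg (sq_nonneg ρ)]
  have EV : ∀ i ρ, ρ ^ 2 < r → 4 * ddV i ρ + 2 * (N + 1) * dV i ρ +
      (N - 1) * (eq ρ * (eV i ρ + 2 * dV i ρ)) = lam i * (ρ ^ 2 * (eF ρ * eF ρ * eV i ρ)) := by
    intro i ρ hρ
    have hρ' := hz ρ hρ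
    have h1 := congrArg (fun f => ev f (-ρ ^ 2)) (h.eV i)
    rw [ev_neg, ev_mul (cv_C _) (cv_X.mul ((cF.mul cF).mul (cV i))) hρ',
      ev_mul cv_X ((cF.mul cF).mul (cV i)) hρ', ev_mul (cF.mul cF) (cV i) hρ',
      ev_mul cF cF hρ', ev_C, ev_X,
      ev_add (((cv_C _).mul (cV i).eul.eul).add ((cv_C _).mul (cV i).eul))
        ((cv_C _).mul (cq.mul ((cV i).add ((cv_C _).mul (cV i).eul)))) hρ',
      ev_add ((cv_C _).mul (cV i).eul.eul) ((cv_C _).mul (cV i).eul) hρ',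
      ev_mul (cv_C _) (cV i).eul.eul hρ', ev_mul (cv_C _) (cV i).eul hρ',
      ev_mul (cv_C _) (cq.mul ((cV i).add ((cv_C _).mul (cV i).eul))) hρ',
      ev_mul cq ((cV i).add ((cv_C _).mul (cV i).eul)) hρ',
      ev_add (cV i) ((cv_C _).mul (cV i).eul) hρ', ev_mul (cv_C _) (cV i).eul hρ',
      ev_C, ev_C, ev_C, ev_C] at h1
    linear_combination h1
  have EU : ∀ i ρ, ρ ^ 2 < r → 4 * ddU i ρ + 2 * (N - 1) * dU i ρ +
      (N - 1) * (eq ρ * (2 * dU i ρ)) = lam i * (ρ ^ 2 * (eF ρ * eF ρ * eU i ρ)) := by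
    intro i ρ hρ
    have hρ' := hz ρ hρ
    have h1 := congrArg (fun f => ev f (-ρ ^ 2)) (h.eU i)
    rw [ev_neg, ev_mul (cv_C _) (cv_X.mul ((cF.mul cF).mul (cU i))) hρ',
      ev_mul cv_X ((cF.mul cF).mul (cU i)) hρ', ev_mul (cF.mul cF) (cU i) hρ',
      ev_mul cF cF hρ', ev_C, ev_X,
      ev_add (((cv_C _).mul (cU i).eul.eul).add ((cv_C _).mul (cU i).eul))
        ((cv_C _).mul (cq.mul ((cv_C _).mul (cU i).eul))) hρ',
      ev_add ((cv_C _).mul (cU i).eul.eul) ((cv_C _).mul (cU i).eul) hρ',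
      ev_mul (cv_C _) (cU i).eul.eul hρ', ev_mul (cv_C _) (cU i).eul hρ',
      ev_mul (cv_C _) (cq.mul ((cv_C _).mul (cU i).eul)) hρ',
      ev_mul cq ((cv_C _).mul (cU i).eul) hρ',
      ev_mul (cv_C _) (cU i).eul hρ', ev_C, ev_C, ev_C, ev_C] at h1
    linear_combination h1
  have EQ : ∀ ρ, ρ ^ 2 < r → 2 * dF ρ = eq ρ * eF ρ := by
    intro ρ hρ
    have hρ' := hz ρ hρ
    have h1 := congrArg (fun f => ev f (-ρ ^ 2)) h.consist
    rw [ev_mul (cv_C _) cdF hρ', ev_mul cq cF hρ', ev_C] at h1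
    exact h1
  have sumV : ∀ ρ, ρ ^ 2 < r → ∑ i, A i * eV i ρ = eF ρ := by
    intro ρ hρ
    have hρ' := hz ρ hρ
    rw [heF]
    simp only
    rw [hF, FS, ev_sum _ _ (fun i => (cv_C _).mul (cV i)) hρ']
    exact Finset.sum_congr rfl fun i _ => by rw [ev_mul (cv_C _) (cV i) hρ', ev_C]
  have sumdV : ∀ ρ, ρ ^ 2 < r → ∑ i, A i * dV i ρ = dF ρ := by
    intro ρ hρ
    have hρ' := hz ρ hρ
    rw [hdF]
    simp only
    rw [hF, eul_FS, FS, ev_sum _ _ (fun i => (cv_C _).mul (cV i).eul) hρ']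
    exact Finset.sum_congr rfl fun i _ => by rw [ev_mul (cv_C _) (cV i).eul hρ', ev_C]
  have EJ : ∀ ρ, ρ ^ 2 < r → -ρ ^ 2 * (eF ρ + 2 * dF ρ) ^ 2 + 4 * (∑ i, B i * dU i ρ) ^ 2 +
      ρ ^ 2 * eF ρ ^ 2 = 0 := by
    intro ρ hρ
    have hρ' := hz ρ hρ
    have cG : Cv r (FS B (fun i => eul (U i))) := cv_sum _ _ fun i => (cv_C _).mul (cU i).eul
    have e1 : ev (FS B (fun i => eul (U i))) (-ρ ^ 2) = ∑ i, B i * dU i ρ := by
      rw [FS, ev_sum _ _ (fun i => (cv_C _).mul (cU i).eul) hρ']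
      exact Finset.sum_congr rfl fun i _ => by rw [ev_mul (cv_C _) (cU i).eul hρ', ev_C]
    have c1 : Cv r (F + C (2 : ℝ) * eul F) := cF.add ((cv_C _).mul cdF)
    have h1 := congrArg (fun f => ev f (-ρ ^ 2)) hJ
    rw [ev_sub ((cv_X.mul (c1.mul c1)).add ((cv_C _).mul (cG.mul cG))) (cv_X.mul (cF.mul cF)) hρ',
      ev_add (cv_X.mul (c1.mul c1)) ((cv_C _).mul (cG.mul cG)) hρ',
      ev_mul cv_X (c1.mul c1) hρ', ev_mul c1 c1 hρ', ev_add cF ((cv_C _).mul cdF) hρ',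
      ev_mul (cv_C _) cdF hρ', ev_mul (cv_C _) (cG.mul cG) hρ', ev_mul cG cG hρ',
      ev_mul cv_X (cF.mul cF) hρ', ev_mul cF cF hρ', ev_X, ev_C, ev_C, e1, ev_zero_fun] at h1
    linear_combination h1
  -- the limits
  have LF : Tendsto eF (𝓝[>] 0) (𝓝 (∑ j, A j)) := by
    rw [← hF0]
    exact ev_rot_lim hr cF
  have leul : ∀ f : PowerSeries ℝ, coeff 0 (eul f) = 0 := by
    intro f
    rw [coeff_eul, Nat.cast_zero, zero_mul]
  have LdF : Tendsto dF (𝓝[>] 0) (𝓝 0) := by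
    have := ev_rot_lim hr cdF
    rwa [leul] at this
  have LV : ∀ i, Tendsto (eV i) (𝓝[>] 0) (𝓝 1) := by
    intro i
    have := ev_rot_lim hr (cV i)
    rwa [h.V0] at this
  have LdV : ∀ i, Tendsto (dV i) (𝓝[>] 0) (𝓝 0) := by
    intro i
    have := ev_rot_lim hr (cV i).eul
    rwa [leul] at this
  have LU : ∀ i, Tendsto (eU i) (𝓝[>] 0) (𝓝 1) := by
    intro i
    have := ev_rot_lim hr (cU i)
    rwa [h.U0] at this
  have LdU : ∀ i, Tendsto (dU i) (𝓝[>] 0) (𝓝 0) := by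
    intro i
    have := ev_rot_lim hr (cU i).eul
    rwa [leul] at this
  have hU1neg : ∀ i, coeff 0 (d⁄dX ℝ (U i)) < 0 := by
    intro i
    rw [coeff_derivative]
    have h1 := h.U1_coeff i
    have h2 : 0 < lam i * (∑ j, A j) ^ 2 := mul_pos (hl i) (by positivity)
    have h3 : (0 : ℝ) < 2 * N + 2 := by positivity
    have h4 : coeff 1 (U i) < 0 := by
      by_contra hcon
      have := mul_nonneg h3.le (not_lt.1 hcon)
      linarith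
    simpa using h4
  have Lder : ∀ i, Tendsto (fun ρ => ev (d⁄dX ℝ (U i)) (-ρ ^ 2)) (𝓝[>] 0)
      (𝓝 (coeff 0 (d⁄dX ℝ (U i)))) := fun i => ev_rot_lim hr (cU i).deriv
  -- all the conditions near zero
  have hev : ∀ᶠ ρ in 𝓝[>] (0 : ℝ), 0 < ρ ∧ ρ ^ 2 < r ∧ 0 < eF ρ ∧ 0 < eF ρ + 2 * dF ρ ∧
      (∀ i, 0 < eV i ρ) ∧ (∀ i, 0 < eV i ρ + 2 * dV i ρ) ∧ (∀ i, 0 < eU i ρ) ∧
      (∀ i, 0 < dU i ρ) ∧ ∀ i, 0 < (eV i ρ + 2 * dV i ρ) * eU i ρ - 2 * eV i ρ * dU i ρ := by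
    have c1 : ∀ᶠ ρ in 𝓝[>] (0 : ℝ), 0 < ρ := self_mem_nhdsWithin
    have c2 : ∀ᶠ ρ in 𝓝[>] (0 : ℝ), ρ ^ 2 < r := by
      have : Tendsto (fun ρ : ℝ => ρ ^ 2) (𝓝[>] 0) (𝓝 ((0 : ℝ) ^ 2)) :=
        ((continuous_pow 2).tendsto 0).mono_left nhdsWithin_le_nhds
      exact this.eventually (gt_mem_nhds (by simpa using hr))
    have c3 : ∀ᶠ ρ in 𝓝[>] (0 : ℝ), 0 < eF ρ := LF.eventually (lt_mem_nhds hA)
    have c4 : ∀ᶠ ρ in 𝓝[>] (0 : ℝ), 0 < eF ρ + 2 * dF ρ := by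
      have := LF.add (LdF.const_mul 2)
      exact this.eventually (lt_mem_nhds (by simpa using hA))
    have c5 : ∀ᶠ ρ in 𝓝[>] (0 : ℝ), ∀ i, 0 < eV i ρ :=
      eventually_all.2 fun i => (LV i).eventually (lt_mem_nhds one_pos)
    have c6 : ∀ᶠ ρ in 𝓝[>] (0 : ℝ), ∀ i, 0 < eV i ρ + 2 * dV i ρ :=
      eventually_all.2 fun i => ((LV i).add ((LdV i).const_mul 2)).eventually
        (lt_mem_nhds (by norm_num))
    have c7 : ∀ᶠ ρ in 𝓝[>] (0 : ℝ), ∀ i, 0 < eU i ρ :=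
      eventually_all.2 fun i => (LU i).eventually (lt_mem_nhds one_pos)
    have c8 : ∀ᶠ ρ in 𝓝[>] (0 : ℝ), ∀ i, 0 < dU i ρ := by
      refine eventually_all.2 fun i => ?_
      filter_upwards [(Lder i).eventually (gt_mem_nhds (hU1neg i)), c1, c2] with ρ h1 h2 h3
      rw [hdU]
      simp only
      rw [ev_eul (cU i) (hz ρ h3)]
      have : 0 < ρ ^ 2 := by positivity
      nlinarith
    have c9 : ∀ᶠ ρ in 𝓝[>] (0 : ℝ), ∀ i,
        0 < (eV i ρ + 2 * dV i ρ) * eU i ρ - 2 * eV i ρ * dU i ρ := by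
      refine eventually_all.2 fun i => ?_
      have := (((LV i).add ((LdV i).const_mul 2)).mul (LU i)).sub
        (((LV i).const_mul 2).mul (LdU i))
      exact this.eventually (lt_mem_nhds (by norm_num))
    filter_upwards [c1, c2, c3, c4, c5, c6, c7, c8, c9] with ρ d1 d2 d3 d4 d5 d6 d7 d8 d9
    exact ⟨d1, d2, d3, d4, d5, d6, d7, d8, d9⟩
  obtain ⟨ρ1, hρ1, hsub⟩ := (mem_nhdsGT_iff_exists_Ioo_subset).1 hev
  have hρ1' : 0 < ρ1 := hρ1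
  have hgood : ∀ ρ ∈ Ioo 0 ρ1, 0 < ρ ∧ ρ ^ 2 < r ∧ 0 < eF ρ ∧ 0 < eF ρ + 2 * dF ρ ∧
      (∀ i, 0 < eV i ρ) ∧ (∀ i, 0 < eV i ρ + 2 * dV i ρ) ∧ (∀ i, 0 < eU i ρ) ∧
      (∀ i, 0 < dU i ρ) ∧ ∀ i, 0 < (eV i ρ + 2 * dV i ρ) * eU i ρ - 2 * eV i ρ * dU i ρ :=
    fun ρ hρ => hsub hρ
  -- the state
  set z : ℝ → St ι → ℝ := fun ρ => Sum.elim (fun i => ρ * eV i ρ)
    (Sum.elim (fun i => (eV i ρ + 2 * dV i ρ) / eF ρ)
      (Sum.elim (fun i => eU i ρ)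
        (Sum.elim (fun i => 2 * dU i ρ / (ρ * eF ρ)) (fun _ => 1 / (ρ * eF ρ))))) with hzdef
  have zP : ∀ ρ i, z ρ (vP i) = ρ * eV i ρ := fun ρ i => rfl
  have zP1 : ∀ ρ i, z ρ (vP1 i) = (eV i ρ + 2 * dV i ρ) / eF ρ := fun ρ i => rfl
  have zU : ∀ ρ i, z ρ (vU i) = eU i ρ := fun ρ i => rfl
  have zU1 : ∀ ρ i, z ρ (vU1 i) = 2 * dU i ρ / (ρ * eF ρ) := fun ρ i => rfl
  have zW : ∀ ρ, z ρ vW = 1 / (ρ * eF ρ) := fun ρ => rfl
  have sP : ∀ ρ ∈ Ioo 0 ρ1, ∑ i, A i * z ρ (vP i) = ρ * eF ρ := by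
    intro ρ hρ
    rw [← sumV ρ (hgood ρ hρ).2.1, Finset.mul_sum]
    exact Finset.sum_congr rfl fun i _ => by
      rw [zP]
      ring
  have sP1 : ∀ ρ ∈ Ioo 0 ρ1, ∑ i, A i * z ρ (vP1 i) = (eF ρ + 2 * dF ρ) / eF ρ := by
    intro ρ hρ
    have h1 : ∑ i, A i * z ρ (vP1 i) = (∑ i, A i * eV i ρ + 2 * ∑ i, A i * dV i ρ) / eF ρ := by
      rw [Finset.mul_sum, ← Finset.sum_add_distrib, Finset.sum_div]
      exact Finset.sum_congr rfl fun i _ => by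
        rw [zP1]
        ring
    rw [h1, sumV ρ (hgood ρ hρ).2.1, sumdV ρ (hgood ρ hρ).2.1]
  have sU1 : ∀ ρ ∈ Ioo 0 ρ1, ∑ i, B i * z ρ (vU1 i) = 2 * (∑ i, B i * dU i ρ) / (ρ * eF ρ) := by
    intro ρ hρ
    rw [Finset.mul_sum, Finset.sum_div]
    exact Finset.sum_congr rfl fun i _ => by
      rw [zU1]
      ring
  have zder : ∀ ρ ∈ Ioo 0 ρ1, ∀ k, HasDerivAt (fun ρ => z ρ k)
      (eF ρ * vf (FF N lam A) (z ρ) k) ρ := by
    intro ρ hρ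
    obtain ⟨g1, g2, g3, g4, g5, g6, g7, g8, g9⟩ := hgood ρ hρ
    have g3' := g3.ne'
    have g1' := g1.ne'
    have dEF : HasDerivAt eF (2 * dF ρ / ρ) ρ := ev_rot cF g1 g2
    have dEV : ∀ i, HasDerivAt (eV i) (2 * dV i ρ / ρ) ρ := fun i => ev_rot (cV i) g1 g2
    have dDV : ∀ i, HasDerivAt (dV i) (2 * ddV i ρ / ρ) ρ := fun i => ev_rot (cV i).eul g1 g2
    have dEU : ∀ i, HasDerivAt (eU i) (2 * dU i ρ / ρ) ρ := fun i => ev_rot (cU i) g1 g2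
    have dDU : ∀ i, HasDerivAt (dU i) (2 * ddU i ρ / ρ) ρ := fun i => ev_rot (cU i).eul g1 g2
    have e1 := EQ ρ g2
    refine st_forall (fun i => ?_) (fun i => ?_) (fun i => ?_) (fun i => ?_) ?_
    · refine ((hasDerivAt_id ρ).mul (dEV i)).congr_deriv ?_
      rw [FF_P, zP1]
      simp only [id_eq]
      field_simp
    · refine (((dEV i).add ((dDV i).const_mul 2)).div dEF g3').congr_deriv ?_
      rw [FF_P1, sP1 ρ hρ, zP, zP1, zW]
      simp only [Pi.add_apply]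
      have e2 := EV i ρ g2
      have e3 : eq ρ = 2 * dF ρ / eF ρ := by
        rw [eq_div_iff g3']
        linarith
      rw [e3] at e2
      field_simp at e2 ⊢
      linear_combination e2
    · refine (dEU i).congr_deriv ?_
      rw [FF_U, zU1]
      field_simp
    · refine (((dDU i).const_mul 2).div ((hasDerivAt_id ρ).mul dEF)
        (mul_ne_zero g1' g3')).congr_deriv ?_
      rw [FF_U1, sP1 ρ hρ, zU, zU1, zW]
      simp only [id_eq, Pi.mul_apply]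
      have e2 := EU i ρ g2
      have e3 : eq ρ = 2 * dF ρ / eF ρ := by
        rw [eq_div_iff g3']
        linarith
      rw [e3] at e2
      field_simp at e2 ⊢
      linear_combination e2
    · refine ((hasDerivAt_const ρ (1 : ℝ)).div ((hasDerivAt_id ρ).mul dEF)
        (mul_ne_zero g1' g3')).congr_deriv ?_
      rw [FF_W, sP1 ρ hρ, zW]
      simp only [id_eq, Pi.mul_apply]
      field_simp
      ring
  have hJz : ∀ ρ ∈ Ioo 0 ρ1, MvPolynomial.eval (z ρ) (JJ A B) = 0 := by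
    intro ρ hρ
    obtain ⟨g1, g2, g3, g4, g5, g6, g7, g8, g9⟩ := hgood ρ hρ
    rw [eval_JJ, sP1 ρ hρ, sU1 ρ hρ]
    have e1 := EJ ρ g2
    have g3' := g3.ne'
    have g1' := g1.ne'
    field_simp
    linear_combination -e1
  have hKz : ∀ ρ ∈ Ioo 0 ρ1, MvPolynomial.eval (z ρ) (KK A) = 0 := by
    intro ρ hρ
    obtain ⟨g1, g2, g3, g4, g5, g6, g7, g8, g9⟩ := hgood ρ hρ
    rw [eval_KK, sP ρ hρ, zW]
    have g3' := g3.ne'
    have g1' := g1.ne'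
    field_simp
    ring
  have hc : ∀ ρ ∈ Ioo 0 ρ1, eF ρ ≠ 0 := fun ρ hρ => (hgood ρ hρ).2.2.1.ne'
  have hmem : ρ1 / 2 ∈ Ioo 0 ρ1 := ⟨by linarith, by linarith⟩
  obtain ⟨g1, g2, g3, g4, g5, g6, g7, g8, g9⟩ := hgood _ hmem
  refine ⟨z (ρ1 / 2), ⟨fun k => lie_zero isOpen_Ioo hc zder hJz k _ hmem,
    fun k => lie_zero isOpen_Ioo hc zder hKz k _ hmem, ?_, ?_, fun i => ?_, fun i => ?_,
    fun i => ?_, fun i => ?_, fun i => ?_⟩⟩
  · rw [sP _ hmem]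
    positivity
  · rw [sP1 _ hmem]
    positivity
  · rw [zP]
    exact mul_pos g1 (g5 i)
  · rw [zP1]
    exact div_pos (g6 i) g3
  · rw [zU]
    exact g7 i
  · rw [zU1]
    exact div_pos (mul_pos two_pos (g8 i)) (mul_pos g1 g3)
  · rw [zP1, zU, zP, zU1]
    have h1 := g9 i
    have g3' := g3.ne'
    have g1' := g1.ne'
    have h2 : (eV i (ρ1 / 2) + 2 * dV i (ρ1 / 2)) / eF (ρ1 / 2) * eU i (ρ1 / 2) -
        ρ1 / 2 * eV i (ρ1 / 2) * (2 * dU i (ρ1 / 2) / (ρ1 / 2 * eF (ρ1 / 2))) =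
        ((eV i (ρ1 / 2) + 2 * dV i (ρ1 / 2)) * eU i (ρ1 / 2) -
          2 * eV i (ρ1 / 2) * dU i (ρ1 / 2)) / eF (ρ1 / 2) := by
      have hρ2 : ρ1 ≠ 0 := hρ1'.ne'
      field_simp
    rw [h2]
    exact div_pos h1 g3

end PSol

end

end Run7.h978.Rot
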