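import Mathlib
import Pool.Agent.Run7.h978.Asy1

set_option autoImplicit false

/-!
Uniqueness of the solutions of the reduced system at the pole.
-/

open Set Filter Topology

namespace Run7.h978.Rot

theorem mono_Ioo {f f' : ℝ → ℝ} {a b : ℝ} (hd : ∀ x ∈ Ioo a b, HasDerivAt f (f' x) x)
    (h : ∀ x ∈ Ioo a b, 0 ≤ f' x) : MonotoneOn f (Ioo a b) := by
  refine monotoneOn_of_deriv_nonneg (convex_Ioo a b)
    (fun x hx => (hd x hx).continuousAt.continuousWithinAt) ?_ ?_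
  · rw [interior_Ioo]
    exact fun x hx => (hd x hx).differentiableAt.differentiableWithinAt
  · rw [interior_Ioo]
    intro x hx
    rw [(hd x hx).deriv]
    exact h x hx

/-- the one sided version of the estimate -/
theorem sing_aux {τ ρ δ g : ℝ → ℝ} {b M K : ℝ} {a : ℕ}
    (hτ : ∀ r ∈ Ioo 0 b, 0 < τ r) (hρ : ∀ r ∈ Ioo 0 b, 0 < ρ r)
    (dρ : ∀ r ∈ Ioo 0 b, HasDerivAt ρ (τ r * ρ r) r) (hρ0 : Tendsto ρ (𝓝[>] 0) (𝓝 0))
    (dδ : ∀ r ∈ Ioo 0 b, HasDerivAt δ (τ r * (-(a * δ r) + g r)) r)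
    (hg : ∀ r ∈ Ioo 0 b, |g r| ≤ M * ρ r) (hK : ∀ r ∈ Ioo 0 b, |δ r| ≤ K * ρ r) :
    ∀ r ∈ Ioo 0 b, δ r ≤ M * ρ r / (a + 1) := by
  intro r hr
  have hb : 0 < b := hr.1.trans hr.2
  set h : ℝ → ℝ := fun r => M * ρ r ^ (a + 1) / (a + 1) - ρ r ^ a * δ r with hh
  have dpow : ∀ k : ℕ, ∀ r ∈ Ioo 0 b, HasDerivAt (fun r => ρ r ^ k) (τ r * (k * ρ r ^ k)) r := by
    intro k r hr
    refine ((dρ r hr).pow k).congr_deriv ?_
    rcases k with _ | k
    · simp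
    · simp only [Nat.add_sub_cancel]
      rw [pow_succ]
      ring
  have dh : ∀ r ∈ Ioo 0 b, HasDerivAt h (τ r * ρ r ^ a * (M * ρ r - g r)) r := by
    intro r hr
    refine ((((dpow (a + 1) r hr).const_mul M).div_const ((a : ℝ) + 1)).sub
      ((dpow a r hr).mul (dδ r hr))).congr_deriv ?_
    have : (a : ℝ) + 1 ≠ 0 := by positivity
    push_cast
    field_simp
    ring
  have hmono := mono_Ioo dh fun x hx => by
    have h1 := hτ x hx
    have h2 := hρ x hx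
    have h3 := (abs_le.1 (hg x hx)).2
    have : 0 ≤ M * ρ x - g x := by linarith
    positivity
  have hlim : Tendsto h (𝓝[>] 0) (𝓝 0) := by
    have h1 : Tendsto (fun r => M * ρ r ^ (a + 1) / (a + 1)) (𝓝[>] 0) (𝓝 0) := by
      have := ((hρ0.pow (a + 1)).const_mul M).div_const ((a : ℝ) + 1)
      simpa using this
    have h2 : Tendsto (fun r => ρ r ^ a * δ r) (𝓝[>] 0) (𝓝 0) := by
      have h3 : Tendsto (fun r => |ρ r| ^ a * (|K| * |ρ r|)) (𝓝[>] 0) (𝓝 0) := by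
        have := (hρ0.abs.pow a).mul (hρ0.abs.const_mul |K|)
        simpa using this
      refine squeeze_zero_norm' ?_ h3
      filter_upwards [Ioo_mem_nhdsGT hb] with x hx
      rw [Real.norm_eq_abs, abs_mul, abs_pow]
      have h4 := hK x hx
      have h5 : |δ x| ≤ |K| * |ρ x| := by
        rw [← abs_mul]
        exact h4.trans (le_abs_self _)
      gcongr
    have := h1.sub h2
    simpa using this
  have hpos : 0 ≤ h r := by
    refine le_of_tendsto hlim ?_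
    filter_upwards [Ioo_mem_nhdsGT hr.1] with s hs
    exact hmono ⟨hs.1, hs.2.trans hr.2⟩ hr hs.2.le
  have h1 := hρ r hr
  have h2 : ρ r ^ a * δ r ≤ ρ r ^ a * (M * ρ r / (a + 1)) := by
    have h3 : ρ r ^ a * (M * ρ r / (a + 1)) = M * ρ r ^ (a + 1) / (a + 1) := by
      rw [pow_succ]
      ring
    rw [h3]
    rw [hh] at hpos
    simp only at hpos
    linarith
  exact le_of_mul_le_mul_left h2 (pow_pos h1 a)

theorem sing_est {τ ρ δ g : ℝ → ℝ} {b M K : ℝ} {a : ℕ} (hM : 0 ≤ M)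
    (hτ : ∀ r ∈ Ioo 0 b, 0 < τ r) (hρ : ∀ r ∈ Ioo 0 b, 0 < ρ r)
    (dρ : ∀ r ∈ Ioo 0 b, HasDerivAt ρ (τ r * ρ r) r) (hρ0 : Tendsto ρ (𝓝[>] 0) (𝓝 0))
    (dδ : ∀ r ∈ Ioo 0 b, HasDerivAt δ (τ r * (-(a * δ r) + g r)) r)
    (hg : ∀ r ∈ Ioo 0 b, |g r| ≤ M * ρ r) (hK : ∀ r ∈ Ioo 0 b, |δ r| ≤ K * ρ r) :
    ∀ r ∈ Ioo 0 b, |δ r| ≤ M * ρ r := by
  intro r hr
  have h1 := sing_aux hτ hρ dρ hρ0 dδ hg hK r hr
  have h2 := sing_aux (δ := fun r => -δ r) (g := fun r => -g r) hτ hρ dρ hρ0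
    (fun r hr => (dδ r hr).neg.congr_deriv (by ring))
    (fun r hr => by rw [abs_neg]; exact hg r hr) (fun r hr => by rw [abs_neg]; exact hK r hr) r hr
  have h3 : M * ρ r / (a + 1) ≤ M * ρ r := by
    have := hρ r hr
    refine div_le_self (by positivity) ?_
    have : (0 : ℝ) ≤ a := Nat.cast_nonneg a
    linarith
  rw [abs_le]
  constructor <;> linarith

section

variable {ι : Type} [Fintype ι]

/-- a solution of the reduced system -/
structure Red (N : ℕ) (lam A B : ι → ℝ) (τ ρ : ℝ → ℝ) (b K : ℝ) (y z : ι → ℝ → ℝ) (q : ℝ → ℝ)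
    (u w : ι → ℝ → ℝ) : Prop where
  dy : ∀ i, ∀ r ∈ Ioo 0 b, HasDerivAt (y i) (τ r * z i r) r
  dz : ∀ i, ∀ r ∈ Ioo 0 b, HasDerivAt (z i) (τ r * (-((N + 1) * z i r) -
    (N - 1) * (q r * (y i r + z i r)) - lam i * (ρ r ^ 2 * ((∑ j, y j r) ^ 2 * y i r)))) r
  dq : ∀ r ∈ Ioo 0 b, HasDerivAt q (τ r * (-(2 * N * q r) - N * q r ^ 2 -
    ρ r ^ 2 * ((∑ j, y j r) * ∑ j, lam j * y j r))) r
  du : ∀ i, ∀ r ∈ Ioo 0 b, HasDerivAt (u i) (τ r * w i r) r
  dw : ∀ i, ∀ r ∈ Ioo 0 b, HasDerivAt (w i) (τ r * (-((N - 1) * w i r) -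
    (N - 1) * (q r * w i r) - lam i * (ρ r ^ 2 * ((∑ j, y j r) ^ 2 * u i r)))) r
  by' : ∀ i, ∀ r ∈ Ioo 0 b, |y i r - A i| ≤ K * ρ r
  bz : ∀ i, ∀ r ∈ Ioo 0 b, |z i r| ≤ K * ρ r
  bq : ∀ r ∈ Ioo 0 b, |q r| ≤ K * ρ r
  bu : ∀ i, ∀ r ∈ Ioo 0 b, |u i r - B i| ≤ K * ρ r
  bw : ∀ i, ∀ r ∈ Ioo 0 b, |w i r| ≤ K * ρ r

theorem Red.mono {N : ℕ} {lam A B : ι → ℝ} {τ ρ : ℝ → ℝ} {b K : ℝ} {y z : ι → ℝ → ℝ} {q : ℝ → ℝ}
    {u w : ι → ℝ → ℝ} (h : Red N lam A B τ ρ b K y z q u w) {b' K' : ℝ} (hb : b' ≤ b)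
    (hK : K ≤ K') (hρ : ∀ r ∈ Ioo 0 b, 0 < ρ r) : Red N lam A B τ ρ b' K' y z q u w := by
  have hs : ∀ r, r ∈ Ioo 0 b' → r ∈ Ioo 0 b := fun r hr => ⟨hr.1, lt_of_lt_of_le hr.2 hb⟩
  have hK' : ∀ r ∈ Ioo 0 b', K * ρ r ≤ K' * ρ r := fun r hr =>
    mul_le_mul_of_nonneg_right hK (hρ r (hs r hr)).le
  exact ⟨fun i r hr => h.dy i r (hs r hr), fun i r hr => h.dz i r (hs r hr),
    fun r hr => h.dq r (hs r hr), fun i r hr => h.du i r (hs r hr),
    fun i r hr => h.dw i r (hs r hr), fun i r hr => (h.by' i r (hs r hr)).trans (hK' r hr),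
    fun i r hr => (h.bz i r (hs r hr)).trans (hK' r hr),
    fun r hr => (h.bq r (hs r hr)).trans (hK' r hr),
    fun i r hr => (h.bu i r (hs r hr)).trans (hK' r hr),
    fun i r hr => (h.bw i r (hs r hr)).trans (hK' r hr)⟩

theorem abs_mul_sub {a b a' b' α β γ δ : ℝ} (h1 : |a| ≤ α) (h2 : |b - b'| ≤ β) (h3 : |b'| ≤ γ)
    (h4 : |a - a'| ≤ δ) (hα : 0 ≤ α) (hγ : 0 ≤ γ) : |a * b - a' * b'| ≤ α * β + γ * δ := by
  have e : a * b - a' * b' = a * (b - b') + b' * (a - a') := by ring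
  rw [e]
  refine (abs_add_le _ _).trans ?_
  rw [abs_mul, abs_mul]
  exact add_le_add (mul_le_mul h1 h2 (abs_nonneg _) hα) (mul_le_mul h3 h4 (abs_nonneg _) hγ)


section round

variable {N : ℕ} {lam A B : ι → ℝ} {τ ρ : ℝ → ℝ} {b K : ℝ} {y z y' z' : ι → ℝ → ℝ}
  {q q' : ℝ → ℝ} {u w u' w' : ι → ℝ → ℝ}

/-- the closeness of two solutions -/
def Near (ρ : ℝ → ℝ) (b M : ℝ) (y z y' z' : ι → ℝ → ℝ) (q q' : ℝ → ℝ) (u w u' w' : ι → ℝ → ℝ) :
    Prop :=
  ∀ r ∈ Ioo 0 b, (∀ i, |y i r - y' i r| ≤ M * ρ r) ∧ (∀ i, |z i r - z' i r| ≤ M * ρ r) ∧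
    |q r - q' r| ≤ M * ρ r ∧ (∀ i, |u i r - u' i r| ≤ M * ρ r) ∧
    ∀ i, |w i r - w' i r| ≤ M * ρ r

theorem near_step (h : Red N lam A B τ ρ b K y z q u w) (h' : Red N lam A B τ ρ b K y' z' q' u' w')
    (hN : 1 ≤ N) (hτ : ∀ r ∈ Ioo 0 b, 0 < τ r) (hρ : ∀ r ∈ Ioo 0 b, 0 < ρ r)
    (dρ : ∀ r ∈ Ioo 0 b, HasDerivAt ρ (τ r * ρ r) r) (hρ0 : Tendsto ρ (𝓝[>] 0) (𝓝 0))
    {C ε M : ℝ} (hC1 : 1 ≤ C) (hCN : (N : ℝ) ≤ C) (hCK : K ≤ C) (hCA : ∀ i, |A i| ≤ C)
    (hCB : ∀ i, |B i| ≤ C) (hCl : ∀ i, |lam i| ≤ C) (hCs : ∑ i, |lam i| ≤ C)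
    (hCc : (Fintype.card ι : ℝ) ≤ C) (hε0 : 0 < ε) (hε1 : ε ≤ 1)
    (hε : ∀ r ∈ Ioo 0 b, ρ r ≤ ε) (hεC : 64 * C ^ 5 * ε ≤ 1) (hM : 0 ≤ M)
    (hn : Near ρ b M y z y' z' q q' u w u' w') :
    Near ρ b (M / 2) y z y' z' q q' u w u' w' := by
  have hC0 : 0 < C := by linarith
  have hN' : (1 : ℝ) ≤ N := by exact_mod_cast hN
  have hN0 : (0 : ℝ) ≤ N - 1 := by linarith
  have hN1 : (N : ℝ) - 1 ≤ C := by linarith
  -- pointwise bounds
  have kρ : ∀ r ∈ Ioo 0 b, K * ρ r ≤ C * ρ r := fun r hr =>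
    mul_le_mul_of_nonneg_right hCK (hρ r hr).le
  have kρ1 : ∀ r ∈ Ioo 0 b, C * ρ r ≤ C := fun r hr => by
    have := hε r hr
    nlinarith
  have sub_abs : ∀ {a c : ℝ}, |a| ≤ |a - c| + |c| := fun {a c} => by
    have := abs_add_le (a - c) c
    simpa using this
  have by1 : ∀ {y : ι → ℝ → ℝ} {A : ι → ℝ}, (∀ i, |A i| ≤ C) →
      (∀ i, ∀ r ∈ Ioo 0 b, |y i r - A i| ≤ K * ρ r) → ∀ i, ∀ r ∈ Ioo 0 b, |y i r| ≤ 2 * C := by
    intro y A hA h i r hr
    have h1 := h i r hr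
    have h2 := kρ r hr
    have h3 := kρ1 r hr
    have h4 := hA i
    have h5 := @sub_abs (y i r) (A i)
    linarith
  have Y := by1 hCA h.by'
  have Y' := by1 hCA h'.by'
  have U := by1 hCB h.bu
  have U' := by1 hCB h'.bu
  have Z' : ∀ i, ∀ r ∈ Ioo 0 b, |z' i r| ≤ C := fun i r hr =>
    (h'.bz i r hr).trans ((kρ r hr).trans (kρ1 r hr))
  have W' : ∀ i, ∀ r ∈ Ioo 0 b, |w' i r| ≤ C := fun i r hr =>
    (h'.bw i r hr).trans ((kρ r hr).trans (kρ1 r hr))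
  have Q : ∀ r ∈ Ioo 0 b, |q r| ≤ C * ρ r := fun r hr => (h.bq r hr).trans (kρ r hr)
  have Q' : ∀ r ∈ Ioo 0 b, |q' r| ≤ C * ρ r := fun r hr => (h'.bq r hr).trans (kρ r hr)
  have sumb : ∀ {f : ι → ℝ} {c : ℝ}, 0 ≤ c → (∀ i, |f i| ≤ c) → |∑ i, f i| ≤ C * c := by
    intro f c hc hf
    calc |∑ i, f i| ≤ ∑ i, |f i| := Finset.abs_sum_le_sum_abs _ _
      _ ≤ ∑ _i : ι, c := Finset.sum_le_sum fun i _ => hf i
      _ = Fintype.card ι * c := by rw [Finset.sum_const, Finset.card_univ, nsmul_eq_mul]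
      _ ≤ C * c := mul_le_mul_of_nonneg_right hCc hc
  have sumlb : ∀ {f : ι → ℝ} {c : ℝ}, 0 ≤ c → (∀ i, |f i| ≤ c) → |∑ i, lam i * f i| ≤ C * c := by
    intro f c hc hf
    calc |∑ i, lam i * f i| ≤ ∑ i, |lam i * f i| := Finset.abs_sum_le_sum_abs _ _
      _ ≤ ∑ i, |lam i| * c := Finset.sum_le_sum fun i _ => by
          rw [abs_mul]
          exact mul_le_mul_of_nonneg_left (hf i) (abs_nonneg _)
      _ = (∑ i, |lam i|) * c := by rw [Finset.sum_mul]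
      _ ≤ C * c := mul_le_mul_of_nonneg_right hCs hc
  have F1 : ∀ r ∈ Ioo 0 b, |∑ j, y j r| ≤ 2 * C ^ 2 := fun r hr => by
    have := sumb (f := fun i => y i r) (by positivity : (0 : ℝ) ≤ 2 * C) fun i => Y i r hr
    linarith
  have F1' : ∀ r ∈ Ioo 0 b, |∑ j, y' j r| ≤ 2 * C ^ 2 := fun r hr => by
    have := sumb (f := fun i => y' i r) (by positivity : (0 : ℝ) ≤ 2 * C) fun i => Y' i r hr
    linarith
  have L1' : ∀ r ∈ Ioo 0 b, |∑ j, lam j * y' j r| ≤ 2 * C ^ 2 := fun r hr => by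
    have := sumlb (f := fun i => y' i r) (by positivity : (0 : ℝ) ≤ 2 * C) fun i => Y' i r hr
    linarith
  have dF : ∀ r ∈ Ioo 0 b, |∑ j, y j r - ∑ j, y' j r| ≤ C * (M * ρ r) := fun r hr => by
    have h0 : 0 ≤ M * ρ r := mul_nonneg hM (hρ r hr).le
    have := sumb (f := fun i => y i r - y' i r) h0 fun i => (hn r hr).1 i
    rwa [Finset.sum_sub_distrib] at this
  have dL : ∀ r ∈ Ioo 0 b, |∑ j, lam j * y j r - ∑ j, lam j * y' j r| ≤ C * (M * ρ r) :=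
    fun r hr => by
    have h0 : 0 ≤ M * ρ r := mul_nonneg hM (hρ r hr).le
    have := sumlb (f := fun i => y i r - y' i r) h0 fun i => (hn r hr).1 i
    simp only [mul_sub, Finset.sum_sub_distrib] at this
    exact this
  have dFF : ∀ r ∈ Ioo 0 b, |(∑ j, y j r) ^ 2 - (∑ j, y' j r) ^ 2| ≤ 4 * C ^ 3 * (M * ρ r) := by
    intro r hr
    have h0 : 0 ≤ M * ρ r := mul_nonneg hM (hρ r hr).le
    have := abs_mul_sub (F1 r hr) (dF r hr) (F1' r hr) (dF r hr) (by positivity) (by positivity)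
    rw [sq, sq]
    refine this.trans (le_of_eq ?_)
    ring
  have F2 : ∀ r ∈ Ioo 0 b, |(∑ j, y j r) ^ 2| ≤ 4 * C ^ 4 := by
    intro r hr
    rw [abs_pow]
    have := F1 r hr
    calc |∑ j, y j r| ^ 2 ≤ (2 * C ^ 2) ^ 2 := by gcongr
      _ = 4 * C ^ 4 := by ring
  have pw : ∀ k : ℕ, k ≤ 5 → C ^ k ≤ C ^ 5 := fun k hk => pow_le_pow_right₀ hC1 hk
  have pw4 := pw 4 (by norm_num)
  have pw3 := pw 3 (by norm_num)
  have pw2 := pw 2 (by norm_num)
  -- step for `q`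
  set M1 : ℝ := 6 * C ^ 3 * ε * M with hM1
  have hM10 : 0 ≤ M1 := by positivity
  have Sq : ∀ r ∈ Ioo 0 b, |q r - q' r| ≤ M1 * ρ r := by
    refine sing_est (a := 2 * N) (K := M) (g := fun r => -(N * (q r * q r - q' r * q' r)) -
      ρ r ^ 2 * ((∑ j, y j r) * (∑ j, lam j * y j r) -
        (∑ j, y' j r) * ∑ j, lam j * y' j r)) hM10 hτ hρ dρ hρ0 ?_ ?_ fun r hr => (hn r hr).2.2.1
    · intro r hr
      refine ((h.dq r hr).sub (h'.dq r hr)).congr_deriv ?_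
      push_cast
      ring
    · intro r hr
      have hρr := hρ r hr
      have hεr := hε r hr
      have h0 : 0 ≤ M * ρ r := mul_nonneg hM hρr.le
      have e1 := abs_mul_sub (Q r hr) (hn r hr).2.2.1 (Q' r hr) (hn r hr).2.2.1
        (by positivity) (by positivity)
      have e2 := abs_mul_sub (F1 r hr) (dL r hr) (L1' r hr) (dF r hr)
        (by positivity) (by positivity)
      calc |-(N * (q r * q r - q' r * q' r)) -
            ρ r ^ 2 * ((∑ j, y j r) * (∑ j, lam j * y j r) -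
              (∑ j, y' j r) * ∑ j, lam j * y' j r)|
          ≤ |-(N * (q r * q r - q' r * q' r))| + |ρ r ^ 2 *
              ((∑ j, y j r) * (∑ j, lam j * y j r) -
              (∑ j, y' j r) * ∑ j, lam j * y' j r)| := abs_sub _ _
        _ = N * |q r * q r - q' r * q' r| + ρ r ^ 2 * |(∑ j, y j r) * (∑ j, lam j * y j r) -
              (∑ j, y' j r) * ∑ j, lam j * y' j r| := by
            rw [abs_neg, abs_mul, abs_mul, abs_of_nonneg (by positivity : (0 : ℝ) ≤ N),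
              abs_of_nonneg (by positivity : (0 : ℝ) ≤ ρ r ^ 2)]
        _ ≤ C * (C * ρ r * (M * ρ r) + C * ρ r * (M * ρ r)) + (ρ r * ρ r) *
              (2 * C ^ 2 * (C * (M * ρ r)) + 2 * C ^ 2 * (C * (M * ρ r))) := by
            rw [sq]
            gcongr
        _ ≤ C * (C * ε * (M * ρ r) + C * ε * (M * ρ r)) + (1 * ε) *
              (2 * C ^ 2 * (C * (M * ρ r)) + 2 * C ^ 2 * (C * (M * ρ r))) := by
            have : ρ r ≤ 1 := hεr.trans hε1
            gcongr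
        _ = (2 * C ^ 2 + 4 * C ^ 3) * (ε * (M * ρ r)) := by ring
        _ ≤ (6 * C ^ 3) * (ε * (M * ρ r)) := by
            have : C ^ 2 ≤ C ^ 3 := pow_le_pow_right₀ hC1 (by norm_num)
            gcongr
            linarith
        _ = M1 * ρ r := by rw [hM1]; ring
  set M2 : ℝ := 32 * C ^ 5 * ε * M with hM2
  have hM20 : 0 ≤ M2 := by positivity
  have hM12 : M1 ≤ M2 := by
    rw [hM1, hM2]
    have h1 : 0 ≤ C ^ 3 := by positivity
    gcongr ?_ * _ * _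
    linarith
  -- the cubic terms
  have cub : ∀ {x x' : ℝ} {r : ℝ}, r ∈ Ioo 0 b → |x - x'| ≤ M * ρ r → |x'| ≤ 2 * C →
      |(∑ j, y j r) ^ 2 * x - (∑ j, y' j r) ^ 2 * x'| ≤ 12 * C ^ 4 * (M * ρ r) := by
    intro x x' r hr h1 h2
    have h0 : 0 ≤ M * ρ r := mul_nonneg hM (hρ r hr).le
    have := abs_mul_sub (F2 r hr) h1 h2 (dFF r hr) (by positivity) (by positivity)
    refine this.trans (le_of_eq ?_)
    ring
  have Sz : ∀ i, ∀ r ∈ Ioo 0 b, |z i r - z' i r| ≤ M2 * ρ r := by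
    intro i
    refine sing_est (a := N + 1) (K := M) (g := fun r => -((N - 1) *
      (q r * (y i r + z i r) - q' r * (y' i r + z' i r))) -
      lam i * (ρ r ^ 2 * ((∑ j, y j r) ^ 2 * y i r - (∑ j, y' j r) ^ 2 * y' i r)))
      hM20 hτ hρ dρ hρ0 ?_ ?_ fun r hr => (hn r hr).2.1 i
    · intro r hr
      refine ((h.dz i r hr).sub (h'.dz i r hr)).congr_deriv ?_
      push_cast
      ring
    · intro r hr
      have hρr := hρ r hr
      have hεr := hε r hr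
      have h0 : 0 ≤ M * ρ r := mul_nonneg hM hρr.le
      have e0 : |(y i r + z i r) - (y' i r + z' i r)| ≤ 2 * (M * ρ r) := by
        have h1 := (hn r hr).1 i
        have h2 := (hn r hr).2.1 i
        have h3 := abs_add_le (y i r - y' i r) (z i r - z' i r)
        have h4 : (y i r + z i r) - (y' i r + z' i r) = (y i r - y' i r) + (z i r - z' i r) := by
          ring
        rw [h4]
        linarith
      have e00 : |y' i r + z' i r| ≤ 3 * C := by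
        have h1 := Y' i r hr
        have h2 := Z' i r hr
        have h3 := abs_add_le (y' i r) (z' i r)
        linarith
      have e1 := abs_mul_sub (Q r hr) e0 e00 (Sq r hr) (by positivity) (by positivity)
      have e2 := cub hr ((hn r hr).1 i) (Y' i r hr)
      calc |-((N - 1) * (q r * (y i r + z i r) - q' r * (y' i r + z' i r))) -
            lam i * (ρ r ^ 2 * ((∑ j, y j r) ^ 2 * y i r - (∑ j, y' j r) ^ 2 * y' i r))|
          ≤ |-((N - 1) * (q r * (y i r + z i r) - q' r * (y' i r + z' i r)))| +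
            |lam i * (ρ r ^ 2 * ((∑ j, y j r) ^ 2 * y i r - (∑ j, y' j r) ^ 2 * y' i r))| :=
              abs_sub _ _
        _ = (N - 1) * |q r * (y i r + z i r) - q' r * (y' i r + z' i r)| +
            |lam i| * (ρ r ^ 2 * |(∑ j, y j r) ^ 2 * y i r - (∑ j, y' j r) ^ 2 * y' i r|) := by
            rw [abs_neg, abs_mul, abs_mul, abs_mul, abs_of_nonneg hN0,
              abs_of_nonneg (by positivity : (0 : ℝ) ≤ ρ r ^ 2)]
        _ ≤ C * (C * ρ r * (2 * (M * ρ r)) + 3 * C * (M1 * ρ r)) +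
            C * ((ρ r * ρ r) * (12 * C ^ 4 * (M * ρ r))) := by
            rw [sq]
            gcongr
            exact hCl i
        _ ≤ C * (C * ε * (2 * (M * ρ r)) + 3 * C * (M1 * ρ r)) +
            C * ((1 * ε) * (12 * C ^ 4 * (M * ρ r))) := by
            have : ρ r ≤ 1 := hεr.trans hε1
            gcongr
        _ = (2 * C ^ 2 + 18 * C ^ 5 + 12 * C ^ 5) * (ε * (M * ρ r)) := by
            rw [hM1]
            ring
        _ ≤ (32 * C ^ 5) * (ε * (M * ρ r)) := by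
            gcongr
            linarith
        _ = M2 * ρ r := by rw [hM2]; ring
  have Sw : ∀ i, ∀ r ∈ Ioo 0 b, |w i r - w' i r| ≤ M2 * ρ r := by
    intro i
    refine sing_est (a := N - 1) (K := M) (g := fun r => -((N - 1) *
      (q r * w i r - q' r * w' i r)) -
      lam i * (ρ r ^ 2 * ((∑ j, y j r) ^ 2 * u i r - (∑ j, y' j r) ^ 2 * u' i r)))
      hM20 hτ hρ dρ hρ0 ?_ ?_ fun r hr => (hn r hr).2.2.2.2 i
    · intro r hr
      refine ((h.dw i r hr).sub (h'.dw i r hr)).congr_deriv ?_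
      rw [Nat.cast_sub hN]
      push_cast
      ring
    · intro r hr
      have hρr := hρ r hr
      have hεr := hε r hr
      have h0 : 0 ≤ M * ρ r := mul_nonneg hM hρr.le
      have e1 := abs_mul_sub (Q r hr) ((hn r hr).2.2.2.2 i) (W' i r hr) (Sq r hr)
        (by positivity) (by positivity)
      have e2 := cub hr ((hn r hr).2.2.2.1 i) (U' i r hr)
      calc |-((N - 1) * (q r * w i r - q' r * w' i r)) -
            lam i * (ρ r ^ 2 * ((∑ j, y j r) ^ 2 * u i r - (∑ j, y' j r) ^ 2 * u' i r))|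
          ≤ |-((N - 1) * (q r * w i r - q' r * w' i r))| +
            |lam i * (ρ r ^ 2 * ((∑ j, y j r) ^ 2 * u i r - (∑ j, y' j r) ^ 2 * u' i r))| :=
              abs_sub _ _
        _ = (N - 1) * |q r * w i r - q' r * w' i r| +
            |lam i| * (ρ r ^ 2 * |(∑ j, y j r) ^ 2 * u i r - (∑ j, y' j r) ^ 2 * u' i r|) := by
            rw [abs_neg, abs_mul, abs_mul, abs_mul, abs_of_nonneg hN0,
              abs_of_nonneg (by positivity : (0 : ℝ) ≤ ρ r ^ 2)]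
        _ ≤ C * (C * ρ r * (M * ρ r) + C * (M1 * ρ r)) +
            C * ((ρ r * ρ r) * (12 * C ^ 4 * (M * ρ r))) := by
            rw [sq]
            gcongr
            exact hCl i
        _ ≤ C * (C * ε * (M * ρ r) + C * (M1 * ρ r)) +
            C * ((1 * ε) * (12 * C ^ 4 * (M * ρ r))) := by
            have : ρ r ≤ 1 := hεr.trans hε1
            gcongr
        _ = (C ^ 2 + 6 * C ^ 5 + 12 * C ^ 5) * (ε * (M * ρ r)) := by
            rw [hM1]
            ring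
        _ ≤ (32 * C ^ 5) * (ε * (M * ρ r)) := by
            have : 0 ≤ C ^ 5 := by positivity
            gcongr
            linarith
        _ = M2 * ρ r := by rw [hM2]; ring
  have Sy : ∀ i, ∀ r ∈ Ioo 0 b, |y i r - y' i r| ≤ M2 * ρ r := by
    intro i
    refine sing_est (a := 0) (K := M) (g := fun r => z i r - z' i r)
      hM20 hτ hρ dρ hρ0 ?_ (Sz i) fun r hr => (hn r hr).1 i
    intro r hr
    refine ((h.dy i r hr).sub (h'.dy i r hr)).congr_deriv ?_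
    push_cast
    ring
  have Su : ∀ i, ∀ r ∈ Ioo 0 b, |u i r - u' i r| ≤ M2 * ρ r := by
    intro i
    refine sing_est (a := 0) (K := M) (g := fun r => w i r - w' i r)
      hM20 hτ hρ dρ hρ0 ?_ (Sw i) fun r hr => (hn r hr).2.2.2.1 i
    intro r hr
    refine ((h.du i r hr).sub (h'.du i r hr)).congr_deriv ?_
    push_cast
    ring
  have hM2' : M2 ≤ M / 2 := by
    rw [hM2]
    nlinarith
  intro r hr
  have hρr := hρ r hr
  have k : M2 * ρ r ≤ M / 2 * ρ r := mul_le_mul_of_nonneg_right hM2' hρr.le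
  have k1 : M1 * ρ r ≤ M2 * ρ r := mul_le_mul_of_nonneg_right hM12 hρr.le
  exact ⟨fun i => (Sy i r hr).trans k, fun i => (Sz i r hr).trans k,
    (Sq r hr).trans (k1.trans k), fun i => (Su i r hr).trans k, fun i => (Sw i r hr).trans k⟩

/-- uniqueness at the pole -/
theorem red_unique (h : Red N lam A B τ ρ b K y z q u w)
    (h' : Red N lam A B τ ρ b K y' z' q' u' w')
    (hN : 1 ≤ N) (hb : 0 < b) (hτ : ∀ r ∈ Ioo 0 b, 0 < τ r) (hρ : ∀ r ∈ Ioo 0 b, 0 < ρ r)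
    (dρ : ∀ r ∈ Ioo 0 b, HasDerivAt ρ (τ r * ρ r) r) (hρ0 : Tendsto ρ (𝓝[>] 0) (𝓝 0)) :
    ∃ b', 0 < b' ∧ b' ≤ b ∧ ∀ r ∈ Ioo 0 b', (∀ i, y i r = y' i r) ∧ (∀ i, z i r = z' i r) ∧
      q r = q' r ∧ (∀ i, u i r = u' i r) ∧ ∀ i, w i r = w' i r := by
  set C : ℝ := 1 + N + |K| + ∑ i, |A i| + ∑ i, |B i| + ∑ i, |lam i| + Fintype.card ι with hC
  have s1 : 0 ≤ ∑ i, |A i| := Finset.sum_nonneg fun i _ => abs_nonneg _
  have s2 : 0 ≤ ∑ i, |B i| := Finset.sum_nonneg fun i _ => abs_nonneg _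
  have s3 : 0 ≤ ∑ i, |lam i| := Finset.sum_nonneg fun i _ => abs_nonneg _
  have s4 : (0 : ℝ) ≤ Fintype.card ι := Nat.cast_nonneg _
  have s5 : (0 : ℝ) ≤ N := Nat.cast_nonneg _
  have s6 : 0 ≤ |K| := abs_nonneg K
  have s7 : K ≤ |K| := le_abs_self K
  have t1 : ∀ i, |A i| ≤ ∑ i, |A i| := fun i =>
    Finset.single_le_sum (f := fun i => |A i|) (fun i _ => abs_nonneg _) (Finset.mem_univ i)
  have t2 : ∀ i, |B i| ≤ ∑ i, |B i| := fun i =>
    Finset.single_le_sum (f := fun i => |B i|) (fun i _ => abs_nonneg _) (Finset.mem_univ i)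
  have t3 : ∀ i, |lam i| ≤ ∑ i, |lam i| := fun i =>
    Finset.single_le_sum (f := fun i => |lam i|) (fun i _ => abs_nonneg _) (Finset.mem_univ i)
  have hC1 : 1 ≤ C := by linarith
  have hC0 : 0 < C := by linarith
  set ε : ℝ := 1 / (64 * C ^ 5) with hε
  have hε0 : 0 < ε := by positivity
  have hC5 : 1 ≤ C ^ 5 := one_le_pow₀ hC1
  have hε1 : ε ≤ 1 := by
    rw [hε, div_le_one (by positivity)]
    linarith
  have hεC : 64 * C ^ 5 * ε ≤ 1 := by
    rw [hε, mul_one_div, div_self (by positivity)]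
  have hev : ∀ᶠ r in 𝓝[>] (0 : ℝ), ρ r < ε := hρ0.eventually (gt_mem_nhds hε0)
  obtain ⟨b1, hb1, hsub⟩ := (mem_nhdsGT_iff_exists_Ioo_subset).1 hev
  set b' := min b b1 with hb'
  have hb'0 : 0 < b' := lt_min hb hb1
  have hs : ∀ r, r ∈ Ioo 0 b' → r ∈ Ioo 0 b := fun r hr =>
    ⟨hr.1, lt_of_lt_of_le hr.2 (min_le_left _ _)⟩
  have H := h.mono (min_le_left b b1 : b' ≤ b) le_rfl hρ
  have H' := h'.mono (min_le_left b b1 : b' ≤ b) le_rfl hρ
  have hρε : ∀ r ∈ Ioo 0 b', ρ r ≤ ε := fun r hr => by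
    have h1 : r ∈ Ioo 0 b1 := ⟨hr.1, lt_of_lt_of_le hr.2 (min_le_right _ _)⟩
    exact (hsub h1 : ρ r < ε).le
  have hstep : ∀ k : ℕ, Near ρ b' (2 * |K| / 2 ^ k) y z y' z' q q' u w u' w' := by
    intro k
    induction k with
    | zero =>
      intro r hr
      have hρr := hρ r (hs r hr)
      have tri : ∀ {a c e : ℝ}, |a - e| ≤ K * ρ r → |c - e| ≤ K * ρ r →
          |a - c| ≤ 2 * |K| / 2 ^ 0 * ρ r := by
        intro a c e h1 h2
        have h3 := abs_sub_le a e c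
        rw [abs_sub_comm e c] at h3
        have h4 : K * ρ r ≤ |K| * ρ r := mul_le_mul_of_nonneg_right s7 hρr.le
        rw [pow_zero, div_one]
        linarith
      refine ⟨fun i => tri (H.by' i r hr) (H'.by' i r hr), fun i => tri (e := 0) ?_ ?_,
        tri (e := 0) ?_ ?_, fun i => tri (H.bu i r hr) (H'.bu i r hr), fun i => tri (e := 0) ?_ ?_⟩
      · rw [sub_zero]; exact H.bz i r hr
      · rw [sub_zero]; exact H'.bz i r hr
      · rw [sub_zero]; exact H.bq r hr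
      · rw [sub_zero]; exact H'.bq r hr
      · rw [sub_zero]; exact H.bw i r hr
      · rw [sub_zero]; exact H'.bw i r hr
    | succ k ih =>
      have := near_step H H' hN (fun r hr => hτ r (hs r hr)) (fun r hr => hρ r (hs r hr))
        (fun r hr => dρ r (hs r hr)) hρ0 hC1 (by linarith) (by linarith)
        (fun i => by have := t1 i; linarith) (fun i => by have := t2 i; linarith)
        (fun i => by have := t3 i; linarith) (by linarith) (by linarith) hε0 hε1 hρε hεC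
        (by positivity) ih
      rw [pow_succ, ← div_div]
      exact this
  have hzero : ∀ {x : ℝ} {r : ℝ}, (∀ k : ℕ, |x| ≤ 2 * |K| / 2 ^ k * ρ r) → x = 0 := by
    intro x r hx
    have hlim : Tendsto (fun k : ℕ => 2 * |K| / 2 ^ k * ρ r) atTop (𝓝 0) := by
      have h1 : Tendsto (fun k : ℕ => ((2 : ℝ) ^ k)⁻¹) atTop (𝓝 0) :=
        (tendsto_pow_atTop_atTop_of_one_lt (by norm_num)).inv_tendsto_atTop
      have h2 := (h1.const_mul (2 * |K|)).mul_const (ρ r)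
      simp only [mul_zero, zero_mul] at h2
      refine h2.congr fun k => ?_
      rw [div_eq_mul_inv]
    have h3 : |x| ≤ 0 := ge_of_tendsto' hlim hx
    exact abs_eq_zero.1 (le_antisymm h3 (abs_nonneg x))
  refine ⟨b', hb'0, min_le_left _ _, fun r hr => ⟨fun i => ?_, fun i => ?_, ?_, fun i => ?_,
    fun i => ?_⟩⟩
  · exact sub_eq_zero.1 (hzero (r := r) fun k => (hstep k r hr).1 i)
  · exact sub_eq_zero.1 (hzero (r := r) fun k => (hstep k r hr).2.1 i)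
  · exact sub_eq_zero.1 (hzero (r := r) fun k => (hstep k r hr).2.2.1)
  · exact sub_eq_zero.1 (hzero (r := r) fun k => (hstep k r hr).2.2.2.1 i)
  · exact sub_eq_zero.1 (hzero (r := r) fun k => (hstep k r hr).2.2.2.2 i)

end round

end

end Run7.h978.Rot
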