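import Mathlib
import Pool.Agent.Run7.h978.Ps4
import Pool.Agent.Run7.h978.Ps5

set_option autoImplicit false

/-!
The power series solution solves the reduced system.
-/

open Set Filter Topology PowerSeries

namespace Run7.h978.Rot

section

variable {ι : Type} [Fintype ι]

theorem ev_comp {r : ℝ} {f : PowerSeries ℝ} (hf : Cv r f) {τ ρ : ℝ → ℝ} {t : ℝ}
    (dρ : HasDerivAt ρ (τ t * ρ t) t) (hρr : ρ t ^ 2 < r) :
    HasDerivAt (fun t => ev f (ρ t ^ 2)) (τ t * (2 * ev (eul f) (ρ t ^ 2))) t := by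
  have hz : |ρ t ^ 2| < r := by rwa [abs_of_nonneg (sq_nonneg _)]
  have h2 := (ev_hasDeriv hf hz).comp t (dρ.pow 2)
  refine h2.congr_deriv ?_
  rw [ev_eul hf hz]
  push_cast
  simp only [pow_one]
  ring

theorem ev_big {r : ℝ} (hr : 0 < r) {f : PowerSeries ℝ} (hf : Cv r f) {ρ : ℝ → ℝ}
    (hρ : ∀ᶠ t in 𝓝[>] (0 : ℝ), 0 < ρ t) (hρ0 : Tendsto ρ (𝓝[>] 0) (𝓝 0)) :
    ∃ K : ℝ, 0 ≤ K ∧ ∀ᶠ t in 𝓝[>] (0 : ℝ), |ev f (ρ t ^ 2) - coeff 0 f| ≤ K * ρ t := by
  have h1 := (ev_hasDeriv hf (z := 0) (by rwa [abs_zero])).isBigO_sub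
  obtain ⟨K, hK, hb⟩ := h1.exists_nonneg
  have h2 : Tendsto (fun t => ρ t ^ 2) (𝓝[>] 0) (𝓝 0) := by
    have := hρ0.pow 2
    simpa using this
  refine ⟨K, hK, ?_⟩
  filter_upwards [h2.eventually hb.bound, hρ, hρ0.eventually (gt_mem_nhds one_pos)] with t h3 h4 h5
  rw [Real.norm_eq_abs, Real.norm_eq_abs, sub_zero, ev_at_zero, abs_of_nonneg (sq_nonneg (ρ t))] at h3
  refine h3.trans ?_
  have : ρ t ^ 2 ≤ ρ t := by nlinarith
  gcongr

theorem PSol.red {N : ℕ} {lam A : ι → ℝ} {r : ℝ} {q : PowerSeries ℝ} {V U : ι → PowerSeries ℝ}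
    (h : PSol N lam A r q V U) (hr : 0 < r) (B : ι → ℝ) {τ ρ : ℝ → ℝ} {b : ℝ} (hb : 0 < b)
    (hρ : ∀ t ∈ Ioo 0 b, 0 < ρ t) (dρ : ∀ t ∈ Ioo 0 b, HasDerivAt ρ (τ t * ρ t) t)
    (hρ0 : Tendsto ρ (𝓝[>] 0) (𝓝 0)) :
    ∃ b' K, 0 < b' ∧ b' ≤ b ∧ (∀ t ∈ Ioo 0 b', ρ t ^ 2 < r) ∧ Red N lam A B τ ρ b' K
      (fun i t => A i * ev (V i) (ρ t ^ 2)) (fun i t => A i * (2 * ev (eul (V i)) (ρ t ^ 2)))
      (fun t => ev q (ρ t ^ 2)) (fun i t => B i * ev (U i) (ρ t ^ 2))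
      (fun i t => B i * (2 * ev (eul (U i)) (ρ t ^ 2))) := by
  have hρe : ∀ᶠ t in 𝓝[>] (0 : ℝ), 0 < ρ t := by
    filter_upwards [Ioo_mem_nhdsGT hb] with t ht
    exact hρ t ht
  have hρr : ∀ᶠ t in 𝓝[>] (0 : ℝ), ρ t ^ 2 < r := by
    have := hρ0.pow 2
    exact this.eventually (gt_mem_nhds (by simpa using hr))
  have leul : ∀ f : PowerSeries ℝ, coeff 0 (eul f) = 0 := by
    intro f
    rw [coeff_eul, Nat.cast_zero, zero_mul]
  choose KV hKV0 hKV using fun i => ev_big hr (h.cV i) hρe hρ0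
  choose KdV hKdV0 hKdV using fun i => ev_big hr (h.cV i).eul hρe hρ0
  choose KU hKU0 hKU using fun i => ev_big hr (h.cU i) hρe hρ0
  choose KdU hKdU0 hKdU using fun i => ev_big hr (h.cU i).eul hρe hρ0
  obtain ⟨Kq, hKq0, hKq⟩ := ev_big hr h.cq hρe hρ0
  have hev : ∀ᶠ t in 𝓝[>] (0 : ℝ), 0 < ρ t ∧ ρ t ^ 2 < r ∧
      (∀ i, |ev (V i) (ρ t ^ 2) - coeff 0 (V i)| ≤ KV i * ρ t) ∧
      (∀ i, |ev (eul (V i)) (ρ t ^ 2) - coeff 0 (eul (V i))| ≤ KdV i * ρ t) ∧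
      (∀ i, |ev (U i) (ρ t ^ 2) - coeff 0 (U i)| ≤ KU i * ρ t) ∧
      (∀ i, |ev (eul (U i)) (ρ t ^ 2) - coeff 0 (eul (U i))| ≤ KdU i * ρ t) ∧
      |ev q (ρ t ^ 2) - coeff 0 q| ≤ Kq * ρ t := by
    filter_upwards [hρe, hρr, eventually_all.2 hKV, eventually_all.2 hKdV, eventually_all.2 hKU,
      eventually_all.2 hKdU, hKq] with t h1 h2 h3 h4 h5 h6 h7
    exact ⟨h1, h2, h3, h4, h5, h6, h7⟩
  obtain ⟨b1, hb1, hsub⟩ := (mem_nhdsGT_iff_exists_Ioo_subset).1 hev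
  set K : ℝ := Kq + ∑ i, |A i| * KV i + ∑ i, |A i| * (2 * KdV i) + ∑ i, |B i| * KU i +
    ∑ i, |B i| * (2 * KdU i) with hK
  have s1 : ∀ i, 0 ≤ |A i| * KV i := fun i => mul_nonneg (abs_nonneg _) (hKV0 i)
  have s2 : ∀ i, 0 ≤ |A i| * (2 * KdV i) := fun i =>
    mul_nonneg (abs_nonneg _) (mul_nonneg two_pos.le (hKdV0 i))
  have s3 : ∀ i, 0 ≤ |B i| * KU i := fun i => mul_nonneg (abs_nonneg _) (hKU0 i)
  have s4 : ∀ i, 0 ≤ |B i| * (2 * KdU i) := fun i =>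
    mul_nonneg (abs_nonneg _) (mul_nonneg two_pos.le (hKdU0 i))
  have t1 := Finset.sum_nonneg fun i (_ : i ∈ Finset.univ) => s1 i
  have t2 := Finset.sum_nonneg fun i (_ : i ∈ Finset.univ) => s2 i
  have t3 := Finset.sum_nonneg fun i (_ : i ∈ Finset.univ) => s3 i
  have t4 := Finset.sum_nonneg fun i (_ : i ∈ Finset.univ) => s4 i
  have v1 : ∀ i, |A i| * KV i ≤ ∑ i, |A i| * KV i := fun i =>
    Finset.single_le_sum (f := fun i => |A i| * KV i) (fun i _ => s1 i) (Finset.mem_univ i)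
  have v2 : ∀ i, |A i| * (2 * KdV i) ≤ ∑ i, |A i| * (2 * KdV i) := fun i =>
    Finset.single_le_sum (f := fun i => |A i| * (2 * KdV i)) (fun i _ => s2 i) (Finset.mem_univ i)
  have v3 : ∀ i, |B i| * KU i ≤ ∑ i, |B i| * KU i := fun i =>
    Finset.single_le_sum (f := fun i => |B i| * KU i) (fun i _ => s3 i) (Finset.mem_univ i)
  have v4 : ∀ i, |B i| * (2 * KdU i) ≤ ∑ i, |B i| * (2 * KdU i) := fun i =>
    Finset.single_le_sum (f := fun i => |B i| * (2 * KdU i)) (fun i _ => s4 i) (Finset.mem_univ i)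
  have hb1' : 0 < b1 := hb1
  have hin : ∀ t, t ∈ Ioo 0 (min b b1) → t ∈ Ioo 0 b := fun t ht =>
    ⟨ht.1, lt_of_lt_of_le ht.2 (min_le_left _ _)⟩
  have hin1 : ∀ t, t ∈ Ioo 0 (min b b1) → t ∈ Ioo 0 b1 := fun t ht =>
    ⟨ht.1, lt_of_lt_of_le ht.2 (min_le_right _ _)⟩
  have good : ∀ t ∈ Ioo 0 (min b b1), 0 < ρ t ∧ ρ t ^ 2 < r ∧
      (∀ i, |ev (V i) (ρ t ^ 2) - coeff 0 (V i)| ≤ KV i * ρ t) ∧
      (∀ i, |ev (eul (V i)) (ρ t ^ 2) - coeff 0 (eul (V i))| ≤ KdV i * ρ t) ∧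
      (∀ i, |ev (U i) (ρ t ^ 2) - coeff 0 (U i)| ≤ KU i * ρ t) ∧
      (∀ i, |ev (eul (U i)) (ρ t ^ 2) - coeff 0 (eul (U i))| ≤ KdU i * ρ t) ∧
      |ev q (ρ t ^ 2) - coeff 0 q| ≤ Kq * ρ t := fun t ht => hsub (hin1 t ht)
  -- the evaluated equations
  have cF : Cv r (FS A V) := h.cFS A
  have cL : Cv r (FS (fun i => lam i * A i) V) := h.cFS _
  have cV := h.cV
  have cU := h.cU
  have cq := h.cq
  have sumV : ∀ (E : ι → ℝ) (z : ℝ), |z| < r → ev (FS E V) z = ∑ i, E i * ev (V i) z := by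
    intro E z hz
    rw [FS, ev_sum _ _ (fun i => (cv_C _).mul (cV i)) hz]
    exact Finset.sum_congr rfl fun i _ => by rw [ev_mul (cv_C _) (cV i) hz, ev_C]
  have EV : ∀ i z, |z| < r → 4 * ev (eul (eul (V i))) z + 2 * (N + 1) * ev (eul (V i)) z +
      (N - 1) * (ev q z * (ev (V i) z + 2 * ev (eul (V i)) z)) =
      -(lam i * (z * ((∑ j, A j * ev (V j) z) * (∑ j, A j * ev (V j) z) * ev (V i) z))) := by
    intro i z hz
    have h1 := congrArg (fun f => ev f z) (h.eV i)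
    rw [ev_neg, ev_mul (cv_C _) (cv_X.mul ((cF.mul cF).mul (cV i))) hz,
      ev_mul cv_X ((cF.mul cF).mul (cV i)) hz, ev_mul (cF.mul cF) (cV i) hz,
      ev_mul cF cF hz, ev_C, ev_X,
      ev_add (((cv_C _).mul (cV i).eul.eul).add ((cv_C _).mul (cV i).eul))
        ((cv_C _).mul (cq.mul ((cV i).add ((cv_C _).mul (cV i).eul)))) hz,
      ev_add ((cv_C _).mul (cV i).eul.eul) ((cv_C _).mul (cV i).eul) hz,
      ev_mul (cv_C _) (cV i).eul.eul hz, ev_mul (cv_C _) (cV i).eul hz,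
      ev_mul (cv_C _) (cq.mul ((cV i).add ((cv_C _).mul (cV i).eul))) hz,
      ev_mul cq ((cV i).add ((cv_C _).mul (cV i).eul)) hz,
      ev_add (cV i) ((cv_C _).mul (cV i).eul) hz, ev_mul (cv_C _) (cV i).eul hz,
      ev_C, ev_C, ev_C, ev_C, sumV A z hz] at h1
    linear_combination h1
  have EU : ∀ i z, |z| < r → 4 * ev (eul (eul (U i))) z + 2 * (N - 1) * ev (eul (U i)) z +
      (N - 1) * (ev q z * (2 * ev (eul (U i)) z)) =
      -(lam i * (z * ((∑ j, A j * ev (V j) z) * (∑ j, A j * ev (V j) z) * ev (U i) z))) := by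
    intro i z hz
    have h1 := congrArg (fun f => ev f z) (h.eU i)
    rw [ev_neg, ev_mul (cv_C _) (cv_X.mul ((cF.mul cF).mul (cU i))) hz,
      ev_mul cv_X ((cF.mul cF).mul (cU i)) hz, ev_mul (cF.mul cF) (cU i) hz,
      ev_mul cF cF hz, ev_C, ev_X,
      ev_add (((cv_C _).mul (cU i).eul.eul).add ((cv_C _).mul (cU i).eul))
        ((cv_C _).mul (cq.mul ((cv_C _).mul (cU i).eul))) hz,
      ev_add ((cv_C _).mul (cU i).eul.eul) ((cv_C _).mul (cU i).eul) hz,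
      ev_mul (cv_C _) (cU i).eul.eul hz, ev_mul (cv_C _) (cU i).eul hz,
      ev_mul (cv_C _) (cq.mul ((cv_C _).mul (cU i).eul)) hz,
      ev_mul cq ((cv_C _).mul (cU i).eul) hz,
      ev_mul (cv_C _) (cU i).eul hz, ev_C, ev_C, ev_C, ev_C, sumV A z hz] at h1
    linear_combination h1
  have EQ : ∀ z, |z| < r → 2 * ev (eul q) z = -(2 * N * ev q z) - N * (ev q z * ev q z) -
      z * ((∑ j, A j * ev (V j) z) * ∑ j, lam j * A j * ev (V j) z) := by
    intro z hz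
    have h1 := congrArg (fun f => ev f z) h.eq
    rw [ev_mul (cv_C _) cq.eul hz,
      ev_sub (((cv_C _).mul cq).neg.sub ((cv_C _).mul (cq.mul cq))) (cv_X.mul (cF.mul cL)) hz,
      ev_sub ((cv_C _).mul cq).neg ((cv_C _).mul (cq.mul cq)) hz, ev_neg,
      ev_mul (cv_C _) cq hz, ev_mul (cv_C _) (cq.mul cq) hz, ev_mul cq cq hz,
      ev_mul cv_X (cF.mul cL) hz, ev_mul cF cL hz, ev_C, ev_C, ev_C, ev_X, sumV A z hz,
      sumV _ z hz] at h1
    exact h1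
  refine ⟨min b b1, K, lt_min hb hb1', min_le_left _ _, fun t ht => (good t ht).2.1,
    ⟨?_, ?_, ?_, ?_, ?_, ?_, ?_, ?_, ?_, ?_⟩⟩
  · intro i t ht
    refine ((ev_comp (h.cV i) (dρ t (hin t ht)) (good t ht).2.1).const_mul (A i)).congr_deriv ?_
    ring
  · intro i t ht
    have hz : |ρ t ^ 2| < r := by
      rw [abs_of_nonneg (sq_nonneg _)]
      exact (good t ht).2.1
    refine (((ev_comp (h.cV i).eul (dρ t (hin t ht)) (good t ht).2.1).const_mul 2).const_mul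
      (A i)).congr_deriv ?_
    have h1 := EV i _ hz
    linear_combination (τ t * A i) * h1
  · intro t ht
    have hz : |ρ t ^ 2| < r := by
      rw [abs_of_nonneg (sq_nonneg _)]
      exact (good t ht).2.1
    refine (ev_comp h.cq (dρ t (hin t ht)) (good t ht).2.1).congr_deriv ?_
    have h1 := EQ _ hz
    have h2 : ∑ j, lam j * A j * ev (V j) (ρ t ^ 2) = ∑ j, lam j * (A j * ev (V j) (ρ t ^ 2)) :=
      Finset.sum_congr rfl fun j _ => by ring
    rw [h2] at h1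
    linear_combination (τ t) * h1
  · intro i t ht
    refine ((ev_comp (h.cU i) (dρ t (hin t ht)) (good t ht).2.1).const_mul (B i)).congr_deriv ?_
    ring
  · intro i t ht
    have hz : |ρ t ^ 2| < r := by
      rw [abs_of_nonneg (sq_nonneg _)]
      exact (good t ht).2.1
    refine (((ev_comp (h.cU i).eul (dρ t (hin t ht)) (good t ht).2.1).const_mul 2).const_mul
      (B i)).congr_deriv ?_
    have h1 := EU i _ hz
    linear_combination (τ t * B i) * h1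
  · intro i t ht
    have h1 := (good t ht).2.2.1 i
    rw [h.V0] at h1
    have h2 : A i * ev (V i) (ρ t ^ 2) - A i = A i * (ev (V i) (ρ t ^ 2) - 1) := by ring
    rw [h2, abs_mul]
    have h3 := (good t ht).1
    calc |A i| * |ev (V i) (ρ t ^ 2) - 1| ≤ |A i| * (KV i * ρ t) := by gcongr
      _ = (|A i| * KV i) * ρ t := by ring
      _ ≤ K * ρ t := by
          gcongr
          have := v1 i
          linarith
  · intro i t ht
    have h1 := (good t ht).2.2.2.1 i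
    rw [leul, sub_zero] at h1
    have h3 := (good t ht).1
    rw [abs_mul, abs_mul, abs_two]
    calc |A i| * (2 * |ev (eul (V i)) (ρ t ^ 2)|) ≤ |A i| * (2 * (KdV i * ρ t)) := by gcongr
      _ = (|A i| * (2 * KdV i)) * ρ t := by ring
      _ ≤ K * ρ t := by
          gcongr
          have := v2 i
          linarith
  · intro t ht
    have h1 := (good t ht).2.2.2.2.2.2
    rw [h.q0, sub_zero] at h1
    have h3 := (good t ht).1
    refine h1.trans ?_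
    gcongr
    linarith
  · intro i t ht
    have h1 := (good t ht).2.2.2.2.1 i
    rw [h.U0] at h1
    have h2 : B i * ev (U i) (ρ t ^ 2) - B i = B i * (ev (U i) (ρ t ^ 2) - 1) := by ring
    rw [h2, abs_mul]
    have h3 := (good t ht).1
    calc |B i| * |ev (U i) (ρ t ^ 2) - 1| ≤ |B i| * (KU i * ρ t) := by gcongr
      _ = (|B i| * KU i) * ρ t := by ring
      _ ≤ K * ρ t := by
          gcongr
          have := v3 i
          linarith
  · intro i t ht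
    have h1 := (good t ht).2.2.2.2.2.1 i
    rw [leul, sub_zero] at h1
    have h3 := (good t ht).1
    rw [abs_mul, abs_mul, abs_two]
    calc |B i| * (2 * |ev (eul (U i)) (ρ t ^ 2)|) ≤ |B i| * (2 * (KdU i * ρ t)) := by gcongr
      _ = (|B i| * (2 * KdU i)) * ρ t := by ring
      _ ≤ K * ρ t := by
          gcongr
          have := v4 i
          linarith

end

end Run7.h978.Rot
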