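import Mathlib
import Pool.Agent.Run7.h978.Ps6

set_option autoImplicit false

/-!
The profile functions near the pole.
-/

open Set Filter Topology Asymptotics

namespace Run7.h978.Rot

theorem big1 {φ : ℝ → ℝ} {φ' : ℝ} (h : HasDerivAt φ φ' 0) :
    (fun r => φ r - φ 0) =O[𝓝[>] 0] (fun r : ℝ => r) := by
  have h1 := (h.isBigO_sub).mono (nhdsWithin_le_nhds (s := Ioi 0))
  simpa using h1

theorem big2 {v v1 : ℝ → ℝ} {w : ℝ} (dv : ∀ r, HasDerivAt v (v1 r) r) (dv1 : HasDerivAt v1 w 0) :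
    (fun r => v r - v 0 - v1 0 * r) =O[𝓝[>] 0] (fun r : ℝ => r ^ 2) := by
  obtain ⟨K, hK, hb⟩ := (big1 dv1).exists_nonneg
  obtain ⟨b, hb0, hsub⟩ := (mem_nhdsGT_iff_exists_Ioo_subset).1 hb.bound
  have hb0' : 0 < b := hb0
  refine IsBigO.of_bound K ?_
  filter_upwards [Ioo_mem_nhdsGT hb0'] with r hr
  obtain ⟨c, hc, hc2⟩ := exists_hasDerivAt_eq_slope (fun x => v x - v1 0 * x)
    (fun x => v1 x - v1 0 * 1) hr.1
    (fun x _ => ((dv x).sub ((hasDerivAt_id x).const_mul (v1 0))).continuousAt.continuousWithinAt)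
    (fun x _ => (dv x).sub ((hasDerivAt_id x).const_mul (v1 0)))
  have h1 : ‖v1 c - v1 0‖ ≤ K * ‖c‖ := hsub ⟨hc.1, hc.2.trans hr.2⟩
  rw [eq_div_iff (by linarith [hr.1])] at hc2
  have h2 : v r - v 0 - v1 0 * r = (v1 c - v1 0) * r := by linarith
  rw [h2, norm_mul, norm_pow]
  rw [Real.norm_eq_abs c, abs_of_pos hc.1] at h1
  have h3 : ‖r‖ = r := by rw [Real.norm_eq_abs, abs_of_pos hr.1]
  rw [h3]
  have h4 : K * c ≤ K * r := mul_le_mul_of_nonneg_left hc.2.le hK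
  have h5 := hr.1
  calc ‖v1 c - v1 0‖ * r ≤ (K * r) * r := by
        gcongr
        exact h1.trans h4
    _ = K * r ^ 2 := by ring

theorem big_all {κ : Type} [Fintype κ] {φ : κ → ℝ → ℝ} {ρ : ℝ → ℝ}
    (h : ∀ i, φ i =O[𝓝[>] 0] ρ) (hρ : ∀ᶠ r in 𝓝[>] (0 : ℝ), 0 < ρ r) :
    ∃ K, 0 ≤ K ∧ ∀ᶠ r in 𝓝[>] (0 : ℝ), ∀ i, |φ i r| ≤ K * ρ r := by
  choose K hK0 hK using fun i => (h i).exists_nonneg
  refine ⟨∑ i, K i, Finset.sum_nonneg fun i _ => hK0 i, ?_⟩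
  filter_upwards [eventually_all.2 fun i => (hK i).bound, hρ] with r h1 h2 i
  have h3 := h1 i
  rw [Real.norm_eq_abs, Real.norm_eq_abs, abs_of_pos h2] at h3
  refine h3.trans ?_
  have : K i ≤ ∑ i, K i :=
    Finset.single_le_sum (f := K) (fun i _ => hK0 i) (Finset.mem_univ i)
  gcongr

/-- uniqueness for linear equations of second order -/
theorem lin2 {v v1 a c : ℝ → ℝ} {t0 T : ℝ} (dv : ∀ t ∈ Icc t0 T, HasDerivAt v (v1 t) t)
    (dv1 : ∀ t ∈ Icc t0 T, HasDerivAt v1 (a t * v1 t + c t * v t) t)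
    (ha : ContinuousOn a (Icc t0 T)) (hc : ContinuousOn c (Icc t0 T)) (h0 : v t0 = 0)
    (h1 : v1 t0 = 0) : ∀ t ∈ Icc t0 T, v t = 0 ∧ v1 t = 0 := by
  obtain ⟨Ka, hKa⟩ := isCompact_Icc.exists_bound_of_continuousOn ha
  obtain ⟨Kc, hKc⟩ := isCompact_Icc.exists_bound_of_continuousOn hc
  have key := eq_zero_of_abs_deriv_le_mul_abs_self_of_eq_zero_right
    (f := fun t => (v t, v1 t)) (f' := fun t => (v1 t, a t * v1 t + c t * v t))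
    (K := 1 + |Ka| + |Kc|) (a := t0) (b := T)
    (fun t ht => ((dv t ht).continuousAt.continuousWithinAt).prodMk
      ((dv1 t ht).continuousAt.continuousWithinAt))
    (fun t ht => ((dv t ⟨ht.1, ht.2.le⟩).prodMk (dv1 t ⟨ht.1, ht.2.le⟩)).hasDerivWithinAt)
    (by simp only [h0, h1]; rfl)
    (fun t ht => by
      have ht' : t ∈ Icc t0 T := ⟨ht.1, ht.2.le⟩
      have e1 : |v t| ≤ ‖(v t, v1 t)‖ := norm_fst_le (v t, v1 t)
      have e2 : |v1 t| ≤ ‖(v t, v1 t)‖ := norm_snd_le (v t, v1 t)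
      have e3 : |a t| ≤ |Ka| := (hKa t ht').trans (le_abs_self _)
      have e4 : |c t| ≤ |Kc| := (hKc t ht').trans (le_abs_self _)
      have e0 : 0 ≤ ‖(v t, v1 t)‖ := norm_nonneg _
      rw [Prod.norm_def (v1 t, a t * v1 t + c t * v t)]
      refine max_le ?_ ?_
      · refine le_trans (b := 1 * ‖(v t, v1 t)‖) (by rw [one_mul]; exact e2) ?_
        gcongr
        have := abs_nonneg Ka
        have := abs_nonneg Kc
        linarith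
      · calc |a t * v1 t + c t * v t| ≤ |a t| * |v1 t| + |c t| * |v t| := by
              refine (abs_add_le _ _).trans ?_
              rw [abs_mul, abs_mul]
          _ ≤ |Ka| * ‖(v t, v1 t)‖ + |Kc| * ‖(v t, v1 t)‖ := by gcongr
          _ = (|Ka| + |Kc|) * ‖(v t, v1 t)‖ := by ring
          _ ≤ (1 + |Ka| + |Kc|) * ‖(v t, v1 t)‖ := by
              gcongr
              linarith)
  intro t ht
  have := key t ht
  exact ⟨congrArg Prod.fst this, congrArg Prod.snd this⟩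

section

variable {ι : Type} [Fintype ι]

/-- the profile functions of the components of a rotational hypersurface -/
structure Prof (N : ℕ) (lam : ι → ℝ) (v v1 v2 u u1 u2 : ι → ℝ → ℝ) : Prop where
  dv : ∀ i r, HasDerivAt (v i) (v1 i r) r
  dv1 : ∀ i r, HasDerivAt (v1 i) (v2 i r) r
  cv2 : ∀ i, Continuous (v2 i)
  du : ∀ i r, HasDerivAt (u i) (u1 i r) r
  du1 : ∀ i r, HasDerivAt (u1 i) (u2 i r) r
  cu2 : ∀ i, Continuous (u2 i)
  v0 : ∀ i, v i 0 = 0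
  u0 : ∀ i, u1 i 0 = 0
  f0 : 0 < ∑ i, v1 i 0
  fpos : ∀ r, 0 < r → 0 < ∑ i, v i r
  spos : ∀ r, 0 < r → 0 < (∑ i, v1 i r) ^ 2 + (∑ i, u1 i r) ^ 2
  eqv : ∀ i r, 0 < r →
    (∑ j, v j r) ^ 2 * ((∑ j, v1 j r) ^ 2 + (∑ j, u1 j r) ^ 2) * v2 i r -
      (∑ j, v j r) ^ 2 * ((∑ j, v1 j r) * (∑ j, v2 j r) + (∑ j, u1 j r) * ∑ j, u2 j r) * v1 i r +
      N * ((∑ j, v j r) * (∑ j, v1 j r) * ((∑ j, v1 j r) ^ 2 + (∑ j, u1 j r) ^ 2) * v1 i r -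
        ((∑ j, v1 j r) ^ 2 + (∑ j, u1 j r) ^ 2) ^ 2 * v i r) =
      -(lam i * ((∑ j, v1 j r) ^ 2 + (∑ j, u1 j r) ^ 2) ^ 2 * (∑ j, v j r) ^ 2 * v i r)
  equ : ∀ i r, 0 < r →
    (∑ j, v j r) ^ 2 * ((∑ j, v1 j r) ^ 2 + (∑ j, u1 j r) ^ 2) * u2 i r -
      (∑ j, v j r) ^ 2 * ((∑ j, v1 j r) * (∑ j, v2 j r) + (∑ j, u1 j r) * ∑ j, u2 j r) * u1 i r +
      N * ((∑ j, v j r) * (∑ j, v1 j r) * ((∑ j, v1 j r) ^ 2 + (∑ j, u1 j r) ^ 2) * u1 i r) =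
      -(lam i * ((∑ j, v1 j r) ^ 2 + (∑ j, u1 j r) ^ 2) ^ 2 * (∑ j, v j r) ^ 2 * u i r)

namespace Prof

variable {N : ℕ} {lam : ι → ℝ} {v v1 v2 u u1 u2 : ι → ℝ → ℝ} (h : Prof N lam v v1 v2 u u1 u2)
include h

theorem dsum (r : ℝ) : HasDerivAt (fun r => ∑ i, v i r) (∑ i, v1 i r) r :=
  HasDerivAt.fun_sum fun i _ => h.dv i r

theorem dsum1 (r : ℝ) : HasDerivAt (fun r => ∑ i, v1 i r) (∑ i, v2 i r) r :=
  HasDerivAt.fun_sum fun i _ => h.dv1 i r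

theorem dsumu (r : ℝ) : HasDerivAt (fun r => ∑ i, u i r) (∑ i, u1 i r) r :=
  HasDerivAt.fun_sum fun i _ => h.du i r

theorem dsumu1 (r : ℝ) : HasDerivAt (fun r => ∑ i, u1 i r) (∑ i, u2 i r) r :=
  HasDerivAt.fun_sum fun i _ => h.du1 i r

/-- the sum of the equations -/
theorem eqf {r : ℝ} (hr : 0 < r) :
    (∑ j, v j r) ^ 2 * ((∑ j, v1 j r) ^ 2 + (∑ j, u1 j r) ^ 2) * (∑ j, v2 j r) -
      (∑ j, v j r) ^ 2 * ((∑ j, v1 j r) * (∑ j, v2 j r) + (∑ j, u1 j r) * ∑ j, u2 j r) *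
        (∑ j, v1 j r) +
      N * ((∑ j, v j r) * (∑ j, v1 j r) * ((∑ j, v1 j r) ^ 2 + (∑ j, u1 j r) ^ 2) *
        (∑ j, v1 j r) - ((∑ j, v1 j r) ^ 2 + (∑ j, u1 j r) ^ 2) ^ 2 * (∑ j, v j r)) =
      -(((∑ j, v1 j r) ^ 2 + (∑ j, u1 j r) ^ 2) ^ 2 * (∑ j, v j r) ^ 2 *
        ∑ j, lam j * v j r) := by
  have h1 := Finset.sum_congr rfl fun i (_ : i ∈ Finset.univ) => h.eqv i r hr
  simp only [Finset.sum_add_distrib, Finset.sum_sub_distrib, ← Finset.mul_sum,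
    Finset.sum_neg_distrib] at h1
  rw [h1]
  congr 1
  rw [Finset.mul_sum]
  exact Finset.sum_congr rfl fun i _ => by ring

end Prof

end

end Run7.h978.Rot
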