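import Mathlib
import Pool.Agent.Run7.h978.Ps7

set_option autoImplicit false

/-!
The conformal radius, and the reduced system of the profile functions.
-/

open Set Filter Topology Asymptotics MeasureTheory

namespace Run7.h978.Rot

section

variable {ι : Type} [Fintype ι]

namespace Prof

variable {N : ℕ} {lam : ι → ℝ} {v v1 v2 u u1 u2 : ι → ℝ → ℝ} (h : Prof N lam v v1 v2 u u1 u2)
include h

/-- the speed -/
theorem d_speed {r : ℝ} (hs : 0 < (∑ j, v1 j r) ^ 2 + (∑ j, u1 j r) ^ 2) :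
    HasDerivAt (fun r => Real.sqrt ((∑ j, v1 j r) ^ 2 + (∑ j, u1 j r) ^ 2))
      (((∑ j, v1 j r) * (∑ j, v2 j r) + (∑ j, u1 j r) * ∑ j, u2 j r) /
        Real.sqrt ((∑ j, v1 j r) ^ 2 + (∑ j, u1 j r) ^ 2)) r := by
  have h1 := (((h.dsum1 r).pow 2).add ((h.dsumu1 r).pow 2)).sqrt hs.ne'
  refine h1.congr_deriv ?_
  have h2 : Real.sqrt ((∑ j, v1 j r) ^ 2 + (∑ j, u1 j r) ^ 2) ≠ 0 := (Real.sqrt_pos.2 hs).ne'
  simp only [Pi.add_apply, Pi.pow_apply]
  field_simp
  push_cast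
  ring

theorem speed_zero : Real.sqrt ((∑ j, v1 j 0) ^ 2 + (∑ j, u1 j 0) ^ 2) = ∑ j, v1 j 0 := by
  have h1 : ∑ j, u1 j 0 = 0 := Finset.sum_eq_zero fun j _ => h.u0 j
  rw [h1, zero_pow two_ne_zero, add_zero, Real.sqrt_sq h.f0.le]

/-- existence of the conformal radius -/
theorem exists_rho : ∃ (b : ℝ) (ρ : ℝ → ℝ), 0 < b ∧ (∀ r ∈ Ioo 0 b, 0 < ρ r) ∧
    (∀ r ∈ Ioo 0 b, HasDerivAt ρ
      (Real.sqrt ((∑ j, v1 j r) ^ 2 + (∑ j, u1 j r) ^ 2) / (∑ j, v j r) * ρ r) r) ∧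
    Tendsto ρ (𝓝[>] 0) (𝓝 0) ∧
    (fun r => ρ r - r) =O[𝓝[>] 0] (fun r : ℝ => r ^ 2) ∧
    (fun r : ℝ => r) =O[𝓝[>] 0] ρ ∧ ρ =O[𝓝[>] 0] (fun r : ℝ => r) := by
  set f : ℝ → ℝ := fun r => ∑ j, v j r with hf
  set σ : ℝ → ℝ := fun r => Real.sqrt ((∑ j, v1 j r) ^ 2 + (∑ j, u1 j r) ^ 2) with hσ
  have hf0 : f 0 = 0 := Finset.sum_eq_zero fun j _ => h.v0 j
  set c : ℝ := ∑ j, v1 j 0 with hc
  have hc0 : 0 < c := h.f0
  have hσ0 : σ 0 = c := h.speed_zero
  have hs0 : 0 < (∑ j, v1 j 0) ^ 2 + (∑ j, u1 j 0) ^ 2 := by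
    have : 0 ≤ (∑ j, u1 j 0) ^ 2 := sq_nonneg _
    positivity
  have B1 : (fun r => f r - c * r) =O[𝓝[>] 0] (fun r : ℝ => r ^ 2) := by
    have := big2 (v := f) (v1 := fun r => ∑ j, v1 j r) h.dsum (h.dsum1 0)
    simpa [hf0] using this
  have B2 : (fun r => σ r - c) =O[𝓝[>] 0] (fun r : ℝ => r) := by
    have := big1 (h.d_speed hs0)
    rw [← hσ0]
    exact this
  obtain ⟨K1, hK1, b1⟩ := B1.exists_nonneg
  obtain ⟨K2, hK2, b2⟩ := B2.exists_nonneg
  -- a neighbourhood with explicit estimates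
  have hev : ∀ᶠ r in 𝓝[>] (0 : ℝ), |f r - c * r| ≤ K1 * r ^ 2 ∧ |σ r - c| ≤ K2 * r ∧
      c / 2 * r ≤ f r := by
    have e1 : ∀ᶠ r in 𝓝[>] (0 : ℝ), K1 * r < c / 2 := by
      have : Tendsto (fun r : ℝ => K1 * r) (𝓝[>] 0) (𝓝 (K1 * 0)) :=
        ((continuous_const.mul continuous_id).tendsto 0).mono_left nhdsWithin_le_nhds
      exact this.eventually (gt_mem_nhds (by simpa using half_pos hc0))
    filter_upwards [b1.bound, b2.bound, e1, self_mem_nhdsWithin] with r h1 h2 h3 h4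
    have h4' : (0 : ℝ) < r := h4
    rw [Real.norm_eq_abs, Real.norm_eq_abs, abs_of_nonneg (sq_nonneg r)] at h1
    rw [Real.norm_eq_abs, Real.norm_eq_abs, abs_of_pos h4'] at h2
    refine ⟨h1, h2, ?_⟩
    have h5 := (abs_le.1 h1).1
    nlinarith
  obtain ⟨b, hb, hsub⟩ := (mem_nhdsGT_iff_exists_Ioo_subset).1 hev
  have hb' : (0 : ℝ) < b := hb
  have good : ∀ r ∈ Ioo 0 b, |f r - c * r| ≤ K1 * r ^ 2 ∧ |σ r - c| ≤ K2 * r ∧
      c / 2 * r ≤ f r := fun r hr => hsub hr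
  set k : ℝ → ℝ := fun r => σ r / f r - 1 / r with hk
  set K : ℝ := 2 * (K1 + K2) / c with hKdef
  have hK0 : 0 ≤ K := by positivity
  have kb : ∀ r ∈ Ioo 0 b, |k r| ≤ K := by
    intro r hr
    obtain ⟨g1, g2, g3⟩ := good r hr
    have hr0 := hr.1
    have hfr : 0 < f r := h.fpos r hr0
    have e1 : k r = ((σ r - c) * r - (f r - c * r)) / (f r * r) := by
      rw [hk]
      simp only
      field_simp
      ring
    rw [e1, abs_div, abs_of_pos (mul_pos hfr hr0), div_le_iff₀ (mul_pos hfr hr0)]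
    calc |(σ r - c) * r - (f r - c * r)| ≤ |(σ r - c) * r| + |f r - c * r| := abs_sub _ _
      _ ≤ K2 * r * r + K1 * r ^ 2 := by
          rw [abs_mul, abs_of_pos hr0]
          gcongr
      _ = K * (c / 2 * r * r) := by
          rw [hKdef]
          field_simp
          ring
      _ ≤ K * (f r * r) := by gcongr
  have hσc : ContinuousOn σ (Ioi 0) := fun r hr =>
    (h.d_speed (h.spos r hr)).continuousAt.continuousWithinAt
  have hfc : ContinuousOn f (Ioi 0) := fun r _ => (h.dsum r).continuousAt.continuousWithinAt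
  have hkc : ContinuousOn k (Ioi 0) :=
    (hσc.div hfc fun r hr => (h.fpos r hr).ne').sub
      (continuousOn_const.div continuousOn_id fun r hr => (ne_of_gt hr))
  set E : ℝ → ℝ := fun r => ∫ x in (0 : ℝ)..r, k x with hE
  have hint : ∀ r ∈ Ioo 0 b, IntervalIntegrable k volume 0 r := by
    intro r hr
    rw [intervalIntegrable_iff_integrableOn_Ioc_of_le hr.1.le]
    refine Integrable.of_bound (C := K) ?_ ?_
    · exact (hkc.mono fun x hx => hx.1).aestronglyMeasurable measurableSet_Ioc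
    · rw [ae_restrict_iff' measurableSet_Ioc]
      refine Eventually.of_forall fun x hx => ?_
      exact kb x ⟨hx.1, lt_of_le_of_lt hx.2 hr.2⟩
  have dE : ∀ r ∈ Ioo 0 b, HasDerivAt E (k r) r := by
    intro r hr
    refine intervalIntegral.integral_hasDerivAt_right (hint r hr) ?_ ?_
    · exact hkc.stronglyMeasurableAtFilter isOpen_Ioi r hr.1
    · exact hkc.continuousAt (Ioi_mem_nhds hr.1)
  have bE : ∀ r ∈ Ioo 0 b, |E r| ≤ K * r := by
    intro r hr
    have h1 := intervalIntegral.norm_integral_le_of_norm_le_const (a := 0) (b := r) (C := K)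
      (f := k) (fun x hx => by
        rw [uIoc_of_le hr.1.le] at hx
        exact kb x ⟨hx.1, lt_of_le_of_lt hx.2 hr.2⟩)
    rwa [sub_zero, abs_of_pos hr.1] at h1
  have hE1 : ∀ᶠ r in 𝓝[>] (0 : ℝ), r ∈ Ioo 0 b ∧ K * r ≤ 1 / 4 := by
    have e1 : ∀ᶠ r in 𝓝[>] (0 : ℝ), K * r < 1 / 4 := by
      have : Tendsto (fun r : ℝ => K * r) (𝓝[>] 0) (𝓝 (K * 0)) :=
        ((continuous_const.mul continuous_id).tendsto 0).mono_left nhdsWithin_le_nhds
      exact this.eventually (gt_mem_nhds (by norm_num))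
    filter_upwards [Ioo_mem_nhdsGT hb', e1] with r h1 h2
    exact ⟨h1, h2.le⟩
  have hexp : ∀ᶠ r in 𝓝[>] (0 : ℝ), 0 < r ∧ |Real.exp (E r) - 1| ≤ 2 * K * r ∧
      |Real.exp (E r) - 1| ≤ 1 / 2 := by
    filter_upwards [hE1] with r h1
    have h2 := bE r h1.1
    have h3 := Real.abs_exp_sub_one_le (h2.trans (h1.2.trans (by norm_num)))
    refine ⟨h1.1.1, ?_, ?_⟩ <;> linarith [h1.2]
  have BIG1 : (fun r => r * Real.exp (E r) - r) =O[𝓝[>] 0] (fun r : ℝ => r ^ 2) := by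
    refine IsBigO.of_bound (2 * K) ?_
    filter_upwards [hexp] with r h1
    have e1 : r * Real.exp (E r) - r = r * (Real.exp (E r) - 1) := by ring
    rw [e1, norm_mul, norm_pow, Real.norm_eq_abs, Real.norm_eq_abs, abs_of_pos h1.1]
    calc r * |Real.exp (E r) - 1| ≤ r * (2 * K * r) := by
          have := h1.1
          gcongr
          exact h1.2.1
      _ = 2 * K * r ^ 2 := by ring
  refine ⟨b, fun r => r * Real.exp (E r), hb', fun r hr => mul_pos hr.1 (Real.exp_pos _), ?_, ?_,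
    BIG1, ?_, ?_⟩
  · intro r hr
    have hr0 := hr.1.ne'
    have hfr : f r ≠ 0 := (h.fpos r hr.1).ne'
    refine ((hasDerivAt_id r).mul (dE r hr).exp).congr_deriv ?_
    show 1 * Real.exp (E r) + id r * (Real.exp (E r) * k r) = σ r / f r * (r * Real.exp (E r))
    rw [hk]
    simp only [id_eq]
    field_simp
    ring
  · have h1 : Tendsto (fun r : ℝ => r ^ 2) (𝓝[>] 0) (𝓝 0) := by
      have := ((continuous_pow 2).tendsto (0 : ℝ)).mono_left (nhdsWithin_le_nhds (s := Ioi 0))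
      simpa using this
    have h2 := BIG1.trans_tendsto h1
    have h3 : Tendsto (fun r : ℝ => r) (𝓝[>] 0) (𝓝 0) :=
      (continuous_id.tendsto (0 : ℝ)).mono_left nhdsWithin_le_nhds
    have h4 := h2.add h3
    simp only [sub_add_cancel, add_zero] at h4
    exact h4
  · refine IsBigO.of_bound 2 ?_
    filter_upwards [hexp] with r h1
    rw [Real.norm_eq_abs, Real.norm_eq_abs, abs_mul, Real.abs_exp, abs_of_pos h1.1]
    have h2 := (abs_le.1 h1.2.2).1
    have h3 := h1.1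
    nlinarith
  · refine IsBigO.of_bound 2 ?_
    filter_upwards [hexp] with r h1
    rw [Real.norm_eq_abs, Real.norm_eq_abs, abs_mul, Real.abs_exp, abs_of_pos h1.1]
    have h2 := (abs_le.1 h1.2.2).2
    have h3 := h1.1
    nlinarith

end Prof

end

end Run7.h978.Rot
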