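import Mathlib
import Pool.Agent.Run7.h978.Ps8

set_option autoImplicit false

/-!
The reduced system of the profile functions.
-/

open Set Filter Topology Asymptotics MeasureTheory

namespace Run7.h978.Rot

theorem div_big {num ρ : ℝ → ℝ} (h : num =O[𝓝[>] 0] (fun r : ℝ => r ^ 2))
    (hr : (fun r : ℝ => r) =O[𝓝[>] 0] ρ) (hρ : ∀ᶠ r in 𝓝[>] (0 : ℝ), 0 < ρ r) :
    (fun r => num r / ρ r) =O[𝓝[>] 0] ρ := by
  have h1 : num =O[𝓝[>] 0] (fun r => ρ r ^ 2) := h.trans (hr.pow 2)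
  have h2 := h1.mul (isBigO_refl (fun r => (ρ r)⁻¹) (𝓝[>] 0))
  refine h2.congr' (Eventually.of_forall fun r => ?_) ?_
  · show num r * (ρ r)⁻¹ = num r / ρ r
    rw [div_eq_mul_inv]
  · filter_upwards [hρ] with r hr
    show ρ r ^ 2 * (ρ r)⁻¹ = ρ r
    field_simp

section

variable {ι : Type} [Fintype ι]

namespace Prof

variable {N : ℕ} {lam : ι → ℝ} {v v1 v2 u u1 u2 : ι → ℝ → ℝ} (h : Prof N lam v v1 v2 u u1 u2)
include h

theorem red : ∃ (b K : ℝ) (ρ : ℝ → ℝ), 0 < b ∧ (∀ r ∈ Ioo 0 b, 0 < ρ r) ∧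
    (∀ r ∈ Ioo 0 b, HasDerivAt ρ
      (Real.sqrt ((∑ j, v1 j r) ^ 2 + (∑ j, u1 j r) ^ 2) / (∑ j, v j r) * ρ r) r) ∧
    Tendsto ρ (𝓝[>] 0) (𝓝 0) ∧
    Red N lam (fun i => v1 i 0) (fun i => u i 0)
      (fun r => Real.sqrt ((∑ j, v1 j r) ^ 2 + (∑ j, u1 j r) ^ 2) / (∑ j, v j r)) ρ b K
      (fun i r => v i r / ρ r)
      (fun i r => (v1 i r * (∑ j, v j r) / Real.sqrt ((∑ j, v1 j r) ^ 2 + (∑ j, u1 j r) ^ 2) -
        v i r) / ρ r)
      (fun r => (∑ j, v1 j r) / Real.sqrt ((∑ j, v1 j r) ^ 2 + (∑ j, u1 j r) ^ 2) - 1)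
      u
      (fun i r => u1 i r * (∑ j, v j r) /
        Real.sqrt ((∑ j, v1 j r) ^ 2 + (∑ j, u1 j r) ^ 2)) := by
  obtain ⟨b, ρ, hb, hρ, dρ, hρ0, R1, R2, R3⟩ := h.exists_rho
  set f : ℝ → ℝ := fun r => ∑ j, v j r with hf
  set f1 : ℝ → ℝ := fun r => ∑ j, v1 j r with hf1
  set f2 : ℝ → ℝ := fun r => ∑ j, v2 j r with hf2
  set g1 : ℝ → ℝ := fun r => ∑ j, u1 j r with hg1
  set g2 : ℝ → ℝ := fun r => ∑ j, u2 j r with hg2
  set σ : ℝ → ℝ := fun r => Real.sqrt (f1 r ^ 2 + g1 r ^ 2) with hσ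
  have hf0 : f 0 = 0 := Finset.sum_eq_zero fun j _ => h.v0 j
  set c : ℝ := f1 0 with hc
  have hc0 : 0 < c := h.f0
  have hσ0 : σ 0 = c := h.speed_zero
  have hs0 : 0 < f1 0 ^ 2 + g1 0 ^ 2 := by
    have : 0 ≤ g1 0 ^ 2 := sq_nonneg _
    positivity
  have dσ0 := h.d_speed hs0
  have B1 : (fun r => f r - c * r) =O[𝓝[>] 0] (fun r : ℝ => r ^ 2) := by
    have := big2 (v := f) (v1 := f1) h.dsum (h.dsum1 0)
    simpa [hf0] using this
  have B2 : (fun r => σ r - c) =O[𝓝[>] 0] (fun r : ℝ => r) := by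
    have := big1 dσ0
    rw [← hσ0]
    exact this
  have B3 : ∀ i, (fun r => v i r - v1 i 0 * r) =O[𝓝[>] 0] (fun r : ℝ => r ^ 2) := by
    intro i
    have := big2 (v := v i) (v1 := v1 i) (h.dv i) (h.dv1 i 0)
    simpa [h.v0 i] using this
  have B4 : ∀ i, (fun r => v1 i r - v1 i 0) =O[𝓝[>] 0] (fun r : ℝ => r) :=
    fun i => big1 (h.dv1 i 0)
  have B5 : (fun r => f1 r - c) =O[𝓝[>] 0] (fun r : ℝ => r) := big1 (h.dsum1 0)
  have B6 : ∀ i, (fun r => u i r - u i 0) =O[𝓝[>] 0] (fun r : ℝ => r) := fun i => big1 (h.du i 0)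
  have Bf : f =O[𝓝[>] 0] (fun r : ℝ => r) := by
    have := big1 (h.dsum 0)
    have h2 : ∑ i, v i 0 = 0 := hf0
    simpa [h2] using this
  have Bσ : (fun r => (σ r)⁻¹) =O[𝓝[>] 0] (fun _ : ℝ => (1 : ℝ)) := by
    have h1 : Tendsto σ (𝓝[>] 0) (𝓝 (σ 0)) :=
      dσ0.continuousAt.tendsto.mono_left nhdsWithin_le_nhds
    have h2 := h1.inv₀ (by rw [hσ0]; exact hc0.ne')
    exact h2.isBigO_one ℝ
  have Bσ1 : σ =O[𝓝[>] 0] (fun _ : ℝ => (1 : ℝ)) := by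
    have h1 : Tendsto σ (𝓝[>] 0) (𝓝 (σ 0)) :=
      dσ0.continuousAt.tendsto.mono_left nhdsWithin_le_nhds
    exact h1.isBigO_one ℝ
  have Bu1 : ∀ i, (u1 i) =O[𝓝[>] 0] (fun _ : ℝ => (1 : ℝ)) := by
    intro i
    have h1 : Tendsto (u1 i) (𝓝[>] 0) (𝓝 (u1 i 0)) :=
      (h.du1 i 0).continuousAt.tendsto.mono_left nhdsWithin_le_nhds
    exact h1.isBigO_one ℝ
  have Bid : (fun r : ℝ => r) =O[𝓝[>] 0] (fun r : ℝ => r) := isBigO_refl _ _
  have hρe : ∀ᶠ r in 𝓝[>] (0 : ℝ), 0 < ρ r := by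
    filter_upwards [Ioo_mem_nhdsGT hb] with r hr
    exact hρ r hr
  have hσp : ∀ r, 0 < r → 0 < σ r := fun r hr => Real.sqrt_pos.2 (h.spos r hr)
  have hσe : ∀ᶠ r in 𝓝[>] (0 : ℝ), σ r ≠ 0 := by
    filter_upwards [self_mem_nhdsWithin] with r hr
    exact (hσp r hr).ne'
  have rr1 : ∀ {g : ℝ → ℝ}, g =O[𝓝[>] 0] (fun r : ℝ => r ^ 2 * 1) →
      g =O[𝓝[>] 0] (fun r : ℝ => r ^ 2) := by
    intro g hg
    simpa using hg
  -- the bounds
  have Y : ∀ i, (fun r => v i r / ρ r - v1 i 0) =O[𝓝[>] 0] ρ := by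
    intro i
    have h1 : (fun r => (v i r - v1 i 0 * r) - v1 i 0 * (ρ r - r)) =O[𝓝[>] 0]
        (fun r : ℝ => r ^ 2) := (B3 i).sub (R1.const_mul_left _)
    refine (div_big h1 R2 hρe).congr' ?_ (EventuallyEq.refl _ _)
    filter_upwards [hρe] with r hr
    have := hr.ne'
    field_simp
    ring
  have Z : ∀ i, (fun r => (v1 i r * f r / σ r - v i r) / ρ r) =O[𝓝[>] 0] ρ := by
    intro i
    have e1 : (fun r => (v1 i r - v1 i 0) * f r) =O[𝓝[>] 0] (fun r : ℝ => r ^ 2) := by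
      have := (B4 i).mul Bf
      simpa [sq] using this
    have e2 : (fun r => v1 i 0 * (f r - c * r)) =O[𝓝[>] 0] (fun r : ℝ => r ^ 2) :=
      B1.const_mul_left _
    have e3 : (fun r => (v i r - v1 i 0 * r) * σ r) =O[𝓝[>] 0] (fun r : ℝ => r ^ 2) :=
      rr1 ((B3 i).mul Bσ1)
    have e4 : (fun r => v1 i 0 * (r * (σ r - c))) =O[𝓝[>] 0] (fun r : ℝ => r ^ 2) := by
      have := (Bid.mul B2).const_mul_left (v1 i 0)
      simpa [sq] using this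
    have e5 := rr1 ((((e1.add e2).sub e3).sub e4).mul Bσ)
    refine (div_big e5 R2 hρe).congr' ?_ (EventuallyEq.refl _ _)
    filter_upwards [hρe, hσe] with r hr hs
    have := hr.ne'
    field_simp
    ring
  have Q : (fun r => f1 r / σ r - 1) =O[𝓝[>] 0] ρ := by
    have e1 := ((B5.sub B2).mul Bσ)
    have e2 : (fun r => (f1 r - c - (σ r - c)) * (σ r)⁻¹) =O[𝓝[>] 0] (fun r : ℝ => r) := by
      simpa using e1
    refine (e2.trans R2).congr' ?_ (EventuallyEq.refl _ _)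
    filter_upwards [hσe] with r hs
    field_simp
    ring
  have Uu : ∀ i, (fun r => u i r - u i 0) =O[𝓝[>] 0] ρ := fun i => (B6 i).trans R2
  have Ww : ∀ i, (fun r => u1 i r * f r / σ r) =O[𝓝[>] 0] ρ := by
    intro i
    have e1 := ((Bu1 i).mul Bf).mul Bσ
    have e2 : (fun r => u1 i r * f r * (σ r)⁻¹) =O[𝓝[>] 0] (fun r : ℝ => r) := by
      simpa using e1
    refine (e2.trans R2).congr' ?_ (EventuallyEq.refl _ _)
    filter_upwards with r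
    rw [div_eq_mul_inv]
  obtain ⟨K1, hK1, k1⟩ := big_all Y hρe
  obtain ⟨K2, hK2, k2⟩ := big_all Z hρe
  obtain ⟨K3, hK3, k3⟩ := big_all (κ := Unit) (φ := fun _ => fun r => f1 r / σ r - 1)
    (fun _ => Q) hρe
  obtain ⟨K4, hK4, k4⟩ := big_all Uu hρe
  obtain ⟨K5, hK5, k5⟩ := big_all Ww hρe
  have hev : ∀ᶠ r in 𝓝[>] (0 : ℝ), (∀ i, |v i r / ρ r - v1 i 0| ≤ K1 * ρ r) ∧
      (∀ i, |(v1 i r * f r / σ r - v i r) / ρ r| ≤ K2 * ρ r) ∧
      |f1 r / σ r - 1| ≤ K3 * ρ r ∧ (∀ i, |u i r - u i 0| ≤ K4 * ρ r) ∧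
      ∀ i, |u1 i r * f r / σ r| ≤ K5 * ρ r := by
    filter_upwards [k1, k2, k3, k4, k5] with r h1 h2 h3 h4 h5
    exact ⟨h1, h2, h3 (), h4, h5⟩
  obtain ⟨b1, hb1, hsub⟩ := (mem_nhdsGT_iff_exists_Ioo_subset).1 hev
  have hb1' : (0 : ℝ) < b1 := hb1
  have hin : ∀ r, r ∈ Ioo 0 (min b b1) → r ∈ Ioo 0 b := fun r hr =>
    ⟨hr.1, lt_of_lt_of_le hr.2 (min_le_left _ _)⟩
  have good : ∀ r ∈ Ioo 0 (min b b1), (∀ i, |v i r / ρ r - v1 i 0| ≤ K1 * ρ r) ∧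
      (∀ i, |(v1 i r * f r / σ r - v i r) / ρ r| ≤ K2 * ρ r) ∧
      |f1 r / σ r - 1| ≤ K3 * ρ r ∧ (∀ i, |u i r - u i 0| ≤ K4 * ρ r) ∧
      ∀ i, |u1 i r * f r / σ r| ≤ K5 * ρ r := fun r hr =>
    hsub ⟨hr.1, lt_of_lt_of_le hr.2 (min_le_right _ _)⟩
  have dfr : ∀ r, HasDerivAt f (f1 r) r := h.dsum
  have df1 : ∀ r, HasDerivAt f1 (f2 r) r := h.dsum1
  have hfp : ∀ r, 0 < r → 0 < f r := h.fpos
  have dσ : ∀ r, 0 < r → HasDerivAt σ ((f1 r * f2 r + g1 r * g2 r) / σ r) r :=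
    fun r hr => h.d_speed (h.spos r hr)
  have σsq : ∀ r, σ r ^ 2 = f1 r ^ 2 + g1 r ^ 2 := fun r => Real.sq_sqrt (by positivity)
  refine ⟨min b b1, K1 + K2 + K3 + K4 + K5, ρ, lt_min hb hb1', fun r hr => hρ r (hin r hr),
    fun r hr => dρ r (hin r hr), hρ0, ⟨?_, ?_, ?_, ?_, ?_, ?_, ?_, ?_, ?_, ?_⟩⟩
  · intro i r hr
    have hρr := (hρ r (hin r hr)).ne'
    have hσr := (hσp r hr.1).ne'
    have hfr := (hfp r hr.1).ne'
    refine ((h.dv i r).div (dρ r (hin r hr)) hρr).congr_deriv ?_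
    show (v1 i r * ρ r - v i r * (σ r / f r * ρ r)) / ρ r ^ 2 =
      σ r / f r * ((v1 i r * f r / σ r - v i r) / ρ r)
    field_simp
  · intro i r hr
    have hρr := (hρ r (hin r hr)).ne'
    have hσr := (hσp r hr.1).ne'
    have hfr := (hfp r hr.1).ne'
    refine (((((h.dv1 i r).mul (dfr r)).div (dσ r hr.1) hσr).sub (h.dv i r)).div
      (dρ r (hin r hr)) hρr).congr_deriv ?_
    have e1 : ∑ j, v j r / ρ r = f r / ρ r := by rw [← Finset.sum_div]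
    have e2 := h.eqv i r hr.1
    have e3 : f r ^ 2 * σ r ^ 2 * v2 i r - f r ^ 2 * (f1 r * f2 r + g1 r * g2 r) * v1 i r +
        N * (f r * f1 r * σ r ^ 2 * v1 i r - (σ r ^ 2) ^ 2 * v i r) =
        -(lam i * (σ r ^ 2) ^ 2 * f r ^ 2 * v i r) := by
      rw [σsq]
      exact e2
    show ((((v2 i r * f r + v1 i r * f1 r) * σ r - v1 i r * f r *
      ((f1 r * f2 r + g1 r * g2 r) / σ r)) / σ r ^ 2 - v1 i r) * ρ r -
      (v1 i r * f r / σ r - v i r) * (σ r / f r * ρ r)) / ρ r ^ 2 =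
      σ r / f r * (-((N + 1) * ((v1 i r * f r / σ r - v i r) / ρ r)) -
        (N - 1) * ((f1 r / σ r - 1) * (v i r / ρ r + (v1 i r * f r / σ r - v i r) / ρ r)) -
        lam i * (ρ r ^ 2 * ((∑ j, v j r / ρ r) ^ 2 * (v i r / ρ r))))
    rw [e1]
    field_simp
    linear_combination e3
  · intro r hr
    have hρr := (hρ r (hin r hr)).ne'
    have hσr := (hσp r hr.1).ne'
    have hfr := (hfp r hr.1).ne'
    refine (((df1 r).div (dσ r hr.1) hσr).sub_const 1).congr_deriv ?_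
    have e1 : ∑ j, v j r / ρ r = f r / ρ r := by rw [← Finset.sum_div]
    have e2 : ∑ j, lam j * (v j r / ρ r) = (∑ j, lam j * v j r) / ρ r := by
      rw [Finset.sum_div]
      exact Finset.sum_congr rfl fun j _ => by ring
    have e3 := h.eqf hr.1
    have e4 : f r ^ 2 * σ r ^ 2 * f2 r - f r ^ 2 * (f1 r * f2 r + g1 r * g2 r) * f1 r +
        N * (f r * f1 r * σ r ^ 2 * f1 r - (σ r ^ 2) ^ 2 * f r) =
        -((σ r ^ 2) ^ 2 * f r ^ 2 * ∑ j, lam j * v j r) := by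
      rw [σsq]
      exact e3
    show (f2 r * σ r - f1 r * ((f1 r * f2 r + g1 r * g2 r) / σ r)) / σ r ^ 2 =
      σ r / f r * (-(2 * N * (f1 r / σ r - 1)) - N * (f1 r / σ r - 1) ^ 2 -
        ρ r ^ 2 * ((∑ j, v j r / ρ r) * ∑ j, lam j * (v j r / ρ r)))
    rw [e1, e2]
    set L := ∑ j, lam j * v j r
    field_simp
    refine mul_left_cancel₀ hfr ?_
    linear_combination e4
  · intro i r hr
    have hσr := (hσp r hr.1).ne'
    have hfr := (hfp r hr.1).ne'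
    refine (h.du i r).congr_deriv ?_
    show u1 i r = σ r / f r * (u1 i r * f r / σ r)
    field_simp
  · intro i r hr
    have hρr := (hρ r (hin r hr)).ne'
    have hσr := (hσp r hr.1).ne'
    have hfr := (hfp r hr.1).ne'
    refine (((h.du1 i r).mul (dfr r)).div (dσ r hr.1) hσr).congr_deriv ?_
    have e1 : ∑ j, v j r / ρ r = f r / ρ r := by rw [← Finset.sum_div]
    have e2 := h.equ i r hr.1
    have e3 : f r ^ 2 * σ r ^ 2 * u2 i r - f r ^ 2 * (f1 r * f2 r + g1 r * g2 r) * u1 i r +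
        N * (f r * f1 r * σ r ^ 2 * u1 i r) =
        -(lam i * (σ r ^ 2) ^ 2 * f r ^ 2 * u i r) := by
      rw [σsq]
      exact e2
    show ((u2 i r * f r + u1 i r * f1 r) * σ r - u1 i r * f r *
      ((f1 r * f2 r + g1 r * g2 r) / σ r)) / σ r ^ 2 =
      σ r / f r * (-((N - 1) * (u1 i r * f r / σ r)) -
        (N - 1) * ((f1 r / σ r - 1) * (u1 i r * f r / σ r)) -
        lam i * (ρ r ^ 2 * ((∑ j, v j r / ρ r) ^ 2 * u i r)))
    rw [e1]
    field_simp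
    refine mul_left_cancel₀ hfr ?_
    linear_combination e3
  · intro i r hr
    refine ((good r hr).1 i).trans ?_
    have := hρ r (hin r hr)
    gcongr
    linarith
  · intro i r hr
    refine ((good r hr).2.1 i).trans ?_
    have := hρ r (hin r hr)
    gcongr
    linarith
  · intro r hr
    refine ((good r hr).2.2.1).trans ?_
    have := hρ r (hin r hr)
    gcongr
    linarith
  · intro i r hr
    refine ((good r hr).2.2.2.1 i).trans ?_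
    have := hρ r (hin r hr)
    gcongr
    linarith
  · intro i r hr
    refine ((good r hr).2.2.2.2 i).trans ?_
    have := hρ r (hin r hr)
    gcongr
    linarith

end Prof

end

end Run7.h978.Rot
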