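import Mathlib
import Pool.Agent.Run7.h978.Ps9

set_option autoImplicit false

/-!
The profile functions have only one nonzero component.
-/

open Set Filter Topology Asymptotics MeasureTheory PowerSeries

namespace Run7.h978.Rot

section

variable {ι : Type} [Fintype ι]

namespace Prof

variable {N : ℕ} {lam : ι → ℝ} {v v1 v2 u u1 u2 : ι → ℝ → ℝ} (h : Prof N lam v v1 v2 u u1 u2)
include h

/-- only one component is nonzero near the pole -/
theorem single_local (hN : 1 ≤ N) (hl : ∀ i, 0 < lam i) (hli : Function.Injective lam)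
    (hk : 2 ≤ N ∨ ∀ i j, 3 / 8 * lam j < lam i) :
    ∃ (m : ι) (b : ℝ), 0 < b ∧ ∀ i, i ≠ m → v1 i 0 = 0 ∧
      ∀ r ∈ Ioo 0 b, v i r = 0 ∧ v1 i r = 0 ∧ u i r = 0 ∧ u1 i r = 0 := by
  obtain ⟨b, K, ρ, hb, hρ, dρ, hρ0, hred⟩ := h.red
  set f : ℝ → ℝ := fun r => ∑ j, v j r with hf
  set f1 : ℝ → ℝ := fun r => ∑ j, v1 j r with hf1
  set g1 : ℝ → ℝ := fun r => ∑ j, u1 j r with hg1
  set σ : ℝ → ℝ := fun r => Real.sqrt (f1 r ^ 2 + g1 r ^ 2) with hσ
  have hσp : ∀ r, 0 < r → 0 < σ r := fun r hr => Real.sqrt_pos.2 (h.spos r hr)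
  have σsq : ∀ r, σ r ^ 2 = f1 r ^ 2 + g1 r ^ 2 := fun r => Real.sq_sqrt (by positivity)
  have hfp : ∀ r, 0 < r → 0 < f r := h.fpos
  set A : ι → ℝ := fun i => v1 i 0 with hA
  set B : ι → ℝ := fun i => u i 0 with hB
  obtain ⟨R, q, V, U, hR, hps⟩ := exists_PSol hN lam A
  obtain ⟨b1, K1, hb1, hb1b, hR1, hred1⟩ := hps.red hR B (τ := fun r => σ r / f r) hb hρ dρ hρ0
  set K2 := max K K1 with hK2
  have hρ1 : ∀ r ∈ Ioo 0 b1, 0 < ρ r := fun r hr => hρ r ⟨hr.1, lt_of_lt_of_le hr.2 hb1b⟩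
  have R1 := hred.mono hb1b (le_max_left K K1) hρ
  have R2 := hred1.mono le_rfl (le_max_right K K1) hρ1
  have dρ1 : ∀ r ∈ Ioo 0 b1, HasDerivAt ρ (σ r / f r * ρ r) r :=
    fun r hr => dρ r ⟨hr.1, lt_of_lt_of_le hr.2 hb1b⟩
  obtain ⟨b2, hb2, hb21, heq⟩ := red_unique R1 R2 hN hb1
    (fun r hr => div_pos (hσp r hr.1) (hfp r hr.1)) hρ1 dρ1 hρ0
  -- the constraint
  have cV := hps.cV
  have cU := hps.cU
  have cF : Cv R (FS A V) := hps.cFS A
  have cG : Cv R (FS B (fun i => eul (U i))) := cv_sum _ _ fun i => (cv_C _).mul (cU i).eul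
  have c1 : Cv R (FS A V + C (2 : ℝ) * eul (FS A V)) := cF.add ((cv_C _).mul cF.eul)
  set J : PowerSeries ℝ := X * ((FS A V + C (2 : ℝ) * eul (FS A V)) *
      (FS A V + C (2 : ℝ) * eul (FS A V))) +
      C (4 : ℝ) * (FS B (fun i => eul (U i)) * FS B (fun i => eul (U i))) -
      X * (FS A V * FS A V) with hJdef
  have hJt : ∀ t ∈ Ioo 0 b2, ev J (ρ t ^ 2) = 0 := by
    intro t ht
    have ht1 : t ∈ Ioo 0 b1 := ⟨ht.1, lt_of_lt_of_le ht.2 hb21⟩
    have hρt := hρ1 t ht1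
    obtain ⟨e1, e2, e3, e4, e5⟩ := heq t ht
    have hz : |ρ t ^ 2| < R := by
      rw [abs_of_nonneg (sq_nonneg _)]
      exact hR1 t ht1
    have eF : ev (FS A V) (ρ t ^ 2) = ∑ i, v i t / ρ t := by
      rw [FS, ev_sum _ _ (fun i => (cv_C _).mul (cV i)) hz]
      exact Finset.sum_congr rfl fun i _ => by
        rw [ev_mul (cv_C _) (cV i) hz, ev_C]
        exact (e1 i).symm
    have edF : 2 * ev (eul (FS A V)) (ρ t ^ 2) =
        ∑ i, (v1 i t * f t / σ t - v i t) / ρ t := by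
      rw [PSol.eul_FS, FS, ev_sum _ _ (fun i => (cv_C _).mul (cV i).eul) hz, Finset.mul_sum]
      refine Finset.sum_congr rfl fun i _ => ?_
      rw [ev_mul (cv_C _) (cV i).eul hz, ev_C]
      have h2 := (e2 i).symm
      rw [← h2]
      ring
    have eG : 2 * ev (FS B (fun i => eul (U i))) (ρ t ^ 2) = ∑ i, u1 i t * f t / σ t := by
      rw [FS, ev_sum _ _ (fun i => (cv_C _).mul (cU i).eul) hz, Finset.mul_sum]
      refine Finset.sum_congr rfl fun i _ => ?_
      rw [ev_mul (cv_C _) (cU i).eul hz, ev_C]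
      have h2 := (e5 i).symm
      rw [← h2]
      ring
    have s1 : ∑ i, v i t / ρ t = f t / ρ t := by rw [← Finset.sum_div]
    have s2 : ∑ i, (v1 i t * f t / σ t - v i t) / ρ t = (f1 t * f t / σ t - f t) / ρ t := by
      rw [← Finset.sum_div, Finset.sum_sub_distrib, ← Finset.sum_div, ← Finset.sum_mul]
    have s3 : ∑ i, u1 i t * f t / σ t = g1 t * f t / σ t := by
      rw [← Finset.sum_div, ← Finset.sum_mul]
    rw [hJdef, ev_sub ((cv_X.mul (c1.mul c1)).add ((cv_C _).mul (cG.mul cG)))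
        (cv_X.mul (cF.mul cF)) hz,
      ev_add (cv_X.mul (c1.mul c1)) ((cv_C _).mul (cG.mul cG)) hz,
      ev_mul cv_X (c1.mul c1) hz, ev_mul c1 c1 hz, ev_add cF ((cv_C _).mul cF.eul) hz,
      ev_mul (cv_C _) cF.eul hz, ev_mul (cv_C _) (cG.mul cG) hz, ev_mul cG cG hz,
      ev_mul cv_X (cF.mul cF) hz, ev_mul cF cF hz, ev_X, ev_C, ev_C, edF, eF]
    have e6 : (4 : ℝ) * (ev (FS B (fun i => eul (U i))) (ρ t ^ 2) *
        ev (FS B (fun i => eul (U i))) (ρ t ^ 2)) = (g1 t * f t / σ t) ^ 2 := by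
      rw [← s3, ← eG]
      ring
    rw [e6, s1, s2]
    have h1 := hρt.ne'
    have h2 := (hσp t ht.1).ne'
    have h3 := σsq t
    field_simp
    linear_combination (-(f t ^ 2)) * h3
  have hb3 : b2 / 2 ∈ Ioo 0 b2 := ⟨by linarith, by linarith⟩
  have hρ3 : 0 < ρ (b2 / 2) := hρ1 _ ⟨hb3.1, lt_of_lt_of_le hb3.2 hb21⟩
  have hJ : J = 0 := by
    refine ps_identity (ε := ρ (b2 / 2) ^ 2) (by positivity) hR
      (((cv_X.mul (c1.mul c1)).add ((cv_C _).mul (cG.mul cG))).sub (cv_X.mul (cF.mul cF))) ?_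
    intro z hz0 hz1
    have hlim : Tendsto (fun t => ρ t ^ 2) (𝓝[>] 0) (𝓝 0) := by
      have := hρ0.pow 2
      simpa using this
    have hsm : ∀ᶠ t in 𝓝[>] (0 : ℝ), ρ t ^ 2 < z ∧ t ∈ Ioo 0 (b2 / 2) :=
      (hlim.eventually (gt_mem_nhds hz0)).and (Ioo_mem_nhdsGT hb3.1)
    obtain ⟨s, hs1, hs2⟩ := hsm.exists
    have hcont : ContinuousOn (fun t => ρ t ^ 2) (Icc s (b2 / 2)) := by
      intro t ht
      have ht1 : t ∈ Ioo 0 b1 :=
        ⟨lt_of_lt_of_le hs2.1 ht.1, lt_of_le_of_lt ht.2 (by linarith)⟩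
      exact ((dρ1 t ht1).pow 2).continuousAt.continuousWithinAt
    have h1 := intermediate_value_Icc hs2.2.le hcont ⟨hs1.le, hz1.le⟩
    obtain ⟨t, ht, htz⟩ := h1
    have ht2 : t ∈ Ioo 0 b2 := ⟨lt_of_lt_of_le hs2.1 ht.1, lt_of_le_of_lt ht.2 hb3.2⟩
    have h2 := hJt t ht2
    have h3 : ρ t ^ 2 = z := htz
    rwa [h3] at h2
  obtain ⟨x0, hx0⟩ := hps.lorentz hR hl h.f0 B hJ
  obtain ⟨m, hm, hmi⟩ := hx0.single hl hli hN hk
  refine ⟨m, b2, hb2, fun i hi => ?_⟩
  obtain ⟨hA0, hB0⟩ := hmi i hi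
  refine ⟨hA0, fun r hr => ?_⟩
  have hr1 : r ∈ Ioo 0 b1 := ⟨hr.1, lt_of_lt_of_le hr.2 hb21⟩
  have hρr := (hρ1 r hr1).ne'
  have hσr := (hσp r hr.1).ne'
  have hfr := (hfp r hr.1).ne'
  obtain ⟨e1, e2, e3, e4, e5⟩ := heq r hr
  have k1 : v i r = 0 := by
    have := e1 i
    rw [hA0, zero_mul, div_eq_zero_iff] at this
    exact this.resolve_right hρr
  have k2 : v1 i r = 0 := by
    have := e2 i
    rw [hA0, zero_mul, div_eq_zero_iff, k1, sub_zero] at this
    have h3 := this.resolve_right hρr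
    rw [div_eq_zero_iff] at h3
    exact (mul_eq_zero.1 (h3.resolve_right hσr)).resolve_right hfr
  have k3 : u i r = 0 := by
    have := e4 i
    rw [hB0, zero_mul] at this
    exact this
  have k4 : u1 i r = 0 := by
    have := e5 i
    rw [hB0, zero_mul, div_eq_zero_iff] at this
    exact (mul_eq_zero.1 (this.resolve_right hσr)).resolve_right hfr
  exact ⟨k1, k2, k3, k4⟩

/-- only one component is nonzero -/
theorem single (hN : 1 ≤ N) (hl : ∀ i, 0 < lam i) (hli : Function.Injective lam)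
    (hk : 2 ≤ N ∨ ∀ i j, 3 / 8 * lam j < lam i) :
    ∃ m : ι, ∀ i, i ≠ m → ∀ r, 0 < r → v i r = 0 ∧ u i r = 0 := by
  obtain ⟨m, b, hb, hm⟩ := h.single_local hN hl hli hk
  refine ⟨m, fun i hi r hr => ?_⟩
  obtain ⟨-, hloc⟩ := hm i hi
  rcases lt_or_ge r b with hrb | hrb
  · have := hloc r ⟨hr, hrb⟩
    exact ⟨this.1, this.2.2.1⟩
  set t0 := b / 2 with ht0
  have ht0' : t0 ∈ Ioo 0 b := ⟨by linarith, by linarith⟩
  obtain ⟨k1, k2, k3, k4⟩ := hloc t0 ht0'
  have hpos : ∀ t ∈ Icc t0 r, 0 < t := fun t ht => lt_of_lt_of_le ht0'.1 ht.1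
  set f : ℝ → ℝ := fun r => ∑ j, v j r with hf
  set f1 : ℝ → ℝ := fun r => ∑ j, v1 j r with hf1
  set f2 : ℝ → ℝ := fun r => ∑ j, v2 j r with hf2
  set g1 : ℝ → ℝ := fun r => ∑ j, u1 j r with hg1
  set g2 : ℝ → ℝ := fun r => ∑ j, u2 j r with hg2
  set S : ℝ → ℝ := fun r => f1 r ^ 2 + g1 r ^ 2 with hS
  have hSp : ∀ r, 0 < r → 0 < S r := h.spos
  have hfp : ∀ r, 0 < r → 0 < f r := h.fpos
  have cf : Continuous f := continuous_iff_continuousAt.2 fun r => (h.dsum r).continuousAt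
  have cf1 : Continuous f1 := continuous_iff_continuousAt.2 fun r => (h.dsum1 r).continuousAt
  have cg1 : Continuous g1 := continuous_iff_continuousAt.2 fun r => (h.dsumu1 r).continuousAt
  have cf2 : Continuous f2 := continuous_finsetSum _ fun i _ => h.cv2 i
  have cg2 : Continuous g2 := continuous_finsetSum _ fun i _ => h.cu2 i
  have cS : Continuous S := (cf1.pow 2).add (cg1.pow 2)
  set a : ℝ → ℝ := fun t => (f1 t * f2 t + g1 t * g2 t) / S t - N * f1 t / f t with ha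
  have hac : ContinuousOn a (Icc t0 r) := by
    refine ContinuousOn.sub (((cf1.mul cf2).add (cg1.mul cg2)).continuousOn.div cS.continuousOn
      fun t ht => (hSp t (hpos t ht)).ne') ?_
    exact (continuous_const.mul cf1).continuousOn.div cf.continuousOn
      fun t ht => (hfp t (hpos t ht)).ne'
  constructor
  · refine (lin2 (v := v i) (v1 := v1 i) (a := a)
      (c := fun t => N * S t / f t ^ 2 - lam i * S t) (t0 := t0) (T := r)
      (fun t _ => h.dv i t) (fun t ht => ?_) hac ?_ k1 k2 r ⟨by linarith, le_rfl⟩).1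
    · refine (h.dv1 i t).congr_deriv ?_
      have e1 := h.eqv i t (hpos t ht)
      have e2 : f t ^ 2 * S t * v2 i t - f t ^ 2 * (f1 t * f2 t + g1 t * g2 t) * v1 i t +
          N * (f t * f1 t * S t * v1 i t - S t ^ 2 * v i t) =
          -(lam i * S t ^ 2 * f t ^ 2 * v i t) := e1
      have h3 := (hSp t (hpos t ht)).ne'
      have h4 := (hfp t (hpos t ht)).ne'
      rw [ha]
      simp only
      field_simp
      linear_combination e2
    · refine ContinuousOn.sub ((continuous_const.mul cS).continuousOn.div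
        (cf.pow 2).continuousOn fun t ht => pow_ne_zero 2 (hfp t (hpos t ht)).ne') ?_
      exact (continuous_const.mul cS).continuousOn
  · refine (lin2 (v := u i) (v1 := u1 i) (a := a)
      (c := fun t => - lam i * S t) (t0 := t0) (T := r)
      (fun t _ => h.du i t) (fun t ht => ?_) hac ?_ k3 k4 r ⟨by linarith, le_rfl⟩).1
    · refine (h.du1 i t).congr_deriv ?_
      have e1 := h.equ i t (hpos t ht)
      have e2 : f t ^ 2 * S t * u2 i t - f t ^ 2 * (f1 t * f2 t + g1 t * g2 t) * u1 i t +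
          N * (f t * f1 t * S t * u1 i t) =
          -(lam i * S t ^ 2 * f t ^ 2 * u i t) := e1
      have h3 := (hSp t (hpos t ht)).ne'
      have h4 := (hfp t (hpos t ht)).ne'
      rw [ha]
      simp only
      field_simp
      refine mul_left_cancel₀ h4 ?_
      linear_combination e2
    · exact (continuous_const.mul cS).continuousOn

end Prof

end

end Run7.h978.Rot
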