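import Mathlib
import Pool.Agent.Run7.h978.Geo4
import Pool.Agent.Run7.h978.Ps10

set_option autoImplicit false

/-!
Maps which commute with the reflections have a polar form.
-/

open Set Filter Topology Matrix Module
open scoped RealInnerProductSpace ContDiff Manifold
open Helper772Chen (ee diffAt sm_fderiv symm2 fd_congr fd_apply_const sm_apply_const fd_inner
  sm_inner)

namespace Run7.h978

section

variable {N m : ℕ}

/-- the reflection in the hyperplane orthogonal to `a` -/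
noncomputable def rf {n : ℕ} (a : Eu n) : Eu n ≃ₗᵢ[ℝ] Eu n := (ℝ ∙ a)ᗮ.reflection

theorem rf_apply {n : ℕ} (a y : Eu n) : rf a y = y - (2 * (⟪a, y⟫ / ‖a‖ ^ 2)) • a := by
  rw [rf, Submodule.reflection_orthogonal_apply, Submodule.reflection_singleton_apply, neg_sub,
    two_smul, two_mul, add_smul]
  rfl

theorem rf_fix {n : ℕ} {a y : Eu n} (h : ⟪a, y⟫ = 0) : rf a y = y := by
  rw [rf_apply, h]
  simp

theorem rf_swap {n : ℕ} {a b : Eu n} (h : ‖a‖ = ‖b‖) : rf (a - b) a = b :=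
  Submodule.reflection_sub h

variable {Λ : Eu (N + 1) →ₗᵢ[ℝ] Eu m} {e0 : Eu m}

theorem rf_map (a y : Eu (N + 1)) : rf (Λ a) (Λ y) = Λ (rf a y) := by
  rw [rf_apply, rf_apply, Λ.inner_map_map, Λ.norm_map, map_sub, map_smul]

theorem rf_axis (ax : Axis Λ e0) (a : Eu (N + 1)) : rf (Λ a) e0 = e0 := rf_fix (ax.orth a)

theorem rf_fixed {n : ℕ} {a w : Eu n} (ha : a ≠ 0) (h : rf a w = w) : ⟪a, w⟫ = 0 := by
  rw [rf_apply] at h
  have h1 : (2 * (⟪a, w⟫ / ‖a‖ ^ 2)) • a = 0 := by
    have := sub_eq_self.1 h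
    exact this
  have h2 := (smul_eq_zero.1 h1).resolve_right ha
  have h3 : ‖a‖ ^ 2 ≠ 0 := pow_ne_zero 2 (norm_ne_zero_iff.2 ha)
  have h4 : ⟪a, w⟫ / ‖a‖ ^ 2 = 0 := by linarith
  exact (div_eq_zero_iff.1 h4).resolve_right h3

/-- maps which commute with the reflections have a polar form -/
theorem polar (ax : Axis Λ e0) (hsurj : ∀ w : Eu m, ⟪w, e0⟫ = 0 → ∃ y, Λ y = w)
    {W : Eu (N + 1) → Eu m} (hs : ∀ a y, W (rf a y) = rf (Λ a) (W y)) :
    Pol Λ e0 W (fun r => ⟪W (r • ee 0), Λ (ee 0)⟫) (fun r => ⟪W (r • ee 0), e0⟫) := by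
  have h0 : ∀ r : ℝ, W (r • ee 0) = ⟪W (r • ee 0), Λ (ee 0)⟫ • Λ (ee 0) +
      ⟪W (r • ee 0), e0⟫ • e0 := by
    intro r
    set w := W (r • ee 0) with hw
    obtain ⟨y, hy⟩ := hsurj (w - ⟪w, e0⟫ • e0) (by
      rw [inner_sub_left, real_inner_smul_left, ax.unit]
      ring)
    have hk : ∀ k : Fin N, y k.succ = 0 := by
      intro k
      have e1 : rf (ee k.succ) (r • ee 0) = (r • ee 0 : Eu (N + 1)) := by
        refine rf_fix ?_
        rw [real_inner_smul_right, inner_ee, if_neg (Fin.succ_ne_zero k), mul_zero]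
      have e2 := hs (ee k.succ) (r • ee 0)
      rw [e1] at e2
      have e3 : Λ (ee k.succ) ≠ 0 := by
        intro h
        have := Λ.norm_map (ee k.succ)
        rw [h, norm_zero, norm_ee] at this
        norm_num at this
      have e4 := rf_fixed e3 e2.symm
      have e5 : ⟪Λ (ee k.succ), Λ y⟫ = 0 := by
        rw [hy, inner_sub_right, real_inner_smul_right, ax.orth, e4]
        ring
      rw [Λ.inner_map_map, inner_eq_sum] at e5
      simpa [ee] using e5
    have hy0 : y = y 0 • ee 0 := by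
      ext j
      refine Fin.cases ?_ (fun k => ?_) j
      · simp [ee]
      · rw [hk k]
        simp [ee]
    have e6 : w = y 0 • Λ (ee 0) + ⟪w, e0⟫ • e0 := by
      rw [← map_smul, ← hy0, hy]
      abel
    have e7 : ⟪w, Λ (ee 0)⟫ = y 0 := by
      have h3 : ⟪e0, Λ (ee 0)⟫ = 0 := by
        rw [real_inner_comm]
        exact ax.orth _
      rw [e6, inner_add_left, real_inner_smul_left, real_inner_smul_left, Λ.inner_map_map,
        inner_ee, if_pos rfl, h3]
      ring
    rw [e7]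
    exact e6
  intro r z hz
  by_cases hze : z = ee 0
  · rw [hze]
    exact h0 r
  · have e1 : rf ((ee 0 : Eu (N + 1)) - z) (ee 0) = z := rf_swap (by rw [hz, norm_ee])
    have e2 := hs ((ee 0 : Eu (N + 1)) - z) (r • ee 0)
    rw [map_smul, e1] at e2
    rw [e2, h0 r, map_add, map_smul, map_smul, rf_map, e1, rf_axis ax]

end

end Run7.h978
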