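import Mathlib
import Pool.Agent.Run7.h978.Geo5

set_option autoImplicit false

/-!
The chart version of the theorem.
-/

open Set Filter Topology Matrix Module
open scoped RealInnerProductSpace ContDiff Manifold
open Helper772Chen (ee diffAt sm_fderiv symm2 fd_congr fd_apply_const sm_apply_const fd_inner
  sm_inner)

namespace Run7.h978

section

variable {N m : ℕ} {Λ : Eu (N + 1) →ₗᵢ[ℝ] Eu m} {e0 : Eu m}

theorem pol_zero (ax : Axis Λ e0) {W : Eu (N + 1) → Eu m} {v u : ℝ → ℝ} (h : Pol Λ e0 W v u) :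
    v 0 = 0 := by
  have h1 := h 0 (ee 0) (norm_ee 0)
  have h2 := h 0 (-ee 0) (by rw [norm_neg, norm_ee])
  rw [zero_smul] at h1 h2
  rw [h1, map_neg] at h2
  have h3 := congrArg (fun w => ⟪w, (1 : ℝ) • Λ (ee 0) + (0 : ℝ) • e0⟫) h2
  have h4 : v 0 • -Λ (ee 0) + u 0 • e0 = (-v 0) • Λ (ee 0) + u 0 • e0 := by
    rw [smul_neg, neg_smul]
  simp only [h4, ax_inner ax] at h3
  linarith

theorem pol_even (ax : Axis Λ e0) {W : Eu (N + 1) → Eu m} {v u : ℝ → ℝ} (h : Pol Λ e0 W v u)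
    (r : ℝ) : u (-r) = u r := by
  have h1 := h (-r) (ee 0) (norm_ee 0)
  have h2 := h r (-ee 0) (by rw [norm_neg, norm_ee])
  rw [smul_neg, ← neg_smul, h1, map_neg] at h2
  have h3 := congrArg (fun w => ⟪w, (0 : ℝ) • Λ (ee 0) + (1 : ℝ) • e0⟫) h2
  have h4 : v r • -Λ (ee 0) + u r • e0 = (-v r) • Λ (ee 0) + u r • e0 := by
    rw [smul_neg, neg_smul]
  simp only [h4, ax_inner ax] at h3
  linarith

theorem comb_ne (ax : Axis Λ e0) {a b : ℝ} (h : a • Λ (ee 0) + b • e0 ≠ 0) : 0 < a ^ 2 + b ^ 2 := by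
  have h1 := real_inner_self_pos.2 h
  rw [ax_inner ax] at h1
  nlinarith

theorem prof_of {κ : Type} [Fintype κ] {N : ℕ} {μ : κ → ℝ} {f f1 f2 g1 g2 : ℝ → ℝ}
    {v v1 v2 u u1 u2 : κ → ℝ → ℝ} {ε : ℝ} (sf : ∀ r, ∑ j, v j r = f r)
    (sf1 : ∀ r, ∑ j, v1 j r = f1 r) (sf2 : ∀ r, ∑ j, v2 j r = f2 r)
    (sg1 : ∀ r, ∑ j, u1 j r = g1 r) (sg2 : ∀ r, ∑ j, u2 j r = g2 r)
    (dv : ∀ i r, HasDerivAt (v i) (v1 i r) r) (du : ∀ i r, HasDerivAt (u i) (u1 i r) r)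
    (dv1 : ∀ i r, HasDerivAt (v1 i) (v2 i r) r) (du1 : ∀ i r, HasDerivAt (u1 i) (u2 i r) r)
    (cv2 : ∀ i, Continuous (v2 i)) (cu2 : ∀ i, Continuous (u2 i)) (v0 : ∀ i, v i 0 = 0)
    (u10 : ∀ i, u1 i 0 = 0) (hε : ε ^ 2 = 1) (hεf : 0 < ε * f1 0)
    (hεpos : ∀ r, 0 < r → 0 < ε * f r) (hS : ∀ r, 0 < f1 r ^ 2 + g1 r ^ 2)
    (eig : ∀ i r, 0 < r →
      f r ^ 2 * (f1 r ^ 2 + g1 r ^ 2) * v2 i r - f r ^ 2 * (f1 r * f2 r + g1 r * g2 r) * v1 i r +
        N * (f r * f1 r * (f1 r ^ 2 + g1 r ^ 2) * v1 i r - (f1 r ^ 2 + g1 r ^ 2) ^ 2 * v i r) =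
        -(μ i * (f1 r ^ 2 + g1 r ^ 2) ^ 2 * f r ^ 2 * v i r) ∧
      f r ^ 2 * (f1 r ^ 2 + g1 r ^ 2) * u2 i r - f r ^ 2 * (f1 r * f2 r + g1 r * g2 r) * u1 i r +
        N * (f r * f1 r * (f1 r ^ 2 + g1 r ^ 2) * u1 i r) =
        -(μ i * (f1 r ^ 2 + g1 r ^ 2) ^ 2 * f r ^ 2 * u i r)) :
    Rot.Prof N μ (fun i r => ε * v i r) (fun i r => ε * v1 i r) (fun i r => ε * v2 i r)
      u u1 u2 := by
  refine ⟨fun i r => (dv i r).const_mul ε, fun i r => (dv1 i r).const_mul ε,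
    fun i => continuous_const.mul (cv2 i), du, du1, cu2,
    fun i => ?_, u10, ?_, fun r hr => ?_, fun r hr => ?_, fun i r hr => ?_, fun i r hr => ?_⟩
  · rw [v0 i, mul_zero]
  · rw [← Finset.mul_sum, sf1]
    exact hεf
  · rw [← Finset.mul_sum, sf]
    exact hεpos r hr
  · rw [← Finset.mul_sum, sf1, sg1, mul_pow, hε, one_mul]
    exact hS r
  · have e1 := (eig i r hr).1
    simp only [← Finset.mul_sum, sf, sf1, sf2, sg1, sg2]
    have k1 : (ε * f r) ^ 2 = f r ^ 2 := by rw [mul_pow, hε, one_mul]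
    have k2 : (ε * f1 r) ^ 2 = f1 r ^ 2 := by rw [mul_pow, hε, one_mul]
    have k3 : (ε * f1 r) * (ε * f2 r) = f1 r * f2 r := by
      linear_combination (f1 r * f2 r) * hε
    have k4 : (ε * f r) * (ε * f1 r) = f r * f1 r := by
      linear_combination (f r * f1 r) * hε
    rw [k1, k2, k3, k4]
    linear_combination ε * e1
  · have e1 := (eig i r hr).2
    simp only [← Finset.mul_sum, sf, sf1, sf2, sg1, sg2]
    have k1 : (ε * f r) ^ 2 = f r ^ 2 := by rw [mul_pow, hε, one_mul]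
    have k2 : (ε * f1 r) ^ 2 = f1 r ^ 2 := by rw [mul_pow, hε, one_mul]
    have k3 : (ε * f1 r) * (ε * f2 r) = f1 r * f2 r := by
      linear_combination (f1 r * f2 r) * hε
    have k4 : (ε * f r) * (ε * f1 r) = f r * f1 r := by
      linear_combination (f r * f1 r) * hε
    rw [k1, k2, k3, k4]
    exact e1

theorem ee_ne (i : Fin (N + 1)) : (ee i : Eu (N + 1)) ≠ 0 := by
  intro h0
  have := norm_ee i
  rw [h0, norm_zero] at this
  norm_num at this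

/-- the sign of the radius -/
theorem exists_sign {f f1 : ℝ → ℝ} (df : ∀ r, HasDerivAt f (f1 r) r) (hf0 : f 0 = 0)
    (hf10 : f1 0 ≠ 0) (hfr : ∀ r, r ≠ 0 → f r ≠ 0) :
    ∃ ε : ℝ, ε ^ 2 = 1 ∧ 0 < ε * f1 0 ∧ ∀ r, 0 < r → 0 < ε * f r := by
  obtain ⟨ε, hε, hεf⟩ : ∃ ε : ℝ, ε ^ 2 = 1 ∧ 0 < ε * f1 0 := by
    rcases lt_or_gt_of_ne hf10 with h1 | h1
    · exact ⟨-1, by norm_num, by linarith⟩
    · exact ⟨1, by norm_num, by linarith⟩
  have cf : Continuous f := continuous_iff_continuousAt.2 fun r => (df r).continuousAt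
  refine ⟨ε, hε, hεf, fun r hr => ?_⟩
  by_contra hcon
  have h1 : Tendsto (fun t => t⁻¹ • (ε * f (0 + t) - ε * f 0)) (𝓝[>] 0) (𝓝 (ε * f1 0)) :=
    ((df 0).const_mul ε).tendsto_slope_zero_right
  have h2 := (h1.eventually (lt_mem_nhds hεf)).and (Ioo_mem_nhdsGT hr)
  obtain ⟨s, hs1, hs2⟩ := h2.exists
  rw [zero_add, hf0, mul_zero, sub_zero, smul_eq_mul] at hs1
  have h3 : 0 < ε * f s := (mul_pos_iff_of_pos_left (inv_pos.2 hs2.1)).1 hs1
  have h4 : ContinuousOn (fun t => ε * f t) (Icc s r) :=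
    (continuous_const.mul cf).continuousOn
  obtain ⟨t, ht, ht0⟩ := intermediate_value_Icc' hs2.2.le h4 ⟨not_lt.1 hcon, h3.le⟩
  have hε0 : ε ≠ 0 := by
    intro h5
    rw [h5] at hε
    norm_num at hε
  have h5 : f t = 0 := (mul_eq_zero.1 ht0).resolve_left hε0
  exact hfr t (lt_of_lt_of_le hs2.1 ht.1).ne' h5

/-- the radial derivatives -/
theorem even_deriv {u u1 : ℝ → ℝ} (du : HasDerivAt u (u1 0) 0) (h : ∀ r, u (-r) = u r) :
    u1 0 = 0 := by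
  have h1' : HasDerivAt u (u1 0) (-(0 : ℝ)) := by rw [neg_zero]; exact du
  have h2 : HasDerivAt (fun r => u (-r)) (u1 0 * -1) 0 :=
    h1'.comp (0 : ℝ) (hasDerivAt_neg (0 : ℝ))
  have h3 : (fun r => u (-r)) = u := funext h
  rw [h3] at h2
  have := du.unique h2
  linarith

/-- the profile functions of the components -/
theorem exists_prof (hN : 1 ≤ N) (ax : Axis Λ e0) {X : Eu (N + 1) → Eu m} (h : Imm X univ)
    {κ : Type} [Fintype κ] {W : κ → Eu (N + 1) → Eu m} (sW : ∀ i, ContDiff ℝ ∞ (W i))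
    {μ : κ → ℝ} (hW : ∀ i y, lap X (W i) y = μ i • W i y) {f g : ℝ → ℝ}
    (PX : Pol Λ e0 X f g) {v u : κ → ℝ → ℝ} (PW : ∀ i, Pol Λ e0 (W i) (v i) (u i))
    (cv : ∀ i, ContDiff ℝ ∞ (v i)) (cu : ∀ i, ContDiff ℝ ∞ (u i)) {c0 : ℝ}
    (fsum : ∀ r, f r = ∑ i, v i r) (gsum : ∀ r, g r = c0 + ∑ i, u i r) :
    ∃ (ε : ℝ) (v1 v2 u1 u2 : κ → ℝ → ℝ), ε ≠ 0 ∧
      Rot.Prof N μ (fun i r => ε * v i r) v1 v2 u u1 u2 := by
  have sX : ContDiff ℝ ∞ X := contDiffOn_univ.1 h.sm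
  have cv1 : ∀ i, ContDiff ℝ ∞ (deriv (v i)) := fun i => (contDiff_infty_iff_deriv.1 (cv i)).2
  have cu1 : ∀ i, ContDiff ℝ ∞ (deriv (u i)) := fun i => (contDiff_infty_iff_deriv.1 (cu i)).2
  have cv2 : ∀ i, ContDiff ℝ ∞ (deriv (deriv (v i))) := fun i =>
    (contDiff_infty_iff_deriv.1 (cv1 i)).2
  have cu2 : ∀ i, ContDiff ℝ ∞ (deriv (deriv (u i))) := fun i =>
    (contDiff_infty_iff_deriv.1 (cu1 i)).2
  have dv : ∀ i r, HasDerivAt (v i) (deriv (v i) r) r := fun i r =>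
    ((cv i).differentiable (by simp)).differentiableAt.hasDerivAt
  have du : ∀ i r, HasDerivAt (u i) (deriv (u i) r) r := fun i r =>
    ((cu i).differentiable (by simp)).differentiableAt.hasDerivAt
  have dv1 : ∀ i r, HasDerivAt (deriv (v i)) (deriv (deriv (v i)) r) r := fun i r =>
    ((cv1 i).differentiable (by simp)).differentiableAt.hasDerivAt
  have du1 : ∀ i r, HasDerivAt (deriv (u i)) (deriv (deriv (u i)) r) r := fun i r =>
    ((cu1 i).differentiable (by simp)).differentiableAt.hasDerivAt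
  obtain ⟨f1, hf1⟩ : ∃ f1 : ℝ → ℝ, ∀ r, ∑ i, deriv (v i) r = f1 r := ⟨_, fun r => rfl⟩
  obtain ⟨f2, hf2⟩ : ∃ f2 : ℝ → ℝ, ∀ r, ∑ i, deriv (deriv (v i)) r = f2 r := ⟨_, fun r => rfl⟩
  obtain ⟨g1, hg1⟩ : ∃ g1 : ℝ → ℝ, ∀ r, ∑ i, deriv (u i) r = g1 r := ⟨_, fun r => rfl⟩
  obtain ⟨g2, hg2⟩ : ∃ g2 : ℝ → ℝ, ∀ r, ∑ i, deriv (deriv (u i)) r = g2 r := ⟨_, fun r => rfl⟩
  have df : ∀ r, HasDerivAt f (f1 r) r := by
    intro r
    rw [funext fsum, ← hf1]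
    exact HasDerivAt.fun_sum fun i _ => dv i r
  have dg : ∀ r, HasDerivAt g (g1 r) r := by
    intro r
    rw [funext gsum, ← hg1]
    exact (HasDerivAt.fun_sum fun i _ => du i r).const_add _
  have df1 : ∀ r, HasDerivAt f1 (f2 r) r := by
    intro r
    rw [← funext hf1, ← hf2]
    exact HasDerivAt.fun_sum fun i _ => dv1 i r
  have dg1 : ∀ r, HasDerivAt g1 (g2 r) r := by
    intro r
    rw [← funext hg1, ← hg2]
    exact HasDerivAt.fun_sum fun i _ => du1 i r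
  have v0 : ∀ i, v i 0 = 0 := fun i => pol_zero ax (PW i)
  have u10 : ∀ i, deriv (u i) 0 = 0 := fun i =>
    even_deriv (u1 := deriv (u i)) (du i 0) (pol_even ax (PW i))
  have hinjX : ∀ y w, fderiv ℝ X y w = 0 → w = 0 := by
    intro y w hw
    refine h.inj y (mem_univ y) ?_
    rw [hw, map_zero]
  have hS : ∀ r, 0 < f1 r ^ 2 + g1 r ^ 2 := by
    intro r
    refine comb_ne ax (a := f1 r) (b := g1 r) fun h0 => ?_
    rw [← ray1 sX PX df dg r] at h0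
    exact ee_ne 0 (hinjX _ _ h0)
  have hfr : ∀ r, r ≠ 0 → f r ≠ 0 := by
    intro r hr h0
    have h1 := ray1k sX PX hr (⟨0, hN⟩ : Fin N)
    rw [h0, zero_div, zero_smul] at h1
    exact ee_ne _ (hinjX _ _ h1)
  have hf10 : f1 0 ≠ 0 := by
    intro h0
    have h1 := hS 0
    have h2 : g1 0 = 0 := by
      rw [← hg1]
      exact Finset.sum_eq_zero fun i _ => u10 i
    rw [h0, h2] at h1
    norm_num at h1
  have hf0 : f 0 = 0 := by
    rw [fsum]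
    exact Finset.sum_eq_zero fun i _ => v0 i
  obtain ⟨ε, hε, hεf, hεpos⟩ := exists_sign df hf0 hf10 hfr
  refine ⟨ε, _, _, _, _, ?_, prof_of (fun r => (fsum r).symm) hf1 hf2 hg1 hg2 dv du dv1 du1
    (fun i => (cv2 i).continuous) (fun i => (cu2 i).continuous) v0 u10 hε hεf hεpos hS ?_⟩
  · intro h5
    rw [h5] at hε
    norm_num at hε
  · intro i r hr
    exact eigen_ray ax h sX (sW i) PX (PW i) df dg df1 dg1 (dv i) (du i) (dv1 i) (du1 i) hr.ne'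
      (hS r).ne' (hfr r hr.ne') (hW i (r • ee 0))

/-- the chart version of the theorem -/
theorem chart_main (hN : 1 ≤ N) (ax : Axis Λ e0) (hsurj : ∀ w : Eu m, ⟪w, e0⟫ = 0 → ∃ y, Λ y = w)
    {X : Eu (N + 1) → Eu m} (h : Imm X univ) (hX : ∀ a y, X (rf a y) = rf (Λ a) (X y))
    {κ : Type} [Fintype κ] {W : κ → Eu (N + 1) → Eu m} (sW : ∀ i, ContDiff ℝ ∞ (W i))
    {μ : κ → ℝ} (hμ : ∀ i, 0 < μ i) (hinj : Function.Injective μ)
    (hW : ∀ i y, lap X (W i) y = μ i • W i y) {c : Eu m} (hsum : ∀ y, X y = c + ∑ i, W i y)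
    (hk : 2 ≤ N ∨ ∀ i j, 3 / 8 * μ j < μ i) : ∃ i, ∀ y, X y = c + W i y := by
  have hsym := fun a => comp_symm h (fun i => (sW i).contDiffOn) (fun i => (hμ i).ne') hinj hW
    hsum (rf a) (rf (Λ a)) (hX a)
  have hΛ0 : Λ (ee 0) ≠ 0 := by
    intro h0
    exact ee_ne 0 (Λ.injective (by rw [h0, map_zero]))
  have hc : ⟪c, Λ (ee 0)⟫ = 0 := by
    rw [real_inner_comm]
    exact rf_fixed hΛ0 (hsym (ee 0)).2
  have PX := polar ax hsurj hX
  have PW := fun i => polar ax hsurj fun a y => (hsym a).1 i y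
  have hline : ContDiff ℝ ∞ (fun r : ℝ => r • (ee 0 : Eu (N + 1))) :=
    contDiff_id.smul contDiff_const
  obtain ⟨ε, v1, v2, u1, u2, hε, P⟩ := exists_prof hN ax h sW hW PX PW
    (fun i => ((sW i).comp hline).inner ℝ contDiff_const)
    (fun i => ((sW i).comp hline).inner ℝ contDiff_const) (c0 := ⟪c, e0⟫)
    (fun r => by rw [hsum, inner_add_left, hc, zero_add, sum_inner])
    (fun r => by rw [hsum, inner_add_left, sum_inner])
  obtain ⟨i0, hi0⟩ := P.single hN hμ hinj hk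
  refine ⟨i0, fun y => ?_⟩
  have hWz : ∀ i, i ≠ i0 → W i = fun _ => 0 := by
    intro i hi
    refine Continuous.ext_on (dense_compl_singleton (0 : Eu (N + 1))) (sW i).continuous
      continuous_const fun y hy => ?_
    have hy0 : y ≠ 0 := hy
    have hyn : 0 < ‖y‖ := norm_pos_iff.2 hy0
    have e1 : y = ‖y‖ • (‖y‖⁻¹ • y) := by
      rw [smul_smul, mul_inv_cancel₀ hyn.ne', one_smul]
    have e2 : ‖(‖y‖⁻¹ • y)‖ = 1 := by
      rw [norm_smul, norm_inv, norm_norm, inv_mul_cancel₀ hyn.ne']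
    have e3 := PW i ‖y‖ _ e2
    rw [← e1] at e3
    obtain ⟨k1, k2⟩ := hi0 i hi ‖y‖ hyn
    have k3 := (mul_eq_zero.1 k1).resolve_left hε
    show W i y = 0
    rw [e3]
    simp only [k3, k2, zero_smul, add_zero]
  rw [hsum y, Finset.sum_eq_single i0 (fun i _ hi => by rw [hWz i hi])
    (fun hi => absurd (Finset.mem_univ _) hi)]

end

end Run7.h978
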