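import Mathlib
import Pool.Agent.Run7.h978.Geo6

set_option autoImplicit false

/-!
The sphere, and the positivity of the eigenvalues.
-/

open Set Filter Topology Matrix Module
open scoped RealInnerProductSpace ContDiff Manifold
open Helper772Chen (ee diffAt sm_fderiv symm2 fd_congr fd_apply_const sm_apply_const fd_inner
  sm_inner)

namespace Run7.h978

section

variable {n m : ℕ}

/-- a map with a single eigencomponent is spherical -/
theorem spherical {X W : Eu n → Eu m} (h : Imm X univ) (sW : ContDiff ℝ ∞ W) {μ : ℝ} (hμ : μ ≠ 0)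
    (hW : ∀ y, lap X W y = μ • W y) {c : Eu m} (hX : ∀ y, X y = c + W y) (y y' : Eu n) :
    ‖X y - c‖ = ‖X y' - c‖ := by
  have sX : ContDiff ℝ ∞ X := contDiffOn_univ.1 h.sm
  have hXe : X = fun y => c + W y := funext hX
  have h1 : ∀ y, lap X X y = μ • (X y - c) := by
    intro y
    have e1 : lap X X y = lap X (fun y => c + W y) y :=
      lap_congr isOpen_univ (mem_univ y) fun z _ => hX z
    rw [e1, lap_add h contDiffOn_const sW.contDiffOn (mem_univ y), lap_const, zero_add, hW, hX y,
      add_sub_cancel_left]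
  have h2 : ∀ y w, ⟪X y - c, fderiv ℝ X y w⟫ = 0 := by
    intro y w
    have e1 : ∀ k, ⟪X y - c, fderiv ℝ X y (ee k)⟫ = 0 := by
      intro k
      have := h.b5 (mem_univ y) k
      rw [h1, real_inner_smul_left] at this
      exact (mul_eq_zero.1 this).resolve_left hμ
    rw [eu_sum w, map_sum, inner_sum]
    refine Finset.sum_eq_zero fun k _ => ?_
    rw [map_smul, real_inner_smul_right, e1, mul_zero]
  have dX : ∀ y, HasFDerivAt (fun z => X z - c) (fderiv ℝ X y) y := fun y =>
    ((sX.differentiable (by simp)).differentiableAt.hasFDerivAt).sub_const c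
  have dF : ∀ y, HasFDerivAt (fun z => ⟪X z - c, X z - c⟫) (0 : Eu n →L[ℝ] ℝ) y := by
    intro y
    refine ((dX y).inner ℝ (dX y)).congr_fderiv ?_
    ext w
    simp only [ContinuousLinearMap.comp_apply, ContinuousLinearMap.prod_apply,
      fderivInnerCLM_apply, _root_.zero_apply]
    rw [h2 y w, real_inner_comm, h2 y w]
    ring
  have h3 : (fun z => ⟪X z - c, X z - c⟫) y = (fun z => ⟪X z - c, X z - c⟫) y' :=
    is_const_of_fderiv_eq_zero (fun z => (dF z).differentiableAt) (fun z => (dF z).fderiv) y y'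
  simp only [real_inner_self_eq_norm_sq] at h3
  exact (sq_eq_sq₀ (norm_nonneg _) (norm_nonneg _)).1 h3

theorem second_nonpos {U : Set (Eu n)} {u : Eu n → ℝ} (hU : IsOpen U) (su : ContDiffOn ℝ ∞ u U)
    {x : Eu n} (hx : x ∈ U) (hmax : IsLocalMax u x) (a : Eu n) :
    fderiv ℝ (fderiv ℝ u) x a a ≤ 0 := by
  have hc : Continuous fun t : ℝ => x + t • a := by fun_prop
  have hx0 : x + (0 : ℝ) • a = x := by simp
  have h0 : Tendsto (fun t : ℝ => x + t • a) (𝓝 0) (𝓝 x) := by
    have := hc.tendsto 0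
    rwa [hx0] at this
  set φ : ℝ → ℝ := fun t => u (x + t • a) with hφ
  have hmaxφ : IsLocalMax φ 0 := by
    have : ∀ᶠ t in 𝓝 (0 : ℝ), u (x + t • a) ≤ u x := h0.eventually hmax
    filter_upwards [this] with t ht
    show u (x + t • a) ≤ u (x + (0 : ℝ) • a)
    rwa [hx0]
  have hdd : deriv (deriv φ) 0 = fderiv ℝ (fderiv ℝ u) x a a := dd_eq hU su hx a
  rw [← hdd]
  by_contra hcon
  push Not at hcon
  have hd : deriv φ 0 = 0 := hmaxφ.deriv_eq_zero
  have hcφ : ContinuousAt φ 0 := by
    have h1 : ContinuousAt u (x + (0 : ℝ) • a) := by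
      rw [hx0]
      exact (diffAt hU su hx).continuousAt
    exact ContinuousAt.comp (f := fun t : ℝ => x + t • a) h1 hc.continuousAt
  have hmin := isLocalMin_of_deriv_deriv_pos hcon hd hcφ
  have hconst : φ =ᶠ[𝓝 0] fun _ => φ 0 := by
    filter_upwards [hmaxφ, hmin] with t h1 h2
    exact le_antisymm h1 h2
  have h3 : deriv φ =ᶠ[𝓝 0] fun _ => 0 := by
    have := hconst.deriv
    refine this.trans ?_
    filter_upwards with t
    simp
  rw [h3.deriv_eq] at hcon
  simp at hcon

/-- the Laplacian at a maximum -/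
theorem lap_nonneg_of_max {X : Eu n → Eu m} {U : Set (Eu n)} (h : Imm X U) {u : Eu n → ℝ}
    (su : ContDiffOn ℝ ∞ u U) {x : Eu n} (hx : x ∈ U) (hmax : IsLocalMax u x) :
    0 ≤ lap X u x := by
  have hd : fderiv ℝ u x = 0 := hmax.fderiv_eq_zero
  rw [h.lap_eq su hx, hd]
  simp only [_root_.zero_apply, smul_eq_mul, mul_zero, Finset.sum_const_zero, add_zero]
  set T := fderiv ℝ (fderiv ℝ u) x with hT
  set w : Fin m → Eu n := fun c => ∑ i, (phi X i x) c • ee i with hw
  have h1 : ∑ i, ∑ j, ⟪phi X i x, phi X j x⟫ * T (ee i) (ee j) = ∑ c, T (w c) (w c) := by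
    have e1 : ∀ c, T (w c) (w c) =
        ∑ i, ∑ j, ((phi X i x) c * (phi X j x) c) * T (ee i) (ee j) := by
      intro c
      rw [hw]
      simp only [map_sum, map_smul, _root_.sum_apply, _root_.smul_apply, smul_eq_mul,
        Finset.mul_sum]
      rw [Finset.sum_comm]
      refine Finset.sum_congr rfl fun i _ => Finset.sum_congr rfl fun j _ => ?_
      ring
    simp only [e1]
    rw [Finset.sum_comm]
    have e2 : ∀ (S : Fin n → Fin n → Fin m → ℝ), ∑ j, ∑ i, ∑ c, S i j c =
        ∑ c, ∑ i, ∑ j, S i j c := by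
      intro S
      rw [Finset.sum_comm' (s := Finset.univ) (t := fun _ => Finset.univ)
        (s' := fun _ => Finset.univ) (t' := Finset.univ) (by simp)]
      calc ∑ i, ∑ j, ∑ c, S i j c = ∑ i, ∑ c, ∑ j, S i j c :=
            Finset.sum_congr rfl fun i _ => Finset.sum_comm
        _ = _ := Finset.sum_comm
    rw [← e2]
    refine Finset.sum_congr rfl fun j _ => Finset.sum_congr rfl fun i _ => ?_
    rw [inner_eq_sum, Finset.sum_mul]
  rw [h1]
  have h2 : ∑ c, T (w c) (w c) ≤ 0 :=
    Finset.sum_nonpos fun c _ => second_nonpos h.hU su hx hmax (w c)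
  linarith

end

section mfd

variable {n : ℕ} {M : Type*} [TopologicalSpace M] [ChartedSpace (Eu n) M]

theorem max_value [CompactSpace M] {x u : M → Eu (n + 1)} (hx : IsImmersion n x)
    {μ : ℝ} (hu : IsEigenmap n x u μ) (hμ : μ < 0) (ε : ℝ) (a : Fin (n + 1)) (p : M)
    (hp : ∀ q, ε * u q a ≤ ε * u p a) : ε * u p a ≤ 0 := by
  set e := chartAt (Eu n) p with he
  have hea : e ∈ atlas (Eu n) M := chart_mem_atlas (Eu n) p
  have hi := imm_of_chart hx hea
  have hs := hu.1 e hea
  have hps : p ∈ e.source := mem_chart_source (Eu n) p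
  have hb : e.symm (e p) = p := e.left_inv hps
  have het : e p ∈ e.target := e.map_source hps
  have su : ContDiffOn ℝ ∞ (fun y => (u ∘ e.symm) y a) e.target :=
    (EuclideanSpace.proj (𝕜 := ℝ) a).contDiff.comp_contDiffOn hs
  have sεu : ContDiffOn ℝ ∞ (fun y => ε * (u ∘ e.symm) y a) e.target := contDiffOn_const.mul su
  have hmax : IsLocalMax (fun y => ε * (u ∘ e.symm) y a) (e p) := by
    refine Filter.Eventually.of_forall fun y => ?_
    show ε * u (e.symm y) a ≤ ε * u (e.symm (e p)) a
    rw [hb]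
    exact hp _
  have h1 := lap_nonneg_of_max hi sεu het hmax
  have h2 : lap (x ∘ e.symm) (fun y => ε * (u ∘ e.symm) y a) (e p) = μ * (ε * u p a) := by
    have h3 := lap_lin hi (Finset.univ : Finset (Fin 1)) (fun _ => su) het (fun _ => ε)
    simp only [Finset.univ_unique, Finset.sum_singleton, smul_eq_mul] at h3
    rw [h3, lap_component hi hs a het, hu.2 e hea (e p) het, hb]
    show ε * (μ * u p a) = _
    ring
  rw [h2] at h1
  by_contra hcon
  push Not at hcon
  have := mul_neg_of_neg_of_pos hμ hcon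
  linarith

/-- the eigenvalues are positive -/
theorem eigenvalue_pos [CompactSpace M] [ConnectedSpace M] {x u : M → Eu (n + 1)}
    (hx : IsImmersion n x) {μ : ℝ} (hu : IsEigenmap n x u μ) (hne : ∃ p q, u p ≠ u q) :
    0 < μ := by
  have h0 := eigenvalue_ne_zero hx hu hne
  by_contra hcon
  have hμ : μ < 0 := lt_of_le_of_ne (not_lt.1 hcon) h0
  have hz : ∀ p a, u p a = 0 := by
    intro p a
    have hc : Continuous fun p => u p a :=
      (EuclideanSpace.proj (𝕜 := ℝ) a).continuous.comp hu.1.continuous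
    obtain ⟨p1, -, hp1⟩ := isCompact_univ.exists_isMaxOn univ_nonempty hc.continuousOn
    obtain ⟨p2, -, hp2⟩ := isCompact_univ.exists_isMinOn univ_nonempty hc.continuousOn
    have m1 : ∀ q, u q a ≤ u p1 a := fun q => hp1 (mem_univ q)
    have m2 : ∀ q, u p2 a ≤ u q a := fun q => hp2 (mem_univ q)
    have k1 := max_value hx hu hμ 1 a p1 (fun q => by have := m1 q; linarith)
    have k2 := max_value hx hu hμ (-1) a p2 (fun q => by have := m2 q; linarith)
    have := m1 p
    have := m2 p
    linarith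
  obtain ⟨p, q, hpq⟩ := hne
  apply hpq
  ext a
  rw [hz p a, hz q a]

end mfd

end Run7.h978
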