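import Mathlib
import Pool.Agent.Run7.h978.Geo7

set_option autoImplicit false

/-!
The assembly on the sphere.
-/

open Set Filter Topology Matrix Module
open scoped RealInnerProductSpace ContDiff Manifold
open Helper772Chen (ee diffAt sm_fderiv symm2 fd_congr fd_apply_const sm_apply_const fd_inner
  sm_inner)

namespace Run7.h978

section sphere

variable {N : ℕ}

/-- the unit sphere -/
abbrev Sph (n : ℕ) := Metric.sphere (0 : Eu (n + 1)) 1

/-- the axis -/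
noncomputable def axv (n : ℕ) : Eu (n + 1) := EuclideanSpace.single 0 1

theorem norm_axv (n : ℕ) : ‖axv n‖ = 1 := by
  rw [axv]
  simp

/-- the stereographic chart -/
theorem sphere_chart (N : ℕ) : ∃ (e : OpenPartialHomeomorph (Sph (N + 1)) (Eu (N + 1)))
    (Λ : Eu (N + 1) →ₗᵢ[ℝ] Eu (N + 1 + 1)) (v : Sph (N + 1)),
    e ∈ atlas (Eu (N + 1)) (Sph (N + 1)) ∧ e.target = univ ∧ e.source = {v}ᶜ ∧
    Axis Λ (axv (N + 1)) ∧ (∀ w, ⟪w, axv (N + 1)⟫ = 0 → ∃ y, Λ y = w) ∧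
    ∀ y, (e.symm y : Eu (N + 1 + 1)) = (‖y‖ ^ 2 + 4)⁻¹ • (4 : ℝ) • Λ y +
      (‖y‖ ^ 2 + 4)⁻¹ • (‖y‖ ^ 2 - 4) • axv (N + 1) := by
  have := Fact.mk (@finrank_euclideanSpace_fin ℝ _ (N + 1 + 1))
  set v : Sph (N + 1) := ⟨axv (N + 1), by simp [norm_axv]⟩ with hv
  let U : (ℝ ∙ (v : Eu (N + 1 + 1)))ᗮ ≃ₗᵢ[ℝ] Eu (N + 1) :=
    (OrthonormalBasis.fromOrthogonalSpanSingleton (N + 1) (ne_zero_of_mem_unit_sphere v)).repr
  let Λ : Eu (N + 1) →ₗᵢ[ℝ] Eu (N + 1 + 1) :=
    (ℝ ∙ (v : Eu (N + 1 + 1)))ᗮ.subtypeₗᵢ.comp U.symm.toLinearIsometry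
  have hΛ : ∀ y, Λ y = (U.symm y : Eu (N + 1 + 1)) := fun y => rfl
  refine ⟨stereographic' (N + 1) v, Λ, v, ⟨v, rfl⟩, stereographic'_target v,
    stereographic'_source v, ⟨?_, fun y => ?_⟩, fun w hw => ?_, fun y => ?_⟩
  · rw [real_inner_self_eq_norm_sq, norm_axv, one_pow]
  · rw [hΛ]
    have h1 := (U.symm y).2
    rw [Submodule.mem_orthogonal_singleton_iff_inner_left] at h1
    exact h1
  · have h1 : w ∈ (ℝ ∙ (v : Eu (N + 1 + 1)))ᗮ := by
      rw [Submodule.mem_orthogonal_singleton_iff_inner_left]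
      exact hw
    refine ⟨U ⟨w, h1⟩, ?_⟩
    rw [hΛ, U.symm_apply_apply]
  · rw [stereographic'_symm_apply]
    have h1 : ‖(U.symm y : Eu (N + 1 + 1))‖ = ‖y‖ := Λ.norm_map y
    show (‖(U.symm y : Eu (N + 1 + 1))‖ ^ 2 + 4)⁻¹ • (4 : ℝ) • (U.symm y : Eu (N + 1 + 1)) +
        (‖(U.symm y : Eu (N + 1 + 1))‖ ^ 2 + 4)⁻¹ • (‖(U.symm y : Eu (N + 1 + 1))‖ ^ 2 - 4) •
          (v : Eu (N + 1 + 1)) = _
    rw [h1]
    rfl

theorem sph_connected (n : ℕ) (hn : 1 ≤ n) : ConnectedSpace (Sph n) := by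
  have h1 : 1 < Module.rank ℝ (Eu (n + 1)) := by
    rw [← Module.finrank_eq_rank, finrank_euclideanSpace_fin]
    exact_mod_cast (by omega : 1 < n + 1)
  exact isConnected_iff_connectedSpace.1 (isConnected_sphere h1 0 zero_le_one)

theorem sph_nontrivial (n : ℕ) : Nontrivial (Sph n) := by
  refine ⟨⟨axv n, by simp [norm_axv]⟩, ⟨-axv n, by simp [norm_axv]⟩, fun h => ?_⟩
  have h1 : axv n = -axv n := congrArg Subtype.val h
  have h2 : axv n = 0 := by
    have h4 : (2 : ℝ) • axv n = 0 := by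
      rw [two_smul]
      nth_rewrite 1 [h1]
      simp
    exact (smul_eq_zero.1 h4).resolve_left (by norm_num)
  have h3 := norm_axv n
  rw [h2, norm_zero] at h3
  norm_num at h3

/-- the spherical form of the theorem -/
theorem rot_spherical {N : ℕ} (hN : 1 ≤ N) {x : Sph (N + 1) → Eu (N + 1 + 1)}
    (hx : IsImmersion (N + 1) x)
    (hr : ∀ A : Eu (N + 1 + 1) ≃ₗᵢ[ℝ] Eu (N + 1 + 1), A (axv (N + 1)) = axv (N + 1) →
      ∀ p q : Sph (N + 1), (q : Eu (N + 1 + 1)) = A p → x q = A (x p))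
    {k : ℕ} {c : Eu (N + 1 + 1)} {u : Fin k → Sph (N + 1) → Eu (N + 1 + 1)} {μ : Fin k → ℝ}
    (hsum : ∀ p, x p = c + ∑ i, u i p) (hei : ∀ i, IsEigenmap (N + 1) x (u i) (μ i))
    (hne : ∀ i, ∃ p q, u i p ≠ u i q) (hk : 2 ≤ N ∨ ∀ i j, 3 / 8 * μ j < μ i) :
    ∃ c : Eu (N + 1 + 1), ∀ p q, ‖x p - c‖ = ‖x q - c‖ := by
  classical
  have := sph_connected (N + 1) (by omega)
  have := sph_nontrivial (N + 1)
  obtain ⟨e, Λ, v, hea, het, hes, ax, hsurj, hsymm⟩ := sphere_chart N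
  have hi := imm_of_chart hx hea
  rw [het] at hi
  set X : Eu (N + 1) → Eu (N + 1 + 1) := x ∘ e.symm with hXdef
  have hX : ∀ a y, X (rf a y) = rf (Λ a) (X y) := by
    intro a y
    refine hr (rf (Λ a)) (rf_axis ax a) (e.symm y) (e.symm (rf a y)) ?_
    rw [hsymm, hsymm, LinearIsometryEquiv.norm_map]
    simp only [map_add, map_smul, rf_map, rf_axis ax]
  have su : ∀ i, ContDiff ℝ ∞ (u i ∘ e.symm) := by
    intro i
    have := (hei i).1 e hea
    rw [het] at this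
    exact contDiffOn_univ.1 this
  let κ : Type := {r : ℝ // r ∈ Finset.univ.image μ}
  letI : Fintype κ := Finset.Subtype.fintype (Finset.univ.image μ)
  let ν : κ → ℝ := fun r => r.1
  let W : κ → Eu (N + 1) → Eu (N + 1 + 1) := fun r y => ∑ i with μ i = r.1, (u i ∘ e.symm) y
  have hνpos : ∀ r, 0 < ν r := by
    rintro ⟨r, hr⟩
    obtain ⟨i, -, hi⟩ := Finset.mem_image.1 hr
    show 0 < r
    rw [← hi]
    exact eigenvalue_pos hx (hei i) (hne i)
  have sW : ∀ r, ContDiff ℝ ∞ (W r) := fun r => ContDiff.sum fun i _ => su i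
  have hW : ∀ r y, lap X (W r) y = ν r • W r y := by
    intro r y
    have h1 := lap_lin hi (Finset.univ.filter fun i => μ i = r.1)
      (fun i => (su i).contDiffOn) (mem_univ y) (fun _ => (1 : ℝ))
    simp only [one_smul] at h1
    show lap X (fun y => ∑ i with μ i = r.1, (u i ∘ e.symm) y) y =
      r.1 • ∑ i with μ i = r.1, (u i ∘ e.symm) y
    rw [h1, Finset.smul_sum]
    refine Finset.sum_congr rfl fun i hi => ?_
    rw [(hei i).2 e hea y (by rw [het]; exact mem_univ y), (Finset.mem_filter.1 hi).2]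
    rfl
  have hsumW : ∀ y, X y = c + ∑ r, W r y := by
    intro y
    show x (e.symm y) = _
    rw [hsum]
    congr 1
    show _ = ∑ r : κ, ∑ i with μ i = r.1, (u i ∘ e.symm) y
    rw [Finset.sum_coe_sort (Finset.univ.image μ)
      (fun r => ∑ i with μ i = r, (u i ∘ e.symm) y)]
    exact (Finset.sum_fiberwise_of_maps_to
      (fun i _ => Finset.mem_image_of_mem μ (Finset.mem_univ i)) _).symm
  have hkκ : 2 ≤ N ∨ ∀ r r', 3 / 8 * ν r' < ν r := by
    rcases hk with h | h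
    · exact Or.inl h
    · refine Or.inr ?_
      rintro ⟨r, hr⟩ ⟨r', hr'⟩
      obtain ⟨i, -, hi⟩ := Finset.mem_image.1 hr
      obtain ⟨j, -, hj⟩ := Finset.mem_image.1 hr'
      show 3 / 8 * r' < r
      rw [← hi, ← hj]
      exact h i j
  obtain ⟨r0, hr0⟩ := chart_main hN ax hsurj hi hX sW hνpos Subtype.val_injective hW hsumW hkκ
  have hsph := spherical hi (sW r0) (hνpos r0).ne' (hW r0) hr0
  refine ⟨c, fun p q => ?_⟩
  have hxc : Continuous x := hx.1.continuous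
  have h0 : (fun p => ‖x p - c‖) = fun _ => ‖X 0 - c‖ := by
    refine Continuous.ext_on (dense_compl_singleton v) (by fun_prop) continuous_const
      fun p hp => ?_
    have hps : p ∈ e.source := by rw [hes]; exact hp
    have := hsph (e p) 0
    rw [← this]
    show ‖x p - c‖ = ‖x (e.symm (e p)) - c‖
    rw [e.left_inv hps]
  have h1 := congrFun h0 p
  have h2 := congrFun h0 q
  exact h1.trans h2.symm

end sphere

end Run7.h978
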