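import Mathlib
import Pool.Agent.Run7.h978.Geo8

set_option autoImplicit false

/-!
The image of a compact spherical hypersurface.
-/

open Set Filter Topology Matrix Module
open scoped RealInnerProductSpace ContDiff Manifold
open Helper772Chen (ee diffAt sm_fderiv symm2 fd_congr fd_apply_const sm_apply_const fd_inner
  sm_inner)

namespace Run7.h978

section mfd

variable {n : ℕ} {M : Type*} [TopologicalSpace M] [ChartedSpace (Eu n) M]

/-- two vectors orthogonal to a hyperplane -/
theorem parallel {L : Eu n →L[ℝ] Eu (n + 1)} (hL : Function.Injective L) {a b : Eu (n + 1)}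
    (ha : a ≠ 0) (h1 : ∀ w, ⟪L w, a⟫ = 0) (h2 : ∀ w, ⟪L w, b⟫ = 0) : ∃ t : ℝ, b = t • a := by
  set V : Submodule ℝ (Eu (n + 1)) := LinearMap.range L.toLinearMap with hV
  have hf : finrank ℝ V = n := by
    rw [hV, LinearMap.finrank_range_of_inj hL, finrank_euclideanSpace_fin]
  have h3 := V.finrank_add_finrank_orthogonal
  rw [hf, finrank_euclideanSpace_fin] at h3
  have hf' : finrank ℝ Vᗮ = 1 := by omega
  have ha' : a ∈ Vᗮ := by
    rw [Submodule.mem_orthogonal]
    rintro _ ⟨w, rfl⟩
    exact h1 w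
  have hb' : b ∈ Vᗮ := by
    rw [Submodule.mem_orthogonal]
    rintro _ ⟨w, rfl⟩
    exact h2 w
  have h4 : (⟨a, ha'⟩ : Vᗮ) ≠ 0 := fun h => ha (congrArg Subtype.val h)
  obtain ⟨t, ht⟩ := (finrank_eq_one_iff_of_nonzero' _ h4).1 hf' ⟨b, hb'⟩
  exact ⟨t, (congrArg Subtype.val ht).symm⟩

/-- the image of a compact spherical hypersurface is the sphere -/
theorem range_sphere [CompactSpace M] [Nonempty M] (hn : 1 ≤ n) {x : M → Eu (n + 1)}
    (hx : IsImmersion n x) {c : Eu (n + 1)} (hc : ∀ p q, ‖x p - c‖ = ‖x q - c‖) :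
    ∃ R : ℝ, 0 < R ∧ Set.range x = Metric.sphere c R := by
  obtain ⟨p0⟩ := ‹Nonempty M›
  have hxc : Continuous x := hx.1.continuous
  -- the orthogonality of the position vector
  have horth : ∀ p : M, ∀ w, ⟪fderiv ℝ (x ∘ (chartAt (Eu n) p).symm) (chartAt (Eu n) p p) w,
      x p - c⟫ = 0 := by
    intro p w
    set e := chartAt (Eu n) p with he
    have hea : e ∈ atlas (Eu n) M := chart_mem_atlas (Eu n) p
    have hps : p ∈ e.source := mem_chart_source (Eu n) p
    have het : e p ∈ e.target := e.map_source hps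
    have hb : e.symm (e p) = p := e.left_inv hps
    have hd := diffAt e.open_target (hx.1 e hea) het
    have h1 : HasFDerivAt (fun y => ‖(x ∘ e.symm) y - c‖ ^ 2)
        (2 • (innerSL ℝ ((x ∘ e.symm) (e p) - c)).comp (fderiv ℝ (x ∘ e.symm) (e p))) (e p) :=
      (hd.hasFDerivAt.sub_const c).norm_sq
    have h2 : (fun y => ‖(x ∘ e.symm) y - c‖ ^ 2) = fun _ => ‖x p0 - c‖ ^ 2 := by
      funext y
      show ‖x (e.symm y) - c‖ ^ 2 = _
      rw [hc (e.symm y) p0]
    rw [h2] at h1
    have h3 := h1.unique (hasFDerivAt_const _ _)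
    have h4 := congrArg (fun L : Eu n →L[ℝ] ℝ => L w) h3
    have h5 : 2 * ⟪(x ∘ e.symm) (e p) - c, fderiv ℝ (x ∘ e.symm) (e p) w⟫ = 0 := by
      simpa [inner_sub_left] using h4
    have h6 : (x ∘ e.symm) (e p) = x p := congrArg x hb
    rw [h6] at h5
    rw [real_inner_comm]
    linarith
  have hR : 0 < ‖x p0 - c‖ := by
    rw [norm_pos_iff]
    intro h0
    have hxc0 : ∀ p, x p = c := by
      intro p
      have := hc p p0
      rw [h0, norm_zero, norm_eq_zero] at this
      exact sub_eq_zero.1 this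
    set e := chartAt (Eu n) p0 with he
    have hps : p0 ∈ e.source := mem_chart_source (Eu n) p0
    have h1 := hx.2 e (chart_mem_atlas (Eu n) p0) (e p0) (e.map_source hps)
    have h2 : x ∘ e.symm = fun _ => c := funext fun y => hxc0 _
    rw [h2, fderiv_fun_const] at h1
    have h3 : (EuclideanSpace.single ⟨0, hn⟩ (1 : ℝ) : Eu n) = 0 := h1 (by simp)
    have h4 : ‖(EuclideanSpace.single ⟨0, hn⟩ (1 : ℝ) : Eu n)‖ = 1 := by simp
    rw [h3, norm_zero] at h4
    norm_num at h4
  refine ⟨‖x p0 - c‖, hR, Subset.antisymm ?_ ?_⟩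
  · rintro _ ⟨p, rfl⟩
    rw [mem_sphere_iff_norm]
    exact hc p p0
  · intro q hq
    rw [mem_sphere_iff_norm] at hq
    have hcont : Continuous fun p => ⟪x p - c, q - c⟫ := by fun_prop
    obtain ⟨p1, -, hp1⟩ := isCompact_univ.exists_isMaxOn (univ_nonempty (α := M))
      hcont.continuousOn
    have m1 : ∀ p, ⟪x p - c, q - c⟫ ≤ ⟪x p1 - c, q - c⟫ := fun p => hp1 (mem_univ p)
    set e := chartAt (Eu n) p1 with he
    have hea : e ∈ atlas (Eu n) M := chart_mem_atlas (Eu n) p1
    have hps : p1 ∈ e.source := mem_chart_source (Eu n) p1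
    have het : e p1 ∈ e.target := e.map_source hps
    have hb : e.symm (e p1) = p1 := e.left_inv hps
    have hd := diffAt e.open_target (hx.1 e hea) het
    have hinj := hx.2 e hea (e p1) het
    have hmax : IsLocalMax (fun y => ⟪(x ∘ e.symm) y - c, q - c⟫) (e p1) := by
      refine Filter.Eventually.of_forall fun y => ?_
      show ⟪x (e.symm y) - c, q - c⟫ ≤ ⟪x (e.symm (e p1)) - c, q - c⟫
      rw [hb]
      exact m1 _
    have h2 : ∀ w, ⟪fderiv ℝ (x ∘ e.symm) (e p1) w, q - c⟫ = 0 := by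
      intro w
      have h3 : HasFDerivAt (fun y => ⟪(x ∘ e.symm) y - c, q - c⟫)
          ((fderivInnerCLM ℝ ((x ∘ e.symm) (e p1) - c, q - c)).comp
            ((fderiv ℝ (x ∘ e.symm) (e p1)).prod 0)) (e p1) :=
        (hd.hasFDerivAt.sub_const c).inner ℝ (hasFDerivAt_const (q - c) (e p1))
      have h4 := hmax.hasFDerivAt_eq_zero h3
      have h5 := congrArg (fun L : Eu n →L[ℝ] ℝ => L w) h4
      simpa [fderivInnerCLM_apply] using h5
    have hp1R : ‖x p1 - c‖ = ‖x p0 - c‖ := hc p1 p0
    have hne1 : x p1 - c ≠ 0 := by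
      rw [← norm_pos_iff, hp1R]
      exact hR
    obtain ⟨t, ht⟩ := parallel hinj hne1 (horth p1) h2
    have ht1 : |t| = 1 := by
      have h3 := congrArg norm ht
      rw [hq, norm_smul, hp1R, Real.norm_eq_abs] at h3
      exact mul_right_cancel₀ hR.ne' (by rw [← h3, one_mul])
    rcases (abs_eq zero_le_one).1 ht1 with h3 | h3
    · refine ⟨p1, ?_⟩
      rw [h3, one_smul] at ht
      exact (sub_left_inj.1 ht).symm
    · exfalso
      rw [h3, neg_smul, one_smul] at ht
      have h4 : ∀ p, x p = x p1 := by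
        intro p
        have h5 := m1 p
        rw [ht, inner_neg_right, inner_neg_right] at h5
        have h6 : ‖x p - c - (x p1 - c)‖ ^ 2 ≤ 0 := by
          rw [norm_sub_sq_real, hc p p1]
          rw [real_inner_self_eq_norm_sq] at h5
          linarith
        have h7 : ‖x p - c - (x p1 - c)‖ = 0 := by
          have := sq_nonneg ‖x p - c - (x p1 - c)‖
          exact pow_eq_zero_iff (two_ne_zero) |>.1 (le_antisymm h6 this)
        rw [norm_eq_zero, sub_sub_sub_cancel_right, sub_eq_zero] at h7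
        exact h7
      have h2' : x ∘ e.symm = fun _ => x p1 := funext fun y => h4 _
      rw [h2', fderiv_fun_const] at hinj
      have h3' : (EuclideanSpace.single ⟨0, hn⟩ (1 : ℝ) : Eu n) = 0 := hinj (by simp)
      have h4' : ‖(EuclideanSpace.single ⟨0, hn⟩ (1 : ℝ) : Eu n)‖ = 1 := by simp
      rw [h3', norm_zero] at h4'
      norm_num at h4'

end mfd

end Run7.h978
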