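import Mathlib
import Pool.Agent.Run7.h978.Asy6

set_option autoImplicit false

/-!
Modes of small growth.
-/

open Set Filter Topology

namespace Run7.h978.Rot

/-- `A' = c - p A`, `A > 0`, `p → p0 ≤ 0`: then `A → ∞` -/
theorem ode_top {A p : ℝ → ℝ} {c p0 : ℝ} (hc : 0 < c)
    (hA : ∀ᶠ t in atTop, HasDerivAt A (c - p t * A t) t) (hpos : ∀ᶠ t in atTop, 0 < A t)
    (hp : Tendsto p atTop (𝓝 p0)) (hp0 : p0 ≤ 0) : Tendsto A atTop atTop := by
  rw [tendsto_atTop]
  intro M
  set M1 : ℝ := max M 1 with hM1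
  have hM1p : 0 < M1 := lt_of_lt_of_le one_pos (le_max_right _ _)
  set ε : ℝ := c / (2 * M1) with hε
  have hεp : 0 < ε := by positivity
  obtain ⟨T, hT⟩ := eventually_atTop.1 ((hA.and hpos).and
    (hp.eventually (gt_mem_nhds (lt_of_le_of_lt hp0 hεp))))
  have hmono : ∀ t, T ≤ t → A T * Real.exp (ε * T) - c / ε * Real.exp (ε * T) ≤
      A t * Real.exp (ε * t) - c / ε * Real.exp (ε * t) := by
    intro t ht
    refine mono_ge (f := fun t => A t * Real.exp (ε * t) - c / ε * Real.exp (ε * t))
      (f' := fun t => ((c - p t * A t) * Real.exp (ε * t) +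
        A t * (Real.exp (ε * t) * (ε * 1))) - c / ε * (Real.exp (ε * t) * (ε * 1)))
      (fun x hx => ?_) (fun x hx => ?_) ht
    · have h1 : HasDerivAt (fun t => Real.exp (ε * t)) (Real.exp (ε * x) * (ε * 1)) x :=
        ((hasDerivAt_id x).const_mul ε).exp
      exact ((hT x hx).1.1.mul h1).sub (h1.const_mul _)
    · have h2 := (hT x hx).1.2
      have h3 := (hT x hx).2
      have h4 := Real.exp_pos (ε * x)
      have h5 : ((c - p x * A x) * Real.exp (ε * x) +
          A x * (Real.exp (ε * x) * (ε * 1))) - c / ε * (Real.exp (ε * x) * (ε * 1)) =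
          (ε - p x) * A x * Real.exp (ε * x) := by
        field_simp
        ring
      rw [h5]
      have h6 : 0 < ε - p x := by linarith
      positivity
  have hdec : Tendsto (fun t : ℝ => Real.exp (ε * (T - t))) atTop (𝓝 0) := by
    refine Real.tendsto_exp_atBot.comp ?_
    have h1 : Tendsto (fun t : ℝ => T - t) atTop atBot :=
      tendsto_atBot_add_const_left _ T tendsto_neg_atTop_atBot |>.congr fun t => by ring
    exact h1.const_mul_atBot hεp
  have h1 : ∀ᶠ t in atTop, Real.exp (ε * (T - t)) < 1 / 2 :=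
    hdec.eventually (gt_mem_nhds (by norm_num))
  filter_upwards [h1, eventually_ge_atTop T] with t h2 h3
  have h4 := hmono t h3
  have h5 := (hT T le_rfl).1.2
  have h6 := Real.exp_pos (ε * t)
  have h7 : Real.exp (ε * T) = Real.exp (ε * (T - t)) * Real.exp (ε * t) := by
    rw [← Real.exp_add]
    congr 1
    ring
  have h8 : c / ε = 2 * M1 := by
    rw [hε]
    field_simp
  rw [h8] at h4
  have h9 : 0 < A T * Real.exp (ε * T) := by positivity
  have h10 : 2 * M1 * Real.exp (ε * T) ≤ M1 * Real.exp (ε * t) := by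
    rw [h7]
    have : Real.exp (ε * (T - t)) * Real.exp (ε * t) ≤ 1 / 2 * Real.exp (ε * t) := by
      gcongr
    nlinarith
  have h11 : M1 * Real.exp (ε * t) ≤ A t * Real.exp (ε * t) := by linarith
  have h12 : M1 ≤ A t := le_of_mul_le_mul_right h11 h6
  exact (le_max_left _ _).trans h12

section

variable {ι : Type} [Fintype ι]

namespace WS

variable {N : ℕ} {lam a d : ι → ℝ} {P P1 U U1 : ι → ℝ → ℝ} (w : WS N lam a d P P1 U U1)
  {m : ι} (ham : a m ≠ 0) (hm : ∀ i, a i ≠ 0 → i ≠ m → lam i < lam m) (hlm : lam m = N + 1)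
include w ham hm hlm

/-- `P_i / φ` is bounded, so `q P_i → 0` -/
theorem lim_qP {i : ι} (hi : a i ≠ 0) : Tendsto (fun t => qq a P t * P i t) atTop (𝓝 0) := by
  classical
  have hth : Tendsto (th a P i) atTop (𝓝 (if i = m then 1 else 0)) := by
    by_cases him : i = m
    · rw [if_pos him, him]
      exact w.lim_th_m ham hm
    · rw [if_neg him]
      exact w.lim_th ham hm him
  have h1 := (hth.mul w.ph_atTop.inv_tendsto_atTop).const_mul (a i)⁻¹
  rw [mul_zero, mul_zero] at h1
  refine h1.congr' ?_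
  filter_upwards [eventually_gt_atTop 0] with t ht
  have e1 := (w.posph t ht).ne'
  simp only [Pi.inv_apply]
  rw [th, qq]
  field_simp

/-- `P_i δ_i → 0` -/
theorem lim_Pdel {i : ι} (hi : a i ≠ 0) :
    Tendsto (fun t => P i t * (rr P P1 i t - rr U U1 i t)) atTop (𝓝 0) := by
  have hαp := alpha_pos (N := N) (w.lampos i)
  have hS := w.lim_S ham hm hlm i
  have hh := w.lim_h ham hm hlm
  have hp : Tendsto (fun t => rr U U1 i t + N * Run7.h978.Rot.hh a P P1 t) atTop
      (𝓝 (alpha N (lam i) + N * 1)) := hS.add (hh.const_mul _)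
  have hN0 : (0 : ℝ) ≤ N := by positivity
  refine ode_zero (p := fun t => rr U U1 i t + N * Run7.h978.Rot.hh a P P1 t)
    (b := fun t => N * (qq a P t * P i t)) (half_pos hαp) ?_ ?_ ?_
  · filter_upwards [eventually_gt_atTop 0] with t ht
    refine ((w.dP i t ht).mul (w.d_del i ht)).congr_deriv ?_
    have e1 := (w.posP i t ht).ne'
    have e2 : P1 i t = P i t * rr P P1 i t := by
      rw [rr]
      field_simp
    rw [e2]
    ring
  · have h1 : alpha N (lam i) / 2 < alpha N (lam i) + N * 1 := by linarith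
    exact (hp.eventually (lt_mem_nhds h1)).mono fun t ht => ht.le
  · have := (w.lim_qP ham hm hlm hi).const_mul (N : ℝ)
    rwa [mul_zero] at this

theorem lim_del (i : ι) : Tendsto (fun t => rr P P1 i t - rr U U1 i t) atTop (𝓝 0) := by
  have h1 := (w.lim_R ham hm hlm i).sub (w.lim_S ham hm hlm i)
  rwa [sub_self] at h1

section C

variable {C : ℝ} {i : ι} (hC0 : 0 < C) (hC : Tendsto (fun t => P i t / U i t) atTop (𝓝 C))
include hC0 hC

/-- `P_i Q_i → 0` -/
theorem lim_PQ (hi : a i ≠ 0) :
    Tendsto (fun t => P i t * (C * (U i t / P i t) - 1)) atTop (𝓝 0) := by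
  have hαp := alpha_pos (N := N) (w.lampos i)
  have hQ := w.lim_Q ham hm hlm hC0 hC
  have hR := w.lim_R ham hm hlm i
  have h1 : Tendsto (fun t => (C * (U i t / P i t) - 1) / (P i t)⁻¹) atTop (𝓝 0) := by
    refine HasDerivAt.lhopital_zero_atTop
      (f' := fun t => -(rr P P1 i t - rr U U1 i t) * (1 + (C * (U i t / P i t) - 1)))
      (g' := fun t => -P1 i t / P i t ^ 2) ?_ ?_ ?_ hQ
      (w.P_top ham hm hlm i).inv_tendsto_atTop ?_
    · filter_upwards [eventually_gt_atTop 0] with t ht
      exact w.d_Q ht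
    · filter_upwards [eventually_gt_atTop 0] with t ht
      exact (w.dP i t ht).inv (w.posP i t ht).ne'
    · filter_upwards [eventually_gt_atTop 0] with t ht
      have h1 := w.posP i t ht
      have h2 := w.posP1 i t ht
      exact div_ne_zero (neg_ne_zero.2 h2.ne') (pow_ne_zero 2 h1.ne')
    · have h2 := ((w.lim_Pdel ham hm hlm hi).mul (hQ.const_add 1)).div hR hαp.ne'
      rw [zero_mul, zero_div] at h2
      refine h2.congr' ?_
      filter_upwards [eventually_gt_atTop 0] with t ht
      have e1 := (w.posP i t ht).ne'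
      have e2 := (w.posP1 i t ht).ne'
      simp only [Pi.div_apply]
      rw [rr, rr]
      field_simp
  refine h1.congr fun t => ?_
  rw [div_inv_eq_mul, mul_comm]

/-- `P_i' - C U_i' → 0` -/
theorem lim_PCU (hi : a i ≠ 0) : Tendsto (fun t => P1 i t - C * U1 i t) atTop (𝓝 0) := by
  have h1 := (w.lim_Pdel ham hm hlm hi).sub
    ((w.lim_PQ ham hm hlm hC0 hC hi).mul (w.lim_S ham hm hlm i))
  rw [zero_mul, sub_zero] at h1
  refine h1.congr' ?_
  filter_upwards [eventually_gt_atTop 0] with t ht
  have e1 := (w.posP i t ht).ne'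
  have e2 := (w.posU i t ht).ne'
  rw [rr, rr]
  field_simp
  ring

omit hC0 hC in
/-- `δ_i / q → ∞` for small exponents -/
theorem lim_A_top (hN : 1 ≤ N) (hk : 2 * alpha N (lam i) + N - 2 ≤ 0) :
    Tendsto (fun t => (rr P P1 i t - rr U U1 i t) / qq a P t) atTop atTop := by
  have hR := w.lim_R ham hm hlm i
  have hS := w.lim_S ham hm hlm i
  have hh := w.lim_h ham hm hlm
  have hN' : (0 : ℝ) < N := by exact_mod_cast hN
  refine ode_top (p := fun t => rr P P1 i t + rr U U1 i t + (N - 2) * Run7.h978.Rot.hh a P P1 t)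
    (c := N) (p0 := 2 * alpha N (lam i) + N - 2) hN' ?_ ?_ ?_ hk
  · filter_upwards [eventually_gt_atTop 0] with t ht
    have hq := (w.pos_q ht).ne'
    refine ((w.d_del i ht).div (w.d_q ht) hq).congr_deriv ?_
    field_simp
    ring
  · filter_upwards [eventually_gt_atTop 0] with t ht
    exact div_pos (w.pos_del i ht) (w.pos_q ht)
  · have h1 := (hR.add hS).add (hh.const_mul ((N : ℝ) - 2))
    have h2 : alpha N (lam i) + alpha N (lam i) + ((N : ℝ) - 2) * 1 =
        2 * alpha N (lam i) + N - 2 := by ring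
    rw [← h2]
    exact h1

/-- `Q / δ` converges for small exponents -/
theorem lim_Qdel (hN : 1 ≤ N) (hk : 2 * alpha N (lam i) + N - 2 ≤ 0) :
    Tendsto (fun t => (C * (U i t / P i t) - 1) / (rr P P1 i t - rr U U1 i t)) atTop
      (𝓝 (1 / (2 * alpha N (lam i) + N))) := by
  have hαp := alpha_pos (N := N) (w.lampos i)
  have hN' : (0 : ℝ) < N := by exact_mod_cast hN
  have hR := w.lim_R ham hm hlm i
  have hS := w.lim_S ham hm hlm i
  have hh := w.lim_h ham hm hlm
  have hQ := w.lim_Q ham hm hlm hC0 hC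
  have hA := (w.lim_A_top ham hm hlm hN hk).inv_tendsto_atTop
  have hp : Tendsto (fun t => (rr P P1 i t + rr U U1 i t + N * Run7.h978.Rot.hh a P P1 t) -
      N * ((rr P P1 i t - rr U U1 i t) / qq a P t)⁻¹) atTop
      (𝓝 (2 * alpha N (lam i) + N)) := by
    have h1 := ((hR.add hS).add (hh.const_mul (N : ℝ))).sub (hA.const_mul (N : ℝ))
    have h2 : alpha N (lam i) + alpha N (lam i) + (N : ℝ) * 1 - N * 0 =
        2 * alpha N (lam i) + N := by ring
    rw [h2] at h1
    exact h1
  have hpos : 0 < 2 * alpha N (lam i) + N := by positivity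
  refine HasDerivAt.lhopital_zero_atTop
    (f' := fun t => -(rr P P1 i t - rr U U1 i t) * (1 + (C * (U i t / P i t) - 1)))
    (g' := fun t => N * qq a P t - (rr P P1 i t + rr U U1 i t +
      N * Run7.h978.Rot.hh a P P1 t) * (rr P P1 i t - rr U U1 i t)) ?_ ?_ ?_ hQ
    (w.lim_del ham hm hlm i) ?_
  · filter_upwards [eventually_gt_atTop 0] with t ht
    exact w.d_Q ht
  · filter_upwards [eventually_gt_atTop 0] with t ht
    exact w.d_del i ht
  · filter_upwards [eventually_gt_atTop 0, hp.eventually (lt_mem_nhds hpos)] with t ht h1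
    have h2 := w.pos_del i ht
    have h3 := (w.pos_q ht).ne'
    have h4 : N * qq a P t - (rr P P1 i t + rr U U1 i t +
      N * Run7.h978.Rot.hh a P P1 t) * (rr P P1 i t - rr U U1 i t) =
      -((rr P P1 i t + rr U U1 i t + N * Run7.h978.Rot.hh a P P1 t) -
      N * ((rr P P1 i t - rr U U1 i t) / qq a P t)⁻¹) * (rr P P1 i t - rr U U1 i t) := by
      have h5 := h2.ne'
      rw [inv_div]
      field_simp
      ring
    rw [h4]
    exact mul_ne_zero (neg_ne_zero.2 h1.ne') h2.ne'
  · have h1 := (hQ.const_add 1).div hp hpos.ne'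
    rw [add_zero] at h1
    refine h1.congr' ?_
    filter_upwards [eventually_gt_atTop 0, hp.eventually (lt_mem_nhds hpos)] with t ht h1
    have h2 := w.pos_del i ht
    have h3 := (w.pos_q ht).ne'
    have h4 : N * qq a P t - (rr P P1 i t + rr U U1 i t +
      N * Run7.h978.Rot.hh a P P1 t) * (rr P P1 i t - rr U U1 i t) =
      -((rr P P1 i t + rr U U1 i t + N * Run7.h978.Rot.hh a P P1 t) -
      N * ((rr P P1 i t - rr U U1 i t) / qq a P t)⁻¹) * (rr P P1 i t - rr U U1 i t) := by
      have h5 := h2.ne'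
      rw [inv_div]
      field_simp
      ring
    simp only [Pi.div_apply]
    rw [h4]
    have h5 := h2.ne'
    have h6 := h1.ne'
    field_simp

/-- `T / A` converges to a positive number for small exponents -/
theorem lim_TA (hN : 1 ≤ N) (hk : 2 * alpha N (lam i) + N - 2 ≤ 0) :
    Tendsto (fun t => ((rr P P1 i t - C * (U i t / P i t) * rr U U1 i t) / qq a P t) /
      ((rr P P1 i t - rr U U1 i t) / qq a P t)) atTop
      (𝓝 ((alpha N (lam i) + N) / (2 * alpha N (lam i) + N))) := by
  have hαp := alpha_pos (N := N) (w.lampos i)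
  have hN' : (0 : ℝ) < N := by exact_mod_cast hN
  have h1 := ((w.lim_Qdel ham hm hlm hC0 hC hN hk).mul (w.lim_S ham hm hlm i)).const_sub 1
  have h2 : 1 - 1 / (2 * alpha N (lam i) + N) * alpha N (lam i) =
      (alpha N (lam i) + N) / (2 * alpha N (lam i) + N) := by
    have : 2 * alpha N (lam i) + N ≠ 0 := by positivity
    field_simp
    ring
  rw [h2] at h1
  refine h1.congr' ?_
  filter_upwards [eventually_gt_atTop 0] with t ht
  have e1 := (w.pos_del i ht).ne'
  have e2 := (w.pos_q ht).ne'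
  field_simp
  ring

end C

omit ham hm hlm in
/-- the logarithmic derivative of `P_i δ_i / q` -/
theorem d_PA {i : ι} {t : ℝ} (ht : 0 < t) :
    HasDerivAt (fun t => P i t * ((rr P P1 i t - rr U U1 i t) / qq a P t))
      (P i t * ((rr P P1 i t - rr U U1 i t) / qq a P t) *
        (N * ((rr P P1 i t - rr U U1 i t) / qq a P t)⁻¹ - rr U U1 i t -
          (N - 2) * Run7.h978.Rot.hh a P P1 t)) t := by
  have hq := (w.pos_q ht).ne'
  have hδ := (w.pos_del i ht).ne'
  refine ((w.dP i t ht).mul ((w.d_del i ht).div (w.d_q ht) hq)).congr_deriv ?_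
  have e1 := (w.posP i t ht).ne'
  have e2 : P1 i t = P i t * rr P P1 i t := by
    rw [rr]
    field_simp
  rw [e2]
  simp only [Pi.div_apply]
  field_simp
  ring

end WS

end

end Run7.h978.Rot
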