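import Mathlib
import Pool.Agent.Run7.h978.Asy8

set_option autoImplicit false

/-!
The coefficients match without a condition on the exponents, and the contribution of the lower
modes.
-/

open Set Filter Topology

namespace Run7.h978.Rot

section

variable {ι : Type} [Fintype ι]

namespace WS

variable {N : ℕ} {lam a d : ι → ℝ} {P P1 U U1 : ι → ℝ → ℝ} (w : WS N lam a d P P1 U U1)
  {m : ι} (ham : a m ≠ 0) (hm : ∀ i, a i ≠ 0 → i ≠ m → lam i < lam m) (hlm : lam m = N + 1)
include w ham hm hlm

variable {C : ι → ℝ} (hC0 : ∀ i, 0 < C i)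
  (hC : ∀ i, Tendsto (fun t => P i t / U i t) atTop (𝓝 (C i)))
include hC0 hC

/-- the contribution of the modes below the top one -/
theorem rest_lim (hN : 1 ≤ N) (hdm : d m = a m * C m) (hda : ∀ i, d i = a i * C i) {j : ι}
    (haj : a j ≠ 0) (hjm : j ≠ m) (hj : ∀ i, a i ≠ 0 → i ≠ m → i ≠ j → lam i < lam j) :
    ∃ z : ℝ, Tendsto (fun t => (∑ l, th a P l t *
        ((rr P P1 l t - C l * (U l t / P l t) * rr U U1 l t) / qq a P t) - th a P m t *
        ((rr P P1 m t - C m * (U m t / P m t) * rr U U1 m t) / qq a P t)) / th a P j t) atTop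
        (𝓝 z) ∧
      (0 < 2 * alpha N (lam j) + N - 2 →
        z ≠ N / (2 * alpha N (lam j) + N - 2) * (1 - alpha N (lam j) / 2)) := by
  classical
  have hN' : (1 : ℝ) ≤ N := by exact_mod_cast hN
  have hα0 : 0 < alpha N (lam j) := alpha_pos (w.lampos j)
  have hα1 : alpha N (lam j) < 1 := by
    have := alpha_lt (N := N) (w.lampos j).le (hm j haj hjm)
    rwa [hlm, alpha_one] at this
  set α := alpha N (lam j) with hα
  have lR := fun i => w.lim_R ham hm hlm i
  have lS := fun i => w.lim_S ham hm hlm i
  have lh := w.lim_h ham hm hlm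
  have lRm := w.lim_Rm ham hm hlm
  have lSm : Tendsto (rr U U1 m) atTop (𝓝 1) := by
    have := lS m
    rwa [hlm, alpha_one] at this
  have lRj : Tendsto (rr P P1 j) atTop (𝓝 α) := lR j
  set θ : ℝ → ℝ := th a P j with hθ
  have hθ0 : ∀ t, 0 < t → θ t ≠ 0 := by
    intro t ht
    have h1 := w.posph t ht
    have h2 := w.posP j t ht
    rw [hθ, th]
    exact div_ne_zero (mul_ne_zero haj h2.ne') h1.ne'
  have dθ : ∀ t, 0 < t → HasDerivAt θ (θ t * (rr P P1 j t - hh a P P1 t)) t :=
    fun t ht => w.d_th j ht
  have lθ : Tendsto θ atTop (𝓝 0) := w.lim_th ham hm hjm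
  -- ratios of the shares
  have hrat : ∀ l, l ≠ m → l ≠ j → Tendsto (fun t => th a P l t / θ t) atTop (𝓝 0) := by
    intro l hlm' hlj
    by_cases ha : a l = 0
    · have : (fun t => th a P l t / θ t) = fun _ => 0 := by
        funext t
        rw [th, ha]
        simp
      rw [this]
      exact tendsto_const_nhds
    · have h1 := (w.dom (hj l ha hlm' hlj)).const_mul (a l / a j)
      rw [mul_zero] at h1
      refine h1.congr' ?_
      filter_upwards [eventually_gt_atTop 0] with t ht
      have e1 := (w.posph t ht).ne'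
      have e2 := (w.posP j t ht).ne'
      rw [hθ, th, th]
      field_simp
  -- `q / θ → 0`
  have lqθ : Tendsto (fun t => qq a P t / θ t) atTop (𝓝 0) := by
    have h1 := w.ph_atTop.inv_tendsto_atTop.mul
      ((w.P_top ham hm hlm j).inv_tendsto_atTop.const_mul (a j)⁻¹)
    rw [mul_zero, mul_zero] at h1
    refine h1.congr' ?_
    filter_upwards [eventually_gt_atTop 0] with t ht
    have e1 := (w.posph t ht).ne'
    have e2 := (w.posP j t ht).ne'
    simp only [Pi.inv_apply]
    rw [hθ, th, qq]
    field_simp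
  -- `(h - R_m) / θ → α - 1`
  have lg1 : Tendsto (fun t => (hh a P P1 t - rr P P1 m t) / θ t) atTop (𝓝 (α - 1)) := by
    have h1 : ∀ l, Tendsto (fun t => th a P l t / θ t * (rr P P1 l t - rr P P1 m t)) atTop
        (𝓝 (if l = j then α - 1 else 0)) := by
      intro l
      by_cases hlj : l = j
      · subst hlj
        rw [if_pos rfl]
        refine (lRj.sub lRm).congr' ?_
        filter_upwards [eventually_gt_atTop 0] with t ht
        have : th a P l t / θ t = 1 := div_self (hθ0 t ht)
        rw [this, one_mul]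
      · rw [if_neg hlj]
        by_cases hlm' : l = m
        · subst hlm'
          simp
        · have := (hrat l hlm' hlj).mul ((lR l).sub lRm)
          simpa using this
    have h2 := tendsto_finsetSum Finset.univ fun l _ => h1 l
    simp only [Finset.sum_ite_eq', Finset.mem_univ, if_true] at h2
    refine h2.congr' ?_
    filter_upwards [eventually_gt_atTop 0] with t ht
    rw [w.h_sub m ht, Finset.sum_div]
    exact Finset.sum_congr rfl fun l _ => by ring
  -- `(θ_m - 1) / θ → -1`
  have lθm : Tendsto (fun t => (th a P m t - 1) / θ t) atTop (𝓝 (-1)) := by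
    have h1 : ∀ l, Tendsto (fun t => (if l = m then 0 else th a P l t / θ t)) atTop
        (𝓝 (if l = j then 1 else 0)) := by
      intro l
      by_cases hlm' : l = m
      · subst hlm'
        rw [if_neg (Ne.symm hjm)]
        simp
      · simp only [if_neg hlm']
        by_cases hlj : l = j
        · subst hlj
          rw [if_pos rfl]
          refine tendsto_const_nhds.congr' ?_
          filter_upwards [eventually_gt_atTop 0] with t ht
          exact (div_self (hθ0 t ht)).symm
        · rw [if_neg hlj]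
          exact hrat l hlm' hlj
    have h2 := (tendsto_finsetSum Finset.univ fun l _ => h1 l).neg
    simp only [Finset.sum_ite_eq', Finset.mem_univ, if_true] at h2
    refine h2.congr' ?_
    filter_upwards [eventually_gt_atTop 0] with t ht
    have h3 := w.sum_th ht
    have h4 : ∑ l, (if l = m then 0 else th a P l t / θ t) =
        (∑ l, th a P l t / θ t) - th a P m t / θ t := by
      rw [← Finset.sum_erase_eq_sub (Finset.mem_univ m)]
      rw [← Finset.sum_erase_add _ _ (Finset.mem_univ m), if_pos rfl, add_zero]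
      exact Finset.sum_congr rfl fun l hl => if_neg (Finset.ne_of_mem_erase hl)
    rw [h4, ← Finset.sum_div, h3]
    ring
  -- `x = (R_m - 1) / θ → κ`
  set κ : ℝ := -(N * (α - 1)) / (2 * (N + 1) + (α - 1)) with hκ
  have lx : Tendsto (fun t => (rr P P1 m t - 1) / θ t) atTop (𝓝 κ) := by
    refine ode_lim (p := fun t => (N + 1) * (1 + rr P P1 m t) + (rr P P1 j t - hh a P P1 t))
      (b := fun t => N * (qq a P t / θ t) -
        N * rr P P1 m t * ((hh a P P1 t - rr P P1 m t) / θ t)) (by linarith) ?_ ?_ ?_
    · filter_upwards [eventually_gt_atTop 0] with t ht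
      have e1 := hθ0 t ht
      refine (((w.d_R m ht).sub_const 1).div (dθ t ht) e1).congr_deriv ?_
      rw [hlm]
      field_simp
      ring
    · have h1 := ((lRm.const_add 1).const_mul ((N : ℝ) + 1)).add (lRj.sub lh)
      have h2 : ((N : ℝ) + 1) * (1 + 1) + (α - 1) = 2 * (N + 1) + (α - 1) := by ring
      rwa [h2] at h1
    · have h1 := (lqθ.const_mul (N : ℝ)).sub ((lRm.const_mul (N : ℝ)).mul lg1)
      have h2 : (N : ℝ) * 0 - N * 1 * (α - 1) = -(N * (α - 1)) := by ring
      rwa [h2] at h1
  -- `(h - 1) / θ → β`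
  set β : ℝ := κ + (α - 1) with hβ
  have lh1 : Tendsto (fun t => (hh a P P1 t - 1) / θ t) atTop (𝓝 β) := by
    refine (lx.add lg1).congr fun t => ?_
    ring
  -- `A → 1`
  have hkm : 2 * alpha N (lam m) + N - 2 = N := by
    rw [hlm, alpha_one]
    ring
  have hkmp : 0 < 2 * alpha N (lam m) + N - 2 := by
    rw [hkm]
    linarith
  have lA : Tendsto (fun t => (rr P P1 m t - rr U U1 m t) / qq a P t) atTop (𝓝 1) := by
    have h1 := w.lim_A ham hm hlm m hkmp
    rwa [hkm, div_self (by positivity)] at h1
  -- `(S_m - 1) / θ → κ`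
  have lS1 : Tendsto (fun t => (rr U U1 m t - 1) / θ t) atTop (𝓝 κ) := by
    have h1 := lx.sub (lA.mul lqθ)
    rw [mul_zero, sub_zero] at h1
    refine h1.congr' ?_
    filter_upwards [eventually_gt_atTop 0] with t ht
    have e1 := hθ0 t ht
    have e2 := (w.pos_q ht).ne'
    field_simp
    ring
  -- `y = (A - 1) / θ → κ'`
  set κ' : ℝ := -(2 * κ + (N - 2) * β) / (N + (α - 1)) with hκ'
  have ly : Tendsto (fun t => ((rr P P1 m t - rr U U1 m t) / qq a P t - 1) / θ t) atTop
      (𝓝 κ') := by
    refine ode_lim (p := fun t => rr P P1 m t + rr U U1 m t + (N - 2) * hh a P P1 t +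
        (rr P P1 j t - hh a P P1 t))
      (b := fun t => -((rr P P1 m t - 1) / θ t + (rr U U1 m t - 1) / θ t +
        (N - 2) * ((hh a P P1 t - 1) / θ t))) (by linarith) ?_ ?_ ?_
    · filter_upwards [eventually_gt_atTop 0] with t ht
      have e1 := hθ0 t ht
      have e2 := (w.pos_q ht).ne'
      refine ((((w.d_del m ht).div (w.d_q ht) e2).sub_const 1).div (dθ t ht) e1).congr_deriv ?_
      simp only [Pi.div_apply]
      field_simp
      ring
    · have h1 := ((lRm.add lSm).add (lh.const_mul ((N : ℝ) - 2))).add (lRj.sub lh)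
      have h2 : (1 : ℝ) + 1 + (N - 2) * 1 + (α - 1) = N + (α - 1) := by ring
      rwa [h2] at h1
    · have h1 := ((lx.add lS1).add (lh1.const_mul ((N : ℝ) - 2))).neg
      have h2 : -(κ + κ + ((N : ℝ) - 2) * β) = -(2 * κ + (N - 2) * β) := by ring
      rwa [h2] at h1
  -- `Q`
  set Q : ℝ → ℝ := fun t => C m * (U m t / P m t) - 1 with hQ
  have lQ : Tendsto Q atTop (𝓝 0) := w.lim_Q ham hm hlm (hC0 m) (hC m)
  have lQq : Tendsto (fun t => Q t / qq a P t) atTop (𝓝 (1 / 2)) := by
    have h1 := w.lim_Qq ham hm hlm (hC0 m) (hC m) hkmp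
    rwa [hkm, div_self (by positivity)] at h1
  -- `z = (Q - q / 2) / (q θ) → c`
  set c : ℝ := (κ' - β) / (3 - α) with hc
  have lz : Tendsto (fun t => (Q t - qq a P t / 2) / (qq a P t * θ t)) atTop (𝓝 c) := by
    refine HasDerivAt.lhopital_zero_atTop
      (f' := fun t => -(rr P P1 m t - rr U U1 m t) * (1 + Q t) -
        -2 * hh a P P1 t * qq a P t / 2)
      (g' := fun t => -2 * hh a P P1 t * qq a P t * θ t +
        qq a P t * (θ t * (rr P P1 j t - hh a P P1 t))) ?_ ?_ ?_ ?_ ?_ ?_
    · filter_upwards [eventually_gt_atTop 0] with t ht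
      exact (w.d_Q ht).sub ((w.d_q ht).div_const 2)
    · filter_upwards [eventually_gt_atTop 0] with t ht
      exact (w.d_q ht).mul (dθ t ht)
    · have h3 : Tendsto (fun t => rr P P1 j t - 3 * hh a P P1 t) atTop (𝓝 (α - 3 * 1)) :=
        lRj.sub (lh.const_mul 3)
      have h4 : α - 3 * 1 < 0 := by linarith
      filter_upwards [eventually_gt_atTop 0, h3.eventually (gt_mem_nhds h4)] with t ht h5
      have e1 := hθ0 t ht
      have e2 := (w.pos_q ht).ne'
      have h6 : -2 * hh a P P1 t * qq a P t * θ t +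
        qq a P t * (θ t * (rr P P1 j t - hh a P P1 t)) =
        qq a P t * θ t * (rr P P1 j t - 3 * hh a P P1 t) := by ring
      rw [h6]
      exact mul_ne_zero (mul_ne_zero e2 e1) h5.ne
    · have h1 := lQ.sub (w.lim_q.div_const 2)
      simpa using h1
    · have h1 := w.lim_q.mul lθ
      simpa using h1
    · have h1 : Tendsto (fun t => (-(((rr P P1 m t - rr U U1 m t) / qq a P t - 1) / θ t) -
          (rr P P1 m t - rr U U1 m t) / qq a P t * (Q t / qq a P t * (qq a P t / θ t)) +
          (hh a P P1 t - 1) / θ t) / (rr P P1 j t - 3 * hh a P P1 t)) atTop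
          (𝓝 ((-κ' - 1 * (1 / 2 * 0) + β) / (α - 3 * 1))) :=
        ((ly.neg.sub (lA.mul (lQq.mul lqθ))).add lh1).div (lRj.sub (lh.const_mul 3))
          (by linarith)
      have h2 : (-κ' - 1 * (1 / 2 * 0) + β) / (α - 3 * 1) = c := by
        rw [hc]
        have e1 : α - 3 * 1 ≠ 0 := by linarith
        have e2 : 3 - α ≠ 0 := by linarith
        rw [div_eq_div_iff e1 e2]
        ring
      rw [h2] at h1
      refine h1.congr' ?_
      have h3 : Tendsto (fun t => rr P P1 j t - 3 * hh a P P1 t) atTop (𝓝 (α - 3 * 1)) :=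
        lRj.sub (lh.const_mul 3)
      have h4 : α - 3 * 1 < 0 := by linarith
      filter_upwards [eventually_gt_atTop 0, h3.eventually (gt_mem_nhds h4)] with t ht h5
      have e1 := hθ0 t ht
      have e2 := (w.pos_q ht).ne'
      have h6 : -2 * hh a P P1 t * qq a P t * θ t +
        qq a P t * (θ t * (rr P P1 j t - hh a P P1 t)) =
        qq a P t * θ t * (rr P P1 j t - 3 * hh a P P1 t) := by ring
      rw [h6]
      have e3 := h5.ne
      field_simp
      ring
  -- the top mode
  have lTm : Tendsto (fun t => (rr P P1 m t - C m * (U m t / P m t) * rr U U1 m t) / qq a P t)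
      atTop (𝓝 (1 / 2)) := by
    have h1 := w.lim_T ham hm hlm (hC0 m) (hC m) hkmp
    rw [hkm, div_self (by positivity), hlm, alpha_one] at h1
    have h2 : (1 : ℝ) * (1 - 1 / 2) = 1 / 2 := by norm_num
    rwa [h2] at h1
  have lW : Tendsto (fun t => ((rr P P1 m t - C m * (U m t / P m t) * rr U U1 m t) / qq a P t -
      1 / 2) / θ t) atTop (𝓝 (κ' - κ / 2 - c)) := by
    have h1 := (ly.sub (lS1.div_const 2)).sub (lz.mul lSm)
    rw [mul_one] at h1
    refine h1.congr' ?_
    filter_upwards [eventually_gt_atTop 0] with t ht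
    have e1 := hθ0 t ht
    have e2 := (w.pos_q ht).ne'
    have e3 : C m * (U m t / P m t) = 1 + Q t := by
      rw [hQ]
      ring
    rw [e3]
    field_simp
    ring
  -- the sum
  set Tl : ι → ℝ → ℝ := fun l t =>
    (rr P P1 l t - C l * (U l t / P l t) * rr U U1 l t) / qq a P t with hTl
  have hqS : ∀ t, 0 < t → qq a P t * ∑ l, th a P l t * Tl l t =
      (sm a P1 t - sm d U1 t) / sm a P t := by
    intro t ht
    have e1 := (w.posph t ht).ne'
    rw [sm, sm, ← Finset.sum_sub_distrib, Finset.sum_div, Finset.mul_sum]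
    refine Finset.sum_congr rfl fun l _ => ?_
    have e2 := (w.posP l t ht).ne'
    have e3 := (w.posU l t ht).ne'
    have e4 := (w.pos_q ht).ne'
    simp only [hTl, hda l, th, rr]
    field_simp
  have hcon : ∀ t, 0 < t → (∑ l, th a P l t * Tl l t) *
      (2 * hh a P P1 t - qq a P t * ∑ l, th a P l t * Tl l t) = 1 := by
    intro t ht
    have e1 := (w.posph t ht).ne'
    have h1 := hqS t ht
    have h2 : (∑ l, th a P l t * Tl l t) = (sm a P1 t - sm d U1 t) * sm a P t := by
      have h3 : qq a P t = 1 / sm a P t ^ 2 := rfl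
      rw [h3] at h1
      field_simp at h1
      linarith
    rw [h1, h2, hh]
    have h4 := w.con t ht
    field_simp
    linear_combination h4
  have lE0 : Tendsto (fun t => qq a P t * ∑ l, th a P l t * Tl l t) atTop (𝓝 0) := by
    have h1 := (w.lim_E ham hm hlm hC0 hC hdm).mul w.ph_atTop.inv_tendsto_atTop
    rw [zero_mul] at h1
    refine h1.congr' ?_
    filter_upwards [eventually_gt_atTop 0] with t ht
    rw [hqS t ht, Pi.inv_apply, div_eq_mul_inv]
  have lθ2 : Tendsto (fun t => ∑ l, th a P l t * Tl l t) atTop (𝓝 (1 / 2)) := by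
    have h1 : Tendsto (fun t => 2 * hh a P P1 t - qq a P t * ∑ l, th a P l t * Tl l t) atTop
        (𝓝 (2 * 1 - 0)) := (lh.const_mul 2).sub lE0
    have h2 := h1.inv₀ (by norm_num)
    have h3 : (2 * (1 : ℝ) - 0)⁻¹ = 1 / 2 := by norm_num
    rw [h3] at h2
    refine h2.congr' ?_
    filter_upwards [eventually_gt_atTop 0] with t ht
    exact inv_eq_of_mul_eq_one_left (hcon t ht)
  have lfin : Tendsto (fun t => (∑ l, th a P l t * Tl l t - 1 / 2) / θ t) atTop
      (𝓝 (-β / 2)) := by
    have h1 : Tendsto (fun t => (-2 * ((hh a P P1 t - 1) / θ t) +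
        (∑ l, th a P l t * Tl l t) * (qq a P t / θ t)) /
        (2 * (2 * hh a P P1 t - qq a P t * ∑ l, th a P l t * Tl l t))) atTop
        (𝓝 ((-2 * β + 1 / 2 * 0) / (2 * (2 * 1 - 0 * (1 / 2))))) :=
      ((lh1.const_mul (-2)).add (lθ2.mul lqθ)).div
        (((lh.const_mul 2).sub (w.lim_q.mul lθ2)).const_mul 2) (by norm_num)
    have h2 : (-2 * β + 1 / 2 * 0) / (2 * (2 * 1 - 0 * (1 / 2))) = -β / 2 := by ring
    rw [h2] at h1
    refine h1.congr' ?_
    filter_upwards [eventually_gt_atTop 0] with t ht
    have e1 := hθ0 t ht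
    have h3 := hcon t ht
    set S := ∑ l, th a P l t * Tl l t
    have e2 : 2 * hh a P P1 t - qq a P t * S ≠ 0 := by
      intro h4
      rw [h4, mul_zero] at h3
      exact zero_ne_one h3
    rw [div_eq_div_iff (by positivity) e1]
    have h5 : (-2 * ((hh a P P1 t - 1) / θ t) + S * (qq a P t / θ t)) * θ t =
        -2 * (hh a P P1 t - 1) + S * qq a P t := by
      field_simp
    rw [h5]
    linear_combination (-2) * h3
  refine ⟨-β / 2 - (-1 / 2 + (κ' - κ / 2 - c)), ?_, fun hkj h0 => ?_⟩
  · have h2 := (lθm.mul lTm).add lW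
    have h3 : (-1 : ℝ) * (1 / 2) + (κ' - κ / 2 - c) = -1 / 2 + (κ' - κ / 2 - c) := by ring
    rw [h3] at h2
    refine (lfin.sub h2).congr' ?_
    filter_upwards [eventually_gt_atTop 0] with t ht
    have e1 : th a P j t ≠ 0 := hθ0 t ht
    simp only [hTl, hθ]
    field_simp
    ring
  · refine alg_contra hN' hα0 hα1 hkj hκ hβ hκ' hc ?_
    linarith

section

variable (hdm : d m = a m * C m)
include hdm

/-- all the coefficients match -/
theorem all_eq2 (i : ι) : d i = a i * C i := by
  classical
  by_contra hi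
  obtain ⟨l, hl, hlmax⟩ := Finset.exists_max_image
    (Finset.univ.filter fun l => d l ≠ a l * C l) lam ⟨i, by simp [hi]⟩
  rw [Finset.mem_filter] at hl
  have hUl := w.U_top ham hm hlm l
  have hinv : Tendsto (fun t => (U l t)⁻¹) atTop (𝓝 0) := hUl.inv_tendsto_atTop
  -- each term
  have hterm : ∀ x, Tendsto (fun t => (a x * P1 x t - d x * U1 x t) * (U l t)⁻¹) atTop
      (𝓝 (if x = l then (a l * C l - d l) * alpha N (lam l) else 0)) := by
    intro x
    by_cases hxB : d x = a x * C x
    · have hxl : x ≠ l := by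
        rintro rfl
        exact hl.2 hxB
      rw [if_neg hxl]
      have h0 : Tendsto (fun t => a x * (P1 x t - C x * U1 x t)) atTop (𝓝 0) := by
        by_cases hax : a x = 0
        · rw [hax]
          simp
        · have := (w.lim_PCU ham hm hlm (hC0 x) (hC x) hax).const_mul (a x)
          rwa [mul_zero] at this
      have h1 := h0.mul hinv
      rw [zero_mul] at h1
      refine h1.congr fun t => ?_
      rw [hxB]
      ring
    · have hle := hlmax x (by simp [hxB])
      by_cases hxl : x = l
      · subst hxl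
        rw [if_pos rfl]
        have h1 := (((hC x).mul (w.lim_R ham hm hlm x)).const_mul (a x)).sub
          ((w.lim_S ham hm hlm x).const_mul (d x))
        have h2 : a x * (C x * alpha N (lam x)) - d x * alpha N (lam x) =
            (a x * C x - d x) * alpha N (lam x) := by ring
        rw [h2] at h1
        refine h1.congr' ?_
        filter_upwards [eventually_gt_atTop 0] with t ht
        have e2 := (w.posP x t ht).ne'
        have e3 := (w.posU x t ht).ne'
        rw [rr, rr]
        field_simp
      · rw [if_neg hxl]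
        have hlt : lam x < lam l := lt_of_le_of_ne hle fun h3 => hxl (w.lamne h3)
        have hUU := w.lim_UU ham hm hlm hlt
        have h1 := ((((hC x).mul (w.lim_R ham hm hlm x)).const_mul (a x)).sub
          ((w.lim_S ham hm hlm x).const_mul (d x))).mul hUU
        rw [mul_zero] at h1
        refine h1.congr' ?_
        filter_upwards [eventually_gt_atTop 0] with t ht
        have e2 := (w.posP x t ht).ne'
        have e3 := (w.posU x t ht).ne'
        have e4 := (w.posU l t ht).ne'
        rw [rr, rr]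
        field_simp
  have hsum := tendsto_finsetSum Finset.univ fun x _ => hterm x
  simp only [Finset.sum_ite_eq', Finset.mem_univ, if_true] at hsum
  have hzero := (w.lim_E ham hm hlm hC0 hC hdm).mul hinv
  rw [zero_mul] at hzero
  have huniq := tendsto_nhds_unique (hzero.congr fun t => by
    rw [sm, sm, ← Finset.sum_sub_distrib, Finset.sum_mul]) hsum
  have hαp := alpha_pos (N := N) (w.lampos l)
  rcases mul_eq_zero.1 huniq.symm with h1 | h1
  · exact hl.2 (by linarith)
  · linarith

end

end WS

end

end Run7.h978.Rot
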