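import Mathlib
import Pool.Agent.Run7.h978.Asy9
import Pool.Agent.Run7.h978.Asy7

set_option autoImplicit false

/-!
The contradiction for two modes, with modes of small growth.
-/

open Set Filter Topology

namespace Run7.h978.Rot

section

variable {ι : Type} [Fintype ι]

namespace WS

variable {N : ℕ} {lam a d : ι → ℝ} {P P1 U U1 : ι → ℝ → ℝ} (w : WS N lam a d P P1 U U1)
  {m : ι} (ham : a m ≠ 0) (hm : ∀ i, a i ≠ 0 → i ≠ m → lam i < lam m) (hlm : lam m = N + 1)
include w ham hm hlm

omit ham hm hlm in
theorem alpha_mono' {i l : ι} (h : lam i < lam l) : alpha N (lam i) < alpha N (lam l) :=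
  alpha_lt (w.lampos i).le h

/-- a small mode compared with a mode of larger total growth -/
theorem lim_PA_P (hN : 1 ≤ N) {l j : ι} (hl : 2 * alpha N (lam l) + N - 2 ≤ 0)
    (hlj : 0 < alpha N (lam l) + alpha N (lam j) + N - 2) :
    Tendsto (fun t => P l t * ((rr P P1 l t - rr U U1 l t) / qq a P t) / P j t) atTop (𝓝 0) := by
  have hA := (w.lim_A_top ham hm hlm hN hl).inv_tendsto_atTop
  have h1 : Tendsto (fun t => N * ((rr P P1 l t - rr U U1 l t) / qq a P t)⁻¹ - rr U U1 l t -
      (N - 2) * Run7.h978.Rot.hh a P P1 t - rr P P1 j t) atTop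
      (𝓝 (-(alpha N (lam l) + alpha N (lam j) + N - 2))) := by
    have h2 := (((hA.const_mul (N : ℝ)).sub (w.lim_S ham hm hlm l)).sub
      ((w.lim_h ham hm hlm).const_mul ((N : ℝ) - 2))).sub (w.lim_R ham hm hlm j)
    have h3 : (N : ℝ) * 0 - alpha N (lam l) - (N - 2) * 1 - alpha N (lam j) =
        -(alpha N (lam l) + alpha N (lam j) + N - 2) := by ring
    rw [h3] at h2
    exact h2
  refine ode_decay (neg_lt_zero.2 hlj) ?_ h1
  filter_upwards [eventually_gt_atTop 0] with t ht
  have e1 := (w.posP j t ht).ne'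
  refine ((w.d_PA ht).div (w.dP j t ht) e1).congr_deriv ?_
  have e2 : P1 j t = P j t * rr P P1 j t := by
    rw [rr]
    field_simp
  rw [e2]
  field_simp

/-- a mode compared with a small mode -/
theorem lim_P_PA (hN : 1 ≤ N) {s j : ι} (hs : 2 * alpha N (lam s) + N - 2 ≤ 0)
    (hsj : alpha N (lam s) + alpha N (lam j) + N - 2 < 0) :
    Tendsto (fun t => P j t / (P s t * ((rr P P1 s t - rr U U1 s t) / qq a P t))) atTop
      (𝓝 0) := by
  have hA := (w.lim_A_top ham hm hlm hN hs).inv_tendsto_atTop
  have h1 : Tendsto (fun t => rr P P1 j t - (N * ((rr P P1 s t - rr U U1 s t) / qq a P t)⁻¹ -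
      rr U U1 s t - (N - 2) * Run7.h978.Rot.hh a P P1 t)) atTop
      (𝓝 (alpha N (lam s) + alpha N (lam j) + N - 2)) := by
    have h2 := (w.lim_R ham hm hlm j).sub (((hA.const_mul (N : ℝ)).sub
      (w.lim_S ham hm hlm s)).sub ((w.lim_h ham hm hlm).const_mul ((N : ℝ) - 2)))
    have h3 : alpha N (lam j) - ((N : ℝ) * 0 - alpha N (lam s) - (N - 2) * 1) =
        alpha N (lam s) + alpha N (lam j) + N - 2 := by ring
    rw [h3] at h2
    exact h2
  refine ode_decay hsj ?_ h1
  filter_upwards [eventually_gt_atTop 0] with t ht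
  have e1 := w.posP s t ht
  have e2 := w.pos_del s ht
  have e3 := w.pos_q ht
  have e4 : P s t * ((rr P P1 s t - rr U U1 s t) / qq a P t) ≠ 0 := by positivity
  refine ((w.dP j t ht).div (w.d_PA ht) e4).congr_deriv ?_
  have e5 := (w.posP j t ht).ne'
  have e6 : P1 j t = P j t * rr P P1 j t := by
    rw [rr]
    field_simp
  rw [e6]
  set B := P s t * ((rr P P1 s t - rr U U1 s t) / qq a P t) with hB
  field_simp

/-- two small modes -/
theorem lim_PA_PA (hN : 1 ≤ N) {l s : ι} (hl : 2 * alpha N (lam l) + N - 2 ≤ 0)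
    (hs : 2 * alpha N (lam s) + N - 2 ≤ 0) (hls : lam s < lam l) :
    Tendsto (fun t => P l t * ((rr P P1 l t - rr U U1 l t) / qq a P t) /
      (P s t * ((rr P P1 s t - rr U U1 s t) / qq a P t))) atTop (𝓝 0) := by
  have hA := (w.lim_A_top ham hm hlm hN hs).inv_tendsto_atTop
  have hA' := (w.lim_A_top ham hm hlm hN hl).inv_tendsto_atTop
  have h1 : Tendsto (fun t => (N * ((rr P P1 l t - rr U U1 l t) / qq a P t)⁻¹ -
      rr U U1 l t - (N - 2) * Run7.h978.Rot.hh a P P1 t) -
      (N * ((rr P P1 s t - rr U U1 s t) / qq a P t)⁻¹ -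
      rr U U1 s t - (N - 2) * Run7.h978.Rot.hh a P P1 t)) atTop
      (𝓝 (alpha N (lam s) - alpha N (lam l))) := by
    have h2 := (((hA'.const_mul (N : ℝ)).sub
      (w.lim_S ham hm hlm l)).sub ((w.lim_h ham hm hlm).const_mul ((N : ℝ) - 2))).sub
      (((hA.const_mul (N : ℝ)).sub
      (w.lim_S ham hm hlm s)).sub ((w.lim_h ham hm hlm).const_mul ((N : ℝ) - 2)))
    have h3 : ((N : ℝ) * 0 - alpha N (lam l) - (N - 2) * 1) -
        ((N : ℝ) * 0 - alpha N (lam s) - (N - 2) * 1) =
        alpha N (lam s) - alpha N (lam l) := by ring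
    rw [h3] at h2
    exact h2
  have h4 := w.alpha_mono' hls
  refine ode_decay (by linarith) ?_ h1
  filter_upwards [eventually_gt_atTop 0] with t ht
  have e1 := w.posP s t ht
  have e2 := w.pos_del s ht
  have e3 := w.pos_q ht
  have e4 : P s t * ((rr P P1 s t - rr U U1 s t) / qq a P t) ≠ 0 := by positivity
  refine ((w.d_PA ht).div (w.d_PA ht) e4).congr_deriv ?_
  set B := P s t * ((rr P P1 s t - rr U U1 s t) / qq a P t) with hB
  field_simp

variable {C : ι → ℝ} (hC0 : ∀ i, 0 < C i)
  (hC : ∀ i, Tendsto (fun t => P i t / U i t) atTop (𝓝 (C i)))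
include hC0 hC

/-- no small mode dominates: the first case -/
theorem caseA (hN : 1 ≤ N) (hdm : d m = a m * C m) (hda : ∀ i, d i = a i * C i) {j : ι}
    (haj : a j ≠ 0) (hjm : j ≠ m) (hj : ∀ i, a i ≠ 0 → i ≠ m → i ≠ j → lam i < lam j)
    (hkj : 0 < 2 * alpha N (lam j) + N - 2)
    (hsm : ∀ l, a l ≠ 0 → l ≠ m → l ≠ j → 2 * alpha N (lam l) + N - 2 ≤ 0 →
      0 < alpha N (lam l) + alpha N (lam j) + N - 2) : False := by
  classical
  obtain ⟨z, hz, hz2⟩ := w.rest_lim ham hm hlm hC0 hC hN hdm hda haj hjm hj
  refine hz2 hkj (tendsto_nhds_unique hz ?_)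
  set Tl : ι → ℝ → ℝ := fun l t =>
    (rr P P1 l t - C l * (U l t / P l t) * rr U U1 l t) / qq a P t with hTl
  have h1 : ∀ l, Tendsto (fun t => if l = m then 0 else th a P l t * Tl l t / th a P j t) atTop
      (𝓝 (if l = j then N / (2 * alpha N (lam j) + N - 2) * (1 - alpha N (lam j) / 2)
        else 0)) := by
    intro l
    by_cases hlm' : l = m
    · subst hlm'
      simp only [if_true, if_neg (Ne.symm hjm)]
      exact tendsto_const_nhds
    simp only [if_neg hlm']
    by_cases hlj : l = j
    · subst hlj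
      rw [if_pos rfl]
      refine (w.lim_T ham hm hlm (hC0 l) (hC l) hkj).congr' ?_
      filter_upwards [eventually_gt_atTop 0] with t ht
      have e1 := w.posph t ht
      have e2 := w.posP l t ht
      have e3 : th a P l t ≠ 0 := div_ne_zero (mul_ne_zero haj e2.ne') e1.ne'
      simp only [hTl]
      field_simp
    rw [if_neg hlj]
    by_cases hal : a l = 0
    · have : (fun t => th a P l t * Tl l t / th a P j t) = fun _ => 0 := by
        funext t
        rw [th, hal]
        simp
      rw [this]
      exact tendsto_const_nhds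
    by_cases hkl : 2 * alpha N (lam l) + N - 2 ≤ 0
    · have h2 := (((w.lim_PA_P ham hm hlm hN hkl (hsm l hal hlm' hlj hkl)).mul
        (w.lim_TA ham hm hlm (hC0 l) (hC l) hN hkl)).const_mul (a l / a j))
      rw [zero_mul, mul_zero] at h2
      refine h2.congr' ?_
      filter_upwards [eventually_gt_atTop 0] with t ht
      have e1 := (w.posph t ht).ne'
      have e2 := (w.posP l t ht).ne'
      have e3 := (w.posP j t ht).ne'
      have e4 := (w.pos_q ht).ne'
      have e5 := (w.pos_del l ht).ne'
      simp only [hTl]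
      rw [th, th]
      set X := rr P P1 l t - C l * (U l t / P l t) * rr U U1 l t with hX
      field_simp
    · push Not at hkl
      have h2 := ((w.dom (hj l hal hlm' hlj)).mul
        (w.lim_T ham hm hlm (hC0 l) (hC l) hkl)).const_mul (a l / a j)
      rw [zero_mul, mul_zero] at h2
      refine h2.congr' ?_
      filter_upwards [eventually_gt_atTop 0] with t ht
      have e1 := (w.posph t ht).ne'
      have e2 := (w.posP l t ht).ne'
      have e3 := (w.posP j t ht).ne'
      have e4 := (w.pos_q ht).ne'
      simp only [hTl]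
      rw [th, th]
      set X := rr P P1 l t - C l * (U l t / P l t) * rr U U1 l t with hX
      field_simp
  have h2 := tendsto_finsetSum Finset.univ fun l _ => h1 l
  simp only [Finset.sum_ite_eq', Finset.mem_univ, if_true] at h2
  refine h2.congr fun t => ?_
  rw [sub_div, Finset.sum_div, ← Finset.sum_erase_eq_sub (Finset.mem_univ m),
    ← Finset.sum_erase_add _ _ (Finset.mem_univ m), if_pos rfl, add_zero]
  exact Finset.sum_congr rfl fun l hl => if_neg (Finset.ne_of_mem_erase hl)

/-- a small mode dominates: the second case -/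
theorem caseB (hN : 1 ≤ N) (hdm : d m = a m * C m) (hda : ∀ i, d i = a i * C i) {j : ι}
    (haj : a j ≠ 0) (hjm : j ≠ m) (hj : ∀ i, a i ≠ 0 → i ≠ m → i ≠ j → lam i < lam j)
    {s : ι} (has : a s ≠ 0) (hsm' : s ≠ m) (hks : 2 * alpha N (lam s) + N - 2 ≤ 0)
    (hmin : ∀ l, a l ≠ 0 → l ≠ m → l ≠ s → lam s < lam l)
    (hsj : s ≠ j → alpha N (lam s) + alpha N (lam j) + N - 2 < 0) : False := by
  classical
  obtain ⟨z, hz, -⟩ := w.rest_lim ham hm hlm hC0 hC hN hdm hda haj hjm hj
  set Tl : ι → ℝ → ℝ := fun l t =>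
    (rr P P1 l t - C l * (U l t / P l t) * rr U U1 l t) / qq a P t with hTl
  set Al : ι → ℝ → ℝ := fun l t => (rr P P1 l t - rr U U1 l t) / qq a P t with hAl
  have hN' : (0 : ℝ) < N := by exact_mod_cast hN
  have hαs := alpha_pos (N := N) (w.lampos s)
  have hAs : Tendsto (Al s) atTop atTop := w.lim_A_top ham hm hlm hN hks
  have hTAs : Tendsto (fun t => Tl s t / Al s t) atTop
      (𝓝 ((alpha N (lam s) + N) / (2 * alpha N (lam s) + N))) :=
    w.lim_TA ham hm hlm (hC0 s) (hC s) hN hks
  have hτ : (alpha N (lam s) + N) / (2 * alpha N (lam s) + N) ≠ 0 := by positivity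
  have hATs : Tendsto (fun t => (Tl s t / Al s t)⁻¹) atTop
      (𝓝 ((alpha N (lam s) + N) / (2 * alpha N (lam s) + N))⁻¹) := hTAs.inv₀ hτ
  have hTne : ∀ᶠ t in atTop, Tl s t ≠ 0 := by
    filter_upwards [hTAs.eventually_ne hτ] with t ht h0
    exact ht (by rw [h0, zero_div])
  -- `P_j / (P_s A_s) → 0`
  have hPj : Tendsto (fun t => P j t / (P s t * Al s t)) atTop (𝓝 0) := by
    by_cases hsj' : s = j
    · subst hsj'
      refine hAs.inv_tendsto_atTop.congr' ?_
      filter_upwards [eventually_gt_atTop 0] with t ht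
      have e1 := (w.posP s t ht).ne'
      simp only [Pi.inv_apply]
      field_simp
    · exact w.lim_P_PA ham hm hlm hN hks (hsj hsj')
  have h1 : ∀ l, Tendsto (fun t => if l = m then 0 else
      th a P l t * Tl l t / (th a P s t * Tl s t)) atTop (𝓝 (if l = s then 1 else 0)) := by
    intro l
    by_cases hlm' : l = m
    · subst hlm'
      simp only [if_true, if_neg (Ne.symm hsm')]
      exact tendsto_const_nhds
    simp only [if_neg hlm']
    by_cases hls : l = s
    · subst hls
      rw [if_pos rfl]
      refine tendsto_const_nhds.congr' ?_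
      filter_upwards [eventually_gt_atTop 0, hTne] with t ht h2
      have e1 := w.posph t ht
      have e2 := w.posP l t ht
      have e3 : th a P l t ≠ 0 := div_ne_zero (mul_ne_zero has e2.ne') e1.ne'
      exact (div_self (mul_ne_zero e3 h2)).symm
    rw [if_neg hls]
    by_cases hal : a l = 0
    · have : (fun t => th a P l t * Tl l t / (th a P s t * Tl s t)) = fun _ => 0 := by
        funext t
        have : th a P l t = 0 := by
          rw [th, hal]
          simp
        rw [this]
        simp
      rw [this]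
      exact tendsto_const_nhds
    by_cases hkl : 2 * alpha N (lam l) + N - 2 ≤ 0
    · have h2 := ((((w.lim_PA_PA ham hm hlm hN hkl hks (hmin l hal hlm' hls)).mul
        (w.lim_TA ham hm hlm (hC0 l) (hC l) hN hkl)).mul hATs).const_mul (a l / a s))
      rw [zero_mul, zero_mul, mul_zero] at h2
      refine h2.congr' ?_
      filter_upwards [eventually_gt_atTop 0, hTne] with t ht h3
      have e1 := (w.posph t ht).ne'
      have e2 := (w.posP l t ht).ne'
      have e3 := (w.posP s t ht).ne'
      have e4 := (w.pos_q ht).ne'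
      have e5 := (w.pos_del l ht).ne'
      have e6 := (w.pos_del s ht).ne'
      have e7 : Tl l t = (rr P P1 l t - C l * (U l t / P l t) * rr U U1 l t) / qq a P t := rfl
      have e8 : Al s t = (rr P P1 s t - rr U U1 s t) / qq a P t := rfl
      rw [← e7, e8, th, th]
      field_simp
    · push Not at hkl
      have hPl : Tendsto (fun t => P l t / (P s t * Al s t)) atTop (𝓝 0) := by
        by_cases hlj : l = j
        · rw [hlj]
          exact hPj
        · have h2 := (w.dom (hj l hal hlm' hlj)).mul hPj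
          rw [zero_mul] at h2
          refine h2.congr' ?_
          filter_upwards [eventually_gt_atTop 0] with t ht
          have e3 := (w.posP j t ht).ne'
          field_simp
      have h2 := ((hPl.mul (w.lim_T ham hm hlm (hC0 l) (hC l) hkl)).mul hATs).const_mul
        (a l / a s)
      rw [zero_mul, zero_mul, mul_zero] at h2
      refine h2.congr' ?_
      filter_upwards [eventually_gt_atTop 0, hTne] with t ht h3
      have e1 := (w.posph t ht).ne'
      have e2 := (w.posP l t ht).ne'
      have e3 := (w.posP s t ht).ne'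
      have e4 := (w.pos_q ht).ne'
      have e6 := (w.pos_del s ht).ne'
      have e7 : Tl l t = (rr P P1 l t - C l * (U l t / P l t) * rr U U1 l t) / qq a P t := rfl
      have e8 : Al s t = (rr P P1 s t - rr U U1 s t) / qq a P t := rfl
      rw [← e7, e8, th, th]
      field_simp
  have h2 := tendsto_finsetSum Finset.univ fun l _ => h1 l
  simp only [Finset.sum_ite_eq', Finset.mem_univ, if_true] at h2
  have h3 : Tendsto (fun t => th a P j t / (th a P s t * Tl s t)) atTop (𝓝 0) := by
    have h4 := (hPj.mul hATs).const_mul (a j / a s)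
    rw [zero_mul, mul_zero] at h4
    refine h4.congr' ?_
    filter_upwards [eventually_gt_atTop 0, hTne] with t ht h3
    have e1 := (w.posph t ht).ne'
    have e3 := (w.posP s t ht).ne'
    have e4 := (w.pos_q ht).ne'
    have e6 := (w.pos_del s ht).ne'
    have e8 : Al s t = (rr P P1 s t - rr U U1 s t) / qq a P t := rfl
    rw [e8, th, th]
    field_simp
  have h4 := hz.mul h3
  rw [mul_zero] at h4
  refine zero_ne_one (tendsto_nhds_unique h4 (h2.congr' ?_))
  filter_upwards [eventually_gt_atTop 0, hTne] with t ht h5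
  have e1 := w.posph t ht
  have e2 := w.posP j t ht
  have e3 : th a P j t ≠ 0 := div_ne_zero (mul_ne_zero haj e2.ne') e1.ne'
  have e4 : (∑ l, th a P l t * Tl l t - th a P m t * Tl m t) / (th a P s t * Tl s t) =
      ∑ l, if l = m then 0 else th a P l t * Tl l t / (th a P s t * Tl s t) := by
    rw [sub_div, Finset.sum_div, ← Finset.sum_erase_eq_sub (Finset.mem_univ m),
      ← Finset.sum_erase_add _ (fun l => if l = m then 0 else
        th a P l t * Tl l t / (th a P s t * Tl s t)) (Finset.mem_univ m), if_pos rfl, add_zero]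
    exact Finset.sum_congr rfl fun l hl => (if_neg (Finset.ne_of_mem_erase hl)).symm
  rw [← e4]
  show _ = (∑ l, th a P l t * Tl l t - th a P m t * Tl m t) / th a P j t *
    (th a P j t / (th a P s t * Tl s t))
  field_simp

end WS

end

end Run7.h978.Rot
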