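import Mathlib
import Pool.Agent.Run7.h978.Asy10

set_option autoImplicit false

/-!
The system has only one active index: general form.
-/

open Set Filter Topology

namespace Run7.h978.Rot

/-- no resonance between the smallest, the second largest and the largest value on `S` -/
def NRes {ι : Type} (S : Set ι) (lam : ι → ℝ) : Prop :=
  ∀ i j l, i ∈ S → j ∈ S → l ∈ S → lam i < lam j → lam j < lam l → (∀ p ∈ S, lam i ≤ lam p) →
    (∀ p ∈ S, p ≠ l → lam p ≤ lam j) →
      Real.sqrt (1 + 8 * lam i / lam l) + Real.sqrt (1 + 8 * lam j / lam l) ≠ 4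

section

variable {ι : Type} [Fintype ι]

namespace WS

variable {N : ℕ} {lam a d : ι → ℝ} {P P1 U U1 : ι → ℝ → ℝ}

section norm

variable (w : WS N lam a d P P1 U U1)
  {m : ι} (ham : a m ≠ 0) (hm : ∀ i, a i ≠ 0 → i ≠ m → lam i < lam m) (hlm : lam m = N + 1)
include w ham hm hlm

theorem second_false2 {C : ι → ℝ} (hC0 : ∀ i, 0 < C i)
    (hC : ∀ i, Tendsto (fun t => P i t / U i t) atTop (𝓝 (C i))) (hN : 1 ≤ N)
    (hdm : d m = a m * C m) (hda : ∀ i, d i = a i * C i) {j : ι}
    (haj : a j ≠ 0) (hjm : j ≠ m) (hj : ∀ i, a i ≠ 0 → i ≠ m → i ≠ j → lam i < lam j)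
    (hres : ∀ s, a s ≠ 0 → s ≠ m → s ≠ j →
      (∀ l, a l ≠ 0 → l ≠ m → l ≠ s → lam s < lam l) →
      alpha N (lam s) + alpha N (lam j) + N - 2 ≠ 0) : False := by
  classical
  obtain ⟨s, hs, hsmin⟩ := Finset.exists_min_image
    (Finset.univ.filter fun l => a l ≠ 0 ∧ l ≠ m) lam ⟨j, by simp [haj, hjm]⟩
  rw [Finset.mem_filter] at hs
  obtain ⟨-, has, hsm⟩ := hs
  have hmin : ∀ l, a l ≠ 0 → l ≠ m → l ≠ s → lam s < lam l := fun l h1 h2 h3 =>
    lt_of_le_of_ne (hsmin l (by simp [h1, h2])) fun h4 => h3 (w.lamne h4).symm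
  have hαle : ∀ l, a l ≠ 0 → l ≠ m → alpha N (lam s) ≤ alpha N (lam l) := by
    intro l h1 h2
    by_cases h3 : l = s
    · rw [h3]
    · exact (w.alpha_mono' (hmin l h1 h2 h3)).le
  by_cases hks : 2 * alpha N (lam s) + N - 2 ≤ 0
  · by_cases hsj : s = j
    · exact w.caseB ham hm hlm hC0 hC hN hdm hda haj hjm hj has hsm hks hmin
        fun h => absurd hsj h
    · rcases lt_trichotomy (alpha N (lam s) + alpha N (lam j) + N - 2) 0 with h | h | h
      · exact w.caseB ham hm hlm hC0 hC hN hdm hda haj hjm hj has hsm hks hmin fun _ => h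
      · exact hres s has hsm hsj hmin h
      · have h1 := hαle j haj hjm
        refine w.caseA ham hm hlm hC0 hC hN hdm hda haj hjm hj (by linarith) ?_
        intro l h2 h3 _ _
        have h4 := hαle l h2 h3
        linarith
  · push Not at hks
    have h1 := hαle j haj hjm
    refine w.caseA ham hm hlm hC0 hC hN hdm hda haj hjm hj (by linarith) ?_
    intro l h2 h3 _ h5
    have h4 := hαle l h2 h3
    linarith

theorem zero_norm (i : ι) (hi : a i = 0) : d i = 0 := by
  choose C hC0 hC using fun i => w.exists_C ham hm hlm i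
  have h2 := w.dm_sq ham hm hlm hC0 hC
  rcases sq_eq_sq_iff_eq_or_eq_neg.1 h2 with h3 | h3
  · rw [w.all_eq2 ham hm hlm hC0 hC h3 i, hi, zero_mul]
  · have h4 := w.neg.all_eq2 ham hm hlm hC0 hC (by simp [h3]) i
    rw [hi, zero_mul] at h4
    exact neg_eq_zero.1 h4

theorem single_norm2 (hN : 1 ≤ N)
    (hres : ∀ s j, a s ≠ 0 → s ≠ m → a j ≠ 0 → j ≠ m → s ≠ j →
      (∀ l, a l ≠ 0 → l ≠ m → l ≠ s → lam s < lam l) →
      (∀ l, a l ≠ 0 → l ≠ m → l ≠ j → lam l < lam j) →
      alpha N (lam s) + alpha N (lam j) + N - 2 ≠ 0) (i : ι) (him : i ≠ m) :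
    a i = 0 ∧ d i = 0 := by
  classical
  choose C hC0 hC using fun i => w.exists_C ham hm hlm i
  have key : ∀ d' : ι → ℝ, WS N lam a d' P P1 U U1 → d' m = a m * C m → a i = 0 := by
    intro d' w' hdm
    have hda := w'.all_eq2 ham hm hlm hC0 hC hdm
    by_contra hai
    obtain ⟨j, hj, hjmax⟩ := Finset.exists_max_image
      (Finset.univ.filter fun l => a l ≠ 0 ∧ l ≠ m) lam ⟨i, by simp [hai, him]⟩
    rw [Finset.mem_filter] at hj
    have hjlt : ∀ l, a l ≠ 0 → l ≠ m → l ≠ j → lam l < lam j := fun l hl hlm' hlj =>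
      lt_of_le_of_ne (hjmax l (by simp [hl, hlm'])) fun h => hlj (w.lamne h)
    exact w'.second_false2 ham hm hlm hC0 hC hN hdm hda hj.2.1 hj.2.2 hjlt
      fun s h1 h2 h3 h4 => hres s j h1 h2 hj.2.1 hj.2.2 h3 h4 hjlt
  have h1 : a i = 0 := by
    have h2 := w.dm_sq ham hm hlm hC0 hC
    rcases sq_eq_sq_iff_eq_or_eq_neg.1 h2 with h3 | h3
    · exact key d w h3
    · exact key _ w.neg (by simp [h3])
  exact ⟨h1, w.zero_norm ham hm hlm i h1⟩

end norm

/-- the top active index -/
theorem exists_top (w : WS N lam a d P P1 U U1) :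
    ∃ m, a m ≠ 0 ∧ ∀ i, a i ≠ 0 → i ≠ m → lam i < lam m := by
  classical
  have h0 : ∃ i, a i ≠ 0 := by
    by_contra hcon
    push Not at hcon
    have h1 := w.ph1 1 one_pos
    have h2 : sm a P1 1 = 0 := by
      rw [sm]
      exact Finset.sum_eq_zero fun i _ => by rw [hcon i, zero_mul]
    linarith
  obtain ⟨i0, hi0⟩ := h0
  obtain ⟨m, hm, hmax⟩ := Finset.exists_max_image
    (Finset.univ.filter fun l => a l ≠ 0) lam ⟨i0, by simp [hi0]⟩
  rw [Finset.mem_filter] at hm
  exact ⟨m, hm.2, fun l hl hlm' =>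
    lt_of_le_of_ne (hmax l (by simp [hl])) fun h => hlm' (w.lamne h)⟩

/-- an index which is not active in `a` is not active in `d` -/
theorem zero_of_zero (w : WS N lam a d P P1 U U1) (i : ι) (hi : a i = 0) : d i = 0 := by
  obtain ⟨m, ham, hm⟩ := w.exists_top
  have hlm := w.lampos m
  have hN1 : (0 : ℝ) < N + 1 := by positivity
  set H : ℝ := Real.sqrt (lam m / (N + 1)) with hH
  have hH0 : 0 < H := Real.sqrt_pos.2 (by positivity)
  have hH2 : H ^ 2 = lam m / (N + 1) := Real.sq_sqrt (by positivity)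
  refine (w.scale hH0).zero_norm ham (fun l hl hlm' => ?_) ?_ i hi
  · have h4 : 0 < H ^ 2 := by positivity
    exact div_lt_div_of_pos_right (hm l hl hlm') h4
  · show lam m / H ^ 2 = N + 1
    rw [hH2]
    field_simp

/-- only one index is active -/
theorem single2 (w : WS N lam a d P P1 U U1) (hN : 1 ≤ N)
    (hk : 2 ≤ N ∨ NRes {i | a i ≠ 0} lam) :
    ∃ m, a m ≠ 0 ∧ ∀ i, i ≠ m → a i = 0 ∧ d i = 0 := by
  obtain ⟨m, ham, hm⟩ := w.exists_top
  have hlm := w.lampos m
  have hN1 : (0 : ℝ) < N + 1 := by positivity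
  set H : ℝ := Real.sqrt (lam m / (N + 1)) with hH
  have hH0 : 0 < H := Real.sqrt_pos.2 (by positivity)
  have hH2 : H ^ 2 = lam m / (N + 1) := Real.sq_sqrt (by positivity)
  have h4 : 0 < H ^ 2 := by positivity
  refine ⟨m, ham, fun i hi => ?_⟩
  refine (w.scale hH0).single_norm2 ham
    (fun l hl hlm' => div_lt_div_of_pos_right (hm l hl hlm') h4) ?_ hN ?_ i hi
  · show lam m / H ^ 2 = N + 1
    rw [hH2]
    field_simp
  · intro s j h1 h2 h3 h5 h6 h7 h8
    show alpha N (lam s / H ^ 2) + alpha N (lam j / H ^ 2) + N - 2 ≠ 0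
    have hps := alpha_pos (N := N) (div_pos (w.lampos s) h4)
    have hpj := alpha_pos (N := N) (div_pos (w.lampos j) h4)
    by_cases hN2 : 2 ≤ N
    · have h9 : (2 : ℝ) ≤ N := by exact_mod_cast hN2
      have : 0 < alpha N (lam s / H ^ 2) + alpha N (lam j / H ^ 2) + N - 2 := by linarith
      exact this.ne'
    · have hN' : N = 1 := by omega
      have hk' := hk.resolve_left hN2
      have h7' : ∀ l, a l ≠ 0 → l ≠ m → l ≠ s → lam s < lam l := fun l k1 k2 k3 =>
        (div_lt_div_iff_of_pos_right h4).1 (h7 l k1 k2 k3)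
      have h8' : ∀ l, a l ≠ 0 → l ≠ m → l ≠ j → lam l < lam j := fun l k1 k2 k3 =>
        (div_lt_div_iff_of_pos_right h4).1 (h8 l k1 k2 k3)
      have hres := hk' s j m h1 h3 ham (h7' j h3 h5 (Ne.symm h6)) (hm j h3 h5)
        (fun p hp => by
          by_cases hpm : p = m
          · rw [hpm]
            exact (hm s h1 h2).le
          · by_cases hps : p = s
            · rw [hps]
            · exact (h7' p hp hpm hps).le)
        (fun p hp hpm => by
          by_cases hpj : p = j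
          · rw [hpj]
          · exact (h8' p hp hpm hpj).le)
      have e1 : ∀ l, (N : ℝ) ^ 2 + 4 * (lam l / H ^ 2) = 1 + 8 * lam l / lam m := by
        intro l
        rw [hH2, hN']
        push_cast
        field_simp
        ring
      rw [alpha, alpha, e1, e1, hN']
      push_cast
      intro h9
      exact hres (by linarith)

end WS

end

end Run7.h978.Rot
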