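import Mathlib
import Pool.Agent.Run7.h978.Geo9
import Pool.Agent.Run7.h978.Ps11

set_option autoImplicit false

/-!
The theorem on the sphere: general form.
-/

open Set Filter Topology Matrix Module
open scoped RealInnerProductSpace ContDiff Manifold
open Helper772Chen (ee diffAt sm_fderiv symm2 fd_congr fd_apply_const sm_apply_const fd_inner
  sm_inner)

namespace Run7.h978

section chart

variable {N m : ℕ} {Λ : Eu (N + 1) →ₗᵢ[ℝ] Eu m} {e0 : Eu m}

theorem chart_main3 (hN : 1 ≤ N) (ax : Axis Λ e0)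
    (hsurj : ∀ w : Eu m, ⟪w, e0⟫ = 0 → ∃ y, Λ y = w)
    {X : Eu (N + 1) → Eu m} (h : Imm X univ) (hX : ∀ a y, X (rf a y) = rf (Λ a) (X y))
    {κ : Type} [Fintype κ] {W : κ → Eu (N + 1) → Eu m} (sW : ∀ i, ContDiff ℝ ∞ (W i))
    {μ : κ → ℝ} (hμ : ∀ i, 0 < μ i) (hinj : Function.Injective μ)
    (hW : ∀ i y, lap X (W i) y = μ i • W i y) {c : Eu m} (hsum : ∀ y, X y = c + ∑ i, W i y)
    (hne : ∀ i, ∃ y, W i y ≠ 0) (hk : 2 ≤ N ∨ Rot.NRes univ μ) :
    ∃ i, ∀ y, X y = c + W i y := by
  have hsym := fun a => comp_symm h (fun i => (sW i).contDiffOn) (fun i => (hμ i).ne') hinj hW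
    hsum (rf a) (rf (Λ a)) (hX a)
  have hΛ0 : Λ (ee 0) ≠ 0 := by
    intro h0
    exact ee_ne 0 (Λ.injective (by rw [h0, map_zero]))
  have hc : ⟪c, Λ (ee 0)⟫ = 0 := by
    rw [real_inner_comm]
    exact rf_fixed hΛ0 (hsym (ee 0)).2
  have PX := polar ax hsurj hX
  have PW := fun i => polar ax hsurj fun a y => (hsym a).1 i y
  have hline : ContDiff ℝ ∞ (fun r : ℝ => r • (ee 0 : Eu (N + 1))) :=
    contDiff_id.smul contDiff_const
  obtain ⟨ε, v1, v2, u1, u2, hε, P⟩ := exists_prof hN ax h sW hW PX PW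
    (fun i => ((sW i).comp hline).inner ℝ contDiff_const)
    (fun i => ((sW i).comp hline).inner ℝ contDiff_const) (c0 := ⟪c, e0⟫)
    (fun r => by rw [hsum, inner_add_left, hc, zero_add, sum_inner])
    (fun r => by rw [hsum, inner_add_left, sum_inner])
  obtain ⟨i0, hi0⟩ := P.single3 hN hμ hinj (fun i => by
    by_contra hcon
    push Not at hcon
    obtain ⟨y0, hy0⟩ := hne i
    apply hy0
    have hz : W i = fun _ => 0 := by
      refine Continuous.ext_on (dense_compl_singleton (0 : Eu (N + 1))) (sW i).continuous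
        continuous_const fun y hy => ?_
      have hy0 : y ≠ 0 := hy
      have hyn : 0 < ‖y‖ := norm_pos_iff.2 hy0
      have e1 : y = ‖y‖ • (‖y‖⁻¹ • y) := by
        rw [smul_smul, mul_inv_cancel₀ hyn.ne', one_smul]
      have e2 : ‖(‖y‖⁻¹ • y)‖ = 1 := by
        rw [norm_smul, norm_inv, norm_norm, inv_mul_cancel₀ hyn.ne']
      have e3 := PW i ‖y‖ _ e2
      rw [← e1] at e3
      obtain ⟨k1, k2⟩ := hcon ‖y‖ hyn
      have k3 := (mul_eq_zero.1 k1).resolve_left hε
      show W i y = 0
      rw [e3]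
      simp only [k3, k2, zero_smul, add_zero]
    rw [hz]) hk
  refine ⟨i0, fun y => ?_⟩
  rw [hsum y]
  congr 1
  have : Unique κ := ⟨⟨i0⟩, hi0⟩
  rw [Fintype.sum_unique]
  exact congrArg (fun i => W i y) (hi0 _)

end chart

section sphere

/-- the spherical form of the theorem -/
theorem rot_spherical3 {N : ℕ} (hN : 1 ≤ N) {x : Sph (N + 1) → Eu (N + 1 + 1)}
    (hx : IsImmersion (N + 1) x)
    (hr : ∀ A : Eu (N + 1 + 1) ≃ₗᵢ[ℝ] Eu (N + 1 + 1), A (axv (N + 1)) = axv (N + 1) →
      ∀ p q : Sph (N + 1), (q : Eu (N + 1 + 1)) = A p → x q = A (x p))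
    {k : ℕ} {c : Eu (N + 1 + 1)} {u : Fin k → Sph (N + 1) → Eu (N + 1 + 1)} {μ : Fin k → ℝ}
    (hsum : ∀ p, x p = c + ∑ i, u i p) (hei : ∀ i, IsEigenmap (N + 1) x (u i) (μ i))
    (hne : ∀ i, ∃ p q, u i p ≠ u i q)
    (hk : 2 ≤ N ∨ (Function.Injective μ ∧ Rot.NRes univ μ)) :
    ∃ c : Eu (N + 1 + 1), ∀ p q, ‖x p - c‖ = ‖x q - c‖ := by
  classical
  have := sph_connected (N + 1) (by omega)
  have := sph_nontrivial (N + 1)
  obtain ⟨e, Λ, v, hea, het, hes, ax, hsurj, hsymm⟩ := sphere_chart N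
  have hi := imm_of_chart hx hea
  rw [het] at hi
  set X : Eu (N + 1) → Eu (N + 1 + 1) := x ∘ e.symm with hXdef
  have hX : ∀ a y, X (rf a y) = rf (Λ a) (X y) := by
    intro a y
    refine hr (rf (Λ a)) (rf_axis ax a) (e.symm y) (e.symm (rf a y)) ?_
    rw [hsymm, hsymm, LinearIsometryEquiv.norm_map]
    simp only [map_add, map_smul, rf_map, rf_axis ax]
  have su : ∀ i, ContDiff ℝ ∞ (u i ∘ e.symm) := by
    intro i
    have := (hei i).1 e hea
    rw [het] at this
    exact contDiffOn_univ.1 this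
  let WW : ℝ → Eu (N + 1) → Eu (N + 1 + 1) := fun r y => ∑ i with μ i = r, (u i ∘ e.symm) y
  let κ : Type := {r : ℝ // r ∈ (Finset.univ.image μ).filter fun r => ∃ y, WW r y ≠ 0}
  let _ : Fintype κ :=
    Finset.Subtype.fintype ((Finset.univ.image μ).filter fun r => ∃ y, WW r y ≠ 0)
  let ν : κ → ℝ := fun r => r.1
  let W : κ → Eu (N + 1) → Eu (N + 1 + 1) := fun r y => WW r.1 y
  have hνpos : ∀ r, 0 < ν r := by
    rintro ⟨r, hr⟩
    obtain ⟨i, -, hi⟩ := Finset.mem_image.1 (Finset.mem_filter.1 hr).1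
    show 0 < r
    rw [← hi]
    exact eigenvalue_pos hx (hei i) (hne i)
  have sW : ∀ r, ContDiff ℝ ∞ (W r) := fun r => ContDiff.sum fun i _ => su i
  have hW : ∀ r y, lap X (W r) y = ν r • W r y := by
    intro r y
    have h1 := lap_lin hi (Finset.univ.filter fun i => μ i = r.1)
      (fun i => (su i).contDiffOn) (mem_univ y) (fun _ => (1 : ℝ))
    simp only [one_smul] at h1
    show lap X (fun y => ∑ i with μ i = r.1, (u i ∘ e.symm) y) y =
      r.1 • ∑ i with μ i = r.1, (u i ∘ e.symm) y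
    rw [h1, Finset.smul_sum]
    refine Finset.sum_congr rfl fun i hi => ?_
    rw [(hei i).2 e hea y (by rw [het]; exact mem_univ y), (Finset.mem_filter.1 hi).2]
    rfl
  have hsumW : ∀ y, X y = c + ∑ r, W r y := by
    intro y
    show x (e.symm y) = _
    rw [hsum]
    congr 1
    show _ = ∑ r : κ, WW r.1 y
    rw [Finset.sum_coe_sort ((Finset.univ.image μ).filter fun r => ∃ y, WW r y ≠ 0)
      (fun r => WW r y), Finset.sum_filter]
    have h1 : ∀ r ∈ Finset.univ.image μ, (if ∃ y, WW r y ≠ 0 then WW r y else 0) =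
        ∑ i with μ i = r, (u i ∘ e.symm) y := by
      intro r _
      split
      · rfl
      · rename_i h2
        push Not at h2
        exact (h2 y).symm
    rw [Finset.sum_congr rfl h1]
    exact (Finset.sum_fiberwise_of_maps_to
      (fun i _ => Finset.mem_image_of_mem μ (Finset.mem_univ i)) _).symm
  have hνne : ∀ r : κ, ∃ y, W r y ≠ 0 := fun r => (Finset.mem_filter.1 r.2).2
  have hkκ : 2 ≤ N ∨ Rot.NRes univ ν := by
    rcases hk with h | ⟨hμi, hres⟩
    · exact Or.inl h
    refine Or.inr ?_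
    -- all the components are active
    have hact : ∀ i, μ i ∈ (Finset.univ.image μ).filter fun r => ∃ y, WW r y ≠ 0 := by
      intro i
      rw [Finset.mem_filter]
      refine ⟨Finset.mem_image_of_mem μ (Finset.mem_univ i), ?_⟩
      by_contra hcon
      push Not at hcon
      have h1 : ∀ y, u i (e.symm y) = 0 := by
        intro y
        have h2 := hcon y
        have h3 : (Finset.univ.filter fun l => μ l = μ i) = {i} := by
          ext l
          simp only [Finset.mem_filter, Finset.mem_univ, true_and, Finset.mem_singleton]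
          exact hμi.eq_iff
        have h4 : WW (μ i) y = ∑ l with μ l = μ i, (u l ∘ e.symm) y := rfl
        rw [h4, h3, Finset.sum_singleton] at h2
        exact h2
      have h5 : u i = fun _ => 0 := by
        refine Continuous.ext_on (dense_compl_singleton v) (hei i).1.continuous
          continuous_const fun p hp => ?_
        have hps : p ∈ e.source := by rw [hes]; exact hp
        have := h1 (e p)
        rwa [e.left_inv hps] at this
      obtain ⟨p, q, hpq⟩ := hne i
      rw [h5] at hpq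
      exact hpq rfl
    intro r1 r2 r3 _ _ _ h12 h23 hmin hmax
    obtain ⟨i, -, hi⟩ := Finset.mem_image.1 (Finset.mem_filter.1 r1.2).1
    obtain ⟨j, -, hj⟩ := Finset.mem_image.1 (Finset.mem_filter.1 r2.2).1
    obtain ⟨l, -, hl⟩ := Finset.mem_image.1 (Finset.mem_filter.1 r3.2).1
    have h1 : ν r1 = μ i := hi.symm
    have h2 : ν r2 = μ j := hj.symm
    have h3 : ν r3 = μ l := hl.symm
    rw [h1, h2] at h12
    rw [h2, h3] at h23
    rw [h1, h2, h3]
    refine hres i j l (mem_univ _) (mem_univ _) (mem_univ _) h12 h23 (fun p _ => ?_)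
      (fun p _ hp => ?_)
    · have := hmin ⟨μ p, hact p⟩ (mem_univ _)
      rw [h1] at this
      exact this
    · have := hmax ⟨μ p, hact p⟩ (mem_univ _) (fun h4 => hp (hμi (by
        have : μ p = ν r3 := congrArg Subtype.val h4
        rw [this, h3])))
      rw [h2] at this
      exact this
  obtain ⟨r0, hr0⟩ := chart_main3 hN ax hsurj hi hX sW hνpos Subtype.val_injective hW hsumW
    hνne hkκ
  have hsph := spherical hi (sW r0) (hνpos r0).ne' (hW r0) hr0
  refine ⟨c, fun p q => ?_⟩
  have hxc : Continuous x := hx.1.continuous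
  have h0 : (fun p => ‖x p - c‖) = fun _ => ‖X 0 - c‖ := by
    refine Continuous.ext_on (dense_compl_singleton v) (by fun_prop) continuous_const
      fun p hp => ?_
    have hps : p ∈ e.source := by rw [hes]; exact hp
    have := hsph (e p) 0
    rw [← this]
    show ‖x p - c‖ = ‖x (e.symm (e p)) - c‖
    rw [e.left_inv hps]
  have h1 := congrFun h0 p
  have h2 := congrFun h0 q
  exact h1.trans h2.symm

end sphere

end Run7.h978
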