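import Mathlib
import Pool.Agent.Run7.h978.Iso7

set_option autoImplicit false

/-!
Orders and leading coefficients of fractions of power series.
-/

namespace Run7.h978

section

variable {L : Type} [Field L]

/-- the variable -/
noncomputable def vs (L : Type) [Field L] : FK L := io (PowerSeries.X : PS L)

theorem io_inj : Function.Injective (io : PS L →+* FK L) := IsFractionRing.injective _ _

theorem vs_ne : vs L ≠ 0 := by
  intro h
  have h1 : (io (PowerSeries.X : PS L) : FK L) = io (0 : PS L) := by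
    rw [map_zero]
    exact h
  exact PowerSeries.X_ne_zero (io_inj h1)

/-- `h = c s ^ m + ...` -/
def Lead (m : ℤ) (h : FK L) (c : L) : Prop :=
  ∃ f : PS L, h = vs L ^ m * io f ∧ PowerSeries.constantCoeff f = c

/-- the order of `h` is at least `m` -/
def VL (m : ℤ) (h : FK L) : Prop := ∃ f : PS L, h = vs L ^ m * io f

theorem Lead.vl {m : ℤ} {h : FK L} {c : L} (H : Lead m h c) : VL m h := by
  obtain ⟨f, hf, _⟩ := H
  exact ⟨f, hf⟩

theorem VL.lead {m : ℤ} {h : FK L} (H : VL m h) : ∃ c, Lead m h c := by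
  obtain ⟨f, hf⟩ := H
  exact ⟨_, f, hf, rfl⟩

theorem Lead.zero (m : ℤ) : Lead m (0 : FK L) 0 := ⟨0, by simp, by simp⟩

theorem Lead.add {m : ℤ} {h h' : FK L} {c c' : L} (H : Lead m h c) (H' : Lead m h' c') :
    Lead m (h + h') (c + c') := by
  obtain ⟨f, rfl, rfl⟩ := H
  obtain ⟨f', rfl, rfl⟩ := H'
  exact ⟨f + f', by rw [map_add, mul_add], by rw [map_add]⟩

theorem Lead.neg {m : ℤ} {h : FK L} {c : L} (H : Lead m h c) : Lead m (-h) (-c) := by
  obtain ⟨f, rfl, rfl⟩ := H
  exact ⟨-f, by rw [map_neg, mul_neg], by rw [map_neg]⟩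

theorem Lead.sub {m : ℤ} {h h' : FK L} {c c' : L} (H : Lead m h c) (H' : Lead m h' c') :
    Lead m (h - h') (c - c') := by
  rw [sub_eq_add_neg, sub_eq_add_neg]
  exact H.add H'.neg

theorem Lead.sum {ι : Type*} (S : Finset ι) {m : ℤ} {h : ι → FK L} {c : ι → L}
    (H : ∀ i ∈ S, Lead m (h i) (c i)) : Lead m (∑ i ∈ S, h i) (∑ i ∈ S, c i) := by
  classical
  induction S using Finset.induction_on with
  | empty => simpa using Lead.zero m
  | insert a S ha ih =>
    rw [Finset.sum_insert ha, Finset.sum_insert ha]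
    exact (H a (Finset.mem_insert_self a S)).add (ih fun i hi => H i (Finset.mem_insert_of_mem hi))

theorem Lead.mul {m m' : ℤ} {h h' : FK L} {c c' : L} (H : Lead m h c) (H' : Lead m' h' c') :
    Lead (m + m') (h * h') (c * c') := by
  obtain ⟨f, rfl, rfl⟩ := H
  obtain ⟨f', rfl, rfl⟩ := H'
  exact ⟨f * f', by rw [map_mul, zpow_add₀ vs_ne]; ring, by rw [map_mul]⟩

theorem Lead.cast {m m' : ℤ} {h h' : FK L} {c c' : L} (H : Lead m h c) (h1 : m = m')
    (h2 : h = h') (h3 : c = c') : Lead m' h' c' := by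
  subst h1 h2 h3
  exact H

theorem Lead.mono {m m' : ℤ} {h : FK L} {c : L} (H : Lead m h c) (hm : m' < m) : Lead m' h 0 := by
  obtain ⟨f, rfl, rfl⟩ := H
  obtain ⟨k, rfl⟩ : ∃ k : ℕ, m = m' + ((k + 1 : ℕ) : ℤ) := ⟨(m - m' - 1).toNat, by omega⟩
  refine ⟨PowerSeries.X ^ (k + 1) * f, ?_, ?_⟩
  · rw [zpow_add₀ vs_ne, zpow_natCast, map_mul, map_pow]
    show vs L ^ m' * vs L ^ (k + 1) * io f = vs L ^ m' * (vs L ^ (k + 1) * io f)
    ring
  · rw [map_mul, map_pow, PowerSeries.constantCoeff_X, zero_pow (Nat.succ_ne_zero k), zero_mul]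

theorem Lead.succ {m : ℤ} {h : FK L} (H : Lead m h 0) : VL (m + 1) h := by
  obtain ⟨f, rfl, hf⟩ := H
  obtain ⟨g, rfl⟩ := PowerSeries.X_dvd_iff.2 hf
  refine ⟨g, ?_⟩
  rw [zpow_add₀ vs_ne, zpow_one, map_mul]
  show vs L ^ m * (vs L * io g) = vs L ^ m * vs L * io g
  ring

theorem Lead.unique {m : ℤ} {h : FK L} {c c' : L} (H : Lead m h c) (H' : Lead m h c') :
    c = c' := by
  obtain ⟨f, hf, rfl⟩ := H
  obtain ⟨f', hf', rfl⟩ := H'
  rw [hf] at hf'
  have h1 := mul_left_cancel₀ (zpow_ne_zero m vs_ne) hf'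
  rw [io_inj h1]

theorem Lead.ne_zero {m : ℤ} {h : FK L} {c : L} (H : Lead m h c) (hc : c ≠ 0) : h ≠ 0 := by
  rintro rfl
  exact hc (H.unique (Lead.zero m))

theorem Lead.inv {m : ℤ} {h : FK L} {c : L} (H : Lead m h c) (hc : c ≠ 0) :
    Lead (-m) h⁻¹ c⁻¹ := by
  obtain ⟨f, rfl, rfl⟩ := H
  have h1 : f * f⁻¹ = 1 := PowerSeries.mul_inv_cancel f hc
  refine ⟨f⁻¹, ?_, ?_⟩
  · rw [mul_inv, zpow_neg]
    congr 1
    symm
    apply eq_inv_of_mul_eq_one_left
    rw [← map_mul, mul_comm, h1, map_one]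
  · rw [PowerSeries.constantCoeff_inv]

theorem Lead.div {m m' : ℤ} {h h' : FK L} {c c' : L} (H : Lead m h c) (H' : Lead m' h' c')
    (hc : c' ≠ 0) : Lead (m - m') (h / h') (c / c') := by
  rw [div_eq_mul_inv, div_eq_mul_inv, sub_eq_add_neg]
  exact H.mul (H'.inv hc)

theorem exists_lead_io {f : PS L} (hf : f ≠ 0) : ∃ (m : ℤ) (c : L), c ≠ 0 ∧ Lead m (io f) c := by
  refine ⟨(f.order.toNat : ℤ), _, ?_, PowerSeries.divXPowOrder f, ?_, rfl⟩
  · rw [PowerSeries.constantCoeff_divXPowOrder]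
    exact PowerSeries.coeff_order hf
  · rw [zpow_natCast]
    show io f = io PowerSeries.X ^ f.order.toNat * _
    rw [← map_pow, ← map_mul, PowerSeries.X_pow_order_mul_divXPowOrder]

theorem exists_lead {h : FK L} (hh : h ≠ 0) : ∃ (m : ℤ) (c : L), c ≠ 0 ∧ Lead m h c := by
  obtain ⟨f, g, hg, rfl⟩ := IsFractionRing.div_surjective (A := PS L) h
  have hg0 : g ≠ 0 := nonZeroDivisors.ne_zero hg
  have hf0 : f ≠ 0 := by
    rintro rfl
    simp at hh
  obtain ⟨m, c, hc, H⟩ := exists_lead_io hf0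
  obtain ⟨m', c', hc', H'⟩ := exists_lead_io hg0
  exact ⟨m - m', c / c', div_ne_zero hc hc', H.div H' hc'⟩

theorem VL.add {m : ℤ} {h h' : FK L} (H : VL m h) (H' : VL m h') : VL m (h + h') := by
  obtain ⟨c, H⟩ := H.lead
  obtain ⟨c', H'⟩ := H'.lead
  exact (H.add H').vl

theorem VL.neg {m : ℤ} {h : FK L} (H : VL m h) : VL m (-h) := by
  obtain ⟨c, H⟩ := H.lead
  exact H.neg.vl

theorem VL.sub {m : ℤ} {h h' : FK L} (H : VL m h) (H' : VL m h') : VL m (h - h') := by
  rw [sub_eq_add_neg]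
  exact H.add H'.neg

theorem VL.sum {ι : Type*} (S : Finset ι) {m : ℤ} {h : ι → FK L} (H : ∀ i ∈ S, VL m (h i)) :
    VL m (∑ i ∈ S, h i) := by
  classical
  induction S using Finset.induction_on with
  | empty => simpa using (Lead.zero m).vl
  | insert a S ha ih =>
    rw [Finset.sum_insert ha]
    exact (H a (Finset.mem_insert_self a S)).add (ih fun i hi => H i (Finset.mem_insert_of_mem hi))

theorem VL.mul {m m' : ℤ} {h h' : FK L} (H : VL m h) (H' : VL m' h') : VL (m + m') (h * h') := by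
  obtain ⟨c, H⟩ := H.lead
  obtain ⟨c', H'⟩ := H'.lead
  exact (H.mul H').vl

theorem VL.mono {m m' : ℤ} {h : FK L} (H : VL m h) (hm : m' ≤ m) : VL m' h := by
  rcases hm.lt_or_eq with h1 | rfl
  · obtain ⟨c, H⟩ := H.lead
    exact (H.mono h1).vl
  · exact H

theorem VL.lead0 {m m' : ℤ} {h : FK L} (H : VL m h) (hm : m' < m) : Lead m' h 0 := by
  obtain ⟨c, H⟩ := H.lead
  exact H.mono hm

theorem VL.eq_zero_lead {m : ℤ} {h : FK L} {c : L} (H : VL (m + 1) h) (H' : Lead m h c) :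
    c = 0 :=
  H'.unique (H.lead0 (by omega))

theorem lead_C (c : L) : Lead 0 (io (PowerSeries.C c) : FK L) c :=
  ⟨PowerSeries.C c, by rw [zpow_zero, one_mul], PowerSeries.constantCoeff_C c⟩

theorem lead_vs (m : ℤ) : Lead m (vs L ^ m) 1 := ⟨1, by rw [map_one, mul_one], by rw [map_one]⟩

theorem vl_zero_iff {h : FK L} : VL 0 h ↔ ∃ f : PS L, h = io f := by
  constructor
  · rintro ⟨f, hf⟩
    exact ⟨f, by rw [hf, zpow_zero, one_mul]⟩
  · rintro ⟨f, hf⟩
    exact ⟨f, by rw [hf, zpow_zero, one_mul]⟩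

end

section

variable {L : Type} [Field L] [Algebra ℝ L]

theorem algebraMap_FK (r : ℝ) : algebraMap ℝ (FK L) r = io (PowerSeries.C (algebraMap ℝ L r)) := by
  rw [IsScalarTower.algebraMap_apply ℝ (PS L) (FK L) r, PowerSeries.algebraMap_apply]

theorem lead_real (r : ℝ) : Lead 0 (algebraMap ℝ (FK L) r) (algebraMap ℝ L r) := by
  rw [algebraMap_FK]
  exact lead_C _

/-- the derivation `s d/ds` -/
noncomputable def psS0 : PS L →ₗ[ℝ] PS L where
  toFun f := PowerSeries.mk (fun n => (n : L) * PowerSeries.coeff n f)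
  map_add' f g := by
    ext n
    simp [mul_add]
  map_smul' r f := by
    ext n
    simp only [PowerSeries.coeff_mk, RingHom.id_apply, PowerSeries.coeff_smul]
    rw [mul_smul_comm]

/-- the derivation `s d/ds` -/
noncomputable def psS : Derivation ℝ (PS L) (PS L) := by
  refine Derivation.mk' psS0 fun f g => ?_
  · ext n
    simp only [psS0, LinearMap.coe_mk, AddHom.coe_mk, PowerSeries.coeff_mk, map_add, smul_eq_mul,
      PowerSeries.coeff_mul, Finset.mul_sum]
    rw [← Finset.Nat.sum_antidiagonal_swap (f := fun x => PowerSeries.coeff x.1 g *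
      ((x.2 : L) * PowerSeries.coeff x.2 f)), ← Finset.sum_add_distrib]
    refine Finset.sum_congr rfl fun x hx => ?_
    have hx' : x.1 + x.2 = n := Finset.HasAntidiagonal.mem_antidiagonal.1 hx
    rw [← hx']
    push_cast
    simp only [Prod.fst_swap, Prod.snd_swap]
    ring

theorem coeff_psS (f : PS L) (n : ℕ) :
    PowerSeries.coeff n (psS f) = (n : L) * PowerSeries.coeff n f := by
  show PowerSeries.coeff n (PowerSeries.mk fun n => (n : L) * PowerSeries.coeff n f) = _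
  rw [PowerSeries.coeff_mk]

theorem psS_X : psS (PowerSeries.X : PS L) = PowerSeries.X := by
  ext n
  rw [coeff_psS, PowerSeries.coeff_X]
  split
  · rename_i h
    rw [h]
    simp
  · simp

theorem exists_Es : ∃ E : Derivation ℝ (FK L) (FK L), ∀ f : PS L, E (io f) = io (psS f) := by
  have h1 : Algebra.FormallyEtale (PowerSeries L) (FractionRing (PowerSeries L)) :=
    Algebra.FormallyEtale.of_isLocalization (nonZeroDivisors (PowerSeries L))
  obtain ⟨E, hE⟩ := exists_derivation (R := ℝ) (A := PowerSeries L)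
    (B := FractionRing (PowerSeries L))
    ((Algebra.linearMap (PowerSeries L) (FractionRing (PowerSeries L))).compDer psS)
  exact ⟨E, hE⟩

theorem D_zpow {K : Type*} [Field K] [Algebra ℝ K] (E : Derivation ℝ K K) {x : K} (hx : x ≠ 0)
    (m : ℤ) : E (x ^ m) = m * (E x / x) * x ^ m := by
  have hnat : ∀ k : ℕ, E (x ^ k) = k * (E x / x) * x ^ k := by
    intro k
    rw [Derivation.leibniz_pow]
    rcases Nat.eq_zero_or_pos k with rfl | hk
    · simp
    · obtain ⟨l, rfl⟩ : ∃ l, k = l + 1 := ⟨k - 1, by omega⟩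
      rw [Nat.add_sub_cancel, nsmul_eq_mul, smul_eq_mul, pow_succ]
      field_simp
  obtain ⟨k, rfl | rfl⟩ := m.eq_nat_or_neg
  · rw [zpow_natCast, hnat]
    push_cast
    rfl
  · rw [zpow_neg, zpow_natCast, Derivation.leibniz_inv, hnat]
    have h1 : x ^ k ≠ 0 := pow_ne_zero k hx
    rw [smul_eq_mul]
    push_cast
    field_simp

theorem Lead.der {E : Derivation ℝ (FK L) (FK L)} {D : Derivation ℝ L L}
    (hE : ∀ f, E (io f) = io (psD D f)) {m : ℤ} {h : FK L} {c : L} (H : Lead m h c) :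
    Lead m (E h) (D c) := by
  obtain ⟨f, rfl, rfl⟩ := H
  refine ⟨psD D f, ?_, ?_⟩
  · have h1 : E (vs L) = 0 := by
      show E (io PowerSeries.X) = 0
      rw [hE, psD_X, map_zero]
    rw [Derivation.leibniz, D_zpow E vs_ne, h1, hE, smul_eq_mul, smul_eq_mul]
    ring
  · rw [← PowerSeries.coeff_zero_eq_constantCoeff, coeff_psD,
      PowerSeries.coeff_zero_eq_constantCoeff]

theorem Lead.ders {E : Derivation ℝ (FK L) (FK L)} (hE : ∀ f, E (io f) = io (psS f)) {m : ℤ}
    {h : FK L} {c : L} (H : Lead m h c) : Lead m (E h) ((m : L) * c) := by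
  obtain ⟨f, rfl, rfl⟩ := H
  have h1 : E (vs L) = vs L := by
    show E (io PowerSeries.X) = io PowerSeries.X
    rw [hE, psS_X]
  have h2 : io (PowerSeries.C (m : L)) = ((m : ℤ) : FK L) := by
    rw [map_intCast, map_intCast]
  refine ⟨psS f + PowerSeries.C (m : L) * f, ?_, ?_⟩
  · rw [Derivation.leibniz, D_zpow E vs_ne, h1, hE, smul_eq_mul, smul_eq_mul, map_add, map_mul, h2,
      div_self vs_ne]
    ring
  · rw [map_add, map_mul, PowerSeries.constantCoeff_C, ← PowerSeries.coeff_zero_eq_constantCoeff,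
      coeff_psS, Nat.cast_zero, zero_mul, zero_add]

end

end Run7.h978
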