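import Mathlib
import Pool.Agent.Run7.h978.Iso5

set_option autoImplicit false

/-!
The Laplace operator of a hypersurface in terms of a normal field.
-/

namespace Run7.h978

section

variable {K : Type*} [Field K] [Algebra ℝ K] {n : ℕ}

theorem sum_smul_der_apply (d : Fin n → Derivation ℝ K K) (v : Fin n → K) (h : K) :
    (∑ i, v i • d i) h = ∑ i, v i * d i h := by
  have h1 := congrFun (map_sum (Derivation.coeFnAddMonoidHom (R := ℝ) (A := K) (M := K))
    (fun i => v i • d i) Finset.univ) h
  rw [Finset.sum_apply] at h1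
  exact h1

/-- the derivation in the direction of the normal field -/
noncomputable def nn (d : Fin n → Derivation ℝ K K) (v : Fin n → K) : Derivation ℝ K K :=
  ∑ i, v i • d i

theorem nn_apply (d : Fin n → Derivation ℝ K K) (v : Fin n → K) (h : K) :
    nn d v h = ∑ i, v i * d i h := sum_smul_der_apply d v h

/-- the tangential gradient, distinguished component -/
noncomputable def dd0 (d : Fin n → Derivation ℝ K K) (v : Fin n → K) (Y R : K) :
    Derivation ℝ K K := (-(Y / R)) • nn d v

/-- the tangential gradient, other components -/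
noncomputable def ddi (d : Fin n → Derivation ℝ K K) (v : Fin n → K) (R : K) (i : Fin n) :
    Derivation ℝ K K := d i + (-(v i / R)) • nn d v

theorem dd0_apply (d : Fin n → Derivation ℝ K K) (v : Fin n → K) (Y R h : K) :
    dd0 d v Y R h = -(Y / R) * nn d v h := rfl

theorem ddi_apply (d : Fin n → Derivation ℝ K K) (v : Fin n → K) (R : K) (i : Fin n) (h : K) :
    ddi d v R i h = d i h - v i / R * nn d v h := by
  show d i h + -(v i / R) * nn d v h = _
  ring

/-- the Laplace operator -/
noncomputable def lp (d : Fin n → Derivation ℝ K K) (v : Fin n → K) (Y R h : K) : K :=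
  -(dd0 d v Y R (dd0 d v Y R h) + ∑ i, ddi d v R i (ddi d v R i h))

theorem star (d : Fin n → Derivation ℝ K K) (v : Fin n → K) (Y R : K) (h20 : (2 : K) ≠ 0)
    (hR0 : R ≠ 0) (hR : R = Y ^ 2 + ∑ i, v i ^ 2) (h : K) :
    R * lp d v Y R h = -(R * ∑ i, d i (d i h)) + nn d v (nn d v h) -
      ∑ k, nn d v (v k) * d k h + ((∑ i, d i (v i)) - nn d v R / (2 * R)) * nn d v h := by
  set N := nn d v with hN
  set g := N h with hg
  have hNdef : ∀ x, N x = ∑ i, v i * d i x := nn_apply d v
  have e0 : dd0 d v Y R (dd0 d v Y R h) = Y / R * N (Y / R) * g + (Y / R) ^ 2 * N g := by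
    rw [dd0_apply, dd0_apply, ← hN, ← hg, Derivation.leibniz, map_neg, smul_eq_mul, smul_eq_mul]
    ring
  have ei : ∀ i, ddi d v R i (ddi d v R i h) = d i (d i h) - d i (v i / R) * g -
      v i * d i g / R - v i / R * N (d i h) + v i / R * N (v i / R) * g + (v i / R) ^ 2 * N g := by
    intro i
    rw [ddi_apply, ddi_apply, ← hN, ← hg, map_sub, map_sub, Derivation.leibniz, Derivation.leibniz,
      smul_eq_mul, smul_eq_mul, smul_eq_mul, smul_eq_mul]
    ring
  have f1 : ∑ i, v i / R * N (v i / R) + Y / R * N (Y / R) = -(N R / (2 * R ^ 2)) := by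
    have h1 : (R⁻¹ : K) = (Y / R) ^ 2 + ∑ i, (v i / R) ^ 2 := by
      have h2 : ∑ i, (v i / R) ^ 2 = (∑ i, v i ^ 2) / R ^ 2 := by
        rw [Finset.sum_div]
        refine Finset.sum_congr rfl fun i _ => ?_
        rw [div_pow]
      rw [h2, div_pow, ← add_div, ← hR]
      field_simp
    have h2 := congrArg N h1
    rw [Derivation.leibniz_inv, map_add, map_sum] at h2
    simp only [Derivation.leibniz_pow, smul_eq_mul, nsmul_eq_mul] at h2
    rw [← Finset.mul_sum] at h2
    push_cast at h2
    have h4 : ∀ a b : K, a ^ (2 - 1) * b = a * b := fun a b => by norm_num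
    simp only [h4] at h2
    rw [inv_pow] at h2
    generalize Y / R * N (Y / R) = t1 at h2 ⊢
    generalize ∑ i, v i / R * N (v i / R) = t2 at h2 ⊢
    generalize N R = t3 at h2 ⊢
    field_simp at h2 ⊢
    linear_combination -h2
  have f2 : ∑ i, d i (v i / R) = (∑ i, d i (v i)) / R - N R / R ^ 2 := by
    rw [hNdef, Finset.sum_div, Finset.sum_div, ← Finset.sum_sub_distrib]
    refine Finset.sum_congr rfl fun i _ => ?_
    rw [Derivation.leibniz_div, smul_eq_mul, smul_eq_mul, smul_eq_mul]
    field_simp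
  have f3 : ∑ i, v i / R * N (d i h) = (N g - ∑ k, N (v k) * d k h) / R := by
    have h1 : N g = ∑ i, (v i * N (d i h) + N (v i) * d i h) := by
      rw [hg, hNdef h, map_sum]
      refine Finset.sum_congr rfl fun i _ => ?_
      rw [Derivation.leibniz, smul_eq_mul, smul_eq_mul]
      ring
    rw [h1, Finset.sum_add_distrib, add_sub_cancel_right, Finset.sum_div]
    refine Finset.sum_congr rfl fun i _ => ?_
    ring
  have f4 : ∑ i, v i * d i g / R = N g / R := by
    rw [hNdef g, Finset.sum_div]
  have f5 : ∑ i, (v i / R) ^ 2 * N g = (R⁻¹ - (Y / R) ^ 2) * N g := by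
    rw [← Finset.sum_mul]
    congr 1
    have h2 : ∑ i, (v i / R) ^ 2 = (∑ i, v i ^ 2) / R ^ 2 := by
      rw [Finset.sum_div]
      refine Finset.sum_congr rfl fun i _ => ?_
      rw [div_pow]
    rw [h2]
    have h3 : ∑ i, v i ^ 2 = R - Y ^ 2 := by
      rw [hR]
      ring
    rw [h3]
    field_simp
  have f6 : ∑ i, v i / R * N (v i / R) * g = (-(N R / (2 * R ^ 2)) - Y / R * N (Y / R)) * g := by
    rw [← Finset.sum_mul]
    congr 1
    rw [← f1]
    ring
  have f7 : ∑ i, d i (v i / R) * g = ((∑ i, d i (v i)) / R - N R / R ^ 2) * g := by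
    rw [← Finset.sum_mul, f2]
  rw [lp, e0]
  simp only [ei, Finset.sum_add_distrib, Finset.sum_sub_distrib]
  rw [f3, f4, f5, f6, f7]
  field_simp
  ring

end

end Run7.h978
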