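import Mathlib
import Pool.Agent.Run7.h978.Sph1
import Pool.Agent.Run7.h978.Sph2

set_option autoImplicit false
set_option linter.unusedSectionVars false

/-!
The data at infinity.
-/

namespace Run7.h978

theorem der_eq_zero {L : Type} [Field L] [Algebra ℝ L] (E : Derivation ℝ (FK L) (FK L))
    (h : ∀ f : PS L, E (io f) = 0) (x : FK L) : E x = 0 := by
  obtain ⟨f, g, hg, rfl⟩ := IsFractionRing.div_surjective (A := PS L) x
  have h1 : E (io f) = 0 := h f
  have h2 : E (io g) = 0 := h g
  rw [Derivation.leibniz_div, h1, h2, smul_zero, smul_zero, sub_zero, smul_zero]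

/-- the data at infinity -/
structure Inf (n : ℕ) (L : Type) [Field L] [Algebra ℝ L] where
  /-- generic elements -/
  b : Fin n → L
  /-- derivations -/
  D : Fin n → Derivation ℝ L L
  Db : ∀ i k, D i (b k) = if i = k then 1 else 0
  Dc : ∀ i k x, D i (D k x) = D k (D i x)
  /-- ramification -/
  M : ℕ
  M0 : M ≠ 0
  /-- extended derivations -/
  E : Fin n → Derivation ℝ (FK L) (FK L)
  hE : ∀ i f, E i (io f) = io (psD (D i) f)
  /-- the derivation along the variable -/
  S : Derivation ℝ (FK L) (FK L)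
  hS : ∀ f, S (io f) = io (psS f)

namespace Inf

variable {n : ℕ} {L : Type} [Field L] [Algebra ℝ L] (T : Inf n L)

theorem E_vs (i : Fin n) (m : ℤ) : T.E i (vs L ^ m) = 0 := by
  have h1 : T.E i (vs L) = 0 := by
    show T.E i (io PowerSeries.X) = 0
    rw [T.hE, psD_X, map_zero]
  rw [D_zpow _ vs_ne, h1]
  ring

theorem S_vs (m : ℤ) : T.S (vs L ^ m) = m * vs L ^ m := by
  have h1 : T.S (vs L) = vs L := by
    show T.S (io PowerSeries.X) = io PowerSeries.X
    rw [T.hS, psS_X]
  rw [D_zpow _ vs_ne, h1, div_self vs_ne, mul_one]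

/-- the coordinate derivations -/
noncomputable def dd (i : Fin n) : Derivation ℝ (FK L) (FK L) := (vs L ^ (T.M : ℤ)) • T.E i

theorem dd_apply (i : Fin n) (h : FK L) : T.dd i h = vs L ^ (T.M : ℤ) * T.E i h := rfl

/-- the Euler derivation -/
noncomputable def eu : Derivation ℝ (FK L) (FK L) :=
  (∑ i, (io (PowerSeries.C (T.b i)) : FK L) • T.E i) +
    (io (PowerSeries.C ((T.M : L)⁻¹)) : FK L) • T.S

theorem eu_apply (h : FK L) : T.eu h = ∑ i, io (PowerSeries.C (T.b i)) * T.E i h +
    io (PowerSeries.C ((T.M : L)⁻¹)) * T.S h := by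
  show (∑ i, (io (PowerSeries.C (T.b i)) : FK L) • T.E i) h + _ = _
  rw [sum_smul_der_apply]
  rfl

theorem E_E (i k : Fin n) (h : FK L) : T.E i (T.E k h) = T.E k (T.E i h) := by
  have h1 := der_eq_zero ⁅T.E i, T.E k⁆ (fun f => by
    rw [Derivation.commutator_apply, T.hE, T.hE, T.hE, T.hE, sub_eq_zero]
    congr 1
    ext m
    rw [coeff_psD, coeff_psD, coeff_psD, coeff_psD, T.Dc]) h
  rw [Derivation.commutator_apply, sub_eq_zero] at h1
  exact h1

theorem S_E (i : Fin n) (h : FK L) : T.S (T.E i h) = T.E i (T.S h) := by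
  have h1 := der_eq_zero ⁅T.S, T.E i⁆ (fun f => by
    rw [Derivation.commutator_apply, T.hE, T.hS, T.hS, T.hE, sub_eq_zero]
    congr 1
    ext m
    rw [coeff_psS, coeff_psD, coeff_psD, coeff_psS, Derivation.leibniz, Derivation.map_natCast,
      smul_zero, add_zero, smul_eq_mul]) h
  rw [Derivation.commutator_apply, sub_eq_zero] at h1
  exact h1

section

variable [CharZero L]

theorem M_ne : (T.M : L) ≠ 0 := Nat.cast_ne_zero.2 T.M0

theorem eu_vs (m : ℤ) : T.eu (vs L ^ m) = io (PowerSeries.C ((m : L) / T.M)) * vs L ^ m := by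
  rw [eu_apply, T.S_vs]
  simp only [T.E_vs, mul_zero, Finset.sum_const_zero, zero_add]
  have h2 : io (PowerSeries.C (m : L)) = ((m : ℤ) : FK L) := by
    rw [map_intCast, map_intCast]
  rw [← h2, ← mul_assoc, ← map_mul, ← map_mul, div_eq_mul_inv, mul_comm (m : L)]

theorem eu_dd (i : Fin n) (h : FK L) : T.eu (T.dd i h) = T.dd i (T.eu h) := by
  have h1 : T.eu (vs L ^ (T.M : ℤ)) = vs L ^ (T.M : ℤ) := by
    rw [T.eu_vs]
    have h2 : (((T.M : ℤ) : L) / T.M) = 1 := by
      rw [Int.cast_natCast, div_self T.M_ne]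
    rw [h2, map_one, map_one, one_mul]
  have h3 : T.E i (io (PowerSeries.C ((T.M : L)⁻¹))) = 0 := by
    rw [T.hE, psD_C]
    have : T.D i ((T.M : L)⁻¹) = 0 := by
      rw [Derivation.leibniz_inv, Derivation.map_natCast, smul_zero]
    rw [this, map_zero, map_zero]
  have h4 : ∀ k, T.E i (io (PowerSeries.C (T.b k))) = if i = k then 1 else 0 := by
    intro k
    rw [T.hE, psD_C, T.Db]
    split
    · rw [map_one, map_one]
    · rw [map_zero, map_zero]
  rw [dd_apply, Derivation.leibniz, h1, smul_eq_mul, smul_eq_mul, dd_apply, T.eu_apply h, map_add,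
    map_sum, T.eu_apply (T.E i h)]
  simp only [Derivation.leibniz, h3, h4, smul_eq_mul, mul_ite, mul_one, mul_zero, add_zero]
  rw [Finset.sum_add_distrib, Finset.sum_ite_eq, if_pos (Finset.mem_univ i), T.S_E]
  have h5 : ∀ k, T.E k (T.E i h) = T.E i (T.E k h) := fun k => T.E_E k i h
  simp only [h5]
  ring

variable {T} in
theorem eu_mul {g h : FK L} (hg : T.eu g = 0) (hh : T.eu h = 0) : T.eu (g * h) = 0 := by
  rw [Derivation.leibniz, hg, hh, smul_zero, smul_zero, add_zero]

variable {T} in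
theorem eu_add {g h : FK L} (hg : T.eu g = 0) (hh : T.eu h = 0) : T.eu (g + h) = 0 := by
  rw [map_add, hg, hh, add_zero]

variable {T} in
theorem eu_sub {g h : FK L} (hg : T.eu g = 0) (hh : T.eu h = 0) : T.eu (g - h) = 0 := by
  rw [map_sub, hg, hh, sub_zero]

variable {T} in
theorem eu_neg {g : FK L} (hg : T.eu g = 0) : T.eu (-g) = 0 := by
  rw [map_neg, hg, neg_zero]

variable {T} in
theorem eu_inv {g : FK L} (hg : T.eu g = 0) : T.eu g⁻¹ = 0 := by
  rw [Derivation.leibniz_inv, hg, smul_zero]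

variable {T} in
theorem eu_div {g h : FK L} (hg : T.eu g = 0) (hh : T.eu h = 0) : T.eu (g / h) = 0 := by
  rw [div_eq_mul_inv]
  exact eu_mul hg (eu_inv hh)

variable {T} in
theorem eu_pow {g : FK L} (hg : T.eu g = 0) (m : ℕ) : T.eu (g ^ m) = 0 := by
  induction m with
  | zero => rw [pow_zero, Derivation.map_one_eq_zero]
  | succ m ih =>
    rw [pow_succ]
    exact eu_mul ih hg

variable {T} in
theorem eu_sum {ι : Type*} (s : Finset ι) {g : ι → FK L} (hg : ∀ i ∈ s, T.eu (g i) = 0) :
    T.eu (∑ i ∈ s, g i) = 0 := by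
  rw [map_sum]
  exact Finset.sum_eq_zero hg

variable {T} in
theorem eu_d {h : FK L} (hh : T.eu h = 0) (i : Fin n) : T.eu (T.dd i h) = 0 := by
  rw [T.eu_dd, hh, map_zero]

theorem lead_dd {m : ℤ} {h : FK L} {c : L} (H : Lead m h c) (i : Fin n) :
    Lead (m + T.M) (T.dd i h) (T.D i c) :=
  ((lead_vs (T.M : ℤ)).mul (H.der (T.hE i))).cast (add_comm _ _) rfl (one_mul _)

theorem lead_eu {m : ℤ} {h : FK L} {c : L} (H : Lead m h c) :
    Lead m (T.eu h) (∑ i, T.b i * T.D i c + (m : L) / T.M * c) := by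
  rw [eu_apply]
  refine ((Lead.sum (Finset.univ : Finset (Fin n)) (m := m) fun i _ =>
    ((lead_C (T.b i)).mul (H.der (T.hE i))).cast (zero_add m) rfl rfl).add
    (((lead_C ((T.M : L)⁻¹)).mul (H.ders T.hS)).cast (zero_add m) rfl rfl)).cast rfl rfl ?_
  congr 1
  ring

theorem lead_rel {m : ℤ} {h : FK L} {c : L} (H : Lead m h c) (he : T.eu h = 0) :
    ∑ i, T.b i * T.D i c = -((m : L) / T.M) * c := by
  have h1 := T.lead_eu H
  rw [he] at h1
  have h2 := (Lead.zero m).unique h1
  linear_combination -h2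

/-- the free coordinates -/
noncomputable def xi (i : Fin n) : FK L := io (PowerSeries.C (T.b i)) * vs L ^ (-(T.M : ℤ))

theorem lead_xi (i : Fin n) : Lead (-(T.M : ℤ)) (T.xi i) (T.b i) :=
  ((lead_C (T.b i)).mul (lead_vs (-(T.M : ℤ)))).cast (zero_add _) rfl (mul_one _)

theorem dd_xi (i k : Fin n) : T.dd i (T.xi k) = if i = k then 1 else 0 := by
  rw [dd_apply, xi, Derivation.leibniz, T.E_vs, smul_zero, zero_add, T.hE, psD_C, T.Db,
    smul_eq_mul, ← mul_assoc, ← zpow_add₀ vs_ne, add_neg_cancel, zpow_zero, one_mul]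
  split
  · rw [map_one, map_one]
  · rw [map_zero, map_zero]

theorem eu_xi (i : Fin n) : T.eu (T.xi i) = 0 := by
  have h1 : T.eu (io (PowerSeries.C (T.b i))) = io (PowerSeries.C (T.b i)) := by
    rw [eu_apply]
    have h4 : ∀ k, T.E k (io (PowerSeries.C (T.b i))) = if k = i then 1 else 0 := by
      intro k
      rw [T.hE, psD_C, T.Db]
      split
      · rw [map_one, map_one]
      · rw [map_zero, map_zero]
    have h5 : T.S (io (PowerSeries.C (T.b i))) = 0 := by
      rw [T.hS]
      have : psS (PowerSeries.C (T.b i)) = 0 := by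
        ext m
        rw [coeff_psS, PowerSeries.coeff_C]
        split
        · rename_i h
          rw [h]
          simp
        · simp
      rw [this, map_zero]
    simp only [h4, h5, mul_ite, mul_one, mul_zero, add_zero]
    rw [Finset.sum_ite_eq', if_pos (Finset.mem_univ i)]
  rw [xi, Derivation.leibniz, h1, T.eu_vs, smul_eq_mul, smul_eq_mul]
  have h2 : (((-(T.M : ℤ) : ℤ) : L) / T.M) = -1 := by
    push_cast
    rw [neg_div, div_self T.M_ne]
  rw [h2, map_neg, map_neg, map_one, map_one]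
  ring

end

end Inf

end Run7.h978
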