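import Mathlib
import Pool.Agent.Run7.h978.Sph3

set_option autoImplicit false
set_option linter.unusedSectionVars false

/-!
Points near the isotropic cone at infinity.
-/

namespace Run7.h978

theorem lead_natCast {L : Type} [Field L] (m : ℕ) : Lead 0 (m : FK L) (m : L) :=
  (lead_C (m : L)).cast rfl (by rw [map_natCast, map_natCast]) rfl

theorem lead_two {L : Type} [Field L] : Lead 0 (2 : FK L) (2 : L) :=
  (lead_natCast (L := L) 2).cast rfl (by norm_num) (by norm_num)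

namespace Inf

variable {n : ℕ} {L : Type} [Field L] [Algebra ℝ L] [CharZero L] (T : Inf n L)

theorem two_ne : (2 : FK L) ≠ 0 := (lead_two (L := L)).ne_zero two_ne_zero

/-- the square of the distance to the origin -/
noncomputable def U (Y : FK L) : FK L := Y ^ 2 + ∑ i, T.xi i ^ 2

/-- half the gradient -/
noncomputable def q (Y : FK L) (i : Fin n) : FK L := T.dd i (T.U Y) / 2

/-- the normal -/
noncomputable def v (Y : FK L) (i : Fin n) : FK L := T.xi i - T.q Y i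

/-- the square of the normal -/
noncomputable def R (Y : FK L) : FK L := Y ^ 2 + ∑ i, T.v Y i ^ 2

/-- the normal derivation -/
noncomputable def N (Y : FK L) : Derivation ℝ (FK L) (FK L) := nn T.dd (T.v Y)

theorem N_apply (Y h : FK L) : T.N Y h = ∑ i, T.v Y i * T.dd i h := nn_apply _ _ _

/-- the Laplace operator -/
noncomputable def lap (Y h : FK L) : FK L := lp T.dd (T.v Y) Y (T.R Y) h

theorem dd_sq (i : Fin n) (x : FK L) : T.dd i (x ^ 2) = 2 * x * T.dd i x := by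
  rw [pow_two, Derivation.leibniz, smul_eq_mul]
  ring

theorem v_eq (Y : FK L) (i : Fin n) : T.v Y i = -(Y * T.dd i Y) := by
  have h2 : T.dd i (T.U Y) = 2 * Y * T.dd i Y + 2 * T.xi i := by
    rw [U, map_add, map_sum, T.dd_sq]
    congr 1
    rw [Finset.sum_eq_single i]
    · rw [T.dd_sq, T.dd_xi, if_pos rfl, mul_one]
    · intro k _ hk
      rw [T.dd_sq, T.dd_xi, if_neg (Ne.symm hk), mul_zero]
    · intro h
      exact absurd (Finset.mem_univ i) h
  rw [v, q, h2]
  have := two_ne (L := L)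
  field_simp
  ring

theorem R_eq (Y : FK L) : T.R Y = T.U Y - ∑ i, T.xi i * T.dd i (T.U Y) + ∑ i, T.q Y i ^ 2 := by
  have h1 : ∀ i, T.v Y i ^ 2 = T.xi i ^ 2 - T.xi i * T.dd i (T.U Y) + T.q Y i ^ 2 := by
    intro i
    have h2 : T.dd i (T.U Y) = 2 * T.q Y i := by
      rw [q]
      have := two_ne (L := L)
      field_simp
    rw [v, h2]
    ring
  rw [R]
  simp only [h1, Finset.sum_add_distrib, Finset.sum_sub_distrib]
  rw [U]
  ring

theorem starq {Y : FK L} (hR0 : T.R Y ≠ 0) (h : FK L) :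
    T.R Y * T.lap Y h = -(T.R Y * ∑ i, T.dd i (T.dd i h)) + T.N Y (T.N Y h) - T.N Y h +
      ∑ k, T.N Y (T.q Y k) * T.dd k h +
      ((n : FK L) - ∑ i, T.dd i (T.q Y i) - T.N Y (T.R Y) / (2 * T.R Y)) * T.N Y h := by
  have h1 := star T.dd (T.v Y) Y (T.R Y) two_ne hR0 rfl h
  have h2 : ∑ k, nn T.dd (T.v Y) (T.v Y k) * T.dd k h =
      T.N Y h - ∑ k, T.N Y (T.q Y k) * T.dd k h := by
    rw [T.N_apply Y h, ← Finset.sum_sub_distrib]
    refine Finset.sum_congr rfl fun k _ => ?_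
    have h3 : nn T.dd (T.v Y) (T.v Y k) = T.v Y k - T.N Y (T.q Y k) := by
      have h4 : nn T.dd (T.v Y) (T.xi k) = T.v Y k := by
        rw [nn_apply]
        simp only [T.dd_xi, mul_ite, mul_one, mul_zero]
        rw [Finset.sum_ite_eq', if_pos (Finset.mem_univ k)]
      conv_lhs => rw [v, map_sub, h4]
      rfl
    rw [h3]
    ring
  have h3 : ∑ i, T.dd i (T.v Y i) = (n : FK L) - ∑ i, T.dd i (T.q Y i) := by
    have h4 : ∀ i, T.dd i (T.v Y i) = 1 - T.dd i (T.q Y i) := by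
      intro i
      rw [v, map_sub, T.dd_xi, if_pos rfl]
    simp only [h4, Finset.sum_sub_distrib]
    congr 1
    simp
  rw [h2, h3] at h1
  rw [lap, h1, N]
  ring

section

variable {T} {Y : FK L} (hY : T.eu Y = 0)

include hY

theorem eu_U : T.eu (T.U Y) = 0 :=
  eu_add (eu_pow hY 2) (eu_sum _ fun i _ => eu_pow (T.eu_xi i) 2)

theorem eu_q (i : Fin n) : T.eu (T.q Y i) = 0 := by
  have h1 : T.eu (2 : FK L) = 0 := by
    have : (2 : FK L) = ((2 : ℕ) : FK L) := by norm_num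
    rw [this, Derivation.map_natCast]
  exact eu_div (eu_d (eu_U hY) i) h1

theorem eu_v (i : Fin n) : T.eu (T.v Y i) = 0 := eu_sub (T.eu_xi i) (eu_q hY i)

theorem eu_R : T.eu (T.R Y) = 0 := eu_add (eu_pow hY 2) (eu_sum _ fun i _ => eu_pow (eu_v hY i) 2)

theorem eu_N {h : FK L} (he : T.eu h = 0) : T.eu (T.N Y h) = 0 := by
  rw [N_apply]
  exact eu_sum _ fun i _ => eu_mul (eu_v hY i) (eu_d he i)

theorem eu_lap {h : FK L} (he : T.eu h = 0) : T.eu (T.lap Y h) = 0 := by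
  have h0 : ∀ {g : FK L}, T.eu g = 0 → T.eu (dd0 T.dd (T.v Y) Y (T.R Y) g) = 0 := by
    intro g hg
    rw [dd0_apply]
    exact eu_mul (eu_neg (eu_div hY (eu_R hY))) (eu_N hY hg)
  have h1 : ∀ i, ∀ {g : FK L}, T.eu g = 0 → T.eu (ddi T.dd (T.v Y) (T.R Y) i g) = 0 := by
    intro i g hg
    rw [ddi_apply]
    exact eu_sub (eu_d hg i) (eu_mul (eu_div (eu_v hY i) (eu_R hY)) (eu_N hY hg))
  exact eu_neg (eu_add (h0 (h0 he)) (eu_sum _ fun i _ => h1 i (h1 i he)))

end

section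

variable {T} {Y : FK L} {k : ℤ} {u : L} (hU : Lead k (T.U Y) u) (hk : 1 - 2 * (T.M : ℤ) ≤ k)

include hU

theorem lead_q (i : Fin n) : Lead (k + T.M) (T.q Y i) (T.D i u / 2) :=
  ((T.lead_dd hU i).div lead_two two_ne_zero).cast (sub_zero _) rfl rfl

include hk

theorem lead_v (i : Fin n) : Lead (-(T.M : ℤ)) (T.v Y i) (T.b i) :=
  ((T.lead_xi i).sub ((lead_q hU i).mono (by omega))).cast rfl rfl (sub_zero _)

theorem lead_N {m : ℤ} {h : FK L} {c : L} (H : Lead m h c) :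
    Lead m (T.N Y h) (∑ i, T.b i * T.D i c) := by
  rw [N_apply]
  exact Lead.sum _ fun i _ => ((lead_v hU hk i).mul (T.lead_dd H i)).cast (by ring) rfl rfl

theorem lead_N' {m : ℤ} {h : FK L} {c : L} (H : Lead m h c) (he : T.eu h = 0) :
    Lead m (T.N Y h) (-((m : L) / T.M) * c) :=
  (lead_N hU hk H).cast rfl rfl (T.lead_rel H he)

theorem lead_R (hY : T.eu Y = 0) :
    Lead k (T.R Y) (u + (k : L) / T.M * u) := by
  rw [R_eq]
  have h1 : Lead k (∑ i, T.xi i * T.dd i (T.U Y)) (∑ i, T.b i * T.D i u) :=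
    Lead.sum _ fun i _ => ((T.lead_xi i).mul (T.lead_dd hU i)).cast (by ring) rfl rfl
  have h2 : Lead k (∑ i, T.q Y i ^ 2) 0 := by
    refine (Lead.sum _ fun i _ => ?_).cast rfl rfl (Finset.sum_const_zero)
    rw [pow_two]
    exact ((lead_q hU i).mul (lead_q hU i)).mono (by omega)
  refine ((hU.sub h1).add h2).cast rfl rfl ?_
  rw [T.lead_rel hU (eu_U hY)]
  ring

theorem lead_lap {ϱ : ℤ} {r : L} (hY : T.eu Y = 0) (hR : Lead ϱ (T.R Y) r) (hr : r ≠ 0)
    (hϱ : 1 - 2 * (T.M : ℤ) ≤ ϱ) {m : ℤ} {h : FK L} {c : L} (H : Lead m h c) (he : T.eu h = 0) :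
    Lead (m - ϱ) (T.lap Y h) ((-((m : L) / T.M)) *
      (-((m : L) / T.M) + n - 1 + (ϱ : L) / (2 * T.M)) * c / r) := by
  have hM := T.M_ne
  have hR0 : T.R Y ≠ 0 := hR.ne_zero hr
  have h1 : Lead m (T.R Y * T.lap Y h) ((-((m : L) / T.M)) *
      (-((m : L) / T.M) + n - 1 + (ϱ : L) / (2 * T.M)) * c) := by
    rw [T.starq hR0]
    have a1 : Lead m (T.R Y * ∑ i, T.dd i (T.dd i h)) 0 :=
      (hR.mul (Lead.sum _ fun i _ => T.lead_dd (T.lead_dd H i) i)).mono (by omega)
    have a2 := lead_N' hU hk H he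
    have a3 := lead_N' hU hk a2 (eu_N hY he)
    have a4 : Lead m (∑ k, T.N Y (T.q Y k) * T.dd k h) 0 := by
      refine (Lead.sum _ fun i _ => ?_).cast rfl rfl (Finset.sum_const_zero)
      exact ((lead_N hU hk (lead_q hU i)).mul (T.lead_dd H i)).mono (by omega)
    have a5 : Lead 0 (∑ i, T.dd i (T.q Y i)) 0 := by
      refine (Lead.sum _ fun i _ => ?_).cast rfl rfl (Finset.sum_const_zero)
      exact (T.lead_dd (lead_q hU i) i).mono (by omega)
    have a6 : Lead 0 (T.N Y (T.R Y) / (2 * T.R Y)) (-((ϱ : L) / (2 * T.M))) := by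
      refine ((lead_N' hU hk hR (eu_R hY)).div (lead_two.mul hR) (mul_ne_zero two_ne_zero hr)).cast
        (by ring) rfl ?_
      field_simp
    refine (((((a1.neg).add a3).sub a2).add a4).add
      (((((lead_natCast n).sub a5).sub a6).mul a2).cast (zero_add m) rfl rfl)).cast rfl rfl ?_
    ring
  refine (h1.div hR hr).cast rfl ?_ rfl
  rw [mul_div_cancel_left₀ _ hR0]

end

end Inf

end Run7.h978
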