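import Mathlib
import Pool.Agent.Run7.h978.Sph4

set_option autoImplicit false
set_option linter.unusedSectionVars false

/-!
The order of the square of the distance at a point near the isotropic cone.
-/

namespace Run7.h978

/-- iterates -/
noncomputable def itL {K : Type*} [Field K] [Algebra ℝ K] (Δ : K → K) : List ℝ → K → K
  | [], h => h
  | μ :: l, h => itL Δ l (Δ h - algebraMap ℝ K μ * h)

theorem itK_eq_itL {K : Type*} [Field K] [Algebra ℝ K] {N : ℕ} (δ : Fin N → Derivation ℝ K K)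
    (l : List ℝ) : ∀ h, itK δ l h = itL (lapK δ) l h := by
  induction l with
  | nil => intro h; rfl
  | cons μ l ih =>
    intro h
    rw [itK, itL, ih]

theorem itL_add {K : Type*} [Field K] [Algebra ℝ K] {Δ : K → K}
    (hΔ : ∀ a b, Δ (a + b) = Δ a + Δ b) (l : List ℝ) :
    ∀ a b, itL Δ l (a + b) = itL Δ l a + itL Δ l b := by
  induction l with
  | nil => intro a b; rfl
  | cons μ l ih =>
    intro a b
    rw [itL, itL, itL, ← ih, hΔ]
    congr 1
    ring

theorem VL.div {L : Type} [Field L] {m ϱ : ℤ} {h R : FK L} {r : L} (H : VL m h)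
    (hR : Lead ϱ R r) (hr : r ≠ 0) : VL (m - ϱ) (h / R) := by
  obtain ⟨c, H⟩ := H.lead
  exact (H.div hR hr).vl

namespace Inf

variable {n : ℕ} {L : Type} [Field L] [Algebra ℝ L] [CharZero L] {T : Inf n L}

theorem eu_real (T : Inf n L) (r : ℝ) : T.eu (algebraMap ℝ (FK L) r) = 0 :=
  Derivation.map_algebraMap _ r

theorem it_fixed {Δ : FK L → FK L} (hΔ : ∀ h, T.eu h = 0 → T.eu (Δ h) = 0) {m : ℤ}
    (H : ∀ h c, Lead m h c → T.eu h = 0 → Lead m (Δ h) 0) (l : List ℝ) :
    ∀ h c, Lead m h c → T.eu h = 0 →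
      Lead m (itL Δ l h) ((l.map fun μ => -algebraMap ℝ L μ).prod * c) := by
  induction l with
  | nil =>
    intro h c h1 _
    simpa [itL] using h1
  | cons μ l ih =>
    intro h c h1 h2
    rw [itL, List.map_cons, List.prod_cons]
    have h3 : Lead m (algebraMap ℝ (FK L) μ * h) (algebraMap ℝ L μ * c) :=
      ((lead_real μ).mul h1).cast (zero_add m) rfl rfl
    refine (ih _ _ ((H h c h1 h2).sub h3) ?_).cast rfl rfl ?_
    · exact eu_sub (hΔ h h2) (eu_mul (T.eu_real μ) h2)
    · ring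

theorem it_vl {Δ : FK L → FK L} (hΔ : ∀ h, T.eu h = 0 → T.eu (Δ h) = 0) {m : ℤ}
    (H : ∀ h, VL m h → T.eu h = 0 → VL m (Δ h)) (l : List ℝ) :
    ∀ h, VL m h → T.eu h = 0 → VL m (itL Δ l h) := by
  induction l with
  | nil =>
    intro h h1 _
    exact h1
  | cons μ l ih =>
    intro h h1 h2
    rw [itL]
    apply ih
    · refine (H h h1 h2).sub ?_
      have h3 := (lead_real (L := L) μ).vl.mul h1
      rwa [zero_add] at h3
    · exact eu_sub (hΔ h h2) (eu_mul (T.eu_real μ) h2)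

theorem it_super {Δ : FK L → FK L} (hΔ : ∀ h, T.eu h = 0 → T.eu (Δ h) = 0)
    (H : ∀ h m c, m < 0 → c ≠ 0 → Lead m h c → T.eu h = 0 →
      ∃ m' c', m' < m ∧ c' ≠ 0 ∧ Lead m' (Δ h) c') (l : List ℝ) :
    ∀ h m c, m < 0 → c ≠ 0 → Lead m h c → T.eu h = 0 → itL Δ l h ≠ 0 := by
  induction l with
  | nil =>
    intro h m c _ hc h1 _
    exact h1.ne_zero hc
  | cons μ l ih =>
    intro h m c hm hc h1 h2
    obtain ⟨m', c', hm', hc', h3⟩ := H h m c hm hc h1 h2
    rw [itL]
    have h4 : Lead m' (algebraMap ℝ (FK L) μ * h) 0 :=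
      (((lead_real μ).mul h1).cast (zero_add m) rfl rfl).mono hm'
    exact ih _ m' c' (by omega) hc' ((h3.sub h4).cast rfl rfl (sub_zero c'))
      (eu_sub (hΔ h h2) (eu_mul (T.eu_real μ) h2))

theorem lap_add (T : Inf n L) (Y a b : FK L) : T.lap Y (a + b) = T.lap Y a + T.lap Y b := by
  simp only [lap, lp, map_add, Finset.sum_add_distrib]
  ring

theorem prod_ne {l : List ℝ} (hl : ∀ μ ∈ l, μ ≠ 0) :
    (l.map fun μ => -algebraMap ℝ L μ).prod ≠ 0 := by
  apply List.prod_ne_zero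
  intro h
  rw [List.mem_map] at h
  obtain ⟨μ, hμ, h1⟩ := h
  exact hl μ hμ ((map_eq_zero (algebraMap ℝ L)).1 (neg_eq_zero.1 h1))

/-- the multiplication by the slope -/
theorem mul_slope {Y : FK L} (hY : T.eu Y = 0) {y0 : L} (hYl : Lead (-(T.M : ℤ)) Y y0)
    (hy0 : y0 ≠ 0) {u : L} (hU : Lead (-(T.M : ℤ)) (T.U Y) u) {r : L} (hR : Lead 0 (T.R Y) r)
    (hr : r ≠ 0) (i : Fin n) {h : FK L} (hh : VL (-(T.M : ℤ)) h) (he : T.eu h = 0) :
    VL 1 (T.lap Y (T.v Y i / Y * h) - T.v Y i / Y * T.lap Y h) := by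
  have hM1 : (1 : ℤ) ≤ T.M := by
    have := T.M0
    omega
  have hk : 1 - 2 * (T.M : ℤ) ≤ -(T.M : ℤ) := by omega
  have hY0 : Y ≠ 0 := hYl.ne_zero hy0
  have hR0 : T.R Y ≠ 0 := hR.ne_zero hr
  obtain ⟨c, hc⟩ := hh.lead
  set f := T.v Y i / Y with hf
  have hfe : T.eu f = 0 := eu_div (eu_v hY i) hY
  have hf0 : Lead 0 f (T.b i / y0) :=
    ((lead_v hU hk i).div hYl hy0).cast (sub_self _) rfl rfl
  have hq : Lead 0 (T.q Y i) (T.D i u / 2) := (lead_q hU i).cast (neg_add_cancel _) rfl rfl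
  have hNq : VL 1 (T.N Y (T.q Y i)) := by
    have h1 := lead_N' hU hk hq (eu_q hY i)
    have h2 : Lead 0 (T.N Y (T.q Y i)) 0 := h1.cast rfl rfl (by simp)
    exact h2.succ
  have hddY : ∀ k, T.dd k Y = -(T.v Y k / Y) := by
    intro k
    rw [T.v_eq]
    field_simp
  have hNY : T.N Y Y = Y - T.R Y / Y := by
    rw [T.N_apply]
    simp only [hddY]
    have h1 : ∑ k, T.v Y k ^ 2 = T.R Y - Y ^ 2 := by
      rw [R]
      ring
    have h2 : ∑ k, T.v Y k * -(T.v Y k / Y) = -((∑ k, T.v Y k ^ 2) / Y) := by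
      rw [Finset.sum_div, ← Finset.sum_neg_distrib]
      refine Finset.sum_congr rfl fun k _ => ?_
      ring
    rw [h2, h1]
    field_simp
    ring
  have hNv : T.N Y (T.v Y i) = T.v Y i - T.N Y (T.q Y i) := by
    have h4 : T.N Y (T.xi i) = T.v Y i := by
      rw [N_apply]
      simp only [T.dd_xi, mul_ite, mul_one, mul_zero]
      rw [Finset.sum_ite_eq', if_pos (Finset.mem_univ i)]
    conv_lhs => rw [v, map_sub, h4]
  have hNf : T.N Y f = -(T.N Y (T.q Y i) / Y) + T.v Y i * T.R Y / Y ^ 3 := by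
    rw [hf, Derivation.leibniz_div, hNY, hNv]
    simp only [smul_eq_mul]
    field_simp
    ring
  have hNfv : VL ((T.M : ℤ) + 1) (T.N Y f) := by
    rw [hNf]
    refine VL.add ?_ ?_
    · exact ((hNq.div hYl hy0).mono (by omega)).neg
    · have h1 := ((lead_v hU hk i).vl.mul hR.vl).div (hYl.mul (hYl.mul hYl))
        (mul_ne_zero hy0 (mul_ne_zero hy0 hy0))
      have h2 : Y ^ 3 = Y * (Y * Y) := by ring
      rw [h2]
      exact h1.mono (by omega)
  have hNNf : VL ((T.M : ℤ) + 1) (T.N Y (T.N Y f)) := by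
    obtain ⟨c', hc'⟩ := hNfv.lead
    exact (lead_N hU hk hc').vl
  have hNh : VL (-(T.M : ℤ)) (T.N Y h) := (lead_N hU hk hc).vl
  have hdf : ∀ k, VL (T.M : ℤ) (T.dd k f) := by
    intro k
    have h1 := (T.lead_dd hf0 k).vl
    rwa [zero_add] at h1
  have hddf : ∀ k, VL ((T.M : ℤ) + T.M) (T.dd k (T.dd k f)) := by
    intro k
    obtain ⟨c', hc'⟩ := (hdf k).lead
    exact (T.lead_dd hc' k).vl
  have hdh : ∀ k, VL 0 (T.dd k h) := by
    intro k
    exact (T.lead_dd hc k).vl.mono (by omega)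
  have hNqk : ∀ k, VL 0 (T.N Y (T.q Y k)) := by
    intro k
    exact (lead_N hU hk (lead_q hU k)).vl.mono (by omega)
  set A : FK L := (n : FK L) - ∑ i, T.dd i (T.q Y i) - T.N Y (T.R Y) / (2 * T.R Y) with hA
  have hA0 : VL 0 A := by
    refine ((lead_natCast n).vl.sub ?_).sub ?_
    · exact VL.sum _ fun k _ => (T.lead_dd (lead_q hU k) k).vl.mono (by omega)
    · exact ((lead_N hU hk hR).vl.div (lead_two.mul hR) (mul_ne_zero two_ne_zero hr)).mono
        (by omega)
  have e1 := T.starq hR0 h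
  have e2 := T.starq hR0 (f * h)
  have e3 : T.R Y * (T.lap Y (f * h) - f * T.lap Y h) =
      -(T.R Y * (2 * ∑ k, T.dd k f * T.dd k h + ∑ k, h * T.dd k (T.dd k f))) +
        2 * (T.N Y f * T.N Y h) + h * T.N Y (T.N Y f) - h * T.N Y f +
        ∑ k, T.N Y (T.q Y k) * (h * T.dd k f) + A * (h * T.N Y f) := by
    have a1 : ∑ k, T.dd k (T.dd k (f * h)) = f * ∑ k, T.dd k (T.dd k h) +
        2 * ∑ k, T.dd k f * T.dd k h + ∑ k, h * T.dd k (T.dd k f) := by
      rw [Finset.mul_sum, Finset.mul_sum, ← Finset.sum_add_distrib, ← Finset.sum_add_distrib]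
      refine Finset.sum_congr rfl fun k _ => ?_
      rw [Derivation.leibniz, map_add, smul_eq_mul, smul_eq_mul, Derivation.leibniz,
        Derivation.leibniz, smul_eq_mul, smul_eq_mul, smul_eq_mul, smul_eq_mul]
      ring
    have a2 : T.N Y (f * h) = f * T.N Y h + h * T.N Y f := by
      rw [Derivation.leibniz, smul_eq_mul, smul_eq_mul]
    have a3 : T.N Y (T.N Y (f * h)) = f * T.N Y (T.N Y h) + 2 * (T.N Y f * T.N Y h) +
        h * T.N Y (T.N Y f) := by
      rw [a2, map_add, Derivation.leibniz, Derivation.leibniz, smul_eq_mul, smul_eq_mul,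
        smul_eq_mul, smul_eq_mul]
      ring
    have a4 : ∑ k, T.N Y (T.q Y k) * T.dd k (f * h) = f * ∑ k, T.N Y (T.q Y k) * T.dd k h +
        ∑ k, T.N Y (T.q Y k) * (h * T.dd k f) := by
      rw [Finset.mul_sum, ← Finset.sum_add_distrib]
      refine Finset.sum_congr rfl fun k _ => ?_
      rw [Derivation.leibniz, smul_eq_mul, smul_eq_mul]
      ring
    rw [a1, a3, a4, ← hA, a2] at e2
    rw [← hA] at e1
    linear_combination e2 - f * e1
  have e4 : VL 1 (T.R Y * (T.lap Y (f * h) - f * T.lap Y h)) := by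
    rw [e3]
    refine ((((VL.add (VL.neg ?_) ?_).add ?_).sub ?_).add ?_).add ?_
    · refine (hR.vl.mul (VL.add (m := 1) ?_ ?_)).mono (by omega)
      · refine (lead_two.vl.mul (VL.sum (m := 1) _ fun k _ => ?_)).mono (by omega)
        exact ((hdf k).mul (hdh k)).mono (by omega)
      · exact VL.sum _ fun k _ => (hh.mul (hddf k)).mono (by omega)
    · exact (lead_two.vl.mul (hNfv.mul hNh)).mono (by omega)
    · exact (hh.mul hNNf).mono (by omega)
    · exact (hh.mul hNfv).mono (by omega)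
    · refine VL.sum _ fun k _ => ?_
      have h1 := (hh.mul (hdf k))
      have h2 : VL 1 (T.N Y (T.q Y k)) := by
        have h3 : Lead 0 (T.q Y k) (T.D k u / 2) :=
          (lead_q hU k).cast (neg_add_cancel _) rfl rfl
        have h4 : Lead 0 (T.N Y (T.q Y k)) 0 :=
          (lead_N' hU hk h3 (eu_q hY k)).cast rfl rfl (by simp)
        exact h4.succ
      exact (h2.mul h1).mono (by omega)
    · exact (hA0.mul (hh.mul hNfv)).mono (by omega)
  have e5 := e4.div hR hr
  rwa [mul_div_cancel_left₀ _ hR0] at e5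

/-- the main estimate -/
theorem cone {Y : FK L} (hY : T.eu Y = 0) {y0 : L} (hYl : Lead (-(T.M : ℤ)) Y y0)
    (hy0 : y0 ≠ 0) (hU0 : Lead (-(2 * (T.M : ℤ))) (T.U Y) 0) (hR0 : T.R Y ≠ 0) (i0 : Fin n)
    {l : List ℝ} (hl : ∀ μ ∈ l, μ ≠ 0) (hxi : ∀ i, itL (T.lap Y) l (T.xi i) = 0)
    (hYit : itL (T.lap Y) l Y = 0) : VL 0 (T.U Y) := by
  by_contra hcon
  have hM1 : (1 : ℤ) ≤ T.M := by
    have := T.M0
    omega
  have hML := T.M_ne
  have hUne : T.U Y ≠ 0 := by
    intro h
    rw [h] at hcon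
    exact hcon (Lead.zero 0).vl
  obtain ⟨k, u, hu, hU⟩ := exists_lead hUne
  have hk0 : k < 0 := by
    by_contra h
    exact hcon (hU.vl.mono (by omega))
  have hk : 1 - 2 * (T.M : ℤ) ≤ k := by
    by_contra h
    rcases (show k ≤ -(2 * (T.M : ℤ)) by omega).lt_or_eq with h1 | h1
    · exact hu (hU.unique (hU0.mono h1))
    · rw [h1] at hU
      exact hu (hU.unique hU0)
  obtain ⟨ϱ, r, hr, hR⟩ := exists_lead hR0
  have hRk := lead_R hU hk hY
  have hkϱ : k ≤ ϱ := by
    by_contra h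
    exact hr (hR.unique (hRk.mono (by omega)))
  have hΔ : ∀ h, T.eu h = 0 → T.eu (T.lap Y h) = 0 := fun h he => eu_lap hY he
  have hlap := fun (m : ℤ) (h : FK L) (c : L) (H : Lead m h c) (he : T.eu h = 0) =>
    lead_lap hU hk hY hR hr (by omega) H he
  have hb : T.b i0 ≠ 0 := by
    intro h
    have h1 := T.Db i0 i0
    rw [h, map_zero, if_pos rfl] at h1
    exact zero_ne_one h1
  rcases lt_trichotomy ϱ 0 with hϱ | hϱ | hϱ
  · -- subcritical
    have h1 := it_fixed (T := T) (Δ := T.lap Y) hΔ (m := -(T.M : ℤ)) (fun h c H he =>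
      (hlap _ h c H he).mono (by omega)) l (T.xi i0) _ (T.lead_xi i0) (T.eu_xi i0)
    rw [hxi] at h1
    have h2 := (Lead.zero _).unique h1
    exact mul_ne_zero (prod_ne hl) hb h2.symm
  · -- critical
    subst hϱ
    have hkM : k = -(T.M : ℤ) := by
      have h1 := hRk.unique (hR.mono (by omega))
      have h2 : (1 + (k : L) / T.M) * u = 0 := by
        rw [← h1]
        ring
      have h3 := (mul_eq_zero.1 h2).resolve_right hu
      have h4 : ((k + T.M : ℤ) : L) = 0 := by
        push_cast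
        field_simp at h3
        linear_combination h3
      have h5 : k + T.M = 0 := by exact_mod_cast h4
      omega
    subst hkM
    have hvl : ∀ m : ℤ, ∀ h, VL m h → T.eu h = 0 → VL m (T.lap Y h) := by
      intro m h H he
      obtain ⟨c, H⟩ := H.lead
      exact (hlap _ h c H he).vl.mono (by omega)
    have hmul : ∀ i, ∀ l : List ℝ, ∀ h, VL (-(T.M : ℤ)) h → T.eu h = 0 →
        VL 1 (itL (T.lap Y) l (T.v Y i / Y * h) - T.v Y i / Y * itL (T.lap Y) l h) := by
      intro i l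
      induction l with
      | nil =>
        intro h _ _
        rw [itL, itL, sub_self]
        exact (Lead.zero 1).vl
      | cons μ l ih =>
        intro h H he
        rw [itL, itL]
        set h' := T.lap Y h - algebraMap ℝ (FK L) μ * h with hh'
        set e := T.lap Y (T.v Y i / Y * h) - T.v Y i / Y * T.lap Y h with he'
        have h1 : T.lap Y (T.v Y i / Y * h) - algebraMap ℝ (FK L) μ * (T.v Y i / Y * h) =
            T.v Y i / Y * h' + e := by
          rw [hh', he']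
          ring
        have hev : VL 1 e := mul_slope hY hYl hy0 hU hR hr i H he
        have hfe : T.eu (T.v Y i / Y) = 0 := eu_div (eu_v hY i) hY
        have hee : T.eu e = 0 := eu_sub (hΔ _ (eu_mul hfe he)) (eu_mul hfe (hΔ _ he))
        rw [h1, itL_add (T.lap_add Y), add_sub_right_comm]
        refine (ih h' ?_ ?_).add ?_
        · refine (hvl _ h H he).sub ?_
          have h3 := (lead_real (L := L) μ).vl.mul H
          rwa [zero_add] at h3
        · exact eu_sub (hΔ h he) (eu_mul (T.eu_real μ) he)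
        · exact it_vl hΔ (hvl 1) l e hev hee
    have hD : ∀ i, T.D i u = 0 := by
      intro i
      have hY0 : Y ≠ 0 := hYl.ne_zero hy0
      have h1 := hmul i l Y hYl.vl hY
      rw [hYit, mul_zero, sub_zero, div_mul_cancel₀ _ hY0] at h1
      have h2 : T.xi i = T.v Y i + T.q Y i := by
        rw [v]
        ring
      have h3 := hxi i
      rw [h2, itL_add (T.lap_add Y)] at h3
      have h4 : itL (T.lap Y) l (T.q Y i) = -itL (T.lap Y) l (T.v Y i) := by
        linear_combination h3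
      have h5 : Lead 0 (T.q Y i) (T.D i u / 2) := (lead_q hU i).cast (neg_add_cancel _) rfl rfl
      have h6 := it_fixed (T := T) (Δ := T.lap Y) hΔ (m := 0) (fun h c H he =>
        (hlap _ h c H he).cast (sub_zero _) rfl (by simp)) l _ _ h5 (eu_q hY i)
      rw [h4] at h6
      have h7 := VL.eq_zero_lead (m := 0) h1.neg h6
      have h8 := (mul_eq_zero.1 h7).resolve_left (prod_ne hl)
      exact (div_eq_zero_iff.1 h8).resolve_right two_ne_zero
    have h1 := T.lead_rel hU (eu_U hY)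
    simp only [hD, mul_zero, Finset.sum_const_zero] at h1
    have h2 : -(((-(T.M : ℤ) : ℤ) : L) / T.M) = 1 := by
      push_cast
      rw [neg_div, neg_neg, div_self hML]
    rw [h2, one_mul] at h1
    exact hu h1.symm
  · -- supercritical
    refine it_super (T := T) (Δ := T.lap Y) hΔ (fun h m c hm hc H he => ?_) l (T.xi i0) _ _
      (by omega) hb (T.lead_xi i0) (T.eu_xi i0) (hxi i0)
    refine ⟨m - ϱ, _, by omega, ?_, hlap m h c H he⟩
    have hn : 1 ≤ n := Nat.succ_le_of_lt (Nat.lt_of_le_of_lt (Nat.zero_le _) i0.2)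
    refine div_ne_zero (mul_ne_zero ?_ hc) hr
    have hMq : (0 : ℚ) < T.M := by exact_mod_cast hM1
    have hmq : (m : ℚ) < 0 := by exact_mod_cast hm
    have hϱq : (0 : ℚ) < ϱ := by exact_mod_cast hϱ
    have hnq : (1 : ℚ) ≤ n := by exact_mod_cast hn
    have h1 : (0 : ℚ) < -((m : ℚ) / T.M) := by
      rw [neg_pos]
      exact div_neg_of_neg_of_pos hmq hMq
    have h2 : (0 : ℚ) < -((m : ℚ) / T.M) + n - 1 + (ϱ : ℚ) / (2 * T.M) := by
      have h3 : (0 : ℚ) < (ϱ : ℚ) / (2 * T.M) := div_pos hϱq (by positivity)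
      linarith
    have h3 := (mul_pos h1 h2).ne'
    have h4 : ((((-((m : ℚ) / T.M)) * (-((m : ℚ) / T.M) + n - 1 + (ϱ : ℚ) / (2 * T.M)) : ℚ)) : L) ≠
        0 := Rat.cast_ne_zero.2 h3
    push_cast at h4
    exact h4

end Inf

end Run7.h978
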