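import Mathlib
import Pool.Agent.Run7.h978.Sph5
import Pool.Agent.Run7.h978.Iso6

set_option autoImplicit false
set_option linter.unusedSectionVars false

/-!
The estimate for the points of an algebraic hypersurface.
-/

open MvPolynomial

namespace Run7.h978

namespace Inf

variable {n : ℕ} {L : Type} [Field L] [Algebra ℝ L] [CharZero L] (T : Inf n L)

theorem sum_b_sq_ne (i0 : Fin n) : ∑ i, T.b i ^ 2 ≠ 0 := by
  intro h
  have h1 := congrArg (T.D i0) h
  have h2 : T.D i0 (∑ i, T.b i ^ 2) = 2 * T.b i0 := by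
    rw [map_sum, Finset.sum_eq_single i0]
    · rw [Derivation.leibniz_pow, T.Db, if_pos rfl]
      norm_num
    · intro k _ hk
      rw [Derivation.leibniz_pow, T.Db, if_neg (Ne.symm hk), smul_zero, smul_zero]
    · intro h
      exact absurd (Finset.mem_univ i0) h
  rw [h2, map_zero] at h1
  have h3 := (mul_eq_zero.1 h1).resolve_left two_ne_zero
  have h4 := T.Db i0 i0
  rw [h3, map_zero, if_pos rfl] at h4
  exact zero_ne_one h4

theorem cone_F (i0 : Fin n) {F : MvPolynomial (Fin (n + 1)) ℝ} (hF : Irreducible F)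
    (hWF : ¬F ∣ WW F) (j : Fin (n + 1)) (hFj : pderiv j F ≠ 0) {l : List ℝ}
    (hl : ∀ μ ∈ l, μ ≠ 0) (hd : ∀ a, F ∣ iter F l 0 (X a)) {η : PS L}
    (hη : aeval (Fin.insertNth (α := fun _ => FK L) j (io η * vs L ^ (-(T.M : ℤ))) T.xi) F = 0)
    (hη0 : PowerSeries.constantCoeff η ^ 2 + ∑ i, T.b i ^ 2 = 0) :
    VL 0 (T.U (io η * vs L ^ (-(T.M : ℤ)))) := by
  classical
  set Y : FK L := io η * vs L ^ (-(T.M : ℤ)) with hYdef
  set x : Fin (n + 1) → FK L := Fin.insertNth (α := fun _ => FK L) j Y T.xi with hx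
  have hxj : x j = Y := Fin.insertNth_apply_same (α := fun _ => FK L) j Y _
  have hxi : ∀ i, x (j.succAbove i) = T.xi i := fun i =>
    Fin.insertNth_apply_succAbove (α := fun _ => FK L) j Y _ i
  have hxi' : (fun i => x (j.succAbove i)) = T.xi := funext hxi
  set y0 := PowerSeries.constantCoeff η with hy0def
  have hb := T.sum_b_sq_ne i0
  have hy0 : y0 ≠ 0 := by
    intro h
    rw [h] at hη0
    apply hb
    linear_combination hη0
  have hYl : Lead (-(T.M : ℤ)) Y y0 := ⟨η, by rw [hYdef, mul_comm], rfl⟩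
  have hY0 : Y ≠ 0 := hYl.ne_zero hy0
  have hind : ∀ r : MvPolynomial (Fin n) ℝ, aeval T.xi r = 0 → r = 0 := by
    intro r hr
    exact eq_zero_of_aeval (x := T.xi) (E := T.dd) (t := fun _ => 1) (fun _ => one_ne_zero)
      (fun i k => T.dd_xi i k) r hr
  set g : Fin (n + 1) → FK L := fun a => aeval x (pderiv a F) with hg
  have hgj : g j ≠ 0 := by
    intro h0
    obtain ⟨r, hr0, hr⟩ := exists_elim j hF hFj (fun h => hFj (not_dvd_pderiv j h))
    apply hr0
    apply hind
    rw [← hxi']
    exact hr (FK L) x hη h0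
  have hW : aeval x (WW F) ≠ 0 := by
    intro h0
    obtain ⟨r, hr0, hr⟩ := exists_elim j hF hFj hWF
    apply hr0
    apply hind
    rw [← hxi']
    exact hr (FK L) x hη h0
  -- the derivatives of `Y`
  have hgi : ∀ i, g (j.succAbove i) = -(g j * T.dd i Y) := by
    intro i
    have h1 := congrArg (T.dd i) hη
    rw [chain, map_zero, Fin.sum_univ_succAbove _ j, hxj] at h1
    simp only [hxi, T.dd_xi, mul_ite, mul_one, mul_zero, Finset.sum_ite_eq, Finset.mem_univ,
      if_true] at h1
    linear_combination h1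
  have hY : T.eu Y = 0 := by
    have h1 := congrArg T.eu hη
    rw [chain, map_zero, Fin.sum_univ_succAbove _ j, hxj] at h1
    simp only [hxi, T.eu_xi, mul_zero, Finset.sum_const_zero, add_zero] at h1
    exact (mul_eq_zero.1 h1).resolve_left hgj
  have hgv : ∀ i, Y * g (j.succAbove i) = g j * T.v Y i := by
    intro i
    rw [hgi, T.v_eq]
    ring
  have hWR : Y ^ 2 * aeval x (WW F) = g j ^ 2 * T.R Y := by
    rw [aeval_WW, Fin.sum_univ_succAbove _ j, mul_add, R, mul_add, Finset.mul_sum,
      Finset.mul_sum]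
    congr 1
    · have h1 : aeval x (pderiv j F) = g j := rfl
      rw [h1]
      ring
    · refine Finset.sum_congr rfl fun i _ => ?_
      have h1 : aeval x (pderiv (j.succAbove i) F) = g (j.succAbove i) := rfl
      rw [h1, ← mul_pow, hgv, mul_pow]
  have hR0 : T.R Y ≠ 0 := by
    intro h
    rw [h, mul_zero] at hWR
    exact mul_ne_zero (pow_ne_zero 2 hY0) hW hWR
  have hU0 : Lead (-(2 * (T.M : ℤ))) (T.U Y) 0 := by
    rw [← hη0]
    refine ((hYl.mul hYl).add (Lead.sum (Finset.univ : Finset (Fin n)) fun i _ =>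
      (T.lead_xi i).mul (T.lead_xi i))).cast (by ring) ?_ ?_
    · rw [U, pow_two]
      congr 1
      refine Finset.sum_congr rfl fun i _ => ?_
      rw [pow_two]
    · rw [pow_two]
      congr 1
      refine Finset.sum_congr rfl fun i _ => ?_
      rw [pow_two]
  -- the tangential derivations
  have hddY : ∀ k, T.dd k Y = -(T.v Y k / Y) := by
    intro k
    rw [T.v_eq]
    field_simp
  have hNxi : ∀ i, T.N Y (T.xi i) = T.v Y i := by
    intro i
    rw [N_apply]
    simp only [T.dd_xi, mul_ite, mul_one, mul_zero]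
    rw [Finset.sum_ite_eq', if_pos (Finset.mem_univ i)]
  have hNY : T.N Y Y = Y - T.R Y / Y := by
    rw [T.N_apply]
    simp only [hddY]
    have h1 : ∑ k, T.v Y k ^ 2 = T.R Y - Y ^ 2 := by
      rw [R]
      ring
    have h2 : ∑ k, T.v Y k * -(T.v Y k / Y) = -((∑ k, T.v Y k ^ 2) / Y) := by
      rw [Finset.sum_div, ← Finset.sum_neg_distrib]
      refine Finset.sum_congr rfl fun k _ => ?_
      ring
    rw [h2, h1]
    field_simp
    ring
  set δ : Fin (n + 1) → Derivation ℝ (FK L) (FK L) :=
    Fin.insertNth (α := fun _ => Derivation ℝ (FK L) (FK L)) j (dd0 T.dd (T.v Y) Y (T.R Y))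
      (ddi T.dd (T.v Y) (T.R Y)) with hδ
  have hδj : δ j = dd0 T.dd (T.v Y) Y (T.R Y) :=
    Fin.insertNth_apply_same (α := fun _ => Derivation ℝ (FK L) (FK L)) j _ _
  have hδi : ∀ i, δ (j.succAbove i) = ddi T.dd (T.v Y) (T.R Y) i := fun i =>
    Fin.insertNth_apply_succAbove (α := fun _ => Derivation ℝ (FK L) (FK L)) j _ _ i
  have hlap : lapK δ = T.lap Y := by
    funext h
    rw [lapK, Fin.sum_univ_succAbove _ j, hδj]
    simp only [hδi]
    rfl
  have hT : Tang x F δ := by
    refine ⟨hW, ?_, ?_⟩
    · have hgen : ∀ a b, aeval x (pderiv a F) * aeval x (pderiv b F) / aeval x (WW F) =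
          (Y * g a) * (Y * g b) / (g j ^ 2 * T.R Y) := by
        intro a b
        rw [← hWR]
        have h1 : aeval x (pderiv a F) = g a := rfl
        have h2 : aeval x (pderiv b F) = g b := rfl
        rw [h1, h2]
        field_simp
      intro a b
      rw [hgen]
      rcases eq_or_ne a j with ha | ha
      · rw [ha, hδj, dd0_apply]
        rcases eq_or_ne b j with hb' | hb'
        · rw [hb', hxj, if_pos rfl]
          show -(Y / T.R Y) * T.N Y Y = _
          rw [hNY]
          field_simp
          ring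
        · obtain ⟨k, rfl⟩ := Fin.exists_succAbove_eq hb'
          rw [hxi, if_neg (Fin.ne_succAbove j k), hgv]
          show -(Y / T.R Y) * T.N Y (T.xi k) = _
          rw [hNxi]
          field_simp
          ring
      · obtain ⟨i, rfl⟩ := Fin.exists_succAbove_eq ha
        rw [hδi, ddi_apply]
        rcases eq_or_ne b j with hb' | hb'
        · rw [hb', hxj, if_neg (Fin.succAbove_ne j i), hgv, hddY]
          show -(T.v Y i / Y) - T.v Y i / T.R Y * T.N Y Y = _
          rw [hNY]
          field_simp
          ring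
        · obtain ⟨k, rfl⟩ := Fin.exists_succAbove_eq hb'
          rw [hxi, hgv, hgv, T.dd_xi]
          show _ - T.v Y i / T.R Y * T.N Y (T.xi k) = _
          rw [hNxi]
          have h1 : (if j.succAbove i = j.succAbove k then (1 : FK L) else 0) =
              if i = k then 1 else 0 := by
            by_cases h : i = k
            · rw [if_pos h, if_pos (by rw [h])]
            · rw [if_neg h, if_neg (fun h2 => h (Fin.succAbove_right_injective h2))]
          rw [h1]
          field_simp
    · intro h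
      have h1 : Y * ∑ a, aeval x (pderiv a F) * δ a h = 0 := by
        rw [Finset.mul_sum, Fin.sum_univ_succAbove _ j, hδj, dd0_apply]
        have h2 : ∀ i, Y * (aeval x (pderiv (j.succAbove i) F) * δ (j.succAbove i) h) =
            g j * (T.v Y i * T.dd i h) - g j * (T.v Y i ^ 2) * (T.N Y h / T.R Y) := by
          intro i
          have h3 : aeval x (pderiv (j.succAbove i) F) = g (j.succAbove i) := rfl
          rw [h3, ← mul_assoc, hgv, hδi, ddi_apply]
          show g j * T.v Y i * (T.dd i h - T.v Y i / T.R Y * T.N Y h) = _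
          field_simp
        simp only [h2, Finset.sum_sub_distrib]
        rw [← Finset.sum_mul, ← Finset.mul_sum, ← Finset.mul_sum, ← T.N_apply]
        have h4 : ∑ k, T.v Y k ^ 2 = T.R Y - Y ^ 2 := by
          rw [R]
          ring
        rw [h4]
        show Y * (g j * (-(Y / T.R Y) * T.N Y h)) + _ = 0
        field_simp
        ring
      exact (mul_eq_zero.1 h1).resolve_left hY0
  have hit : ∀ a, itL (T.lap Y) l (x a) = 0 := by
    intro a
    have h1 := hT.iter_eq l 0 (X a)
    obtain ⟨G, hG⟩ := hd a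
    rw [hG, map_mul, hη, zero_mul, zero_div, pow_zero, div_one, aeval_X, itK_eq_itL, hlap] at h1
    exact h1.symm
  exact cone hY hYl hy0 hU0 hR0 i0 hl (fun i => by rw [← hxi]; exact hit _)
    (by
      have h1 := hit j
      rwa [hxj] at h1)

end Inf

end Run7.h978
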