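import Mathlib
import Pool.Agent.Run7.h978.Sph6

set_option autoImplicit false
set_option linter.unusedSectionVars false

/-!
Points at infinity of hypersurfaces which are invariant under the rotations of some coordinates.
-/

open MvPolynomial

namespace Run7.h978

namespace Inf

variable {n : ℕ} {L : Type} [Field L] [Algebra ℝ L] [CharZero L] (T : Inf n L)

theorem hit {F : MvPolynomial (Fin (n + 1)) ℝ} (hF : Irreducible F)
    (hWF : ¬F ∣ WW F) (j : Fin (n + 1)) (hFj : pderiv j F ≠ 0) {Y : FK L} (hY0 : Y ≠ 0)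
    (hη : aeval (Fin.insertNth (α := fun _ => FK L) j Y T.xi) F = 0) :
    T.R Y ≠ 0 ∧
    aeval (Fin.insertNth (α := fun _ => FK L) j Y T.xi) (pderiv j F) ≠ 0 ∧
    (∀ i, Y * aeval (Fin.insertNth (α := fun _ => FK L) j Y T.xi) (pderiv (j.succAbove i) F) =
      aeval (Fin.insertNth (α := fun _ => FK L) j Y T.xi) (pderiv j F) * T.v Y i) ∧
    ∀ (l : List ℝ) (A : MvPolynomial (Fin (n + 1)) ℝ), F ∣ iter F l 0 A →
      itL (T.lap Y) l (aeval (Fin.insertNth (α := fun _ => FK L) j Y T.xi) A) = 0 := by
  classical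
  set x : Fin (n + 1) → FK L := Fin.insertNth (α := fun _ => FK L) j Y T.xi with hx
  have hxj : x j = Y := Fin.insertNth_apply_same (α := fun _ => FK L) j Y _
  have hxi : ∀ i, x (j.succAbove i) = T.xi i := fun i =>
    Fin.insertNth_apply_succAbove (α := fun _ => FK L) j Y _ i
  have hxi' : (fun i => x (j.succAbove i)) = T.xi := funext hxi
  have hind : ∀ r : MvPolynomial (Fin n) ℝ, aeval T.xi r = 0 → r = 0 := by
    intro r hr
    exact eq_zero_of_aeval (x := T.xi) (E := T.dd) (t := fun _ => 1) (fun _ => one_ne_zero)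
      (fun i k => T.dd_xi i k) r hr
  set g : Fin (n + 1) → FK L := fun a => aeval x (pderiv a F) with hg
  have hgj : g j ≠ 0 := by
    intro h0
    obtain ⟨r, hr0, hr⟩ := exists_elim j hF hFj (fun h => hFj (not_dvd_pderiv j h))
    apply hr0
    apply hind
    rw [← hxi']
    exact hr (FK L) x hη h0
  have hW : aeval x (WW F) ≠ 0 := by
    intro h0
    obtain ⟨r, hr0, hr⟩ := exists_elim j hF hFj hWF
    apply hr0
    apply hind
    rw [← hxi']
    exact hr (FK L) x hη h0
  -- the derivatives of `Y`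
  have hgi : ∀ i, g (j.succAbove i) = -(g j * T.dd i Y) := by
    intro i
    have h1 := congrArg (T.dd i) hη
    rw [chain, map_zero, Fin.sum_univ_succAbove _ j, hxj] at h1
    simp only [hxi, T.dd_xi, mul_ite, mul_one, mul_zero, Finset.sum_ite_eq, Finset.mem_univ,
      if_true] at h1
    linear_combination h1
  have hgv : ∀ i, Y * g (j.succAbove i) = g j * T.v Y i := by
    intro i
    rw [hgi, T.v_eq]
    ring
  have hWR : Y ^ 2 * aeval x (WW F) = g j ^ 2 * T.R Y := by
    rw [aeval_WW, Fin.sum_univ_succAbove _ j, mul_add, R, mul_add, Finset.mul_sum,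
      Finset.mul_sum]
    congr 1
    · have h1 : aeval x (pderiv j F) = g j := rfl
      rw [h1]
      ring
    · refine Finset.sum_congr rfl fun i _ => ?_
      have h1 : aeval x (pderiv (j.succAbove i) F) = g (j.succAbove i) := rfl
      rw [h1, ← mul_pow, hgv, mul_pow]
  have hR0 : T.R Y ≠ 0 := by
    intro h
    rw [h, mul_zero] at hWR
    exact mul_ne_zero (pow_ne_zero 2 hY0) hW hWR
  -- the tangential derivations
  have hddY : ∀ k, T.dd k Y = -(T.v Y k / Y) := by
    intro k
    rw [T.v_eq]
    field_simp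
  have hNxi : ∀ i, T.N Y (T.xi i) = T.v Y i := by
    intro i
    rw [N_apply]
    simp only [T.dd_xi, mul_ite, mul_one, mul_zero]
    rw [Finset.sum_ite_eq', if_pos (Finset.mem_univ i)]
  have hNY : T.N Y Y = Y - T.R Y / Y := by
    rw [T.N_apply]
    simp only [hddY]
    have h1 : ∑ k, T.v Y k ^ 2 = T.R Y - Y ^ 2 := by
      rw [R]
      ring
    have h2 : ∑ k, T.v Y k * -(T.v Y k / Y) = -((∑ k, T.v Y k ^ 2) / Y) := by
      rw [Finset.sum_div, ← Finset.sum_neg_distrib]
      refine Finset.sum_congr rfl fun k _ => ?_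
      ring
    rw [h2, h1]
    field_simp
    ring
  set δ : Fin (n + 1) → Derivation ℝ (FK L) (FK L) :=
    Fin.insertNth (α := fun _ => Derivation ℝ (FK L) (FK L)) j (dd0 T.dd (T.v Y) Y (T.R Y))
      (ddi T.dd (T.v Y) (T.R Y)) with hδ
  have hδj : δ j = dd0 T.dd (T.v Y) Y (T.R Y) :=
    Fin.insertNth_apply_same (α := fun _ => Derivation ℝ (FK L) (FK L)) j _ _
  have hδi : ∀ i, δ (j.succAbove i) = ddi T.dd (T.v Y) (T.R Y) i := fun i =>
    Fin.insertNth_apply_succAbove (α := fun _ => Derivation ℝ (FK L) (FK L)) j _ _ i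
  have hlap : lapK δ = T.lap Y := by
    funext h
    rw [lapK, Fin.sum_univ_succAbove _ j, hδj]
    simp only [hδi]
    rfl
  have hT : Tang x F δ := by
    refine ⟨hW, ?_, ?_⟩
    · have hgen : ∀ a b, aeval x (pderiv a F) * aeval x (pderiv b F) / aeval x (WW F) =
          (Y * g a) * (Y * g b) / (g j ^ 2 * T.R Y) := by
        intro a b
        rw [← hWR]
        have h1 : aeval x (pderiv a F) = g a := rfl
        have h2 : aeval x (pderiv b F) = g b := rfl
        rw [h1, h2]
        field_simp
      intro a b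
      rw [hgen]
      rcases eq_or_ne a j with ha | ha
      · rw [ha, hδj, dd0_apply]
        rcases eq_or_ne b j with hb' | hb'
        · rw [hb', hxj, if_pos rfl]
          show -(Y / T.R Y) * T.N Y Y = _
          rw [hNY]
          field_simp
          ring
        · obtain ⟨k, rfl⟩ := Fin.exists_succAbove_eq hb'
          rw [hxi, if_neg (Fin.ne_succAbove j k), hgv]
          show -(Y / T.R Y) * T.N Y (T.xi k) = _
          rw [hNxi]
          field_simp
          ring
      · obtain ⟨i, rfl⟩ := Fin.exists_succAbove_eq ha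
        rw [hδi, ddi_apply]
        rcases eq_or_ne b j with hb' | hb'
        · rw [hb', hxj, if_neg (Fin.succAbove_ne j i), hgv, hddY]
          show -(T.v Y i / Y) - T.v Y i / T.R Y * T.N Y Y = _
          rw [hNY]
          field_simp
          ring
        · obtain ⟨k, rfl⟩ := Fin.exists_succAbove_eq hb'
          rw [hxi, hgv, hgv, T.dd_xi]
          show _ - T.v Y i / T.R Y * T.N Y (T.xi k) = _
          rw [hNxi]
          have h1 : (if j.succAbove i = j.succAbove k then (1 : FK L) else 0) =
              if i = k then 1 else 0 := by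
            by_cases h : i = k
            · rw [if_pos h, if_pos (by rw [h])]
            · rw [if_neg h, if_neg (fun h2 => h (Fin.succAbove_right_injective h2))]
          rw [h1]
          field_simp
    · intro h
      have h1 : Y * ∑ a, aeval x (pderiv a F) * δ a h = 0 := by
        rw [Finset.mul_sum, Fin.sum_univ_succAbove _ j, hδj, dd0_apply]
        have h2 : ∀ i, Y * (aeval x (pderiv (j.succAbove i) F) * δ (j.succAbove i) h) =
            g j * (T.v Y i * T.dd i h) - g j * (T.v Y i ^ 2) * (T.N Y h / T.R Y) := by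
          intro i
          have h3 : aeval x (pderiv (j.succAbove i) F) = g (j.succAbove i) := rfl
          rw [h3, ← mul_assoc, hgv, hδi, ddi_apply]
          show g j * T.v Y i * (T.dd i h - T.v Y i / T.R Y * T.N Y h) = _
          field_simp
        simp only [h2, Finset.sum_sub_distrib]
        rw [← Finset.sum_mul, ← Finset.mul_sum, ← Finset.mul_sum, ← T.N_apply]
        have h4 : ∑ k, T.v Y k ^ 2 = T.R Y - Y ^ 2 := by
          rw [R]
          ring
        rw [h4]
        show Y * (g j * (-(Y / T.R Y) * T.N Y h)) + _ = 0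
        field_simp
        ring
      exact (mul_eq_zero.1 h1).resolve_left hY0
  refine ⟨hR0, hgj, hgv, fun l A hA => ?_⟩
  have h1 := hT.iter_eq l 0 A
  obtain ⟨G, hG⟩ := hA
  rw [hG, map_mul, hη, zero_mul, zero_div, pow_zero, div_one, itK_eq_itL, hlap] at h1
  exact h1.symm

theorem dd_dd (i k : Fin n) (h : FK L) : T.dd i (T.dd k h) = T.dd k (T.dd i h) := by
  rw [dd_apply, dd_apply, dd_apply, dd_apply, Derivation.leibniz, Derivation.leibniz, T.E_vs,
    T.E_vs, smul_zero, smul_zero, add_zero, add_zero, smul_eq_mul, smul_eq_mul, T.E_E]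

/-- invariant elements -/
def Inv (P : Fin n → Prop) (h : FK L) : Prop := ∀ i, P i → T.dd i h = 0

variable {T} {P : Fin n → Prop}

theorem Inv.add {g h : FK L} (hg : T.Inv P g) (hh : T.Inv P h) : T.Inv P (g + h) := by
  intro i hi
  rw [map_add, hg i hi, hh i hi, add_zero]

theorem Inv.sub {g h : FK L} (hg : T.Inv P g) (hh : T.Inv P h) : T.Inv P (g - h) := by
  intro i hi
  rw [map_sub, hg i hi, hh i hi, sub_zero]

theorem Inv.neg {g : FK L} (hg : T.Inv P g) : T.Inv P (-g) := by
  intro i hi
  rw [map_neg, hg i hi, neg_zero]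

theorem Inv.mul {g h : FK L} (hg : T.Inv P g) (hh : T.Inv P h) : T.Inv P (g * h) := by
  intro i hi
  rw [Derivation.leibniz, hg i hi, hh i hi, smul_zero, smul_zero, add_zero]

theorem Inv.div {g h : FK L} (hg : T.Inv P g) (hh : T.Inv P h) : T.Inv P (g / h) := by
  intro i hi
  rw [Derivation.leibniz_div, hg i hi, hh i hi, smul_zero, smul_zero, sub_zero, smul_zero]

theorem Inv.sum {ι : Type*} (s : Finset ι) {g : ι → FK L} (hg : ∀ i ∈ s, T.Inv P (g i)) :
    T.Inv P (∑ i ∈ s, g i) := by
  intro i hi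
  rw [map_sum]
  exact Finset.sum_eq_zero fun k hk => hg k hk i hi

theorem Inv.dd {h : FK L} (hh : T.Inv P h) (k : Fin n) : T.Inv P (T.dd k h) := by
  intro i hi
  rw [T.dd_dd, hh i hi, map_zero]

theorem Inv.real (r : ℝ) : T.Inv P (algebraMap ℝ (FK L) r) := fun _ _ =>
  Derivation.map_algebraMap _ r

theorem Inv.two : T.Inv P (2 : FK L) := by
  intro i _
  have : (2 : FK L) = ((2 : ℕ) : FK L) := by norm_num
  rw [this, Derivation.map_natCast]

theorem Inv.zero : T.Inv P (0 : FK L) := fun i _ => map_zero (T.dd i)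

theorem Inv.one : T.Inv P (1 : FK L) := fun i _ => Derivation.map_one_eq_zero (T.dd i)

theorem it_lead {Δ : FK L → FK L} {Q : FK L → Prop} (hΔ : ∀ h, Q h → Q (Δ h))
    (hsub : ∀ g h, Q g → Q h → Q (g - h)) (hreal : ∀ (r : ℝ) h, Q h → Q (algebraMap ℝ (FK L) r * h))
    (H : ∀ h m, VL m h → Q h → VL (m + 1) (Δ h)) (l : List ℝ) :
    ∀ (h : FK L) (m : ℤ) (c : L), Lead m h c → Q h →
      Lead m (itL Δ l h) ((l.map fun μ => -algebraMap ℝ L μ).prod * c) := by
  induction l with
  | nil =>
    intro h m c h1 _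
    simpa [itL] using h1
  | cons μ l ih =>
    intro h m c h1 h2
    rw [itL, List.map_cons, List.prod_cons]
    have h3 : Lead m (algebraMap ℝ (FK L) μ * h) (algebraMap ℝ L μ * c) :=
      ((lead_real μ).mul h1).cast (zero_add m) rfl rfl
    have h4 : Lead m (Δ h) 0 := (H h m h1.vl h2).lead0 (by omega)
    refine (ih _ _ _ (h4.sub h3) ?_).cast rfl rfl ?_
    · exact hsub _ _ (hΔ h h2) (hreal μ h h2)
    · ring

end Inf

end Run7.h978
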