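import Mathlib
import Pool.Agent.Run7.h978.Rev2

set_option autoImplicit false
set_option linter.unusedSectionVars false

/-!
The Laplace operator of a hypersurface which is a graph over an isotropic hyperplane.
-/

open MvPolynomial

namespace Run7.h978

/-- an isotropic frame: `u`, `E i0` isotropic, the others orthonormal -/
structure Fr (K : Type*) [Field K] (n : ℕ) (i0 : Fin n) where
  /-- the first isotropic vector -/
  u : Fin (n + 1) → K
  /-- the other vectors -/
  E : Fin n → Fin (n + 1) → K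
  uu : ∑ a, u a * u a = 0
  uE0 : 2 * ∑ a, u a * E i0 a = 1
  uE : ∀ i, i ≠ i0 → ∑ a, u a * E i a = 0
  E00 : ∑ a, E i0 a * E i0 a = 0
  E0E : ∀ i, i ≠ i0 → ∑ a, E i0 a * E i a = 0
  EE : ∀ i k, i ≠ i0 → k ≠ i0 → ∑ a, E i a * E k a = if i = k then 1 else 0
  comp : ∀ a b, 2 * (u a * E i0 b + E i0 a * u b) + ∑ i, (if i = i0 then 0 else E i a * E i b) =
    if a = b then 1 else 0

section

variable {K : Type*} [Field K] [Algebra ℝ K] {n : ℕ} {i0 : Fin n} (f : Fr K n i0)
  (d : Fin n → Derivation ℝ K K) (Y : K)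

/-- the derivatives in the other directions -/
noncomputable def yk (d : Fin n → Derivation ℝ K K) (i0 : Fin n) (Y : K) (i : Fin n) : K :=
  if i = i0 then 0 else d i Y

/-- the discriminant -/
noncomputable def dn (d : Fin n → Derivation ℝ K K) (i0 : Fin n) (Y : K) : K :=
  d i0 Y - (∑ i, yk d i0 Y i ^ 2) / 4

/-- the derivation along the nearly isotropic direction -/
noncomputable def vd (d : Fin n → Derivation ℝ K K) (i0 : Fin n) (Y : K) : Derivation ℝ K K :=
  d i0 + ∑ i, (-(yk d i0 Y i / 2)) • d i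

theorem vd_apply (h : K) : vd d i0 Y h = d i0 h - ∑ i, yk d i0 Y i / 2 * d i h := by
  rw [vd]
  show d i0 h + (∑ i, (-(yk d i0 Y i / 2)) • d i) h = _
  rw [sum_smul_der_apply, sub_eq_add_neg, ← Finset.sum_neg_distrib]
  congr 1
  refine Finset.sum_congr rfl fun i _ => ?_
  ring

/-- the point -/
noncomputable def pt (ξ : Fin n → K) (a : Fin (n + 1)) : K := Y * f.u a + ∑ i, ξ i * f.E i a

/-- the vectors in the other directions -/
noncomputable def xv (i : Fin n) (a : Fin (n + 1)) : K :=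
  if i = i0 then 0 else f.E i a + d i Y * f.u a

/-- the vector in the nearly isotropic direction -/
noncomputable def vv' (a : Fin (n + 1)) : K :=
  f.E i0 a + (d i0 Y - (∑ i, yk d i0 Y i ^ 2) / 2) * f.u a - ∑ i, yk d i0 Y i / 2 * f.E i a

/-- the tangential derivations -/
noncomputable def td (a : Fin (n + 1)) : Derivation ℝ K K :=
  (vv' f d Y a / dn d i0 Y) • vd d i0 Y + ∑ i, xv f d Y i a • d i

theorem td_apply (a : Fin (n + 1)) (h : K) : td f d Y a h =
    vv' f d Y a / dn d i0 Y * vd d i0 Y h + ∑ i, xv f d Y i a * d i h := by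
  rw [td]
  show vv' f d Y a / dn d i0 Y * vd d i0 Y h + (∑ i, xv f d Y i a • d i) h = _
  rw [sum_smul_der_apply]

variable {f d Y}

theorem yk_ne {i : Fin n} (h : i ≠ i0) : yk d i0 Y i = d i Y := if_neg h

theorem yk_eq : yk d i0 Y i0 = 0 := if_pos rfl

theorem two_ne_f (f : Fr K n i0) : (2 : K) ≠ 0 := by
  intro h
  have h1 := f.uE0
  rw [h, zero_mul] at h1
  exact zero_ne_one h1

theorem u_xv (i : Fin n) : ∑ a, f.u a * xv f d Y i a = 0 := by
  by_cases h : i = i0
  · simp [xv, h]
  · have h1 : ∀ a, f.u a * xv f d Y i a = f.u a * f.E i a + d i Y * (f.u a * f.u a) := by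
      intro a
      rw [xv, if_neg h]
      ring
    simp only [h1]
    rw [Finset.sum_add_distrib, ← Finset.mul_sum, f.uu, f.uE i h, mul_zero, add_zero]

theorem u_vv : 2 * ∑ a, f.u a * vv' f d Y a = 1 := by
  have h1 : ∀ a, f.u a * vv' f d Y a = f.u a * f.E i0 a +
      (d i0 Y - (∑ i, yk d i0 Y i ^ 2) / 2) * (f.u a * f.u a) -
      ∑ i, yk d i0 Y i / 2 * (f.u a * f.E i a) := by
    intro a
    rw [vv', mul_sub, Finset.mul_sum]
    congr 1
    · ring
    · refine Finset.sum_congr rfl fun i _ => ?_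
      ring
  simp only [h1]
  rw [Finset.sum_sub_distrib, Finset.sum_add_distrib, ← Finset.mul_sum, f.uu, mul_zero, add_zero,
    Finset.sum_comm]
  have h2 : ∀ i, ∑ a, yk d i0 Y i / 2 * (f.u a * f.E i a) = 0 := by
    intro i
    rw [← Finset.mul_sum]
    by_cases h : i = i0
    · rw [h, yk_eq]
      ring
    · rw [f.uE i h, mul_zero]
  simp only [h2, Finset.sum_const_zero, sub_zero]
  exact f.uE0

theorem E_vv {k : Fin n} (hk : k ≠ i0) : ∑ a, f.E k a * vv' f d Y a = -(d k Y / 2) := by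
  have h1 : ∀ a, f.E k a * vv' f d Y a = f.E i0 a * f.E k a +
      (d i0 Y - (∑ i, yk d i0 Y i ^ 2) / 2) * (f.u a * f.E k a) -
      ∑ i, yk d i0 Y i / 2 * (f.E k a * f.E i a) := by
    intro a
    rw [vv', mul_sub, Finset.mul_sum]
    congr 1
    · ring
    · refine Finset.sum_congr rfl fun i _ => ?_
      ring
  simp only [h1]
  rw [Finset.sum_sub_distrib, Finset.sum_add_distrib, ← Finset.mul_sum, f.uE k hk, mul_zero,
    add_zero, f.E0E k hk, Finset.sum_comm, Finset.sum_eq_single k]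
  · rw [← Finset.mul_sum, f.EE k k hk hk, if_pos rfl, yk_ne hk]
    ring
  · intro i _ hi
    rw [← Finset.mul_sum]
    by_cases h : i = i0
    · rw [h, yk_eq]
      ring
    · rw [f.EE k i hk h, if_neg (Ne.symm hi), mul_zero]
  · intro h
    exact absurd (Finset.mem_univ k) h

theorem E0_vv : 2 * ∑ a, f.E i0 a * vv' f d Y a = d i0 Y - (∑ i, yk d i0 Y i ^ 2) / 2 := by
  have h1 : ∀ a, f.E i0 a * vv' f d Y a = f.E i0 a * f.E i0 a +
      (d i0 Y - (∑ i, yk d i0 Y i ^ 2) / 2) * (f.u a * f.E i0 a) -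
      ∑ i, yk d i0 Y i / 2 * (f.E i0 a * f.E i a) := by
    intro a
    rw [vv', mul_sub, Finset.mul_sum]
    congr 1
    · ring
    · refine Finset.sum_congr rfl fun i _ => ?_
      ring
  simp only [h1]
  rw [Finset.sum_sub_distrib, Finset.sum_add_distrib, ← Finset.mul_sum, f.E00, zero_add,
    Finset.sum_comm]
  have h2 : ∀ i, ∑ a, yk d i0 Y i / 2 * (f.E i0 a * f.E i a) = 0 := by
    intro i
    rw [← Finset.mul_sum]
    by_cases h : i = i0
    · rw [h, yk_eq]
      ring
    · rw [f.E0E i h, mul_zero]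
  simp only [h2, Finset.sum_const_zero, sub_zero]
  rw [mul_left_comm, f.uE0, mul_one]

theorem vv_vv : ∑ a, vv' f d Y a * vv' f d Y a = dn d i0 Y := by
  have h2 := two_ne_f f
  have h1 : ∀ a, vv' f d Y a * vv' f d Y a = f.E i0 a * vv' f d Y a +
      (d i0 Y - (∑ i, yk d i0 Y i ^ 2) / 2) * (f.u a * vv' f d Y a) -
      ∑ i, yk d i0 Y i / 2 * (f.E i a * vv' f d Y a) := by
    intro a
    have h0 : vv' f d Y a = f.E i0 a + (d i0 Y - (∑ i, yk d i0 Y i ^ 2) / 2) * f.u a -
        ∑ i, yk d i0 Y i / 2 * f.E i a := rfl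
    have h9 : ∑ i, yk d i0 Y i / 2 * (f.E i a * vv' f d Y a) =
        (∑ i, yk d i0 Y i / 2 * f.E i a) * vv' f d Y a := by
      rw [Finset.sum_mul]
      refine Finset.sum_congr rfl fun i _ => ?_
      ring
    rw [h9]
    generalize vv' f d Y a = t at h0 ⊢
    linear_combination t * h0
  simp only [h1]
  rw [Finset.sum_sub_distrib, Finset.sum_add_distrib, ← Finset.mul_sum, Finset.sum_comm]
  have h3 : ∀ i, ∑ a, yk d i0 Y i / 2 * (f.E i a * vv' f d Y a) = -(yk d i0 Y i ^ 2 / 4) := by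
    intro i
    rw [← Finset.mul_sum]
    by_cases h : i = i0
    · rw [h, yk_eq]
      ring
    · rw [E_vv h, yk_ne h]
      have h4 : (4 : K) = 2 * 2 := by norm_num
      rw [h4]
      field_simp
  simp only [h3, Finset.sum_neg_distrib]
  have h4 := u_vv (f := f) (d := d) (Y := Y)
  have h5 := E0_vv (f := f) (d := d) (Y := Y)
  rw [dn, ← Finset.sum_div]
  set s := ∑ i, yk d i0 Y i ^ 2
  set A := ∑ a, f.u a * vv' f d Y a
  set B := ∑ a, f.E i0 a * vv' f d Y a
  have h6 : A = 1 / 2 := by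
    field_simp
    linear_combination h4
  have h7 : B = (d i0 Y - s / 2) / 2 := by
    rw [eq_div_iff h2]
    linear_combination h5
  rw [h6, h7]
  have h8 : (4 : K) = 2 * 2 := by norm_num
  rw [h8]
  field_simp
  ring

theorem vv_xv (i : Fin n) : ∑ a, vv' f d Y a * xv f d Y i a = 0 := by
  by_cases h : i = i0
  · simp [xv, h]
  · have h1 : ∀ a, vv' f d Y a * xv f d Y i a = f.E i a * vv' f d Y a +
        d i Y * (f.u a * vv' f d Y a) := by
      intro a
      rw [xv, if_neg h]
      ring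
    simp only [h1]
    rw [Finset.sum_add_distrib, ← Finset.mul_sum, E_vv h]
    have h4 := u_vv (f := f) (d := d) (Y := Y)
    have h2 := two_ne_f f
    field_simp
    linear_combination (d i Y) * h4

theorem xv_xv (i k : Fin n) : ∑ a, xv f d Y i a * xv f d Y k a =
    if i = k then (if i = i0 then 0 else 1) else 0 := by
  by_cases h : i = i0
  · simp [xv, h]
  by_cases h' : k = i0
  · have : i ≠ k := fun h2 => h (h2.trans h')
    rw [if_neg this]
    simp [xv, h']
  have h1 : ∀ a, xv f d Y i a * xv f d Y k a = f.E i a * f.E k a +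
      d k Y * (f.u a * f.E i a) + d i Y * (f.u a * f.E k a) + d i Y * d k Y * (f.u a * f.u a) := by
    intro a
    rw [xv, xv, if_neg h, if_neg h']
    ring
  simp only [h1]
  rw [Finset.sum_add_distrib, Finset.sum_add_distrib, Finset.sum_add_distrib, ← Finset.mul_sum,
    ← Finset.mul_sum, ← Finset.mul_sum, f.uu, f.uE i h, f.uE k h', f.EE i k h h']
  simp [h]

end

end Run7.h978
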