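import Mathlib
import Pool.Agent.Run7.h978.Nfr1

set_option autoImplicit false
set_option linter.unusedSectionVars false

/-!
The Laplace operator and the tangential derivations in an isotropic frame.
-/

open MvPolynomial

namespace Run7.h978

section

variable {K : Type*} [Field K] [Algebra ℝ K] {n : ℕ} {i0 : Fin n} {f : Fr K n i0}
  {d : Fin n → Derivation ℝ K K} {Y : K}

theorem uv_half : ∑ a, f.u a * vv' f d Y a = 1 / 2 := by
  have h2 := two_ne_f f
  rw [eq_div_iff h2, mul_comm]
  exact u_vv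

theorem four_eq (K : Type*) [Field K] : (4 : K) = 2 * 2 := by norm_num

section

variable (D : Derivation ℝ K K) (hu : ∀ a, D (f.u a) = 0) (hE : ∀ k a, D (f.E k a) = 0)

include hu hE

theorem D_xv (i : Fin n) (a : Fin (n + 1)) : D (xv f d Y i a) = D (yk d i0 Y i) * f.u a := by
  rw [xv, yk]
  split
  · rw [map_zero, zero_mul]
  · rw [map_add, hE, zero_add, Derivation.leibniz, hu, smul_zero, zero_add, smul_eq_mul]
    ring

theorem vDxv (i : Fin n) : ∑ a, vv' f d Y a * D (xv f d Y i a) = D (yk d i0 Y i) / 2 := by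
  have h2 := two_ne_f f
  have h1 : ∀ a, vv' f d Y a * D (xv f d Y i a) = D (yk d i0 Y i) * (f.u a * vv' f d Y a) := by
    intro a
    rw [D_xv D hu hE]
    ring
  simp only [h1]
  rw [← Finset.mul_sum, uv_half]
  ring

theorem vDv : ∑ a, vv' f d Y a * D (vv' f d Y a) = D (dn d i0 Y) / 2 := by
  have h2 := two_ne_f f
  have h1 := congrArg D (vv_vv (f := f) (d := d) (Y := Y))
  rw [map_sum] at h1
  simp only [Derivation.leibniz, smul_eq_mul] at h1
  rw [Finset.sum_add_distrib] at h1
  rw [eq_div_iff h2]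
  linear_combination h1

theorem xDv (i : Fin n) : ∑ a, xv f d Y i a * D (vv' f d Y a) = -(D (yk d i0 Y i) / 2) := by
  have h1 := congrArg D (vv_xv (f := f) (d := d) (Y := Y) i)
  rw [map_sum, map_zero] at h1
  simp only [Derivation.leibniz, smul_eq_mul] at h1
  rw [Finset.sum_add_distrib, vDxv D hu hE] at h1
  linear_combination h1

theorem xDx (i k : Fin n) : ∑ a, xv f d Y i a * D (xv f d Y k a) = 0 := by
  have h1 : ∀ a, xv f d Y i a * D (xv f d Y k a) = D (yk d i0 Y k) * (f.u a * xv f d Y i a) := by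
    intro a
    rw [D_xv D hu hE]
    ring
  simp only [h1]
  rw [← Finset.mul_sum, u_xv, mul_zero]

theorem D_td (h : K) (a : Fin (n + 1)) : D (td f d Y a h) =
    D (vv' f d Y a) * (vd d i0 Y h / dn d i0 Y) + vv' f d Y a * D (vd d i0 Y h / dn d i0 Y) +
    ∑ k, (D (xv f d Y k a) * d k h + xv f d Y k a * D (d k h)) := by
  have h1 : td f d Y a h = vv' f d Y a * (vd d i0 Y h / dn d i0 Y) + ∑ k, xv f d Y k a * d k h := by
    rw [td_apply]
    ring
  rw [h1, map_add, Derivation.leibniz, map_sum, smul_eq_mul, smul_eq_mul]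
  congr 1
  · ring
  · refine Finset.sum_congr rfl fun k _ => ?_
    rw [Derivation.leibniz, smul_eq_mul, smul_eq_mul]
    ring

theorem L1 (h : K) : ∑ a, vv' f d Y a * D (td f d Y a h) =
    D (dn d i0 Y) / 2 * (vd d i0 Y h / dn d i0 Y) + dn d i0 Y * D (vd d i0 Y h / dn d i0 Y) +
    ∑ k, D (yk d i0 Y k) / 2 * d k h := by
  simp only [D_td D hu hE, mul_add, Finset.sum_add_distrib]
  have e1 : ∑ a, vv' f d Y a * (D (vv' f d Y a) * (vd d i0 Y h / dn d i0 Y)) =
      D (dn d i0 Y) / 2 * (vd d i0 Y h / dn d i0 Y) := by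
    rw [← vDv D hu hE, Finset.sum_mul]
    refine Finset.sum_congr rfl fun a _ => ?_
    ring
  have e2 : ∑ a, vv' f d Y a * (vv' f d Y a * D (vd d i0 Y h / dn d i0 Y)) =
      dn d i0 Y * D (vd d i0 Y h / dn d i0 Y) := by
    rw [← vv_vv (f := f), Finset.sum_mul]
    refine Finset.sum_congr rfl fun a _ => ?_
    ring
  have e3 : ∑ a, vv' f d Y a * ∑ k, D (xv f d Y k a) * d k h =
      ∑ k, D (yk d i0 Y k) / 2 * d k h := by
    simp only [Finset.mul_sum]
    rw [Finset.sum_comm]
    refine Finset.sum_congr rfl fun k _ => ?_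
    rw [← vDxv (f := f) (d := d) (Y := Y) D hu hE k, Finset.sum_mul]
    refine Finset.sum_congr rfl fun a _ => ?_
    ring
  have e4 : ∑ a, vv' f d Y a * ∑ k, xv f d Y k a * D (d k h) = 0 := by
    simp only [Finset.mul_sum]
    rw [Finset.sum_comm]
    refine Finset.sum_eq_zero fun k _ => ?_
    have h1 : ∀ a, vv' f d Y a * (xv f d Y k a * D (d k h)) =
        vv' f d Y a * xv f d Y k a * D (d k h) := fun a => by ring
    simp only [h1]
    rw [← Finset.sum_mul, vv_xv, zero_mul]
  rw [e1, e2, e3, e4, add_zero]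

theorem L2 (h : K) (i : Fin n) : ∑ a, xv f d Y i a * D (td f d Y a h) =
    -(D (yk d i0 Y i) / 2) * (vd d i0 Y h / dn d i0 Y) + if i = i0 then 0 else D (d i h) := by
  simp only [D_td D hu hE, mul_add, Finset.sum_add_distrib]
  have e1 : ∑ a, xv f d Y i a * (D (vv' f d Y a) * (vd d i0 Y h / dn d i0 Y)) =
      -(D (yk d i0 Y i) / 2) * (vd d i0 Y h / dn d i0 Y) := by
    rw [← xDv (f := f) (d := d) (Y := Y) D hu hE i, Finset.sum_mul]
    refine Finset.sum_congr rfl fun a _ => ?_
    ring
  have e2 : ∑ a, xv f d Y i a * (vv' f d Y a * D (vd d i0 Y h / dn d i0 Y)) = 0 := by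
    have h1 : ∀ a, xv f d Y i a * (vv' f d Y a * D (vd d i0 Y h / dn d i0 Y)) =
        vv' f d Y a * xv f d Y i a * D (vd d i0 Y h / dn d i0 Y) := fun a => by ring
    simp only [h1]
    rw [← Finset.sum_mul, vv_xv, zero_mul]
  have e3 : ∑ a, xv f d Y i a * ∑ k, D (xv f d Y k a) * d k h = 0 := by
    simp only [Finset.mul_sum]
    rw [Finset.sum_comm]
    refine Finset.sum_eq_zero fun k _ => ?_
    have h1 : ∀ a, xv f d Y i a * (D (xv f d Y k a) * d k h) =
        xv f d Y i a * D (xv f d Y k a) * d k h := fun a => by ring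
    simp only [h1]
    rw [← Finset.sum_mul, xDx D hu hE, zero_mul]
  have e4 : ∑ a, xv f d Y i a * ∑ k, xv f d Y k a * D (d k h) =
      if i = i0 then 0 else D (d i h) := by
    simp only [Finset.mul_sum]
    rw [Finset.sum_comm, Finset.sum_eq_single i]
    · have h1 : ∀ a, xv f d Y i a * (xv f d Y i a * D (d i h)) =
          xv f d Y i a * xv f d Y i a * D (d i h) := fun a => by ring
      simp only [h1]
      rw [← Finset.sum_mul, xv_xv, if_pos rfl]
      split
      · rw [zero_mul]
      · rw [one_mul]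
    · intro k _ hk
      have h1 : ∀ a, xv f d Y i a * (xv f d Y k a * D (d k h)) =
          xv f d Y i a * xv f d Y k a * D (d k h) := fun a => by ring
      simp only [h1]
      rw [← Finset.sum_mul, xv_xv, if_neg (Ne.symm hk), zero_mul]
    · intro h
      exact absurd (Finset.mem_univ i) h
  rw [e1, e2, e3, e4]
  ring

end

/-- the Laplace operator -/
noncomputable def lapF (d : Fin n → Derivation ℝ K K) (i0 : Fin n) (Y : K) (h : K) : K :=
  vd d i0 Y (vd d i0 Y h / dn d i0 Y) +
    vd d i0 Y (dn d i0 Y) * vd d i0 Y h / (2 * dn d i0 Y ^ 2) +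
    (∑ k, vd d i0 Y (yk d i0 Y k) * d k h) / (2 * dn d i0 Y) -
    (∑ k, d k (yk d i0 Y k)) * vd d i0 Y h / (2 * dn d i0 Y) +
    ∑ k, if k = i0 then 0 else d k (d k h)

theorem lapK_td (hu : ∀ i a, d i (f.u a) = 0) (hE : ∀ i k a, d i (f.E k a) = 0)
    (hD : dn d i0 Y ≠ 0) (h : K) : lapK (td f d Y) h = -lapF d i0 Y h := by
  have h2 := two_ne_f f
  have hVu : ∀ a, vd d i0 Y (f.u a) = 0 := by
    intro a
    rw [vd_apply, hu]
    simp [hu]
  have hVE : ∀ k a, vd d i0 Y (f.E k a) = 0 := by
    intro k a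
    rw [vd_apply, hE]
    simp [hE]
  rw [lapK]
  congr 1
  have e0 : ∀ a, td f d Y a (td f d Y a h) =
      vv' f d Y a * vd d i0 Y (td f d Y a h) / dn d i0 Y +
        ∑ i, xv f d Y i a * d i (td f d Y a h) := by
    intro a
    rw [td_apply f d Y a (td f d Y a h)]
    ring
  simp only [e0]
  rw [Finset.sum_add_distrib, ← Finset.sum_div, L1 _ hVu hVE, Finset.sum_comm]
  have e1 : ∀ i, ∑ a, xv f d Y i a * d i (td f d Y a h) =
      -(d i (yk d i0 Y i) / 2) * (vd d i0 Y h / dn d i0 Y) + if i = i0 then 0 else d i (d i h) :=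
    fun i => L2 (d i) (hu i) (hE i) h i
  simp only [e1]
  rw [Finset.sum_add_distrib, ← Finset.sum_mul, lapF]
  have e2 : ∑ k, vd d i0 Y (yk d i0 Y k) / 2 * d k h =
      (∑ k, vd d i0 Y (yk d i0 Y k) * d k h) / 2 := by
    rw [Finset.sum_div]
    refine Finset.sum_congr rfl fun k _ => ?_
    ring
  have e3 : ∑ i, -(d i (yk d i0 Y i) / 2) = -((∑ k, d k (yk d i0 Y k)) / 2) := by
    rw [Finset.sum_neg_distrib, Finset.sum_div]
  rw [e2, e3]
  generalize (∑ i, if i = i0 then 0 else d i (d i h)) = t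
  field_simp
  ring

end

section

variable {K : Type*} [Field K] [Algebra ℝ K] {n : ℕ} {i0 : Fin n} {f : Fr K n i0}
  {d : Fin n → Derivation ℝ K K} {Y : K}

theorem projF (hD : dn d i0 Y ≠ 0) (a b : Fin (n + 1)) :
    vv' f d Y a * vv' f d Y b / dn d i0 Y + ∑ i, xv f d Y i a * xv f d Y i b =
    (if a = b then 1 else 0) + (2 * vv' f d Y a - 4 * dn d i0 Y * f.u a) *
      (2 * vv' f d Y b - 4 * dn d i0 Y * f.u b) / (4 * dn d i0 Y) := by
  have h2 := two_ne_f f
  have h4 := four_eq K
  rw [← f.comp a b]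
  have e1 : ∑ i, xv f d Y i a * xv f d Y i b = (∑ i, if i = i0 then 0 else f.E i a * f.E i b) +
      (∑ i, yk d i0 Y i * f.E i b) * f.u a + (∑ i, yk d i0 Y i * f.E i a) * f.u b +
      (∑ i, yk d i0 Y i ^ 2) * (f.u a * f.u b) := by
    rw [Finset.sum_mul, Finset.sum_mul, Finset.sum_mul, ← Finset.sum_add_distrib,
      ← Finset.sum_add_distrib, ← Finset.sum_add_distrib]
    refine Finset.sum_congr rfl fun i _ => ?_
    rw [xv, xv, yk]
    split
    · ring
    · ring
  have e2 : ∀ c, vv' f d Y c = f.E i0 c + (d i0 Y - (∑ i, yk d i0 Y i ^ 2) / 2) * f.u c -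
      (∑ i, yk d i0 Y i * f.E i c) / 2 := by
    intro c
    have h9 : ∑ i, yk d i0 Y i / 2 * f.E i c = (∑ i, yk d i0 Y i * f.E i c) / 2 := by
      rw [Finset.sum_div]
      refine Finset.sum_congr rfl fun i _ => ?_
      ring
    rw [vv', h9]
  have e3 : d i0 Y = dn d i0 Y + (∑ i, yk d i0 Y i ^ 2) / 4 := by
    rw [dn]
    ring
  rw [e1, e2 a, e2 b, e3]
  generalize dn d i0 Y = t at hD ⊢
  generalize ∑ i, yk d i0 Y i ^ 2 = S
  generalize ∑ i, yk d i0 Y i * f.E i a = A
  generalize ∑ i, yk d i0 Y i * f.E i b = B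
  generalize (∑ i, if i = i0 then 0 else f.E i a * f.E i b) = C
  rw [h4]
  field_simp
  ring

theorem tang_td (hu : ∀ i a, d i (f.u a) = 0) (hE : ∀ i k a, d i (f.E k a) = 0)
    {ξ : Fin n → K} (hξ : ∀ i k, d i (ξ k) = if i = k then 1 else 0)
    {F : MvPolynomial (Fin (n + 1)) ℝ} (hF : aeval (pt f Y ξ) F = 0)
    (hW : aeval (pt f Y ξ) (WW F) ≠ 0) :
    dn d i0 Y ≠ 0 ∧ Tang (pt f Y ξ) F (td f d Y) := by
  have h2 := two_ne_f f
  have h4 := four_eq K
  set x := pt f Y ξ with hx
  set g : Fin (n + 1) → K := fun a => aeval x (pderiv a F) with hg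
  have hdx : ∀ i a, d i (x a) = d i Y * f.u a + f.E i a := by
    intro i a
    rw [hx, pt, map_add, map_sum, Derivation.leibniz, hu, smul_zero, zero_add, smul_eq_mul,
      mul_comm]
    congr 1
    simp only [Derivation.leibniz, hE, hξ, smul_eq_mul]
    rw [Finset.sum_eq_single i]
    · rw [if_pos rfl]
      ring
    · intro k _ hk
      rw [if_neg (Ne.symm hk)]
      ring
    · intro h
      exact absurd (Finset.mem_univ i) h
  have hxi : ∀ i, i ≠ i0 → ∀ a, d i (x a) = xv f d Y i a := by
    intro i hi a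
    rw [hdx, xv, if_neg hi]
    ring
  have hVx : ∀ a, vd d i0 Y (x a) = vv' f d Y a := by
    intro a
    rw [vd_apply, hdx]
    simp only [hdx]
    have e1 : ∑ k, yk d i0 Y k / 2 * (d k Y * f.u a + f.E k a) =
        (∑ k, yk d i0 Y k ^ 2) / 2 * f.u a + ∑ k, yk d i0 Y k / 2 * f.E k a := by
      rw [Finset.sum_div, Finset.sum_mul, ← Finset.sum_add_distrib]
      refine Finset.sum_congr rfl fun k _ => ?_
      rw [yk]
      split
      · ring
      · ring
    rw [e1, vv']
    ring
  have hgd : ∀ D : Derivation ℝ K K, ∑ a, g a * D (x a) = 0 := by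
    intro D
    have h1 := congrArg D hF
    rw [chain, map_zero] at h1
    exact h1
  have hgx : ∀ i, ∑ a, g a * xv f d Y i a = 0 := by
    intro i
    by_cases hi : i = i0
    · simp [xv, hi]
    · rw [← hgd (d i)]
      refine Finset.sum_congr rfl fun a _ => ?_
      rw [hxi i hi]
  have hgv : ∑ a, g a * vv' f d Y a = 0 := by
    rw [← hgd (vd d i0 Y)]
    refine Finset.sum_congr rfl fun a _ => ?_
    rw [hVx]
  set G := ∑ a, g a * f.u a with hG
  have hWg : aeval x (WW F) = ∑ a, g a ^ 2 := by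
    rw [aeval_WW]
  have hu' : ∑ a, (2 * vv' f d Y a - 4 * dn d i0 Y * f.u a) * g a = -(4 * dn d i0 Y * G) := by
    have h1 : ∀ a, (2 * vv' f d Y a - 4 * dn d i0 Y * f.u a) * g a =
        2 * (g a * vv' f d Y a) - 4 * dn d i0 Y * (g a * f.u a) := fun a => by ring
    simp only [h1]
    rw [Finset.sum_sub_distrib, ← Finset.mul_sum, ← Finset.mul_sum, hgv]
    ring
  have hνν : ∑ a, (2 * vv' f d Y a - 4 * dn d i0 Y * f.u a) *
      (2 * vv' f d Y a - 4 * dn d i0 Y * f.u a) = -(4 * dn d i0 Y) := by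
    have h1 : ∀ a, (2 * vv' f d Y a - 4 * dn d i0 Y * f.u a) *
        (2 * vv' f d Y a - 4 * dn d i0 Y * f.u a) =
        4 * (vv' f d Y a * vv' f d Y a) - 16 * dn d i0 Y * (f.u a * vv' f d Y a) +
          16 * dn d i0 Y ^ 2 * (f.u a * f.u a) := fun a => by ring
    simp only [h1]
    rw [Finset.sum_add_distrib, Finset.sum_sub_distrib, ← Finset.mul_sum, ← Finset.mul_sum,
      ← Finset.mul_sum, vv_vv, uv_half, f.uu]
    have h3 : (16 : K) = 2 * (2 * (2 * 2)) := by norm_num
    rw [h3, h4]
    field_simp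
    ring
  have hD : dn d i0 Y ≠ 0 := by
    intro hD0
    -- the gradient is a multiple of `vv'`
    have e1 : ∀ a, g a = 2 * (vv' f d Y a) * G := by
      intro a
      have e2 : g a = ∑ b, (if a = b then (1 : K) else 0) * g b := by
        simp
      have e3 : ∀ b, (if a = b then (1 : K) else 0) = ∑ i, xv f d Y i a * xv f d Y i b +
          2 * (vv' f d Y a * f.u b + f.u a * vv' f d Y b) := by
        intro b
        rw [← f.comp a b]
        have e4 : ∑ i, xv f d Y i a * xv f d Y i b =
            (∑ i, if i = i0 then 0 else f.E i a * f.E i b) +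
            (∑ i, yk d i0 Y i * f.E i b) * f.u a + (∑ i, yk d i0 Y i * f.E i a) * f.u b +
            (∑ i, yk d i0 Y i ^ 2) * (f.u a * f.u b) := by
          rw [Finset.sum_mul, Finset.sum_mul, Finset.sum_mul, ← Finset.sum_add_distrib,
            ← Finset.sum_add_distrib, ← Finset.sum_add_distrib]
          refine Finset.sum_congr rfl fun i _ => ?_
          rw [xv, xv, yk]
          split
          · ring
          · ring
        have e5 : ∀ c, vv' f d Y c = f.E i0 c + (d i0 Y - (∑ i, yk d i0 Y i ^ 2) / 2) * f.u c -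
            (∑ i, yk d i0 Y i * f.E i c) / 2 := by
          intro c
          have h9 : ∑ i, yk d i0 Y i / 2 * f.E i c = (∑ i, yk d i0 Y i * f.E i c) / 2 := by
            rw [Finset.sum_div]
            refine Finset.sum_congr rfl fun i _ => ?_
            ring
          rw [vv', h9]
        have e6 : d i0 Y = (∑ i, yk d i0 Y i ^ 2) / 4 := by
          rw [dn] at hD0
          linear_combination hD0
        rw [e4, e5 a, e5 b, e6]
        rw [h4]
        field_simp
        ring
      rw [e2]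
      simp only [e3]
      have e7 : ∀ b, (∑ i, xv f d Y i a * xv f d Y i b +
          2 * (vv' f d Y a * f.u b + f.u a * vv' f d Y b)) * g b =
          ∑ i, xv f d Y i a * (g b * xv f d Y i b) + (2 * vv' f d Y a * (g b * f.u b) +
            2 * f.u a * (g b * vv' f d Y b)) := by
        intro b
        rw [add_mul, Finset.sum_mul]
        congr 1
        · refine Finset.sum_congr rfl fun i _ => ?_
          ring
        · ring
      simp only [e7]
      rw [Finset.sum_add_distrib, Finset.sum_add_distrib, ← Finset.mul_sum, ← Finset.mul_sum, hgv,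
        Finset.sum_comm]
      have e8 : ∀ i, ∑ b, xv f d Y i a * (g b * xv f d Y i b) = 0 := by
        intro i
        rw [← Finset.mul_sum, hgx, mul_zero]
      simp only [e8, Finset.sum_const_zero]
      ring
    apply hW
    rw [hWg]
    have e9 : ∀ a, g a ^ 2 = 4 * G ^ 2 * (vv' f d Y a * vv' f d Y a) := by
      intro a
      rw [e1 a]
      ring
    simp only [e9]
    rw [← Finset.mul_sum, vv_vv, hD0, mul_zero]
  -- the gradient is a multiple of the normal
  have hga : ∀ a, g a = G * (2 * vv' f d Y a - 4 * dn d i0 Y * f.u a) := by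
    intro a
    have e2 : g a = ∑ b, (if a = b then (1 : K) else 0) * g b := by
      simp
    have e3 : ∀ b, (if a = b then (1 : K) else 0) =
        vv' f d Y a * vv' f d Y b / dn d i0 Y + ∑ i, xv f d Y i a * xv f d Y i b -
        (2 * vv' f d Y a - 4 * dn d i0 Y * f.u a) *
      (2 * vv' f d Y b - 4 * dn d i0 Y * f.u b) / (4 * dn d i0 Y) := by
      intro b
      rw [projF hD]
      ring
    rw [e2]
    simp only [e3]
    have e7 : ∀ b, (vv' f d Y a * vv' f d Y b / dn d i0 Y + ∑ i, xv f d Y i a * xv f d Y i b -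
        (2 * vv' f d Y a - 4 * dn d i0 Y * f.u a) *
        (2 * vv' f d Y b - 4 * dn d i0 Y * f.u b) / (4 * dn d i0 Y)) * g b =
        vv' f d Y a / dn d i0 Y * (g b * vv' f d Y b) +
        ∑ i, xv f d Y i a * (g b * xv f d Y i b) -
        (2 * vv' f d Y a - 4 * dn d i0 Y * f.u a) / (4 * dn d i0 Y) *
          ((2 * vv' f d Y b - 4 * dn d i0 Y * f.u b) * g b) := by
      intro b
      rw [sub_mul, add_mul, Finset.sum_mul]
      congr 1
      · congr 1
        · ring
        · refine Finset.sum_congr rfl fun i _ => ?_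
          ring
      · ring
    simp only [e7]
    rw [Finset.sum_sub_distrib, Finset.sum_add_distrib, ← Finset.mul_sum, ← Finset.mul_sum, hgv,
      hu', Finset.sum_comm]
    have e8 : ∀ i, ∑ b, xv f d Y i a * (g b * xv f d Y i b) = 0 := by
      intro i
      rw [← Finset.mul_sum, hgx, mul_zero]
    simp only [e8, Finset.sum_const_zero]
    rw [h4]
    field_simp
    ring
  have hWG : aeval x (WW F) = -(4 * dn d i0 Y) * G ^ 2 := by
    rw [hWg, ← hνν, Finset.sum_mul]
    refine Finset.sum_congr rfl fun a _ => ?_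
    rw [hga a]
    ring
  have hG0 : G ≠ 0 := by
    intro h
    apply hW
    rw [hWG, h]
    ring
  refine ⟨hD, hW, ?_, ?_⟩
  · intro a b
    rw [td_apply, hVx]
    have e1 : ∑ i, xv f d Y i a * d i (x b) = ∑ i, xv f d Y i a * xv f d Y i b := by
      refine Finset.sum_congr rfl fun i _ => ?_
      by_cases hi : i = i0
      · simp [xv, hi]
      · rw [hxi i hi]
    have e2 : vv' f d Y a / dn d i0 Y * vv' f d Y b =
        vv' f d Y a * vv' f d Y b / dn d i0 Y := by ring
    rw [e1, e2, projF hD]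
    have e3 : aeval x (pderiv a F) = g a := rfl
    have e4 : aeval x (pderiv b F) = g b := rfl
    rw [e3, e4, hWG, hga a, hga b, h4]
    field_simp
    ring
  · intro h
    have e1 : ∀ a, g a * td f d Y a h = vd d i0 Y h / dn d i0 Y * (g a * vv' f d Y a) +
        ∑ i, d i h * (g a * xv f d Y i a) := by
      intro a
      rw [td_apply, mul_add, Finset.mul_sum]
      congr 1
      · ring
      · refine Finset.sum_congr rfl fun i _ => ?_
        ring
    show ∑ a, g a * td f d Y a h = 0
    simp only [e1]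
    rw [Finset.sum_add_distrib, ← Finset.mul_sum, hgv, mul_zero, zero_add, Finset.sum_comm]
    refine Finset.sum_eq_zero fun i _ => ?_
    rw [← Finset.mul_sum, hgx, mul_zero]

end

end Run7.h978
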