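import Mathlib
import Pool.Agent.Run7.h978.Nfr2

set_option autoImplicit false
set_option linter.unusedSectionVars false

/-!
Orders near an isotropic direction at infinity.
-/

open MvPolynomial

namespace Run7.h978

section

variable {K : Type*} [Field K] [Algebra ℝ K] {n : ℕ} {i0 : Fin n}
  {d : Fin n → Derivation ℝ K K} {Y : K}

theorem vd_const {c : K} (hc : ∀ i, d i c = 0) : vd d i0 Y c = 0 := by
  rw [vd_apply, hc]
  simp [hc]

theorem vd_cmul {c : K} (hc : ∀ i, d i c = 0) (h : K) :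
    vd d i0 Y (c * h) = c * vd d i0 Y h := by
  rw [Derivation.leibniz, vd_const hc, smul_zero, add_zero, smul_eq_mul]

theorem d_cmul {c : K} (hc : ∀ i, d i c = 0) (i : Fin n) (h : K) : d i (c * h) = c * d i h := by
  rw [Derivation.leibniz, hc, smul_zero, add_zero, smul_eq_mul]

theorem lapF_add (g h : K) : lapF d i0 Y (g + h) = lapF d i0 Y g + lapF d i0 Y h := by
  have h1 : (∑ k, if k = i0 then 0 else d k (d k (g + h))) =
      (∑ k, if k = i0 then 0 else d k (d k g)) + ∑ k, if k = i0 then 0 else d k (d k h) := by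
    rw [← Finset.sum_add_distrib]
    refine Finset.sum_congr rfl fun k _ => ?_
    split
    · rw [add_zero]
    · rw [map_add, map_add]
  have h2 : ∑ k, vd d i0 Y (yk d i0 Y k) * d k (g + h) =
      ∑ k, vd d i0 Y (yk d i0 Y k) * d k g + ∑ k, vd d i0 Y (yk d i0 Y k) * d k h := by
    rw [← Finset.sum_add_distrib]
    refine Finset.sum_congr rfl fun k _ => ?_
    rw [map_add, mul_add]
  rw [lapF, lapF, lapF, h1, h2, map_add, add_div, map_add]
  ring

theorem lapF_cmul {c : K} (hc : ∀ i, d i c = 0) (h : K) :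
    lapF d i0 Y (c * h) = c * lapF d i0 Y h := by
  have h1 : (∑ k, if k = i0 then 0 else d k (d k (c * h))) =
      c * ∑ k, if k = i0 then 0 else d k (d k h) := by
    rw [Finset.mul_sum]
    refine Finset.sum_congr rfl fun k _ => ?_
    split
    · rw [mul_zero]
    · rw [d_cmul hc, d_cmul hc]
  have h2 : ∑ k, vd d i0 Y (yk d i0 Y k) * d k (c * h) =
      c * ∑ k, vd d i0 Y (yk d i0 Y k) * d k h := by
    rw [Finset.mul_sum]
    refine Finset.sum_congr rfl fun k _ => ?_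
    rw [d_cmul hc]
    ring
  have h3 : vd d i0 Y (c * vd d i0 Y h / dn d i0 Y) =
      c * vd d i0 Y (vd d i0 Y h / dn d i0 Y) := by
    rw [mul_div_assoc, vd_cmul hc]
  rw [lapF, lapF, h1, h2, vd_cmul hc, h3]
  ring

theorem lapF_const {c : K} (hc : ∀ i, d i c = 0) : lapF d i0 Y c = 0 := by
  have h1 := lapF_cmul (i0 := i0) (Y := Y) hc 1
  have h2 : lapF d i0 Y (1 : K) = 0 := by
    simp [lapF, vd_apply]
  rw [mul_one, h2, mul_zero] at h1
  exact h1

/-- the positive Laplace operator -/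
noncomputable def lapM (d : Fin n → Derivation ℝ K K) (i0 : Fin n) (Y h : K) : K :=
  -lapF d i0 Y h

theorem lapM_add (g h : K) : lapM d i0 Y (g + h) = lapM d i0 Y g + lapM d i0 Y h := by
  rw [lapM, lapM, lapM, lapF_add]
  ring

theorem lapM_cmul {c : K} (hc : ∀ i, d i c = 0) (h : K) :
    lapM d i0 Y (c * h) = c * lapM d i0 Y h := by
  rw [lapM, lapM, lapF_cmul hc]
  ring

theorem lapM_const {c : K} (hc : ∀ i, d i c = 0) : lapM d i0 Y c = 0 := by
  rw [lapM, lapF_const hc, neg_zero]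

theorem real_const (r : ℝ) (i : Fin n) : d i (algebraMap ℝ K r) = 0 :=
  Derivation.map_algebraMap _ r

theorem itM_cmul {c : K} (hc : ∀ i, d i c = 0) (l : List ℝ) :
    ∀ h, itL (lapM d i0 Y) l (c * h) = c * itL (lapM d i0 Y) l h := by
  induction l with
  | nil => intro h; rfl
  | cons μ l ih =>
    intro h
    rw [itL, itL, lapM_cmul hc, ← ih]
    congr 1
    ring

theorem itM_add (l : List ℝ) (g h : K) : itL (lapM d i0 Y) l (g + h) =
    itL (lapM d i0 Y) l g + itL (lapM d i0 Y) l h := itL_add lapM_add l g h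

theorem itM_zero (l : List ℝ) : itL (lapM d i0 Y) l (0 : K) = 0 := by
  have h1 := itM_cmul (d := d) (i0 := i0) (Y := Y) (c := 0) (fun i => map_zero _) l 0
  rw [mul_zero, zero_mul] at h1
  exact h1

theorem itM_sum {ι : Type*} (S : Finset ι) (l : List ℝ) (g : ι → K) :
    itL (lapM d i0 Y) l (∑ i ∈ S, g i) = ∑ i ∈ S, itL (lapM d i0 Y) l (g i) := by
  classical
  induction S using Finset.induction_on with
  | empty => simpa using itM_zero l
  | insert a S ha ih => rw [Finset.sum_insert ha, Finset.sum_insert ha, itM_add, ih]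

theorem itM_comm (l : List ℝ) : ∀ h, itL (lapM d i0 Y) l (lapM d i0 Y h) =
    lapM d i0 Y (itL (lapM d i0 Y) l h) := by
  induction l with
  | nil => intro h; rfl
  | cons μ l ih =>
    intro h
    rw [itL, itL, ← ih]
    congr 1
    have h1 : lapM d i0 Y h - algebraMap ℝ K μ * h =
        lapM d i0 Y h + algebraMap ℝ K (-μ) * h := by
      rw [map_neg]
      ring
    rw [h1, lapM_add, lapM_cmul (fun i => real_const (-μ) i), map_neg]
    ring

theorem itM_const {c : K} (hc : ∀ i, d i c = 0) (l : List ℝ) :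
    itL (lapM d i0 Y) l c = (l.map fun μ => -algebraMap ℝ K μ).prod * c := by
  induction l generalizing c with
  | nil => simp [itL]
  | cons μ l ih =>
    rw [itL, lapM_const hc, zero_sub, ih, List.map_cons, List.prod_cons]
    · ring
    · intro i
      rw [map_neg, d_cmul (fun i => real_const μ i), hc, mul_zero, neg_zero]

end

namespace Inf

variable {n : ℕ} {L : Type} [Field L] [Algebra ℝ L] [CharZero L] (T : Inf n L) (i0 : Fin n)

/-- the weights -/
def wt (i0 i : Fin n) : ℤ := if i = i0 then 8 else 2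

theorem wt_self : wt i0 i0 = 8 := if_pos rfl

theorem wt_ne {i : Fin n} (h : i ≠ i0) : wt i0 i = 2 := if_neg h

/-- the coordinates -/
noncomputable def xw (i : Fin n) : FK L :=
  io (PowerSeries.C (T.b i)) * vs L ^ (-(wt i0 i * (T.M : ℤ)))

/-- the coordinate derivations -/
noncomputable def dw (i : Fin n) : Derivation ℝ (FK L) (FK L) :=
  (vs L ^ (wt i0 i * (T.M : ℤ))) • T.E i

theorem dw_apply (i : Fin n) (h : FK L) :
    T.dw i0 i h = vs L ^ (wt i0 i * (T.M : ℤ)) * T.E i h := rfl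

theorem dw_xw (i k : Fin n) : T.dw i0 i (T.xw i0 k) = if i = k then 1 else 0 := by
  rw [dw_apply, xw, Derivation.leibniz, T.E_vs, smul_zero, zero_add, T.hE, psD_C, T.Db,
    smul_eq_mul]
  by_cases h : i = k
  · subst h
    rw [if_pos rfl, if_pos rfl, map_one, map_one, mul_one, ← zpow_add₀ vs_ne, add_neg_cancel,
      zpow_zero]
  · rw [if_neg h, if_neg h, map_zero, map_zero, mul_zero, mul_zero]

theorem lead_xw (i : Fin n) : Lead (-(wt i0 i * (T.M : ℤ))) (T.xw i0 i) (T.b i) :=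
  ⟨PowerSeries.C (T.b i), by rw [xw, mul_comm], PowerSeries.constantCoeff_C _⟩

theorem lead_dw {m : ℤ} {h : FK L} {c : L} (H : Lead m h c) (i : Fin n) :
    Lead (m + wt i0 i * T.M) (T.dw i0 i h) (T.D i c) := by
  rw [dw_apply]
  exact ((lead_vs (L := L) (wt i0 i * (T.M : ℤ))).mul (H.der (T.hE i))).cast (add_comm _ _) rfl
    (one_mul _)

theorem vl_dw {m : ℤ} {h : FK L} (H : VL m h) (i : Fin n) :
    VL (m + wt i0 i * T.M) (T.dw i0 i h) := by
  obtain ⟨c, H⟩ := H.lead
  exact (T.lead_dw i0 H i).vl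

theorem vl_dwk {m : ℤ} {h : FK L} (H : VL m h) {i : Fin n} (hi : i ≠ i0) :
    VL (m + 2 * T.M) (T.dw i0 i h) := by
  have h1 := T.vl_dw i0 H i
  rwa [wt_ne i0 hi] at h1

theorem M_pos : (1 : ℤ) ≤ T.M := by
  have := T.M0
  omega

section

variable {T i0} {Y : FK L} {a ω ρ : ℤ} (ha : ∀ k, VL a (yk (T.dw i0) i0 Y k))
  (hω8 : ω ≤ 8 * T.M) (hωa : ω ≤ a + 2 * T.M)

include ha hω8 hωa

theorem vl_V {m : ℤ} {h : FK L} (H : VL m h) : VL (m + ω) (vd (T.dw i0) i0 Y h) := by
  rw [vd_apply]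
  refine VL.sub ?_ (VL.sum _ fun k _ => ?_)
  · have h1 := T.vl_dw i0 H i0
    rw [wt_self] at h1
    exact h1.mono (by omega)
  · by_cases hk : k = i0
    · rw [hk, yk_eq, zero_div, zero_mul]
      exact (Lead.zero _).vl
    · have h1 := ((ha k).div lead_two two_ne_zero).mul (T.vl_dwk i0 H hk)
      exact h1.mono (by omega)

variable {δ : L} (hδ : δ ≠ 0) (hD : Lead ρ (dn (T.dw i0) i0 Y) δ)

include hδ hD

theorem vl_lapF {κ : ℤ} (h1 : κ ≤ 2 * ω - ρ) (h2 : κ ≤ 4 * T.M) {m : ℤ} {h : FK L}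
    (H : VL m h) : VL (m + κ) (lapF (T.dw i0) i0 Y h) := by
  have hM := T.M_pos
  have hV := fun {m : ℤ} {h : FK L} (H : VL m h) => vl_V ha hω8 hωa (m := m) (h := h) H
  have h20 : (2 : L) ≠ 0 := two_ne_zero
  rw [lapF]
  refine VL.add (VL.sub (VL.add (VL.add ?_ ?_) ?_) ?_) ?_
  · exact (hV ((hV H).div hD hδ)).mono (by omega)
  · have h3 := ((hV hD.vl).mul (hV H)).div
      (lead_two.mul (hD.mul hD)) (mul_ne_zero h20 (mul_ne_zero hδ hδ))
    rw [pow_two]
    exact h3.mono (by omega)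
  · have h3 : VL (a + ω + (m + 2 * T.M))
        (∑ k, vd (T.dw i0) i0 Y (yk (T.dw i0) i0 Y k) * T.dw i0 k h) := by
      refine VL.sum _ fun k _ => ?_
      by_cases hk : k = i0
      · rw [hk, yk_eq, map_zero, zero_mul]
        exact (Lead.zero _).vl
      · exact (hV (ha k)).mul (T.vl_dwk i0 H hk)
    exact (h3.div (lead_two.mul hD) (mul_ne_zero h20 hδ)).mono (by omega)
  · have h3 : VL (a + 2 * T.M) (∑ k, T.dw i0 k (yk (T.dw i0) i0 Y k)) := by
      refine VL.sum _ fun k _ => ?_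
      by_cases hk : k = i0
      · rw [hk, yk_eq, map_zero]
        exact (Lead.zero _).vl
      · exact T.vl_dwk i0 (ha k) hk
    exact ((h3.mul (hV H)).div (lead_two.mul hD) (mul_ne_zero h20 hδ)).mono (by omega)
  · refine VL.sum _ fun k _ => ?_
    split
    · exact (Lead.zero _).vl
    · rename_i hk
      exact (T.vl_dwk i0 (T.vl_dwk i0 H hk) hk).mono (by omega)

theorem vl_lapM {κ : ℤ} (h1 : κ ≤ 2 * ω - ρ) (h2 : κ ≤ 4 * T.M) {m : ℤ} {h : FK L}
    (H : VL m h) : VL (m + κ) (lapM (T.dw i0) i0 Y h) :=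
  (vl_lapF ha hω8 hωa hδ hD h1 h2 H).neg

/-- near the other coordinates -/
theorem vl_lapM_xw (h1 : 0 ≤ 2 * ω - ρ) (h2 : ω + 1 ≤ a + 2 * T.M) {i : Fin n} (hi : i ≠ i0) :
    VL (-(2 * (T.M : ℤ)) + 1) (lapM (T.dw i0) i0 Y (T.xw i0 i)) := by
  have hM := T.M_pos
  have hV := fun {m : ℤ} {h : FK L} (H : VL m h) => vl_V ha hω8 hωa (m := m) (h := h) H
  have h20 : (2 : L) ≠ 0 := two_ne_zero
  have hVx : VL a (vd (T.dw i0) i0 Y (T.xw i0 i)) := by
    rw [vd_apply, T.dw_xw, if_neg (Ne.symm hi)]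
    refine VL.sub (Lead.zero _).vl (VL.sum _ fun k _ => ?_)
    rw [T.dw_xw]
    split
    · rw [mul_one]
      exact ((ha k).div lead_two h20).mono (by omega)
    · rw [mul_zero]
      exact (Lead.zero _).vl
  rw [lapM, lapF]
  refine VL.neg (VL.add (VL.sub (VL.add (VL.add ?_ ?_) ?_) ?_) ?_)
  · exact (hV (hVx.div hD hδ)).mono (by omega)
  · have h3 := ((hV hD.vl).mul hVx).div
      (lead_two.mul (hD.mul hD)) (mul_ne_zero h20 (mul_ne_zero hδ hδ))
    rw [pow_two]
    exact h3.mono (by omega)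
  · have h3 : VL (a + ω)
        (∑ k, vd (T.dw i0) i0 Y (yk (T.dw i0) i0 Y k) * T.dw i0 k (T.xw i0 i)) := by
      refine VL.sum _ fun k _ => ?_
      rw [T.dw_xw]
      split
      · rw [mul_one]
        exact hV (ha k)
      · rw [mul_zero]
        exact (Lead.zero _).vl
    exact (h3.div (lead_two.mul hD) (mul_ne_zero h20 hδ)).mono (by omega)
  · have h3 : VL (a + 2 * T.M) (∑ k, T.dw i0 k (yk (T.dw i0) i0 Y k)) := by
      refine VL.sum _ fun k _ => ?_
      by_cases hk : k = i0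
      · rw [hk, yk_eq, map_zero]
        exact (Lead.zero _).vl
      · exact T.vl_dwk i0 (ha k) hk
    exact ((h3.mul hVx).div (lead_two.mul hD) (mul_ne_zero h20 hδ)).mono (by omega)
  · refine VL.sum _ fun k _ => ?_
    rw [T.dw_xw]
    by_cases hk : k = i
    · rw [if_pos hk]
      split
      · exact (Lead.zero _).vl
      · rw [Derivation.map_one_eq_zero]
        exact (Lead.zero _).vl
    · rw [if_neg hk]
      split
      · exact (Lead.zero _).vl
      · rw [map_zero]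
        exact (Lead.zero _).vl

end

theorem it_keep {Δ : FK L → FK L} (hadd : ∀ g h, Δ (g + h) = Δ g + Δ h)
    (hreal : ∀ (r : ℝ) h, Δ (algebraMap ℝ (FK L) r * h) = algebraMap ℝ (FK L) r * Δ h) {m : ℤ}
    (H : ∀ h, VL (m + 1) h → VL (m + 1) (Δ h)) (l : List ℝ) :
    ∀ (h : FK L) (c : L), Lead m h c → VL (m + 1) (Δ h) →
      Lead m (itL Δ l h) ((l.map fun μ => -algebraMap ℝ L μ).prod * c) := by
  induction l with
  | nil =>
    intro h c h1 _
    simpa [itL] using h1
  | cons μ l ih =>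
    intro h c h1 h2
    rw [itL, List.map_cons, List.prod_cons]
    have h3 : Lead m (algebraMap ℝ (FK L) μ * h) (algebraMap ℝ L μ * c) :=
      ((lead_real μ).mul h1).cast (zero_add m) rfl rfl
    have h4 : Lead m (Δ h) 0 := h2.lead0 (by omega)
    have h5 : VL (m + 1) (Δ (Δ h - algebraMap ℝ (FK L) μ * h)) := by
      have h6 : Δ h - algebraMap ℝ (FK L) μ * h = Δ h + algebraMap ℝ (FK L) (-μ) * h := by
        rw [map_neg]
        ring
      rw [h6, hadd, hreal]
      refine (H _ h2).add ?_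
      have h7 := (lead_real (L := L) (-μ)).vl.mul h2
      rwa [zero_add] at h7
    refine (ih _ _ (h4.sub h3) h5).cast rfl rfl ?_
    ring

section

variable {T i0} {Y : FK L} {a ω ρ : ℤ} (ha : ∀ k, VL a (yk (T.dw i0) i0 Y k))
  (hω8 : ω ≤ 8 * T.M) (hωa : ω ≤ a + 2 * T.M) {δ : L} (hδ : δ ≠ 0)
  (hD : Lead ρ (dn (T.dw i0) i0 Y) δ) {l : List ℝ} (hl : ∀ μ ∈ l, μ ≠ 0)
  (hit : ∀ i, itL (lapM (T.dw i0) i0 Y) l (T.xw i0 i) = 0)

include ha hω8 hωa hδ hD hl hit

theorem b_ne (i : Fin n) : T.b i ≠ 0 := by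
  intro h
  have h1 := T.Db i i
  rw [h, map_zero, if_pos rfl] at h1
  exact zero_ne_one h1

theorem low (h1 : 1 ≤ 2 * ω - ρ) : False := by
  have hM := T.M_pos
  have h2 := it_keep (Δ := lapM (T.dw i0) i0 Y) lapM_add
    (fun r h => lapM_cmul (fun i => real_const r i) h) (m := -(wt i0 i0 * (T.M : ℤ)))
    (fun h H => (vl_lapM ha hω8 hωa hδ hD (κ := 0) (by omega) (by omega) H).mono (by omega)) l
    (T.xw i0 i0) _ (T.lead_xw i0 i0)
    ((vl_lapM ha hω8 hωa hδ hD (κ := 1) (by omega) (by omega) (T.lead_xw i0 i0).vl).mono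
      (by omega))
  rw [hit] at h2
  exact mul_ne_zero (prod_ne hl) (b_ne ha hω8 hωa hδ hD hl hit i0) ((Lead.zero _).unique h2).symm

theorem crit (h1 : 0 ≤ 2 * ω - ρ) (h2 : ω + 1 ≤ a + 2 * T.M) {i : Fin n} (hi : i ≠ i0) :
    False := by
  have hM := T.M_pos
  have h3 := T.lead_xw i0 i
  rw [wt_ne i0 hi] at h3
  have h4 := it_keep (Δ := lapM (T.dw i0) i0 Y) lapM_add
    (fun r h => lapM_cmul (fun i => real_const r i) h) (m := -(2 * (T.M : ℤ)))
    (fun h H => (vl_lapM ha hω8 hωa hδ hD (κ := 0) (by omega) (by omega) H).mono (by omega)) l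
    (T.xw i0 i) _ h3 (vl_lapM_xw ha hω8 hωa hδ hD h1 h2 hi)
  rw [hit] at h4
  exact mul_ne_zero (prod_ne hl) (b_ne ha hω8 hωa hδ hD hl hit i) ((Lead.zero _).unique h4).symm

end

end Inf

end Run7.h978
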