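import Mathlib
import Pool.Agent.Run7.h978.Nfr3

set_option autoImplicit false
set_option linter.unusedSectionVars false

/-!
Contradictions from the orders.
-/

open MvPolynomial

namespace Run7.h978

section

variable {L : Type} [Field L] [Algebra ℝ L] [CharZero L]

theorem iter_add (D : Derivation ℝ L L) (N : ℕ) : ∀ A B : L, D^[N] (A + B) = D^[N] A + D^[N] B := by
  induction N with
  | zero => intro A B; rfl
  | succ N ih =>
    intro A B
    rw [Function.iterate_succ_apply, Function.iterate_succ_apply, Function.iterate_succ_apply,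
      map_add, ih]

theorem iter_zero (D : Derivation ℝ L L) (N : ℕ) : D^[N] (0 : L) = 0 := by
  induction N with
  | zero => rfl
  | succ N ih => rw [Function.iterate_succ_apply, map_zero, ih]

theorem nil_mul (D : Derivation ℝ L L) (N : ℕ) : ∀ (p q : ℕ) (A B : L), p + q = N →
    D^[p + 1] A = 0 → D^[q + 1] B = 0 →
    D^[p + q] (A * B) = ((p + q).choose p : L) * D^[p] A * D^[q] B := by
  induction N with
  | zero =>
    intro p q A B h _ _
    obtain ⟨rfl, rfl⟩ : p = 0 ∧ q = 0 := by omega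
    simp
  | succ N ih =>
    intro p q A B h hA hB
    have h1 : p + q = N + 1 := h
    rw [h1, Function.iterate_succ_apply, Derivation.leibniz, smul_eq_mul, smul_eq_mul, iter_add,
      mul_comm B]
    rcases p with _ | p
    · have hA0 : D A = 0 := hA
      obtain ⟨q, rfl⟩ : ∃ q', q = q' + 1 := ⟨q - 1, by omega⟩
      rw [hA0, zero_mul, iter_zero, add_zero]
      have h2 := ih 0 q A (D B) (by omega) hA hB
      have h3 : 0 + q = N := by omega
      rw [h3] at h2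
      rw [h2]
      simp
    rcases q with _ | q
    · have hB0 : D B = 0 := hB
      rw [hB0, mul_zero, iter_zero, zero_add]
      have h2 := ih p 0 (D A) B (by omega) hA hB
      have h3 : p + 0 = N := by omega
      rw [h3] at h2
      rw [h2]
      have h4 : N + 1 = p + 1 := by omega
      have h5 : N = p := by omega
      rw [h4, h5, Nat.choose_self, Nat.choose_self]
      simp
    · have h2 := ih (p + 1) q A (D B) (by omega) hA hB
      have h3 := ih p (q + 1) (D A) B (by omega) hA hB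
      have h4 : p + 1 + q = N := by omega
      have h5 : p + (q + 1) = N := by omega
      rw [h4] at h2
      rw [h5] at h3
      rw [h2, h3, Nat.choose_succ_succ]
      rw [Function.iterate_succ_apply D q B, Function.iterate_succ_apply D p A]
      push_cast
      ring

theorem const_of_mul_one (D : Derivation ℝ L L) {A B : L} (hAB : A * B = 1) {p0 q0 : ℕ}
    (hA : D^[p0] A = 0) (hB : D^[q0] B = 0) : D A = 0 := by
  classical
  have hA0 : A ≠ 0 := left_ne_zero_of_mul_eq_one hAB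
  have hB0 : B ≠ 0 := right_ne_zero_of_mul_eq_one hAB
  have key : ∀ {C : L} {r : ℕ}, C ≠ 0 → D^[r] C = 0 → ∃ p, D^[p + 1] C = 0 ∧ D^[p] C ≠ 0 := by
    intro C r hC hr
    have hex : ∃ r, D^[r] C = 0 := ⟨r, hr⟩
    have h1 := Nat.find_spec hex
    have h2 : Nat.find hex ≠ 0 := by
      intro h
      rw [h] at h1
      exact hC h1
    obtain ⟨p, hp⟩ : ∃ p, Nat.find hex = p + 1 := ⟨Nat.find hex - 1, by omega⟩
    refine ⟨p, by rwa [hp] at h1, ?_⟩
    exact Nat.find_min hex (by omega)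
  obtain ⟨p, hp, hp0⟩ := key hA0 hA
  obtain ⟨q, hq, hq0⟩ := key hB0 hB
  have h1 := nil_mul D (p + q) p q A B rfl hp hq
  rcases Nat.eq_zero_or_pos p with rfl | hpos
  · exact hp
  · exfalso
    have h2 : D^[p + q] (A * B) = 0 := by
      obtain ⟨r, hr⟩ : ∃ r, p + q = r + 1 := ⟨p + q - 1, by omega⟩
      rw [hAB, hr, Function.iterate_succ_apply, Derivation.map_one_eq_zero, iter_zero]
    rw [h2] at h1
    have h3 : ((p + q).choose p : L) ≠ 0 := by
      exact_mod_cast (Nat.choose_pos (Nat.le_add_right p q)).ne'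
    exact mul_ne_zero (mul_ne_zero h3 hp0) hq0 h1.symm

end

namespace Inf

variable {n : ℕ} {L : Type} [Field L] [Algebra ℝ L] [CharZero L] {T : Inf n L} {i0 : Fin n}
  {Y : FK L}

theorem lead_lapF {a ρ : ℤ} (ha : ∀ k, VL a (yk (T.dw i0) i0 Y k)) (ha8 : 6 * T.M + 1 ≤ a)
    {δ : L} (hδ : δ ≠ 0) (hD : Lead ρ (dn (T.dw i0) i0 Y) δ) (hρ : 16 * T.M < ρ) {m : ℤ}
    {h : FK L} {c : L} (H : Lead m h c) :
    Lead (m + (16 * T.M - ρ)) (lapF (T.dw i0) i0 Y h)
      (T.D i0 (T.D i0 c / δ) + T.D i0 δ * T.D i0 c / (2 * δ ^ 2)) := by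
  have hM := T.M_pos
  have h20 : (2 : L) ≠ 0 := two_ne_zero
  have hV : ∀ {m : ℤ} {h : FK L} {c : L}, Lead m h c →
      Lead (m + 8 * T.M) (vd (T.dw i0) i0 Y h) (T.D i0 c) := by
    intro m h c H
    rw [vd_apply]
    have h1 := T.lead_dw i0 H i0
    rw [wt_self] at h1
    refine (h1.sub (c' := 0) ?_).cast rfl rfl (sub_zero _)
    refine (Lead.sum (Finset.univ : Finset (Fin n)) (c := fun _ => 0) fun k _ => ?_).cast rfl rfl
      Finset.sum_const_zero
    by_cases hk : k = i0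
    · rw [hk, yk_eq, zero_div, zero_mul]
      exact Lead.zero _
    · exact (((ha k).div lead_two two_ne_zero).mul (T.vl_dwk i0 H.vl hk)).lead0 (by omega)
  rw [lapF]
  have e1 := hV ((hV H).div hD hδ)
  have e2 := ((hV hD).mul (hV H)).div (lead_two.mul (hD.mul hD))
    (mul_ne_zero h20 (mul_ne_zero hδ hδ))
  have e3 : Lead (m + (16 * T.M - ρ)) ((∑ k, vd (T.dw i0) i0 Y (yk (T.dw i0) i0 Y k) *
      T.dw i0 k h) / (2 * dn (T.dw i0) i0 Y)) 0 := by
    have h3 : VL (a + 8 * T.M + (m + 2 * T.M))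
        (∑ k, vd (T.dw i0) i0 Y (yk (T.dw i0) i0 Y k) * T.dw i0 k h) := by
      refine VL.sum _ fun k _ => ?_
      by_cases hk : k = i0
      · rw [hk, yk_eq, map_zero, zero_mul]
        exact (Lead.zero _).vl
      · exact (vl_V ha le_rfl (by omega) (ha k)).mul (T.vl_dwk i0 H.vl hk)
    exact (h3.div (lead_two.mul hD) (mul_ne_zero h20 hδ)).lead0 (by omega)
  have e4 : Lead (m + (16 * T.M - ρ)) ((∑ k, T.dw i0 k (yk (T.dw i0) i0 Y k)) *
      vd (T.dw i0) i0 Y h / (2 * dn (T.dw i0) i0 Y)) 0 := by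
    have h3 : VL (a + 2 * T.M) (∑ k, T.dw i0 k (yk (T.dw i0) i0 Y k)) := by
      refine VL.sum _ fun k _ => ?_
      by_cases hk : k = i0
      · rw [hk, yk_eq, map_zero]
        exact (Lead.zero _).vl
      · exact T.vl_dwk i0 (ha k) hk
    exact ((h3.mul (hV H).vl).div (lead_two.mul hD) (mul_ne_zero h20 hδ)).lead0 (by omega)
  have e5 : Lead (m + (16 * T.M - ρ)) (∑ k, if k = i0 then 0 else
      T.dw i0 k (T.dw i0 k h)) 0 := by
    refine (Lead.sum (Finset.univ : Finset (Fin n)) (c := fun _ => 0) fun k _ => ?_).cast rfl rfl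
      Finset.sum_const_zero
    split
    · exact Lead.zero _
    · rename_i hk
      exact (T.vl_dwk i0 (T.vl_dwk i0 H.vl hk) hk).lead0 (by omega)
  refine (((((e1.cast (m' := m + (16 * T.M - ρ)) (by ring) rfl rfl).add
    (e2.cast (m' := m + (16 * T.M - ρ)) (by ring) (by rw [← pow_two]) rfl)).add e3).sub
      e4).add e5).cast rfl rfl ?_
  rw [add_zero, sub_zero, add_zero]
  congr 1
  rw [pow_two]

theorem lead_lapM {a ρ : ℤ} (ha : ∀ k, VL a (yk (T.dw i0) i0 Y k)) (ha8 : 6 * T.M + 1 ≤ a)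
    {σ : L} (hσ : σ ≠ 0) (hD : Lead ρ (dn (T.dw i0) i0 Y) (σ ^ 2)) (hρ : 16 * T.M < ρ) {m : ℤ}
    {h : FK L} {c : L} (H : Lead m h c) :
    Lead (m + (16 * T.M - ρ)) (lapM (T.dw i0) i0 Y h)
      (-((σ⁻¹ • T.D i0) ((σ⁻¹ • T.D i0) c))) := by
  refine (lead_lapF ha ha8 (pow_ne_zero 2 hσ) hD hρ H).neg.cast rfl rfl ?_
  congr 1
  show _ = σ⁻¹ * T.D i0 (σ⁻¹ * T.D i0 c)
  rw [Derivation.leibniz_div, Derivation.leibniz_pow, Derivation.leibniz, Derivation.leibniz_inv]
  simp only [smul_eq_mul, nsmul_eq_mul]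
  push_cast
  have h2 : (2 : L) ≠ 0 := two_ne_zero
  field_simp
  ring

theorem it_sup {a ρ : ℤ} (ha : ∀ k, VL a (yk (T.dw i0) i0 Y k)) (ha8 : 6 * T.M + 1 ≤ a)
    {σ : L} (hσ : σ ≠ 0) (hD : Lead ρ (dn (T.dw i0) i0 Y) (σ ^ 2)) (hρ : 16 * T.M < ρ)
    (l : List ℝ) : ∀ {m : ℤ} {h : FK L} {c : L}, Lead m h c →
      Lead (m + l.length * (16 * T.M - ρ)) (itL (lapM (T.dw i0) i0 Y) l h)
        ((-1) ^ l.length * (σ⁻¹ • T.D i0)^[2 * l.length] c) := by
  induction l with
  | nil =>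
    intro m h c H
    simpa [itL] using H
  | cons μ l ih =>
    intro m h c H
    rw [itL]
    have h1 := lead_lapM ha ha8 hσ hD hρ H
    have h2 : Lead (m + (16 * T.M - ρ)) (algebraMap ℝ (FK L) μ * h) 0 :=
      (((lead_real μ).mul H).cast (zero_add m) rfl rfl).mono (by omega)
    refine (ih (h1.sub h2)).cast ?_ rfl ?_
    · rw [List.length_cons]
      push_cast
      ring
    · rw [sub_zero, List.length_cons]
      have h3 : ∀ (N : ℕ) (x : L), (σ⁻¹ • T.D i0)^[N] (-x) = -((σ⁻¹ • T.D i0)^[N] x) := by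
        intro N
        induction N with
        | zero => intro x; rfl
        | succ N ih =>
          intro x
          rw [Function.iterate_succ_apply, Function.iterate_succ_apply, map_neg, ih]
      rw [h3, mul_add, mul_one, Function.iterate_add_apply, pow_succ]
      show _ = (-1) ^ l.length * -1 * (σ⁻¹ • T.D i0)^[2 * l.length]
        ((σ⁻¹ • T.D i0) ((σ⁻¹ • T.D i0) c))
      ring

/-- the supercritical case -/
theorem sup [IsAlgClosed L] {c : FK L} (hc : ∀ i, T.dw i0 i c = 0) {y : FK L} (hY : Y = c + y)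
    {e : ℤ} {y0 : L} (hy : Lead e y y0) {a ρ : ℤ}
    (ha : ∀ k, VL a (yk (T.dw i0) i0 Y k)) (ha8 : 6 * T.M + 1 ≤ a)
    (hy0 : T.D i0 y0 ≠ 0) (hD : Lead ρ (dn (T.dw i0) i0 Y) (T.D i0 y0)) (hρ : 16 * T.M < ρ)
    {l : List ℝ} (hit : ∀ i, itL (lapM (T.dw i0) i0 Y) l (T.xw i0 i) = 0)
    (hitY : itL (lapM (T.dw i0) i0 Y) l Y = 0) : T.D i0 (T.D i0 y0) = 0 := by
  obtain ⟨σ, hσ⟩ := IsAlgClosed.exists_pow_nat_eq (T.D i0 y0) two_pos
  have hσ0 : σ ≠ 0 := by
    rintro rfl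
    apply hy0
    rw [← hσ]
    ring
  rw [← hσ] at hD
  have h1 := it_sup ha ha8 hσ0 hD hρ l (T.lead_xw i0 i0)
  rw [hit] at h1
  have h2 := (Lead.zero _).unique h1
  have h3 : (σ⁻¹ • T.D i0)^[2 * l.length] (T.b i0) = 0 := by
    rcases mul_eq_zero.1 h2.symm with h | h
    · exact absurd h (pow_ne_zero _ (neg_ne_zero.2 one_ne_zero))
    · exact h
  have h4 := it_sup ha ha8 hσ0 hD hρ (0 :: l) hy
  have h5 : itL (lapM (T.dw i0) i0 Y) (0 :: l) y = 0 := by
    rw [itL, map_zero, zero_mul, sub_zero]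
    have h6 : lapM (T.dw i0) i0 Y y = lapM (T.dw i0) i0 Y Y := by
      conv_rhs => rw [hY, lapM_add]
      rw [← hY, lapM_const hc, zero_add]
    rw [h6, itM_comm, hitY]
    exact lapM_const (fun i => map_zero _)
  rw [h5] at h4
  have h6 := (Lead.zero _).unique h4
  have h7 : (σ⁻¹ • T.D i0)^[2 * (0 :: l).length] y0 = 0 := by
    rcases mul_eq_zero.1 h6.symm with h | h
    · exact absurd h (pow_ne_zero _ (neg_ne_zero.2 one_ne_zero))
    · exact h
  have hA : (σ⁻¹ • T.D i0)^[2 * l.length] ((σ⁻¹ • T.D i0) (T.b i0)) = 0 := by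
    rw [← Function.iterate_succ_apply, Function.iterate_succ_apply', h3, map_zero]
  have hB : (σ⁻¹ • T.D i0)^[2 * (0 :: l).length] ((σ⁻¹ • T.D i0) y0) = 0 := by
    rw [← Function.iterate_succ_apply, Function.iterate_succ_apply', h7, map_zero]
  have hA' : (σ⁻¹ • T.D i0) (T.b i0) = σ⁻¹ := by
    show σ⁻¹ * T.D i0 (T.b i0) = σ⁻¹
    rw [T.Db, if_pos rfl, mul_one]
  have hB' : (σ⁻¹ • T.D i0) y0 = σ := by
    show σ⁻¹ * T.D i0 y0 = σ
    rw [← hσ]
    field_simp
  rw [hA'] at hA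
  rw [hB'] at hB
  have h8 := const_of_mul_one (σ⁻¹ • T.D i0) (mul_inv_cancel₀ hσ0) hB hA
  have h9 : σ⁻¹ * T.D i0 σ = 0 := h8
  have h10 := (mul_eq_zero.1 h9).resolve_left (inv_ne_zero hσ0)
  rw [← hσ, Derivation.leibniz_pow, h10, smul_zero, smul_zero]

section

variable {l : List ℝ} (hl : ∀ μ ∈ l, μ ≠ 0)
  (hit : ∀ i, itL (lapM (T.dw i0) i0 Y) l (T.xw i0 i) = 0)
  (hitY : itL (lapM (T.dw i0) i0 Y) l Y = 0) {c : FK L} (hc : ∀ i, T.dw i0 i c = 0) {y : FK L}
  (hY : Y = c + y) {e : ℤ} {y0 : L} (hy : Lead e y y0)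

include hc hY hy

theorem lead_yk {k : Fin n} (hk : k ≠ i0) :
    Lead (e + 2 * T.M) (yk (T.dw i0) i0 Y k) (T.D k y0) := by
  have h1 := T.lead_dw i0 hy k
  rw [wt_ne i0 hk] at h1
  rw [yk_ne hk, hY, map_add, hc, zero_add]
  exact h1

theorem vl_yk (k : Fin n) : VL (e + 2 * T.M) (yk (T.dw i0) i0 Y k) := by
  by_cases hk : k = i0
  · rw [hk, yk_eq]
    exact (Lead.zero _).vl
  · exact (lead_yk hc hY hy hk).vl

theorem lead_yi : Lead (e + 8 * T.M) (T.dw i0 i0 Y) (T.D i0 y0) := by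
  have h1 := T.lead_dw i0 hy i0
  rw [wt_self] at h1
  rw [hY, map_add, hc, zero_add]
  exact h1

theorem lead_sq : Lead (2 * e + 4 * T.M) ((∑ i, yk (T.dw i0) i0 Y i ^ 2) / 4)
    ((∑ k, if k = i0 then 0 else T.D k y0 ^ 2) / 4) := by
  have h4 : Lead 0 (4 : FK L) (4 : L) :=
    (lead_natCast (L := L) 4).cast rfl (by norm_num) (by norm_num)
  refine ((Lead.sum (Finset.univ : Finset (Fin n)) (m := 2 * e + 4 * T.M) fun k _ => ?_).div h4
    (by norm_num)).cast (sub_zero _) rfl rfl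
  split
  · rename_i hk
    rw [hk, yk_eq, zero_pow two_ne_zero]
    exact Lead.zero _
  · rename_i hk
    rw [pow_two, pow_two]
    exact ((lead_yk hc hY hy hk).mul (lead_yk hc hY hy hk)).cast (by ring) rfl rfl

include hl hit

theorem T2 (he : e = 4 * T.M)
    (hδ : T.D i0 y0 - (∑ k, if k = i0 then 0 else T.D k y0 ^ 2) / 4 ≠ 0) : False := by
  have hM := T.M_pos
  subst he
  have hD : Lead (12 * T.M) (dn (T.dw i0) i0 Y)
      (T.D i0 y0 - (∑ k, if k = i0 then 0 else T.D k y0 ^ 2) / 4) :=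
    ((lead_yi hc hY hy).cast (by ring) rfl rfl).sub ((lead_sq hc hY hy).cast (by ring) rfl rfl)
  exact low (ω := 8 * T.M) (vl_yk hc hY hy) (by omega) (by omega) hδ hD hl hit (by omega)

theorem T3 (he : e < 4 * T.M) (hδ : (∑ k, if k = i0 then 0 else T.D k y0 ^ 2) ≠ 0) : False := by
  have hM := T.M_pos
  have hD : Lead (2 * e + 4 * T.M) (dn (T.dw i0) i0 Y)
      (0 - (∑ k, if k = i0 then 0 else T.D k y0 ^ 2) / 4) :=
    ((lead_yi hc hY hy).mono (by omega)).sub (lead_sq hc hY hy)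
  have h4 : (4 : L) ≠ 0 := by norm_num
  refine low (ω := e + 4 * T.M) (vl_yk hc hY hy) (by omega) (by omega) ?_ hD hl hit (by omega)
  rw [zero_sub]
  exact neg_ne_zero.2 (div_ne_zero hδ h4)

theorem T4 (he : e = -(4 * T.M)) (hδ : T.D i0 y0 ≠ 0)
    (ha : ∀ k, VL (2 * T.M + 1) (yk (T.dw i0) i0 Y k)) : False := by
  have hM := T.M_pos
  subst he
  have h4 : Lead 0 (4 : FK L) (4 : L) :=
    (lead_natCast (L := L) 4).cast rfl (by norm_num) (by norm_num)
  have h5 : VL (4 * T.M + 2) (∑ i, yk (T.dw i0) i0 Y i ^ 2) := by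
    refine VL.sum _ fun k _ => ?_
    rw [pow_two]
    exact ((ha k).mul (ha k)).mono (by omega)
  have hD : Lead (4 * T.M) (dn (T.dw i0) i0 Y) (T.D i0 y0 - 0) :=
    ((lead_yi hc hY hy).cast (by ring) rfl rfl).sub
      ((h5.div h4 (by norm_num)).lead0 (by omega))
  rw [sub_zero] at hD
  exact low (ω := 4 * T.M + 1) ha (by omega) (by omega) hδ hD hl hit (by omega)

include hitY

theorem T1 [IsAlgClosed L] (he : 4 * T.M < e) {k : Fin n} (hk : k ≠ i0)
    (hP : T.D i0 (T.D i0 y0) ≠ 0) : False := by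
  have hM := T.M_pos
  have hδ : T.D i0 y0 ≠ 0 := by
    intro h
    rw [h, map_zero] at hP
    exact hP rfl
  have hD : Lead (e + 8 * T.M) (dn (T.dw i0) i0 Y) (T.D i0 y0 - 0) :=
    (lead_yi hc hY hy).sub ((lead_sq hc hY hy).vl.lead0 (by omega))
  rw [sub_zero] at hD
  rcases le_or_gt e (8 * T.M) with h1 | h1
  · exact crit (ω := 8 * T.M) (vl_yk hc hY hy) le_rfl (by omega) hδ hD hl hit (by omega)
      (by omega) hk
  · exact hP (sup hc hY hy (vl_yk hc hY hy) (by omega) hδ hD (by omega) hit hitY)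

end

end Inf

end Run7.h978
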