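import Mathlib
import Pool.Agent.Run7.h978.Nfr4

set_option autoImplicit false
set_option linter.unusedSectionVars false

/-!
The equations at a generic point of a hypersurface in an isotropic frame.
-/

open MvPolynomial

namespace Run7.h978

theorem eq_zero_of_jac {ι K : Type*} [Field K] [Algebra ℝ K] {N : ℕ} {x : Fin N → K}
    {E : ι → Derivation ℝ K K}
    (hJ : ∀ p : Fin N → K, (∀ i, ∑ k, p k * E i (x k) = 0) → ∀ k, p k = 0)
    (r : MvPolynomial (Fin N) ℝ) (hr : aeval x r = 0) : r = 0 := by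
  have key : ∀ d : ℕ, ∀ r : MvPolynomial (Fin N) ℝ, DL (fun _ => 1) r ((d : ℤ) - 1) →
      aeval x r = 0 → r = 0 := by
    intro d
    induction d with
    | zero =>
      intro r hr _
      by_contra h0
      exact Top.ne_zero_th h0 (hr.top.eq_zero (by simp))
    | succ d ih =>
      intro r hr hx
      have h1 : ∀ a, pderiv a r = 0 := by
        intro a
        apply ih
        · have h2 := hr.pderiv a
          refine h2.mono ?_
          push_cast
          omega
        · refine hJ (fun a => aeval x (pderiv a r)) (fun i => ?_) a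
          have h2 := congrArg (E i) hx
          rw [chain, map_zero] at h2
          exact h2
      have h2 := eq_C_of_pderiv h1
      rw [h2, aeval_C] at hx
      have h3 : ev r 0 = 0 := by
        have := (map_eq_zero_iff _ (algebraMap ℝ K).injective).1 hx
        exact this
      rw [h2, h3, C_0]
  refine key ((Th (fun _ => 1) r).natDegree + 1) r ?_ hr
  intro k hk
  have hk0 : 0 ≤ k := by
    push_cast at hk
    omega
  obtain ⟨k, rfl⟩ := Int.eq_ofNat_of_zero_le hk0
  rw [gc_nat]
  apply Polynomial.coeff_eq_zero_of_natDegree_lt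
  push_cast at hk
  omega

section

variable {K : Type*} [Field K] [Algebra ℝ K] {n : ℕ} {i0 : Fin n} {f : Fr K n i0}
  {d : Fin n → Derivation ℝ K K} {Y : K}

theorem compF (a b : Fin (n + 1)) : (if a = b then (1 : K) else 0) =
    ∑ i, xv f d Y i a * xv f d Y i b + 2 * (vv' f d Y a * f.u b + f.u a * vv' f d Y b) -
      4 * dn d i0 Y * (f.u a * f.u b) := by
  have h2 := two_ne_f f
  have h4 := four_eq K
  rw [← f.comp a b]
  have e1 : ∑ i, xv f d Y i a * xv f d Y i b = (∑ i, if i = i0 then 0 else f.E i a * f.E i b) +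
      (∑ i, yk d i0 Y i * f.E i b) * f.u a + (∑ i, yk d i0 Y i * f.E i a) * f.u b +
      (∑ i, yk d i0 Y i ^ 2) * (f.u a * f.u b) := by
    rw [Finset.sum_mul, Finset.sum_mul, Finset.sum_mul, ← Finset.sum_add_distrib,
      ← Finset.sum_add_distrib, ← Finset.sum_add_distrib]
    refine Finset.sum_congr rfl fun i _ => ?_
    rw [xv, xv, yk]
    split
    · ring
    · ring
  have e2 : ∀ c, vv' f d Y c = f.E i0 c + (d i0 Y - (∑ i, yk d i0 Y i ^ 2) / 2) * f.u c -
      (∑ i, yk d i0 Y i * f.E i c) / 2 := by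
    intro c
    have h9 : ∑ i, yk d i0 Y i / 2 * f.E i c = (∑ i, yk d i0 Y i * f.E i c) / 2 := by
      rw [Finset.sum_div]
      refine Finset.sum_congr rfl fun i _ => ?_
      ring
    rw [vv', h9]
  have e3 : d i0 Y = dn d i0 Y + (∑ i, yk d i0 Y i ^ 2) / 4 := by
    rw [dn]
    ring
  rw [e1, e2 a, e2 b, e3]
  generalize dn d i0 Y = t
  generalize ∑ i, yk d i0 Y i ^ 2 = S
  generalize ∑ i, yk d i0 Y i * f.E i a = A
  generalize ∑ i, yk d i0 Y i * f.E i b = B
  generalize (∑ i, if i = i0 then 0 else f.E i a * f.E i b) = C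
  rw [h4]
  field_simp
  ring

theorem perp_normal {p : Fin (n + 1) → K} (hx : ∀ i, ∑ a, p a * xv f d Y i a = 0)
    (hv : ∑ a, p a * vv' f d Y a = 0) (a : Fin (n + 1)) :
    p a = (∑ b, p b * f.u b) * (2 * vv' f d Y a - 4 * dn d i0 Y * f.u a) := by
  have e2 : p a = ∑ b, (if a = b then (1 : K) else 0) * p b := by
    simp
  rw [e2]
  simp only [compF (f := f) (d := d) (Y := Y) a]
  have e7 : ∀ b, (∑ i, xv f d Y i a * xv f d Y i b +
      2 * (vv' f d Y a * f.u b + f.u a * vv' f d Y b) -
      4 * dn d i0 Y * (f.u a * f.u b)) * p b =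
      ∑ i, xv f d Y i a * (p b * xv f d Y i b) + (2 * vv' f d Y a - 4 * dn d i0 Y * f.u a) *
        (p b * f.u b) + 2 * f.u a * (p b * vv' f d Y b) := by
    intro b
    have e8 : ∑ i, xv f d Y i a * (p b * xv f d Y i b) =
        (∑ i, xv f d Y i a * xv f d Y i b) * p b := by
      rw [Finset.sum_mul]
      refine Finset.sum_congr rfl fun i _ => ?_
      ring
    rw [e8]
    ring
  simp only [e7]
  rw [Finset.sum_add_distrib, Finset.sum_add_distrib, ← Finset.mul_sum, ← Finset.mul_sum, hv,
    Finset.sum_comm]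
  have e8 : ∀ i, ∑ b, xv f d Y i a * (p b * xv f d Y i b) = 0 := by
    intro i
    rw [← Finset.mul_sum, hx, mul_zero]
  simp only [e8, Finset.sum_const_zero]
  ring

variable (hu : ∀ i a, d i (f.u a) = 0) (hE : ∀ i k a, d i (f.E k a) = 0)
    {ξ : Fin n → K} (hξ : ∀ i k, d i (ξ k) = if i = k then 1 else 0)

include hu hE hξ

theorem d_pt (i : Fin n) (a : Fin (n + 1)) :
    d i (pt f Y ξ a) = d i Y * f.u a + f.E i a := by
  rw [pt, map_add, map_sum, Derivation.leibniz, hu, smul_zero, zero_add, smul_eq_mul,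
    mul_comm]
  congr 1
  simp only [Derivation.leibniz, hE, hξ, smul_eq_mul]
  rw [Finset.sum_eq_single i]
  · rw [if_pos rfl]
    ring
  · intro k _ hk
    rw [if_neg (Ne.symm hk)]
    ring
  · intro h
    exact absurd (Finset.mem_univ i) h

theorem exists_ind : ∃ j : Fin (n + 1), ∀ r : MvPolynomial (Fin n) ℝ,
    aeval (fun i => pt f Y ξ (j.succAbove i)) r = 0 → r = 0 := by
  have h2 := two_ne_f f
  obtain ⟨j, hj⟩ : ∃ j, 2 * vv' f d Y j - 4 * dn d i0 Y * f.u j ≠ 0 := by
    by_contra h
    push Not at h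
    have h1 : ∑ a, f.u a * (2 * vv' f d Y a - 4 * dn d i0 Y * f.u a) = 1 := by
      have h3 : ∀ a, f.u a * (2 * vv' f d Y a - 4 * dn d i0 Y * f.u a) =
          2 * (f.u a * vv' f d Y a) - 4 * dn d i0 Y * (f.u a * f.u a) := fun a => by ring
      simp only [h3]
      rw [Finset.sum_sub_distrib, ← Finset.mul_sum, ← Finset.mul_sum, f.uu, u_vv]
      ring
    simp only [h, mul_zero, Finset.sum_const_zero] at h1
    exact zero_ne_one h1
  refine ⟨j, fun r hr => eq_zero_of_jac (E := d) (fun p hp k => ?_) r hr⟩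
  set p' : Fin (n + 1) → K := Fin.insertNth (α := fun _ => K) j 0 p with hp'
  have hpj : p' j = 0 := Fin.insertNth_apply_same (α := fun _ => K) j 0 p
  have hpi : ∀ i, p' (j.succAbove i) = p i := fun i =>
    Fin.insertNth_apply_succAbove (α := fun _ => K) j 0 p i
  have h1 : ∀ i, ∑ a, p' a * d i (pt f Y ξ a) = 0 := by
    intro i
    rw [Fin.sum_univ_succAbove _ j, hpj, zero_mul, zero_add, ← hp i]
    refine Finset.sum_congr rfl fun k _ => ?_
    rw [hpi]
  have h3 : ∀ i, ∑ a, p' a * xv f d Y i a = 0 := by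
    intro i
    by_cases hi : i = i0
    · simp [xv, hi]
    · rw [← h1 i]
      refine Finset.sum_congr rfl fun a _ => ?_
      rw [d_pt hu hE hξ, xv, if_neg hi]
      ring
  have h4 : ∑ a, p' a * vv' f d Y a = 0 := by
    have h5 : ∀ a, vv' f d Y a = d i0 (pt f Y ξ a) - ∑ i, yk d i0 Y i / 2 * xv f d Y i a := by
      intro a
      rw [d_pt hu hE hξ]
      have h9 : ∑ i, yk d i0 Y i / 2 * xv f d Y i a =
          (∑ i, yk d i0 Y i ^ 2) / 2 * f.u a + ∑ k, yk d i0 Y k / 2 * f.E k a := by
        rw [Finset.sum_div, Finset.sum_mul, ← Finset.sum_add_distrib]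
        refine Finset.sum_congr rfl fun k _ => ?_
        rw [yk, xv]
        split
        · ring
        · ring
      rw [h9, vv']
      ring
    have h6 : ∀ a, p' a * vv' f d Y a = p' a * d i0 (pt f Y ξ a) -
        ∑ i, yk d i0 Y i / 2 * (p' a * xv f d Y i a) := by
      intro a
      rw [h5, mul_sub, Finset.mul_sum]
      congr 1
      refine Finset.sum_congr rfl fun i _ => ?_
      ring
    simp only [h6]
    rw [Finset.sum_sub_distrib, h1, Finset.sum_comm]
    have h7 : ∀ i, ∑ a, yk d i0 Y i / 2 * (p' a * xv f d Y i a) = 0 := by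
      intro i
      rw [← Finset.mul_sum, h3, mul_zero]
    simp only [h7, Finset.sum_const_zero, sub_zero]
  have h5 := perp_normal h3 h4
  have h6 := h5 j
  rw [hpj] at h6
  have h7 := (mul_eq_zero.1 h6.symm).resolve_right hj
  have h8 := h5 (j.succAbove k)
  rw [h7, zero_mul, hpi] at h8
  exact h8

end

theorem frame_hit {K : Type} [Field K] [Algebra ℝ K] {n : ℕ} {i0 : Fin n} {f : Fr K n i0}
    {d : Fin n → Derivation ℝ K K} {Y : K} (hu : ∀ i a, d i (f.u a) = 0)
    (hE : ∀ i k a, d i (f.E k a) = 0) {ξ : Fin n → K}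
    (hξ : ∀ i k, d i (ξ k) = if i = k then 1 else 0) {F : MvPolynomial (Fin (n + 1)) ℝ}
    (hF : Irreducible F) (hWF : ¬F ∣ WW F) (hFx : aeval (pt f Y ξ) F = 0) {l : List ℝ}
    (hd : ∀ a, F ∣ iter F l 0 (X a)) :
    dn d i0 Y ≠ 0 ∧ (∀ i, itL (lapM d i0 Y) l (ξ i) = 0) ∧ itL (lapM d i0 Y) l Y = 0 := by
  have h2 := two_ne_f f
  obtain ⟨j, hind⟩ := exists_ind (Y := Y) hu hE hξ
  have hFj : pderiv j F ≠ 0 := by
    intro h
    have h1 : Polynomial.derivative (sg j F) = 0 := by
      rw [derivative_sg, h, map_zero]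
    have h3 := Polynomial.derivative_eq_zero.1 h1
    have h4 := Polynomial.eq_C_of_natDegree_eq_zero h3
    have h5 := aeval_sg j (pt f Y ξ) F
    rw [hFx, h4, Polynomial.eval₂_C] at h5
    have h6 : (sg j F).coeff 0 = 0 := hind _ h5
    rw [h6, Polynomial.C_0] at h4
    exact hF.ne_zero ((sg (R := ℝ) j).injective (by rw [h4, map_zero]))
  have hW : aeval (pt f Y ξ) (WW F) ≠ 0 := by
    intro h0
    obtain ⟨r, hr0, hr⟩ := exists_elim j hF hFj hWF
    exact hr0 (hind r (hr K _ hFx h0))
  obtain ⟨hD, hT⟩ := tang_td hu hE hξ hFx hW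
  have hlap : lapK (td f d Y) = lapM d i0 Y := by
    funext h
    rw [lapK_td hu hE hD, lapM]
  have hx : ∀ a, itL (lapM d i0 Y) l (pt f Y ξ a) = 0 := by
    intro a
    have h1 := hT.iter_eq l 0 (X a)
    obtain ⟨G, hG⟩ := hd a
    rw [hG, map_mul, hFx, zero_mul, zero_div, pow_zero, div_one, aeval_X, itK_eq_itL, hlap] at h1
    exact h1.symm
  have key : ∀ w : Fin (n + 1) → K, (∀ i a, d i (w a) = 0) →
      itL (lapM d i0 Y) l (∑ a, w a * pt f Y ξ a) = 0 := by
    intro w hw
    rw [itM_sum]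
    refine Finset.sum_eq_zero fun a _ => ?_
    rw [itM_cmul (fun i => hw i a), hx, mul_zero]
  have hpt : ∀ w : Fin (n + 1) → K, ∑ a, w a * pt f Y ξ a =
      Y * ∑ a, f.u a * w a + ∑ i, ξ i * ∑ a, f.E i a * w a := by
    intro w
    have h1 : ∀ a, w a * pt f Y ξ a = Y * (f.u a * w a) + ∑ i, ξ i * (f.E i a * w a) := by
      intro a
      rw [pt, mul_add, Finset.mul_sum]
      congr 1
      · ring
      · refine Finset.sum_congr rfl fun i _ => ?_
        ring
    simp only [h1]
    rw [Finset.sum_add_distrib, ← Finset.mul_sum, Finset.sum_comm]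
    simp only [Finset.mul_sum]
  have hEu : ∀ i, ∑ a, f.E i a * f.u a = if i = i0 then 1 / 2 else 0 := by
    intro i
    have h1 : ∑ a, f.E i a * f.u a = ∑ a, f.u a * f.E i a :=
      Finset.sum_congr rfl fun a _ => mul_comm _ _
    rw [h1]
    split
    · rename_i hi
      rw [hi, eq_div_iff h2, mul_comm]
      exact f.uE0
    · rename_i hi
      exact f.uE i hi
  have hEE0 : ∀ i, ∑ a, f.E i a * f.E i0 a = 0 := by
    intro i
    by_cases hi : i = i0
    · rw [hi]
      exact f.E00
    · rw [← f.E0E i hi]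
      exact Finset.sum_congr rfl fun a _ => mul_comm _ _
  have h20 : ∀ i, d i (2 : K) = 0 := by
    intro i
    have : (2 : K) = ((2 : ℕ) : K) := by norm_num
    rw [this, Derivation.map_natCast]
  refine ⟨hD, ?_, ?_⟩
  · intro i
    by_cases hi : i = i0
    · subst hi
      have h1 := key f.u hu
      rw [hpt, f.uu] at h1
      simp only [hEu] at h1
      rw [mul_zero, zero_add, Finset.sum_eq_single i (fun k _ hk => by rw [if_neg hk, mul_zero])
        (fun h => absurd (Finset.mem_univ i) h), if_pos rfl] at h1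
      have h3 := congrArg (fun t => 2 * t) h1
      simp only [mul_zero] at h3
      rw [← itM_cmul h20] at h3
      rw [← h3]
      congr 1
      field_simp
    · have h1 := key (f.E i) (fun k a => hE k i a)
      rw [hpt, f.uE i hi, mul_zero, zero_add, Finset.sum_eq_single i] at h1
      · rw [f.EE i i hi hi, if_pos rfl, mul_one] at h1
        exact h1
      · intro k _ hk
        by_cases hk0 : k = i0
        · rw [hk0, f.E0E i hi, mul_zero]
        · rw [f.EE k i hk0 hi, if_neg hk, mul_zero]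
      · intro h
        exact absurd (Finset.mem_univ i) h
  · have h1 := key (f.E i0) (fun k a => hE k i0 a)
    rw [hpt] at h1
    simp only [hEE0, mul_zero, Finset.sum_const_zero, add_zero] at h1
    have h3 := congrArg (fun t => 2 * t) h1
    simp only [mul_zero] at h3
    rw [← itM_cmul h20] at h3
    rw [← h3]
    congr 1
    have h4 : ∑ a, f.u a * f.E i0 a = 1 / 2 := by
      rw [eq_div_iff h2, mul_comm]
      exact f.uE0
    rw [h4]
    field_simp

end Run7.h978
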