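import Mathlib
import Pool.Agent.Run7.h978.Iso2

set_option autoImplicit false

/-!
The orders of the coefficients of a polynomial in terms of the orders of its roots.
-/

open PowerSeries

namespace Run7.h978

section

variable {L : Type*} [Field L]

theorem pow_dvd_of_ex {M : ℕ} (hM : M ≠ 0) {e : ℕ} {f : L⟦X⟧}
    (h : (X : L⟦X⟧) ^ (e * M) ∣ ex M hM f) : (X : L⟦X⟧) ^ e ∣ f := by
  rw [X_pow_dvd_iff] at h ⊢
  intro m hm
  have h1 := h (m * M) (Nat.mul_lt_mul_of_pos_right hm (Nat.pos_of_ne_zero hM))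
  rwa [ex_apply, mul_comm, coeff_expand_mul] at h1

theorem coeff_dvd [CharZero L] [IsAlgClosed L] : ∀ (N e : ℕ) (G : Polynomial L⟦X⟧), G.Monic →
    G.natDegree = N →
    (∀ (M : ℕ) (hM : M ≠ 0) (ζ : L⟦X⟧), (G.map (ex M hM)).eval ζ = 0 →
      (X : L⟦X⟧) ^ (e * M) ∣ ζ) →
    ∀ k ≤ N, (X : L⟦X⟧) ^ (e * (N - k)) ∣ G.coeff k := by
  intro N
  induction N with
  | zero =>
    intro e G _ _ _ k hk
    rw [Nat.zero_sub, mul_zero, pow_zero]
    exact one_dvd _
  | succ N ih =>
    intro e G hG hGN hroot k hk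
    obtain ⟨M, hM, ζ, hζ⟩ := puiseux (L := L) (O := fun k => k ≠ 0)
      (fun h => h rfl) (fun p hp hpd => by
        obtain ⟨a, ha⟩ := IsAlgClosed.exists_root p (by
          intro h
          exact hpd (Polynomial.natDegree_eq_of_degree_eq_some h))
        exact ⟨a, ((Polynomial.rootMultiplicity_pos hp.ne_zero).2 ha).ne'⟩) (N + 1)
      (Nat.succ_ne_zero N) G hG hGN
    have hζX := hroot M hM ζ hζ
    set G1 := G.map (ex M hM) with hG1
    have hG1m : G1.Monic := hG.map _
    have hG1N : G1.natDegree = N + 1 := by rw [hG1, hG.natDegree_map, hGN]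
    obtain ⟨H, hH⟩ := Polynomial.dvd_iff_isRoot.2 (show G1.IsRoot ζ from hζ)
    have hHm : H.Monic := by
      refine Polynomial.Monic.of_mul_monic_left (Polynomial.monic_X_sub_C ζ) ?_
      rw [← hH]
      exact hG1m
    have hHN : H.natDegree = N := by
      have h1 := hG1N
      rw [hH, (Polynomial.monic_X_sub_C ζ).natDegree_mul hHm, Polynomial.natDegree_X_sub_C] at h1
      omega
    have hHroot : ∀ (M' : ℕ) (hM' : M' ≠ 0) (ξ : L⟦X⟧), (H.map (ex M' hM')).eval ξ = 0 →
        (X : L⟦X⟧) ^ (e * M * M') ∣ ξ := by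
      intro M' hM' ξ hξ
      have h1 : (G.map (ex (M' * M) (mul_ne_zero hM' hM))).eval ξ = 0 := by
        rw [ex_mul M' M hM' hM, ← Polynomial.map_map, ← hG1, hH, Polynomial.map_mul,
          Polynomial.eval_mul, hξ, mul_zero]
      have h2 := hroot _ _ ξ h1
      rw [show e * M * M' = e * (M' * M) by ring]
      exact h2
    have hc : ∀ k ≤ N, (X : L⟦X⟧) ^ (e * M * (N - k)) ∣ H.coeff k :=
      ih (e * M) H hHm hHN hHroot
    apply pow_dvd_of_ex hM
    have h1 : ex M hM (G.coeff k) = G1.coeff k := by rw [hG1, Polynomial.coeff_map]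
    rw [h1, hH, sub_mul, Polynomial.coeff_sub, Polynomial.coeff_C_mul]
    apply dvd_sub
    · rcases k with _ | k
      · rw [Polynomial.coeff_X_mul_zero]
        exact dvd_zero _
      · rw [Polynomial.coeff_X_mul]
        have h2 := hc k (by omega)
        rw [show e * (N + 1 - (k + 1)) * M = e * M * (N - k) by
          rw [Nat.add_sub_add_right]
          ring]
        exact h2
    · rcases hk.lt_or_eq with h | h
      · have h2 := mul_dvd_mul hζX (hc k (by omega))
        rw [← pow_add] at h2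
        refine dvd_trans (pow_dvd_pow _ ?_) h2
        have h3 : N + 1 - k = N - k + 1 := by omega
        rw [h3]
        exact le_of_eq (by ring)
      · rw [h, Nat.sub_self, mul_zero, zero_mul, pow_zero]
        exact one_dvd _

end

end Run7.h978
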