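import Mathlib

set_option autoImplicit false

/-!
The product of a polynomial and of its image under the reflection.
-/

open Polynomial

namespace Run7.h978

section

variable {R : Type*} [CommRing R]

/-- the product `p(Y) p(-Y)` -/
noncomputable def pp (p : R[X]) : R[X] := p * p.comp (C (-1) * X)

/-- the polynomial `P` with `P(Y^2) = p(Y) p(-Y)` -/
noncomputable def Ev (p : R[X]) : R[X] := contract 2 (pp p)

/-- the polynomial `G` with `G(Y^2 + a) = p(Y) p(-Y)` -/
noncomputable def gm (p : R[X]) (a : R) : R[X] := taylor (-a) (Ev p)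

theorem coeff_Ev (p : R[X]) (k : ℕ) : (Ev p).coeff k = (pp p).coeff (k * 2) := by
  rw [Ev, coeff_contract two_ne_zero]

theorem pp_comp (p : R[X]) : (pp p).comp (C (-1) * X) = pp p := by
  rw [pp, mul_comp, comp_assoc, mul_comp, C_comp, X_comp, ← mul_assoc, ← C_mul]
  simp only [mul_neg, mul_one, neg_neg, C_1, one_mul, comp_X]
  ring

theorem pp_odd [IsDomain R] [CharZero R] (p : R[X]) {k : ℕ} (hk : ¬2 ∣ k) : (pp p).coeff k = 0 := by
  have h1 := congrArg (fun q => Polynomial.coeff q k) (pp_comp p)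
  simp only [comp_C_mul_X_coeff] at h1
  have h2 : (-1 : R) ^ k = -1 := by
    apply Odd.neg_one_pow
    rw [← Nat.not_even_iff_odd]
    intro h
    exact hk h.two_dvd
  rw [h2] at h1
  have h3 : (2 : R) * (pp p).coeff k = 0 := by linear_combination -h1
  exact (mul_eq_zero.1 h3).resolve_left two_ne_zero

theorem expand_Ev [IsDomain R] [CharZero R] (p : R[X]) : expand R 2 (Ev p) = pp p := by
  ext k
  rw [coeff_expand two_pos]
  split
  · rename_i h
    rw [coeff_Ev, Nat.div_mul_cancel h]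
  · rename_i h
    rw [pp_odd p h]

theorem eval_Ev [IsDomain R] [CharZero R] (p : R[X]) (y : R) :
    (Ev p).eval (y ^ 2) = p.eval y * p.eval (-y) := by
  rw [← expand_eval, expand_Ev, pp, eval_mul, eval_comp]
  simp

theorem eval_gm [IsDomain R] [CharZero R] (p : R[X]) (a y : R) :
    (gm p a).eval (y ^ 2 + a) = p.eval y * p.eval (-y) := by
  rw [gm, taylor_eval, add_neg_cancel_right, eval_Ev]

theorem pp_map {S : Type*} [CommRing S] (φ : R →+* S) (p : R[X]) : pp (p.map φ) = (pp p).map φ := by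
  rw [pp, pp, Polynomial.map_mul, Polynomial.map_comp, Polynomial.map_mul, map_C, map_X]
  simp

theorem gm_map {S : Type*} [CommRing S] (φ : R →+* S) (p : R[X]) (a : R) :
    gm (p.map φ) (φ a) = (gm p a).map φ := by
  rw [gm, gm, Ev, Ev, pp_map, map_taylor, map_contract two_ne_zero, map_neg]

theorem natDegree_comp_neg_le {p : R[X]} {m : ℕ} (hp : p.natDegree ≤ m) :
    (p.comp (C (-1) * X)).natDegree ≤ m := by
  rw [natDegree_le_iff_coeff_eq_zero]
  intro k hk
  rw [comp_C_mul_X_coeff, coeff_eq_zero_of_natDegree_lt (lt_of_le_of_lt hp hk), zero_mul]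

theorem coeff_pp_top {p : R[X]} {m : ℕ} (hp : p.natDegree ≤ m) :
    (pp p).coeff (m + m) = (-1) ^ m * p.coeff m ^ 2 := by
  rw [pp, coeff_mul_add_eq_of_natDegree_le hp (natDegree_comp_neg_le hp), comp_C_mul_X_coeff]
  ring

theorem natDegree_pp_le {p : R[X]} {m : ℕ} (hp : p.natDegree ≤ m) :
    (pp p).natDegree ≤ m + m := by
  refine natDegree_mul_le.trans ?_
  exact Nat.add_le_add hp (natDegree_comp_neg_le hp)

theorem gm_monic [Nontrivial R] {p : R[X]} {m : ℕ} (hm : Even m) (hp : p.Monic)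
    (hpm : p.natDegree = m) :
    (gm p 0).natDegree = m ∧ ∀ a, (gm p a).Monic ∧ (gm p a).natDegree = m := by
  have h1 : (Ev p).natDegree ≤ m := by
    rw [natDegree_le_iff_coeff_eq_zero]
    intro k hk
    rw [coeff_Ev]
    apply coeff_eq_zero_of_natDegree_lt
    have := natDegree_pp_le hpm.le
    omega
  have h2 : (Ev p).coeff m = 1 := by
    rw [coeff_Ev, mul_two, coeff_pp_top hpm.le, hm.neg_one_pow]
    have h3 : p.coeff m = 1 := by
      rw [← hpm]
      exact hp
    rw [h3]
    ring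
  have h3 : (Ev p).Monic := monic_of_natDegree_le_of_coeff_eq_one m h1 h2
  have h4 : (Ev p).natDegree = m := by
    apply le_antisymm h1
    apply le_natDegree_of_ne_zero
    rw [h2]
    exact one_ne_zero
  refine ⟨by rw [gm, natDegree_taylor, h4], fun a => ⟨?_, by rw [gm, natDegree_taylor, h4]⟩⟩
  rw [Monic, gm, leadingCoeff_taylor]
  exact h3

end

/-- scaling -/
theorem coeff_gm_scale {K : Type*} [Field K] {c t : K} (ht : t ≠ 0) (p : K[X]) (a : K) (k : ℕ) :
    (gm (C c * p.comp (C t⁻¹ * X)) (t ^ 2 * a)).coeff k = c ^ 2 * (t⁻¹ ^ 2) ^ k * (gm p a).coeff k := by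
  have h1 : Ev (C c * p.comp (C t⁻¹ * X)) = C (c ^ 2) * (Ev p).comp (C (t⁻¹ ^ 2) * X) := by
    have h2 : pp (C c * p.comp (C t⁻¹ * X)) = C (c ^ 2) * (pp p).comp (C t⁻¹ * X) := by
      have h3 : (C t⁻¹ * X : K[X]).comp (C (-1) * X) = (C (-1) * X : K[X]).comp (C t⁻¹ * X) := by
        rw [mul_comp, mul_comp, C_comp, X_comp, C_comp, X_comp]
        ring
      have h5 : (p.comp (C t⁻¹ * X)).comp (C (-1) * X) =
          (p.comp (C (-1) * X)).comp (C t⁻¹ * X) := by
        rw [comp_assoc, h3, ← comp_assoc]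
      rw [pp, pp, mul_comp, mul_comp, C_comp, h5, C_pow]
      ring
    ext i
    rw [coeff_Ev, h2, coeff_C_mul, comp_C_mul_X_coeff, coeff_C_mul, comp_C_mul_X_coeff, coeff_Ev]
    ring
  have h4 : gm (C c * p.comp (C t⁻¹ * X)) (t ^ 2 * a) =
      C (c ^ 2) * (gm p a).comp (C (t⁻¹ ^ 2) * X) := by
    rw [gm, h1, gm, taylor_apply, taylor_apply, mul_comp, C_comp, comp_assoc, comp_assoc]
    congr 2
    simp only [mul_comp, C_comp, X_comp, add_comp]
    rw [mul_add, ← C_mul]
    congr 2
    field_simp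
  rw [h4, coeff_C_mul, comp_C_mul_X_coeff]
  ring

end Run7.h978
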