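import Mathlib
import Pool.Agent.Run7.h978.Iso1
import Pool.Agent.Run7.h978.Iso3
import Pool.Agent.Run7.h978.Iso6
import Pool.Agent.Run7.h978.Sph8

set_option autoImplicit false

/-!
Commuting derivations, square roots, degrees.
-/

open MvPolynomial

namespace Run7.h978

theorem der_eq_zero_of_etale {R A B : Type*} [CommRing R] [CommRing A] [CommRing B] [Algebra R A]
    [Algebra R B] [Algebra A B] [IsScalarTower R A B] [Algebra.FormallyEtale A B]
    (D : Derivation R B B) (h : ∀ a, D (algebraMap A B a) = 0) (x : B) : D x = 0 := by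
  have h1 : Algebra.FormallyUnramified A B := inferInstance
  have h2 : Subsingleton (Ω[B⁄A]) := Algebra.FormallyUnramified.subsingleton_kaehlerDifferential
  let f : B →ₗ[A] B :=
    { toFun := D
      map_add' := map_add D
      map_smul' := fun a y => by
        rw [RingHom.id_apply, Algebra.smul_def, Derivation.leibniz, h, smul_zero, add_zero,
          smul_eq_mul, Algebra.smul_def] }
  let D' : Derivation A B B := Derivation.mk' f fun y z => D.leibniz y z
  have h3 : D' x = 0 := by
    rw [← D'.liftKaehlerDifferential_comp_D, Subsingleton.elim (KaehlerDifferential.D A B x) 0,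
      map_zero]
  exact h3

/-- a field with generic elements and commuting derivations -/
theorem exists_genField_comm (n : ℕ) : ∃ (b : Fin n → LL' n)
    (D : Fin n → Derivation ℂ (LL' n) (LL' n)),
      (∀ i k, D i (b k) = if i = k then 1 else 0) ∧ ∀ i k x, D i (D k x) = D k (D i x) := by
  have := formallyEtale_LL' n
  set A := MvPolynomial (Fin n) ℂ
  have h1 : ∀ i : Fin n, ∃ D : Derivation ℂ (LL' n) (LL' n), ∀ a : A,
      D (algebraMap A (LL' n) a) = algebraMap A (LL' n) (MvPolynomial.pderiv i a) := by
    intro i
    obtain ⟨D, hD⟩ := exists_derivation (R := ℂ) (A := A) (B := LL' n)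
      ((Algebra.linearMap A (LL' n)).compDer (MvPolynomial.pderiv i))
    exact ⟨D, hD⟩
  choose D hD using h1
  refine ⟨fun i => algebraMap A (LL' n) (MvPolynomial.X i), D, fun i k => ?_, fun i k x => ?_⟩
  · rw [hD, MvPolynomial.pderiv_X, Pi.single_apply]
    by_cases h : i = k
    · rw [if_pos h, if_pos h.symm, map_one]
    · rw [if_neg h, if_neg (Ne.symm h), map_zero]
  · have h2 := der_eq_zero_of_etale (A := A) ⁅D i, D k⁆ (fun a => by
      rw [Derivation.commutator_apply, hD, hD, hD, hD, ← map_sub]
      have h3 : ⁅(pderiv i : Derivation ℂ A A), (pderiv k : Derivation ℂ A A)⁆ = 0 := by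
        apply MvPolynomial.derivation_ext
        intro l
        rw [Derivation.commutator_apply, pderiv_X, pderiv_X, Derivation.coe_zero, Pi.zero_apply]
        have h4 : ∀ (u v : Fin n), pderiv u (Pi.single (M := fun _ => A) v (1 : A) l) = 0 := by
          intro u v
          rw [Pi.single_apply]
          split
          · exact Derivation.map_one_eq_zero _
          · exact map_zero _
        rw [h4, h4, sub_zero]
      have h5 := congrArg (fun E : Derivation ℂ A A => E a) h3
      simp only [Derivation.commutator_apply, Derivation.coe_zero, Pi.zero_apply] at h5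
      rw [h5, map_zero]) x
    rw [Derivation.commutator_apply, sub_eq_zero] at h2
    exact h2

/-- square roots of power series -/
theorem exists_sqrt {L : Type*} [Field L] [CharZero L] {f : PowerSeries L} {y : L}
    (hy : y ^ 2 = PowerSeries.constantCoeff f) (hy0 : y ≠ 0) :
    ∃ g : PowerSeries L, g ^ 2 = f ∧ PowerSeries.constantCoeff g = y := by
  have h1 : HenselianRing (PowerSeries L) (IsLocalRing.maximalIdeal (PowerSeries L)) :=
    inferInstance
  have hmem : ∀ g : PowerSeries L, g ∈ IsLocalRing.maximalIdeal (PowerSeries L) ↔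
      PowerSeries.constantCoeff g = 0 := by
    intro g
    rw [PowerSeries.maximalIdeal_eq_span_X, Ideal.mem_span_singleton, PowerSeries.X_dvd_iff]
  obtain ⟨g, hg, hg2⟩ := h1.is_henselian (Polynomial.X ^ 2 - Polynomial.C f)
    (Polynomial.monic_X_pow_sub_C f two_ne_zero) (PowerSeries.C y) (by
      rw [hmem]
      simp [hy]) (by
      have h2 : IsUnit (Polynomial.eval (PowerSeries.C y)
          (Polynomial.derivative (Polynomial.X ^ 2 - Polynomial.C f))) := by
        rw [PowerSeries.isUnit_iff_constantCoeff]
        simp [hy0]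
      exact h2.map _)
  refine ⟨g, ?_, ?_⟩
  · have h2 : Polynomial.eval g (Polynomial.X ^ 2 - Polynomial.C f) = 0 := hg
    simpa [sub_eq_zero] using h2
  · rw [hmem, map_sub, PowerSeries.constantCoeff_C, sub_eq_zero] at hg2
    exact hg2

theorem natDegree_aeval_le {A : Type*} [CommRing A] [Algebra ℝ A] {N : ℕ}
    (z : Fin N → Polynomial A) (hz : ∀ a, (z a).natDegree ≤ 1) {k : ℕ}
    {q : MvPolynomial (Fin N) ℝ} (hq : q.totalDegree ≤ k) : (aeval z q).natDegree ≤ k := by
  have h0 : (map (algebraMap ℝ A) q).totalDegree ≤ q.totalDegree :=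
    Finset.sup_mono (support_map_subset _ _)
  have h1 := aeval_natDegree_le (m := k) (n := 1) (map (algebraMap ℝ A) q)
    (h0.trans hq) z hz
  rw [aeval_map_algebraMap, mul_one] at h1
  exact h1

end Run7.h978
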