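import Mathlib
import Pool.Agent.Run7.h978.Iso7
import Pool.Agent.Run7.h978.Sph6
import Pool.Agent.Run7.h978.Sph7
import Pool.Agent.Run7.h978.Sph9

set_option autoImplicit false

/-!
Polynomials whose leading form is a power of the square of the distance.
-/

open MvPolynomial

namespace Run7.h978

section

variable {n : ℕ} {L : Type} [Field L] [Algebra ℝ L] [CharZero L]

theorem const_of_vl (i0 : Fin n) {b : Fin n → L} {D : Fin n → Derivation ℝ L L}
    (hDb : ∀ i k, D i (b k) = if i = k then 1 else 0) {q : MvPolynomial (Fin n) ℝ}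
    (hq : VL 0 (aeval (fun i => io (PowerSeries.C (b i)) * (vs L)⁻¹) q)) :
    ∃ r : ℝ, q = C r := by
  classical
  rcases n with _ | n
  · exact i0.elim0
  by_contra hcon
  set m1 := weightedTotalDegree (1 : Fin (n + 1) → ℕ) q with hm1
  have hm0 : m1 ≠ 0 := by
    intro h
    apply hcon
    rw [hm1, weightedTotalDegree_one] at h
    exact ⟨_, totalDegree_eq_zero_iff_eq_C.1 h⟩
  have hq0 : q ≠ 0 := by
    rintro rfl
    exact hcon ⟨0, by rw [C_0]⟩
  have htop := (top_weighted (1 : Fin (n + 1) → ℕ) hq0).2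
  apply htop
  rw [← hm1]
  apply eq_zero_of_aeval (x := b) (E := D) (t := fun _ => 1) (fun _ => one_ne_zero)
    (fun i k => hDb i k)
  have h1 : Lead (-(m1 : ℤ)) (aeval (fun i => io (PowerSeries.C (b i)) * (vs L)⁻¹) q)
      (aeval b (weightedHomogeneousComponent (1 : Fin (n + 1) → ℕ) m1 q)) := by
    have h2 : (aeval (fun i => io (PowerSeries.C (b i)) * (vs L)⁻¹) q : FK L) =
        ∑ k ∈ Finset.range (m1 + 1), vs L ^ (-(k : ℤ)) * io (PowerSeries.C
          (aeval b (weightedHomogeneousComponent (1 : Fin (n + 1) → ℕ) k q))) := by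
      conv_lhs => rw [sum_components (1 : Fin (n + 1) → ℕ) q]
      rw [map_sum, ← hm1]
      refine Finset.sum_congr rfl fun k _ => ?_
      have h3 := aeval_scale (weightedHomogeneousComponent_isWeightedHomogeneous
        (w := (1 : Fin (n + 1) → ℕ)) k q) (fun i => (io (PowerSeries.C (b i)) : FK L)) (vs L)⁻¹
      simp only [Pi.one_apply, pow_one] at h3
      rw [h3, zpow_neg, zpow_natCast, inv_pow]
      congr 1
      exact (map_aeval' ((io : PS L →+* FK L).comp (PowerSeries.C : L →+* PS L)) (fun r => by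
        rw [RingHom.comp_apply, algebraMap_FK]) b _).symm
    rw [h2]
    have h4 : aeval b (weightedHomogeneousComponent (1 : Fin (n + 1) → ℕ) m1 q) =
        ∑ k ∈ Finset.range (m1 + 1), if k = m1 then
          aeval b (weightedHomogeneousComponent (1 : Fin (n + 1) → ℕ) k q) else 0 := by
      rw [Finset.sum_ite_eq', if_pos (Finset.mem_range.2 (Nat.lt_succ_self m1))]
    rw [h4]
    refine Lead.sum _ fun k hk => ?_
    rw [Finset.mem_range] at hk
    have h5 : Lead (-(k : ℤ)) (vs L ^ (-(k : ℤ)) * io (PowerSeries.C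
        (aeval b (weightedHomogeneousComponent (1 : Fin (n + 1) → ℕ) k q))))
        (aeval b (weightedHomogeneousComponent (1 : Fin (n + 1) → ℕ) k q)) :=
      ((lead_vs (-(k : ℤ))).mul (lead_C _)).cast (add_zero _) rfl (one_mul _)
    by_cases h : k = m1
    · rw [if_pos h, ← h]
      exact h5
    · rw [if_neg h]
      exact h5.mono (by omega)
  exact VL.eq_zero_lead (hq.mono (by omega)) h1

end

section

variable {n : ℕ} {L : Type} [Field L] [Algebra ℝ L] [CharZero L] [IsAlgClosed L]

theorem sum_sq_insert {S : Type*} [CommRing S] (j : Fin (n + 1)) (y : S) (z : Fin n → S) :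
    ∑ a, (Fin.insertNth (α := fun _ => S) j y z a) ^ 2 = y ^ 2 + ∑ i, z i ^ 2 := by
  rw [Fin.sum_univ_succAbove _ j, Fin.insertNth_apply_same]
  congr 1
  refine Finset.sum_congr rfl fun i _ => ?_
  rw [Fin.insertNth_apply_succAbove]

theorem radial (i0 : Fin n) {b : Fin n → L} {D : Fin n → Derivation ℝ L L}
    (hDb : ∀ i k, D i (b k) = if i = k then 1 else 0) (hDc : ∀ i k x, D i (D k x) = D k (D i x))
    {F : MvPolynomial (Fin (n + 1)) ℝ} (hF : Irreducible F) (hWF : ¬F ∣ WW F) {l : List ℝ}
    (hl : ∀ μ ∈ l, μ ≠ 0) (hd : ∀ a, F ∣ iter F l 0 (X a)) {m : ℕ}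
    (hD : weightedTotalDegree (1 : Fin (n + 1) → ℕ) F = 2 * m)
    (hlead : weightedHomogeneousComponent (1 : Fin (n + 1) → ℕ) (2 * m) F =
      (∑ a, X a ^ 2) ^ m) :
    ∃ g : Polynomial ℝ, g ≠ 0 ∧ F ∣ Polynomial.aeval (∑ a, X a ^ 2) g := by
  classical
  have hAc : CharZero (PS L) := charZero_of_injective_algebraMap (algebraMap L (PS L)).injective
  set j : Fin (n + 1) := 0 with hj
  set Fk : ℕ → MvPolynomial (Fin (n + 1)) ℝ := fun k =>
    weightedHomogeneousComponent (1 : Fin (n + 1) → ℕ) k F with hFk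
  have hFkw : ∀ k, IsWeightedHomogeneous (1 : Fin (n + 1) → ℕ) (Fk k) k := fun k =>
    weightedHomogeneousComponent_isWeightedHomogeneous k F
  have hFsum : F = ∑ k ∈ Finset.range (2 * m + 1), Fk k := by
    have h1 := sum_components (1 : Fin (n + 1) → ℕ) F
    rw [hD] at h1
    exact h1
  have hm0 : m ≠ 0 := by
    intro h
    have h1 := hFsum
    rw [h, mul_zero, zero_add, Finset.sum_range_one] at h1
    have h2 : Fk 0 = 1 := by
      have h3 := hlead
      rw [h, mul_zero, pow_zero] at h3
      exact h3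
    rw [h2] at h1
    exact hF.not_isUnit (h1 ▸ isUnit_one)
  have hFj : pderiv j F ≠ 0 := by
    intro h
    have h1 := pderiv_component (1 : Fin (n + 1) → ℕ) h (2 * m)
    rw [hlead, Derivation.leibniz_pow, map_sum] at h1
    have h2 : ∑ a, pderiv j (X a ^ 2 : MvPolynomial (Fin (n + 1)) ℝ) = 2 * X j := by
      rw [Finset.sum_eq_single j]
      · rw [Derivation.leibniz_pow, pderiv_X_self, smul_eq_mul, nsmul_eq_mul]
        push_cast
        ring
      · intro k _ hk
        rw [Derivation.leibniz_pow, pderiv_X_of_ne hk, smul_zero, smul_zero]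
      · intro h
        exact absurd (Finset.mem_univ j) h
    rw [h2, smul_eq_mul, nsmul_eq_mul] at h1
    have h3 : (∑ a, X a ^ 2 : MvPolynomial (Fin (n + 1)) ℝ) ≠ 0 := by
      intro h4
      have h6 := congrArg (pderiv j) h4
      rw [map_sum, map_zero] at h6
      exact mul_ne_zero two_ne_zero (X_ne_zero j) (h2.symm.trans h6)
    rcases mul_eq_zero.1 h1 with h4 | h4
    · exact hm0 (by exact_mod_cast h4)
    · exact mul_ne_zero (pow_ne_zero _ h3) (mul_ne_zero two_ne_zero (X_ne_zero j)) h4
  -- the polynomials over the power series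
  set β : L := ∑ i, b i ^ 2 with hβ
  set zY : Fin (n + 1) → Polynomial (PS L) :=
    Fin.insertNth (α := fun _ => Polynomial (PS L)) j Polynomial.X
      fun i => Polynomial.C (PowerSeries.C (b i)) with hzY
  have hzYj : zY j = Polynomial.X :=
    Fin.insertNth_apply_same (α := fun _ => Polynomial (PS L)) j _ _
  have hzYi : ∀ i, zY (j.succAbove i) = Polynomial.C (PowerSeries.C (b i)) := fun i =>
    Fin.insertNth_apply_succAbove (α := fun _ => Polynomial (PS L)) j _ _ i
  set pt : Polynomial (PS L) := ∑ k ∈ Finset.range (2 * m + 1),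
    Polynomial.C (PowerSeries.X ^ (2 * m - k)) * aeval zY (Fk k) with hpt
  have htop : aeval zY (Fk (2 * m)) =
      (Polynomial.X ^ 2 + Polynomial.C (PowerSeries.C β)) ^ m := by
    have h1 : Fk (2 * m) = (∑ a, X a ^ 2) ^ m := hlead
    rw [h1, map_pow, map_sum]
    simp only [map_pow, aeval_X]
    rw [hzY, sum_sq_insert, hβ, map_sum, map_sum]
    simp only [map_pow]
  have hzYd : ∀ a, (zY a).natDegree ≤ 1 := by
    intro a
    rcases eq_or_ne a j with ha | ha
    · rw [ha, hzYj]
      exact Polynomial.natDegree_X_le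
    · obtain ⟨i, rfl⟩ := Fin.exists_succAbove_eq ha
      rw [hzYi, Polynomial.natDegree_C]
      exact zero_le_one
  have hdk : ∀ k, (aeval zY (Fk k)).natDegree ≤ k := fun k =>
    natDegree_aeval_le zY hzYd (IsHomogeneous.totalDegree_le (hFkw k))
  have hmon0 : (Polynomial.X ^ 2 + Polynomial.C (PowerSeries.C β) : Polynomial (PS L)).Monic :=
    Polynomial.monic_X_pow_add_C _ two_ne_zero
  have htopc : (aeval zY (Fk (2 * m))).coeff (2 * m) = 1 := by
    rw [htop]
    have h1 : ((Polynomial.X ^ 2 + Polynomial.C (PowerSeries.C β) : Polynomial (PS L)) ^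
        m).natDegree = 2 * m := by
      rw [hmon0.natDegree_pow, Polynomial.natDegree_X_pow_add_C, mul_comm]
    have h2 := (hmon0.pow m)
    rw [Polynomial.Monic, Polynomial.leadingCoeff, h1] at h2
    exact h2
  have hptd : pt.natDegree ≤ 2 * m := by
    rw [hpt]
    apply Polynomial.natDegree_sum_le_of_forall_le
    intro k hk
    rw [Finset.mem_range] at hk
    exact (Polynomial.natDegree_C_mul_le _ _).trans ((hdk k).trans (by omega))
  have hptc : pt.coeff (2 * m) = 1 := by
    rw [hpt, Polynomial.finsetSum_coeff, Finset.sum_eq_single (2 * m)]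
    · rw [Nat.sub_self, pow_zero, map_one, one_mul, htopc]
    · intro k hk hk2
      rw [Finset.mem_range] at hk
      rw [Polynomial.coeff_C_mul, Polynomial.coeff_eq_zero_of_natDegree_lt
        (lt_of_le_of_lt (hdk k) (by omega)), mul_zero]
    · intro h
      exact absurd (Finset.mem_range.2 (Nat.lt_succ_self _)) h
  have hptM : pt.Monic := Polynomial.monic_of_natDegree_le_of_coeff_eq_one _ hptd hptc
  have hptN : pt.natDegree = 2 * m := le_antisymm hptd (Polynomial.le_natDegree_of_ne_zero (by
    rw [hptc]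
    exact one_ne_zero))
  set Gt : Polynomial (PS L) := gm pt (PowerSeries.C β) with hGt
  obtain ⟨hGtM, hGtN⟩ := (gm_monic (even_two_mul m) hptM hptN).2 (PowerSeries.C β)
  -- the estimate of the roots
  have hroot : ∀ (M : ℕ) (hM : M ≠ 0) (ζ : PS L), (Gt.map (ex M hM)).eval ζ = 0 →
      (PowerSeries.X : PS L) ^ (2 * M) ∣ ζ := by
    intro M hM ζ hζ
    set ptM := pt.map (ex M hM) with hptMdef
    have hG1 : Gt.map (ex M hM) = gm ptM (PowerSeries.C β) := by
      rw [hGt, ← gm_map, ex_C]
    rw [hG1] at hζ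
    set ζ0 := PowerSeries.constantCoeff ζ with hζ0
    have hredp : ∀ y, (red ptM).eval y = (y ^ 2 + β) ^ m := by
      intro y
      rw [hptMdef, red_map_ex, red, hpt, Polynomial.map_sum, Finset.sum_eq_single (2 * m)]
      · rw [Nat.sub_self, pow_zero, map_one, one_mul, htop]
        simp
      · intro k hk hk2
        rw [Finset.mem_range] at hk
        rw [Polynomial.map_mul, Polynomial.map_C, map_pow, PowerSeries.constantCoeff_X,
          zero_pow (by omega), Polynomial.C_0, zero_mul]
      · intro h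
        exact absurd (Finset.mem_range.2 (Nat.lt_succ_self _)) h
    have hζ1 : ζ0 = 0 := by
      obtain ⟨y, hy⟩ := IsAlgClosed.exists_pow_nat_eq (ζ0 - β) two_pos
      have h1 : (gm (red ptM) β).eval ζ0 = 0 := by
        have h2 : gm (red ptM) β =
            (gm ptM (PowerSeries.C β)).map (PowerSeries.constantCoeff (R := L)) := by
          rw [← gm_map, PowerSeries.constantCoeff_C]
          rfl
        rw [h2, hζ0, Polynomial.eval_map_apply, hζ, map_zero]
      have h3 : ζ0 = y ^ 2 + β := by
        rw [hy]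
        ring
      rw [h3, eval_gm, hredp, hredp, neg_sq, ← h3] at h1
      by_contra h4
      exact mul_ne_zero (pow_ne_zero m h4) (pow_ne_zero m h4) h1
    choose E hE using fun i => exists_frD (D i)
    obtain ⟨S, hS⟩ := exists_Es (L := L)
    have hE' : ∀ i (f : PS L), E i (io f) = io (psD (D i) f) := hE
    set T : Inf n L := ⟨b, D, hDb, hDc, M, hM, E, hE', S, hS⟩ with hT
    have hβ0 : β ≠ 0 := T.sum_b_sq_ne i0
    obtain ⟨y0, hy0⟩ := IsAlgClosed.exists_pow_nat_eq (-β) two_pos
    have hy00 : y0 ≠ 0 := by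
      rintro rfl
      apply hβ0
      rw [zero_pow two_ne_zero] at hy0
      linear_combination hy0
    obtain ⟨g, hg, _⟩ := exists_sqrt (f := ζ - PowerSeries.C β) (y := y0) (by
      rw [hy0, map_sub, PowerSeries.constantCoeff_C, ← hζ0, hζ1, zero_sub]) hy00
    have h5 : (gm ptM (PowerSeries.C β)).eval (g ^ 2 + PowerSeries.C β) = 0 := by
      rw [hg, sub_add_cancel]
      exact hζ
    rw [eval_gm] at h5
    obtain ⟨η, hη1, hη2⟩ : ∃ η, ptM.eval η = 0 ∧ η ^ 2 = ζ - PowerSeries.C β := by
      rcases mul_eq_zero.1 h5 with h | h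
      · exact ⟨g, h, hg⟩
      · exact ⟨-g, h, by rw [neg_sq, hg]⟩
    have hηF : aeval (Fin.insertNth (α := fun _ => FK L) j (io η * vs L ^ (-(T.M : ℤ))) T.xi) F =
        0 := by
      set zA : Fin (n + 1) → PS L := Fin.insertNth (α := fun _ => PS L) j η fun i =>
        PowerSeries.C (b i) with hzA
      have hzAj : zA j = η := Fin.insertNth_apply_same (α := fun _ => PS L) j η _
      have hzAi : ∀ i, zA (j.succAbove i) = PowerSeries.C (b i) := fun i =>
        Fin.insertNth_apply_succAbove (α := fun _ => PS L) j η _ i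
      have hx : (Fin.insertNth (α := fun _ => FK L) j (io η * vs L ^ (-(T.M : ℤ))) T.xi :
          Fin (n + 1) → FK L) = fun a => io (zA a) * vs L ^ (-(T.M : ℤ)) := by
        funext a
        rcases eq_or_ne a j with ha | ha
        · rw [ha, Fin.insertNth_apply_same, hzAj]
        · obtain ⟨i, rfl⟩ := Fin.exists_succAbove_eq ha
          rw [Fin.insertNth_apply_succAbove, hzAi]
          rfl
      have h1 : ∀ k, aeval (fun a => io (zA a) * vs L ^ (-(T.M : ℤ))) (Fk k) =
          (vs L ^ (-(T.M : ℤ))) ^ k * io (aeval zA (Fk k)) := by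
        intro k
        have h3 := aeval_scale (hFkw k) (fun a => (io (zA a) : FK L)) (vs L ^ (-(T.M : ℤ)))
        simp only [Pi.one_apply, pow_one] at h3
        rw [h3]
        congr 1
        exact (map_aeval' (io : PS L →+* FK L)
          (fun r => (IsScalarTower.algebraMap_apply ℝ (PS L) (FK L) r).symm) zA _).symm
      have h2 : ∑ k ∈ Finset.range (2 * m + 1),
          (PowerSeries.X : PS L) ^ (M * (2 * m - k)) * aeval zA (Fk k) = 0 := by
        rw [← hη1, hptMdef, hpt, Polynomial.map_sum, Polynomial.eval_finsetSum]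
        refine Finset.sum_congr rfl fun k _ => ?_
        rw [Polynomial.map_mul, Polynomial.map_C, Polynomial.eval_mul, Polynomial.eval_C, map_pow,
          ex_X, ← pow_mul]
        congr 1
        have h1 := map_aeval' ((Polynomial.evalRingHom η).comp (Polynomial.mapRingHom (ex M hM)))
          (k := ℝ) (R1 := Polynomial (PowerSeries L)) (R2 := PowerSeries L) (fun r => by
            rw [RingHom.comp_apply, Polynomial.coe_mapRingHom, Polynomial.coe_evalRingHom,
              Polynomial.algebraMap_apply, Polynomial.map_C, Polynomial.eval_C,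
              PowerSeries.algebraMap_apply, ex_C]) zY (Fk k)
        rw [RingHom.comp_apply, Polynomial.coe_mapRingHom, Polynomial.coe_evalRingHom] at h1
        rw [h1]
        congr 2
        funext a
        rw [RingHom.comp_apply, Polynomial.coe_mapRingHom, Polynomial.coe_evalRingHom]
        rcases eq_or_ne a j with ha | ha
        · rw [ha, hzYj, Polynomial.map_X, Polynomial.eval_X]
          exact hzAj
        · obtain ⟨i, rfl⟩ := Fin.exists_succAbove_eq ha
          rw [hzYi, Polynomial.map_C, Polynomial.eval_C, ex_C]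
          exact hzAi i
      rw [hx]
      conv_lhs => rw [hFsum]
      rw [map_sum]
      simp only [h1]
      have h4 : vs L ^ (M * (2 * m)) * ∑ k ∈ Finset.range (2 * m + 1),
          (vs L ^ (-(T.M : ℤ))) ^ k * io (aeval zA (Fk k)) = 0 := by
        rw [Finset.mul_sum]
        have h5 := congrArg (io : PS L →+* FK L) h2
        rw [map_zero, map_sum] at h5
        rw [← h5]
        refine Finset.sum_congr rfl fun k hk => ?_
        rw [Finset.mem_range] at hk
        rw [map_mul, map_pow, ← mul_assoc]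
        congr 1
        show vs L ^ (M * (2 * m)) * (vs L ^ (-(M : ℤ))) ^ k = vs L ^ (M * (2 * m - k))
        rw [zpow_neg, zpow_natCast, inv_pow, ← pow_mul, ← div_eq_mul_inv,
          div_eq_iff (pow_ne_zero _ vs_ne), ← pow_add, ← mul_add]
        congr 2
        omega
      exact (mul_eq_zero.1 h4).resolve_left (pow_ne_zero _ vs_ne)
    have hc := T.cone_F i0 hF hWF j hFj hl hd hηF (by
      show PowerSeries.constantCoeff η ^ 2 + β = 0
      rw [← map_pow, hη2, map_sub, PowerSeries.constantCoeff_C, ← hζ0, hζ1]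
      ring)
    obtain ⟨f, hf⟩ := hc
    have hUz : T.U (io η * vs L ^ (-(T.M : ℤ))) = io ζ * vs L ^ (-(2 * (M : ℤ))) := by
      have h6 : ζ = η ^ 2 + PowerSeries.C β := by
        rw [hη2]
        ring
      have h7 : ∑ i, T.xi i ^ 2 = io (PowerSeries.C β) * (vs L ^ (-(M : ℤ))) ^ 2 := by
        rw [hβ, map_sum, map_sum, Finset.sum_mul]
        refine Finset.sum_congr rfl fun i _ => ?_
        show (io (PowerSeries.C (b i)) * vs L ^ (-(M : ℤ))) ^ 2 = _
        rw [mul_pow, map_pow, map_pow]
      have h8 : (vs L ^ (-(M : ℤ))) ^ 2 = vs L ^ (-(2 * (M : ℤ))) := by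
        rw [← zpow_natCast, ← zpow_mul]
        congr 1
        push_cast
        ring
      rw [Inf.U, h7, h6, map_add, map_pow, mul_pow]
      show io η ^ 2 * (vs L ^ (-(M : ℤ))) ^ 2 + _ = _
      rw [← add_mul, h8]
    rw [hUz, zpow_zero, one_mul] at hf
    refine ⟨f, ?_⟩
    apply io_inj (L := L)
    rw [map_mul, map_pow, ← hf]
    show io ζ = vs L ^ (2 * M) * (io ζ * vs L ^ (-(2 * (M : ℤ))))
    rw [mul_left_comm, ← zpow_natCast (vs L) (2 * M), ← zpow_add₀ vs_ne]
    have h9 : (((2 * M : ℕ) : ℤ)) + -(2 * (M : ℤ)) = 0 := by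
      push_cast
      ring
    rw [h9, zpow_zero, mul_one]
  -- the relation with a polynomial whose coefficients are polynomials
  set φ : MvPolynomial (Fin n) ℝ →+* FK L :=
    (aeval (fun i => io (PowerSeries.C (b i)) * (vs L)⁻¹) :
      MvPolynomial (Fin n) ℝ →ₐ[ℝ] FK L).toRingHom with hφ
  have hφX : ∀ i, φ (X i) = io (PowerSeries.C (b i)) * (vs L)⁻¹ := fun i =>
    aeval_X (R := ℝ) (fun i => io (PowerSeries.C (b i)) * (vs L)⁻¹) i
  have hφC : ∀ r, φ (C r) = algebraMap ℝ (FK L) r := fun r =>
    aeval_C (fun i => io (PowerSeries.C (b i)) * (vs L)⁻¹) r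
  set A0 : MvPolynomial (Fin n) ℝ := ∑ i, X i ^ 2 with hA0
  set G : Polynomial (MvPolynomial (Fin n) ℝ) := gm (sg j F) A0 with hG
  set zK : Fin (n + 1) → Polynomial (FK L) :=
    Fin.insertNth (α := fun _ => Polynomial (FK L)) j Polynomial.X
      fun i => Polynomial.C (io (PowerSeries.C (b i))) with hzK
  have hzKj : zK j = Polynomial.X :=
    Fin.insertNth_apply_same (α := fun _ => Polynomial (FK L)) j _ _
  have hzKi : ∀ i, zK (j.succAbove i) = Polynomial.C (io (PowerSeries.C (b i))) := fun i =>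
    Fin.insertNth_apply_succAbove (α := fun _ => Polynomial (FK L)) j _ _ i
  have hrel : pt.map io = Polynomial.C (vs L ^ (2 * m)) *
      ((sg j F).map φ).comp (Polynomial.C (vs L)⁻¹ * Polynomial.X) := by
    have h1 : ((sg j F).map φ).comp (Polynomial.C (vs L)⁻¹ * Polynomial.X) =
        aeval (fun a => zK a * Polynomial.C (vs L)⁻¹) F := by
      rw [← aeval_sg j (fun a => zK a * Polynomial.C (vs L)⁻¹) F, Polynomial.comp,
        Polynomial.eval₂_map]
      congr 1
      · apply MvPolynomial.ringHom_ext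
        · intro r
          rw [RingHom.comp_apply, hφC]
          show _ = aeval _ (C r)
          rw [aeval_C, Polynomial.algebraMap_apply]
        · intro i
          rw [RingHom.comp_apply, hφX]
          show _ = aeval _ (X i)
          rw [aeval_X, hzKi, map_mul]
      · rw [hzKj, mul_comm]
    rw [h1, hpt, Polynomial.map_sum]
    conv_rhs => rw [hFsum]
    rw [map_sum, Finset.mul_sum]
    refine Finset.sum_congr rfl fun k hk => ?_
    rw [Finset.mem_range] at hk
    have h3 := aeval_scale (hFkw k) zK (Polynomial.C (vs L)⁻¹)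
    simp only [Pi.one_apply, pow_one] at h3
    rw [h3, Polynomial.map_mul, Polynomial.map_C, map_pow, ← mul_assoc]
    congr 1
    · rw [← Polynomial.C_pow, ← Polynomial.C_mul]
      congr 1
      show vs L ^ (2 * m - k) = _
      rw [inv_pow, ← div_eq_mul_inv, eq_div_iff (pow_ne_zero _ vs_ne), ← pow_add]
      congr 1
      omega
    · have h4 := map_aeval' (Polynomial.mapRingHom (io : PS L →+* FK L))
        (k := ℝ) (R1 := Polynomial (PS L)) (R2 := Polynomial (FK L)) (fun r => by
          rw [Polynomial.coe_mapRingHom, Polynomial.algebraMap_apply, Polynomial.algebraMap_apply,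
            Polynomial.map_C]
          rfl) zY (Fk k)
      rw [Polynomial.coe_mapRingHom] at h4
      rw [h4]
      congr 2
      funext a
      rcases eq_or_ne a j with ha | ha
      · rw [ha, hzYj, hzKj, Polynomial.map_X]
      · obtain ⟨i, rfl⟩ := Fin.exists_succAbove_eq ha
        rw [hzYi, hzKi, Polynomial.map_C]
  have hcoef : ∀ k, (io (Gt.coeff k) : FK L) =
      (vs L ^ (2 * m)) ^ 2 * ((vs L)⁻¹ ^ 2) ^ k * φ (G.coeff k) := by
    intro k
    have hβφ : (io (PowerSeries.C β) : FK L) = vs L ^ 2 * φ A0 := by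
      rw [hβ, map_sum, map_sum, hA0, map_sum, Finset.mul_sum]
      refine Finset.sum_congr rfl fun i _ => ?_
      rw [map_pow, map_pow, map_pow, hφX, mul_pow]
      have := vs_ne (L := L)
      field_simp
    have h1 : (Gt.map io).coeff k = (io (Gt.coeff k) : FK L) := Polynomial.coeff_map _ _
    rw [← h1, hGt, ← gm_map, hβφ, hrel, coeff_gm_scale vs_ne, gm_map, ← hG, Polynomial.coeff_map]
  have hvl : ∀ k, VL 0 (φ (G.coeff k)) := by
    intro k
    have h1 := hcoef k
    rcases le_or_gt k (2 * m) with hk | hk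
    · obtain ⟨f, hf⟩ := coeff_dvd (2 * m) 2 Gt hGtM hGtN hroot k hk
      refine ⟨f, ?_⟩
      have h2 : (vs L ^ (2 * m)) ^ 2 * ((vs L)⁻¹ ^ 2) ^ k = vs L ^ (2 * (2 * m - k)) := by
        rw [inv_pow, inv_pow, ← pow_mul, ← pow_mul, ← div_eq_mul_inv,
          div_eq_iff (pow_ne_zero _ vs_ne), ← pow_add]
        congr 1
        omega
      rw [hf, map_mul, map_pow, h2] at h1
      rw [zpow_zero, one_mul]
      exact (mul_left_cancel₀ (pow_ne_zero _ vs_ne) h1).symm
    · rw [Polynomial.coeff_eq_zero_of_natDegree_lt (by rw [hGtN]; exact hk), map_zero] at h1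
      have h3 : (vs L ^ (2 * m)) ^ 2 * ((vs L)⁻¹ ^ 2) ^ k ≠ 0 :=
        mul_ne_zero (pow_ne_zero _ (pow_ne_zero _ vs_ne))
          (pow_ne_zero _ (pow_ne_zero _ (inv_ne_zero vs_ne)))
      have h2 : φ (G.coeff k) = 0 := (mul_eq_zero.1 h1.symm).resolve_left h3
      rw [h2]
      exact (Lead.zero 0).vl
  have hconst : ∀ k, ∃ r : ℝ, G.coeff k = C r := fun k => const_of_vl i0 hDb (hvl k)
  set g : Polynomial ℝ := G.map constantCoeff with hg
  have hgG : g.map C = G := by
    apply Polynomial.ext
    intro k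
    rw [Polynomial.coeff_map, hg, Polynomial.coeff_map]
    obtain ⟨r, hr⟩ := hconst k
    rw [hr, constantCoeff_C]
  have hg0 : g ≠ 0 := by
    intro h
    have h1 := hcoef (2 * m)
    rw [← hgG, h, Polynomial.map_zero, Polynomial.coeff_zero, map_zero, mul_zero] at h1
    have h2 : Gt.coeff (2 * m) = 1 := by
      rw [← hGtN]
      exact hGtM
    rw [h2, map_one] at h1
    exact one_ne_zero h1
  refine ⟨g, hg0, ?_⟩
  rw [← map_dvd_iff (sg (R := ℝ) j)]
  have h1 : sg j (Polynomial.aeval (∑ a, X a ^ 2) g) = pp (sg j F) := by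
    have h2 : sg j (∑ a, X a ^ 2 : MvPolynomial (Fin (n + 1)) ℝ) =
        Polynomial.X ^ 2 + Polynomial.C A0 := by
      rw [map_sum, Fin.sum_univ_succAbove _ j, map_pow, sg_X_self, hA0, map_sum]
      congr 1
      refine Finset.sum_congr rfl fun i _ => ?_
      rw [map_pow, sg_X_succAbove, map_pow]
    have h3 : sg j (Polynomial.aeval (∑ a, X a ^ 2) g) =
        Polynomial.aeval (Polynomial.X ^ 2 + Polynomial.C A0) g := by
      rw [← h2]
      exact (Polynomial.aeval_algHom_apply (sg (R := ℝ) j).toAlgHom (∑ a, X a ^ 2) g).symm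
    have h4 : Polynomial.aeval (Polynomial.X ^ 2 + Polynomial.C A0) g =
        G.comp (Polynomial.X ^ 2 + Polynomial.C A0) := by
      rw [← hgG, Polynomial.comp, Polynomial.eval₂_map, Polynomial.aeval_def]
      congr 1
    rw [h3, h4, hG, gm, Polynomial.taylor_apply, Polynomial.comp_assoc, ← expand_Ev,
      Polynomial.expand_eq_comp_X_pow]
    congr 1
    simp
  rw [h1, pp]
  exact Dvd.intro _ rfl

end

end Run7.h978
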