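import Mathlib
import Pool.Agent.Run7.h978.Sph10

set_option autoImplicit false

/-!
Points at infinity over the zeros of the leading form.
-/

open MvPolynomial

namespace Run7.h978

section

variable {n : ℕ} {L : Type} [Field L] [Algebra ℝ L] [CharZero L] [IsAlgClosed L]

theorem exists_lift {b : Fin n → L}
    (hb : ∀ r : MvPolynomial (Fin n) ℝ, aeval b r = 0 → r = 0) (j : Fin (n + 1))
    {F : MvPolynomial (Fin (n + 1)) ℝ} (hF : F ≠ 0) {y : L}
    (hy : aeval (Fin.insertNth (α := fun _ => L) j y b)
      (weightedHomogeneousComponent (1 : Fin (n + 1) → ℕ)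
        (weightedTotalDegree (1 : Fin (n + 1) → ℕ) F) F) = 0) :
    ∃ (M : ℕ) (_ : M ≠ 0) (η : PS L), PowerSeries.constantCoeff η = y ∧
      aeval (Fin.insertNth (α := fun _ => FK L) j (io η * vs L ^ (-(M : ℤ)))
        fun i => io (PowerSeries.C (b i)) * vs L ^ (-(M : ℤ))) F = 0 := by
  classical
  set D0 := weightedTotalDegree (1 : Fin (n + 1) → ℕ) F with hD0
  set f := weightedHomogeneousComponent (1 : Fin (n + 1) → ℕ) D0 F with hf
  have hf0 : f ≠ 0 := (top_weighted (1 : Fin (n + 1) → ℕ) hF).2
  set Fk : ℕ → MvPolynomial (Fin (n + 1)) ℝ := fun k =>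
    weightedHomogeneousComponent (1 : Fin (n + 1) → ℕ) k F with hFk
  have hFkw : ∀ k, IsWeightedHomogeneous (1 : Fin (n + 1) → ℕ) (Fk k) k := fun k =>
    weightedHomogeneousComponent_isWeightedHomogeneous k F
  have hFsum : F = ∑ k ∈ Finset.range (D0 + 1), Fk k := sum_components (1 : Fin (n + 1) → ℕ) F
  set z : Fin (n + 1) → L := Fin.insertNth (α := fun _ => L) j y b with hz
  have hzj : z j = y := Fin.insertNth_apply_same (α := fun _ => L) j y _
  have hzi : ∀ i, z (j.succAbove i) = b i := fun i =>
    Fin.insertNth_apply_succAbove (α := fun _ => L) j y _ i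
  set zY : Fin (n + 1) → Polynomial (PS L) :=
    Fin.insertNth (α := fun _ => Polynomial (PS L)) j Polynomial.X
      fun i => Polynomial.C (PowerSeries.C (b i)) with hzY
  have hzYj : zY j = Polynomial.X :=
    Fin.insertNth_apply_same (α := fun _ => Polynomial (PS L)) j _ _
  have hzYi : ∀ i, zY (j.succAbove i) = Polynomial.C (PowerSeries.C (b i)) := fun i =>
    Fin.insertNth_apply_succAbove (α := fun _ => Polynomial (PS L)) j _ _ i
  set P : Polynomial (PS L) := ∑ k ∈ Finset.range (D0 + 1),
    Polynomial.C (PowerSeries.X ^ (D0 - k)) * aeval zY (Fk k) with hP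
  set zR : Fin (n + 1) → Polynomial L :=
    Fin.insertNth (α := fun _ => Polynomial L) j Polynomial.X
      fun i => Polynomial.C (b i) with hzR
  have hzRj : zR j = Polynomial.X :=
    Fin.insertNth_apply_same (α := fun _ => Polynomial L) j _ _
  have hzRi : ∀ i, zR (j.succAbove i) = Polynomial.C (b i) := fun i =>
    Fin.insertNth_apply_succAbove (α := fun _ => Polynomial L) j _ _ i
  have hredP : red P = aeval zR f := by
    rw [red, hP, Polynomial.map_sum, Finset.sum_eq_single D0]
    · rw [Nat.sub_self, pow_zero, map_one, one_mul]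
      have h1 := map_aeval' (Polynomial.mapRingHom (PowerSeries.constantCoeff (R := L)))
        (k := ℝ) (R1 := Polynomial (PS L)) (R2 := Polynomial L) (fun r => by
          rw [Polynomial.coe_mapRingHom, Polynomial.algebraMap_apply, Polynomial.algebraMap_apply,
            Polynomial.map_C, PowerSeries.algebraMap_apply, PowerSeries.constantCoeff_C]) zY f
      rw [Polynomial.coe_mapRingHom] at h1
      show Polynomial.map PowerSeries.constantCoeff (aeval zY f) = _
      rw [h1]
      congr 2
      funext a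
      rcases eq_or_ne a j with rfl | ha
      · rw [hzYj, hzRj, Polynomial.map_X]
      · obtain ⟨i, rfl⟩ := Fin.exists_succAbove_eq ha
        rw [hzYi, hzRi, Polynomial.map_C, PowerSeries.constantCoeff_C]
    · intro k hk hk2
      rw [Finset.mem_range] at hk
      rw [Polynomial.map_mul, Polynomial.map_C, map_pow, PowerSeries.constantCoeff_X,
        zero_pow (by omega), Polynomial.C_0, zero_mul]
    · intro h
      exact absurd (Finset.mem_range.2 (Nat.lt_succ_self D0)) h
  have hredP0 : red P ≠ 0 := by
    rw [hredP]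
    intro h
    have h1 := aeval_sg j zR f
    rw [h, hzRj] at h1
    have h2 : Polynomial.eval₂ (aeval (fun i => zR (j.succAbove i)) :
        MvPolynomial (Fin n) ℝ →ₐ[ℝ] Polynomial L).toRingHom Polynomial.X (sg j f) =
        (sg j f).map (aeval b : MvPolynomial (Fin n) ℝ →ₐ[ℝ] L).toRingHom := by
      rw [Polynomial.map, Polynomial.eval₂_eq_sum, Polynomial.eval₂_eq_sum]
      congr 1
      funext i p
      congr 1
      have h3 : (fun i => zR (j.succAbove i)) = fun i => Polynomial.C (b i) := funext hzRi
      rw [h3]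
      exact (map_aeval' (Polynomial.C : L →+* Polynomial L) (fun r => by
        rw [Polynomial.algebraMap_apply]) b p).symm
    rw [h2] at h1
    have h4 : Function.Injective (aeval b : MvPolynomial (Fin n) ℝ →ₐ[ℝ] L).toRingHom := by
      intro p1 p2 hp
      have h5 : aeval b (p1 - p2) = 0 := by
        rw [map_sub, sub_eq_zero]
        exact hp
      exact sub_eq_zero.1 (hb _ h5)
    have h6 : sg j f = 0 := Polynomial.map_injective _ h4 (by rw [h1, Polynomial.map_zero])
    exact hf0 ((sg (R := ℝ) j).injective (by rw [h6, map_zero]))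
  have hroot : (red P).rootMultiplicity y ≠ 0 := by
    have h1 : (red P).IsRoot y := by
      rw [Polynomial.IsRoot, hredP]
      have h2 := map_aeval' (Polynomial.evalRingHom y) (k := ℝ) (R1 := Polynomial L)
        (R2 := L) (fun r => by
          rw [Polynomial.coe_evalRingHom, Polynomial.algebraMap_apply, Polynomial.eval_C]) zR f
      rw [Polynomial.coe_evalRingHom] at h2
      rw [h2, ← hy]
      congr 2
      funext a
      rcases eq_or_ne a j with rfl | ha
      · rw [hzRj, hzj, Polynomial.eval_X]
      · obtain ⟨i, rfl⟩ := Fin.exists_succAbove_eq ha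
        rw [hzRi, hzi, Polynomial.eval_C]
    exact ((Polynomial.rootMultiplicity_pos hredP0).2 h1).ne'
  obtain ⟨M, hM, η, hη, hηy⟩ := exists_root_lift (L := L) (O := fun k => k ≠ 0)
    (fun h => h rfl) (fun p hp hpd => by
      obtain ⟨a, ha⟩ := IsAlgClosed.exists_root p (by
        intro h
        exact hpd (Polynomial.natDegree_eq_of_degree_eq_some h))
      exact ⟨a, ((Polynomial.rootMultiplicity_pos hp.ne_zero).2 ha).ne'⟩) hredP0 hroot
  refine ⟨M, hM, η, hηy, ?_⟩
  set zA : Fin (n + 1) → PS L := Fin.insertNth (α := fun _ => PS L) j η fun i =>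
    PowerSeries.C (b i) with hzA
  have hzAj : zA j = η := Fin.insertNth_apply_same (α := fun _ => PS L) j η _
  have hzAi : ∀ i, zA (j.succAbove i) = PowerSeries.C (b i) := fun i =>
    Fin.insertNth_apply_succAbove (α := fun _ => PS L) j η _ i
  have hx : (Fin.insertNth (α := fun _ => FK L) j (io η * vs L ^ (-(M : ℤ)))
      (fun i => io (PowerSeries.C (b i)) * vs L ^ (-(M : ℤ))) :
      Fin (n + 1) → FK L) = fun a => io (zA a) * vs L ^ (-(M : ℤ)) := by
    funext a
    rcases eq_or_ne a j with ha | ha
    · rw [ha, Fin.insertNth_apply_same, hzAj]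
    · obtain ⟨i, rfl⟩ := Fin.exists_succAbove_eq ha
      rw [Fin.insertNth_apply_succAbove, hzAi]
  have h1 : ∀ k, aeval (fun a => io (zA a) * vs L ^ (-(M : ℤ))) (Fk k) =
      (vs L ^ (-(M : ℤ))) ^ k * io (aeval zA (Fk k)) := by
    intro k
    have h3 := aeval_scale (hFkw k) (fun a => (io (zA a) : FK L)) (vs L ^ (-(M : ℤ)))
    simp only [Pi.one_apply, pow_one] at h3
    rw [h3]
    congr 1
    exact (map_aeval' (io : PS L →+* FK L)
      (fun r => (IsScalarTower.algebraMap_apply ℝ (PS L) (FK L) r).symm) zA _).symm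
  have h2 : ∑ k ∈ Finset.range (D0 + 1),
      (PowerSeries.X : PS L) ^ (M * (D0 - k)) * aeval zA (Fk k) = 0 := by
    rw [← hη, hP, Polynomial.map_sum, Polynomial.eval_finsetSum]
    refine Finset.sum_congr rfl fun k _ => ?_
    rw [Polynomial.map_mul, Polynomial.map_C, Polynomial.eval_mul, Polynomial.eval_C, map_pow,
      ex_X, ← pow_mul]
    congr 1
    have h1 := map_aeval' ((Polynomial.evalRingHom η).comp (Polynomial.mapRingHom (ex M hM)))
      (k := ℝ) (R1 := Polynomial (PowerSeries L)) (R2 := PowerSeries L) (fun r => by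
        rw [RingHom.comp_apply, Polynomial.coe_mapRingHom, Polynomial.coe_evalRingHom,
          Polynomial.algebraMap_apply, Polynomial.map_C, Polynomial.eval_C,
          PowerSeries.algebraMap_apply, ex_C]) zY (Fk k)
    rw [RingHom.comp_apply, Polynomial.coe_mapRingHom, Polynomial.coe_evalRingHom] at h1
    rw [h1]
    congr 2
    funext a
    rw [RingHom.comp_apply, Polynomial.coe_mapRingHom, Polynomial.coe_evalRingHom]
    rcases eq_or_ne a j with ha | ha
    · rw [ha, hzYj, Polynomial.map_X, Polynomial.eval_X]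
      exact hzAj
    · obtain ⟨i, rfl⟩ := Fin.exists_succAbove_eq ha
      rw [hzYi, Polynomial.map_C, Polynomial.eval_C, ex_C]
      exact hzAi i
  rw [hx]
  conv_lhs => rw [hFsum]
  rw [map_sum]
  simp only [h1]
  have h4 : vs L ^ (M * D0) * ∑ k ∈ Finset.range (D0 + 1),
      (vs L ^ (-(M : ℤ))) ^ k * io (aeval zA (Fk k)) = 0 := by
    rw [Finset.mul_sum]
    have h5 := congrArg (io : PS L →+* FK L) h2
    rw [map_zero, map_sum] at h5
    rw [← h5]
    refine Finset.sum_congr rfl fun k hk => ?_
    rw [Finset.mem_range] at hk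
    rw [map_mul, map_pow, ← mul_assoc]
    congr 1
    show vs L ^ (M * D0) * (vs L ^ (-(M : ℤ))) ^ k = vs L ^ (M * (D0 - k))
    rw [zpow_neg, zpow_natCast, inv_pow, ← pow_mul, ← div_eq_mul_inv,
      div_eq_iff (pow_ne_zero _ vs_ne), ← pow_add, ← mul_add]
    congr 2
    omega
  exact (mul_eq_zero.1 h4).resolve_left (pow_ne_zero _ vs_ne)

end

end Run7.h978
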