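import Mathlib
import Pool.Agent.Run7.h978.Nfr5
import Pool.Agent.Run7.h978.Rev1

set_option autoImplicit false
set_option linter.unusedSectionVars false

/-!
Branches near an isotropic direction.
-/

namespace Run7.h978

section

variable {L : Type} [Field L] (φ : ℂ →+* L)

/-- the constants -/
noncomputable def ic : ℂ →+* FK L :=
  (io : PS L →+* FK L).comp ((PowerSeries.C : L →+* PS L).comp φ)

theorem ic_apply (c : ℂ) : ic φ c = io (PowerSeries.C (φ c)) := rfl

/-- the value of a polynomial -/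
noncomputable def evG (G : Polynomial (MvPolynomial (Fin 2) ℂ)) (Y v z : FK L) : FK L :=
  G.eval₂ (MvPolynomial.eval₂Hom (ic φ) ![v, z]) Y

theorem ev2_eq (H : MvPolynomial (Fin 2) ℂ) (v z : FK L) :
    MvPolynomial.eval₂Hom (ic φ) ![v, z] H =
      ∑ m ∈ H.support, ic φ (H.coeff m) * (v ^ m 0 * z ^ m 1) := by
  rw [MvPolynomial.coe_eval₂Hom, MvPolynomial.eval₂_eq']
  refine Finset.sum_congr rfl fun m _ => ?_
  rw [Fin.prod_univ_two]
  rfl

theorem evG_eq (G : Polynomial (MvPolynomial (Fin 2) ℂ)) (Y v z : FK L) :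
    evG φ G Y v z = ∑ i ∈ G.support, ∑ m ∈ (G.coeff i).support,
      ic φ ((G.coeff i).coeff m) * (v ^ m 0 * z ^ m 1) * Y ^ i := by
  rw [evG, Polynomial.eval₂_eq_sum, Polynomial.sum]
  refine Finset.sum_congr rfl fun i _ => ?_
  rw [ev2_eq, Finset.sum_mul]

/-- the coefficients of the reduced polynomial -/
noncomputable def rho (G : Polynomial (MvPolynomial (Fin 2) ℂ)) (b : Fin 2 → L) (J e E : ℤ)
    (i : ℕ) : L :=
  ∑ m ∈ (G.coeff i).support.filter (fun m => 8 * (J - (m 0 : ℤ)) - 2 * (m 1 : ℤ) + e * i = E),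
    φ ((G.coeff i).coeff m) * (b 0 ^ m 0 * b 1 ^ m 1)

theorem zpow_term {v : FK L} (hv : v ≠ 0) {M : ℕ} {J e E : ℤ} {i m0 m1 : ℕ}
    {b0 b1 η c : FK L} {k : ℕ} (hk : (k : ℤ) = 8 * (J - (m0 : ℤ)) - 2 * (m1 : ℤ) + e * i - E) :
    c * ((b0 * v ^ (-(8 * (M : ℤ)))) ^ m0 * (b1 * v ^ (-(2 * (M : ℤ)))) ^ m1) *
      (η * v ^ (e * (M : ℤ))) ^ i =
    v ^ ((M : ℤ) * (E - 8 * J)) * (c * (b0 ^ m0 * b1 ^ m1) * (v ^ M) ^ k * η ^ i) := by
  have h1 : v ^ ((M : ℤ) * (E - 8 * J)) * (v ^ M) ^ k =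
      (v ^ (-(8 * (M : ℤ)))) ^ m0 * (v ^ (-(2 * (M : ℤ)))) ^ m1 * (v ^ (e * (M : ℤ))) ^ i := by
    rw [← zpow_natCast v M, ← zpow_natCast (v ^ (M : ℤ)) k, ← zpow_mul, ← zpow_add₀ hv,
      ← zpow_natCast (v ^ (-(8 * (M : ℤ)))) m0, ← zpow_natCast (v ^ (-(2 * (M : ℤ)))) m1,
      ← zpow_natCast (v ^ (e * (M : ℤ))) i, ← zpow_mul, ← zpow_mul, ← zpow_mul, ← zpow_add₀ hv,
      ← zpow_add₀ hv]
    congr 1
    rw [hk]
    ring
  rw [mul_pow, mul_pow, mul_pow]
  linear_combination (-(c * (b0 ^ m0 * b1 ^ m1) * η ^ i)) * h1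

theorem lift_branch [CharZero L] [IsAlgClosed L] {G : Polynomial (MvPolynomial (Fin 2) ℂ)}
    {b : Fin 2 → L} {J e E : ℤ}
    (hE : ∀ i, ∀ m ∈ (G.coeff i).support,
      E ≤ 8 * (J - (m 0 : ℤ)) - 2 * (m 1 : ℤ) + e * i)
    {i1 : ℕ} (hi1 : rho φ G b J e E i1 ≠ 0) {y0 : L}
    (hy0 : ∑ i ∈ G.support, rho φ G b J e E i * y0 ^ i = 0) :
    ∃ (M : ℕ) (_ : M ≠ 0) (η : PS L), PowerSeries.constantCoeff η = y0 ∧
      evG φ G (io η * vs L ^ (e * (M : ℤ))) (io (PowerSeries.C (b 0)) * vs L ^ (-(8 * (M : ℤ))))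
        (io (PowerSeries.C (b 1)) * vs L ^ (-(2 * (M : ℤ)))) = 0 := by
  classical
  set κ : ℕ → (Fin 2 →₀ ℕ) → ℕ := fun i m =>
    (8 * (J - (m 0 : ℤ)) - 2 * (m 1 : ℤ) + e * i - E).toNat with hκ
  have hκ' : ∀ i, ∀ m ∈ (G.coeff i).support,
      (κ i m : ℤ) = 8 * (J - (m 0 : ℤ)) - 2 * (m 1 : ℤ) + e * i - E := by
    intro i m hm
    rw [hκ]
    exact Int.toNat_of_nonneg (by linarith [hE i m hm])
  set a : ℕ → (Fin 2 →₀ ℕ) → L := fun i m =>
    φ ((G.coeff i).coeff m) * (b 0 ^ m 0 * b 1 ^ m 1) with ha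
  set P : Polynomial (PS L) := ∑ i ∈ G.support,
    Polynomial.C (∑ m ∈ (G.coeff i).support, PowerSeries.C (a i m) * PowerSeries.X ^ κ i m) *
      Polynomial.X ^ i with hP
  have hcc : ∀ i, ∀ m ∈ (G.coeff i).support, PowerSeries.constantCoeff
      (PowerSeries.C (a i m) * PowerSeries.X ^ κ i m) =
        if 8 * (J - (m 0 : ℤ)) - 2 * (m 1 : ℤ) + e * i = E then a i m else 0 := by
    intro i m hm
    have h1 := hκ' i m hm
    rw [map_mul, map_pow, PowerSeries.constantCoeff_X, PowerSeries.constantCoeff_C]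
    split
    · rename_i h
      have h2 : κ i m = 0 := by omega
      rw [h2, pow_zero, mul_one]
    · rename_i h
      have h2 : κ i m ≠ 0 := by
        intro h3
        apply h
        rw [h3] at h1
        push_cast at h1
        linarith
      rw [zero_pow h2, mul_zero]
  have hrho : ∀ i, PowerSeries.constantCoeff
      (∑ m ∈ (G.coeff i).support, PowerSeries.C (a i m) * PowerSeries.X ^ κ i m) =
        rho φ G b J e E i := by
    intro i
    rw [map_sum, rho, Finset.sum_filter]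
    exact Finset.sum_congr rfl fun m hm => hcc i m hm
  have hred : red P = ∑ i ∈ G.support, Polynomial.C (rho φ G b J e E i) * Polynomial.X ^ i := by
    rw [red, hP, Polynomial.map_sum]
    refine Finset.sum_congr rfl fun i _ => ?_
    rw [Polynomial.map_mul, Polynomial.map_C, Polynomial.map_pow, Polynomial.map_X]
    congr 2
    exact hrho i
  have hrho0 : ∀ i, i ∉ G.support → rho φ G b J e E i = 0 := by
    intro i hi
    rw [rho, Polynomial.notMem_support_iff.1 hi]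
    simp
  have hredc : (red P).coeff i1 = rho φ G b J e E i1 := by
    rw [hred, Polynomial.finsetSum_coeff]
    simp only [Polynomial.coeff_C_mul, Polynomial.coeff_X_pow, mul_ite, mul_one, mul_zero]
    rw [Finset.sum_ite_eq]
    split
    · rfl
    · rename_i h
      exact (hrho0 i1 h).symm
  have hred0 : red P ≠ 0 := by
    intro h
    rw [h, Polynomial.coeff_zero] at hredc
    exact hi1 hredc.symm
  have hroot : (red P).rootMultiplicity y0 ≠ 0 := by
    have h1 : (red P).IsRoot y0 := by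
      rw [Polynomial.IsRoot, hred, Polynomial.eval_finsetSum]
      simp only [Polynomial.eval_mul, Polynomial.eval_C, Polynomial.eval_pow, Polynomial.eval_X]
      exact hy0
    exact ((Polynomial.rootMultiplicity_pos hred0).2 h1).ne'
  obtain ⟨M, hM, η, hη, hηy⟩ := exists_root_lift (L := L) (O := fun k => k ≠ 0)
    (fun h => h rfl) (fun p hp hpd => by
      obtain ⟨a, ha⟩ := IsAlgClosed.exists_root p (by
        intro h
        exact hpd (Polynomial.natDegree_eq_of_degree_eq_some h))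
      exact ⟨a, ((Polynomial.rootMultiplicity_pos hp.ne_zero).2 ha).ne'⟩) hred0 hroot
  refine ⟨M, hM, η, hηy, ?_⟩
  have h2 : ∑ i ∈ G.support, ∑ m ∈ (G.coeff i).support,
      (PowerSeries.C (a i m) * ((PowerSeries.X : PS L) ^ M) ^ κ i m) * η ^ i = 0 := by
    rw [← hη, hP, Polynomial.map_sum, Polynomial.eval_finsetSum]
    refine Finset.sum_congr rfl fun i _ => ?_
    rw [Polynomial.map_mul, Polynomial.map_C, Polynomial.map_pow, Polynomial.map_X,
      Polynomial.eval_mul, Polynomial.eval_C, Polynomial.eval_pow, Polynomial.eval_X, map_sum,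
      Finset.sum_mul]
    refine Finset.sum_congr rfl fun m _ => ?_
    rw [RingHom.map_mul (ex M hM), RingHom.map_pow (ex M hM), ex_C, ex_X]
  have h3 := congrArg (io : PS L →+* FK L) h2
  rw [map_zero, map_sum] at h3
  rw [evG_eq]
  have h4 : vs L ^ ((M : ℤ) * (E - 8 * J)) * ∑ i ∈ G.support,
      (io : PS L →+* FK L) (∑ m ∈ (G.coeff i).support,
        (PowerSeries.C (a i m) * ((PowerSeries.X : PS L) ^ M) ^ κ i m) * η ^ i) = 0 := by
    rw [h3, mul_zero]
  rw [← h4, Finset.mul_sum]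
  refine Finset.sum_congr rfl fun i _ => ?_
  rw [map_sum, Finset.mul_sum]
  refine Finset.sum_congr rfl fun m hm => ?_
  rw [zpow_term vs_ne (hκ' i m hm)]
  congr 1
  rw [map_mul, map_mul, map_pow, map_pow, map_pow, ic_apply, ha]
  show _ = io (PowerSeries.C (φ ((G.coeff i).coeff m) * (b 0 ^ m 0 * b 1 ^ m 1))) *
    (vs L ^ M) ^ κ i m * _
  rw [map_mul, map_mul, map_mul, map_mul, map_pow, map_pow, map_pow, map_pow]

end

end Run7.h978
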