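import Mathlib
import Pool.Agent.Run7.h978.Nfr6

set_option autoImplicit false
set_option linter.unusedSectionVars false

/-!
Properties of the leading coefficients of the branches.
-/

namespace Run7.h978

section

variable {L : Type} [Field L] [Algebra ℝ L] [CharZero L] (D : Derivation ℝ L L) {b : L}
  (hb : D b = 1)

include hb

theorem D_eval (p : Polynomial L) (hp : ∀ s, D (p.coeff s) = 0) :
    D (p.eval b) = (Polynomial.derivative p).eval b := by
  rw [Polynomial.eval_eq_sum, Polynomial.derivative_eval, Polynomial.sum, Polynomial.sum, map_sum]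
  refine Finset.sum_congr rfl fun i _ => ?_
  rw [Derivation.leibniz, hp, smul_zero, add_zero, Derivation.leibniz_pow, hb, smul_eq_mul,
    smul_eq_mul, nsmul_eq_mul]
  ring

theorem poly_zero (N : ℕ) : ∀ p : Polynomial L, p.natDegree ≤ N → (∀ s, D (p.coeff s) = 0) →
    p.eval b = 0 → p = 0 := by
  induction N with
  | zero =>
    intro p hN _ he
    have h1 := Polynomial.eq_C_of_natDegree_le_zero hN
    rw [h1, Polynomial.eval_C] at he
    rw [h1, he, Polynomial.C_0]
  | succ N ih =>
    intro p hN hp he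
    have h1 : Polynomial.derivative p = 0 := by
      apply ih
      · exact (Polynomial.natDegree_derivative_le p).trans (by omega)
      · intro s
        rw [Polynomial.coeff_derivative, Derivation.leibniz, hp, smul_zero, add_zero]
        have h2 : D ((s : L) + 1) = 0 := by
          rw [map_add, Derivation.map_natCast, Derivation.map_one_eq_zero, add_zero]
        rw [h2, smul_zero]
      · rw [← D_eval D hb p hp, he, map_zero]
    have h2 := Polynomial.eq_C_of_natDegree_eq_zero (Polynomial.derivative_eq_zero.1 h1)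
    rw [h2, Polynomial.eval_C] at he
    rw [h2, he, Polynomial.C_0]

end

/-- elements of negative degree -/
def Neg {L : Type} [Field L] [Algebra ℝ L] (D : Derivation ℝ L L) (b a : L) : Prop :=
  ∃ (S : ℕ) (p : Polynomial L), (∀ s, D (p.coeff s) = 0) ∧ p.natDegree < S ∧
    a * b ^ S = p.eval b

section

variable {L : Type} [Field L] [Algebra ℝ L] [CharZero L] {D : Derivation ℝ L L} {b : L}
  (hb : D b = 1)

theorem Neg.zero : Neg D b 0 := ⟨1, 0, by simp, by simp, by simp⟩

include hb

theorem D_split {y : L} (hy : D (D y) = 0) : D (y - D y * b) = 0 := by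
  rw [map_sub, Derivation.leibniz, hy, hb, smul_zero, add_zero, smul_eq_mul, mul_one, sub_self]

theorem neg_linear {y : L} (hn : Neg D b y) (hy : D (D y) = 0) : y = 0 := by
  obtain ⟨S, p, hp, hpS, hpe⟩ := hn
  set A := D y with hA
  set B := y - A * b with hB
  have hDA : D A = 0 := hy
  have hDB : D B = 0 := D_split hb hy
  have hyAB : y = A * b + B := by
    rw [hB]
    ring
  set q : Polynomial L := (Polynomial.C A * Polynomial.X + Polynomial.C B) * Polynomial.X ^ S - p
    with hq
  have hq0 : q = 0 := by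
    apply poly_zero D hb q.natDegree q le_rfl
    · intro s
      rw [hq, Polynomial.coeff_sub, map_sub, hp, sub_zero, Polynomial.coeff_mul_X_pow']
      split
      · rw [Polynomial.coeff_add, map_add, Polynomial.coeff_C_mul, Polynomial.coeff_X,
          Polynomial.coeff_C]
        split <;> split <;> simp [hDA, hDB]
      · rw [map_zero]
    · rw [hq, Polynomial.eval_sub, Polynomial.eval_mul, Polynomial.eval_add, Polynomial.eval_mul,
        Polynomial.eval_C, Polynomial.eval_C, Polynomial.eval_X, Polynomial.eval_pow,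
        Polynomial.eval_X, ← hyAB, hpe, sub_self]
  have h1 : A = 0 := by
    have h2 := congrArg (fun r => Polynomial.coeff r (1 + S)) hq0
    simp only [hq, Polynomial.coeff_sub, Polynomial.coeff_mul_X_pow, Polynomial.coeff_zero] at h2
    rw [Polynomial.coeff_eq_zero_of_natDegree_lt (show p.natDegree < 1 + S by omega)] at h2
    simpa using h2
  have h3 : B = 0 := by
    have h2 := congrArg (fun r => Polynomial.coeff r (0 + S)) hq0
    simp only [hq, Polynomial.coeff_sub, Polynomial.coeff_mul_X_pow, Polynomial.coeff_zero] at h2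
    rw [Polynomial.coeff_eq_zero_of_natDegree_lt (show p.natDegree < 0 + S by omega)] at h2
    simpa using h2
  rw [hyAB, h1, h3]
  ring

theorem neg_quad {y α β : L} (hα : Neg D b α) (hβ : Neg D b β) (h : y ^ 2 + α * y + β = 0)
    (hy : D (D y) = 0) : y = 0 := by
  obtain ⟨S1, p1, hp1, hpS1, hpe1⟩ := hα
  obtain ⟨S0, p0, hp0, hpS0, hpe0⟩ := hβ
  set A := D y with hA
  set B := y - A * b with hB
  have hDA : D A = 0 := hy
  have hDB : D B = 0 := D_split hb hy
  have hyAB : y = A * b + B := by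
    rw [hB]
    ring
  -- polynomials with constant coefficients
  have hconst : ∀ p q : Polynomial L, (∀ s, D (p.coeff s) = 0) → (∀ s, D (q.coeff s) = 0) →
      ∀ s, D ((p * q).coeff s) = 0 := by
    intro p q hp hq s
    rw [Polynomial.coeff_mul, map_sum]
    refine Finset.sum_eq_zero fun x _ => ?_
    rw [Derivation.leibniz, hp, hq, smul_zero, smul_zero, add_zero]
  have hX : ∀ N s, D (((Polynomial.X : Polynomial L) ^ N).coeff s) = 0 := by
    intro N s
    rw [Polynomial.coeff_X_pow]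
    split
    · exact Derivation.map_one_eq_zero D
    · exact map_zero D
  set r : Polynomial L := Polynomial.C A * Polynomial.X + Polynomial.C B with hr
  have hrc : ∀ s, D (r.coeff s) = 0 := by
    intro s
    rw [hr, Polynomial.coeff_add, map_add, Polynomial.coeff_C_mul, Polynomial.coeff_X,
      Polynomial.coeff_C]
    split <;> split <;> simp [hDA, hDB]
  have hre : r.eval b = y := by
    rw [hr, Polynomial.eval_add, Polynomial.eval_mul, Polynomial.eval_C, Polynomial.eval_C,
      Polynomial.eval_X, ← hyAB]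
  have hrd : r.natDegree ≤ 1 := Polynomial.natDegree_linear_le
  set q : Polynomial L := r ^ 2 * Polynomial.X ^ (S1 + S0) + (r * p1) * Polynomial.X ^ S0 +
    p0 * Polynomial.X ^ S1 with hq
  have hq0 : q = 0 := by
    apply poly_zero D hb q.natDegree q le_rfl
    · intro s
      rw [hq, Polynomial.coeff_add, Polynomial.coeff_add, map_add, map_add, pow_two,
        hconst _ _ (hconst _ _ hrc hrc) (hX _), hconst _ _ (hconst _ _ hrc hp1) (hX _),
        hconst _ _ hp0 (hX _)]
      ring
    · simp only [hq, Polynomial.eval_add, Polynomial.eval_mul, Polynomial.eval_pow,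
        Polynomial.eval_X, hre, ← hpe1, ← hpe0]
      linear_combination b ^ (S1 + S0) * h
  have hd1 : (r * p1).natDegree ≤ S1 := by
    refine Polynomial.natDegree_mul_le.trans ?_
    omega
  have h1 : A = 0 := by
    have h2 := congrArg (fun r => Polynomial.coeff r (2 + (S1 + S0))) hq0
    simp only [hq, Polynomial.coeff_add, Polynomial.coeff_mul_X_pow, Polynomial.coeff_zero] at h2
    rw [show 2 + (S1 + S0) = (2 + S1) + S0 by ring, Polynomial.coeff_mul_X_pow,
      Polynomial.coeff_eq_zero_of_natDegree_lt (show (r * p1).natDegree < 2 + S1 by omega),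
      show (2 + S1) + S0 = (2 + S0) + S1 by ring, Polynomial.coeff_mul_X_pow,
      Polynomial.coeff_eq_zero_of_natDegree_lt (show p0.natDegree < 2 + S0 by omega)] at h2
    have h3 : (r ^ 2).coeff 2 = A ^ 2 := by
      have h4 : r ^ 2 = Polynomial.C (A ^ 2) * Polynomial.X ^ 2 +
          Polynomial.C (2 * A * B) * Polynomial.X + Polynomial.C (B ^ 2) := by
        rw [hr]
        simp only [map_mul, map_pow, map_ofNat]
        ring
      rw [h4, Polynomial.coeff_add, Polynomial.coeff_add, Polynomial.coeff_C_mul,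
        Polynomial.coeff_C_mul, Polynomial.coeff_X_pow, Polynomial.coeff_X, Polynomial.coeff_C]
      simp
    rw [h3, add_zero, add_zero] at h2
    exact pow_eq_zero_iff two_ne_zero |>.1 h2
  have h3 : B = 0 := by
    have hrB : r = Polynomial.C B := by
      rw [hr, h1, Polynomial.C_0, zero_mul, zero_add]
    have h2 := congrArg (fun r => Polynomial.coeff r (0 + (S1 + S0))) hq0
    simp only [hq, Polynomial.coeff_add, Polynomial.coeff_mul_X_pow, Polynomial.coeff_zero] at h2
    rw [show 0 + (S1 + S0) = S1 + S0 by ring, Polynomial.coeff_mul_X_pow, hrB,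
      Polynomial.coeff_C_mul, Polynomial.coeff_eq_zero_of_natDegree_lt hpS1,
      show S1 + S0 = S0 + S1 by ring, Polynomial.coeff_mul_X_pow,
      Polynomial.coeff_eq_zero_of_natDegree_lt hpS0, mul_zero, add_zero, add_zero,
      ← Polynomial.C_pow, Polynomial.coeff_C_zero] at h2
    exact pow_eq_zero_iff two_ne_zero |>.1 h2
  rw [hyAB, h1, h3]
  ring

end

/-- a sum of monomials of smaller degree -/
theorem neg_sum {L : Type} [Field L] [Algebra ℝ L] [CharZero L] {D : Derivation ℝ L L} {b : L}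
    (hb0 : b ≠ 0) {ι : Type*} (s : Finset ι) {c : ι → L} (hc : ∀ i ∈ s, D (c i) = 0) {k : ι → ℕ}
    {J : ℕ} (hk : ∀ i ∈ s, k i < J) {lam : L} (hlam : D lam = 0) :
    Neg D b ((∑ i ∈ s, c i * b ^ k i) / (lam * b ^ J)) := by
  classical
  rcases s.eq_empty_or_nonempty with rfl | hne
  · simpa using (Neg.zero (D := D) (b := b))
  have hJ : 0 < J := by
    obtain ⟨i, hi⟩ := hne
    exact lt_of_le_of_lt (Nat.zero_le _) (hk i hi)
  refine ⟨J, ∑ i ∈ s, Polynomial.C (c i / lam) * Polynomial.X ^ k i, ?_, ?_, ?_⟩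
  · intro t
    rw [Polynomial.finsetSum_coeff, map_sum]
    refine Finset.sum_eq_zero fun i hi => ?_
    rw [Polynomial.coeff_C_mul, Polynomial.coeff_X_pow]
    split
    · rw [mul_one, Derivation.leibniz_div, hc i hi, hlam, smul_zero, smul_zero, sub_zero,
        smul_zero]
    · rw [mul_zero, map_zero]
  · refine lt_of_le_of_lt (Polynomial.natDegree_sum_le_of_forall_le (n := J - 1) _ _ ?_) (by omega)
    intro i hi
    have := hk i hi
    exact (Polynomial.natDegree_C_mul_X_pow_le _ _).trans (by omega)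
  · rw [Polynomial.eval_finsetSum, div_mul_eq_mul_div, Finset.sum_mul, Finset.sum_div]
    refine Finset.sum_congr rfl fun i _ => ?_
    rw [Polynomial.eval_mul, Polynomial.eval_C, Polynomial.eval_pow, Polynomial.eval_X]
    by_cases hl : lam = 0
    · rw [hl]
      simp
    · have := pow_ne_zero J hb0
      field_simp

section

variable {L : Type} [Field L] [Algebra ℝ L] [CharZero L] [IsAlgClosed L]

/-- the equations hold for all branches -/
def Hit (φ : ℂ →+* L) (b : Fin 2 → L) (D : Fin 2 → Derivation ℝ L L) (l : List ℝ)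
    (G : Polynomial (MvPolynomial (Fin 2) ℂ)) : Prop :=
  ∀ T : Inf 2 L, T.b = b → T.D = D → ∀ Y : FK L,
    evG φ G Y (T.xw 0 0) (T.xw 0 1) = 0 →
      dn (T.dw 0) 0 Y ≠ 0 ∧ (∀ i, itL (lapM (T.dw 0) 0 Y) l (T.xw 0 i) = 0) ∧
        itL (lapM (T.dw 0) 0 Y) l Y = 0

variable {φ : ℂ →+* L} {b : Fin 2 → L} {D : Fin 2 → Derivation ℝ L L}
  (hDb : ∀ i k, D i (b k) = if i = k then 1 else 0) (hDc : ∀ i k x, D i (D k x) = D k (D i x))
  (hDC : ∀ i (c : ℂ), D i (φ c) = 0) {l : List ℝ} (hl : ∀ μ ∈ l, μ ≠ 0)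
  {G0 : Polynomial (MvPolynomial (Fin 2) ℂ)} (hit : Hit φ b D l G0)

theorem evG_taylor (c : ℂ) (Y v z : FK L) :
    evG φ (Polynomial.taylor (MvPolynomial.C c) G0) Y v z = evG φ G0 (ic φ c + Y) v z := by
  rw [evG, evG, ← Polynomial.eval_map, Polynomial.map_taylor, Polynomial.taylor_eval,
    ← Polynomial.eval_map, add_comm]
  congr 2
  rw [MvPolynomial.coe_eval₂Hom, MvPolynomial.eval₂_C]

include hDb hDc hDC hit

theorem branch {c : ℂ} {G : Polynomial (MvPolynomial (Fin 2) ℂ)}
    (hG : G = Polynomial.taylor (MvPolynomial.C c) G0) {J e E : ℤ}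
    (hE : ∀ i, ∀ m ∈ (G.coeff i).support,
      E ≤ 8 * (J - (m 0 : ℤ)) - 2 * (m 1 : ℤ) + e * i)
    {i1 : ℕ} (hi1 : rho φ G b J e E i1 ≠ 0) {y0 : L}
    (hy0 : ∑ i ∈ G.support, rho φ G b J e E i * y0 ^ i = 0) :
    ∃ (T : Inf 2 L) (Y y : FK L), T.b = b ∧ T.D = D ∧ Y = ic φ c + y ∧
      (∀ i (c : ℂ), T.dw 0 i (ic φ c) = 0) ∧ Lead (e * (T.M : ℤ)) y y0 ∧
      (∀ i, itL (lapM (T.dw 0) 0 Y) l (T.xw 0 i) = 0) ∧ itL (lapM (T.dw 0) 0 Y) l Y = 0 ∧
      evG φ G y (T.xw 0 0) (T.xw 0 1) = 0 := by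
  obtain ⟨M, hM, η, hη, hev⟩ := lift_branch φ hE hi1 hy0
  choose E' hE' using fun i => exists_frD (D i)
  obtain ⟨S, hS⟩ := exists_Es (L := L)
  set T : Inf 2 L := ⟨b, D, hDb, hDc, M, hM, E', hE', S, hS⟩ with hT
  have hx0 : T.xw 0 0 = io (PowerSeries.C (b 0)) * vs L ^ (-(8 * (M : ℤ))) := by
    rw [Inf.xw, Inf.wt_self]
  have hx1 : T.xw 0 1 = io (PowerSeries.C (b 1)) * vs L ^ (-(2 * (M : ℤ))) := by
    rw [Inf.xw, Inf.wt_ne 0 (by decide : (1 : Fin 2) ≠ 0)]
  rw [← hx0, ← hx1] at hev
  have hconst : ∀ i (c : ℂ), T.dw 0 i (ic φ c) = 0 := by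
    intro i c
    rw [Inf.dw_apply, ic_apply, T.hE, psD_C]
    have h1 : T.D i (φ c) = 0 := hDC i c
    rw [h1, map_zero, map_zero, mul_zero]
  have h1 := hev
  rw [hG, evG_taylor] at h1
  obtain ⟨_, h3, h4⟩ := hit T rfl rfl _ h1
  exact ⟨T, _, io η * vs L ^ (e * (M : ℤ)), rfl, rfl, rfl, hconst,
    ⟨η, by rw [mul_comm], hη⟩, h3, h4, hev⟩

include hl

theorem use_branch {c : ℂ} {G : Polynomial (MvPolynomial (Fin 2) ℂ)}
    (hG : G = Polynomial.taylor (MvPolynomial.C c) G0) {J e E : ℤ}
    (hE : ∀ i, ∀ m ∈ (G.coeff i).support,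
      E ≤ 8 * (J - (m 0 : ℤ)) - 2 * (m 1 : ℤ) + e * i)
    {i1 : ℕ} (hi1 : rho φ G b J e E i1 ≠ 0) {y0 : L}
    (hy0 : ∑ i ∈ G.support, rho φ G b J e E i * y0 ^ i = 0) :
    (4 < e → D 0 (D 0 y0) = 0) ∧ (e = 4 → D 0 y0 = (D 1 y0) ^ 2 / 4) ∧
      (e < 4 → D 1 y0 = 0) := by
  obtain ⟨T, Y, y, hTb, hTD, hY, hconst, hy, h3, h4, _⟩ :=
    branch hDb hDc hDC hit hG hE hi1 hy0
  have hM := T.M_pos
  have h10 : (1 : Fin 2) ≠ 0 := by decide
  have hsum : (∑ k : Fin 2, if k = 0 then 0 else T.D k y0 ^ 2) = T.D 1 y0 ^ 2 := by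
    rw [Fin.sum_univ_two, if_pos rfl, if_neg h10, zero_add]
  have hc : ∀ i, T.dw 0 i (ic φ c) = 0 := fun i => hconst i c
  rw [← hTD]
  refine ⟨fun he => ?_, fun he => ?_, fun he => ?_⟩
  · by_contra hcon
    refine Inf.T1 hl h3 h4 hc hY hy ?_ h10 hcon
    nlinarith
  · by_contra hcon
    refine Inf.T2 hl h3 hc hY hy ?_ ?_
    · rw [he]
    · rw [hsum]
      exact sub_ne_zero.2 hcon
  · by_contra hcon
    refine Inf.T3 hl h3 hc hY hy ?_ ?_
    · nlinarith
    · rw [hsum]
      exact pow_ne_zero 2 hcon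

end

end Run7.h978
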