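import Mathlib
import Pool.Agent.Run7.h978.Nfr7

set_option autoImplicit false
set_option linter.unusedSectionVars false

/-!
A degenerate case, and the coefficients after a translation.
-/

namespace Run7.h978

theorem Lead.pow {L : Type} [Field L] {m : ℤ} {h : FK L} {c : L} (H : Lead m h c) (k : ℕ) :
    Lead (k * m) (h ^ k) (c ^ k) := by
  induction k with
  | zero =>
    exact (lead_vs (L := L) 0).cast (by simp) (by simp) (by simp)
  | succ k ih =>
    exact (ih.mul H).cast (by push_cast; ring) (pow_succ h k).symm (pow_succ c k).symm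

section

variable {L : Type} [Field L] [Algebra ℝ L] [CharZero L] [IsAlgClosed L]

variable {φ : ℂ →+* L} {b : Fin 2 → L} {D : Fin 2 → Derivation ℝ L L}
  (hDb : ∀ i k, D i (b k) = if i = k then 1 else 0) (hDc : ∀ i k x, D i (D k x) = D k (D i x))
  (hDC : ∀ i (c : ℂ), D i (φ c) = 0) {l : List ℝ} (hl : ∀ μ ∈ l, μ ≠ 0)
  {G0 : Polynomial (MvPolynomial (Fin 2) ℂ)} (hit : Hit φ b D l G0)

include hDb hDc hDC hit hl

theorem no_four {c : ℂ} {G : Polynomial (MvPolynomial (Fin 2) ℂ)}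
    (hG : G = Polynomial.taylor (MvPolynomial.C c) G0) {J : ℤ}
    (hE : ∀ i, ∀ m ∈ (G.coeff i).support,
      -8 ≤ 8 * (J - (m 0 : ℤ)) - 2 * (m 1 : ℤ) + (-4) * i)
    (hE2 : ∀ i, ∀ m ∈ (G.coeff i).support, m 1 ≠ 0 →
      -2 ≤ 8 * (J - (m 0 : ℤ)) - 2 * (m 1 : ℤ) + (-4) * i)
    {i1 : ℕ} (hi1 : rho φ G b J (-4) (-8) i1 ≠ 0) {y0 : L}
    (hy0 : ∑ i ∈ G.support, rho φ G b J (-4) (-8) i * y0 ^ i = 0) (hD0 : D 0 y0 ≠ 0)
    (hA : ∑ i ∈ G.support, rho φ G b J (-4) (-8) i * (i * y0 ^ (i - 1)) ≠ 0) : False := by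
  classical
  obtain ⟨T, Y, y, hTb, hTD, hY, hconst, hy, h3, h4, hev⟩ :=
    branch hDb hDc hDC hit hG hE hi1 hy0
  have hM := T.M_pos
  have h10 : (1 : Fin 2) ≠ 0 := by decide
  have hc : ∀ i, T.dw 0 i (ic φ c) = 0 := fun i => hconst i c
  rw [← hTD] at hD0
  set v := T.xw 0 0 with hv
  set z := T.xw 0 1 with hz
  have hvl : Lead (-(8 * (T.M : ℤ))) v (b 0) := by
    have h1 := T.lead_xw 0 0
    rw [Inf.wt_self, hTb] at h1
    exact h1
  have hzl : Lead (-(2 * (T.M : ℤ))) z (b 1) := by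
    have h1 := T.lead_xw 0 1
    rw [Inf.wt_ne 0 h10, hTb] at h1
    exact h1
  have hdv : T.dw 0 1 v = 0 := by
    rw [hv, T.dw_xw, if_neg h10]
  have hdz : T.dw 0 1 z = 1 := by
    rw [hz, T.dw_xw, if_pos rfl]
  set A : FK L := ∑ i ∈ G.support, ∑ m ∈ (G.coeff i).support,
    ic φ ((G.coeff i).coeff m) * (v ^ m 0 * z ^ m 1) * (i * y ^ (i - 1)) with hAdef
  set B : FK L := ∑ i ∈ G.support, ∑ m ∈ (G.coeff i).support,
    ic φ ((G.coeff i).coeff m) * (v ^ m 0 * (m 1 * z ^ (m 1 - 1))) * y ^ i with hBdef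
  have hAB : A * T.dw 0 1 y + B = 0 := by
    have h5 := congrArg (T.dw 0 1) hev
    rw [map_zero, evG_eq, map_sum] at h5
    rw [← h5, hAdef, hBdef, Finset.sum_mul, ← Finset.sum_add_distrib]
    refine Finset.sum_congr rfl fun i _ => ?_
    rw [map_sum, Finset.sum_mul, ← Finset.sum_add_distrib]
    refine Finset.sum_congr rfl fun m _ => ?_
    rw [Derivation.leibniz, Derivation.leibniz, hconst, Derivation.leibniz,
      Derivation.leibniz_pow, Derivation.leibniz_pow, Derivation.leibniz_pow, hdv, hdz]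
    simp only [smul_eq_mul, nsmul_eq_mul, smul_zero, add_zero, mul_zero, mul_one, nsmul_zero,
      zero_add]
    ring
  have hAl : Lead ((T.M : ℤ) * (-8 - 8 * J + 4)) A
      (∑ i ∈ G.support, rho φ G b J (-4) (-8) i * (i * y0 ^ (i - 1))) := by
    refine Lead.sum _ fun i _ => ?_
    rw [rho, Finset.sum_mul, Finset.sum_filter]
    refine Lead.sum _ fun m hm => ?_
    rcases Nat.eq_zero_or_pos i with hi | hi
    · rw [hi]
      refine (Lead.zero _).cast rfl (by simp) ?_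
      split <;> simp
    obtain ⟨k, rfl⟩ : ∃ k, i = k + 1 := ⟨i - 1, by omega⟩
    have h5 := hE (k + 1) m hm
    have h6 : Lead (-((T.M : ℤ) * (8 * (m 0 : ℤ) + 2 * (m 1 : ℤ) + 4 * (k : ℤ))))
        (ic φ ((G.coeff (k + 1)).coeff m) * (v ^ m 0 * z ^ m 1) *
          (((k + 1 : ℕ) : FK L) * y ^ (k + 1 - 1)))
        (φ ((G.coeff (k + 1)).coeff m) * (b 0 ^ m 0 * b 1 ^ m 1) *
          (((k + 1 : ℕ) : L) * y0 ^ (k + 1 - 1))) := by
      refine (((lead_C (φ ((G.coeff (k + 1)).coeff m))).mul ((hvl.pow (m 0)).mul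
        (hzl.pow (m 1)))).mul ((lead_natCast (L := L) (k + 1)).mul
          (hy.pow (k + 1 - 1)))).cast ?_ rfl rfl
      rw [Nat.add_sub_cancel]
      ring
    split
    · rename_i h7
      refine h6.cast ?_ rfl rfl
      push_cast at h7
      have h8 : 8 * (m 0 : ℤ) + 2 * (m 1 : ℤ) + 4 * (k : ℤ) = 8 + 8 * J - 4 := by linarith
      rw [h8]
      ring
    · rename_i h7
      refine h6.vl.lead0 ?_
      push_cast at h5 h7
      have h8 : 8 * (m 0 : ℤ) + 2 * (m 1 : ℤ) + 4 * (k : ℤ) + 1 ≤ 8 + 8 * J - 4 := by omega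
      nlinarith
  have hBl : VL (-((T.M : ℤ) * (8 * J))) B := by
    refine VL.sum _ fun i _ => VL.sum _ fun m hm => ?_
    rcases Nat.eq_zero_or_pos (m 1) with hi | hi
    · rw [hi]
      simp only [Nat.cast_zero, zero_mul, mul_zero]
      exact (Lead.zero _).vl
    have h5 := hE2 i m hm (by omega)
    have h6 : Lead (-((T.M : ℤ) * (8 * (m 0 : ℤ) + 2 * ((m 1 - 1 : ℕ) : ℤ) + 4 * (i : ℤ))))
        (ic φ ((G.coeff i).coeff m) * (v ^ m 0 * ((m 1 : FK L) * z ^ (m 1 - 1))) * y ^ i)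
        (φ ((G.coeff i).coeff m) * (b 0 ^ m 0 * ((m 1 : L) * b 1 ^ (m 1 - 1))) * y0 ^ i) := by
      refine (((lead_C (φ ((G.coeff i).coeff m))).mul ((hvl.pow (m 0)).mul
        ((lead_natCast (L := L) (m 1)).mul (hzl.pow (m 1 - 1))))).mul (hy.pow i)).cast ?_ rfl rfl
      ring
    refine h6.vl.mono ?_
    have h8 : 8 * (m 0 : ℤ) + 2 * ((m 1 - 1 : ℕ) : ℤ) + 4 * (i : ℤ) ≤ 8 * J := by omega
    nlinarith
  have hA0 : A ≠ 0 := hAl.ne_zero hA
  have hdy : T.dw 0 1 y = -B / A := by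
    rw [eq_div_iff hA0]
    linear_combination hAB
  have hdyl : VL (2 * (T.M : ℤ) + 1) (T.dw 0 1 y) := by
    rw [hdy]
    refine (hBl.neg.div hAl hA).mono ?_
    nlinarith
  refine Inf.T4 hl h3 hc hY hy (by ring) hD0 fun k => ?_
  by_cases hk : k = 0
  · rw [hk, yk_eq]
    exact (Lead.zero _).vl
  · have hk1 : k = 1 := by omega
    rw [yk_ne hk, hk1, hY, map_add, hc, zero_add]
    exact hdyl

end

section

variable {G0 : Polynomial (MvPolynomial (Fin 2) ℂ)} (c : ℂ)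

theorem coeff_taylor' (n : ℕ) (m : Fin 2 →₀ ℕ) :
    ((Polynomial.taylor (MvPolynomial.C c) G0).coeff n).coeff m =
      ∑ i ∈ G0.support, (i.choose n : ℂ) * c ^ (i - n) * (G0.coeff i).coeff m := by
  rw [Polynomial.taylor_coeff, Polynomial.hasseDeriv_apply, Polynomial.sum,
    Polynomial.eval_finsetSum, MvPolynomial.coeff_sum]
  refine Finset.sum_congr rfl fun i _ => ?_
  rw [Polynomial.eval_monomial, ← MvPolynomial.C_pow]
  have h1 : ((i.choose n : ℕ) : MvPolynomial (Fin 2) ℂ) * G0.coeff i *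
      MvPolynomial.C (c ^ (i - n)) =
      MvPolynomial.C ((i.choose n : ℂ) * c ^ (i - n)) * G0.coeff i := by
    rw [map_mul, map_natCast]
    ring
  rw [h1, MvPolynomial.coeff_C_mul]

theorem sum_two_sets {F : ℕ → ℂ} {S A : Finset ℕ} (hS : ∀ i, i ∉ S → F i = 0)
    (hA : ∀ i, i ∉ A → F i = 0) : ∑ i ∈ S, F i = ∑ i ∈ A, F i := by
  classical
  rw [Finset.sum_subset (Finset.subset_union_left (s₁ := S) (s₂ := A)) fun i _ hi => hS i hi,
    ← Finset.sum_subset (Finset.subset_union_right (s₁ := S) (s₂ := A)) fun i _ hi => hA i hi]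

variable {Dg : ℕ} (hdeg : ∀ i m, (G0.coeff i).coeff m ≠ 0 → i + m 0 + m 1 ≤ Dg)

include hdeg

theorem taylor_sum (n : ℕ) (m : Fin 2 →₀ ℕ) (A : Finset ℕ)
    (hA : ∀ i, n ≤ i → i + m 0 + m 1 ≤ Dg → i ∈ A) :
    ((Polynomial.taylor (MvPolynomial.C c) G0).coeff n).coeff m =
      ∑ i ∈ A, (i.choose n : ℂ) * c ^ (i - n) * (G0.coeff i).coeff m := by
  rw [coeff_taylor']
  refine sum_two_sets (fun i hi => ?_) fun i hi => ?_
  · rw [Polynomial.notMem_support_iff.1 hi, MvPolynomial.coeff_zero, mul_zero]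
  · by_cases h1 : n ≤ i
    · by_cases h2 : (G0.coeff i).coeff m = 0
      · rw [h2, mul_zero]
      · exact absurd (hA i h1 (hdeg i m h2)) hi
    · rw [Nat.choose_eq_zero_of_lt (by omega), Nat.cast_zero, zero_mul, zero_mul]

theorem taylor_deg (n : ℕ) (m : Fin 2 →₀ ℕ)
    (h : ((Polynomial.taylor (MvPolynomial.C c) G0).coeff n).coeff m ≠ 0) :
    n + m 0 + m 1 ≤ Dg := by
  by_contra h1
  apply h
  rw [taylor_sum c hdeg n m ∅ (fun i h2 h3 => by omega), Finset.sum_empty]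

theorem taylor_top (n : ℕ) (m : Fin 2 →₀ ℕ) (h : n + m 0 + m 1 = Dg) :
    ((Polynomial.taylor (MvPolynomial.C c) G0).coeff n).coeff m = (G0.coeff n).coeff m := by
  rw [taylor_sum c hdeg n m {n} (fun i h2 h3 => by rw [Finset.mem_singleton]; omega),
    Finset.sum_singleton, Nat.choose_self, Nat.sub_self, pow_zero]
  push_cast
  ring

theorem taylor_one (n : ℕ) (m : Fin 2 →₀ ℕ) (h : n + m 0 + m 1 + 1 = Dg) :
    ((Polynomial.taylor (MvPolynomial.C c) G0).coeff n).coeff m =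
      (G0.coeff n).coeff m + (n + 1) * c * (G0.coeff (n + 1)).coeff m := by
  rw [taylor_sum c hdeg n m {n, n + 1} (fun i h2 h3 => by
    rw [Finset.mem_insert, Finset.mem_singleton]
    omega), Finset.sum_pair (by omega), Nat.choose_self, Nat.sub_self, pow_zero,
    Nat.choose_succ_self_right, Nat.add_sub_cancel_left, pow_one]
  push_cast
  ring

theorem taylor_two (m : Fin 2 →₀ ℕ) (h : m 0 + m 1 + 2 = Dg) :
    ((Polynomial.taylor (MvPolynomial.C c) G0).coeff 0).coeff m =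
      (G0.coeff 0).coeff m + c * (G0.coeff 1).coeff m + c ^ 2 * (G0.coeff 2).coeff m := by
  rw [taylor_sum c hdeg 0 m {0, 1, 2} (fun i h2 h3 => by
    rw [Finset.mem_insert, Finset.mem_insert, Finset.mem_singleton]
    omega), Finset.sum_insert (by decide), Finset.sum_pair (by decide)]
  simp only [Nat.choose_zero_right, Nat.cast_one, Nat.sub_zero, pow_zero, pow_one, one_mul]
  ring

end

end Run7.h978
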