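import Mathlib
import Pool.Agent.Run7.h978.Nfr8

set_option autoImplicit false
set_option linter.unusedSectionVars false

/-!
The case of a simple isotropic linear factor.
-/

namespace Run7.h978

/-- exponents -/
noncomputable def mk2 (j k : ℕ) : Fin 2 →₀ ℕ := Finsupp.equivFunOnFinite.symm ![j, k]

theorem mk2_zero (j k : ℕ) : mk2 j k 0 = j := rfl

theorem mk2_one (j k : ℕ) : mk2 j k 1 = k := rfl

theorem eq_mk2 {m : Fin 2 →₀ ℕ} {j k : ℕ} (h0 : m 0 = j) (h1 : m 1 = k) : m = mk2 j k := by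
  ext i
  fin_cases i
  · exact h0
  · exact h1

theorem sum_two_sets' {A : Type*} [AddCommMonoid A] {F : ℕ → A} {S T : Finset ℕ}
    (hS : ∀ i, i ∉ S → F i = 0) (hT : ∀ i, i ∉ T → F i = 0) :
    ∑ i ∈ S, F i = ∑ i ∈ T, F i := by
  classical
  rw [Finset.sum_subset (Finset.subset_union_left (s₁ := S) (s₂ := T)) fun i _ hi => hS i hi,
    ← Finset.sum_subset (Finset.subset_union_right (s₁ := S) (s₂ := T)) fun i _ hi => hT i hi]

section

variable {L : Type} [Field L] {φ : ℂ →+* L} {b : Fin 2 → L}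
  {G : Polynomial (MvPolynomial (Fin 2) ℂ)} {J e E : ℤ}

theorem rho_zero {i : ℕ} (h : ∀ m ∈ (G.coeff i).support,
    8 * (J - (m 0 : ℤ)) - 2 * (m 1 : ℤ) + e * i ≠ E) : rho φ G b J e E i = 0 := by
  rw [rho, Finset.filter_false_of_mem h, Finset.sum_empty]

theorem rho_single {i : ℕ} (m' : Fin 2 →₀ ℕ) (h : ∀ m ∈ (G.coeff i).support,
    8 * (J - (m 0 : ℤ)) - 2 * (m 1 : ℤ) + e * i = E → m = m')
    (h' : 8 * (J - (m' 0 : ℤ)) - 2 * (m' 1 : ℤ) + e * i = E) :
    rho φ G b J e E i = φ ((G.coeff i).coeff m') * (b 0 ^ m' 0 * b 1 ^ m' 1) := by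
  classical
  by_cases h0 : (G.coeff i).coeff m' = 0
  · rw [h0, map_zero, zero_mul]
    apply rho_zero
    intro m hm h1
    have h2 := h m hm h1
    rw [h2, MvPolynomial.mem_support_iff] at hm
    exact hm h0
  · have h1 : (G.coeff i).support.filter
        (fun m => 8 * (J - (m 0 : ℤ)) - 2 * (m 1 : ℤ) + e * i = E) = {m'} := by
      ext m
      rw [Finset.mem_filter, Finset.mem_singleton]
      constructor
      · rintro ⟨h2, h3⟩
        exact h m h2 h3
      · rintro rfl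
        exact ⟨MvPolynomial.mem_support_iff.2 h0, h'⟩
    rw [rho, h1, Finset.sum_singleton]

theorem rho_notMem {i : ℕ} (h : i ∉ G.support) : rho φ G b J e E i = 0 := by
  apply rho_zero
  intro m hm
  rw [Polynomial.notMem_support_iff.1 h] at hm
  simp at hm

theorem sum012 (F : ℕ → L) (h : ∀ i, 3 ≤ i → rho φ G b J e E i = 0) :
    ∑ i ∈ G.support, rho φ G b J e E i * F i =
      rho φ G b J e E 0 * F 0 + rho φ G b J e E 1 * F 1 + rho φ G b J e E 2 * F 2 := by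
  rw [sum_two_sets' (T := {0, 1, 2}) (fun i hi => by rw [rho_notMem hi, zero_mul]) (fun i hi => by
    rw [Finset.mem_insert, Finset.mem_insert, Finset.mem_singleton] at hi
    rw [h i (by omega), zero_mul]), Finset.sum_insert (by decide), Finset.sum_pair (by decide)]
  ring

theorem rho_ne (hinj : ∀ p : MvPolynomial (Fin 2) ℂ, p.eval₂ φ b = 0 → p = 0) {i : ℕ}
    {m : Fin 2 →₀ ℕ} (hm : m ∈ (G.coeff i).support)
    (h : 8 * (J - (m 0 : ℤ)) - 2 * (m 1 : ℤ) + e * i = E) : rho φ G b J e E i ≠ 0 := by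
  classical
  intro h0
  set s := (G.coeff i).support.filter
    (fun m => 8 * (J - (m 0 : ℤ)) - 2 * (m 1 : ℤ) + e * i = E) with hs
  set p : MvPolynomial (Fin 2) ℂ := ∑ m ∈ s, MvPolynomial.monomial m ((G.coeff i).coeff m) with hp
  have h1 : p.eval₂ φ b = rho φ G b J e E i := by
    rw [hp, rho, ← hs, MvPolynomial.eval₂_sum]
    refine Finset.sum_congr rfl fun m _ => ?_
    rw [MvPolynomial.eval₂_monomial, Finsupp.prod_fintype _ _ (fun _ => pow_zero _),
      Fin.prod_univ_two]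
  have h2 := hinj p (h1.trans h0)
  have h3 : p.coeff m = (G.coeff i).coeff m := by
    rw [hp, MvPolynomial.coeff_sum]
    simp only [MvPolynomial.coeff_monomial]
    rw [Finset.sum_ite_eq', if_pos]
    rw [hs, Finset.mem_filter]
    exact ⟨hm, h⟩
  rw [h2, MvPolynomial.coeff_zero] at h3
  exact (MvPolynomial.mem_support_iff.1 hm) h3.symm

end

section

variable {L : Type} [Field L] [Algebra ℝ L] [CharZero L] [IsAlgClosed L]

variable {φ : ℂ →+* L} {b : Fin 2 → L} {D : Fin 2 → Derivation ℝ L L}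
  (hDb : ∀ i k, D i (b k) = if i = k then 1 else 0) (hDc : ∀ i k x, D i (D k x) = D k (D i x))
  (hDC : ∀ i (c : ℂ), D i (φ c) = 0)
  (hinj : ∀ p : MvPolynomial (Fin 2) ℂ, p.eval₂ φ b = 0 → p = 0)
  {l : List ℝ} (hl : ∀ μ ∈ l, μ ≠ 0)
  {G0 : Polynomial (MvPolynomial (Fin 2) ℂ)} (hit : Hit φ b D l G0)

include hDb hDc hDC in
theorem exists_inf : ∃ T : Inf 2 L, T.b = b ∧ T.D = D ∧ ∀ i (c : ℂ), T.dw 0 i (ic φ c) = 0 := by
  choose E' hE' using fun i => exists_frD (D i)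
  obtain ⟨S, hS⟩ := exists_Es (L := L)
  refine ⟨⟨b, D, hDb, hDc, 1, one_ne_zero, E', hE', S, hS⟩, rfl, rfl, fun i c => ?_⟩
  rw [Inf.dw_apply, ic_apply]
  show _ * E' i (io (PowerSeries.C (φ c))) = 0
  have h1 : E' i (io (PowerSeries.C (φ c))) = io (psD (D i) (PowerSeries.C (φ c))) := hE' i _
  rw [h1, psD_C, hDC, map_zero, map_zero, mul_zero]

include hDb hDc hDC hit in
theorem coeff_zero_ne {c : ℂ} {G : Polynomial (MvPolynomial (Fin 2) ℂ)}
    (hG : G = Polynomial.taylor (MvPolynomial.C c) G0) : (G.coeff 0).support.Nonempty := by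
  rw [Finset.nonempty_iff_ne_empty]
  intro h
  rw [MvPolynomial.support_eq_empty] at h
  obtain ⟨T, hTb, hTD, hconst⟩ := exists_inf hDb hDc hDC
  have h1 : evG φ G0 (ic φ c) (T.xw 0 0) (T.xw 0 1) = 0 := by
    have h2 := evG_taylor (φ := φ) (G0 := G0) c 0 (T.xw 0 0) (T.xw 0 1)
    rw [add_zero] at h2
    rw [← h2, ← hG, evG, ← Polynomial.eval_map, ← Polynomial.coeff_zero_eq_eval_zero,
      Polynomial.coeff_map, h, map_zero]
  obtain ⟨h2, _⟩ := hit T hTb hTD _ h1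
  apply h2
  rw [dn, hconst]
  have h3 : ∀ i, yk (T.dw 0) 0 (ic φ c) i = 0 := by
    intro i
    rw [yk]
    split
    · rfl
    · exact hconst i c
  simp [h3]

include hDb in
theorem b_ne' (i : Fin 2) : b i ≠ 0 := by
  intro h
  have h1 := hDb i i
  rw [h, map_zero, if_pos rfl] at h1
  exact zero_ne_one h1

include hDb in
theorem D0_b1pow (k : ℕ) : D 0 (b 1 ^ k) = 0 := by
  rw [Derivation.leibniz_pow, hDb, if_neg (by decide), smul_zero, smul_zero]

include hDb hDC in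
theorem neg_rho {G : Polynomial (MvPolynomial (Fin 2) ℂ)} {J e E : ℤ} {i : ℕ} {N : ℕ}
    (hN : ∀ m ∈ (G.coeff i).support, m 0 < N) {lam : L} (hlam : D 0 lam = 0) :
    Neg (D 0) (b 0) (rho φ G b J e E i / (lam * b 0 ^ N)) := by
  have h1 := neg_sum (D := D 0) (b := b 0) (b_ne' hDb 0)
    ((G.coeff i).support.filter
      (fun m => 8 * (J - (m 0 : ℤ)) - 2 * (m 1 : ℤ) + e * i = E))
    (c := fun m => φ ((G.coeff i).coeff m) * b 1 ^ m 1) (fun m _ => by
      rw [Derivation.leibniz, hDC, D0_b1pow hDb, smul_zero, smul_zero, add_zero])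
    (k := fun m => m 0) (J := N) (fun m hm => hN m (Finset.mem_filter.1 hm).1) hlam
  have h2 : rho φ G b J e E i = ∑ m ∈ (G.coeff i).support.filter
      (fun m => 8 * (J - (m 0 : ℤ)) - 2 * (m 1 : ℤ) + e * i = E),
        φ ((G.coeff i).coeff m) * b 1 ^ m 1 * b 0 ^ m 0 := by
    rw [rho]
    refine Finset.sum_congr rfl fun m _ => ?_
    ring
  rw [h2]
  exact h1

theorem Neg.neg {D : Derivation ℝ L L} {b a : L} (h : Neg D b a) : Neg D b (-a) := by
  obtain ⟨S, p, hp, hpS, hpe⟩ := h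
  refine ⟨S, -p, fun s => ?_, ?_, ?_⟩
  · rw [Polynomial.coeff_neg, map_neg, hp, neg_zero]
  · rw [Polynomial.natDegree_neg]
    exact hpS
  · rw [Polynomial.eval_neg, ← hpe]
    ring

include hDb hDc hDC hit hl hinj

/-- the linear case -/
theorem lin_case {c : ℂ} {G : Polynomial (MvPolynomial (Fin 2) ℂ)}
    (hG : G = Polynomial.taylor (MvPolynomial.C c) G0) {J e E : ℤ}
    (hE : ∀ i, ∀ m ∈ (G.coeff i).support,
      E ≤ 8 * (J - (m 0 : ℤ)) - 2 * (m 1 : ℤ) + e * i)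
    {m1 : Fin 2 →₀ ℕ} (hm1 : m1 ∈ (G.coeff 0).support)
    (hm1E : 8 * (J - (m1 0 : ℤ)) - 2 * (m1 1 : ℤ) = E)
    (h2 : ∀ i, 2 ≤ i → ∀ m ∈ (G.coeff i).support,
      8 * (J - (m 0 : ℤ)) - 2 * (m 1 : ℤ) + e * i ≠ E)
    {m' : Fin 2 →₀ ℕ} (h : ∀ m ∈ (G.coeff 1).support,
      8 * (J - (m 0 : ℤ)) - 2 * (m 1 : ℤ) + e = E → m = m')
    (h' : 8 * (J - (m' 0 : ℤ)) - 2 * (m' 1 : ℤ) + e = E) (hm' : (G.coeff 1).coeff m' ≠ 0)
    (hN : ∀ m ∈ (G.coeff 0).support, m 0 < m' 0) (he : 4 < e) : False := by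
  have hb0 := b_ne' hDb 0
  have hb1 := b_ne' hDb 1
  have hφ : φ ((G.coeff 1).coeff m') ≠ 0 := fun h => hm' ((map_eq_zero φ).1 h)
  have hr0 : rho φ G b J e E 0 ≠ 0 := rho_ne hinj hm1 (by
    rw [Nat.cast_zero, mul_zero, add_zero]
    exact hm1E)
  have hr1 : rho φ G b J e E 1 = φ ((G.coeff 1).coeff m') * (b 0 ^ m' 0 * b 1 ^ m' 1) :=
    rho_single m' (fun m hm hm2 => h m hm (by simpa using hm2)) (by simpa using h')
  have hr2 : ∀ i, 2 ≤ i → rho φ G b J e E i = 0 := fun i hi => rho_zero (h2 i hi)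
  have hr1' : rho φ G b J e E 1 ≠ 0 := by
    rw [hr1]
    exact mul_ne_zero hφ (mul_ne_zero (pow_ne_zero _ hb0) (pow_ne_zero _ hb1))
  set y0 := -(rho φ G b J e E 0 / rho φ G b J e E 1) with hy0
  have hy00 : y0 ≠ 0 := neg_ne_zero.2 (div_ne_zero hr0 hr1')
  have hsum : ∑ i ∈ G.support, rho φ G b J e E i * y0 ^ i = 0 := by
    rw [sum012 (fun i => y0 ^ i) (fun i hi => hr2 i (by omega)), hr2 2 le_rfl, hy0]
    field_simp
    ring
  have h3 := (use_branch hDb hDc hDC hl hit hG hE hr1' hsum).1 he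
  apply hy00
  refine neg_linear (D := D 0) (b := b 0) (by rw [hDb, if_pos rfl]) ?_ h3
  rw [hy0, hr1]
  have h4 : φ ((G.coeff 1).coeff m') * (b 0 ^ m' 0 * b 1 ^ m' 1) =
      φ ((G.coeff 1).coeff m') * b 1 ^ m' 1 * b 0 ^ m' 0 := by ring
  rw [h4]
  refine (neg_rho hDb hDC hN ?_).neg
  rw [Derivation.leibniz, hDC, D0_b1pow hDb, smul_zero, smul_zero, add_zero]

/-- a simple zero -/
theorem no_simple {J : ℕ} (hdeg : ∀ i m, (G0.coeff i).coeff m ≠ 0 → i + m 0 + m 1 ≤ J + 1)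
    (hC0 : ∀ m, (G0.coeff 0).coeff m ≠ 0 → m 0 + m 1 ≤ J)
    (hγ : (G0.coeff 1).coeff (mk2 J 0) ≠ 0) : False := by
  set γ := (G0.coeff 1).coeff (mk2 J 0) with hγd
  set c : ℂ := -(G0.coeff 0).coeff (mk2 J 0) / γ with hc
  set G := Polynomial.taylor (MvPolynomial.C c) G0 with hG
  have gdeg := taylor_deg c hdeg
  have gC0 : ∀ m, (G.coeff 0).coeff m ≠ 0 → m 0 + m 1 ≤ J := by
    intro m hm
    have h1 := gdeg 0 m hm
    by_contra h2
    rw [hG, taylor_top c hdeg 0 m (by omega)] at hm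
    exact h2 (hC0 m hm)
  have g1 : (G.coeff 1).coeff (mk2 J 0) = γ :=
    taylor_top c hdeg 1 (mk2 J 0) (by rw [mk2_zero, mk2_one]; omega)
  have g0 : (G.coeff 0).coeff (mk2 J 0) = 0 := by
    rw [hG, taylor_one c hdeg 0 (mk2 J 0) (by rw [mk2_zero, mk2_one]; omega), hc]
    rw [zero_add, ← hγd]
    push_cast
    field_simp
    ring
  have gC0' : ∀ m ∈ (G.coeff 0).support, m 0 < J := by
    intro m hm
    rw [MvPolynomial.mem_support_iff] at hm
    have h1 := gC0 m hm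
    by_contra h2
    apply hm
    rw [eq_mk2 (show m 0 = J by omega) (show m 1 = 0 by omega)]
    exact g0
  obtain ⟨m1, hm1, hmin⟩ := Finset.exists_min_image (G.coeff 0).support
    (fun m => 8 * ((J : ℤ) - (m 0 : ℤ)) - 2 * (m 1 : ℤ))
    (coeff_zero_ne hDb hDc hDC hit hG)
  have hm1' := gC0' m1 hm1
  have hm1'' := gC0 m1 (MvPolynomial.mem_support_iff.1 hm1)
  set μ : ℤ := 8 * ((J : ℤ) - (m1 0 : ℤ)) - 2 * (m1 1 : ℤ) with hμ
  have hμ6 : 6 ≤ μ := by omega
  refine lin_case hDb hDc hDC hinj hl hit hG (J := J) (e := μ) (E := μ) ?_ hm1 hμ.symm ?_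
    (m' := mk2 J 0) ?_ ?_ ?_ ?_ (by omega)
  · intro i m hm
    have h1 := gdeg i m (MvPolynomial.mem_support_iff.1 hm)
    rcases Nat.eq_zero_or_pos i with rfl | hi
    · have := hmin m hm
      simpa using this
    · have h3 : μ * 1 ≤ μ * (i : ℤ) := by
        apply mul_le_mul_of_nonneg_left _ (by omega)
        exact_mod_cast hi
      omega
  · intro i hi m hm h4
    have h1 := gdeg i m (MvPolynomial.mem_support_iff.1 hm)
    have h3 : μ * 2 ≤ μ * (i : ℤ) := by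
      apply mul_le_mul_of_nonneg_left _ (by omega)
      exact_mod_cast hi
    omega
  · intro m hm h4
    have h1 := gdeg 1 m (MvPolynomial.mem_support_iff.1 hm)
    exact eq_mk2 (by omega) (by omega)
  · rw [mk2_zero, mk2_one]
    push_cast
    ring
  · rw [g1]
    exact hγ
  · intro m hm
    rw [mk2_zero]
    exact gC0' m hm

end

end Run7.h978
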