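import Mathlib
import Pool.Agent.Run7.h978.Nfr9

set_option autoImplicit false
set_option linter.unusedSectionVars false

/-!
The case of a double zero.
-/

namespace Run7.h978

section

variable {L : Type} [Field L] [Algebra ℝ L] [CharZero L] [IsAlgClosed L]

variable {φ : ℂ →+* L} {b : Fin 2 → L} {D : Fin 2 → Derivation ℝ L L}
  (hDb : ∀ i k, D i (b k) = if i = k then 1 else 0) (hDc : ∀ i k x, D i (D k x) = D k (D i x))
  (hDC : ∀ i (c : ℂ), D i (φ c) = 0)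
  (hinj : ∀ p : MvPolynomial (Fin 2) ℂ, p.eval₂ φ b = 0 → p = 0)
  {l : List ℝ} (hl : ∀ μ ∈ l, μ ≠ 0)
  {G0 : Polynomial (MvPolynomial (Fin 2) ℂ)} (hit : Hit φ b D l G0)

include hDb hDc hDC hit hl

theorem quad_low {c : ℂ} {G : Polynomial (MvPolynomial (Fin 2) ℂ)}
    (hG : G = Polynomial.taylor (MvPolynomial.C c) G0) {J e E : ℤ}
    (hE : ∀ i, ∀ m ∈ (G.coeff i).support,
      E ≤ 8 * (J - (m 0 : ℤ)) - 2 * (m 1 : ℤ) + e * i)
    (h3 : ∀ i, 3 ≤ i → rho φ G b J e E i = 0) (h1 : rho φ G b J e E 1 = 0) {γ a : ℂ}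
    (hγ : γ ≠ 0) (ha : a ≠ 0) {j k N : ℕ} (hk : k ≠ 0)
    (h0 : rho φ G b J e E 0 = φ a * (b 0 ^ j * b 1 ^ k))
    (h2 : rho φ G b J e E 2 = φ γ * b 0 ^ N) (he : e < 4) : False := by
  have hb0 := b_ne' hDb 0
  have hb1 := b_ne' hDb 1
  have hφγ : φ γ ≠ 0 := fun h => hγ ((map_eq_zero φ).1 h)
  have hφa : φ a ≠ 0 := fun h => ha ((map_eq_zero φ).1 h)
  have hr2 : rho φ G b J e E 2 ≠ 0 := by
    rw [h2]
    exact mul_ne_zero hφγ (pow_ne_zero _ hb0)
  obtain ⟨y0, hy0⟩ := IsAlgClosed.exists_pow_nat_eq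
    (-(rho φ G b J e E 0 / rho φ G b J e E 2)) two_pos
  have hy : rho φ G b J e E 2 * y0 ^ 2 + rho φ G b J e E 0 = 0 := by
    rw [hy0]
    field_simp
    ring
  have hsum : ∑ i ∈ G.support, rho φ G b J e E i * y0 ^ i = 0 := by
    rw [sum012 (fun i => y0 ^ i) h3, h1]
    linear_combination hy
  have h4 := (use_branch hDb hDc hDC hl hit hG hE hr2 hsum).2.2 he
  rw [h2, h0] at hy
  have h5 := congrArg (D 1) hy
  rw [map_zero, map_add, Derivation.leibniz, Derivation.leibniz, Derivation.leibniz,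
    Derivation.leibniz, Derivation.leibniz_pow, Derivation.leibniz_pow, Derivation.leibniz_pow,
    Derivation.leibniz_pow, h4, hDC, hDC, hDb, hDb, if_neg (by decide), if_pos rfl] at h5
  simp only [smul_eq_mul, nsmul_eq_mul, mul_zero, smul_zero, zero_add, add_zero, mul_one] at h5
  have hk' : (k : L) ≠ 0 := Nat.cast_ne_zero.2 hk
  exact mul_ne_zero hφa (mul_ne_zero (pow_ne_zero _ hb0) (mul_ne_zero hk'
    (pow_ne_zero _ hb1))) h5

theorem quad4 {c : ℂ} {G : Polynomial (MvPolynomial (Fin 2) ℂ)}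
    (hG : G = Polynomial.taylor (MvPolynomial.C c) G0) {J E : ℤ}
    (hE : ∀ i, ∀ m ∈ (G.coeff i).support,
      E ≤ 8 * (J - (m 0 : ℤ)) - 2 * (m 1 : ℤ) + 4 * i)
    (h3 : ∀ i, 3 ≤ i → rho φ G b J 4 E i = 0) {γ a mm : ℂ}
    (hγ : γ ≠ 0) (ha : a ≠ 0) (hmm : mm ^ 2 = mm) {j : ℕ}
    (h0 : rho φ G b J 4 E 0 = φ a * b 0 ^ j)
    (h1 : rho φ G b J 4 E 1 = φ (mm * γ) * (b 0 ^ j * b 1 ^ 2))
    (h2 : rho φ G b J 4 E 2 = φ γ * b 0 ^ (j + 1)) : False := by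
  have hb0 := b_ne' hDb 0
  have hb1 := b_ne' hDb 1
  have hφγ : φ γ ≠ 0 := fun h => hγ ((map_eq_zero φ).1 h)
  have hφa : φ a ≠ 0 := fun h => ha ((map_eq_zero φ).1 h)
  have hr2 : rho φ G b J 4 E 2 ≠ 0 := by
    rw [h2]
    exact mul_ne_zero hφγ (pow_ne_zero _ hb0)
  obtain ⟨y0, hy0⟩ : ∃ y0 : L, rho φ G b J 4 E 2 * y0 ^ 2 + rho φ G b J 4 E 1 * y0 +
      rho φ G b J 4 E 0 = 0 := by
    have h5 : (Polynomial.C (rho φ G b J 4 E 2) * Polynomial.X ^ 2 +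
        Polynomial.C (rho φ G b J 4 E 1) * Polynomial.X +
        Polynomial.C (rho φ G b J 4 E 0)).degree ≠ 0 := by
      rw [Polynomial.degree_quadratic hr2]
      decide
    obtain ⟨y0, hy0⟩ := IsAlgClosed.exists_root _ h5
    refine ⟨y0, ?_⟩
    simpa using hy0
  have hsum : ∑ i ∈ G.support, rho φ G b J 4 E i * y0 ^ i = 0 := by
    rw [sum012 (fun i => y0 ^ i) h3]
    linear_combination hy0
  have h4 := (use_branch hDb hDc hDC hl hit hG hE hr2 hsum).2.1 rfl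
  rw [h2, h1, h0, map_mul] at hy0
  set m := φ mm with hm
  have hm2 : m ^ 2 = m := by
    rw [hm, ← map_pow, hmm]
  set k := φ a / φ γ with hk
  have hk0 : k ≠ 0 := div_ne_zero hφa hφγ
  have hy : b 0 * y0 ^ 2 + m * b 1 ^ 2 * y0 + k = 0 := by
    have h5 : φ γ * b 0 ^ j * (b 0 * y0 ^ 2 + m * b 1 ^ 2 * y0 + k) = 0 := by
      rw [← hy0, hk]
      field_simp
      ring
    exact (mul_eq_zero.1 h5).resolve_left (mul_ne_zero hφγ (pow_ne_zero _ hb0))
  have hDm : ∀ i, D i m = 0 := fun i => hDC i mm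
  have hDk : ∀ i, D i k = 0 := by
    intro i
    rw [hk, Derivation.leibniz_div, hDC, hDC, smul_zero, smul_zero, sub_zero, smul_zero]
  have e0 := congrArg (D 0) hy
  have e1 := congrArg (D 1) hy
  simp only [map_zero, map_add, Derivation.leibniz, Derivation.leibniz_pow, hDm, hDk, hDb,
    smul_eq_mul, nsmul_eq_mul, mul_zero, smul_zero, zero_add, add_zero, if_true] at e0 e1
  rw [if_neg (by decide)] at e0 e1
  push_cast at e0 e1
  set S := 2 * b 0 * y0 + m * b 1 ^ 2 with hS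
  have f0 : S * D 0 y0 = -y0 ^ 2 := by
    rw [hS]
    linear_combination e0
  have f1 : S * D 1 y0 = -(2 * m * b 1 * y0) := by
    rw [hS]
    linear_combination e1
  have hy00 : y0 ≠ 0 := by
    intro h
    rw [h] at hy
    apply hk0
    linear_combination hy
  have h4' : 4 * D 0 y0 = D 1 y0 ^ 2 := by
    rw [h4]
    ring
  have f2 : y0 ^ 2 * (S + m ^ 2 * b 1 ^ 2) = 0 := by
    have f3 : 4 * (S ^ 2 * D 0 y0) = (S * D 1 y0) ^ 2 := by
      linear_combination S ^ 2 * h4'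
    have f4 : S ^ 2 * D 0 y0 = S * -y0 ^ 2 := by
      rw [← f0]
      ring
    rw [f4, f1] at f3
    have f5 : (4 : L) * (y0 ^ 2 * (S + m ^ 2 * b 1 ^ 2)) = 0 := by linear_combination -f3
    exact (mul_eq_zero.1 f5).resolve_left (by norm_num)
  have f6 : S + m ^ 2 * b 1 ^ 2 = 0 :=
    (mul_eq_zero.1 f2).resolve_left (pow_ne_zero 2 hy00)
  rw [hm2, hS] at f6
  have f7 : b 0 * y0 + m * b 1 ^ 2 = 0 := by
    have f8 : (2 : L) * (b 0 * y0 + m * b 1 ^ 2) = 0 := by linear_combination f6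
    exact (mul_eq_zero.1 f8).resolve_left two_ne_zero
  apply hk0
  linear_combination hy - y0 * f7

theorem quad_high {c : ℂ} {G : Polynomial (MvPolynomial (Fin 2) ℂ)}
    (hG : G = Polynomial.taylor (MvPolynomial.C c) G0) {J e E : ℤ}
    (hE : ∀ i, ∀ m ∈ (G.coeff i).support,
      E ≤ 8 * (J - (m 0 : ℤ)) - 2 * (m 1 : ℤ) + e * i)
    (h3 : ∀ i, 3 ≤ i → rho φ G b J e E i = 0) (hr2 : rho φ G b J e E 2 ≠ 0)
    (h0 : Neg (D 0) (b 0) (rho φ G b J e E 0 / rho φ G b J e E 2))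
    (h1 : Neg (D 0) (b 0) (rho φ G b J e E 1 / rho φ G b J e E 2))
    (hne : rho φ G b J e E 0 ≠ 0 ∨ rho φ G b J e E 1 ≠ 0) (he : 4 < e) : False := by
  obtain ⟨y0, hy0, hy00⟩ : ∃ y0 : L, rho φ G b J e E 2 * y0 ^ 2 + rho φ G b J e E 1 * y0 +
      rho φ G b J e E 0 = 0 ∧ y0 ≠ 0 := by
    by_cases hr0 : rho φ G b J e E 0 = 0
    · have hr1 := hne.resolve_left (fun h => h hr0)
      refine ⟨-(rho φ G b J e E 1 / rho φ G b J e E 2), ?_, neg_ne_zero.2 (div_ne_zero hr1 hr2)⟩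
      rw [hr0]
      field_simp
      ring
    · have h5 : (Polynomial.C (rho φ G b J e E 2) * Polynomial.X ^ 2 +
          Polynomial.C (rho φ G b J e E 1) * Polynomial.X +
          Polynomial.C (rho φ G b J e E 0)).degree ≠ 0 := by
        rw [Polynomial.degree_quadratic hr2]
        decide
      obtain ⟨y0, hy0⟩ := IsAlgClosed.exists_root _ h5
      have hy0' : rho φ G b J e E 2 * y0 ^ 2 + rho φ G b J e E 1 * y0 +
          rho φ G b J e E 0 = 0 := by simpa using hy0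
      refine ⟨y0, hy0', ?_⟩
      rintro rfl
      apply hr0
      linear_combination hy0'
  have hsum : ∑ i ∈ G.support, rho φ G b J e E i * y0 ^ i = 0 := by
    rw [sum012 (fun i => y0 ^ i) h3]
    linear_combination hy0
  have h4 := (use_branch hDb hDc hDC hl hit hG hE hr2 hsum).1 he
  apply hy00
  refine neg_quad (D := D 0) (b := b 0) (by rw [hDb, if_pos rfl]) h1 h0 ?_ h4
  field_simp
  linear_combination hy0

end

/-- the normalized coefficients -/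
structure Nrm (G : Polynomial (MvPolynomial (Fin 2) ℂ)) (J : ℕ) (γ mm A κ : ℂ) : Prop where
  deg : ∀ i m, (G.coeff i).coeff m ≠ 0 → i + m 0 + m 1 ≤ J + 2
  c0 : ∀ m, (G.coeff 0).coeff m ≠ 0 → m 0 + m 1 ≤ J + 1 ∧ m 0 < J
  c1 : ∀ m, (G.coeff 1).coeff m ≠ 0 → m 0 + m 1 ≤ J ∨ 2 ≤ m 1
  mm' : ∀ m : Fin 2 →₀ ℕ, m 0 + 1 = J → m 1 = 2 → (G.coeff 1).coeff m = mm * γ
  γ' : (G.coeff 2).coeff (mk2 J 0) = γ
  A' : (G.coeff 1).coeff (mk2 J 0) = A
  κ' : ∀ m : Fin 2 →₀ ℕ, m 0 + 1 = J → m 1 = 2 → (G.coeff 0).coeff m = κ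
  γ0 : γ ≠ 0

section

variable {G : Polynomial (MvPolynomial (Fin 2) ℂ)} {J : ℕ} {γ mm A κ : ℂ} (h : Nrm G J γ mm A κ)

include h

theorem Nrm.v0 {m : Fin 2 →₀ ℕ} (hm : m ∈ (G.coeff 0).support) :
    6 * ((J : ℤ) - (m 0 : ℤ)) - 2 ≤ 8 * ((J : ℤ) - (m 0 : ℤ)) - 2 * (m 1 : ℤ) ∧
      (m 0 : ℤ) + 1 ≤ J := by
  have := h.c0 m (MvPolynomial.mem_support_iff.1 hm)
  omega

theorem Nrm.v1 {m : Fin 2 →₀ ℕ} (hm : m ∈ (G.coeff 1).support) :
    (m 0 = J ∧ m 1 = 0) ∨ (4 ≤ 8 * ((J : ℤ) - (m 0 : ℤ)) - 2 * (m 1 : ℤ) ∧ (m 0 : ℤ) + 1 ≤ J ∧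
      6 * ((J : ℤ) - (m 0 : ℤ)) - 2 ≤ 8 * ((J : ℤ) - (m 0 : ℤ)) - 2 * (m 1 : ℤ)) := by
  have h1 := h.c1 m (MvPolynomial.mem_support_iff.1 hm)
  have h2 := h.deg 1 m (MvPolynomial.mem_support_iff.1 hm)
  omega

theorem Nrm.v2 {i : ℕ} (hi : 2 ≤ i) {m : Fin 2 →₀ ℕ} (hm : m ∈ (G.coeff i).support) :
    0 ≤ 8 * ((J : ℤ) - (m 0 : ℤ)) - 2 * (m 1 : ℤ) ∧ (i = 2 →
      8 * ((J : ℤ) - (m 0 : ℤ)) - 2 * (m 1 : ℤ) = 0 → m 0 = J ∧ m 1 = 0) := by
  have h2 := h.deg i m (MvPolynomial.mem_support_iff.1 hm)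
  omega

end

section

variable {L : Type} [Field L] [Algebra ℝ L] [CharZero L] [IsAlgClosed L]

variable {φ : ℂ →+* L} {b : Fin 2 → L} {D : Fin 2 → Derivation ℝ L L}
  (hDb : ∀ i k, D i (b k) = if i = k then 1 else 0) (hDc : ∀ i k x, D i (D k x) = D k (D i x))
  (hDC : ∀ i (c : ℂ), D i (φ c) = 0)
  (hinj : ∀ p : MvPolynomial (Fin 2) ℂ, p.eval₂ φ b = 0 → p = 0)
  {l : List ℝ} (hl : ∀ μ ∈ l, μ ≠ 0)
  {G0 : Polynomial (MvPolynomial (Fin 2) ℂ)} (hit : Hit φ b D l G0)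

include hDb hDc hDC hit hl hinj

theorem double_a {c : ℂ} {G : Polynomial (MvPolynomial (Fin 2) ℂ)}
    (hG : G = Polynomial.taylor (MvPolynomial.C c) G0) {J : ℕ} {γ mm A κ : ℂ}
    (h : Nrm G J γ mm A κ) (hA : A ≠ 0) (hκ : κ ≠ A) : False := by
  obtain ⟨m1, hm1, hmin⟩ := Finset.exists_min_image (G.coeff 0).support
    (fun m => 8 * ((J : ℤ) - (m 0 : ℤ)) - 2 * (m 1 : ℤ))
    (coeff_zero_ne hDb hDc hDC hit hG)
  have hv0 := h.v0 hm1
  set μ : ℤ := 8 * ((J : ℤ) - (m1 0 : ℤ)) - 2 * (m1 1 : ℤ) with hμ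
  have hμ4 : 4 ≤ μ := by omega
  have hE : ∀ i, ∀ m ∈ (G.coeff i).support,
      μ ≤ 8 * ((J : ℤ) - (m 0 : ℤ)) - 2 * (m 1 : ℤ) + μ * i := by
    intro i m hm
    rcases Nat.lt_or_ge i 1 with hi | hi
    · obtain rfl : i = 0 := by omega
      have := hmin m hm
      simpa using this
    · have h3 : μ * 1 ≤ μ * (i : ℤ) := by
        apply mul_le_mul_of_nonneg_left _ (by omega)
        exact_mod_cast hi
      rcases Nat.lt_or_ge i 2 with hi2 | hi2
      · obtain rfl : i = 1 := by omega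
        have := h.v1 hm
        omega
      · have := (h.v2 hi2 hm).1
        omega
  have h2 : ∀ i, 2 ≤ i → ∀ m ∈ (G.coeff i).support,
      8 * ((J : ℤ) - (m 0 : ℤ)) - 2 * (m 1 : ℤ) + μ * i ≠ μ := by
    intro i hi m hm h4
    have h3 : μ * 2 ≤ μ * (i : ℤ) := by
      apply mul_le_mul_of_nonneg_left _ (by omega)
      exact_mod_cast hi
    have := (h.v2 hi hm).1
    omega
  have h1 : ∀ m ∈ (G.coeff 1).support,
      8 * ((J : ℤ) - (m 0 : ℤ)) - 2 * (m 1 : ℤ) + μ = μ → m = mk2 J 0 := by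
    intro m hm h4
    rcases h.v1 hm with h5 | h5
    · exact eq_mk2 h5.1 h5.2
    · omega
  rcases hμ4.lt_or_eq with hμ5 | hμ5
  · refine lin_case hDb hDc hDC hinj hl hit hG hE hm1 hμ.symm h2 h1 ?_ ?_ ?_ hμ5
    · rw [mk2_zero, mk2_one]
      push_cast
      ring
    · rw [h.A']
      exact hA
    · intro m hm
      rw [mk2_zero]
      exact (h.c0 m (MvPolynomial.mem_support_iff.1 hm)).2
  · -- the case of order four
    have hb0 := b_ne' hDb 0
    have hb1 := b_ne' hDb 1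
    have hm10 : m1 0 + 1 = J := by omega
    have hm11 : m1 1 = 2 := by omega
    have hr0 : rho φ G b J μ μ 0 = φ κ * (b 0 ^ m1 0 * b 1 ^ m1 1) := by
      rw [← h.κ' m1 hm10 hm11]
      refine rho_single m1 (fun m hm h4 => ?_) ?_
      · have h5 := h.v0 hm
        rw [Nat.cast_zero, mul_zero, add_zero] at h4
        rw [eq_mk2 (show m 0 = m1 0 by omega) (show m 1 = m1 1 by omega)]
        exact (eq_mk2 rfl rfl).symm
      · rw [Nat.cast_zero, mul_zero, add_zero]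
    have hκ0 : κ ≠ 0 := by
      rw [← h.κ' m1 hm10 hm11]
      exact MvPolynomial.mem_support_iff.1 hm1
    have hφκ : φ κ ≠ 0 := fun h => hκ0 ((map_eq_zero φ).1 h)
    have hφA : φ A ≠ 0 := fun h => hA ((map_eq_zero φ).1 h)
    have hr1 : rho φ G b J μ μ 1 = φ A * (b 0 ^ J * b 1 ^ 0) := by
      rw [← h.A']
      refine rho_single (mk2 J 0) (fun m hm h4 => h1 m hm (by simpa using h4)) ?_
      rw [mk2_zero, mk2_one]
      push_cast
      ring
    have hr2 : ∀ i, 2 ≤ i → rho φ G b J μ μ i = 0 := fun i hi => rho_zero (h2 i hi)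
    have hr1' : rho φ G b J μ μ 1 ≠ 0 := by
      rw [hr1]
      exact mul_ne_zero hφA (mul_ne_zero (pow_ne_zero _ hb0) (pow_ne_zero _ hb1))
    set y0 := -(rho φ G b J μ μ 0 / rho φ G b J μ μ 1) with hy0
    have hsum : ∑ i ∈ G.support, rho φ G b J μ μ i * y0 ^ i = 0 := by
      rw [sum012 (fun i => y0 ^ i) (fun i hi => hr2 i (by omega)), hr2 2 le_rfl, hy0]
      field_simp
      ring
    have h4 := (use_branch hDb hDc hDC hl hit hG hE hr1' hsum).2.1 hμ5.symm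
    set k := φ κ / φ A with hk
    have hk0 : k ≠ 0 := div_ne_zero hφκ hφA
    have hDk : ∀ i, D i k = 0 := by
      intro i
      rw [hk, Derivation.leibniz_div, hDC, hDC, smul_zero, smul_zero, sub_zero, smul_zero]
    have hy : y0 * b 0 + k * b 1 ^ 2 = 0 := by
      rw [hy0, hr0, hr1, hk, hm11, ← hm10, pow_succ]
      field_simp
      ring
    have e0 := congrArg (D 0) hy
    have e1 := congrArg (D 1) hy
    simp only [map_zero, map_add, Derivation.leibniz, Derivation.leibniz_pow, hDk, hDb,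
      smul_eq_mul, nsmul_eq_mul, mul_zero, smul_zero, zero_add, add_zero, if_true, mul_one] at e0 e1
    rw [if_neg (by decide)] at e0 e1
    push_cast at e0 e1
    have h4' : 4 * D 0 y0 = D 1 y0 ^ 2 := by
      rw [h4]
      ring
    have f0 : b 0 * D 0 y0 = -y0 := by linear_combination e0
    have f1 : b 0 * D 1 y0 = -(2 * k * b 1) := by linear_combination e1
    have f2 : 4 * k * b 1 ^ 2 = 4 * k ^ 2 * b 1 ^ 2 := by
      have f3 : 4 * (b 0 * (b 0 * D 0 y0)) = (b 0 * D 1 y0) ^ 2 := by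
        linear_combination b 0 ^ 2 * h4'
      rw [f0, f1] at f3
      linear_combination f3 + 4 * hy
    have f4 : (4 * k * b 1 ^ 2) * (k - 1) = 0 := by linear_combination -f2
    have f5 : k - 1 = 0 := (mul_eq_zero.1 f4).resolve_left
      (mul_ne_zero (mul_ne_zero (by norm_num) hk0) (pow_ne_zero 2 hb1))
    apply hκ
    apply φ.injective
    have f6 : k = 1 := by linear_combination f5
    rw [hk, div_eq_one_iff_eq hφA] at f6
    exact f6

end

end Run7.h978
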