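import Mathlib
import Pool.Agent.Run7.h978.Nfr10

set_option autoImplicit false
set_option linter.unusedSectionVars false

/-!
The case of a double zero, completed.
-/

namespace Run7.h978

section

variable {L : Type} [Field L] {φ : ℂ →+* L} {b : Fin 2 → L}
  {G : Polynomial (MvPolynomial (Fin 2) ℂ)} {J : ℕ} {γ mm A κ : ℂ} (h : Nrm G J γ mm A κ)

include h

theorem Nrm.r2 {e E : ℤ} (hE : E = 2 * e) : rho φ G b J e E 2 = φ γ * b 0 ^ J := by
  have h1 : rho φ G b J e E 2 = φ ((G.coeff 2).coeff (mk2 J 0)) *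
      (b 0 ^ mk2 J 0 0 * b 1 ^ mk2 J 0 1) := by
    refine rho_single (mk2 J 0) (fun m hm h4 => ?_) ?_
    · have h5 := (h.v2 le_rfl hm).2 rfl (by push_cast at h4; linarith)
      exact eq_mk2 h5.1 h5.2
    · rw [mk2_zero, mk2_one, hE]
      push_cast
      ring
  rw [h1, h.γ', mk2_zero, mk2_one, pow_zero, mul_one]

theorem Nrm.e2 {e E : ℤ} (hE : E = 2 * e) (he : 0 ≤ e) {i : ℕ} (hi : 2 ≤ i)
    {m : Fin 2 →₀ ℕ} (hm : m ∈ (G.coeff i).support) :
    E ≤ 8 * ((J : ℤ) - (m 0 : ℤ)) - 2 * (m 1 : ℤ) + e * i := by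
  have h1 := (h.v2 hi hm).1
  have h3 : e * 2 ≤ e * (i : ℤ) := mul_le_mul_of_nonneg_left (by exact_mod_cast hi) he
  omega

theorem Nrm.r3 {e E : ℤ} (hE : E = 2 * e) (he : 0 < e) (i : ℕ) (hi : 3 ≤ i) :
    rho φ G b J e E i = 0 := by
  apply rho_zero
  intro m hm h4
  have h1 := (h.v2 (by omega) hm).1
  have h3 : e * 3 ≤ e * (i : ℤ) := mul_le_mul_of_nonneg_left (by exact_mod_cast hi) he.le
  omega

end

section

variable {L : Type} [Field L] [Algebra ℝ L] [CharZero L] [IsAlgClosed L]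

variable {φ : ℂ →+* L} {b : Fin 2 → L} {D : Fin 2 → Derivation ℝ L L}
  (hDb : ∀ i k, D i (b k) = if i = k then 1 else 0) (hDc : ∀ i k x, D i (D k x) = D k (D i x))
  (hDC : ∀ i (c : ℂ), D i (φ c) = 0)
  (hinj : ∀ p : MvPolynomial (Fin 2) ℂ, p.eval₂ φ b = 0 → p = 0)
  {l : List ℝ} (hl : ∀ μ ∈ l, μ ≠ 0)
  {G0 : Polynomial (MvPolynomial (Fin 2) ℂ)} (hit : Hit φ b D l G0)

include hDb hDc hDC hit hl hinj

theorem double_b {c : ℂ} {G : Polynomial (MvPolynomial (Fin 2) ℂ)}
    (hG : G = Polynomial.taylor (MvPolynomial.C c) G0) {J : ℕ} {γ mm κ : ℂ}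
    (h : Nrm G J γ mm 0 κ) (hmm : mm ^ 2 = mm) : False := by
  have hb0 := b_ne' hDb 0
  have hb1 := b_ne' hDb 1
  have hφγ : φ γ ≠ 0 := fun h' => h.γ0 ((map_eq_zero φ).1 h')
  obtain ⟨m1, hm1, hmin⟩ := Finset.exists_min_image (G.coeff 0).support
    (fun m => 8 * ((J : ℤ) - (m 0 : ℤ)) - 2 * (m 1 : ℤ))
    (coeff_zero_ne hDb hDc hDC hit hG)
  have hv0 := h.v0 hm1
  obtain ⟨j, rfl⟩ : ∃ j, J = j + 1 := ⟨J - 1, by omega⟩
  -- terms of degree one
  have hv1 : ∀ m ∈ (G.coeff 1).support,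
      4 ≤ 8 * (((j + 1 : ℕ) : ℤ) - (m 0 : ℤ)) - 2 * (m 1 : ℤ) ∧ m 0 ≤ j ∧
      6 * (((j + 1 : ℕ) : ℤ) - (m 0 : ℤ)) - 2 ≤
        8 * (((j + 1 : ℕ) : ℤ) - (m 0 : ℤ)) - 2 * (m 1 : ℤ) := by
    intro m hm
    rcases h.v1 hm with h1 | h1
    · exfalso
      rw [MvPolynomial.mem_support_iff] at hm
      apply hm
      rw [eq_mk2 h1.1 h1.2]
      exact h.A'
    · refine ⟨h1.1, ?_, h1.2.2⟩
      omega
  by_cases hκ : κ = 0
  swap
  · -- the coefficient of `b0^j b1^2`
    refine quad_low hDb hDc hDC hl hit hG (J := ((j + 1 : ℕ) : ℤ)) (e := 2) (E := 4) ?_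
      (h.r3 rfl (by norm_num)) ?_ h.γ0 hκ (j := j) (k := 2) (N := j + 1) two_ne_zero ?_
      (h.r2 rfl) (by norm_num)
    · intro i m hm
      rcases Nat.lt_or_ge i 2 with hi | hi
      · interval_cases i
        · have := h.v0 hm
          omega
        · have := hv1 m hm
          omega
      · exact h.e2 rfl (by norm_num) hi hm
    · apply rho_zero
      intro m hm h4
      have := hv1 m hm
      omega
    · have h1 := rho_single (φ := φ) (G := G) (b := b) (J := ((j + 1 : ℕ) : ℤ)) (e := 2)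
        (E := 4) (i := 0) (mk2 j 2) (fun m hm h4 => ?_) ?_
      · rw [h1, h.κ' _ (by rw [mk2_zero]) (by rw [mk2_one]), mk2_zero, mk2_one]
      · have := h.v0 hm
        exact eq_mk2 (by omega) (by omega)
      · rw [mk2_zero, mk2_one]
        push_cast
        ring
  have w0 : ∀ m ∈ (G.coeff 0).support, ¬(m 0 = j ∧ m 1 = 2) := by
    rintro m hm ⟨h1, h2⟩
    rw [MvPolynomial.mem_support_iff] at hm
    exact hm ((h.κ' m (by omega) h2).trans hκ)
  by_cases hκ1 : (G.coeff 0).coeff (mk2 j 1) = 0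
  swap
  · refine quad_low hDb hDc hDC hl hit hG (J := ((j + 1 : ℕ) : ℤ)) (e := 3) (E := 6) ?_
      (h.r3 rfl (by norm_num)) ?_ h.γ0 hκ1 (j := j) (k := 1) (N := j + 1) one_ne_zero ?_
      (h.r2 rfl) (by norm_num)
    · intro i m hm
      rcases Nat.lt_or_ge i 2 with hi | hi
      · interval_cases i
        · have := h.v0 hm
          have := w0 m hm
          omega
        · have := hv1 m hm
          omega
      · exact h.e2 rfl (by norm_num) hi hm
    · apply rho_zero
      intro m hm h4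
      have := hv1 m hm
      omega
    · have h1 := rho_single (φ := φ) (G := G) (b := b) (J := ((j + 1 : ℕ) : ℤ)) (e := 3)
        (E := 6) (i := 0) (mk2 j 1) (fun m hm h4 => ?_) ?_
      · rw [h1, mk2_zero, mk2_one]
      · have := h.v0 hm
        exact eq_mk2 (by omega) (by omega)
      · rw [mk2_zero, mk2_one]
        push_cast
        ring
  have w1 : ∀ m ∈ (G.coeff 0).support, ¬(m 0 = j ∧ m 1 = 1) := by
    rintro m hm ⟨h1, h2⟩
    rw [MvPolynomial.mem_support_iff] at hm
    apply hm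
    rw [eq_mk2 h1 h2]
    exact hκ1
  by_cases hκ0 : (G.coeff 0).coeff (mk2 j 0) = 0
  swap
  · refine quad4 hDb hDc hDC hl hit hG (J := ((j + 1 : ℕ) : ℤ)) (E := 8) ?_
      (h.r3 rfl (by norm_num)) h.γ0 hκ0 hmm (j := j) ?_ ?_ (h.r2 rfl)
    · intro i m hm
      rcases Nat.lt_or_ge i 2 with hi | hi
      · interval_cases i
        · have := h.v0 hm
          have := w0 m hm
          have := w1 m hm
          omega
        · have := hv1 m hm
          omega
      · exact h.e2 rfl (by norm_num) hi hm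
    · have h1 := rho_single (φ := φ) (G := G) (b := b) (J := ((j + 1 : ℕ) : ℤ)) (e := 4)
        (E := 8) (i := 0) (mk2 j 0) (fun m hm h4 => ?_) ?_
      · rw [h1, mk2_zero, mk2_one, pow_zero, mul_one]
      · have := h.v0 hm
        exact eq_mk2 (by omega) (by omega)
      · rw [mk2_zero, mk2_one]
        push_cast
        ring
    · have h1 := rho_single (φ := φ) (G := G) (b := b) (J := ((j + 1 : ℕ) : ℤ)) (e := 4)
        (E := 8) (i := 1) (mk2 j 2) (fun m hm h4 => ?_) ?_
      · rw [h1, h.mm' _ (by rw [mk2_zero]) (by rw [mk2_one]), mk2_zero, mk2_one]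
      · have := hv1 m hm
        exact eq_mk2 (by omega) (by omega)
      · rw [mk2_zero, mk2_one]
        push_cast
        ring
  have w2 : ∀ m ∈ (G.coeff 0).support, m 0 < j := by
    intro m hm
    have h1 := h.v0 hm
    have h2 := w0 m hm
    have h3 := w1 m hm
    by_contra h4
    have h5 : m = mk2 j 0 := eq_mk2 (by omega) (by omega)
    rw [h5, MvPolynomial.mem_support_iff] at hm
    exact hm hκ0
  set μ : ℤ := 8 * (((j + 1 : ℕ) : ℤ) - (m1 0 : ℤ)) - 2 * (m1 1 : ℤ) with hμ
  have hμ10 : 10 ≤ μ := by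
    have := w2 m1 hm1
    omega
  have hmm' : mm = 0 ∨ mm = 1 := by
    have h1 : mm * (mm - 1) = 0 := by linear_combination hmm
    rcases mul_eq_zero.1 h1 with h2 | h2
    · exact Or.inl h2
    · exact Or.inr (by linear_combination h2)
  rcases hmm' with hm0 | hm0
  · -- no terms of order four
    have u0 : ∀ m ∈ (G.coeff 1).support,
        6 ≤ 8 * (((j + 1 : ℕ) : ℤ) - (m 0 : ℤ)) - 2 * (m 1 : ℤ) := by
      intro m hm
      have h1 := hv1 m hm
      by_contra h2
      rw [MvPolynomial.mem_support_iff] at hm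
      apply hm
      rw [h.mm' m (by omega) (by omega), hm0, zero_mul]
    have hlam : D 0 (φ γ) = 0 := hDC 0 γ
    by_cases hall : ∀ m ∈ (G.coeff 1).support,
        μ ≤ 2 * (8 * (((j + 1 : ℕ) : ℤ) - (m 0 : ℤ)) - 2 * (m 1 : ℤ))
    · obtain ⟨e, he⟩ : ∃ e : ℤ, μ = 2 * e := ⟨4 * (((j + 1 : ℕ) : ℤ) - (m1 0 : ℤ)) - (m1 1 : ℤ),
        by rw [hμ]; ring⟩
      refine quad_high hDb hDc hDC hl hit hG (J := ((j + 1 : ℕ) : ℤ)) (e := e) (E := μ) ?_
        (h.r3 he (by omega)) ?_ ?_ ?_ ?_ (by omega)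
      · intro i m hm
        rcases Nat.lt_or_ge i 2 with hi | hi
        · interval_cases i
          · have := hmin m hm
            simpa using this
          · have := hall m hm
            push_cast at this ⊢
            linarith
        · exact h.e2 he (by omega) hi hm
      · rw [h.r2 he]
        exact mul_ne_zero hφγ (pow_ne_zero _ hb0)
      · rw [h.r2 he]
        exact neg_rho hDb hDC (fun m hm => by have := w2 m hm; omega) hlam
      · rw [h.r2 he]
        exact neg_rho hDb hDC (fun m hm => by have := hv1 m hm; omega) hlam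
      · left
        exact rho_ne hinj hm1 (by rw [Nat.cast_zero, mul_zero, add_zero])
    · push Not at hall
      obtain ⟨m2, hm2, hlt⟩ := hall
      obtain ⟨m3, hm3, hmin3⟩ := Finset.exists_min_image (G.coeff 1).support
        (fun m => 8 * (((j + 1 : ℕ) : ℤ) - (m 0 : ℤ)) - 2 * (m 1 : ℤ)) ⟨m2, hm2⟩
      set ν : ℤ := 8 * (((j + 1 : ℕ) : ℤ) - (m3 0 : ℤ)) - 2 * (m3 1 : ℤ) with hν
      have hν6 : 6 ≤ ν := u0 m3 hm3
      have hνμ : 2 * ν < μ := by
        have := hmin3 m2 hm2
        linarith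
      refine quad_high hDb hDc hDC hl hit hG (J := ((j + 1 : ℕ) : ℤ)) (e := ν) (E := 2 * ν) ?_
        (h.r3 rfl (by omega)) ?_ ?_ ?_ ?_ (by omega)
      · intro i m hm
        rcases Nat.lt_or_ge i 2 with hi | hi
        · interval_cases i
          · have := hmin m hm
            rw [Nat.cast_zero, mul_zero, add_zero]
            linarith
          · have := hmin3 m hm
            push_cast at this ⊢
            linarith
        · exact h.e2 rfl (by omega) hi hm
      · rw [h.r2 rfl]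
        exact mul_ne_zero hφγ (pow_ne_zero _ hb0)
      · rw [h.r2 rfl]
        exact neg_rho hDb hDC (fun m hm => by have := w2 m hm; omega) hlam
      · rw [h.r2 rfl]
        exact neg_rho hDb hDC (fun m hm => by have := hv1 m hm; omega) hlam
      · right
        exact rho_ne hinj hm3 (by push_cast; rw [hν]; push_cast; ring)
  · refine lin_case hDb hDc hDC hinj hl hit hG (J := ((j + 1 : ℕ) : ℤ)) (e := μ - 4) (E := μ)
      ?_ hm1 hμ.symm ?_ (m' := mk2 j 2) ?_ ?_ ?_ ?_ (by omega)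
    · intro i m hm
      rcases Nat.lt_or_ge i 2 with hi | hi
      · interval_cases i
        · have := hmin m hm
          rw [Nat.cast_zero, mul_zero, add_zero]
          exact this
        · have := (hv1 m hm).1
          push_cast at this ⊢
          linarith
      · have h1 := (h.v2 hi hm).1
        have h3 : (μ - 4) * 2 ≤ (μ - 4) * (i : ℤ) :=
          mul_le_mul_of_nonneg_left (by exact_mod_cast hi) (by omega)
        omega
    · intro i hi m hm h4
      have h1 := (h.v2 hi hm).1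
      have h3 : (μ - 4) * 2 ≤ (μ - 4) * (i : ℤ) :=
        mul_le_mul_of_nonneg_left (by exact_mod_cast hi) (by omega)
      omega
    · intro m hm h4
      have h1 := hv1 m hm
      exact eq_mk2 (by omega) (by omega)
    · rw [mk2_zero, mk2_one]
      push_cast
      ring
    · rw [h.mm' _ (by rw [mk2_zero]) (by rw [mk2_one]), hm0, one_mul]
      exact h.γ0
    · intro m hm
      rw [mk2_zero]
      exact w2 m hm

end

end Run7.h978
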