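import Mathlib
import Pool.Agent.Run7.h978.Nfr11

set_option autoImplicit false
set_option linter.unusedSectionVars false

/-!
A double zero is impossible.
-/

namespace Run7.h978

section

variable {G0 : Polynomial (MvPolynomial (Fin 2) ℂ)} {J : ℕ} {γ mm : ℂ}
  (hdeg : ∀ i m, (G0.coeff i).coeff m ≠ 0 → i + m 0 + m 1 ≤ J + 2)
  (hC0 : ∀ m, (G0.coeff 0).coeff m ≠ 0 → m 0 + m 1 ≤ J + 1)
  (hC1 : ∀ m, (G0.coeff 1).coeff m ≠ 0 → m 0 + m 1 ≤ J ∨ 2 ≤ m 1)
  (hmm' : ∀ m : Fin 2 →₀ ℕ, m 0 + 1 = J → m 1 = 2 → (G0.coeff 1).coeff m = mm * γ)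
  (hγ' : (G0.coeff 2).coeff (mk2 J 0) = γ) (hγ : γ ≠ 0)

include hdeg hC0 hC1 hmm' hγ' hγ

theorem mk_nrm (h1 : (G0.coeff 0).coeff (mk2 (J + 1) 0) = 0)
    (h3 : (G0.coeff 0).coeff (mk2 J 1) = 0) {c : ℂ}
    (hc : γ * c ^ 2 + (G0.coeff 1).coeff (mk2 J 0) * c + (G0.coeff 0).coeff (mk2 J 0) = 0) :
    Nrm (Polynomial.taylor (MvPolynomial.C c) G0) J γ mm
      ((G0.coeff 1).coeff (mk2 J 0) + 2 * c * γ)
      ((G0.coeff 0).coeff (mk2 (J - 1) 2) + c * (mm * γ)) where
  deg := taylor_deg c hdeg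
  c0 := by
    intro m hm
    have k1 := taylor_deg c hdeg 0 m hm
    have k2 : m 0 + m 1 ≤ J + 1 := by
      by_contra h2
      rw [taylor_top c hdeg 0 m (by omega)] at hm
      exact h2 (hC0 m hm)
    refine ⟨k2, ?_⟩
    by_contra h2
    apply hm
    have k3 : (m 0 = J + 1 ∧ m 1 = 0) ∨ (m 0 = J ∧ m 1 = 1) ∨ (m 0 = J ∧ m 1 = 0) := by omega
    rcases k3 with k4 | k4 | k4
    · rw [eq_mk2 k4.1 k4.2, taylor_one c hdeg 0 _ (by rw [mk2_zero, mk2_one]; omega), h1]
      have k5 : (G0.coeff (0 + 1)).coeff (mk2 (J + 1) 0) = 0 := by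
        by_contra k6
        have := hC1 _ k6
        rw [mk2_zero, mk2_one] at this
        omega
      rw [k5, mul_zero, add_zero]
    · rw [eq_mk2 k4.1 k4.2, taylor_one c hdeg 0 _ (by rw [mk2_zero, mk2_one]; omega), h3]
      have k5 : (G0.coeff (0 + 1)).coeff (mk2 J 1) = 0 := by
        by_contra k6
        have := hC1 _ k6
        rw [mk2_zero, mk2_one] at this
        omega
      rw [k5, mul_zero, add_zero]
    · rw [eq_mk2 k4.1 k4.2, taylor_two c hdeg _ (by rw [mk2_zero, mk2_one]), hγ', ← hc]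
      ring
  c1 := by
    intro m hm
    have k1 := taylor_deg c hdeg 1 m hm
    by_cases k2 : m 0 + m 1 ≤ J
    · exact Or.inl k2
    · rw [taylor_top c hdeg 1 m (by omega)] at hm
      exact hC1 m hm
  mm' := by
    intro m k1 k2
    rw [taylor_top c hdeg 1 m (by omega)]
    exact hmm' m k1 k2
  γ' := by
    rw [taylor_top c hdeg 2 _ (by rw [mk2_zero, mk2_one]; omega)]
    exact hγ'
  A' := by
    rw [taylor_one c hdeg 1 _ (by rw [mk2_zero, mk2_one]; omega)]
    have k5 : (G0.coeff (1 + 1)).coeff (mk2 J 0) = γ := hγ'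
    rw [k5]
    push_cast
    ring
  κ' := by
    intro m k1 k2
    rw [taylor_one c hdeg 0 m (by omega)]
    have k5 : (G0.coeff (0 + 1)).coeff m = mm * γ := hmm' m k1 k2
    rw [k5, eq_mk2 (show m 0 = J - 1 by omega) k2]
    push_cast
    ring
  γ0 := hγ

end

section

variable {L : Type} [Field L] [Algebra ℝ L] [CharZero L] [IsAlgClosed L]

variable {φ : ℂ →+* L} {b : Fin 2 → L} {D : Fin 2 → Derivation ℝ L L}
  (hDb : ∀ i k, D i (b k) = if i = k then 1 else 0) (hDc : ∀ i k x, D i (D k x) = D k (D i x))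
  (hDC : ∀ i (c : ℂ), D i (φ c) = 0)
  (hinj : ∀ p : MvPolynomial (Fin 2) ℂ, p.eval₂ φ b = 0 → p = 0)
  {l : List ℝ} (hl : ∀ μ ∈ l, μ ≠ 0)
  {G0 : Polynomial (MvPolynomial (Fin 2) ℂ)} (hit : Hit φ b D l G0)

include hDb hDc hDC hit hl hinj

theorem no_double {J : ℕ} {γ mm : ℂ}
    (hdeg : ∀ i m, (G0.coeff i).coeff m ≠ 0 → i + m 0 + m 1 ≤ J + 2)
    (hC0 : ∀ m, (G0.coeff 0).coeff m ≠ 0 → m 0 + m 1 ≤ J + 1)
    (hC1 : ∀ m, (G0.coeff 1).coeff m ≠ 0 → m 0 + m 1 ≤ J ∨ 2 ≤ m 1)
    (hmm' : ∀ m : Fin 2 →₀ ℕ, m 0 + 1 = J → m 1 = 2 → (G0.coeff 1).coeff m = mm * γ)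
    (hγ' : (G0.coeff 2).coeff (mk2 J 0) = γ) (hγ : γ ≠ 0) (hmm : mm ^ 2 = mm) : False := by
  have hb0 := b_ne' hDb 0
  have hb1 := b_ne' hDb 1
  have hφγ : φ γ ≠ 0 := fun h' => hγ ((map_eq_zero φ).1 h')
  have hG00 : G0 = Polynomial.taylor (MvPolynomial.C 0) G0 := by
    rw [map_zero, Polynomial.taylor_zero]
  -- first step
  have h1 : (G0.coeff 0).coeff (mk2 (J + 1) 0) = 0 := by
    by_contra h1
    set c1 := (G0.coeff 0).coeff (mk2 (J + 1) 0) with hc1
    have hφc : φ c1 ≠ 0 := fun h' => h1 ((map_eq_zero φ).1 h')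
    have r0 : rho φ G0 b J (-4) (-8) 0 = φ c1 * b 0 ^ (J + 1) := by
      have k1 := rho_single (φ := φ) (G := G0) (b := b) (J := (J : ℤ)) (e := -4)
        (E := -8) (i := 0) (mk2 (J + 1) 0) (fun m hm h4 => ?_) ?_
      · rw [k1, mk2_zero, mk2_one, pow_zero, mul_one]
      · have := hC0 m (MvPolynomial.mem_support_iff.1 hm)
        exact eq_mk2 (by omega) (by omega)
      · rw [mk2_zero, mk2_one]
        push_cast
        ring
    have r1 : rho φ G0 b J (-4) (-8) 1 = 0 := by
      apply rho_zero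
      intro m hm h4
      have := hC1 m (MvPolynomial.mem_support_iff.1 hm)
      have := hdeg 1 m (MvPolynomial.mem_support_iff.1 hm)
      omega
    have r2 : rho φ G0 b J (-4) (-8) 2 = φ γ * b 0 ^ J := by
      have k1 := rho_single (φ := φ) (G := G0) (b := b) (J := (J : ℤ)) (e := -4)
        (E := -8) (i := 2) (mk2 J 0) (fun m hm h4 => ?_) ?_
      · rw [k1, hγ', mk2_zero, mk2_one, pow_zero, mul_one]
      · have := hdeg 2 m (MvPolynomial.mem_support_iff.1 hm)
        exact eq_mk2 (by omega) (by omega)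
      · rw [mk2_zero, mk2_one]
        push_cast
        ring
    have r3 : ∀ i, 3 ≤ i → rho φ G0 b J (-4) (-8) i = 0 := by
      intro i hi
      apply rho_zero
      intro m hm h4
      have := hdeg i m (MvPolynomial.mem_support_iff.1 hm)
      omega
    have hr2 : rho φ G0 b J (-4) (-8) 2 ≠ 0 := by
      rw [r2]
      exact mul_ne_zero hφγ (pow_ne_zero _ hb0)
    obtain ⟨y0, hy0⟩ := IsAlgClosed.exists_pow_nat_eq (-(φ c1 / φ γ * b 0)) two_pos
    have hy00 : y0 ≠ 0 := by
      rintro rfl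
      rw [zero_pow two_ne_zero] at hy0
      have k1 : φ c1 / φ γ * b 0 = 0 := by linear_combination hy0
      exact mul_ne_zero (div_ne_zero hφc hφγ) hb0 k1
    refine no_four hDb hDc hDC hl hit hG00 (J := (J : ℤ)) ?_ ?_ hr2 (y0 := y0) ?_ ?_ ?_
    · intro i m hm
      have k1 := hdeg i m (MvPolynomial.mem_support_iff.1 hm)
      rcases Nat.lt_or_ge i 2 with hi | hi
      · interval_cases i
        · have := hC0 m (MvPolynomial.mem_support_iff.1 hm)
          omega
        · have := hC1 m (MvPolynomial.mem_support_iff.1 hm)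
          omega
      · omega
    · intro i m hm hm1
      have k1 := hdeg i m (MvPolynomial.mem_support_iff.1 hm)
      rcases Nat.lt_or_ge i 2 with hi | hi
      · interval_cases i
        · have := hC0 m (MvPolynomial.mem_support_iff.1 hm)
          omega
        · have := hC1 m (MvPolynomial.mem_support_iff.1 hm)
          omega
      · omega
    · rw [sum012 (fun i => y0 ^ i) r3, r0, r1, r2, hy0, pow_succ]
      field_simp
      ring
    · intro hD
      have k1 := congrArg (D 0) hy0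
      rw [Derivation.leibniz_pow, hD, smul_zero, smul_zero, map_neg, Derivation.leibniz,
        Derivation.leibniz_div, hDC, hDC, hDb, if_pos rfl] at k1
      simp only [smul_eq_mul, mul_zero, sub_zero, add_zero, mul_one, zero_eq_neg] at k1
      exact div_ne_zero hφc hφγ k1
    · rw [sum012 (fun i => (i : L) * y0 ^ (i - 1)) r3, r1, zero_mul]
      rw [Nat.cast_zero, zero_mul, mul_zero, zero_add, zero_add]
      refine mul_ne_zero hr2 (mul_ne_zero (by norm_num) (pow_ne_zero _ hy00))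
  -- second step
  have h3 : (G0.coeff 0).coeff (mk2 J 1) = 0 := by
    by_contra h3
    have hn1 : ∀ m ∈ (G0.coeff 0).support, ¬(m 0 = J + 1 ∧ m 1 = 0) := by
      rintro m hm ⟨k1, k2⟩
      rw [MvPolynomial.mem_support_iff] at hm
      apply hm
      rw [eq_mk2 k1 k2]
      exact h1
    refine quad_low hDb hDc hDC hl hit hG00 (J := (J : ℤ)) (e := -1) (E := -2) ?_ ?_ ?_ hγ h3
      (j := J) (k := 1) (N := J) one_ne_zero ?_ ?_ (by norm_num)
    · intro i m hm
      have k1 := hdeg i m (MvPolynomial.mem_support_iff.1 hm)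
      rcases Nat.lt_or_ge i 2 with hi | hi
      · interval_cases i
        · have := hC0 m (MvPolynomial.mem_support_iff.1 hm)
          have := hn1 m hm
          omega
        · have := hC1 m (MvPolynomial.mem_support_iff.1 hm)
          omega
      · omega
    · intro i hi
      apply rho_zero
      intro m hm h4
      have := hdeg i m (MvPolynomial.mem_support_iff.1 hm)
      omega
    · apply rho_zero
      intro m hm h4
      have := hC1 m (MvPolynomial.mem_support_iff.1 hm)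
      have := hdeg 1 m (MvPolynomial.mem_support_iff.1 hm)
      omega
    · have k1 := rho_single (φ := φ) (G := G0) (b := b) (J := (J : ℤ)) (e := -1)
        (E := -2) (i := 0) (mk2 J 1) (fun m hm h4 => ?_) ?_
      · rw [k1, mk2_zero, mk2_one]
      · have := hC0 m (MvPolynomial.mem_support_iff.1 hm)
        have := hn1 m hm
        exact eq_mk2 (by omega) (by omega)
      · rw [mk2_zero, mk2_one]
        push_cast
        ring
    · have k1 := rho_single (φ := φ) (G := G0) (b := b) (J := (J : ℤ)) (e := -1)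
        (E := -2) (i := 2) (mk2 J 0) (fun m hm h4 => ?_) ?_
      · rw [k1, hγ', mk2_zero, mk2_one, pow_zero, mul_one]
      · have := hdeg 2 m (MvPolynomial.mem_support_iff.1 hm)
        exact eq_mk2 (by omega) (by omega)
      · rw [mk2_zero, mk2_one]
        push_cast
        ring
  -- third step
  obtain ⟨c, hc⟩ : ∃ c : ℂ, γ * c ^ 2 + (G0.coeff 1).coeff (mk2 J 0) * c +
      (G0.coeff 0).coeff (mk2 J 0) = 0 := by
    have h5 : (Polynomial.C γ * Polynomial.X ^ 2 +
        Polynomial.C ((G0.coeff 1).coeff (mk2 J 0)) * Polynomial.X +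
        Polynomial.C ((G0.coeff 0).coeff (mk2 J 0))).degree ≠ 0 := by
      rw [Polynomial.degree_quadratic hγ]
      decide
    obtain ⟨c, hc⟩ := IsAlgClosed.exists_root _ h5
    refine ⟨c, ?_⟩
    simpa using hc
  set c2 := (G0.coeff 1).coeff (mk2 J 0) with hc2
  set κ0 := (G0.coeff 0).coeff (mk2 (J - 1) 2) with hκ0
  have hN := mk_nrm hdeg hC0 hC1 hmm' hγ' hγ h1 h3 hc
  rw [← hc2, ← hκ0] at hN
  by_cases hA : c2 + 2 * c * γ = 0
  · rw [hA] at hN
    exact double_b hDb hDc hDC hinj hl hit rfl hN hmm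
  · by_cases hκ : κ0 + c * (mm * γ) = c2 + 2 * c * γ
    · have hc' : γ * (c - (c2 + 2 * c * γ) / γ) ^ 2 + c2 * (c - (c2 + 2 * c * γ) / γ) +
          (G0.coeff 0).coeff (mk2 J 0) = 0 := by
        rw [← hc]
        field_simp
        ring
      have hN' := mk_nrm hdeg hC0 hC1 hmm' hγ' hγ h1 h3 hc'
      rw [← hc2, ← hκ0] at hN'
      have k1 : c2 + 2 * (c - (c2 + 2 * c * γ) / γ) * γ = -(c2 + 2 * c * γ) := by
        field_simp
        ring
      have k2 : κ0 + (c - (c2 + 2 * c * γ) / γ) * (mm * γ) =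
          (1 - mm) * (c2 + 2 * c * γ) := by
        have k3 : (c - (c2 + 2 * c * γ) / γ) * (mm * γ) =
            c * (mm * γ) - mm * (c2 + 2 * c * γ) := by
          field_simp
        rw [k3]
        linear_combination hκ
      rw [k1, k2] at hN'
      refine double_a hDb hDc hDC hinj hl hit rfl hN' (neg_ne_zero.2 hA) ?_
      intro k3
      have k4 : (2 - mm) * (c2 + 2 * c * γ) = 0 := by linear_combination k3
      rcases mul_eq_zero.1 k4 with k5 | k5
      · have k6 : mm = 2 := by linear_combination -k5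
        rw [k6] at hmm
        norm_num at hmm
      · exact hA k5
    · exact double_a hDb hDc hDC hinj hl hit rfl hN hA hκ

end

end Run7.h978
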