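import Mathlib
import Pool.Agent.Run7.h978.Nfr12

set_option autoImplicit false
set_option linter.unusedSectionVars false

/-!
Isotropic frames of the space, and the equation of the surface in such a frame.
-/

open MvPolynomial

namespace Run7.h978

/-- the image of a frame -/
noncomputable def Fr.map {K K' : Type*} [Field K] [Field K'] {n : ℕ} {i0 : Fin n}
    (f : Fr K n i0) (ψ : K →+* K') : Fr K' n i0 where
  u := fun a => ψ (f.u a)
  E := fun i a => ψ (f.E i a)
  uu := by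
    have h := congrArg ψ f.uu
    simpa [map_sum] using h
  uE0 := by
    have h := congrArg ψ f.uE0
    rw [map_mul, map_ofNat, map_sum, map_one] at h
    simpa using h
  uE := fun i hi => by
    have h := congrArg ψ (f.uE i hi)
    simpa [map_sum] using h
  E00 := by
    have h := congrArg ψ f.E00
    simpa [map_sum] using h
  E0E := fun i hi => by
    have h := congrArg ψ (f.E0E i hi)
    simpa [map_sum] using h
  EE := fun i k hi hk => by
    have h := congrArg ψ (f.EE i k hi hk)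
    rw [map_sum] at h
    simp only [map_mul] at h
    rw [h]
    split <;> simp
  comp := fun a b => by
    have h := congrArg ψ (f.comp a b)
    have h1 : ψ (if a = b then 1 else 0) = if a = b then 1 else 0 := by
      split <;> simp
    rw [h1, map_add, map_mul, map_add, map_mul, map_mul, map_sum, map_ofNat] at h
    rw [← h]
    congr 1
    refine Finset.sum_congr rfl fun i _ => ?_
    split <;> simp

theorem exists_frame {e : Fin 3 → ℂ} (he : e ≠ 0) (hee : ∑ a, e a ^ 2 = 0) :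
    ∃ f : Fr ℂ 2 0, f.E 0 = e := by
  set s : ℝ := ∑ a, Complex.normSq (e a) with hs
  have hs0 : (s : ℂ) ≠ 0 := by
    intro h
    have h1 : s = 0 := by exact_mod_cast h
    apply he
    funext a
    have h2 := (Finset.sum_eq_zero_iff_of_nonneg (fun i _ => Complex.normSq_nonneg (e i))).1
      (hs.symm.trans h1) a (Finset.mem_univ a)
    exact Complex.normSq_eq_zero.1 h2
  set u : Fin 3 → ℂ := fun a => (starRingEnd ℂ) (e a) / (2 * (s : ℂ)) with hu
  have hee' : e 0 ^ 2 + e 1 ^ 2 + e 2 ^ 2 = 0 := by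
    rw [Fin.sum_univ_three] at hee
    exact hee
  have huu : u 0 ^ 2 + u 1 ^ 2 + u 2 ^ 2 = 0 := by
    have h1 := congrArg (starRingEnd ℂ) hee'
    rw [map_add, map_add, map_pow, map_pow, map_pow, map_zero] at h1
    simp only [hu]
    field_simp
    linear_combination h1
  have hue : e 0 * u 0 + e 1 * u 1 + e 2 * u 2 = 1 / 2 := by
    have h1 : e 0 * (starRingEnd ℂ) (e 0) + e 1 * (starRingEnd ℂ) (e 1) +
        e 2 * (starRingEnd ℂ) (e 2) = (s : ℂ) := by
      rw [Complex.mul_conj, Complex.mul_conj, Complex.mul_conj, hs, Fin.sum_univ_three]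
      push_cast
      ring
    simp only [hu]
    field_simp
    linear_combination h1
  clear_value u
  set w : Fin 3 → ℂ := ![e 1 * u 2 - e 2 * u 1, e 2 * u 0 - e 0 * u 2, e 0 * u 1 - e 1 * u 0]
    with hw
  have hw0 : w 0 = e 1 * u 2 - e 2 * u 1 := rfl
  have hw1 : w 1 = e 2 * u 0 - e 0 * u 2 := rfl
  have hw2 : w 2 = e 0 * u 1 - e 1 * u 0 := rfl
  clear_value w
  have hI : Complex.I ^ 2 = -1 := Complex.I_sq
  set z : Fin 3 → ℂ := fun a => 2 * Complex.I * w a with hz
  have hza : ∀ a, z a = 2 * Complex.I * w a := fun a => rfl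
  clear_value z
  have hww : ∀ a b, w a * w b = (if a = b then 1 else 0) *
      ((e 0 ^ 2 + e 1 ^ 2 + e 2 ^ 2) * (u 0 ^ 2 + u 1 ^ 2 + u 2 ^ 2) -
        (e 0 * u 0 + e 1 * u 1 + e 2 * u 2) ^ 2) -
      e a * (e b * (u 0 ^ 2 + u 1 ^ 2 + u 2 ^ 2) - u b * (e 0 * u 0 + e 1 * u 1 + e 2 * u 2)) +
      u a * (e b * (e 0 * u 0 + e 1 * u 1 + e 2 * u 2) - u b * (e 0 ^ 2 + e 1 ^ 2 + e 2 ^ 2)) := by
    intro a b
    fin_cases a <;> fin_cases b <;> simp [hw0, hw1, hw2] <;> ring
  have hzz : ∀ a b, z a * z b = (if a = b then 1 else 0) - 2 * (u a * e b + e a * u b) := by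
    intro a b
    have h1 : z a * z b = -4 * (w a * w b) := by
      rw [hza, hza]
      linear_combination 4 * w a * w b * hI
    rw [h1, hww, hee', huu, hue]
    ring
  refine ⟨⟨u, ![e, z], ?_, ?_, ?_, ?_, ?_, ?_, ?_⟩, rfl⟩
  · rw [Fin.sum_univ_three]
    linear_combination huu
  · rw [Fin.sum_univ_three]
    show 2 * (u 0 * e 0 + u 1 * e 1 + u 2 * e 2) = 1
    linear_combination 2 * hue
  · intro i hi
    have h1 : i = 1 := by
      fin_cases i
      · exact absurd rfl hi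
      · rfl
    rw [h1, Fin.sum_univ_three]
    show u 0 * z 0 + u 1 * z 1 + u 2 * z 2 = 0
    rw [hza, hza, hza, hw0, hw1, hw2]
    ring
  · rw [Fin.sum_univ_three]
    show e 0 * e 0 + e 1 * e 1 + e 2 * e 2 = 0
    linear_combination hee'
  · intro i hi
    have h1 : i = 1 := by
      fin_cases i
      · exact absurd rfl hi
      · rfl
    rw [h1, Fin.sum_univ_three]
    show e 0 * z 0 + e 1 * z 1 + e 2 * z 2 = 0
    rw [hza, hza, hza, hw0, hw1, hw2]
    ring
  · intro i k hi hk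
    have h1 : i = 1 := by
      fin_cases i
      · exact absurd rfl hi
      · rfl
    have h2 : k = 1 := by
      fin_cases k
      · exact absurd rfl hk
      · rfl
    rw [h1, h2, Fin.sum_univ_three, if_pos rfl]
    show z 0 * z 0 + z 1 * z 1 + z 2 * z 2 = 1
    rw [hzz, hzz, hzz, if_pos rfl, if_pos rfl, if_pos rfl]
    linear_combination (-4) * hue
  · intro a b
    rw [Fin.sum_univ_two, if_pos rfl, if_neg (by decide), zero_add]
    show 2 * (u a * e b + e a * u b) + z a * z b = _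
    rw [hzz]
    ring

/-- the change of coordinates -/
noncomputable def linc (f : Fr ℂ 2 0) : MvPolynomial (Fin 3) ℂ →ₐ[ℂ] MvPolynomial (Fin 3) ℂ :=
  aeval fun a => C (f.u a) * X 0 + C (f.E 0 a) * X 1 + C (f.E 1 a) * X 2

theorem linc_X (f : Fr ℂ 2 0) (a : Fin 3) :
    linc f (X a) = C (f.u a) * X 0 + C (f.E 0 a) * X 1 + C (f.E 1 a) * X 2 := by
  rw [linc, aeval_X]

/-- the equation in the new coordinates -/
noncomputable def eqn (f : Fr ℂ 2 0) (F : MvPolynomial (Fin 3) ℂ) :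
    Polynomial (MvPolynomial (Fin 2) ℂ) := finSuccEquiv ℂ 2 (linc f F)

section

variable {L : Type} [Field L] (φ : ℂ →+* L)

theorem evG_fin (Y v z : FK L) (p : MvPolynomial (Fin 3) ℂ) :
    evG φ (finSuccEquiv ℂ 2 p) Y v z = p.eval₂ (ic φ) ![Y, v, z] := by
  induction p using MvPolynomial.induction_on with
  | C r =>
    rw [evG, eval₂_C]
    have h1 : finSuccEquiv ℂ 2 (C r) = Polynomial.C (C r) := by
      have := (finSuccEquiv ℂ 2).commutes r
      exact this
    rw [h1, Polynomial.eval₂_C, coe_eval₂Hom, eval₂_C]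
  | add p q hp hq =>
    rw [eval₂_add, ← hp, ← hq, evG, evG, evG, map_add, Polynomial.eval₂_add]
  | mul_X p i hp =>
    rw [eval₂_mul, ← hp, evG, evG, map_mul, Polynomial.eval₂_mul, eval₂_X]
    congr 1
    fin_cases i
    · show Polynomial.eval₂ _ _ (finSuccEquiv ℂ 2 (X 0)) = Y
      rw [finSuccEquiv_X_zero, Polynomial.eval₂_X]
    · show Polynomial.eval₂ _ _ (finSuccEquiv ℂ 2 (X (Fin.succ 0))) = v
      rw [finSuccEquiv_X_succ, Polynomial.eval₂_C, coe_eval₂Hom, eval₂_X]
      rfl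
    · show Polynomial.eval₂ _ _ (finSuccEquiv ℂ 2 (X (Fin.succ 1))) = z
      rw [finSuccEquiv_X_succ, Polynomial.eval₂_C, coe_eval₂Hom, eval₂_X]
      rfl

theorem eval_linc (f : Fr ℂ 2 0) {A : Type*} [CommRing A] (ψ : ℂ →+* A) (Y v z : A)
    (p : MvPolynomial (Fin 3) ℂ) : (linc f p).eval₂ ψ ![Y, v, z] =
      p.eval₂ ψ fun a => ψ (f.u a) * Y + ψ (f.E 0 a) * v + ψ (f.E 1 a) * z := by
  induction p using MvPolynomial.induction_on with
  | C r =>
    have h1 : linc f (C r) = C r := (linc f).commutes r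
    rw [h1, eval₂_C, eval₂_C]
  | add p q hp hq => rw [map_add, eval₂_add, hp, hq, eval₂_add]
  | mul_X p i hp =>
    rw [map_mul, eval₂_mul, hp, eval₂_mul, eval₂_X, linc_X, eval₂_add, eval₂_add, eval₂_mul,
      eval₂_mul, eval₂_mul, eval₂_C, eval₂_C, eval₂_C, eval₂_X, eval₂_X, eval₂_X]
    rfl

variable [Algebra ℝ L] (hφ : ∀ r : ℝ, φ (algebraMap ℝ ℂ r) = algebraMap ℝ L r)

include hφ

theorem ic_real (r : ℝ) : ic φ (algebraMap ℝ ℂ r) = algebraMap ℝ (FK L) r := by
  rw [ic_apply, hφ, IsScalarTower.algebraMap_apply ℝ (PS L) (FK L) r,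
    PowerSeries.algebraMap_apply]

theorem evG_eqn (f : Fr ℂ 2 0) (Y v z : FK L) (F : MvPolynomial (Fin 3) ℝ) :
    evG φ (eqn f (map (algebraMap ℝ ℂ) F)) Y v z = aeval (pt (f.map (ic φ)) Y ![v, z]) F := by
  rw [eqn, evG_fin, eval_linc, eval₂_map, aeval_def]
  congr 1
  · ext r
    exact ic_real φ hφ r
  · funext a
    rw [pt, Fin.sum_univ_two]
    show _ = Y * ic φ (f.u a) + (v * ic φ (f.E 0 a) + z * ic φ (f.E 1 a))
    ring

end

theorem exists_hit {L : Type} [Field L] [Algebra ℝ L] [CharZero L] [IsAlgClosed L] {φ : ℂ →+* L}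
    (hφ : ∀ r : ℝ, φ (algebraMap ℝ ℂ r) = algebraMap ℝ L r) {b : Fin 2 → L}
    {D : Fin 2 → Derivation ℝ L L} (hDC : ∀ i (c : ℂ), D i (φ c) = 0)
    {F : MvPolynomial (Fin 3) ℝ} (hF : Irreducible F) (hWF : ¬F ∣ WW F) {l : List ℝ}
    (hd : ∀ a, F ∣ iter F l 0 (X a)) (f : Fr ℂ 2 0) :
    Hit φ b D l (eqn f (map (algebraMap ℝ ℂ) F)) := by
  intro T hTb hTD Y hY
  rw [evG_eqn φ hφ] at hY
  have hconst : ∀ i (c : ℂ), T.dw 0 i (ic φ c) = 0 := by
    intro i c
    rw [Inf.dw_apply, ic_apply, T.hE, psD_C]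
    have h1 : T.D i (φ c) = 0 := by
      rw [hTD]
      exact hDC i c
    rw [h1, map_zero, map_zero, mul_zero]
  have hx : (![T.xw 0 0, T.xw 0 1] : Fin 2 → FK L) = T.xw 0 := by
    funext i
    fin_cases i <;> rfl
  rw [hx] at hY
  exact frame_hit (f := f.map (ic φ)) (d := T.dw 0) (Y := Y) (fun i a => hconst i _)
    (fun i k a => hconst i _) (ξ := T.xw 0) (fun i k => T.dw_xw 0 i k) hF hWF hY hd

end Run7.h978
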