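import Mathlib
import Pool.Agent.Run7.h978.Poly
import Pool.Agent.Run7.h978.Sph10

set_option autoImplicit false

/-!
Translations.
-/

open MvPolynomial

namespace Run7.h978

section

variable {N : ℕ}

/-- the translation -/
noncomputable def tr (c : Fin N → ℝ) : MvPolynomial (Fin N) ℝ ≃ₐ[ℝ] MvPolynomial (Fin N) ℝ :=
  AlgEquiv.ofAlgHom (aeval fun a => X a + C (c a)) (aeval fun a => X a - C (c a))
    (by
      apply MvPolynomial.algHom_ext
      intro i
      simp [← MvPolynomial.algebraMap_eq])
    (by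
      apply MvPolynomial.algHom_ext
      intro i
      simp [← MvPolynomial.algebraMap_eq])

theorem tr_X (c : Fin N → ℝ) (a : Fin N) : tr c (X a) = X a + C (c a) := by
  show aeval (fun a => X a + C (c a)) (X a) = _
  rw [aeval_X]

theorem tr_C (c : Fin N → ℝ) (r : ℝ) : tr c (C r) = C r := (tr c).commutes r

theorem tr_pderiv (c : Fin N → ℝ) (a : Fin N) (p : MvPolynomial (Fin N) ℝ) :
    pderiv a (tr c p) = tr c (pderiv a p) := by
  induction p using MvPolynomial.induction_on with
  | C r => rw [tr_C, pderiv_C, map_zero]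
  | add p q hp hq => rw [map_add, map_add, hp, hq, map_add, map_add]
  | mul_X p i hp =>
    rw [map_mul, tr_X, Derivation.leibniz, Derivation.leibniz, hp, map_add, map_add, pderiv_C,
      pderiv_X, add_zero, smul_eq_mul, smul_eq_mul, smul_eq_mul, smul_eq_mul, map_mul, map_mul,
      tr_X]
    congr 2
    rw [Pi.single_apply]
    split
    · rw [map_one]
    · rw [map_zero]

theorem tr_WW (c : Fin N → ℝ) (F : MvPolynomial (Fin N) ℝ) : WW (tr c F) = tr c (WW F) := by
  simp only [WW, map_sum, map_pow, tr_pderiv]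

theorem tr_PP (c : Fin N → ℝ) (W A : MvPolynomial (Fin N) ℝ) (j : ℕ) (a : Fin N) :
    PP (tr c W) j (tr c A) a = tr c (PP W j A a) := by
  simp only [PP, map_sub, map_mul, tr_pderiv, tr_C]

theorem tr_QF (c : Fin N → ℝ) (F : MvPolynomial (Fin N) ℝ) : QF (tr c F) = tr c (QF F) := by
  simp only [QF, map_sum, map_mul, tr_pderiv]

theorem tr_LL (c : Fin N → ℝ) (F A : MvPolynomial (Fin N) ℝ) (j : ℕ) :
    LL (tr c F) j (tr c A) = tr c (LL F j A) := by
  simp only [LL, map_sum, map_mul, map_add, map_neg, map_sub, tr_pderiv, tr_WW, tr_QF, tr_PP]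

theorem tr_iter (c : Fin N → ℝ) (F : MvPolynomial (Fin N) ℝ) (l : List ℝ) :
    ∀ (j : ℕ) (A : MvPolynomial (Fin N) ℝ), iter (tr c F) l j (tr c A) = tr c (iter F l j A) := by
  induction l with
  | nil => intro j A; rfl
  | cons μ l ih =>
    intro j A
    rw [iter, iter, ← ih]
    congr 1
    rw [tr_LL, tr_WW, map_sub, map_mul, map_mul, map_pow, tr_C]

theorem totalDegree_tr_le (c : Fin N → ℝ) (p : MvPolynomial (Fin N) ℝ) :
    (tr c p).totalDegree ≤ p.totalDegree := by
  have h1 : tr c p = ∑ s ∈ p.support, C (coeff s p) * ∏ i, (X i + C (c i)) ^ s i := by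
    show aeval (fun a => X a + C (c a)) p = _
    rw [aeval_def, eval₂_eq']
    rfl
  rw [h1]
  apply totalDegree_finsetSum_le
  intro s hs
  refine (totalDegree_mul _ _).trans ?_
  rw [totalDegree_C, zero_add]
  refine (totalDegree_finsetProd _ _).trans ?_
  have h2 : ∀ i, ((X i + C (c i) : MvPolynomial (Fin N) ℝ) ^ s i).totalDegree ≤ s i := by
    intro i
    refine (totalDegree_pow _ _).trans ?_
    have h3 : (X i + C (c i) : MvPolynomial (Fin N) ℝ).totalDegree ≤ 1 := by
      refine (totalDegree_add _ _).trans ?_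
      rw [totalDegree_C, totalDegree_X]
      exact le_rfl
    exact (Nat.mul_le_mul_left _ h3).trans (by rw [mul_one])
  refine (Finset.sum_le_sum fun i _ => h2 i).trans ?_
  have h3 := le_totalDegree hs
  rwa [Finsupp.sum_fintype _ _ (fun _ => rfl)] at h3

end

end Run7.h978
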