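import Mathlib
import Pool.Agent.Run7.h978.Iso8
import Pool.Agent.Run7.h978.Sph11

set_option autoImplicit false

/-!
The algebraic theorem for an arbitrary center.
-/

open MvPolynomial

namespace Run7.h978

section

/-- the square of the distance to the origin -/
noncomputable def Sq (R : Type) [CommRing R] (N : ℕ) : MvPolynomial (Fin N) R := ∑ a, X a ^ 2

theorem Sq_hom (R : Type) [CommRing R] (N m : ℕ) : (Sq R N ^ m).IsHomogeneous (2 * m) :=
  (IsHomogeneous.sum _ _ _ fun i _ => isHomogeneous_X_pow i 2).pow m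

theorem eval_Sq {R : Type} [CommRing R] {N : ℕ} (a : Fin N) (m : ℕ) :
    eval (Pi.single a (1 : R)) (Sq R N ^ m) = 1 := by
  rw [Sq, map_pow, map_sum, Finset.sum_eq_single a]
  · simp
  · intro b _ hb
    simp [Pi.single_eq_of_ne hb]
  · intro h
    exact absurd (Finset.mem_univ a) h

theorem Sq_ne (R : Type) [CommRing R] [Nontrivial R] (n m : ℕ) : Sq R (n + 1) ^ m ≠ 0 := by
  intro h
  have h1 := eval_Sq (R := R) (0 : Fin (n + 1)) m
  rw [h, map_zero] at h1
  exact zero_ne_one h1

theorem exists_pow_add {N : ℕ} {S E : MvPolynomial (Fin N) ℝ} (hS : S.totalDegree ≤ 2)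
    (hE : E.totalDegree ≤ 1) (k : ℕ) :
    ∃ H : MvPolynomial (Fin N) ℝ, (S + E) ^ (k + 1) = S ^ (k + 1) + H ∧
      H.totalDegree ≤ 2 * k + 1 := by
  induction k with
  | zero => exact ⟨E, by ring, by simpa using hE⟩
  | succ k ih =>
    obtain ⟨H, hH, hHd⟩ := ih
    refine ⟨S ^ (k + 1) * E + H * (S + E), ?_, ?_⟩
    · rw [pow_succ, hH]
      ring
    · refine (totalDegree_add _ _).trans (max_le ?_ ?_)
      · refine (totalDegree_mul _ _).trans ?_
        have h1 := totalDegree_pow S (k + 1)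
        have h2 : (k + 1) * S.totalDegree ≤ (k + 1) * 2 := Nat.mul_le_mul_left _ hS
        omega
      · refine (totalDegree_mul _ _).trans ?_
        have h1 : (S + E).totalDegree ≤ 2 :=
          (totalDegree_add _ _).trans (max_le hS (hE.trans (by norm_num)))
        omega

theorem lead_tr {n m : ℕ} (hm : m ≠ 0) {F : MvPolynomial (Fin (n + 1)) ℝ}
    (hD : F.totalDegree = 2 * m) (hlead : homogeneousComponent (2 * m) F = Sq ℝ (n + 1) ^ m)
    (c : Fin (n + 1) → ℝ) : (tr c F).totalDegree = 2 * m ∧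
      homogeneousComponent (2 * m) (tr c F) = Sq ℝ (n + 1) ^ m := by
  obtain ⟨k, rfl⟩ : ∃ k, m = k + 1 := ⟨m - 1, by omega⟩
  set S := Sq ℝ (n + 1) with hS
  have hS2 : S.totalDegree ≤ 2 := by
    have h1 := (Sq_hom ℝ (n + 1) 1).totalDegree_le
    rwa [pow_one] at h1
  set H := ∑ i ∈ Finset.range (2 * (k + 1)), homogeneousComponent i F with hH
  have hF : F = S ^ (k + 1) + H := by
    have h1 := sum_homogeneousComponent F
    rw [hD, Finset.sum_range_succ, hlead] at h1
    exact (h1.symm.trans (add_comm _ _))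
  have hHd : H.totalDegree ≤ 2 * k + 1 := by
    apply totalDegree_finsetSum_le
    intro i hi
    rw [Finset.mem_range] at hi
    exact (homogeneousComponent_isHomogeneous i F).totalDegree_le.trans (by omega)
  set E : MvPolynomial (Fin (n + 1)) ℝ := ∑ a, (C (2 * c a) * X a + C (c a ^ 2)) with hE
  have hEd : E.totalDegree ≤ 1 := by
    apply totalDegree_finsetSum_le
    intro a _
    refine (totalDegree_add _ _).trans (max_le ?_ ?_)
    · refine (totalDegree_mul _ _).trans ?_
      rw [totalDegree_C, totalDegree_X]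
    · rw [totalDegree_C]
      exact zero_le_one
  have hτS : tr c S = S + E := by
    rw [hS, Sq, map_sum, hE, ← Finset.sum_add_distrib]
    refine Finset.sum_congr rfl fun a _ => ?_
    rw [map_pow, tr_X, C_mul, C_pow]
    have : (C (2 : ℝ) : MvPolynomial (Fin (n + 1)) ℝ) = 2 := map_ofNat C 2
    rw [this]
    ring
  obtain ⟨H1, hH1, hH1d⟩ := exists_pow_add hS2 hEd k
  have hτF : tr c F = S ^ (k + 1) + (H1 + tr c H) := by
    rw [hF, map_add, map_pow, hτS, hH1]
    ring
  have hτHd : (H1 + tr c H).totalDegree < 2 * (k + 1) := by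
    refine lt_of_le_of_lt ((totalDegree_add _ _).trans
      (max_le hH1d ((totalDegree_tr_le c H).trans hHd))) (by omega)
  have hcomp : homogeneousComponent (2 * (k + 1)) (tr c F) = S ^ (k + 1) := by
    rw [hτF, map_add, homogeneousComponent_eq_zero _ _ hτHd, add_zero,
      homogeneousComponent_of_mem (Sq_hom ℝ (n + 1) (k + 1)), if_pos rfl]
  refine ⟨le_antisymm ?_ ?_, hcomp⟩
  · exact (totalDegree_tr_le c F).trans hD.le
  · by_contra h
    push Not at h
    rw [homogeneousComponent_eq_zero _ _ h] at hcomp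
    exact Sq_ne ℝ n (k + 1) hcomp.symm

theorem tr_surj {N : ℕ} (c : Fin N → ℝ) (p : MvPolynomial (Fin N) ℝ) : ∃ q, tr c q = p :=
  (tr c).surjective p

theorem radial_c {n : ℕ} (hn : n ≠ 0) {F : MvPolynomial (Fin (n + 1)) ℝ} (hF : Irreducible F)
    (hWF : ¬F ∣ WW F) {l : List ℝ} (hl : ∀ μ ∈ l, μ ≠ 0) {c : Fin (n + 1) → ℝ}
    (hd : ∀ a, F ∣ iter F l 0 (X a - C (c a))) {m : ℕ} (hm : m ≠ 0)
    (hD : F.totalDegree = 2 * m) (hlead : homogeneousComponent (2 * m) F = Sq ℝ (n + 1) ^ m) :
    ∃ g : Polynomial ℝ, g ≠ 0 ∧ F ∣ Polynomial.aeval (∑ a, (X a - C (c a)) ^ 2) g := by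
  classical
  obtain ⟨b, D, hDb, hDc⟩ := exists_genField_comm n
  choose DR hDR using fun i => exists_real_derivation (L := LL' n) (fun x => D i x)
    (fun x y => map_add (D i) x y) (fun x y => (D i).leibniz x y) (fun r => by
      have h1 : algebraMap ℝ (LL' n) r = algebraMap ℂ (LL' n) (algebraMap ℝ ℂ r) :=
        IsScalarTower.algebraMap_apply ℝ ℂ (LL' n) r
      rw [h1]
      exact (D i).map_algebraMap _)
  obtain ⟨hD', hlead'⟩ := lead_tr hm hD hlead c
  have h1 : Irreducible (tr c F) := (MulEquiv.irreducible_iff (tr c)).2 hF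
  have h2 : ¬tr c F ∣ WW (tr c F) := by
    rw [tr_WW, map_dvd_iff]
    exact hWF
  have h3 : ∀ a, tr c F ∣ iter (tr c F) l 0 (X a) := by
    intro a
    have h4 : tr c (X a - C (c a)) = X a := by
      rw [map_sub, tr_X, tr_C, add_sub_cancel_right]
    have h5 := map_dvd (tr c) (hd a)
    rwa [← tr_iter, h4] at h5
  obtain ⟨g, hg0, hg⟩ := radial (L := LL' n) ⟨0, Nat.pos_of_ne_zero hn⟩ (b := b) (D := DR)
    (fun i k => by rw [hDR]; exact hDb i k) (fun i k x => by
      rw [hDR, hDR, hDR, hDR]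
      exact hDc i k x) h1 h2 hl h3 (m := m) (by rw [weightedTotalDegree_one]; exact hD') hlead'
  refine ⟨g, hg0, ?_⟩
  rw [← map_dvd_iff (tr c)]
  have h6 : tr c (Polynomial.aeval (∑ a, (X a - C (c a)) ^ 2) g) =
      Polynomial.aeval (∑ a, X a ^ 2) g := by
    have h7 := (Polynomial.aeval_algHom_apply (tr c).toAlgHom (∑ a, (X a - C (c a)) ^ 2) g).symm
    have h8 : (tr c).toAlgHom (∑ a, (X a - C (c a)) ^ 2) = ∑ a, X a ^ 2 := by
      show tr c (∑ a, (X a - C (c a)) ^ 2) = _
      rw [map_sum]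
      refine Finset.sum_congr rfl fun a _ => ?_
      rw [map_pow, map_sub, tr_X, tr_C, add_sub_cancel_right]
    rw [h8] at h7
    exact h7
  rw [h6]
  exact hg

/-- a form all of whose complex factors are associated to the square of the distance -/
theorem leading_eq {n : ℕ} {f : MvPolynomial (Fin (n + 1)) ℝ} (hf : f ≠ 0)
    (h : ∀ q : MvPolynomial (Fin (n + 1)) ℂ, Irreducible q → q ∣ map (algebraMap ℝ ℂ) f →
      Associated q (Sq ℂ (n + 1))) : ∃ (κ : ℝ) (m : ℕ), κ ≠ 0 ∧ f = C κ * Sq ℝ (n + 1) ^ m := by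
  classical
  have hfc : map (algebraMap ℝ ℂ) f ≠ 0 := by
    intro h1
    exact hf (map_injective _ (algebraMap ℝ ℂ).injective (by rw [h1, map_zero]))
  obtain ⟨s, hs, hs2⟩ := WfDvdMonoid.exists_factors (map (algebraMap ℝ ℂ) f) hfc
  have h1 : ∀ t : Multiset (MvPolynomial (Fin (n + 1)) ℂ), (∀ q ∈ t, Associated q (Sq ℂ (n + 1))) →
      Associated t.prod (Sq ℂ (n + 1) ^ Multiset.card t) := by
    intro t
    induction t using Multiset.induction_on with
    | empty =>
      intro _
      simp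
    | cons q t ih =>
      intro ht
      rw [Multiset.prod_cons, Multiset.card_cons, pow_succ, mul_comm]
      exact (ih fun q' hq' => ht q' (Multiset.mem_cons_of_mem hq')).mul_mul
        (ht q (Multiset.mem_cons_self q t))
  have h2 := h1 s fun q hq => h q (hs q hq) ((Multiset.dvd_prod hq).trans hs2.dvd)
  obtain ⟨u, hu⟩ := (h2.symm.trans hs2)
  obtain ⟨κ', hκ', hκ''⟩ := MvPolynomial.isUnit_iff_eq_C_of_isReduced.1 u.isUnit
  set m := Multiset.card s
  have h3 : map (algebraMap ℝ ℂ) f = C κ' * Sq ℂ (n + 1) ^ m := by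
    rw [← hu, hκ'']
    ring
  have h4 : κ' = algebraMap ℝ ℂ (eval (Pi.single 0 1) f) := by
    have h5 := congrArg (eval (Pi.single (0 : Fin (n + 1)) (1 : ℂ))) h3
    rw [map_mul, eval_C, eval_Sq, mul_one] at h5
    rw [← h5, eval_map, eval₂_eq', eval_eq', map_sum]
    refine Finset.sum_congr rfl fun s _ => ?_
    rw [map_mul, map_prod]
    congr 1
    refine Finset.prod_congr rfl fun i _ => ?_
    rw [map_pow]
    congr 1
    rw [Pi.single_apply, Pi.single_apply]
    split
    · rw [map_one]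
    · rw [map_zero]
  refine ⟨eval (Pi.single 0 1) f, m, ?_, ?_⟩
  · intro h5
    rw [h5, map_zero] at h4
    exact hκ'.ne_zero h4
  · apply map_injective _ (algebraMap ℝ ℂ).injective
    rw [h3, h4, map_mul, map_C, map_pow]
    congr 2
    rw [Sq, Sq, map_sum]
    refine Finset.sum_congr rfl fun a _ => ?_
    rw [map_pow, map_X]

end

end Run7.h978
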