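import Mathlib
import Pool.Agent.Run7.h978.Nfr13
import Pool.Agent.Run7.h978.Sph12

set_option autoImplicit false
set_option linter.unusedSectionVars false

/-!
The leading coefficients of the equation in an isotropic frame.
-/

open MvPolynomial

namespace Run7.h978

theorem weight_one_eq {N : ℕ} (s : Fin N →₀ ℕ) :
    Finsupp.weight (1 : Fin N → ℕ) s = s.degree := by
  rw [Finsupp.degree_eq_weight_one]
  rfl

theorem hom_of_mul {N k d : ℕ} {A B : MvPolynomial (Fin N) ℂ} (hA : A.IsHomogeneous k)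
    (hA0 : A ≠ 0) (hB0 : B ≠ 0) (hAB : (A * B).IsHomogeneous d) :
    ∃ j, d = k + j ∧ B.IsHomogeneous j := by
  have key : ∀ j, homogeneousComponent (k + j) (A * B) = A * homogeneousComponent j B := by
    intro j
    conv_lhs => rw [← sum_homogeneousComponent B]
    rw [Finset.mul_sum, map_sum]
    have h1 : ∀ i, homogeneousComponent (k + j) (A * homogeneousComponent i B) =
        if j = i then A * homogeneousComponent j B else 0 := by
      intro i
      rw [homogeneousComponent_of_mem (m := k + j) (n := k + i)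
        (hA.mul (homogeneousComponent_isHomogeneous i B))]
      by_cases h : j = i
      · rw [if_pos h, if_pos (by rw [h]), h]
      · rw [if_neg h, if_neg (by omega)]
    simp only [h1]
    rw [Finset.sum_ite_eq]
    split
    · rfl
    · rename_i h
      rw [Finset.mem_range] at h
      rw [homogeneousComponent_eq_zero _ _ (by omega), mul_zero]
  have h2 : ∀ j, homogeneousComponent j B ≠ 0 → d = k + j := by
    intro j hj
    by_contra h
    have h3 := homogeneousComponent_of_mem (m := k + j) hAB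
    rw [if_neg (Ne.symm h), key] at h3
    exact mul_ne_zero hA0 hj h3
  obtain ⟨s, hs⟩ : ∃ s, coeff s B ≠ 0 := by
    by_contra h
    push Not at h
    exact hB0 (MvPolynomial.ext _ _ fun s => by rw [h s, coeff_zero])
  have h4 : ∀ s, coeff s B ≠ 0 → d = k + s.degree := by
    intro s hs
    apply h2
    intro h5
    have h6 := coeff_homogeneousComponent (n := s.degree) (φ := B) s
    rw [h5, coeff_zero, if_pos rfl] at h6
    exact hs h6.symm
  refine ⟨s.degree, h4 s hs, fun t ht => ?_⟩
  have h5 := h4 t ht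
  have h6 := h4 s hs
  rw [weight_one_eq]
  omega

section

variable (f : Fr ℂ 2 0)

theorem eqn_coeff (P : MvPolynomial (Fin 3) ℂ) (i : ℕ) (m : Fin 2 →₀ ℕ) :
    ((eqn f P).coeff i).coeff m = coeff (m.cons i) (linc f P) := by
  rw [eqn, finSuccEquiv_coeff_coeff]

theorem linc_hom {P : MvPolynomial (Fin 3) ℂ} {k : ℕ} (h : P.IsHomogeneous k) :
    (linc f P).IsHomogeneous k := by
  have h1 := h.aeval (fun a => (C (f.u a) * X 0 + C (f.E 0 a) * X 1 + C (f.E 1 a) * X 2 :
    MvPolynomial (Fin 3) ℂ)) (n := 1) (fun i => by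
      refine IsHomogeneous.add (IsHomogeneous.add ?_ ?_) ?_
      · exact (isHomogeneous_X _ _).C_mul _
      · exact (isHomogeneous_X _ _).C_mul _
      · exact (isHomogeneous_X _ _).C_mul _)
  rw [one_mul] at h1
  unfold linc
  exact h1

theorem deg_cons (i : ℕ) (m : Fin 2 →₀ ℕ) : (m.cons i).degree = i + m 0 + m 1 := by
  rw [Finsupp.degree_eq_sum, Fin.sum_univ_succ, Fin.sum_univ_two, Finsupp.cons_zero,
    Finsupp.cons_succ, Finsupp.cons_succ]
  ring

theorem eqn_hom {P : MvPolynomial (Fin 3) ℂ} {k : ℕ} (h : P.IsHomogeneous k) {i : ℕ}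
    {m : Fin 2 →₀ ℕ} (hm : ((eqn f P).coeff i).coeff m ≠ 0) : i + m 0 + m 1 = k := by
  rw [eqn_coeff] at hm
  have h1 := linc_hom f h hm
  rw [weight_one_eq] at h1
  rw [← deg_cons]
  exact h1

theorem eqn_comp (P : MvPolynomial (Fin 3) ℂ) (i : ℕ) (m : Fin 2 →₀ ℕ) :
    ((eqn f P).coeff i).coeff m =
      ((eqn f (homogeneousComponent (i + m 0 + m 1) P)).coeff i).coeff m := by
  conv_lhs => rw [← sum_homogeneousComponent P]
  rw [eqn_coeff, map_sum, coeff_sum]
  rw [Finset.sum_eq_single (i + m 0 + m 1)]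
  · rw [eqn_coeff]
  · intro j _ hj
    by_contra h
    rw [← eqn_coeff] at h
    exact hj (eqn_hom f (homogeneousComponent_isHomogeneous j P) h).symm
  · intro h
    rw [Finset.mem_range] at h
    rw [homogeneousComponent_eq_zero _ _ (by omega), map_zero, coeff_zero]

theorem eqn_deg {P : MvPolynomial (Fin 3) ℂ} {i : ℕ} {m : Fin 2 →₀ ℕ}
    (hm : ((eqn f P).coeff i).coeff m ≠ 0) : i + m 0 + m 1 ≤ P.totalDegree := by
  by_contra h
  apply hm
  rw [eqn_comp, homogeneousComponent_eq_zero _ _ (by omega), eqn_coeff, map_zero, coeff_zero]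

theorem eqn_mul (P Q : MvPolynomial (Fin 3) ℂ) : eqn f (P * Q) = eqn f P * eqn f Q := by
  rw [eqn, map_mul, map_mul]
  rfl

theorem eqn_pow (P : MvPolynomial (Fin 3) ℂ) (k : ℕ) : eqn f (P ^ k) = eqn f P ^ k := by
  rw [eqn, map_pow, map_pow]
  rfl

/-- the linear form of a vector -/
noncomputable def lin3 (e : Fin 3 → ℂ) : MvPolynomial (Fin 3) ℂ := ∑ a, C (e a) * X a

theorem eqn_lin : eqn f (lin3 (f.E 0)) = Polynomial.C (C (1 / 2)) * Polynomial.X := by
  have h1 : linc f (lin3 (f.E 0)) = C (1 / 2) * X 0 := by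
    have e1 := f.uE0
    have e2 := f.E00
    have e3 := f.E0E 1 (by decide)
    rw [Fin.sum_univ_three] at e1 e2 e3
    have k1 : (1 / 2 : ℂ) = f.u 0 * f.E 0 0 + f.u 1 * f.E 0 1 + f.u 2 * f.E 0 2 := by
      linear_combination -(1 / 2) * e1
    rw [lin3, map_sum, Fin.sum_univ_three, map_mul, map_mul, map_mul, linc_X, linc_X, linc_X]
    have hC : ∀ c, linc f (C c) = C c := fun c => (linc f).commutes c
    rw [hC, hC, hC, k1]
    have k2 := congrArg (C : ℂ → MvPolynomial (Fin 3) ℂ) e2
    have k3 := congrArg (C : ℂ → MvPolynomial (Fin 3) ℂ) e3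
    simp only [C_add, C_mul, C_0] at k2 k3 ⊢
    linear_combination X 1 * k2 + X 2 * k3
  rw [eqn, h1, map_mul, finSuccEquiv_X_zero]
  congr 1
  exact (finSuccEquiv ℂ 2).commutes _

theorem eqn_Sq : eqn f (Sq ℂ 3) = Polynomial.X * Polynomial.C (X 0) + Polynomial.C (X 1 ^ 2) := by
  have h1 : linc f (Sq ℂ 3) = X 0 * X 1 + X 2 ^ 2 := by
    have e1 := f.uE0
    have e2 := f.E00
    have e3 := f.E0E 1 (by decide)
    have e4 := f.uu
    have e5 := f.uE 1 (by decide)
    have e6 := f.EE 1 1 (by decide) (by decide)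
    rw [if_pos rfl] at e6
    rw [Fin.sum_univ_three] at e1 e2 e3 e4 e5 e6
    rw [Sq, map_sum, Fin.sum_univ_three, map_pow, map_pow, map_pow, linc_X, linc_X, linc_X]
    have k1 := congrArg (C : ℂ → MvPolynomial (Fin 3) ℂ) e1
    have k2 := congrArg (C : ℂ → MvPolynomial (Fin 3) ℂ) e2
    have k3 := congrArg (C : ℂ → MvPolynomial (Fin 3) ℂ) e3
    have k4 := congrArg (C : ℂ → MvPolynomial (Fin 3) ℂ) e4
    have k5 := congrArg (C : ℂ → MvPolynomial (Fin 3) ℂ) e5
    have k6 := congrArg (C : ℂ → MvPolynomial (Fin 3) ℂ) e6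
    have c2 : (C (2 : ℂ) : MvPolynomial (Fin 3) ℂ) = 2 := map_ofNat C 2
    simp only [C_add, C_mul, C_0, C_1, c2] at k1 k2 k3 k4 k5 k6
    linear_combination X 0 ^ 2 * k4 + X 0 * X 1 * k1 + X 1 ^ 2 * k2 + 2 * X 0 * X 2 * k5 +
      2 * X 1 * X 2 * k3 + X 2 ^ 2 * k6
  rw [eqn, h1, map_add, map_mul, map_pow, finSuccEquiv_X_zero]
  have h2 : finSuccEquiv ℂ 2 (X 1) = Polynomial.C (X 0) := finSuccEquiv_X_succ (j := 0)
  have h3 : finSuccEquiv ℂ 2 (X 2) = Polynomial.C (X 1) := finSuccEquiv_X_succ (j := 1)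
  rw [h2, h3, Polynomial.C_pow]

theorem eval_lin3 (e : Fin 3 → ℂ) (v : Fin 3 → ℂ) : eval v (lin3 e) = ∑ a, e a * v a := by
  rw [lin3, map_sum]
  refine Finset.sum_congr rfl fun a _ => ?_
  rw [map_mul, eval_C, eval_X]

/-- the coefficient of the highest power of the second coordinate -/
theorem coeff_top {g : MvPolynomial (Fin 3) ℂ} {N : ℕ} (hg : g.IsHomogeneous N) :
    ((eqn f g).coeff 0).coeff (mk2 N 0) = eval (f.E 0) g := by
  have h1 : (linc f g).eval₂ (RingHom.id ℂ) ![0, 1, 0] = eval (f.E 0) g := by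
    rw [eval_linc, ← eval₂_id]
    congr 1
    funext a
    simp
  rw [eqn_coeff, ← h1, eval₂_eq', Finset.sum_eq_single ((mk2 N 0).cons 0)]
  · rw [Fin.prod_univ_three]
    have k0 : ((mk2 N 0).cons 0) 0 = 0 := Finsupp.cons_zero _ _
    have k1 : ((mk2 N 0).cons 0) 1 = N := Finsupp.cons_succ 0 0 (mk2 N 0)
    have k2 : ((mk2 N 0).cons 0) 2 = 0 := Finsupp.cons_succ 1 0 (mk2 N 0)
    rw [k0, k1, k2]
    simp
  · intro s hs hne
    rw [Fin.prod_univ_three]
    by_cases h0 : s 0 = 0
    · by_cases h2 : s 2 = 0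
      · exfalso
        apply hne
        have h3 := linc_hom f hg (mem_support_iff.1 hs)
        rw [weight_one_eq] at h3
        have h4 : s.degree = N := h3
        rw [Finsupp.degree_eq_sum, Fin.sum_univ_three] at h4
        ext i
        fin_cases i
        · exact h0
        · show s 1 = N
          omega
        · exact h2
      · have : (![0, 1, 0] : Fin 3 → ℂ) 2 = 0 := rfl
        rw [this, zero_pow h2, mul_zero, mul_zero]
    · have : (![0, 1, 0] : Fin 3 → ℂ) 0 = 0 := rfl
      rw [this, zero_pow h0, zero_mul, zero_mul, mul_zero]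
  · intro h
    rw [notMem_support_iff.1 h, RingHom.id_apply, zero_mul]

end

theorem exists_genField_comm' (n : ℕ) : ∃ (b : Fin n → LL' n)
    (D : Fin n → Derivation ℂ (LL' n) (LL' n)),
      (∀ i k, D i (b k) = if i = k then 1 else 0) ∧ (∀ i k x, D i (D k x) = D k (D i x)) ∧
        ∀ p : MvPolynomial (Fin n) ℂ, aeval b p = 0 → p = 0 := by
  have := formallyEtale_LL' n
  set A := MvPolynomial (Fin n) ℂ
  have hinj : Function.Injective (algebraMap A (LL' n)) := by
    rw [IsScalarTower.algebraMap_eq A (FractionRing A) (LL' n)]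
    exact (algebraMap (FractionRing A) (LL' n)).injective.comp
      (IsFractionRing.injective A (FractionRing A))
  have h1 : ∀ i : Fin n, ∃ D : Derivation ℂ (LL' n) (LL' n), ∀ a : A,
      D (algebraMap A (LL' n) a) = algebraMap A (LL' n) (MvPolynomial.pderiv i a) := by
    intro i
    obtain ⟨D, hD⟩ := exists_derivation (R := ℂ) (A := A) (B := LL' n)
      ((Algebra.linearMap A (LL' n)).compDer (MvPolynomial.pderiv i))
    exact ⟨D, hD⟩
  choose D hD using h1
  refine ⟨fun i => algebraMap A (LL' n) (MvPolynomial.X i), D, fun i k => ?_, fun i k x => ?_,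
    fun p hp => ?_⟩
  · rw [hD, MvPolynomial.pderiv_X, Pi.single_apply]
    by_cases h : i = k
    · rw [if_pos h, if_pos h.symm, map_one]
    · rw [if_neg h, if_neg (Ne.symm h), map_zero]
  · have h2 := der_eq_zero_of_etale (A := A) ⁅D i, D k⁆ (fun a => by
      rw [Derivation.commutator_apply, hD, hD, hD, hD, ← map_sub]
      have h3 : ⁅(pderiv i : Derivation ℂ A A), (pderiv k : Derivation ℂ A A)⁆ = 0 := by
        apply MvPolynomial.derivation_ext
        intro l
        rw [Derivation.commutator_apply, pderiv_X, pderiv_X, Derivation.coe_zero, Pi.zero_apply]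
        have h4 : ∀ (u v : Fin n), pderiv u (Pi.single (M := fun _ => A) v (1 : A) l) = 0 := by
          intro u v
          rw [Pi.single_apply]
          split
          · exact Derivation.map_one_eq_zero _
          · exact map_zero _
        rw [h4, h4, sub_zero]
      have h5 := congrArg (fun E : Derivation ℂ A A => E a) h3
      simp only [Derivation.commutator_apply, Derivation.coe_zero, Pi.zero_apply] at h5
      rw [h5, map_zero]) x
    rw [Derivation.commutator_apply, sub_eq_zero] at h2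
    exact h2
  · have h2 : (MvPolynomial.aeval (fun i => algebraMap A (LL' n) (X i)) : A →ₐ[ℂ] LL' n) =
        IsScalarTower.toAlgHom ℂ A (LL' n) := by
      apply MvPolynomial.algHom_ext
      intro i
      rw [MvPolynomial.aeval_X]
      rfl
    rw [h2] at hp
    exact hinj (by rw [map_zero]; exact hp)

end Run7.h978
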