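import Mathlib
import Pool.Agent.Run7.h978.Nfr14

set_option autoImplicit false
set_option linter.unusedSectionVars false

/-!
Isotropic linear factors of low multiplicity of the leading form.
-/

open MvPolynomial

namespace Run7.h978

theorem coeff_X1sq (p : MvPolynomial (Fin 2) ℂ) (m : Fin 2 →₀ ℕ) :
    coeff m (X 1 ^ 2 * p) = if 2 ≤ m 1 then coeff (mk2 (m 0) (m 1 - 2)) p else 0 := by
  rw [X_pow_eq_monomial, coeff_monomial_mul']
  by_cases h : 2 ≤ m 1
  · rw [if_pos h, if_pos (by rwa [Finsupp.single_le_iff]), one_mul]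
    congr 1
    refine eq_mk2 ?_ ?_
    · rw [Finsupp.tsub_apply, Finsupp.single_eq_of_ne (by decide), Nat.sub_zero]
    · rw [Finsupp.tsub_apply, Finsupp.single_eq_same]
  · rw [if_neg h, if_neg (by rwa [Finsupp.single_le_iff])]

theorem coeff_X0 (p : MvPolynomial (Fin 2) ℂ) (j k : ℕ) :
    coeff (mk2 (j + 1) k) (X 0 * p) = coeff (mk2 j k) p := by
  have h1 : mk2 (j + 1) k = Finsupp.single 0 1 + mk2 j k := by
    symm
    refine eq_mk2 ?_ ?_
    · rw [Finsupp.add_apply, Finsupp.single_eq_same, mk2_zero, add_comm]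
    · rw [Finsupp.add_apply, Finsupp.single_eq_of_ne (by decide), mk2_one, zero_add]
  rw [h1, coeff_X_mul]

section

variable {L : Type} [Field L] [Algebra ℝ L] [CharZero L] [IsAlgClosed L]

variable {φ : ℂ →+* L} {b : Fin 2 → L} {D : Fin 2 → Derivation ℝ L L}
  (hDb : ∀ i k, D i (b k) = if i = k then 1 else 0) (hDc : ∀ i k x, D i (D k x) = D k (D i x))
  (hDC : ∀ i (c : ℂ), D i (φ c) = 0)
  (hinj : ∀ p : MvPolynomial (Fin 2) ℂ, p.eval₂ φ b = 0 → p = 0)
  {l : List ℝ} (hl : ∀ μ ∈ l, μ ≠ 0)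
  {f : Fr ℂ 2 0} {P : MvPolynomial (Fin 3) ℂ} (hit : Hit φ b D l (eqn f P))

include hDb hDc hDC hit hl hinj

theorem low_case {g : MvPolynomial (Fin 3) ℂ} {N : ℕ} (hg : g.IsHomogeneous N)
    (hge : eval (f.E 0) g ≠ 0) {e1 m : ℕ}
    (hfac : homogeneousComponent P.totalDegree P = lin3 (f.E 0) ^ e1 * Sq ℂ 3 ^ m * g)
    (hd : P.totalDegree = e1 + 2 * m + N) (h1 : 1 ≤ e1) (h2 : e1 + m ≤ 2) : False := by
  have htop : ∀ i (s : Fin 2 →₀ ℕ), i + s 0 + s 1 = P.totalDegree →
      ((eqn f P).coeff i).coeff s =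
        ((eqn f (lin3 (f.E 0) ^ e1 * Sq ℂ 3 ^ m * g)).coeff i).coeff s := by
    intro i s hs
    rw [eqn_comp, hs, hfac]
  have hdeg : ∀ i s, ((eqn f P).coeff i).coeff s ≠ 0 → i + s 0 + s 1 ≤ P.totalDegree :=
    fun i s h => eqn_deg f h
  rw [hd] at hdeg htop
  set Q := eqn f g with hQ
  have hQ0 : (Q.coeff 0).coeff (mk2 N 0) = eval (f.E 0) g := coeff_top f hg
  have hcases : (e1 = 1 ∧ m = 0) ∨ (e1 = 1 ∧ m = 1) ∨ (e1 = 2 ∧ m = 0) := by omega
  rcases hcases with ⟨rfl, rfl⟩ | ⟨rfl, rfl⟩ | ⟨rfl, rfl⟩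
  · -- a simple factor
    have hR : eqn f (lin3 (f.E 0) ^ 1 * Sq ℂ 3 ^ 0 * g) =
        Polynomial.C (C (1 / 2)) * (Polynomial.X * Q) := by
      rw [pow_one, pow_zero, mul_one, eqn_mul, eqn_lin, mul_assoc]
    rw [hR] at htop
    have r0 : ∀ s, ((Polynomial.C (C (1 / 2)) * (Polynomial.X * Q)).coeff 0).coeff s =
        (0 : ℂ) := by
      intro s
      rw [Polynomial.coeff_C_mul, Polynomial.mul_coeff_zero, Polynomial.coeff_X_zero, zero_mul,
        mul_zero, coeff_zero]
    refine no_simple hDb hDc hDC hinj hl hit (J := N) ?_ ?_ ?_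
    · intro i s hs
      have := hdeg i s hs
      omega
    · intro s hs
      have k1 := hdeg 0 s hs
      by_contra k2
      rw [htop 0 s (by omega), r0] at hs
      exact hs rfl
    · rw [htop 1 _ (by rw [mk2_zero, mk2_one]; omega), Polynomial.coeff_C_mul,
        Polynomial.coeff_X_mul, coeff_C_mul, hQ0]
      exact mul_ne_zero (by norm_num) hge
  · -- a simple factor and the square of the distance
    set Q' : Polynomial (MvPolynomial (Fin 2) ℂ) :=
      (Polynomial.X * Polynomial.C (X 0) + Polynomial.C (X 1 ^ 2)) * Q with hQ'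
    have hR : eqn f (lin3 (f.E 0) ^ 1 * Sq ℂ 3 ^ 1 * g) =
        Polynomial.C (C (1 / 2)) * (Polynomial.X * Q') := by
      rw [pow_one, pow_one, eqn_mul, eqn_mul, eqn_lin, eqn_Sq, hQ']
      ring
    rw [hR] at htop
    have r0 : ∀ s, ((Polynomial.C (C (1 / 2)) * (Polynomial.X * Q')).coeff 0).coeff s =
        (0 : ℂ) := by
      intro s
      rw [Polynomial.coeff_C_mul, Polynomial.mul_coeff_zero, Polynomial.coeff_X_zero, zero_mul,
        mul_zero, coeff_zero]
    have q0 : Q'.coeff 0 = X 1 ^ 2 * Q.coeff 0 := by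
      rw [hQ', Polynomial.mul_coeff_zero, Polynomial.coeff_add, Polynomial.mul_coeff_zero,
        Polynomial.coeff_X_zero, Polynomial.coeff_C_zero, Polynomial.coeff_C_zero]
      ring
    have q1 : Q'.coeff 1 = X 0 * Q.coeff 0 + X 1 ^ 2 * Q.coeff 1 := by
      rw [hQ', add_mul, mul_assoc, Polynomial.coeff_add, Polynomial.coeff_X_mul,
        Polynomial.coeff_C_mul, Polynomial.coeff_C_mul]
    refine no_double hDb hDc hDC hinj hl hit (J := N + 1) (γ := 1 / 2 * eval (f.E 0) g)
      (mm := 1) ?_ ?_ ?_ ?_ ?_ (mul_ne_zero (by norm_num) hge) (by norm_num)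
    · intro i s hs
      have := hdeg i s hs
      omega
    · intro s hs
      have k1 := hdeg 0 s hs
      by_contra k2
      rw [htop 0 s (by omega), r0] at hs
      exact hs rfl
    · intro s hs
      have k1 := hdeg 1 s hs
      by_contra k2
      push Not at k2
      rw [htop 1 s (by omega), Polynomial.coeff_C_mul, Polynomial.coeff_X_mul, coeff_C_mul, q0,
        coeff_X1sq, if_neg (by omega), mul_zero] at hs
      exact hs rfl
    · intro s hs0 hs1
      rw [htop 1 s (by omega), Polynomial.coeff_C_mul, Polynomial.coeff_X_mul, coeff_C_mul, q0,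
        coeff_X1sq, if_pos (by omega), one_mul, ← hQ0, show s 0 = N by omega,
        show s 1 - 2 = 0 by omega]
    · rw [htop 2 _ (by rw [mk2_zero, mk2_one]; omega), Polynomial.coeff_C_mul,
        Polynomial.coeff_X_mul, coeff_C_mul, q1, coeff_add, coeff_X0, hQ0, coeff_X1sq, if_neg,
        add_zero]
      rw [mk2_one]
      omega
  · -- a double factor
    have hR : eqn f (lin3 (f.E 0) ^ 2 * Sq ℂ 3 ^ 0 * g) =
        Polynomial.C (C (1 / 4)) * (Polynomial.X * (Polynomial.X * Q)) := by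
      have k1 : (C (1 / 4) : MvPolynomial (Fin 2) ℂ) = C (1 / 2) * C (1 / 2) := by
        rw [← C_mul]
        congr 1
        norm_num
      rw [pow_zero, mul_one, eqn_mul, eqn_pow, eqn_lin, k1, Polynomial.C_mul]
      ring
    rw [hR] at htop
    have r0 : ∀ s, ((Polynomial.C (C (1 / 4)) * (Polynomial.X *
        (Polynomial.X * Q))).coeff 0).coeff s = (0 : ℂ) := by
      intro s
      rw [Polynomial.coeff_C_mul, Polynomial.mul_coeff_zero, Polynomial.coeff_X_zero, zero_mul,
        mul_zero, coeff_zero]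
    have r1 : ∀ s, ((Polynomial.C (C (1 / 4)) * (Polynomial.X *
        (Polynomial.X * Q))).coeff 1).coeff s = (0 : ℂ) := by
      intro s
      rw [Polynomial.coeff_C_mul, Polynomial.coeff_X_mul, Polynomial.mul_coeff_zero,
        Polynomial.coeff_X_zero, zero_mul, mul_zero, coeff_zero]
    refine no_double hDb hDc hDC hinj hl hit (J := N) (γ := 1 / 4 * eval (f.E 0) g)
      (mm := 0) ?_ ?_ ?_ ?_ ?_ (mul_ne_zero (by norm_num) hge) (by norm_num)
    · intro i s hs
      have := hdeg i s hs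
      omega
    · intro s hs
      have k1 := hdeg 0 s hs
      by_contra k2
      rw [htop 0 s (by omega), r0] at hs
      exact hs rfl
    · intro s hs
      have k1 := hdeg 1 s hs
      by_contra k2
      push Not at k2
      rw [htop 1 s (by omega), r1] at hs
      exact hs rfl
    · intro s hs0 hs1
      rw [htop 1 s (by omega), r1, zero_mul]
    · rw [htop 2 _ (by rw [mk2_zero, mk2_one]; omega), Polynomial.coeff_C_mul,
        Polynomial.coeff_X_mul, Polynomial.coeff_X_mul, coeff_C_mul, hQ0]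

end

/-- no isotropic linear factor of low multiplicity -/
theorem no_low {F : MvPolynomial (Fin 3) ℝ} (hF : Irreducible F) (hWF : ¬F ∣ WW F) {l : List ℝ}
    (hl : ∀ μ ∈ l, μ ≠ 0) (hd : ∀ a, F ∣ iter F l 0 (X a)) {e : Fin 3 → ℂ} (he : e ≠ 0)
    (hee : ∑ a, e a ^ 2 = 0) {g : MvPolynomial (Fin 3) ℂ} (hge : eval e g ≠ 0) {e1 m : ℕ}
    (hfac : map (algebraMap ℝ ℂ) (homogeneousComponent F.totalDegree F) =
      lin3 e ^ e1 * Sq ℂ 3 ^ m * g) (h1 : 1 ≤ e1) (h2 : e1 + m ≤ 2) : False := by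
  obtain ⟨b, D, hDb, hDc, hinj⟩ := exists_genField_comm' 2
  choose DR hDR using fun i => exists_real_derivation (L := LL' 2) (fun x => D i x)
    (fun x y => map_add (D i) x y) (fun x y => (D i).leibniz x y) (fun r => by
      have h1 : algebraMap ℝ (LL' 2) r = algebraMap ℂ (LL' 2) (algebraMap ℝ ℂ r) :=
        IsScalarTower.algebraMap_apply ℝ ℂ (LL' 2) r
      rw [h1]
      exact (D i).map_algebraMap _)
  obtain ⟨f, rfl⟩ := exists_frame he hee
  have hinjC : Function.Injective (map (algebraMap ℝ ℂ) :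
      MvPolynomial (Fin 3) ℝ → MvPolynomial (Fin 3) ℂ) :=
    map_injective _ (algebraMap ℝ ℂ).injective
  set P := map (algebraMap ℝ ℂ) F with hP
  have hPd : P.totalDegree = F.totalDegree := by
    rw [hP, totalDegree, totalDegree, support_map_of_injective _ (algebraMap ℝ ℂ).injective]
  have hPh : homogeneousComponent P.totalDegree P =
      map (algebraMap ℝ ℂ) (homogeneousComponent F.totalDegree F) := by
    rw [hPd, hP]
    ext s
    rw [coeff_homogeneousComponent, coeff_map, coeff_map, coeff_homogeneousComponent]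
    split
    · rfl
    · rw [map_zero]
  have hf0 : homogeneousComponent F.totalDegree F ≠ 0 := by
    have h1 := (top_weighted (1 : Fin 3 → ℕ) hF.ne_zero).2
    rw [weightedTotalDegree_one] at h1
    exact h1
  have hfc0 : map (algebraMap ℝ ℂ) (homogeneousComponent F.totalDegree F) ≠ 0 := by
    intro h
    exact hf0 (hinjC (by rw [h, map_zero]))
  have hg0 : g ≠ 0 := by
    rintro rfl
    exact hge (map_zero _)
  have hA : (lin3 (f.E 0) ^ e1 * Sq ℂ 3 ^ m).IsHomogeneous (e1 + 2 * m) := by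
    refine IsHomogeneous.mul ?_ (Sq_hom ℂ 3 m)
    have h3 : (lin3 (f.E 0)).IsHomogeneous 1 :=
      IsHomogeneous.sum _ _ _ fun i _ => (isHomogeneous_X _ _).C_mul _
    have h4 := h3.pow e1
    rwa [one_mul] at h4
  have hA0 : lin3 (f.E 0) ^ e1 * Sq ℂ 3 ^ m ≠ 0 := by
    intro h
    rw [hfac, h, zero_mul] at hfc0
    exact hfc0 rfl
  have hAB : (lin3 (f.E 0) ^ e1 * Sq ℂ 3 ^ m * g).IsHomogeneous F.totalDegree := by
    rw [← hfac]
    exact (homogeneousComponent_isHomogeneous _ F).map _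
  obtain ⟨N, hN, hg⟩ := hom_of_mul hA hA0 hg0 hAB
  refine low_case (φ := algebraMap ℂ (LL' 2)) (b := b) (D := DR) (fun i k => ?_)
    (fun i k x => ?_) (fun i c => ?_) (fun p hp => hinj p hp) hl (f := f) (P := P)
    (exists_hit (fun r => ?_) (fun i c => ?_) hF hWF hd f) hg hge (hPh.trans hfac)
    (hPd.trans hN) h1 h2
  · rw [hDR]
    exact hDb i k
  · rw [hDR, hDR, hDR, hDR]
    exact hDc i k x
  · rw [hDR]
    exact (D i).map_algebraMap c
  · exact (IsScalarTower.algebraMap_apply ℝ ℂ (LL' 2) r).symm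
  · rw [hDR]
    exact (D i).map_algebraMap c

end Run7.h978
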