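import Mathlib
import Pool.Agent.Run7.h978.Nfr15

set_option autoImplicit false
set_option linter.unusedSectionVars false

/-!
Isotropic plane curves.
-/

open MvPolynomial

namespace Run7.h978

theorem elim_step {L : Type} [Field L] [Algebra ℂ L] {m : ℕ}
    (a : Fin (m + 1)) {z : Fin (m + 1) → L} {D : Derivation ℂ L L}
    (hp : ∀ p : Polynomial L, (∀ s, D (p.coeff s) = 0) → p.eval (z a) = 0 → p = 0)
    (hi : ∀ i, D (z (a.succAbove i)) = 0)
    {R : MvPolynomial (Fin (m + 1)) ℂ} (hR : R ≠ 0) (hz : aeval z R = 0) :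
    ∃ R1 : MvPolynomial (Fin m) ℂ, R1 ≠ 0 ∧ aeval (fun i => z (a.succAbove i)) R1 = 0 := by
  set ψ : MvPolynomial (Fin m) ℂ →+* L :=
    (aeval (fun i => z (a.succAbove i)) : MvPolynomial (Fin m) ℂ →ₐ[ℂ] L).toRingHom with hψ
  have h1 : ((sg a R).map ψ).eval (z a) = 0 := by
    rw [Polynomial.eval_map, hψ, aeval_sg]
    exact hz
  have h2 : (sg a R).map ψ = 0 := by
    refine hp _ (fun s => ?_) h1
    rw [Polynomial.coeff_map]
    show D (aeval (fun i => z (a.succAbove i)) ((sg a R).coeff s)) = 0
    rw [chain]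
    refine Finset.sum_eq_zero fun i _ => ?_
    rw [hi, mul_zero]
  have h3 : sg a R ≠ 0 := by
    intro h
    exact hR ((sg (R := ℂ) a).injective (by rw [h, map_zero]))
  obtain ⟨k, hk⟩ : ∃ k, (sg a R).coeff k ≠ 0 := by
    by_contra h
    push Not at h
    exact h3 (Polynomial.ext fun k => by rw [h k, Polynomial.coeff_zero])
  refine ⟨(sg a R).coeff k, hk, ?_⟩
  have h4 := congrArg (fun p => Polynomial.coeff p k) h2
  simp only [Polynomial.coeff_map, Polynomial.coeff_zero] at h4
  exact h4

/-- generic elements, whose derivations have only the constants in the kernel -/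
theorem exists_genField_const : ∃ (b : Fin 2 → LL' 2)
    (D : Fin 2 → Derivation ℂ (LL' 2) (LL' 2)),
      (∀ i k, D i (b k) = if i = k then 1 else 0) ∧
        (∀ p : MvPolynomial (Fin 2) ℂ, aeval b p = 0 → p = 0) ∧
          ∀ x, (∀ i, D i x = 0) → ∃ c : ℂ, x = algebraMap ℂ (LL' 2) c := by
  have := formallyEtale_LL' 2
  set A := MvPolynomial (Fin 2) ℂ with hA
  have hinj : Function.Injective (algebraMap A (LL' 2)) := by
    rw [IsScalarTower.algebraMap_eq A (FractionRing A) (LL' 2)]
    exact (algebraMap (FractionRing A) (LL' 2)).injective.comp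
      (IsFractionRing.injective A (FractionRing A))
  have h1 : ∀ i : Fin 2, ∃ D : Derivation ℂ (LL' 2) (LL' 2), ∀ a : A,
      D (algebraMap A (LL' 2) a) = algebraMap A (LL' 2) (MvPolynomial.pderiv i a) := by
    intro i
    obtain ⟨D, hD⟩ := exists_derivation (R := ℂ) (A := A) (B := LL' 2)
      ((Algebra.linearMap A (LL' 2)).compDer (MvPolynomial.pderiv i))
    exact ⟨D, hD⟩
  choose D hD using h1
  set b : Fin 2 → LL' 2 := fun i => algebraMap A (LL' 2) (MvPolynomial.X i) with hb
  have hmap : ∀ p : A, aeval b p = algebraMap A (LL' 2) p := by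
    intro p
    have h2 : (MvPolynomial.aeval b : A →ₐ[ℂ] LL' 2) = IsScalarTower.toAlgHom ℂ A (LL' 2) := by
      apply MvPolynomial.algHom_ext
      intro i
      rw [MvPolynomial.aeval_X]
      rfl
    rw [h2]
    rfl
  have hDb : ∀ i k, D i (b k) = if i = k then 1 else 0 := by
    intro i k
    rw [hb]
    show D i (algebraMap A (LL' 2) (X k)) = _
    rw [hD, MvPolynomial.pderiv_X, Pi.single_apply]
    by_cases h : i = k
    · rw [if_pos h, if_pos h.symm, map_one]
    · rw [if_neg h, if_neg (Ne.symm h), map_zero]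
  choose DR hDR using fun i => exists_real_derivation (L := LL' 2) (fun x => D i x)
    (fun x y => map_add (D i) x y) (fun x y => (D i).leibniz x y) (fun r => by
      have h1 : algebraMap ℝ (LL' 2) r = algebraMap ℂ (LL' 2) (algebraMap ℝ ℂ r) :=
        IsScalarTower.algebraMap_apply ℝ ℂ (LL' 2) r
      rw [h1]
      exact (D i).map_algebraMap _)
  refine ⟨b, D, hDb, fun p hp => ?_, fun x hx => ?_⟩
  · rw [hmap] at hp
    exact hinj (by rw [map_zero]; exact hp)
  · have hx1 : IsAlgebraic A x := (IsFractionRing.isAlgebraic_iff A (FractionRing A) (LL' 2)).2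
      (Algebra.IsAlgebraic.isAlgebraic x)
    obtain ⟨p, hp0, hp⟩ := hx1
    set z : Fin 3 → LL' 2 := ![x, b 0, b 1] with hz
    set R : MvPolynomial (Fin 3) ℂ := (sg (R := ℂ) (0 : Fin 3)).symm p with hR
    have hRp : sg (0 : Fin 3) R = p := AlgEquiv.apply_symm_apply _ _
    have hR0 : R ≠ 0 := by
      intro h
      rw [h, map_zero] at hRp
      exact hp0 hRp.symm
    have hz0 : (fun i => z ((0 : Fin 3).succAbove i)) = b := by
      funext i
      fin_cases i <;> rfl
    have hRz : aeval z R = 0 := by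
      rw [← aeval_sg (0 : Fin 3) z R, hRp, hz0, ← hp, Polynomial.aeval_def]
      congr 1
      ext p
      · exact hmap _
      · exact hmap _
    have hpz : ∀ (i : Fin 2) (p : Polynomial (LL' 2)), (∀ s, D i (p.coeff s) = 0) →
        p.eval (b i) = 0 → p = 0 := by
      intro i p h3 h4
      exact poly_zero (DR i) (b := b i) (by rw [hDR, hDb, if_pos rfl]) p.natDegree p le_rfl
        (fun s => by rw [hDR, h3]) h4
    obtain ⟨R1, hR1, hR1z⟩ := elim_step (1 : Fin 3) (z := z) (D := D 0) (hpz 0) (fun i => by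
        fin_cases i
        · exact hx 0
        · show D 0 (b 1) = 0
          rw [hDb, if_neg (by decide)]) hR0 hRz
    set z' : Fin 2 → LL' 2 := fun i => z ((1 : Fin 3).succAbove i) with hz'
    obtain ⟨R2, hR2, hR2z⟩ := elim_step (1 : Fin 2) (z := z') (D := D 1) (hpz 1) (fun i => by
        fin_cases i
        exact hx 1) hR1 hR1z
    have hx2 : IsAlgebraic ℂ x := by
      by_contra h
      have h3 : AlgebraicIndependent ℂ (fun i => z' ((1 : Fin 2).succAbove i)) := by
        rw [algebraicIndependent_unique_type_iff]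
        exact h
      have h4 := (algebraicIndependent_iff.1 h3) R2 hR2z
      exact hR2 h4
    have h5 := IsAlgClosed.degree_eq_one_of_irreducible ℂ (minpoly.irreducible hx2.isIntegral)
    obtain ⟨c, hc⟩ := minpoly.mem_range_of_degree_eq_one ℂ x h5
    exact ⟨c, hc.symm⟩

end Run7.h978
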