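import Mathlib
import Pool.Agent.Run7.h978.Nfr16

set_option autoImplicit false
set_option linter.unusedSectionVars false

/-!
Classification of the irreducible forms with isotropic gradient.
-/

open MvPolynomial

namespace Run7.h978

section

variable {K : Type*} [Field K]

/-- the vector product -/
def cr (A B : Fin 3 → K) : Fin 3 → K :=
  ![A 1 * B 2 - A 2 * B 1, A 2 * B 0 - A 0 * B 2, A 0 * B 1 - A 1 * B 0]

/-- the scalar product -/
def dt (A B : Fin 3 → K) : K := A 0 * B 0 + A 1 * B 1 + A 2 * B 2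

theorem cr_mul (A B C D : Fin 3 → K) (p r : Fin 3) : cr A B p * cr C D r =
    (if p = r then 1 else 0) * (dt A C * dt B D - dt A D * dt B C) -
      C p * (A r * dt B D - B r * dt A D) + D p * (A r * dt B C - B r * dt A C) := by
  fin_cases p <;> fin_cases r <;> simp [cr, dt] <;> ring

theorem cr_zero {A B : Fin 3 → K} (h : ∀ p, cr A B p = 0) (i k : Fin 3) :
    A i * B k = A k * B i := by
  have h0 : A 1 * B 2 - A 2 * B 1 = 0 := h 0
  have h1 : A 2 * B 0 - A 0 * B 2 = 0 := h 1
  have h2 : A 0 * B 1 - A 1 * B 0 = 0 := h 2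
  fin_cases i <;> fin_cases k
  · rfl
  · show A 0 * B 1 = A 1 * B 0
    linear_combination h2
  · show A 0 * B 2 = A 2 * B 0
    linear_combination -h1
  · show A 1 * B 0 = A 0 * B 1
    linear_combination -h2
  · rfl
  · show A 1 * B 2 = A 2 * B 1
    linear_combination h0
  · show A 2 * B 0 = A 0 * B 2
    linear_combination h1
  · show A 2 * B 1 = A 1 * B 2
    linear_combination -h0
  · rfl

theorem dt_sum (A B : Fin 3 → K) : dt A B = ∑ a, A a * B a := by
  rw [dt, Fin.sum_univ_three]

end

/-- a polynomial whose derivatives vanish is constant -/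
theorem exists_pderiv_neC {N : ℕ} {q : MvPolynomial (Fin N) ℂ} (hq : Irreducible q) :
    ∃ j, pderiv j q ≠ 0 := by
  by_contra h
  push Not at h
  have h1 : q = C (coeff 0 q) := by
    ext s
    rw [coeff_C]
    split
    · rename_i h2
      rw [h2]
    · rename_i h2
      obtain ⟨i, hi⟩ : ∃ i, s i ≠ 0 := by
        by_contra h3
        push Not at h3
        exact h2 (by ext i; rw [h3 i]; rfl)
      have h4 := coeff_pderiv (i := i) q (s - Finsupp.single i 1)
      rw [h i, coeff_zero, tsub_add_cancel_of_le (by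
        rw [Finsupp.single_le_iff]
        omega)] at h4
      exact (mul_eq_zero.1 h4.symm).resolve_right (Nat.cast_add_one_ne_zero _)
  rw [h1] at hq
  have h2 : coeff 0 q ≠ 0 := by
    intro h3
    rw [h3, C_0] at hq
    exact hq.ne_zero rfl
  exact hq.not_isUnit ((isUnit_iff_ne_zero.2 h2).map C)

theorem classify {q : MvPolynomial (Fin 3) ℂ} (hq : Irreducible q)
    (hEu : q ∣ ∑ a, X a * pderiv a q) (hgs : q ∣ ∑ a, pderiv a q ^ 2) :
    q ∣ Sq ℂ 3 ∨ ∃ c : Fin 3 → ℂ, c ≠ 0 ∧ ∑ a, c a ^ 2 = 0 ∧ q ∣ lin3 c := by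
  obtain ⟨b, D, hDb, hinj, hconst⟩ := exists_genField_const
  obtain ⟨j, hjq⟩ := exists_pderiv_neC hq
  -- the root
  set φ : MvPolynomial (Fin 2) ℂ →+* LL' 2 :=
    (aeval b : MvPolynomial (Fin 2) ℂ →ₐ[ℂ] LL' 2).toRingHom with hφ
  have hφinj : Function.Injective φ := by
    rw [injective_iff_map_eq_zero]
    intro p hp
    exact hinj p hp
  obtain ⟨y, hy⟩ : ∃ y : LL' 2, Polynomial.IsRoot ((sg j q).map φ) y := by
    apply IsAlgClosed.exists_root
    rw [Polynomial.degree_map_eq_of_injective hφinj]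
    intro h
    apply natDegree_sg_ne j hjq
    exact Polynomial.natDegree_eq_of_degree_eq_some h
  set z : Fin 3 → LL' 2 := Fin.insertNth (α := fun _ => LL' 2) j y b with hz
  have hzj : z j = y := Fin.insertNth_apply_same (α := fun _ => LL' 2) j y _
  have hzi : ∀ i, z (j.succAbove i) = b i := fun i =>
    Fin.insertNth_apply_succAbove (α := fun _ => LL' 2) j y _ i
  have hzi' : (fun i => z (j.succAbove i)) = b := funext hzi
  have hqz : aeval z q = 0 := by
    rw [← aeval_sg j z q, hzi', hzj, ← hφ, ← Polynomial.eval_map]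
    exact hy
  have gen : ∀ p, aeval z p = 0 → q ∣ p := by
    intro p hp
    by_contra h
    obtain ⟨r, hr0, hr⟩ := exists_elim j hq hjq h
    have h1 := hr (LL' 2) z hqz hp
    rw [hzi'] at h1
    exact hr0 (hinj r h1)
  have ev : ∀ p, q ∣ p → aeval z p = 0 := by
    rintro p ⟨r, rfl⟩
    rw [map_mul, hqz, zero_mul]
  set N : Fin 3 → LL' 2 := fun a => aeval z (pderiv a q) with hN
  have hNj : N j ≠ 0 := fun h => not_dvd_pderiv' hjq (gen _ h)
  have hNN : dt N N = 0 := by
    have h1 := ev _ hgs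
    rw [map_sum] at h1
    rw [dt_sum, ← h1]
    refine Finset.sum_congr rfl fun a _ => ?_
    rw [map_pow, pow_two]
  have hzN : dt z N = 0 := by
    have h1 := ev _ hEu
    rw [map_sum] at h1
    rw [dt_sum, ← h1]
    refine Finset.sum_congr rfl fun a _ => ?_
    rw [map_mul, aeval_X]
  have hchain : ∀ i, N 0 * D i (z 0) + N 1 * D i (z 1) + N 2 * D i (z 2) = 0 := by
    intro i
    have h1 := congrArg (D i) hqz
    rw [chain, map_zero, Fin.sum_univ_three] at h1
    exact h1
  have hVN : ∀ i, dt (fun a => D i (N a)) N = 0 := by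
    intro i
    have h1 := congrArg (D i) hNN
    rw [dt, map_zero, map_add, map_add, Derivation.leibniz, Derivation.leibniz,
      Derivation.leibniz] at h1
    simp only [smul_eq_mul] at h1
    rw [dt]
    have h2 : (2 : LL' 2) * (D i (N 0) * N 0 + D i (N 1) * N 1 + D i (N 2) * N 2) = 0 := by
      linear_combination h1
    exact (mul_eq_zero.1 h2).resolve_left two_ne_zero
  have hVz : ∀ i, dt (fun a => D i (N a)) z = 0 := by
    intro i
    have h1 := congrArg (D i) hzN
    rw [dt, map_zero, map_add, map_add, Derivation.leibniz, Derivation.leibniz,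
      Derivation.leibniz] at h1
    simp only [smul_eq_mul] at h1
    rw [dt]
    linear_combination h1 - hchain i
  by_cases hcz : ∀ p, cr z N p = 0
  · left
    apply gen
    have h1 : ∀ a, z a * N j = z j * N a := fun a => cr_zero hcz a j
    have h2 : aeval z (Sq ℂ 3) * N j ^ 2 = 0 := by
      rw [Sq, map_sum, Finset.sum_mul]
      have h3 : ∀ a, aeval z ((X a : MvPolynomial (Fin 3) ℂ) ^ 2) * N j ^ 2 =
          z j ^ 2 * (N a * N a) := by
        intro a
        rw [map_pow, aeval_X, ← mul_pow, h1]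
        ring
      simp only [h3]
      rw [← Finset.mul_sum, ← dt_sum, hNN, mul_zero]
    exact (mul_eq_zero.1 h2).resolve_right (pow_ne_zero 2 hNj)
  · right
    push Not at hcz
    obtain ⟨r, hr⟩ := hcz
    have hVc : ∀ i p, cr (fun a => D i (N a)) N p = 0 := by
      intro i p
      have h1 := cr_mul (fun a => D i (N a)) N z N p r
      have h2 : dt N z = 0 := by
        rw [← hzN, dt, dt]
        ring
      rw [hVN, hVz, hNN, h2] at h1
      simp only [mul_zero, sub_zero, add_zero] at h1
      exact (mul_eq_zero.1 h1).resolve_right hr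
    have hM : ∀ a i, D i (N a / N j) = 0 := by
      intro a i
      have h1 : D i (N a) * N j = D i (N j) * N a := cr_zero (hVc i) a j
      rw [Derivation.leibniz_div, smul_eq_mul, smul_eq_mul, smul_eq_mul]
      rw [mul_eq_zero]
      right
      linear_combination h1
    choose c hc using fun a => hconst (N a / N j) (hM a)
    have hNc : ∀ a, N a = algebraMap ℂ (LL' 2) (c a) * N j := by
      intro a
      rw [← hc a]
      field_simp
    refine ⟨c, ?_, ?_, ?_⟩
    · rintro rfl
      apply hNj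
      rw [hNc j]
      simp
    · apply (algebraMap ℂ (LL' 2)).injective
      rw [map_zero, map_sum]
      have h1 : (∑ a, algebraMap ℂ (LL' 2) (c a ^ 2)) * N j ^ 2 = 0 := by
        rw [Finset.sum_mul, ← hNN, dt_sum]
        refine Finset.sum_congr rfl fun a _ => ?_
        rw [hNc a, map_pow]
        ring
      exact (mul_eq_zero.1 h1).resolve_right (pow_ne_zero 2 hNj)
    · apply gen
      have h1 : aeval z (lin3 c) * N j = 0 := by
        rw [lin3, map_sum, Finset.sum_mul, ← hzN, dt_sum]
        refine Finset.sum_congr rfl fun a _ => ?_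
        rw [hNc a, map_mul, aeval_X]
        have h2 : aeval z (C (c a) : MvPolynomial (Fin 3) ℂ) = algebraMap ℂ (LL' 2) (c a) := by
          rw [aeval_C]
        rw [h2]
        ring
      exact (mul_eq_zero.1 h1).resolve_right hNj

/-- irreducible factors of a form -/
theorem euler_dvd {N d : ℕ} {f q : MvPolynomial (Fin N) ℂ} (hf0 : f ≠ 0)
    (hf : f.IsHomogeneous d) (hq : Irreducible q) (hqf : q ∣ f) :
    q ∣ ∑ a, X a * pderiv a q := by
  obtain ⟨n, g, hg, hfg⟩ := WfDvdMonoid.max_power_factor hf0 hq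
  have hn : n ≠ 0 := by
    rintro rfl
    rw [pow_zero, one_mul] at hfg
    exact hg (hfg ▸ hqf)
  obtain ⟨k, rfl⟩ : ∃ k, n = k + 1 := ⟨n - 1, by omega⟩
  have h1 := hf.sum_X_mul_pderiv
  have h2 : ∑ a, X a * pderiv a f = (k + 1 : ℕ) • (q ^ k * ((∑ a, X a * pderiv a q) * g)) +
      q ^ (k + 1) * ∑ a, X a * pderiv a g := by
    rw [hfg, Finset.sum_mul, Finset.mul_sum, Finset.mul_sum, Finset.smul_sum,
      ← Finset.sum_add_distrib]
    refine Finset.sum_congr rfl fun a _ => ?_
    rw [Derivation.leibniz, Derivation.leibniz_pow, Nat.add_sub_cancel]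
    simp only [smul_eq_mul, nsmul_eq_mul]
    ring
  have h3 : q ^ k * ((k + 1 : ℕ) • ((∑ a, X a * pderiv a q) * g)) =
      q ^ k * (q * (d • g - ∑ a, X a * pderiv a g)) := by
    rw [h2] at h1
    rw [hfg] at h1
    simp only [nsmul_eq_mul] at h1 ⊢
    linear_combination h1
  have h4 := mul_left_cancel₀ (pow_ne_zero k hq.ne_zero) h3
  have h5 : q ∣ ((k + 1 : ℕ) : MvPolynomial (Fin N) ℂ) * ((∑ a, X a * pderiv a q) * g) :=
    ⟨_, by rw [← nsmul_eq_mul]; exact h4⟩
  have hp := hq.prime
  rcases hp.dvd_or_dvd h5 with h6 | h6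
  · exfalso
    have h7 : IsUnit ((k + 1 : ℕ) : MvPolynomial (Fin N) ℂ) := by
      have h8 : ((k + 1 : ℕ) : MvPolynomial (Fin N) ℂ) = C ((k + 1 : ℕ) : ℂ) := by
        rw [map_natCast]
      rw [h8]
      exact (isUnit_iff_ne_zero.2 (Nat.cast_ne_zero.2 (Nat.succ_ne_zero k))).map C
    exact hq.not_isUnit (isUnit_of_dvd_unit h6 h7)
  · exact (hp.dvd_or_dvd h6).resolve_right hg

theorem irreducible_Sq : Irreducible (Sq ℂ 3) := by
  rw [← MulEquiv.irreducible_iff (finSuccEquiv ℂ 2)]
  have h1 : finSuccEquiv ℂ 2 (Sq ℂ 3) = Polynomial.X ^ 2 + Polynomial.C (X 0 ^ 2 + X 1 ^ 2) := by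
    have h2 : finSuccEquiv ℂ 2 (X 1) = Polynomial.C (X 0) := finSuccEquiv_X_succ (j := 0)
    have h3 : finSuccEquiv ℂ 2 (X 2) = Polynomial.C (X 1) := finSuccEquiv_X_succ (j := 1)
    rw [Sq, map_sum, Fin.sum_univ_three, map_pow, map_pow, map_pow, finSuccEquiv_X_zero, h2, h3,
      Polynomial.C_add, Polynomial.C_pow, Polynomial.C_pow]
    ring
  rw [h1]
  have h2 : (Polynomial.X ^ 2 + Polynomial.C (X 0 ^ 2 + X 1 ^ 2 :
      MvPolynomial (Fin 2) ℂ)).Monic := Polynomial.monic_X_pow_add_C _ two_ne_zero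
  have h3 : (Polynomial.X ^ 2 + Polynomial.C (X 0 ^ 2 + X 1 ^ 2 :
      MvPolynomial (Fin 2) ℂ)).natDegree = 2 := Polynomial.natDegree_X_pow_add_C
  rw [h2.irreducible_iff_roots_eq_zero_of_degree_le_three (by rw [h3]) (by rw [h3]; norm_num)]
  rw [Multiset.eq_zero_iff_forall_notMem]
  intro a ha
  have h4 := Polynomial.isRoot_of_mem_roots ha
  rw [Polynomial.IsRoot, Polynomial.eval_add, Polynomial.eval_pow, Polynomial.eval_X,
    Polynomial.eval_C] at h4
  set v : Fin 2 → ℂ := ![Complex.I, 1] with hv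
  have hv0 : v 0 = Complex.I := rfl
  have hv1 : v 1 = 1 := rfl
  have h5 := congrArg (eval v) h4
  rw [map_zero, map_add, map_add, map_pow, map_pow, map_pow, eval_X, eval_X, hv0, hv1,
    Complex.I_sq] at h5
  have h6 : eval v a = 0 := by
    have : eval v a ^ 2 = 0 := by linear_combination h5
    exact pow_eq_zero_iff two_ne_zero |>.1 this
  have h7 := congrArg (fun p => eval v (pderiv 0 p)) h4
  simp only [map_add, map_zero, pderiv_pow, pderiv_X_self, pderiv_X_of_ne (show (1 : Fin 2) ≠ 0 by decide),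
    map_mul, map_pow, eval_X, h6, hv0] at h7
  simp at h7

theorem irreducible_lin3 {c : Fin 3 → ℂ} (hc : c ≠ 0) : Irreducible (lin3 c) := by
  have hco : ∀ a, coeff (Finsupp.single a 1) (lin3 c) = c a := by
    intro a
    rw [lin3, coeff_sum, Finset.sum_eq_single a]
    · rw [coeff_C_mul, coeff_X, if_pos rfl, mul_one]
    · intro b _ hb
      rw [coeff_C_mul, coeff_X, if_neg, mul_zero]
      intro h
      exact hb ((Finsupp.single_left_inj one_ne_zero).1 h)
    · intro h
      exact absurd (Finset.mem_univ a) h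
  obtain ⟨a, ha⟩ : ∃ a, c a ≠ 0 := by
    by_contra h
    push Not at h
    exact hc (funext h)
  apply irreducible_of_totalDegree_eq_one
  · apply le_antisymm
    · rw [lin3]
      apply totalDegree_finsetSum_le
      intro i _
      refine (totalDegree_mul _ _).trans ?_
      rw [totalDegree_C, totalDegree_X]
    · have h1 : Finsupp.single a 1 ∈ (lin3 c).support := by
        rw [mem_support_iff, hco]
        exact ha
      have h2 := le_totalDegree h1
      rwa [Finsupp.sum_single_index rfl] at h2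
  · intro x hx
    have h1 := hx (Finsupp.single a 1)
    rw [hco] at h1
    exact isUnit_iff_ne_zero.2 (fun h => ha (zero_dvd_iff.1 (h ▸ h1)))

end Run7.h978
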