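import Mathlib
import Pool.Agent.Run7.h978.Max

set_option autoImplicit false

/-!
Immersions of compact manifolds into a sphere of the same dimension are onto.
-/

open Set Filter Topology
open scoped RealInnerProductSpace ContDiff Manifold

namespace Run7.h978

theorem parallel_of_orthogonal {n : ℕ} {A : Eu n →L[ℝ] Eu (n + 1)}
    (hA : Function.Injective A) {u v : Eu (n + 1)} (hu : ∀ w, ⟪u, A w⟫ = 0) (hu0 : u ≠ 0)
    (hv : ∀ w, ⟪v, A w⟫ = 0) : ∃ t : ℝ, v = t • u := by
  set K : Submodule ℝ (Eu (n + 1)) := LinearMap.range (A : Eu n →ₗ[ℝ] Eu (n + 1)) with hK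
  have h1 : Module.finrank ℝ K = n := by
    rw [hK, LinearMap.finrank_range_of_inj hA, finrank_euclideanSpace_fin]
  have h2 : Module.finrank ℝ Kᗮ = 1 := by
    have h3 := Submodule.finrank_add_finrank_orthogonal K
    rw [h1, finrank_euclideanSpace_fin] at h3
    omega
  have hmem : ∀ z : Eu (n + 1), (∀ w, ⟪z, A w⟫ = 0) → z ∈ Kᗮ := by
    intro z hz
    rw [Submodule.mem_orthogonal']
    rintro _ ⟨w, rfl⟩
    exact hz w
  have h3 := (finrank_eq_one_iff_of_nonzero' (⟨u, hmem u hu⟩ : Kᗮ) (by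
    intro h
    exact hu0 (congrArg Subtype.val h))).1 h2 ⟨v, hmem v hv⟩
  obtain ⟨t, ht⟩ := h3
  exact ⟨t, (congrArg Subtype.val ht).symm⟩

variable {n : ℕ} {M : Type*} [TopologicalSpace M] [ChartedSpace (Eu n) M]

theorem range_eq_sphere [CompactSpace M] [Nonempty M] (hn : n ≠ 0) {x : M → Eu (n + 1)}
    (hx : IsImmersion n x) {c : Eu (n + 1)} {r : ℝ} (hr : 0 < r) (h : ∀ p, dist (x p) c = r) :
    range x = Metric.sphere c r := by
  apply Subset.antisymm
  · rintro _ ⟨p, rfl⟩
    exact h p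
  intro y hy
  have hy' : ‖y - c‖ = r := by
    rw [← dist_eq_norm]
    exact hy
  have h' : ∀ p, ‖x p - c‖ = r := fun p => by
    rw [← dist_eq_norm]
    exact h p
  have hcont : Continuous fun p => ⟪y - c, x p - c⟫ :=
    continuous_const.inner (hx.1.continuous.sub continuous_const)
  obtain ⟨p0, -, hp0⟩ := isCompact_univ.exists_isMaxOn univ_nonempty hcont.continuousOn
  have hmax : ∀ p, ⟪y - c, x p - c⟫ ≤ ⟪y - c, x p0 - c⟫ := fun p => hp0 (mem_univ p)
  set e := chartAt (Eu n) p0 with he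
  have hea : e ∈ atlas (Eu n) M := chart_mem_atlas (Eu n) p0
  have hps : p0 ∈ e.source := mem_chart_source (Eu n) p0
  have hi := imm_of_chart hx hea
  set X := x ∘ e.symm with hX
  set y0 := e p0 with hy0
  have hy0t : y0 ∈ e.target := e.map_source hps
  have hXy0 : X y0 = x p0 := by
    rw [hX, Function.comp_apply, hy0, e.left_inv hps]
  have hd : HasFDerivAt X (fderiv ℝ X y0) y0 := by
    have h1 := (hi.sm.contDiffAt (e.open_target.mem_nhds hy0t)).differentiableAt (by simp)
    exact h1.hasFDerivAt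
  set A := fderiv ℝ X y0 with hA
  have hAinj : Function.Injective A := hi.inj y0 hy0t
  have h1 : ∀ w, ⟪y - c, A w⟫ = 0 := by
    have h2 : HasFDerivAt (fun z => ⟪y - c, X z - c⟫) ((innerSL ℝ (y - c)).comp A) y0 :=
      (innerSL ℝ (y - c)).hasFDerivAt.comp y0 (hd.sub_const c)
    have h3 : IsLocalMax (fun z => ⟪y - c, X z - c⟫) y0 := by
      refine Filter.Eventually.of_forall fun z => ?_
      simp only [hXy0]
      exact hmax _
    have h4 := h3.hasFDerivAt_eq_zero h2
    intro w
    have h5 := congrArg (fun B : Eu n →L[ℝ] ℝ => B w) h4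
    exact h5
  have h2 : ∀ w, ⟪X y0 - c, A w⟫ = 0 := by
    have h2 : HasFDerivAt (fun z => ‖X z - c‖ ^ 2) (2 • (innerSL ℝ (X y0 - c)).comp A) y0 :=
      (hd.sub_const c).norm_sq
    have h3 : HasFDerivAt (fun z => ‖X z - c‖ ^ 2) (0 : Eu n →L[ℝ] ℝ) y0 := by
      have h4 : (fun z => ‖X z - c‖ ^ 2) = fun _ => r ^ 2 := by
        funext z
        rw [hX, Function.comp_apply, h']
      rw [h4]
      exact hasFDerivAt_const _ _
    have h4 := h2.unique h3
    intro w
    have h5 := congrArg (fun B : Eu n →L[ℝ] ℝ => B w) h4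
    have h6 : (2 : ℝ) * ⟪X y0 - c, A w⟫ = 0 := by
      have : (2 • (innerSL ℝ (X y0 - c)).comp A) w = (2 : ℝ) * ⟪X y0 - c, A w⟫ := by
        rw [two_smul, two_mul]
        rfl
      rw [← this]
      exact h5
    linarith
  rw [hXy0] at h2
  have hu0 : x p0 - c ≠ 0 := by
    intro h3
    have h4 := h' p0
    rw [h3, norm_zero] at h4
    exact hr.ne h4
  obtain ⟨t, ht⟩ := parallel_of_orthogonal hAinj h2 hu0 h1
  have ht1 : |t| = 1 := by
    have h3 := congrArg norm ht
    rw [norm_smul, hy', h' p0, Real.norm_eq_abs] at h3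
    have h4 : (|t| - 1) * r = 0 := by linarith
    rcases mul_eq_zero.1 h4 with h5 | h5
    · linarith
    · exact absurd h5 hr.ne'
  rcases (abs_eq zero_le_one).1 ht1 with h3 | h3
  · refine ⟨p0, ?_⟩
    rw [h3, one_smul] at ht
    exact (sub_left_inj.1 ht).symm
  · exfalso
    rw [h3, neg_one_smul] at ht
    have h4 : ∀ p, x p = x p0 := by
      intro p
      have h5 := hmax p
      rw [ht, inner_neg_left, inner_neg_left, real_inner_self_eq_norm_sq, h' p0] at h5
      have h6 : ‖(x p - c) - (x p0 - c)‖ ^ 2 ≤ 0 := by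
        rw [norm_sub_sq_real, h' p, h' p0, real_inner_comm]
        linarith
      have h7 : (x p - c) - (x p0 - c) = 0 := by
        rw [← norm_eq_zero]
        exact pow_eq_zero_iff two_ne_zero |>.1 (le_antisymm h6 (sq_nonneg _))
      have h8 : x p - x p0 = 0 := by
        rw [← h7]
        abel
      exact sub_eq_zero.1 h8
    have h5 : A = 0 := by
      have h6 : X = fun _ => x p0 := by
        funext z
        exact h4 _
      rw [hA, h6]
      simp
    have h6 : (EuclideanSpace.single (⟨0, Nat.pos_of_ne_zero hn⟩ : Fin n) (1 : ℝ) : Eu n) = 0 := by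
      apply hAinj
      rw [h5]
      simp
    have h7 := congrArg norm h6
    simp at h7

end Run7.h978
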