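import Mathlib
import Pool.Agent.Run7.h978.Iso9
import Pool.Agent.Run7.h978.Sph12
import Pool.Agent.Run7.h978.Sph13

set_option autoImplicit false

/-!
Hypersurfaces whose leading form has no isotropic factor besides the square of the distance.
-/

open Set Filter Topology MvPolynomial
open scoped RealInnerProductSpace ContDiff Manifold

namespace Run7.h978

variable {n : ℕ} {M : Type*} [TopologicalSpace M] [ChartedSpace (Eu n) M]

theorem not_dvd_WW_mfd {x : M → Eu (n + 1)} (hx : IsImmersion n x) {O : Set M} (hO : IsOpen O)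
    (hOne : O.Nonempty) {F : MvPolynomial (Fin (n + 1)) ℝ} (hF : Irreducible F)
    (hF0 : ∀ p ∈ O, ev F (x p) = 0) : ¬F ∣ WW F := by
  obtain ⟨p, hp⟩ := hOne
  set e := chartAt (Eu n) p with he
  have hea : e ∈ atlas (Eu n) M := chart_mem_atlas (Eu n) p
  have hps : p ∈ e.source := mem_chart_source (Eu n) p
  have hi := imm_of_chart hx hea
  set U : Set (Eu n) := e.target ∩ e.symm ⁻¹' O with hU
  have hUo : IsOpen U := e.symm.isOpen_inter_preimage hO
  have hUi : Imm (x ∘ e.symm) U := hi.mono hUo inter_subset_left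
  have hUne : U.Nonempty := ⟨e p, e.map_source hps, by
    show e.symm (e p) ∈ O
    rw [e.left_inv hps]
    exact hp⟩
  obtain ⟨y, hy, hy'⟩ := exists_WW_ne hUi hUne hF (fun y hy => hF0 _ hy.2)
  rintro ⟨G, hG⟩
  apply hy'
  have h1 : ev F ((x ∘ e.symm) y) = 0 := hF0 _ hy.2
  rw [ev] at h1 ⊢
  rw [hG, map_mul, h1, zero_mul]

/-- a polynomial in the square of the distance which vanishes on an open set of the manifold -/
theorem sphere_of_dvd (hn : n ≠ 0) {x : M → Eu (n + 1)} (hx : IsImmersion n x) {O : Set M}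
    (hO : IsOpen O) (hOne : O.Nonempty) {F : MvPolynomial (Fin (n + 1)) ℝ} (hF : Irreducible F)
    (hF0 : ∀ p ∈ O, ev F (x p) = 0) (c : Eu (n + 1)) {g : Polynomial ℝ} (hg : g ≠ 0)
    (hd : F ∣ Polynomial.aeval (∑ a, (X a - C (c a)) ^ 2) g) :
    ∃ r : ℝ, 0 < r ∧ ∀ p ∈ O, dist (x p) c = r := by
  classical
  obtain ⟨p, hp⟩ := hOne
  set e := chartAt (Eu n) p with he
  have hea : e ∈ atlas (Eu n) M := chart_mem_atlas (Eu n) p
  have hps : p ∈ e.source := mem_chart_source (Eu n) p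
  have hi := imm_of_chart hx hea
  set U : Set (Eu n) := e.target ∩ e.symm ⁻¹' O with hU
  have hUo : IsOpen U := e.symm.isOpen_inter_preimage hO
  have hy0 : e p ∈ U := ⟨e.map_source hps, by
    show e.symm (e p) ∈ O
    rw [e.left_inv hps]
    exact hp⟩
  obtain ⟨ε, hε, hεU⟩ := Metric.isOpen_iff.1 hUo _ hy0
  set B := Metric.ball (e p) ε with hB
  have hBi : Imm (x ∘ e.symm) B := hi.mono Metric.isOpen_ball (hεU.trans inter_subset_left)
  have hBne : B.Nonempty := ⟨e p, Metric.mem_ball_self hε⟩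
  have hdist : ∀ z : Eu (n + 1), ev (∑ a, (X a - C (c a)) ^ 2) z = dist z c ^ 2 := by
    intro z
    rw [EuclideanSpace.dist_eq, Real.sq_sqrt (Finset.sum_nonneg fun i _ => sq_nonneg _), ev,
      map_sum]
    refine Finset.sum_congr rfl fun a _ => ?_
    rw [map_pow, map_sub, eval_X, eval_C, Real.dist_eq, sq_abs]
  have hroot : ∀ z : Eu (n + 1), ev F z = 0 → dist z c ^ 2 ∈ (g.roots.toFinset : Set ℝ) := by
    intro z hz
    obtain ⟨H, hH⟩ := hd
    have h1 : ev (Polynomial.aeval (∑ a, (X a - C (c a)) ^ 2) g) z = 0 := by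
      rw [ev] at hz ⊢
      rw [hH, map_mul, hz, zero_mul]
    have h2 : ev (Polynomial.aeval (∑ a, (X a - C (c a)) ^ 2) g) z = g.eval (dist z c ^ 2) := by
      rw [← hdist z, ev, ev]
      have h3 := Polynomial.aeval_algHom_apply
        (MvPolynomial.aeval (fun a => z a) : MvPolynomial (Fin (n + 1)) ℝ →ₐ[ℝ] ℝ)
        (∑ a, (X a - C (c a)) ^ 2) g
      rw [← Polynomial.coe_aeval_eq_eval]
      exact h3.symm
    rw [h2] at h1
    rw [Finset.mem_coe, Multiset.mem_toFinset, Polynomial.mem_roots hg]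
    exact h1
  have hcont : ContinuousOn (fun y => dist ((x ∘ e.symm) y) c ^ 2) B :=
    (continuous_dist.comp_continuousOn
      (hBi.sm.continuousOn.prodMk (continuousOn_const (c := c)))).pow 2
  have hdisc : IsDiscrete (g.roots.toFinset : Set ℝ) := by
    have : Finite (g.roots.toFinset : Set ℝ) := (g.roots.toFinset.finite_toSet).to_subtype
    exact ⟨inferInstance⟩
  obtain ⟨ρ, -, hρ⟩ := (convex_ball (e p) ε).isPreconnected.eqOn_const_of_mapsTo
    (T := (g.roots.toFinset : Set ℝ)) hdisc hcont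
    (fun y hy => hroot _ (hF0 _ (hεU hy).2)) ⟨_, hroot _ (hF0 p hp)⟩
  have hρ' : ∀ y ∈ B, dist ((x ∘ e.symm) y) c ^ 2 = ρ := fun y hy => hρ hy
  have hFQ : F ∣ (∑ a, (X a - C (c a)) ^ 2) - C ρ := by
    apply dvd_of_vanish hBi hBne hF (fun y hy => hF0 _ (hεU hy).2)
    intro y hy
    have h1 := hdist ((x ∘ e.symm) y)
    rw [hρ' y hy, ev] at h1
    rw [ev, map_sub, h1, eval_C, sub_self]
  have hO' : ∀ q ∈ O, dist (x q) c ^ 2 = ρ := by
    intro q hq
    obtain ⟨H, hH⟩ := hFQ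
    have h1 := hdist (x q)
    have h2 : ev ((∑ a, (X a - C (c a)) ^ 2) - C ρ) (x q) = 0 := by
      have h3 := hF0 q hq
      rw [ev] at h3 ⊢
      rw [hH, map_mul, h3, zero_mul]
    rw [ev, map_sub, eval_C] at h2
    rw [ev] at h1
    rw [← h1]
    linarith
  have hρ0 : 0 < ρ := by
    have h1 : 0 ≤ ρ := by
      rw [← hO' p hp]
      exact sq_nonneg _
    refine lt_of_le_of_ne h1 fun h2 => ?_
    have h3 : ∀ y ∈ B, (x ∘ e.symm) y = c := by
      intro y hy
      have h4 := hρ' y hy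
      rw [← h2] at h4
      exact dist_eq_zero.1 ((pow_eq_zero_iff two_ne_zero).1 h4)
    have h4 : fderiv ℝ (x ∘ e.symm) (e p) = 0 := by
      have h5 : (x ∘ e.symm) =ᶠ[𝓝 (e p)] fun _ => c := by
        filter_upwards [Metric.ball_mem_nhds (e p) hε] with y hy
        exact h3 y hy
      rw [h5.fderiv_eq]
      simp
    have h6 : (EuclideanSpace.single (⟨0, Nat.pos_of_ne_zero hn⟩ : Fin n) (1 : ℝ) : Eu n) = 0 := by
      apply hBi.inj (e p) (Metric.mem_ball_self hε)
      rw [h4]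
      simp
    have h7 := congrArg norm h6
    simp at h7
  refine ⟨Real.sqrt ρ, Real.sqrt_pos.2 hρ0, fun q hq => ?_⟩
  rw [← hO' q hq, Real.sqrt_sq dist_nonneg]

/-- the main theorem -/
theorem sphere_of_leading [CompactSpace M] [ConnectedSpace M] (hn : n ≠ 0) {x : M → Eu (n + 1)}
    (hx : IsImmersion n x) (hft : IsFiniteType n x) {O : Set M} (hO : IsOpen O)
    (hOne : O.Nonempty) {F : MvPolynomial (Fin (n + 1)) ℝ} (hF : Irreducible F)
    (hF0 : ∀ p ∈ O, ev F (x p) = 0)
    (h : ∀ q : MvPolynomial (Fin (n + 1)) ℂ, Irreducible q →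
      q ∣ map (algebraMap ℝ ℂ) (homogeneousComponent F.totalDegree F) →
      q ∣ ∑ a, pderiv a q ^ 2 → Associated q (∑ a, X a ^ 2)) :
    ∃ (c : Eu (n + 1)) (r : ℝ), 0 < r ∧ (∀ p ∈ O, dist (x p) c = r) ∧
      (O = univ → range x = Metric.sphere c r) := by
  classical
  set d := F.totalDegree with hd
  have hf0 : homogeneousComponent d F ≠ 0 := by
    have h1 := (top_weighted (1 : Fin (n + 1) → ℕ) hF.ne_zero).2
    rw [weightedTotalDegree_one] at h1
    exact h1
  obtain ⟨κ, m, hκ, hlead⟩ := leading_eq hf0 (fun q hq hqf => h q hq hqf (by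
    have h1 := criterion_factor hn hx hft hO hOne hF hF0 (w := (1 : Fin (n + 1) → ℕ)) (by
      intro h2
      exact one_ne_zero (congrFun h2 0)) (m := 1) (fun a => le_rfl) hq (by
        rw [weightedTotalDegree_one]
        exact hqf)
    have h2 : gsq (1 : Fin (n + 1) → ℕ) 1 q = ∑ a, pderiv a q ^ 2 := by
      rw [gsq]
      refine Finset.sum_congr rfl fun a _ => ?_
      rw [if_pos (by rfl)]
    rwa [h2] at h1))
  have hhom : (C κ * Sq ℝ (n + 1) ^ m).IsHomogeneous (2 * m) := (Sq_hom ℝ (n + 1) m).C_mul κ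
  have hdm : d = 2 * m := by
    rw [hlead] at hf0
    refine IsHomogeneous.inj_right ?_ hhom hf0
    rw [← hlead]
    exact homogeneousComponent_isHomogeneous d F
  have hm : m ≠ 0 := by
    rintro rfl
    rw [mul_zero] at hdm
    have h1 := totalDegree_eq_zero_iff_eq_C.1 (hd.symm.trans hdm)
    rw [h1] at hF
    have h2 : coeff 0 F ≠ 0 := by
      intro h3
      rw [h3, C_0] at hF
      exact hF.ne_zero rfl
    exact hF.not_isUnit ((isUnit_iff_ne_zero.2 h2).map C)
  set F' := C κ⁻¹ * F with hF'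
  have hu : IsUnit (C κ⁻¹ : MvPolynomial (Fin (n + 1)) ℝ) :=
    (isUnit_iff_ne_zero.2 (inv_ne_zero hκ)).map C
  have hF'i : Irreducible F' := (irreducible_isUnit_mul hu).2 hF
  have hF'0 : ∀ p ∈ O, ev F' (x p) = 0 := by
    intro p hp
    have h1 := hF0 p hp
    rw [ev] at h1 ⊢
    rw [hF', map_mul, h1, mul_zero]
  have hF'd : F'.totalDegree = 2 * m := by
    have h1 : F'.totalDegree ≤ F.totalDegree := by
      refine (totalDegree_mul _ _).trans ?_
      rw [totalDegree_C, zero_add]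
    have h2 : F.totalDegree ≤ F'.totalDegree := by
      have h3 : F = C κ * F' := by
        rw [hF', ← mul_assoc, ← C_mul, mul_inv_cancel₀ hκ, C_1, one_mul]
      conv_lhs => rw [h3]
      refine (totalDegree_mul _ _).trans ?_
      rw [totalDegree_C, zero_add]
    omega
  have hF'l : homogeneousComponent (2 * m) F' = Sq ℝ (n + 1) ^ m := by
    rw [hF', homogeneousComponent_C_mul, ← hdm, hlead, ← mul_assoc, ← C_mul,
      inv_mul_cancel₀ hκ, C_1, one_mul]
  obtain ⟨c, l, hl, hdv⟩ := exists_iter_dvd_mfd hx hft hO hOne hF'i hF'0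
  obtain ⟨g, hg0, hg⟩ := radial_c hn hF'i (not_dvd_WW_mfd hx hO hOne hF'i hF'0) hl hdv hm hF'd hF'l
  obtain ⟨r, hr, hr2⟩ := sphere_of_dvd hn hx hO hOne hF'i hF'0 c hg0 hg
  refine ⟨c, r, hr, hr2, fun hOu => ?_⟩
  exact range_eq_sphere hn hx hr fun p => hr2 p (by rw [hOu]; trivial)

end Run7.h978
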