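import Mathlib
import Pool.Agent.Run7.h978.Nfr17
import Pool.Agent.Run7.h978.Sph14

set_option autoImplicit false
set_option linter.unusedSectionVars false

/-!
Surfaces whose leading form has isotropic linear factors of low multiplicity.
-/

open MvPolynomial

namespace Run7.h978

section

variable {N : ℕ}

/-- the difference of the polynomials has smaller degree -/
def Rl (k : ℕ) (p p' : MvPolynomial (Fin N) ℝ) : Prop :=
  p.totalDegree ≤ k ∧ (p' = p ∨ (p' - p).totalDegree < k)

theorem Rl.deg {k : ℕ} {p p' : MvPolynomial (Fin N) ℝ} (h : Rl k p p') :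
    p'.totalDegree ≤ k := by
  rcases h.2 with h1 | h1
  · rw [h1]
    exact h.1
  · have h2 : p' = p + (p' - p) := by ring
    rw [h2]
    exact (totalDegree_add _ _).trans (max_le h.1 h1.le)

theorem Rl.mul {k l : ℕ} {p p' q q' : MvPolynomial (Fin N) ℝ} (h : Rl k p p') (h' : Rl l q q') :
    Rl (k + l) (p * q) (p' * q') := by
  refine ⟨(totalDegree_mul _ _).trans (add_le_add h.1 h'.1), ?_⟩
  by_cases h1 : p' = p
  · by_cases h2 : q' = q
    · left
      rw [h1, h2]
    · right
      have h3 := h'.2.resolve_left h2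
      have h4 : p' * q' - p * q = p * (q' - q) := by
        rw [h1]
        ring
      rw [h4]
      have := h.1
      exact lt_of_le_of_lt (totalDegree_mul _ _) (by omega)
  · right
    have h3 := h.2.resolve_left h1
    have h4 : p' * q' - p * q = (p' - p) * q' + p * (q' - q) := by ring
    rw [h4]
    refine lt_of_le_of_lt (totalDegree_add _ _) (max_lt ?_ ?_)
    · have := h'.deg
      exact lt_of_le_of_lt (totalDegree_mul _ _) (by omega)
    · by_cases h2 : q' = q
      · rw [h2, sub_self, mul_zero, totalDegree_zero]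
        omega
      · have h5 := h'.2.resolve_left h2
        have := h.1
        exact lt_of_le_of_lt (totalDegree_mul _ _) (by omega)

theorem Rl.pow {k : ℕ} {p p' : MvPolynomial (Fin N) ℝ} (h : Rl k p p') (m : ℕ) :
    Rl (m * k) (p ^ m) (p' ^ m) := by
  induction m with
  | zero =>
    rw [pow_zero, pow_zero]
    exact ⟨by rw [totalDegree_one]; omega, Or.inl rfl⟩
  | succ m ih =>
    rw [pow_succ, pow_succ, add_mul, one_mul]
    exact ih.mul h

theorem Rl.prod {ι : Type*} (s : Finset ι) {k : ι → ℕ} {p p' : ι → MvPolynomial (Fin N) ℝ}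
    (h : ∀ i, Rl (k i) (p i) (p' i)) : Rl (∑ i ∈ s, k i) (∏ i ∈ s, p i) (∏ i ∈ s, p' i) := by
  classical
  induction s using Finset.induction_on with
  | empty =>
    rw [Finset.prod_empty, Finset.prod_empty]
    exact ⟨by rw [totalDegree_one]; omega, Or.inl rfl⟩
  | insert a s ha ih =>
    rw [Finset.prod_insert ha, Finset.prod_insert ha, Finset.sum_insert ha]
    exact (h a).mul ih

theorem homogeneousComponent_tr (c : Fin N → ℝ) {F : MvPolynomial (Fin N) ℝ} {d : ℕ}
    (hd : F.totalDegree ≤ d) : homogeneousComponent d (tr c F) = homogeneousComponent d F := by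
  have h1 : tr c F = ∑ s ∈ F.support, C (coeff s F) * ∏ i, (X i + C (c i)) ^ s i := by
    show aeval (fun a => X a + C (c a)) F = _
    rw [aeval_def, eval₂_eq']
    rfl
  have h2 : F = ∑ s ∈ F.support, C (coeff s F) * ∏ i, X i ^ s i := by
    conv_lhs => rw [← aeval_X_left_apply F, aeval_def, eval₂_eq']
    rfl
  conv_rhs => rw [h2]
  rw [h1, map_sum, map_sum]
  refine Finset.sum_congr rfl fun s hs => ?_
  have h3 : Rl (∑ i, s i * 1) (∏ i, (X i : MvPolynomial (Fin N) ℝ) ^ s i)
      (∏ i, (X i + C (c i)) ^ s i) := by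
    refine Rl.prod _ fun i => Rl.pow ?_ _
    refine ⟨by rw [totalDegree_X], Or.inr ?_⟩
    rw [add_sub_cancel_left, totalDegree_C]
    exact zero_lt_one
  have h4 : ∑ i, s i * 1 ≤ d := by
    refine le_trans ?_ hd
    have h5 := le_totalDegree hs
    rw [Finsupp.sum_fintype _ _ (fun _ => rfl)] at h5
    simpa using h5
  rcases h3.2 with h5 | h5
  · rw [h5]
  · have h6 : (∏ i, (X i + C (c i)) ^ s i : MvPolynomial (Fin N) ℝ) = (∏ i, X i ^ s i) +
        ((∏ i, (X i + C (c i)) ^ s i) - ∏ i, X i ^ s i) := by ring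
    rw [h6, mul_add, map_add, homogeneousComponent_eq_zero d (C (coeff s F) *
      ((∏ i, (X i + C (c i)) ^ s i) - ∏ i, X i ^ s i)), add_zero]
    refine lt_of_le_of_lt (totalDegree_mul _ _) ?_
    rw [totalDegree_C]
    omega

end

theorem lin3_smul (c : Fin 3 → ℂ) (t : ℂ) : lin3 (fun a => t * c a) = C t * lin3 c := by
  rw [lin3, lin3, Finset.mul_sum]
  refine Finset.sum_congr rfl fun a _ => ?_
  rw [C_mul]
  ring

/-- the factorization -/
theorem exists_fac {f : MvPolynomial (Fin 3) ℂ} (hf0 : f ≠ 0) {d : ℕ} (hf : f.IsHomogeneous d)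
    (hcrit : ∀ q, Irreducible q → q ∣ f → q ∣ ∑ a, pderiv a q ^ 2) {c : Fin 3 → ℂ} (hc : c ≠ 0)
    (hcc : ∑ a, c a ^ 2 = 0) (hcf : lin3 c ∣ f) :
    ∃ (a b : ℕ) (g : MvPolynomial (Fin 3) ℂ), f = lin3 c ^ a * Sq ℂ 3 ^ b * g ∧ 1 ≤ a ∧
      eval c g ≠ 0 := by
  obtain ⟨a, g1, hg1, h1⟩ := WfDvdMonoid.max_power_factor hf0 (irreducible_lin3 hc)
  have hg10 : g1 ≠ 0 := by
    rintro rfl
    exact hf0 (by rw [h1, mul_zero])
  obtain ⟨b, g2, hg2, h2⟩ := WfDvdMonoid.max_power_factor hg10 irreducible_Sq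
  have hg20 : g2 ≠ 0 := by
    rintro rfl
    exact hg10 (by rw [h2, mul_zero])
  refine ⟨a, b, g2, by rw [h1, h2, mul_assoc], ?_, ?_⟩
  · by_contra h
    have h3 : a = 0 := by omega
    rw [h3, pow_zero, one_mul] at h1
    exact hg1 (h1 ▸ hcf)
  · intro h0
    obtain ⟨s, hs, hs2⟩ := WfDvdMonoid.exists_factors g2 hg20
    obtain ⟨u, hu⟩ := hs2
    have h3 : eval c s.prod = 0 := by
      have h4 := congrArg (eval c) hu
      rw [map_mul, h0] at h4
      exact (mul_eq_zero.1 h4).resolve_right (u.isUnit.map (eval c)).ne_zero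
    rw [map_multiset_prod, Multiset.prod_eq_zero_iff, Multiset.mem_map] at h3
    obtain ⟨q, hq, hq0⟩ := h3
    have hqi := hs q hq
    have hqg2 : q ∣ g2 := (Multiset.dvd_prod hq).trans ⟨_, hu.symm⟩
    have hqf : q ∣ f := by
      rw [h1, h2]
      exact (hqg2.mul_left _).mul_left _
    rcases classify hqi (euler_dvd hf0 hf hqi hqf) (hcrit q hqi hqf) with h4 | ⟨c', hc', hcc', h4⟩
    · have h5 := (hqi.dvd_irreducible_iff_associated irreducible_Sq).1 h4
      exact hg2 (h5.symm.dvd.trans hqg2)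
    · have h5 := (hqi.dvd_irreducible_iff_associated (irreducible_lin3 hc')).1 h4
      obtain ⟨v, hv⟩ := h5
      have h6 : dt c' c = 0 := by
        rw [dt_sum, ← eval_lin3, ← hv, map_mul, hq0, zero_mul]
      have h7 : dt c c = 0 := by
        rw [dt_sum, ← hcc]
        exact Finset.sum_congr rfl fun a _ => (pow_two _).symm
      have h8 : dt c' c' = 0 := by
        rw [dt_sum, ← hcc']
        exact Finset.sum_congr rfl fun a _ => (pow_two _).symm
      have h9 : ∀ p, cr c' c p = 0 := by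
        intro p
        have h10 := cr_mul c' c c' c p p
        have h11 : dt c c' = 0 := by
          rw [← h6, dt, dt]
          ring
        rw [h6, h7, h8, h11] at h10
        simp only [mul_zero, sub_zero, add_zero] at h10
        exact mul_self_eq_zero.1 h10
      obtain ⟨i, hi⟩ : ∃ i, c i ≠ 0 := by
        by_contra h
        push Not at h
        exact hc (funext h)
      have h12 : c' = fun k => c' i / c i * c k := by
        funext k
        have h13 := cr_zero h9 k i
        field_simp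
        linear_combination h13
      have h14 : lin3 c ∣ lin3 c' := by
        rw [h12, lin3_smul]
        exact dvd_mul_left _ _
      apply hg1
      have h15 : lin3 c' ∣ q := by
        refine ⟨(v⁻¹ : (MvPolynomial (Fin 3) ℂ)ˣ), ?_⟩
        rw [← hv, mul_assoc, Units.mul_inv, mul_one]
      rw [h2]
      exact (h14.trans (h15.trans hqg2)).mul_left _

theorem conj_map (F : MvPolynomial (Fin 3) ℝ) :
    map (starRingEnd ℂ) (map (algebraMap ℝ ℂ) F) = map (algebraMap ℝ ℂ) F := by
  have h1 : (starRingEnd ℂ).comp (algebraMap ℝ ℂ) = algebraMap ℝ ℂ :=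
    RingHom.ext fun r => Complex.conj_ofReal r
  rw [map_map, h1]

theorem conj_lin3 (c : Fin 3 → ℂ) :
    map (starRingEnd ℂ) (lin3 c) = lin3 (fun a => (starRingEnd ℂ) (c a)) := by
  rw [lin3, lin3, map_sum]
  refine Finset.sum_congr rfl fun a _ => ?_
  rw [map_mul, map_C, map_X]

theorem conj_Sq : map (starRingEnd ℂ) (Sq ℂ 3) = Sq ℂ 3 := by
  rw [Sq, map_sum]
  refine Finset.sum_congr rfl fun a _ => ?_
  rw [map_pow, map_X]

/-- real forms of degree at most five -/
theorem low_of_deg {f : MvPolynomial (Fin 3) ℝ} (hf0 : f ≠ 0) {d : ℕ} (hf : f.IsHomogeneous d)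
    (hd : d ≤ 5) {c : Fin 3 → ℂ} (hc : c ≠ 0) (hcc : ∑ a, c a ^ 2 = 0) {a b : ℕ}
    (hdv : lin3 c ^ a * Sq ℂ 3 ^ b ∣ map (algebraMap ℝ ℂ) f) : a + b ≤ 2 := by
  have hfc0 : map (algebraMap ℝ ℂ) f ≠ 0 := by
    intro h
    exact hf0 (map_injective _ (algebraMap ℝ ℂ).injective (by rw [h, map_zero]))
  set c' : Fin 3 → ℂ := fun a => (starRingEnd ℂ) (c a) with hc'
  have hc'0 : c' ≠ 0 := by
    intro h
    apply hc
    funext i
    have h1 := congrFun h i
    rw [hc'] at h1
    exact (map_eq_zero (starRingEnd ℂ)).1 h1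
  have hnorm : ∑ a, c a * c' a ≠ 0 := by
    intro h
    apply hc
    funext i
    have h1 : ∑ a, Complex.normSq (c a) = 0 := by
      have h2 : ((∑ a, Complex.normSq (c a) : ℝ) : ℂ) = 0 := by
        rw [← h, Complex.ofReal_sum]
        refine Finset.sum_congr rfl fun a _ => ?_
        rw [hc', Complex.mul_conj]
      exact_mod_cast h2
    have h2 := (Finset.sum_eq_zero_iff_of_nonneg (fun i _ => Complex.normSq_nonneg (c i))).1
      h1 i (Finset.mem_univ i)
    exact Complex.normSq_eq_zero.1 h2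
  have hcc' : ∑ a, c' a ^ 2 = 0 := by
    have h1 := congrArg (starRingEnd ℂ) hcc
    rw [map_sum, map_zero] at h1
    rw [← h1]
    exact Finset.sum_congr rfl fun a _ => (map_pow _ _ _).symm
  obtain ⟨g, hg⟩ := hdv
  have hirr := irreducible_lin3 hc'0
  have hprime := hirr.prime
  have hconj : map (algebraMap ℝ ℂ) f =
      lin3 c' ^ a * Sq ℂ 3 ^ b * map (starRingEnd ℂ) g := by
    have h1 := congrArg (map (starRingEnd ℂ)) hg
    rw [conj_map, map_mul, map_mul, map_pow, map_pow, conj_lin3, conj_Sq] at h1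
    exact h1
  have hn1 : ¬lin3 c' ∣ lin3 c := by
    rintro ⟨r, hr⟩
    have h1 := congrArg (eval c') hr
    rw [map_mul, eval_lin3, eval_lin3] at h1
    have h2 : ∑ a, c' a * c' a = 0 := by
      rw [← hcc']
      exact Finset.sum_congr rfl fun a _ => (pow_two _).symm
    rw [h2, zero_mul] at h1
    exact hnorm h1
  have hn2 : ¬lin3 c' ∣ Sq ℂ 3 := by
    intro h
    obtain ⟨u, hu⟩ := (hirr.dvd_irreducible_iff_associated irreducible_Sq).1 h
    have h1 := congrArg (eval c) hu
    rw [map_mul, eval_lin3] at h1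
    have h2 : eval c (Sq ℂ 3) = 0 := by
      rw [Sq, map_sum, ← hcc]
      refine Finset.sum_congr rfl fun a _ => ?_
      rw [map_pow, eval_X]
    rw [h2] at h1
    have h3 : ∑ a, c' a * c a = ∑ a, c a * c' a := Finset.sum_congr rfl fun a _ => mul_comm _ _
    rw [h3] at h1
    exact mul_ne_zero hnorm (u.isUnit.map (eval c)).ne_zero h1
  have hn3 : ¬lin3 c' ∣ lin3 c ^ a * Sq ℂ 3 ^ b := by
    intro h
    rcases hprime.dvd_or_dvd h with h1 | h1
    · exact hn1 (hprime.dvd_of_dvd_pow h1)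
    · exact hn2 (hprime.dvd_of_dvd_pow h1)
  have h1 : lin3 c' ^ a ∣ lin3 c ^ a * Sq ℂ 3 ^ b * g := by
    rw [← hg, hconj, mul_assoc]
    exact dvd_mul_right _ _
  obtain ⟨g', hg'⟩ := hprime.pow_dvd_of_dvd_mul_left a hn3 h1
  have hlin : ∀ e : Fin 3 → ℂ, (lin3 e ^ a).IsHomogeneous a := by
    intro e
    have h3 : (lin3 e).IsHomogeneous 1 :=
      IsHomogeneous.sum _ _ _ fun i _ => (isHomogeneous_X _ _).C_mul _
    have h4 := h3.pow a
    rwa [one_mul] at h4
  have hA : (lin3 c ^ a * Sq ℂ 3 ^ b * lin3 c' ^ a).IsHomogeneous (a + 2 * b + a) :=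
    ((hlin c).mul (Sq_hom ℂ 3 b)).mul (hlin c')
  have hfac : map (algebraMap ℝ ℂ) f = lin3 c ^ a * Sq ℂ 3 ^ b * lin3 c' ^ a * g' := by
    rw [hg, hg']
    ring
  have hA0 : lin3 c ^ a * Sq ℂ 3 ^ b * lin3 c' ^ a ≠ 0 := by
    intro h
    rw [hfac, h, zero_mul] at hfc0
    exact hfc0 rfl
  have hg'0 : g' ≠ 0 := by
    rintro rfl
    rw [mul_zero] at hfac
    exact hfc0 hfac
  obtain ⟨j, hj, -⟩ := hom_of_mul hA hA0 hg'0 (d := d) (by
    rw [← hfac]
    exact hf.map _)
  omega

variable {M : Type*} [TopologicalSpace M] [ChartedSpace (Eu 2) M]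

/-- the theorem on surfaces -/
theorem sphere_of_low [CompactSpace M] [ConnectedSpace M] {x : M → Eu 3}
    (hx : IsImmersion 2 x) (hft : IsFiniteType 2 x) {O : Set M} (hO : IsOpen O)
    (hOne : O.Nonempty) {F : MvPolynomial (Fin 3) ℝ} (hF : Irreducible F)
    (hF0 : ∀ p ∈ O, ev F (x p) = 0)
    (h : ∀ (c : Fin 3 → ℂ) (a b : ℕ), c ≠ 0 → ∑ i, c i ^ 2 = 0 → 1 ≤ a →
      lin3 c ^ a * Sq ℂ 3 ^ b ∣
        map (algebraMap ℝ ℂ) (homogeneousComponent F.totalDegree F) → a + b ≤ 2) :
    ∃ (c : Eu 3) (r : ℝ), 0 < r ∧ (∀ p ∈ O, dist (x p) c = r) ∧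
      (O = Set.univ → Set.range x = Metric.sphere c r) := by
  classical
  have hf0 : homogeneousComponent F.totalDegree F ≠ 0 := by
    have h1 := (top_weighted (1 : Fin 3 → ℕ) hF.ne_zero).2
    rw [weightedTotalDegree_one] at h1
    exact h1
  have hfc0 : map (algebraMap ℝ ℂ) (homogeneousComponent F.totalDegree F) ≠ 0 := by
    intro h
    exact hf0 (map_injective _ (algebraMap ℝ ℂ).injective (by rw [h, map_zero]))
  have hhom : (map (algebraMap ℝ ℂ) (homogeneousComponent F.totalDegree F)).IsHomogeneous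
      F.totalDegree := (homogeneousComponent_isHomogeneous _ F).map _
  have hcrit : ∀ q, Irreducible q →
      q ∣ map (algebraMap ℝ ℂ) (homogeneousComponent F.totalDegree F) →
        q ∣ ∑ a, pderiv a q ^ 2 := by
    intro q hq hqf
    have h1 := criterion_factor two_ne_zero hx hft hO hOne hF hF0 (w := (1 : Fin 3 → ℕ)) (by
      intro h2
      exact one_ne_zero (congrFun h2 0)) (m := 1) (fun a => le_rfl) hq (by
        rw [weightedTotalDegree_one]
        exact hqf)
    have h2 : gsq (1 : Fin 3 → ℕ) 1 q = ∑ a, pderiv a q ^ 2 := by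
      rw [gsq]
      refine Finset.sum_congr rfl fun a _ => ?_
      rw [if_pos (by rfl)]
    rwa [h2] at h1
  by_cases hiso : ∃ c : Fin 3 → ℂ, c ≠ 0 ∧ ∑ i, c i ^ 2 = 0 ∧
      lin3 c ∣ map (algebraMap ℝ ℂ) (homogeneousComponent F.totalDegree F)
  · exfalso
    obtain ⟨e, he, hee, hef⟩ := hiso
    obtain ⟨a, b, g, hfac, ha, hg⟩ := exists_fac hfc0 hhom hcrit he hee hef
    have hab := h e a b he hee ha ⟨g, hfac⟩
    obtain ⟨c, l, hl, hdv⟩ := exists_iter_dvd_mfd hx hft hO hOne hF hF0
    have hWF := not_dvd_WW_mfd hx hO hOne hF hF0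
    have h1 : Irreducible (tr c F) := (MulEquiv.irreducible_iff (tr c)).2 hF
    have h2 : ¬tr c F ∣ WW (tr c F) := by
      rw [tr_WW, map_dvd_iff]
      exact hWF
    have h3 : ∀ a, tr c F ∣ iter (tr c F) l 0 (X a) := by
      intro a
      have h4 : tr c (X a - C (c a)) = X a := by
        rw [map_sub, tr_X, tr_C, add_sub_cancel_right]
      have h5 := map_dvd (tr c) (hdv a)
      rwa [← tr_iter, h4] at h5
    have h4 := homogeneousComponent_tr c (le_refl F.totalDegree)
    have h5 : (tr c F).totalDegree = F.totalDegree := by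
      apply le_antisymm (totalDegree_tr_le c F)
      by_contra h6
      push Not at h6
      rw [homogeneousComponent_eq_zero _ _ h6] at h4
      exact hf0 h4.symm
    refine no_low h1 h2 hl h3 he hee hg (e1 := a) (m := b) ?_ ha hab
    rw [h5, h4]
    exact hfac
  · push Not at hiso
    refine sphere_of_leading two_ne_zero hx hft hO hOne hF hF0 fun q hq hqf hqg => ?_
    rcases classify hq (euler_dvd hfc0 hhom hq hqf) hqg with h4 | ⟨c', hc', hcc', h4⟩
    · exact (hq.dvd_irreducible_iff_associated irreducible_Sq).1 h4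
    · exfalso
      have h5 := (hq.dvd_irreducible_iff_associated (irreducible_lin3 hc')).1 h4
      exact hiso c' hc' hcc' (h5.symm.dvd.trans hqf)

end Run7.h978
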