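import Mathlib
import Pool.Agent.Run7.h978.Nfr18

set_option autoImplicit false
set_option linter.unusedSectionVars false

/-!
Polynomials of odd degree.
-/

open MvPolynomial

namespace Run7.h978

theorem exists_root_odd {P : Polynomial ℝ} (h : Odd P.natDegree) : ∃ t, P.eval t = 0 := by
  have key : ∀ P : Polynomial ℝ, Odd P.natDegree → 0 < P.leadingCoeff → ∃ t, P.eval t = 0 := by
    intro P h hl
    have hd : 0 < P.degree := Polynomial.natDegree_pos_iff_degree_pos.1 h.pos
    have h1 := P.tendsto_atTop_of_leadingCoeff_nonneg hd hl.le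
    obtain ⟨t1, ht1⟩ := (h1.eventually_ge_atTop 0).exists
    set Q := -(P.comp (-Polynomial.X)) with hQ
    have hQd : Q.natDegree = P.natDegree := by
      rw [hQ, Polynomial.natDegree_neg, Polynomial.natDegree_comp, Polynomial.natDegree_neg,
        Polynomial.natDegree_X, mul_one]
    have hQl : Q.leadingCoeff = P.leadingCoeff := by
      rw [hQ, Polynomial.leadingCoeff_neg, Polynomial.leadingCoeff_comp (by
        rw [Polynomial.natDegree_neg, Polynomial.natDegree_X]
        exact one_ne_zero), Polynomial.leadingCoeff_neg, Polynomial.leadingCoeff_X,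
        h.neg_one_pow]
      ring
    have hd' : 0 < Q.degree := Polynomial.natDegree_pos_iff_degree_pos.1 (by
      rw [hQd]
      exact h.pos)
    have h2 := Q.tendsto_atTop_of_leadingCoeff_nonneg hd' (by rw [hQl]; exact hl.le)
    obtain ⟨t2, ht2⟩ := (h2.eventually_ge_atTop 0).exists
    have h3 : P.eval (-t2) ≤ 0 := by
      have h4 : Q.eval t2 = -P.eval (-t2) := by
        rw [hQ, Polynomial.eval_neg, Polynomial.eval_comp, Polynomial.eval_neg, Polynomial.eval_X]
      rw [h4] at ht2
      linarith
    exact mem_range_of_exists_le_of_exists_ge P.continuous ⟨-t2, h3⟩ ⟨t1, ht1⟩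
  rcases lt_trichotomy P.leadingCoeff 0 with h1 | h1 | h1
  · obtain ⟨t, ht⟩ := key (-P) (by rwa [Polynomial.natDegree_neg]) (by
      rw [Polynomial.leadingCoeff_neg]
      linarith)
    refine ⟨t, ?_⟩
    rw [Polynomial.eval_neg] at ht
    linarith
  · rw [Polynomial.leadingCoeff_eq_zero] at h1
    rw [h1] at h
    simp at h
  · exact key P h h1

theorem aeval_real {N : ℕ} (v : Fin N → ℝ) (q : MvPolynomial (Fin N) ℝ) :
    aeval v q = eval v q := by
  rw [← MvPolynomial.coe_aeval_eq_eval]
  rfl

/-- the restriction of a polynomial to a line -/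
theorem exists_line {N : ℕ} (p : MvPolynomial (Fin N) ℝ) {w : Fin N → ℝ}
    (hw : eval w (homogeneousComponent p.totalDegree p) ≠ 0) (x : Fin N → ℝ) :
    ∃ P : Polynomial ℝ, P.natDegree = p.totalDegree ∧
      ∀ s, P.eval s = eval (fun a => x a + s * w a) p := by
  set D := p.totalDegree with hD
  set c : ℕ → ℝ := fun k => eval w (homogeneousComponent k (tr x p)) with hc
  have htd : (tr x p).totalDegree ≤ D := totalDegree_tr_le x p
  refine ⟨∑ k ∈ Finset.range (D + 1), Polynomial.C (c k) * Polynomial.X ^ k, ?_, fun s => ?_⟩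
  · apply le_antisymm
    · apply Polynomial.natDegree_sum_le_of_forall_le
      intro k hk
      rw [Finset.mem_range] at hk
      exact (Polynomial.natDegree_C_mul_X_pow_le _ _).trans (by omega)
    · apply Polynomial.le_natDegree_of_ne_zero
      rw [Polynomial.finsetSum_coeff, Finset.sum_eq_single D]
      · rw [Polynomial.coeff_C_mul, Polynomial.coeff_X_pow, if_pos rfl, mul_one, hc]
        show eval w (homogeneousComponent D (tr x p)) ≠ 0
        rw [homogeneousComponent_tr x le_rfl]
        exact hw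
      · intro k _ hk
        rw [Polynomial.coeff_C_mul, Polynomial.coeff_X_pow, if_neg (Ne.symm hk), mul_zero]
      · intro h
        exact absurd (Finset.mem_range.2 (Nat.lt_succ_self D)) h
  · have h1 : eval (fun a => x a + s * w a) p = eval (fun a => s * w a) (tr x p) := by
      show _ = eval (fun a => s * w a) (aeval (fun a => X a + C (x a)) p)
      rw [← MvPolynomial.coe_aeval_eq_eval, ← MvPolynomial.coe_aeval_eq_eval]
      show aeval _ p = aeval _ (aeval (fun a => X a + C (x a)) p)
      rw [← AlgHom.comp_apply, comp_aeval]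
      congr 2
      funext a
      simp
      ring
    have h2 : tr x p = ∑ k ∈ Finset.range (D + 1), homogeneousComponent k (tr x p) := by
      conv_lhs => rw [← sum_homogeneousComponent (tr x p)]
      apply Finset.sum_subset
      · intro k hk
        rw [Finset.mem_range] at hk ⊢
        omega
      · intro k _ hk
        rw [Finset.mem_range] at hk
        rw [homogeneousComponent_eq_zero _ _ (by omega)]
    rw [h1, h2, map_sum, Polynomial.eval_finsetSum]
    refine Finset.sum_congr rfl fun k _ => ?_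
    rw [Polynomial.eval_mul, Polynomial.eval_C, Polynomial.eval_pow, Polynomial.eval_X]
    have h3 := aeval_scale (k := ℝ) (K := ℝ) (w := (1 : Fin N → ℕ)) (d := k)
      (p := homogeneousComponent k (tr x p)) (homogeneousComponent_isHomogeneous k _) w s
    rw [aeval_real, aeval_real] at h3
    have h4 : (fun a => w a * s ^ (1 : Fin N → ℕ) a) = fun a => s * w a := by
      funext a
      rw [Pi.one_apply, pow_one, mul_comm]
    rw [h4] at h3
    rw [h3, hc, mul_comm]

/-- the change of coordinates adapted to the direction `w` -/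
noncomputable def shr {N : ℕ} (j : Fin N) (w : Fin N → ℝ) (hj : w j ≠ 0) :
    MvPolynomial (Fin N) ℝ ≃ₐ[ℝ] MvPolynomial (Fin N) ℝ :=
  AlgEquiv.ofAlgHom
    (aeval fun a => if a = j then C (w j) * X j else X a + C (w a) * X j)
    (aeval fun a => if a = j then C (w j)⁻¹ * X j else X a - C (w a * (w j)⁻¹) * X j)
    (by
      apply MvPolynomial.algHom_ext
      intro a
      have hC : ∀ r : ℝ, aeval (fun a => if a = j then C (w j) * X j else
          X a + C (w a) * X j : Fin N → MvPolynomial (Fin N) ℝ) (C r) = C r := fun r => by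
        rw [aeval_C]
        rfl
      rw [AlgHom.comp_apply, aeval_X, AlgHom.id_apply]
      have h1 : (C (w j) : MvPolynomial (Fin N) ℝ) * C (w j)⁻¹ = 1 := by
        rw [← C_mul, mul_inv_cancel₀ hj, C_1]
      by_cases h : a = j
      · subst h
        rw [if_pos rfl, map_mul, aeval_X, if_pos rfl, hC]
        linear_combination X a * h1
      · rw [if_neg h, map_sub, map_mul, aeval_X, aeval_X, if_neg h, if_pos rfl, hC, C_mul]
        linear_combination (-(C (w a) * X j)) * h1)
    (by
      apply MvPolynomial.algHom_ext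
      intro a
      have hC : ∀ r : ℝ, aeval (fun a => if a = j then C (w j)⁻¹ * X j else
          X a - C (w a * (w j)⁻¹) * X j : Fin N → MvPolynomial (Fin N) ℝ) (C r) = C r :=
        fun r => by
          rw [aeval_C]
          rfl
      rw [AlgHom.comp_apply, aeval_X, AlgHom.id_apply]
      have h1 : (C (w j) : MvPolynomial (Fin N) ℝ) * C (w j)⁻¹ = 1 := by
        rw [← C_mul, mul_inv_cancel₀ hj, C_1]
      by_cases h : a = j
      · subst h
        rw [if_pos rfl, map_mul, aeval_X, if_pos rfl, hC]
        linear_combination X a * h1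
      · rw [if_neg h, map_add, map_mul, aeval_X, aeval_X, if_neg h, if_pos rfl, hC, C_mul]
        ring)

theorem shr_X {N : ℕ} (j : Fin N) (w : Fin N → ℝ) (hj : w j ≠ 0) (a : Fin N) :
    shr j w hj (X a) = if a = j then C (w j) * X j else X a + C (w a) * X j := by
  show aeval _ (X a) = _
  rw [aeval_X]

theorem shr_C {N : ℕ} (j : Fin N) (w : Fin N → ℝ) (hj : w j ≠ 0) (r : ℝ) :
    shr j w hj (C r) = C r := (shr j w hj).commutes r

theorem shr_pderiv {N : ℕ} (j : Fin N) (w : Fin N → ℝ) (hj : w j ≠ 0)
    (q : MvPolynomial (Fin N) ℝ) :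
    pderiv j (shr j w hj q) = ∑ a, C (w a) * shr j w hj (pderiv a q) := by
  classical
  have hX : ∀ i, pderiv j (shr j w hj (X i)) = C (w i) := by
    intro i
    rw [shr_X]
    by_cases h : i = j
    · rw [if_pos h, pderiv_C_mul, pderiv_X_self, mul_one, h]
    · rw [if_neg h, map_add, pderiv_C_mul, pderiv_X_self, pderiv_X_of_ne h]
      ring
  induction q using MvPolynomial.induction_on with
  | C r => simp [shr_C]
  | add p q hp hq => simp only [map_add, hp, hq, mul_add, Finset.sum_add_distrib]
  | mul_X p i hp =>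
    have h1 : ∀ a, C (w a) * shr j w hj (pderiv a (p * X i)) =
        (C (w a) * shr j w hj (pderiv a p)) * shr j w hj (X i) +
          if a = i then C (w i) * shr j w hj p else 0 := by
      intro a
      rw [Derivation.leibniz, pderiv_X, map_add, smul_eq_mul, smul_eq_mul, map_mul, map_mul,
        Pi.single_apply]
      by_cases h : a = i
      · rw [if_pos h, if_pos h.symm, map_one, h]
        ring
      · rw [if_neg h, if_neg (Ne.symm h), map_zero]
        ring
    simp only [h1]
    rw [Finset.sum_add_distrib, ← Finset.sum_mul, ← hp, Finset.sum_ite_eq' , if_pos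
      (Finset.mem_univ i), map_mul, Derivation.leibniz, hX, smul_eq_mul, smul_eq_mul]
    ring

theorem eval_shr {N : ℕ} (j : Fin N) (w : Fin N → ℝ) (hj : w j ≠ 0) (x : Fin N → ℝ)
    (hx : x j = 0) (s : ℝ) (q : MvPolynomial (Fin N) ℝ) :
    eval (fun a => if a = j then s else x a) (shr j w hj q) =
      eval (fun a => x a + s * w a) q := by
  induction q using MvPolynomial.induction_on with
  | C r => rw [shr_C, eval_C, eval_C]
  | add p q hp hq => rw [map_add, map_add, map_add, hp, hq]
  | mul_X p i hp =>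
    rw [map_mul, map_mul, map_mul, hp, eval_X, shr_X]
    congr 1
    by_cases h : i = j
    · rw [if_pos h, map_mul, eval_C, eval_X, if_pos rfl, h, hx]
      ring
    · rw [if_neg h, map_add, map_mul, eval_C, eval_X, eval_X, if_pos rfl, if_neg h]
      ring

/-- a regular real zero of a polynomial of odd degree -/
theorem odd_point {n : ℕ} {p : MvPolynomial (Fin (n + 1)) ℝ} (hp : Irreducible p)
    (hodd : Odd p.totalDegree) :
    ∃ x : Fin (n + 1) → ℝ, eval x p = 0 ∧ ∃ a, eval x (pderiv a p) ≠ 0 := by
  classical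
  set D := p.totalDegree with hD
  have hD0 : D ≠ 0 := by
    intro h
    rw [h] at hodd
    simp at hodd
  have h0 : homogeneousComponent D p ≠ 0 := by
    have h1 := (top_weighted (1 : Fin (n + 1) → ℕ) hp.ne_zero).2
    rw [weightedTotalDegree_one] at h1
    exact h1
  obtain ⟨w, hw⟩ : ∃ w, eval w (homogeneousComponent D p) ≠ 0 := by
    by_contra h
    push Not at h
    exact h0 (MvPolynomial.funext fun w => by rw [h w, map_zero])
  obtain ⟨j, hj⟩ : ∃ j, w j ≠ 0 := by
    by_contra h
    push Not at h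
    apply hw
    have h1 : w = 0 := funext h
    rw [h1, eval_zero, constantCoeff_eq, coeff_homogeneousComponent, if_neg]
    simpa using Ne.symm hD0
  set p' := shr j w hj p with hp'
  have hp'i : Irreducible p' := (MulEquiv.irreducible_iff (shr j w hj)).2 hp
  have hline := exists_line p hw
  have hev : ∀ (y : Fin n → ℝ) (s : ℝ) (q : MvPolynomial (Fin (n + 1)) ℝ),
      aeval (Fin.insertNth (α := fun _ => ℝ) j s y) (shr j w hj q) =
        eval (fun a => (Fin.insertNth (α := fun _ => ℝ) j (0 : ℝ) y : Fin (n + 1) → ℝ) a +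
          s * w a) q := by
    intro y s q
    rw [← eval_shr j w hj (Fin.insertNth (α := fun _ => ℝ) j (0 : ℝ) y)
      (Fin.insertNth_apply_same (α := fun _ => ℝ) j 0 y) s q, aeval_real]
    congr 2
    funext a
    rcases eq_or_ne a j with rfl | ha
    · rw [if_pos rfl]
      exact Fin.insertNth_apply_same (α := fun _ => ℝ) a s y
    · obtain ⟨i, rfl⟩ := Fin.exists_succAbove_eq ha
      rw [if_neg ha]
      exact (Fin.insertNth_apply_succAbove (α := fun _ => ℝ) j s y i).trans
        (Fin.insertNth_apply_succAbove (α := fun _ => ℝ) j 0 y i).symm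
  have hj' : pderiv j p' ≠ 0 := by
    intro h
    obtain ⟨P, hPd, hP⟩ := hline (Fin.insertNth (α := fun _ => ℝ) j (0 : ℝ) (0 : Fin n → ℝ))
    have h1 : Polynomial.derivative (sg j p') = 0 := by
      rw [derivative_sg, h, map_zero]
    have h3 := Polynomial.derivative_eq_zero.1 h1
    have h4 := Polynomial.eq_C_of_natDegree_eq_zero h3
    have h5 : ∀ s, P.eval s = P.eval 0 := by
      intro s
      have key : ∀ s, P.eval s = aeval (fun i => (0 : Fin n → ℝ) i) ((sg j p').coeff 0) := by
        intro s
        rw [hP s, ← hev 0 s p, ← hp', ← aeval_sg j _ p', h4, Polynomial.eval₂_C,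
          Polynomial.coeff_C_zero]
        have h6 : (fun i => (Fin.insertNth (α := fun _ => ℝ) j s (0 : Fin n → ℝ) :
            Fin (n + 1) → ℝ) (j.succAbove i)) = fun i => (0 : Fin n → ℝ) i := by
          funext i
          exact Fin.insertNth_apply_succAbove (α := fun _ => ℝ) j s 0 i
        rw [h6]
        rfl
      rw [key s, key 0]
    have h6 : P = Polynomial.C (P.eval 0) := by
      apply Polynomial.funext
      intro s
      rw [Polynomial.eval_C]
      exact h5 s
    rw [h6, Polynomial.natDegree_C] at hPd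
    exact hD0 hPd.symm
  obtain ⟨r, hr0, hr⟩ := exists_elim j hp'i hj' (not_dvd_pderiv' hj')
  obtain ⟨y, hy⟩ : ∃ y, eval y r ≠ 0 := by
    by_contra h
    push Not at h
    exact hr0 (MvPolynomial.funext fun w => by rw [h w, map_zero])
  obtain ⟨P, hPd, hP⟩ := hline (Fin.insertNth (α := fun _ => ℝ) j (0 : ℝ) y)
  obtain ⟨s, hs⟩ := exists_root_odd (P := P) (by rw [hPd]; exact hodd)
  refine ⟨fun a => (Fin.insertNth (α := fun _ => ℝ) j (0 : ℝ) y : Fin (n + 1) → ℝ) a + s * w a,
    ?_, ?_⟩
  · rw [← hP s]
    exact hs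
  · by_contra hcon
    push Not at hcon
    apply hy
    have h1 := hr ℝ (Fin.insertNth (α := fun _ => ℝ) j s y) (by
      rw [hp', hev y s p, ← hP s]
      exact hs) (by
      rw [hp', shr_pderiv, map_sum]
      refine Finset.sum_eq_zero fun a _ => ?_
      rw [map_mul, hev y s (pderiv a p), hcon a, mul_zero])
    have h6 : (fun i => (Fin.insertNth (α := fun _ => ℝ) j s y :
        Fin (n + 1) → ℝ) (j.succAbove i)) = y := by
      funext i
      exact Fin.insertNth_apply_succAbove (α := fun _ => ℝ) j s y i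
    rw [h6] at h1
    exact h1

theorem exists_odd_factor {N : ℕ} {f : MvPolynomial (Fin N) ℝ} (hf : f ≠ 0)
    (hodd : Odd f.totalDegree) : ∃ p, Irreducible p ∧ p ∣ f ∧ Odd p.totalDegree := by
  obtain ⟨s, hs, u, hu⟩ := WfDvdMonoid.exists_factors f hf
  by_contra hcon
  push Not at hcon
  have h1 : ∀ p ∈ s, ¬Odd p.totalDegree := fun p hp =>
    hcon p (hs p hp) ((Multiset.dvd_prod hp).trans ⟨_, hu.symm⟩)
  have h2 : ∀ t : Multiset (MvPolynomial (Fin N) ℝ), (∀ p ∈ t, Irreducible p ∧
      ¬Odd p.totalDegree) → t.prod ≠ 0 ∧ ¬Odd t.prod.totalDegree := by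
    intro t
    induction t using Multiset.induction_on with
    | empty =>
      intro _
      rw [Multiset.prod_zero, totalDegree_one]
      exact ⟨one_ne_zero, by simp⟩
    | cons q t ih =>
      intro ht
      obtain ⟨h3, h4⟩ := ih fun p hp => ht p (Multiset.mem_cons_of_mem hp)
      obtain ⟨h5, h6⟩ := ht q (Multiset.mem_cons_self q t)
      rw [Multiset.prod_cons]
      refine ⟨mul_ne_zero h5.ne_zero h3, ?_⟩
      rw [totalDegree_mul_of_isDomain h5.ne_zero h3]
      rw [Nat.not_odd_iff_even] at h4 h6 ⊢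
      exact h6.add h4
  obtain ⟨h3, h4⟩ := h2 s fun p hp => ⟨hs p hp, h1 p hp⟩
  apply h4
  have h5 : f.totalDegree = s.prod.totalDegree := by
    rw [← hu, totalDegree_mul_of_isDomain h3 u.isUnit.ne_zero]
    obtain ⟨κ, hκ, hκ'⟩ := MvPolynomial.isUnit_iff_eq_C_of_isReduced.1 u.isUnit
    rw [hκ', totalDegree_C, add_zero]
  rw [← h5]
  exact hodd

/-- a real polynomial of odd degree has a complex factor which is not isotropic -/
theorem odd_form {n : ℕ} {f : MvPolynomial (Fin (n + 1)) ℝ} (hf : f ≠ 0)
    (hodd : Odd f.totalDegree) : ∃ q : MvPolynomial (Fin (n + 1)) ℂ, Irreducible q ∧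
      q ∣ map (algebraMap ℝ ℂ) f ∧ ¬q ∣ ∑ a, pderiv a q ^ 2 := by
  obtain ⟨p, hp, hpf, hpo⟩ := exists_odd_factor hf hodd
  obtain ⟨x, hx, a0, ha0⟩ := odd_point hp hpo
  have hpc0 : map (algebraMap ℝ ℂ) p ≠ 0 := by
    intro h
    exact hp.ne_zero (map_injective _ (algebraMap ℝ ℂ).injective (by rw [h, map_zero]))
  set xc : Fin (n + 1) → ℂ := fun a => algebraMap ℝ ℂ (x a) with hxc
  have hev : ∀ g : MvPolynomial (Fin (n + 1)) ℝ,
      eval xc (map (algebraMap ℝ ℂ) g) = algebraMap ℝ ℂ (eval x g) := by
    intro g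
    rw [eval_map, eval₂_eq', eval_eq', map_sum]
    refine Finset.sum_congr rfl fun s _ => ?_
    rw [map_mul, map_prod]
    congr 1
    refine Finset.prod_congr rfl fun i _ => ?_
    rw [map_pow]
  obtain ⟨s, hs, u, hu⟩ := WfDvdMonoid.exists_factors _ hpc0
  have h3 : eval xc s.prod = 0 := by
    have h4 := congrArg (eval xc) hu
    rw [map_mul, hev, hx, map_zero] at h4
    exact (mul_eq_zero.1 h4).resolve_right (u.isUnit.map (eval xc)).ne_zero
  rw [map_multiset_prod, Multiset.prod_eq_zero_iff, Multiset.mem_map] at h3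
  obtain ⟨q, hq, hq0⟩ := h3
  have hqp : q ∣ map (algebraMap ℝ ℂ) p := (Multiset.dvd_prod hq).trans ⟨_, hu.symm⟩
  refine ⟨q, hs q hq, hqp.trans (map_dvd _ hpf), ?_⟩
  rintro ⟨g, hg⟩
  obtain ⟨r, hr⟩ := hqp
  have h4 : ∀ a, algebraMap ℝ ℂ (eval x (pderiv a p)) = eval xc r * eval xc (pderiv a q) := by
    intro a
    rw [← hev, ← pderiv_map, hr, Derivation.leibniz, smul_eq_mul, smul_eq_mul, map_add, map_mul,
      map_mul, hq0]
    ring
  have h5 : ∑ a, eval x (pderiv a p) ^ 2 = 0 := by
    apply (algebraMap ℝ ℂ).injective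
    rw [map_sum, map_zero]
    have h6 : ∀ a, algebraMap ℝ ℂ (eval x (pderiv a p) ^ 2) =
        eval xc r ^ 2 * eval xc (pderiv a q ^ 2) := by
      intro a
      rw [map_pow, h4, map_pow]
      ring
    simp only [h6]
    rw [← Finset.mul_sum, ← map_sum, hg, map_mul, hq0, zero_mul, mul_zero]
  have h6 := (Finset.sum_eq_zero_iff_of_nonneg (fun i _ => sq_nonneg _)).1 h5 a0
    (Finset.mem_univ a0)
  exact ha0 (pow_eq_zero_iff two_ne_zero |>.1 h6)

variable {n : ℕ} {M : Type*} [TopologicalSpace M] [ChartedSpace (Eu n) M]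

theorem no_odd [CompactSpace M] [ConnectedSpace M] (hn : n ≠ 0) {x : M → Eu (n + 1)}
    (hx : IsImmersion n x) (hft : IsFiniteType n x) {O : Set M} (hO : IsOpen O)
    (hOne : O.Nonempty) {F : MvPolynomial (Fin (n + 1)) ℝ} (hF : Irreducible F)
    (hF0 : ∀ p ∈ O, ev F (x p) = 0) : ¬Odd F.totalDegree := by
  intro hodd
  have hf0 : homogeneousComponent F.totalDegree F ≠ 0 := by
    have h1 := (top_weighted (1 : Fin (n + 1) → ℕ) hF.ne_zero).2
    rw [weightedTotalDegree_one] at h1
    exact h1
  obtain ⟨q, hq, hqf, hqg⟩ := odd_form hf0 (by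
    rw [(homogeneousComponent_isHomogeneous F.totalDegree F).totalDegree hf0]
    exact hodd)
  apply hqg
  have h1 := criterion_factor hn hx hft hO hOne hF hF0 (w := (1 : Fin (n + 1) → ℕ)) (by
    intro h2
    exact one_ne_zero (congrFun h2 0)) (m := 1) (fun a => le_rfl) hq (by
      rw [weightedTotalDegree_one]
      exact hqf)
  have h2 : gsq (1 : Fin (n + 1) → ℕ) 1 q = ∑ a, pderiv a q ^ 2 := by
    rw [gsq]
    refine Finset.sum_congr rfl fun a _ => ?_
    rw [if_pos (by rfl)]
  rwa [h2] at h1

end Run7.h978
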