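import Mathlib
import Pool.Agent.Run7.h978.Nfr19

set_option autoImplicit false
set_option linter.unusedSectionVars false

/-!
Gluing of spherical pieces.
-/

open Set Filter Topology MvPolynomial
open scoped RealInnerProductSpace ContDiff Manifold

namespace Run7.h978

theorem zero_of_frequently {E : Type*} [TopologicalSpace E] {g : E → ℝ} {y0 : E}
    (hg : ContinuousAt g y0) (h : ∃ᶠ y in 𝓝 y0, g y = 0) : g y0 = 0 := by
  by_contra h0
  exact h (hg.eventually_ne h0)

/-- the equations of a piece in a sphere -/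
theorem sphere_eqs {n : ℕ} {X : Eu n → Eu (n + 1)} {c : Eu (n + 1)} {r : ℝ} {y : Eu n}
    (hX' : ∀ᶠ z in 𝓝 y, ContDiffAt ℝ ∞ X z) (h : ∀ᶠ z in 𝓝 y, dist (X z) c = r) (w : Eu n) :
    ⟪X y - c, fderiv ℝ X y w⟫ = 0 ∧ ⟪fderiv ℝ X y w, fderiv ℝ X y w⟫ +
      ⟪X y - c, fderiv ℝ (fun z => fderiv ℝ X z w) y w⟫ = 0 := by
  have hX : ContDiffAt ℝ ∞ X y := hX'.self_of_nhds
  have first : ∀ z, ContDiffAt ℝ ∞ X z → (∀ᶠ z' in 𝓝 z, dist (X z') c = r) →
      ⟪X z - c, fderiv ℝ X z w⟫ = 0 := by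
    intro z hXz hz
    have hd : HasFDerivAt X (fderiv ℝ X z) z := (hXz.differentiableAt (by simp)).hasFDerivAt
    have h2 : HasFDerivAt (fun z => ‖X z - c‖ ^ 2) (2 • (innerSL ℝ (X z - c)).comp
        (fderiv ℝ X z)) z := (hd.sub_const c).norm_sq
    have h3 : HasFDerivAt (fun z => ‖X z - c‖ ^ 2) (0 : Eu n →L[ℝ] ℝ) z := by
      refine (hasFDerivAt_const (r ^ 2) z).congr_of_eventuallyEq ?_
      filter_upwards [hz] with z' hz'
      rw [← dist_eq_norm, hz']
    have h4 := h2.unique h3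
    have h5 := congrArg (fun B : Eu n →L[ℝ] ℝ => B w) h4
    have h6 : (2 : ℝ) * ⟪X z - c, fderiv ℝ X z w⟫ = 0 := by
      have : (2 • (innerSL ℝ (X z - c)).comp (fderiv ℝ X z)) w =
          (2 : ℝ) * ⟪X z - c, fderiv ℝ X z w⟫ := by
        rw [two_smul, two_mul]
        rfl
      rw [← this]
      exact h5
    linarith
  refine ⟨first y hX h, ?_⟩
  have hG : ContDiffAt ℝ ∞ (fun z => fderiv ℝ X z w) y := by
    have h1 : ContDiffAt ℝ ∞ (fderiv ℝ X) y := hX.fderiv_right (by simp)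
    exact h1.clm_apply contDiffAt_const
  have hd : HasFDerivAt X (fderiv ℝ X y) y := (hX.differentiableAt (by simp)).hasFDerivAt
  have hdG : HasFDerivAt (fun z => fderiv ℝ X z w) (fderiv ℝ (fun z => fderiv ℝ X z w) y) y :=
    (hG.differentiableAt (by simp)).hasFDerivAt
  have h1 := (hd.sub_const c).inner ℝ hdG
  have h2 : HasFDerivAt (fun z => ⟪X z - c, fderiv ℝ X z w⟫) (0 : Eu n →L[ℝ] ℝ) y := by
    refine (hasFDerivAt_const (0 : ℝ) y).congr_of_eventuallyEq ?_
    filter_upwards [hX', eventually_eventually_nhds.2 h] with z hz hz'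
    exact first z hz hz'
  have h3 := h1.unique h2
  have h4 := congrArg (fun B : Eu n →L[ℝ] ℝ => B w) h3
  have h4' : (0 : Eu n →L[ℝ] ℝ) w = 0 := rfl
  rw [h4'] at h4
  have h5 : ⟪X y - c, fderiv ℝ (fun z => fderiv ℝ X z w) y w⟫ +
      ⟪fderiv ℝ X y w, fderiv ℝ X y w⟫ = 0 := by
    rw [← h4]
    rfl
  linarith

variable {n : ℕ} {M : Type*} [TopologicalSpace M] [ChartedSpace (Eu n) M]

/-- two spheres which touch the immersion at the same point from open sets agree -/
theorem contact (hn : n ≠ 0) {x : M → Eu (n + 1)} (hx : IsImmersion n x) {c c' : Eu (n + 1)}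
    {r r' : ℝ} (hr : 0 < r) {p : M} (h : p ∈ closure (interior {q | dist (x q) c = r}))
    (h' : p ∈ closure (interior {q | dist (x q) c' = r'})) : c = c' ∧ r = r' := by
  set e := chartAt (Eu n) p with he
  have hea : e ∈ atlas (Eu n) M := chart_mem_atlas (Eu n) p
  have hps : p ∈ e.source := mem_chart_source (Eu n) p
  have hi := imm_of_chart hx hea
  set X := x ∘ e.symm with hX
  set y0 := e p with hy0
  have hy0t : y0 ∈ e.target := e.map_source hps
  have hsm : ∀ y ∈ e.target, ContDiffAt ℝ ∞ X y := fun y hy =>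
    hi.sm.contDiffAt (e.open_target.mem_nhds hy)
  have hev : ∀ y ∈ e.target, ∀ᶠ z in 𝓝 y, ContDiffAt ℝ ∞ X z := by
    intro y hy
    filter_upwards [e.open_target.mem_nhds hy] with z hz
    exact hsm z hz
  have hfreq : ∀ (c : Eu (n + 1)) (r : ℝ), p ∈ closure (interior {q | dist (x q) c = r}) →
      ∃ᶠ y in 𝓝 y0, y ∈ e.target ∧ ∀ᶠ z in 𝓝 y, dist (X z) c = r := by
    intro c r h
    have h1 := mem_closure_iff_frequently.1 h
    have h2 := h1.and_eventually (e.open_source.mem_nhds hps)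
    rw [hy0, ← e.map_nhds_eq hps, frequently_map]
    refine h2.mono ?_
    rintro q ⟨hq, hqs⟩
    refine ⟨e.map_source hqs, ?_⟩
    rw [← e.map_nhds_eq hqs, eventually_map]
    filter_upwards [isOpen_interior.mem_nhds hq, e.open_source.mem_nhds hqs] with q' hq' hqs'
    have h3 : q' ∈ {q | dist (x q) c = r} := interior_subset hq'
    rw [hX, Function.comp_apply, e.left_inv hqs']
    exact h3
  have key : ∀ (c : Eu (n + 1)) (r : ℝ), p ∈ closure (interior {q | dist (x q) c = r}) →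
      dist (X y0) c = r ∧ (∀ w, ⟪X y0 - c, fderiv ℝ X y0 w⟫ = 0) ∧
        ∀ w, ⟪fderiv ℝ X y0 w, fderiv ℝ X y0 w⟫ +
          ⟪X y0 - c, fderiv ℝ (fun z => fderiv ℝ X z w) y0 w⟫ = 0 := by
    intro c r h
    have h1 := hfreq c r h
    have hc0 : ContinuousAt X y0 := (hsm y0 hy0t).continuousAt
    have hF : ContDiffAt ℝ ∞ (fderiv ℝ X) y0 := (hsm y0 hy0t).fderiv_right (by simp)
    have hc1 : ∀ w, ContinuousAt (fun y => fderiv ℝ X y w) y0 := fun w =>
      (hF.clm_apply contDiffAt_const).continuousAt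
    have hc2 : ∀ w, ContinuousAt (fun y => fderiv ℝ (fun z => fderiv ℝ X z w) y w) y0 := by
      intro w
      have h2 : ContDiffAt ℝ ∞ (fun z => fderiv ℝ X z w) y0 := hF.clm_apply contDiffAt_const
      have h3 : ContDiffAt ℝ ∞ (fderiv ℝ (fun z => fderiv ℝ X z w)) y0 :=
        h2.fderiv_right (by simp)
      exact (h3.clm_apply contDiffAt_const).continuousAt
    refine ⟨?_, fun w => ?_, fun w => ?_⟩
    · have h2 := zero_of_frequently (g := fun y => dist (X y) c - r)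
        ((hc0.dist continuousAt_const).sub continuousAt_const)
        (h1.mono fun y hy => by
          have := hy.2.self_of_nhds
          rw [this, sub_self])
      linarith
    · exact zero_of_frequently (g := fun y => ⟪X y - c, fderiv ℝ X y w⟫)
        ((hc0.sub continuousAt_const).inner (hc1 w))
        (h1.mono fun y hy => (sphere_eqs (hev y hy.1) hy.2 w).1)
    · exact zero_of_frequently (g := fun y => ⟪fderiv ℝ X y w, fderiv ℝ X y w⟫ +
          ⟪X y - c, fderiv ℝ (fun z => fderiv ℝ X z w) y w⟫)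
        (((hc1 w).inner (hc1 w)).add ((hc0.sub continuousAt_const).inner (hc2 w)))
        (h1.mono fun y hy => (sphere_eqs (hev y hy.1) hy.2 w).2)
  obtain ⟨k1, k2, k3⟩ := key c r h
  obtain ⟨k1', k2', k3'⟩ := key c' r' h'
  have hu0 : X y0 - c ≠ 0 := by
    intro h3
    rw [dist_eq_norm, h3, norm_zero] at k1
    exact hr.ne k1
  obtain ⟨t, ht⟩ := parallel_of_orthogonal (hi.inj y0 hy0t) k2 hu0 k2'
  set w : Eu n := EuclideanSpace.single (⟨0, Nat.pos_of_ne_zero hn⟩ : Fin n) (1 : ℝ) with hw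
  have hw0 : w ≠ 0 := by
    intro h7
    have h8 := congrArg norm h7
    simp [hw] at h8
  have hAw : ⟪fderiv ℝ X y0 w, fderiv ℝ X y0 w⟫ ≠ 0 := by
    intro h8
    rw [inner_self_eq_zero] at h8
    exact hw0 (hi.inj y0 hy0t (by rw [h8, map_zero]))
  have e1 := k3 w
  have e2 := k3' w
  rw [ht, inner_smul_left] at e2
  simp only [conj_trivial] at e2
  have e3 : (1 - t) * ⟪fderiv ℝ X y0 w, fderiv ℝ X y0 w⟫ = 0 := by
    linear_combination e2 - t * e1
  have e4 : t = 1 := by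
    rcases mul_eq_zero.1 e3 with h9 | h9
    · linarith
    · exact absurd h9 hAw
  rw [e4, one_smul] at ht
  have e5 : c = c' := (sub_right_inj.1 ht).symm
  refine ⟨e5, ?_⟩
  rw [← k1, ← k1', e5]

theorem exists_avoid {x : M → Eu (n + 1)} (hxc : Continuous x) :
    ∀ (t : Multiset (MvPolynomial (Fin (n + 1)) ℝ)) (W : Set M), IsOpen W → W.Nonempty →
      (∀ q ∈ t, W ∩ interior {p | ev q (x p) = 0} = ∅) →
        ∃ p ∈ W, ∀ q ∈ t, ev q (x p) ≠ 0 := by
  intro t
  induction t using Multiset.induction_on with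
  | empty =>
    rintro W _ ⟨p, hp⟩ _
    exact ⟨p, hp, fun q hq => absurd hq (Multiset.notMem_zero q)⟩
  | cons q t ih =>
    intro W hW hWne ht
    have hZ : IsClosed {p | ev q (x p) = 0} := by
      have h1 : Continuous (ev q) := by
        have h2 : Differentiable ℝ (ev q) := fun x => (hasFDerivAt_ev q x).differentiableAt
        exact h2.continuous
      exact isClosed_eq (h1.comp hxc) continuous_const
    have h1 : (W ∩ {p | ev q (x p) = 0}ᶜ).Nonempty := by
      by_contra h2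
      rw [Set.not_nonempty_iff_eq_empty] at h2
      have h3 : W ⊆ {p | ev q (x p) = 0} := by
        intro p hp
        by_contra h4
        have : p ∈ W ∩ {p | ev q (x p) = 0}ᶜ := ⟨hp, h4⟩
        rw [h2] at this
        exact this
      have h4 : W ⊆ interior {p | ev q (x p) = 0} := interior_maximal h3 hW
      have h5 := ht q (Multiset.mem_cons_self q t)
      obtain ⟨p, hp⟩ := hWne
      have h6 : p ∈ W ∩ interior {p | ev q (x p) = 0} := ⟨hp, h4 hp⟩
      rw [h5] at h6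
      exact h6
    obtain ⟨p, hp, hp2⟩ := ih (W ∩ {p | ev q (x p) = 0}ᶜ) (hW.inter hZ.isOpen_compl) h1
      (fun q' hq' => by
        have h2 := ht q' (Multiset.mem_cons_of_mem hq')
        rw [Set.eq_empty_iff_forall_notMem] at h2 ⊢
        intro p hp
        exact h2 p ⟨hp.1.1, hp.2⟩)
    refine ⟨p, hp.1, fun q' hq' => ?_⟩
    rcases Multiset.mem_cons.1 hq' with rfl | h2
    · exact hp.2
    · exact hp2 q' h2

/-- gluing -/
theorem glue (hn : n ≠ 0) {x : M → Eu (n + 1)} (hxc : Continuous x) (hx : IsImmersion n x)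
    {O : Set M} (hO : IsOpen O) (hOc : IsPreconnected O) (hOne : O.Nonempty)
    {F : MvPolynomial (Fin (n + 1)) ℝ} (hF : F ≠ 0) (hF0 : ∀ p ∈ O, ev F (x p) = 0)
    (hloc : ∀ G, Irreducible G → G ∣ F → ∀ V : Set M, IsOpen V → V.Nonempty →
      (∀ p ∈ V, ev G (x p) = 0) → ∃ (c : Eu (n + 1)) (r : ℝ), 0 < r ∧
        ∀ p ∈ V, dist (x p) c = r) :
    ∃ (c : Eu (n + 1)) (r : ℝ), 0 < r ∧ ∀ p ∈ O, dist (x p) c = r := by
  classical
  obtain ⟨s, hs, u, hu⟩ := WfDvdMonoid.exists_factors F hF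
  have hsF : ∀ q ∈ s, q ∣ F := fun q hq => (Multiset.dvd_prod hq).trans ⟨_, hu.symm⟩
  -- the spheres
  have hsph : ∀ q : MvPolynomial (Fin (n + 1)) ℝ, ∃ σ : Eu (n + 1) × ℝ, 0 < σ.2 ∧
      (q ∈ s → O ∩ interior {p | ev q (x p) = 0} ⊆ interior {p | dist (x p) σ.1 = σ.2}) := by
    intro q
    by_cases hq : q ∈ s ∧ (O ∩ interior {p | ev q (x p) = 0}).Nonempty
    · obtain ⟨c, r, hr, h1⟩ := hloc q (hs q hq.1) (hsF q hq.1)
        (O ∩ interior {p | ev q (x p) = 0}) (hO.inter isOpen_interior) hq.2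
        (fun p hp => by
          have h1 : p ∈ {p | ev q (x p) = 0} := interior_subset hp.2
          exact h1)
      exact ⟨(c, r), hr, fun _ => interior_maximal (fun p hp => h1 p hp)
        (hO.inter isOpen_interior)⟩
    · refine ⟨(0, 1), one_pos, fun h1 => ?_⟩
      have h2 : O ∩ interior {p | ev q (x p) = 0} = ∅ := by
        rw [← Set.not_nonempty_iff_eq_empty]
        exact fun h3 => hq ⟨h1, h3⟩
      rw [h2]
      exact Set.empty_subset _
  choose σ hσ0 hσ using hsph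
  set T : Finset (Eu (n + 1) × ℝ) := s.toFinset.image σ with hT
  have hT0 : ∀ τ ∈ T, 0 < τ.2 := by
    intro τ hτ
    obtain ⟨q, _, rfl⟩ := Finset.mem_image.1 hτ
    exact hσ0 q
  set K : Eu (n + 1) × ℝ → Set M := fun τ => closure (interior {p | dist (x p) τ.1 = τ.2}) with hK
  have hcov : ∀ p ∈ O, ∃ τ ∈ T, p ∈ K τ := by
    intro p hp
    by_contra hcon
    push Not at hcon
    set W : Set M := O ∩ ⋂ τ ∈ T, (K τ)ᶜ with hW
    have hWo : IsOpen W := hO.inter (isOpen_biInter_finset fun τ _ => isClosed_closure.isOpen_compl)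
    have hpW : p ∈ W := ⟨hp, Set.mem_iInter₂.2 fun τ hτ => hcon τ hτ⟩
    obtain ⟨p', hp', hp2⟩ := exists_avoid hxc s W hWo ⟨p, hpW⟩ (fun q hq => by
      rw [Set.eq_empty_iff_forall_notMem]
      rintro p' ⟨h1, h2⟩
      have h3 : σ q ∈ T := Finset.mem_image.2 ⟨q, Multiset.mem_toFinset.2 hq, rfl⟩
      exact (Set.mem_iInter₂.1 h1.2 (σ q) h3) (subset_closure (hσ q hq ⟨h1.1, h2⟩)))
    have h1 := hF0 p' hp'.1
    rw [ev, ← hu, map_mul] at h1
    rcases mul_eq_zero.1 h1 with h2 | h2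
    · rw [map_multiset_prod, Multiset.prod_eq_zero_iff, Multiset.mem_map] at h2
      obtain ⟨q, hq, hq0⟩ := h2
      exact hp2 q hq hq0
    · exact (u.isUnit.map (eval _)).ne_zero h2
  have hKs : ∀ τ p, p ∈ K τ → dist (x p) τ.1 = τ.2 := by
    intro τ p hp
    have h1 : IsClosed {p | dist (x p) τ.1 = τ.2} :=
      isClosed_eq (hxc.dist continuous_const) continuous_const
    exact (h1.closure_subset_iff.2 interior_subset) hp
  obtain ⟨p0, hp0⟩ := hOne
  obtain ⟨τ0, hτ0, hp0K⟩ := hcov p0 hp0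
  refine ⟨τ0.1, τ0.2, hT0 τ0 hτ0, fun p hp => ?_⟩
  set B : Set M := ⋃ τ ∈ T.erase τ0, K τ with hB
  have hBc : IsClosed B := isClosed_biUnion_finset fun τ _ => isClosed_closure
  have hcovAB : O ⊆ K τ0 ∪ B := by
    intro q hq
    obtain ⟨τ, hτ, hqτ⟩ := hcov q hq
    by_cases h1 : τ = τ0
    · left
      rw [← h1]
      exact hqτ
    · right
      exact Set.mem_iUnion₂.2 ⟨τ, Finset.mem_erase.2 ⟨h1, hτ⟩, hqτ⟩
  by_cases hpK : p ∈ K τ0
  · exact hKs τ0 p hpK
  · exfalso
    have hpB : p ∈ B := (hcovAB hp).resolve_left hpK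
    obtain ⟨q, hqO, hqK, hqB⟩ := isPreconnected_closed_iff.1 hOc (K τ0) B isClosed_closure hBc
      hcovAB ⟨p0, hp0, hp0K⟩ ⟨p, hp, hpB⟩
    obtain ⟨τ, hτ, hqτ⟩ := Set.mem_iUnion₂.1 hqB
    obtain ⟨h1, h2⟩ := contact hn hx (hT0 τ0 hτ0) hqK hqτ
    exact (Finset.mem_erase.1 hτ).1 (Prod.ext h1.symm h2.symm)

end Run7.h978
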