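import Mathlib
import Pool.Agent.Run7.h978.Nfr20

set_option autoImplicit false
set_option linter.unusedSectionVars false

/-!
Polynomials which change their sign.
-/

open MvPolynomial

namespace Run7.h978

theorem not_zero_on_open {n : ℕ} {r : MvPolynomial (Fin n) ℝ} (hr : r ≠ 0)
    {U : Set (Fin n → ℝ)} (hU : IsOpen U) {y0 : Fin n → ℝ} (hy0 : y0 ∈ U) :
    ∃ y ∈ U, eval y r ≠ 0 := by
  by_contra hcon
  push Not at hcon
  obtain ⟨ε, hε, hb⟩ := Metric.isOpen_iff.1 hU y0 hy0
  apply hr
  apply MvPolynomial.funext_set (fun i => Metric.ball (y0 i) ε)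
  · intro i
    rw [Real.ball_eq_Ioo]
    exact Set.Ioo_infinite (by linarith)
  · intro y hy
    rw [map_zero]
    apply hcon y (hb _)
    rw [ball_pi _ hε]
    exact hy

/-- a regular real zero of a polynomial which changes its sign -/
theorem sign_point {n : ℕ} {p : MvPolynomial (Fin (n + 1)) ℝ} (hp : Irreducible p)
    {a b : Fin (n + 1) → ℝ} (ha : 0 < eval a p) (hb : eval b p < 0) :
    ∃ x : Fin (n + 1) → ℝ, eval x p = 0 ∧ ∃ i, eval x (pderiv i p) ≠ 0 := by
  classical
  set w : Fin (n + 1) → ℝ := fun i => b i - a i with hw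
  obtain ⟨j, hj⟩ : ∃ j, w j ≠ 0 := by
    by_contra h
    push Not at h
    have h1 : b = a := funext fun i => by
      have h2 := h i
      rw [hw] at h2
      linarith
    rw [h1] at hb
    linarith
  set p' := shr j w hj p with hp'
  have hp'i : Irreducible p' := (MulEquiv.irreducible_iff (shr j w hj)).2 hp
  set I : (Fin n → ℝ) → Fin (n + 1) → ℝ := fun y => Fin.insertNth (α := fun _ => ℝ) j (0 : ℝ) y
    with hI
  have hIj : ∀ y, I y j = 0 := fun y => Fin.insertNth_apply_same (α := fun _ => ℝ) j 0 y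
  have hIi : ∀ y i, I y (j.succAbove i) = y i := fun y i =>
    Fin.insertNth_apply_succAbove (α := fun _ => ℝ) j 0 y i
  have hev : ∀ (y : Fin n → ℝ) (s : ℝ) (q : MvPolynomial (Fin (n + 1)) ℝ),
      aeval (Fin.insertNth (α := fun _ => ℝ) j s y) (shr j w hj q) =
        eval (fun i => I y i + s * w i) q := by
    intro y s q
    rw [← eval_shr j w hj (I y) (hIj y) s q, aeval_real]
    congr 2
    funext i
    rcases eq_or_ne i j with rfl | hi
    · rw [if_pos rfl]
      exact Fin.insertNth_apply_same (α := fun _ => ℝ) i s y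
    · obtain ⟨k, rfl⟩ := Fin.exists_succAbove_eq hi
      rw [if_neg hi, hIi]
      exact Fin.insertNth_apply_succAbove (α := fun _ => ℝ) j s y k
  -- the coordinates of the points
  set s0 : ℝ := a j / w j with hs0
  set y0 : Fin n → ℝ := fun i => a (j.succAbove i) - s0 * w (j.succAbove i) with hy0
  have hpa : (fun i => I y0 i + s0 * w i) = a := by
    funext i
    rcases eq_or_ne i j with rfl | hi
    · rw [hIj, hs0]
      field_simp
      ring
    · obtain ⟨k, rfl⟩ := Fin.exists_succAbove_eq hi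
      rw [hIi, hy0]
      ring
  have hpb : (fun i => I y0 i + (s0 + 1) * w i) = b := by
    funext i
    have h1 : I y0 i + s0 * w i = a i := congrFun hpa i
    have h2 : w i = b i - a i := rfl
    rw [add_mul, one_mul, ← add_assoc, h1, h2]
    ring
  have hj' : pderiv j p' ≠ 0 := by
    intro h
    have h1 : Polynomial.derivative (sg j p') = 0 := by
      rw [derivative_sg, h, map_zero]
    have h3 := Polynomial.derivative_eq_zero.1 h1
    have h4 := Polynomial.eq_C_of_natDegree_eq_zero h3
    have key : ∀ s, eval (fun i => I y0 i + s * w i) p =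
        aeval (fun i => y0 i) ((sg j p').coeff 0) := by
      intro s
      rw [← hev y0 s p, ← hp', ← aeval_sg j _ p', h4, Polynomial.eval₂_C,
        Polynomial.coeff_C_zero]
      have h6 : (fun i => (Fin.insertNth (α := fun _ => ℝ) j s y0 :
          Fin (n + 1) → ℝ) (j.succAbove i)) = fun i => y0 i := by
        funext i
        exact Fin.insertNth_apply_succAbove (α := fun _ => ℝ) j s y0 i
      rw [h6]
      rfl
    have h5 := (key s0).trans (key (s0 + 1)).symm
    rw [hpa, hpb] at h5
    linarith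
  obtain ⟨r, hr0, hr⟩ := exists_elim j hp'i hj' (not_dvd_pderiv' hj')
  have hIc : Continuous I := by
    refine continuous_pi fun i => ?_
    rcases eq_or_ne i j with rfl | hi
    · have h1 : (fun y => I y i) = fun _ => 0 := funext hIj
      rw [h1]
      exact continuous_const
    · obtain ⟨k, rfl⟩ := Fin.exists_succAbove_eq hi
      have h1 : (fun y => I y (j.succAbove k)) = fun y => y k := funext fun y => hIi y k
      rw [h1]
      exact continuous_apply k
  have hgc : ∀ s : ℝ, Continuous fun y => eval (fun i => I y i + s * w i) p := fun s =>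
    (MvPolynomial.continuous_eval p).comp (continuous_pi fun i =>
      ((continuous_apply i).comp hIc).add continuous_const)
  obtain ⟨y, ⟨hy1, hy2⟩, hy⟩ := not_zero_on_open hr0
    (((isOpen_Ioi (a := (0 : ℝ))).preimage (hgc s0)).inter
      ((isOpen_Iio (a := (0 : ℝ))).preimage (hgc (s0 + 1)))) (y0 := y0) (by
      refine ⟨?_, ?_⟩
      · show 0 < eval (fun i => I y0 i + s0 * w i) p
        rw [hpa]
        exact ha
      · show eval (fun i => I y0 i + (s0 + 1) * w i) p < 0
        rw [hpb]
        exact hb)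
  have hsc : Continuous fun s : ℝ => eval (fun i => I y i + s * w i) p :=
    (MvPolynomial.continuous_eval p).comp (continuous_pi fun i =>
      continuous_const.add (continuous_id.mul continuous_const))
  obtain ⟨s, hs⟩ := mem_range_of_exists_le_of_exists_ge hsc ⟨s0 + 1, (show
    eval (fun i => I y i + (s0 + 1) * w i) p < 0 from hy2).le⟩ ⟨s0, (show
    0 < eval (fun i => I y i + s0 * w i) p from hy1).le⟩
  have hs' : eval (fun i => I y i + s * w i) p = 0 := hs
  refine ⟨fun i => I y i + s * w i, hs', ?_⟩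
  by_contra hcon
  push Not at hcon
  apply hy
  have h1 := hr ℝ (Fin.insertNth (α := fun _ => ℝ) j s y) (by
    rw [hp', hev y s p]
    exact hs') (by
    rw [hp', shr_pderiv, map_sum]
    refine Finset.sum_eq_zero fun i _ => ?_
    rw [map_mul, hev y s (pderiv i p), hcon i, mul_zero])
  have h6 : (fun i => (Fin.insertNth (α := fun _ => ℝ) j s y :
      Fin (n + 1) → ℝ) (j.succAbove i)) = y := by
    funext i
    exact Fin.insertNth_apply_succAbove (α := fun _ => ℝ) j s y i
  rw [h6] at h1
  exact h1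

/-- no change of sign -/
def Semi {N : ℕ} (g : MvPolynomial (Fin N) ℝ) : Prop :=
  (∀ x, eval x g ≤ 0) ∨ ∀ x, 0 ≤ eval x g

theorem Semi.mul {N : ℕ} {g h : MvPolynomial (Fin N) ℝ} (hg : Semi g) (hh : Semi h) :
    Semi (g * h) := by
  rcases hg with hg | hg <;> rcases hh with hh | hh
  · right
    intro x
    rw [map_mul]
    exact mul_nonneg_of_nonpos_of_nonpos (hg x) (hh x)
  · left
    intro x
    rw [map_mul]
    exact mul_nonpos_of_nonpos_of_nonneg (hg x) (hh x)
  · left
    intro x
    rw [map_mul]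
    exact mul_nonpos_of_nonneg_of_nonpos (hg x) (hh x)
  · right
    intro x
    rw [map_mul]
    exact mul_nonneg (hg x) (hh x)

theorem semi_of_not {N : ℕ} {g : MvPolynomial (Fin N) ℝ}
    (h : ¬∃ a b, 0 < eval a g ∧ eval b g < 0) : Semi g := by
  by_cases h1 : ∃ a, 0 < eval a g
  · obtain ⟨a, ha⟩ := h1
    right
    intro x
    by_contra h2
    push Not at h2
    exact h ⟨a, x, ha, h2⟩
  · push Not at h1
    exact Or.inl h1

theorem exists_sign_factor {N : ℕ} {f : MvPolynomial (Fin N) ℝ} {a b : Fin N → ℝ}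
    (ha : 0 < eval a f) (hb : eval b f < 0) : ∃ p, Irreducible p ∧ p ∣ f ∧
      ∃ a b, 0 < eval a p ∧ eval b p < 0 := by
  have hf : f ≠ 0 := by
    rintro rfl
    rw [map_zero] at ha
    exact lt_irrefl _ ha
  obtain ⟨s, hs, u, hu⟩ := WfDvdMonoid.exists_factors f hf
  by_contra hcon
  have h1 : ∀ p ∈ s, Semi p := fun p hp => semi_of_not fun h =>
    hcon ⟨p, hs p hp, (Multiset.dvd_prod hp).trans ⟨_, hu.symm⟩, h⟩
  have h2 : ∀ t : Multiset (MvPolynomial (Fin N) ℝ), (∀ p ∈ t, Semi p) → Semi t.prod := by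
    intro t
    induction t using Multiset.induction_on with
    | empty =>
      intro _
      right
      intro x
      rw [Multiset.prod_zero, map_one]
      exact zero_le_one
    | cons q t ih =>
      intro ht
      rw [Multiset.prod_cons]
      exact (ht q (Multiset.mem_cons_self q t)).mul
        (ih fun p hp => ht p (Multiset.mem_cons_of_mem hp))
  have h3 : Semi (u : MvPolynomial (Fin N) ℝ) := by
    obtain ⟨κ, hκ, hκ'⟩ := MvPolynomial.isUnit_iff_eq_C_of_isReduced.1 u.isUnit
    rw [hκ']
    rcases le_total κ 0 with h | h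
    · left
      intro x
      rw [eval_C]
      exact h
    · right
      intro x
      rw [eval_C]
      exact h
  have h4 : Semi f := by
    rw [← hu]
    exact (h2 s h1).mul h3
  rcases h4 with h4 | h4
  · exact absurd (h4 a) (not_le.2 ha)
  · exact absurd (h4 b) (not_le.2 hb)

/-- a real form which changes its sign has a complex factor which is not isotropic -/
theorem sign_form {n : ℕ} {f : MvPolynomial (Fin (n + 1)) ℝ} {a b : Fin (n + 1) → ℝ}
    (ha : 0 < eval a f) (hb : eval b f < 0) : ∃ q : MvPolynomial (Fin (n + 1)) ℂ,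
      Irreducible q ∧ q ∣ map (algebraMap ℝ ℂ) f ∧ ¬q ∣ ∑ a, pderiv a q ^ 2 := by
  obtain ⟨p, hp, hpf, a', b', ha', hb'⟩ := exists_sign_factor ha hb
  obtain ⟨x, hx, a0, ha0⟩ := sign_point hp ha' hb'
  have hpc0 : map (algebraMap ℝ ℂ) p ≠ 0 := by
    intro h
    exact hp.ne_zero (map_injective _ (algebraMap ℝ ℂ).injective (by rw [h, map_zero]))
  set xc : Fin (n + 1) → ℂ := fun a => algebraMap ℝ ℂ (x a) with hxc
  have hev : ∀ g : MvPolynomial (Fin (n + 1)) ℝ,
      eval xc (map (algebraMap ℝ ℂ) g) = algebraMap ℝ ℂ (eval x g) := by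
    intro g
    rw [eval_map, eval₂_eq', eval_eq', map_sum]
    refine Finset.sum_congr rfl fun s _ => ?_
    rw [map_mul, map_prod]
    congr 1
    refine Finset.prod_congr rfl fun i _ => ?_
    rw [map_pow]
  obtain ⟨s, hs, u, hu⟩ := WfDvdMonoid.exists_factors _ hpc0
  have h3 : eval xc s.prod = 0 := by
    have h4 := congrArg (eval xc) hu
    rw [map_mul, hev, hx, map_zero] at h4
    exact (mul_eq_zero.1 h4).resolve_right (u.isUnit.map (eval xc)).ne_zero
  rw [map_multiset_prod, Multiset.prod_eq_zero_iff, Multiset.mem_map] at h3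
  obtain ⟨q, hq, hq0⟩ := h3
  have hqp : q ∣ map (algebraMap ℝ ℂ) p := (Multiset.dvd_prod hq).trans ⟨_, hu.symm⟩
  refine ⟨q, hs q hq, hqp.trans (map_dvd _ hpf), ?_⟩
  rintro ⟨g, hg⟩
  obtain ⟨r, hr⟩ := hqp
  have h4 : ∀ a, algebraMap ℝ ℂ (eval x (pderiv a p)) = eval xc r * eval xc (pderiv a q) := by
    intro a
    rw [← hev, ← pderiv_map, hr, Derivation.leibniz, smul_eq_mul, smul_eq_mul, map_add, map_mul,
      map_mul, hq0]
    ring
  have h5 : ∑ a, eval x (pderiv a p) ^ 2 = 0 := by
    apply (algebraMap ℝ ℂ).injective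
    rw [map_sum, map_zero]
    have h6 : ∀ a, algebraMap ℝ ℂ (eval x (pderiv a p) ^ 2) =
        eval xc r ^ 2 * eval xc (pderiv a q ^ 2) := by
      intro a
      rw [map_pow, h4, map_pow]
      ring
    simp only [h6]
    rw [← Finset.mul_sum, ← map_sum, hg, map_mul, hq0, zero_mul, mul_zero]
  have h6 := (Finset.sum_eq_zero_iff_of_nonneg (fun i _ => sq_nonneg _)).1 h5 a0
    (Finset.mem_univ a0)
  exact ha0 (pow_eq_zero_iff two_ne_zero |>.1 h6)

variable {n : ℕ} {M : Type*} [TopologicalSpace M] [ChartedSpace (Eu n) M]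

theorem no_sign [CompactSpace M] [ConnectedSpace M] (hn : n ≠ 0) {x : M → Eu (n + 1)}
    (hx : IsImmersion n x) (hft : IsFiniteType n x) {O : Set M} (hO : IsOpen O)
    (hOne : O.Nonempty) {F : MvPolynomial (Fin (n + 1)) ℝ} (hF : Irreducible F)
    (hF0 : ∀ p ∈ O, ev F (x p) = 0) :
    ¬∃ a b : Fin (n + 1) → ℝ, 0 < eval a (homogeneousComponent F.totalDegree F) ∧
      eval b (homogeneousComponent F.totalDegree F) < 0 := by
  rintro ⟨a, b, ha, hb⟩
  obtain ⟨q, hq, hqf, hqg⟩ := sign_form ha hb
  apply hqg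
  have h1 := criterion_factor hn hx hft hO hOne hF hF0 (w := (1 : Fin (n + 1) → ℕ)) (by
    intro h2
    exact one_ne_zero (congrFun h2 0)) (m := 1) (fun a => le_rfl) hq (by
      rw [weightedTotalDegree_one]
      exact hqf)
  have h2 : gsq (1 : Fin (n + 1) → ℕ) 1 q = ∑ a, pderiv a q ^ 2 := by
    rw [gsq]
    refine Finset.sum_congr rfl fun a _ => ?_
    rw [if_pos (by rfl)]
  rwa [h2] at h1

end Run7.h978
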