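import Mathlib
import Pool.Agent.Run7.h978.Rev2

set_option autoImplicit false
set_option linter.unusedSectionVars false

/-!
The contradiction near the isotropic cone of a block of coordinates.
-/

open MvPolynomial

namespace Run7.h978

namespace Inf

variable {n : ℕ} {L : Type} [Field L] [Algebra ℝ L] [CharZero L] (T : Inf n L)
  (P : Fin n → Prop) [DecidablePred P]

/-- the square of the norm of the coordinates of the block -/
noncomputable def ps (Y : FK L) : FK L := Y ^ 2 + ∑ i, if P i then T.xi i ^ 2 else 0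

theorem dd_ps (Y : FK L) (k : Fin n) :
    T.dd k (T.ps P Y) = -(2 * T.v Y k) + if P k then 2 * T.xi k else 0 := by
  rw [ps, map_add, map_sum, T.dd_sq, T.v_eq]
  congr 1
  · ring
  · rw [Finset.sum_eq_single k]
    · split
      · rw [T.dd_sq, T.dd_xi, if_pos rfl, mul_one]
      · rw [map_zero]
    · intro i _ hi
      split
      · rw [T.dd_sq, T.dd_xi, if_neg (Ne.symm hi), mul_zero]
      · rw [map_zero]
    · intro h
      exact absurd (Finset.mem_univ k) h

section

variable {T P} {Y : FK L} (hPv : ∀ i, P i → T.v Y i = T.xi i)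

include hPv

theorem inv_ps : T.Inv P (T.ps P Y) := by
  intro k hk
  rw [T.dd_ps, if_pos hk, hPv k hk, neg_add_cancel]

theorem v_of_not {k : Fin n} (hk : ¬P k) : T.v Y k = -(T.dd k (T.ps P Y)) / 2 := by
  rw [T.dd_ps, if_neg hk]
  have := two_ne (L := L)
  field_simp
  ring

theorem inv_v {k : Fin n} (hk : ¬P k) : T.Inv P (T.v Y k) := by
  rw [v_of_not hPv hk]
  exact ((inv_ps hPv).dd k).neg.div Inv.two

/-- the components of the normal outside of the block -/
noncomputable def vv (T : Inf n L) (P : Fin n → Prop) [DecidablePred P] (Y : FK L) (i : Fin n) :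
    FK L := if P i then 0 else T.v Y i

theorem inv_vv (k : Fin n) : T.Inv P (vv T P Y k) := by
  rw [vv]
  split
  · exact Inv.zero
  · rename_i h
    exact inv_v hPv h

theorem R_ps : T.R Y = T.ps P Y + ∑ i, vv T P Y i ^ 2 := by
  rw [R, ps, add_assoc, ← Finset.sum_add_distrib]
  congr 1
  refine Finset.sum_congr rfl fun i _ => ?_
  rw [vv]
  split
  · rename_i h
    rw [hPv i h]
    ring
  · ring

theorem inv_R : T.Inv P (T.R Y) := by
  rw [R_ps hPv]
  refine (inv_ps hPv).add (Inv.sum _ fun i _ => ?_)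
  rw [pow_two]
  exact (inv_vv hPv i).mul (inv_vv hPv i)

omit hPv in
theorem N_inv {h : FK L} (hh : T.Inv P h) : T.N Y h = ∑ i, vv T P Y i * T.dd i h := by
  rw [N_apply]
  refine Finset.sum_congr rfl fun i _ => ?_
  rw [vv]
  split
  · rename_i hi
    rw [hh i hi, mul_zero, mul_zero]
  · rfl

theorem inv_N {h : FK L} (hh : T.Inv P h) : T.Inv P (T.N Y h) := by
  rw [N_inv hh]
  exact Inv.sum _ fun i _ => (inv_vv hPv i).mul (hh.dd i)

/-- the divergence of the normal -/
noncomputable def dv (T : Inf n L) (P : Fin n → Prop) [DecidablePred P] (Y : FK L) : FK L :=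
  ∑ i, if P i then 1 else T.dd i (T.v Y i)

theorem lap_inv (hR0 : T.R Y ≠ 0) {h : FK L} (hh : T.Inv P h) :
    T.lap Y h = (-(T.R Y * ∑ i, T.dd i (T.dd i h)) + T.N Y (T.N Y h) -
      ∑ k, T.N Y (vv T P Y k) * T.dd k h +
      (dv T P Y - T.N Y (T.R Y) / (2 * T.R Y)) * T.N Y h) / T.R Y := by
  have h1 := star T.dd (T.v Y) Y (T.R Y) two_ne hR0 rfl h
  rw [eq_div_iff hR0, mul_comm, lap, h1]
  have h2 : ∑ k, nn T.dd (T.v Y) (T.v Y k) * T.dd k h = ∑ k, T.N Y (vv T P Y k) * T.dd k h := by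
    refine Finset.sum_congr rfl fun i _ => ?_
    rw [vv]
    split
    · rename_i hi
      rw [hh i hi, mul_zero, mul_zero]
    · rfl
  have h3 : ∑ i, T.dd i (T.v Y i) = dv T P Y := by
    rw [dv]
    refine Finset.sum_congr rfl fun i _ => ?_
    split
    · rename_i hi
      rw [hPv i hi, T.dd_xi, if_pos rfl]
    · rfl
  rw [h2, h3]
  rfl

theorem inv_dv : T.Inv P (dv T P Y) := by
  refine Inv.sum _ fun i _ => ?_
  split
  · exact Inv.one
  · rename_i hi
    exact (inv_v hPv hi).dd i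

theorem inv_lap (hR0 : T.R Y ≠ 0) {h : FK L} (hh : T.Inv P h) : T.Inv P (T.lap Y h) := by
  rw [lap_inv hPv hR0 hh]
  refine Inv.div ?_ (inv_R hPv)
  refine Inv.add (Inv.sub (Inv.add ?_ ?_) ?_) ?_
  · exact ((inv_R hPv).mul (Inv.sum _ fun i _ => (hh.dd i).dd i)).neg
  · exact inv_N hPv (inv_N hPv hh)
  · exact Inv.sum _ fun k _ => (inv_N hPv (inv_vv hPv k)).mul (hh.dd k)
  · refine Inv.mul (Inv.sub (inv_dv hPv) ?_) (inv_N hPv hh)
    exact (inv_N hPv (inv_R hPv)).div (Inv.two.mul (inv_R hPv))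

variable {e : ℤ} {a : L} (ha : a ≠ 0) (hps : Lead e (T.ps P Y) a) (he : 1 - 2 * (T.M : ℤ) ≤ e)

include hps

theorem vl_vv (k : Fin n) : VL (e + T.M) (vv T P Y k) := by
  rw [vv]
  split
  · exact (Lead.zero _).vl
  · rename_i h
    rw [v_of_not hPv h]
    exact ((T.lead_dd hps k).neg.vl.div lead_two two_ne_zero).mono (by omega)

theorem vl_N {h : FK L} (hh : T.Inv P h) {m : ℤ} (H : VL m h) :
    VL (e + m + 2 * T.M) (T.N Y h) := by
  rw [N_inv hh]
  obtain ⟨c, H⟩ := H.lead
  refine VL.sum _ fun i _ => ?_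
  exact ((vl_vv hPv hps i).mul (T.lead_dd H i).vl).mono (by omega)

include he

theorem lead_R' : Lead e (T.R Y) a := by
  rw [R_ps hPv]
  refine (hps.add (c' := 0) ?_).cast rfl rfl (add_zero a)
  refine VL.lead0 (m := 2 * (e + T.M)) (VL.sum _ fun i _ => ?_) (by omega)
  rw [pow_two]
  exact ((vl_vv hPv hps i).mul (vl_vv hPv hps i)).mono (by omega)

theorem vl_dv : VL 0 (dv T P Y) := by
  refine VL.sum _ fun i _ => ?_
  split
  · exact (lead_natCast (L := L) 1).vl.mono le_rfl |> fun h => by simpa using h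
  · rename_i hi
    have h1 := vl_vv hPv hps i
    rw [vv, if_neg hi] at h1
    obtain ⟨c, h1⟩ := h1.lead
    exact (T.lead_dd h1 i).vl.mono (by omega)

include ha

theorem vl_lap {h : FK L} (hh : T.Inv P h) {m : ℤ} (H : VL m h) : VL (m + 1) (T.lap Y h) := by
  have hR := lead_R' hPv hps he
  have hR0 : T.R Y ≠ 0 := hR.ne_zero ha
  rw [lap_inv hPv hR0 hh]
  have h1 : VL (m + 1 + e) (-(T.R Y * ∑ i, T.dd i (T.dd i h)) + T.N Y (T.N Y h) -
      ∑ k, T.N Y (vv T P Y k) * T.dd k h +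
      (dv T P Y - T.N Y (T.R Y) / (2 * T.R Y)) * T.N Y h) := by
    have hM : (1 : ℤ) ≤ T.M := by
      have := T.M0
      omega
    refine VL.add (VL.sub (VL.add ?_ ?_) ?_) ?_
    · obtain ⟨c, H⟩ := H.lead
      refine (VL.neg (hR.vl.mul (VL.sum (m := m + T.M + T.M) _ fun i _ => ?_))).mono (by omega)
      exact (T.lead_dd (T.lead_dd H i) i).vl
    · exact (vl_N hPv hps (inv_N hPv hh) (vl_N hPv hps hh H)).mono (by omega)
    · refine VL.sum _ fun k _ => ?_
      obtain ⟨c, H⟩ := H.lead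
      exact ((vl_N hPv hps (inv_vv hPv k) (vl_vv hPv hps k)).mul (T.lead_dd H k).vl).mono
        (by omega)
    · refine (VL.mul (VL.sub (m := 0) (vl_dv hPv hps he) ?_) (vl_N hPv hps hh H)).mono (by omega)
      exact ((vl_N hPv hps (inv_R hPv) hR.vl).div (lead_two.mul hR)
        (mul_ne_zero two_ne_zero ha)).mono (by omega)
  exact (h1.div hR ha).mono (by omega)

theorem block_false {l : List ℝ} (hl : ∀ μ ∈ l, μ ≠ 0) {i0 : Fin n} (hi0 : ¬P i0) {c : ℝ}
    (hit : itL (T.lap Y) l (T.xi i0 - algebraMap ℝ (FK L) c) = 0) : False := by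
  have hR0 : T.R Y ≠ 0 := (lead_R' hPv hps he).ne_zero ha
  have hM : (1 : ℤ) ≤ T.M := by
    have := T.M0
    omega
  have hb : T.b i0 ≠ 0 := by
    intro h
    have h1 := T.Db i0 i0
    rw [h, map_zero, if_pos rfl] at h1
    exact zero_ne_one h1
  have h1 : Lead (-(T.M : ℤ)) (T.xi i0 - algebraMap ℝ (FK L) c) (T.b i0) :=
    ((T.lead_xi i0).sub ((lead_real c).mono (by omega))).cast rfl rfl (sub_zero _)
  have h2 : T.Inv P (T.xi i0 - algebraMap ℝ (FK L) c) := by
    refine Inv.sub ?_ (Inv.real c)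
    intro i hi
    rw [T.dd_xi, if_neg]
    rintro rfl
    exact hi0 hi
  have h3 := it_lead (Δ := T.lap Y) (Q := T.Inv P) (fun h hh => inv_lap hPv hR0 hh)
    (fun g h hg hh => hg.sub hh) (fun r h hh => (Inv.real r).mul hh)
    (fun h m H hh => vl_lap hPv ha hps he hh H) l _ _ _ h1 h2
  rw [hit] at h3
  have h4 := (Lead.zero _).unique h3
  exact mul_ne_zero (prod_ne hl) hb h4.symm

end

end Inf

end Run7.h978
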