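import Mathlib
import Pool.Agent.Run7.h978.Rev1
import Pool.Agent.Run7.h978.Rev3
import Pool.Agent.Run7.h978.Sph12

set_option autoImplicit false

/-!
Hypersurfaces which are invariant under the rotations of a block of coordinates.
-/

open MvPolynomial

namespace Run7.h978

section

/-- the sum of the squares of the coordinates of the block -/
noncomputable def SqS (R : Type) [CommRing R] {N : ℕ} (S : Finset (Fin N)) : MvPolynomial (Fin N) R :=
  ∑ a ∈ S, X a ^ 2

theorem pderiv_SqS {R : Type} [CommRing R] {N : ℕ} (S : Finset (Fin N)) (a : Fin N) :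
    pderiv a (SqS R S) = if a ∈ S then 2 * X a else 0 := by
  classical
  rw [SqS, map_sum]
  split
  · rename_i ha
    rw [Finset.sum_eq_single a]
    · rw [Derivation.leibniz_pow, pderiv_X_self, smul_eq_mul, nsmul_eq_mul]
      push_cast
      ring
    · intro k _ hk
      rw [Derivation.leibniz_pow, pderiv_X_of_ne hk, smul_zero, smul_zero]
    · intro h
      exact absurd ha h
  · rename_i ha
    apply Finset.sum_eq_zero
    intro k hk
    have hka : k ≠ a := by
      rintro rfl
      exact ha hk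
    rw [Derivation.leibniz_pow, pderiv_X_of_ne hka, smul_zero, smul_zero]

theorem block_L {n : ℕ} {L : Type} [Field L] [Algebra ℝ L] [CharZero L] [IsAlgClosed L]
    {b : Fin n → L} {DR : Fin n → Derivation ℝ L L}
    (hDRb : ∀ i k, DR i (b k) = if i = k then 1 else 0)
    (hDRc : ∀ i k x, DR i (DR k x) = DR k (DR i x))
    {F : MvPolynomial (Fin (n + 1)) ℝ} (hF : Irreducible F)
    (hWF : ¬F ∣ WW F) {l : List ℝ} (hl : ∀ μ ∈ l, μ ≠ 0) {c : Fin (n + 1) → ℝ}
    (hd : ∀ a, F ∣ iter F l 0 (X a - C (c a))) {S : Finset (Fin (n + 1))} {j j1 j0 : Fin (n + 1)}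
    (hj : j ∈ S) (hj1 : j1 ∈ S) (hjj : j1 ≠ j) (hj0 : j0 ∉ S)
    (hrot : ∀ a ∈ S, X a * pderiv j F = X j * pderiv a F)
    (hdvd : SqS ℝ S ∣ homogeneousComponent F.totalDegree F) : False := by
  classical
  set f := homogeneousComponent F.totalDegree F with hf
  have hf0 : f ≠ 0 := by
    have h1 := (top_weighted (1 : Fin (n + 1) → ℕ) hF.ne_zero).2
    rw [weightedTotalDegree_one] at h1
    exact h1
  have hFj : pderiv j F ≠ 0 := by
    intro h
    have h1 : pderiv j f = 0 := pderiv_component (1 : Fin (n + 1) → ℕ) h _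
    have h2 : Polynomial.derivative (sg j f) = 0 := by
      rw [derivative_sg, h1, map_zero]
    have h3 := Polynomial.derivative_eq_zero.1 h2
    have h4 : sg j (SqS ℝ S) ∣ sg j f := (map_dvd_iff (sg j)).2 hdvd
    have h5 : sg j f ≠ 0 := by
      intro h6
      exact hf0 ((sg (R := ℝ) j).injective (by rw [h6, map_zero]))
    have h6 := Polynomial.natDegree_le_of_dvd h4 h5
    have h7 := natDegree_sg_ne j (p := SqS ℝ S) (by
      rw [pderiv_SqS, if_pos hj]
      exact mul_ne_zero two_ne_zero (X_ne_zero j))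
    omega
  have hb : ∀ r : MvPolynomial (Fin n) ℝ, aeval b r = 0 → r = 0 := fun r hr =>
    eq_zero_of_aeval (x := b) (E := DR) (t := fun _ => 1) (fun _ => one_ne_zero)
      (fun i k => hDRb i k) r hr
  set P : Fin n → Prop := fun i => j.succAbove i ∈ S with hP
  set β : L := ∑ i, if P i then b i ^ 2 else 0 with hβ
  obtain ⟨i1, hi1⟩ := Fin.exists_succAbove_eq hjj
  obtain ⟨i0, hi0⟩ := Fin.exists_succAbove_eq (fun h => hj0 (h ▸ hj) : j0 ≠ j)
  have hPi1 : P i1 := by
    show j.succAbove i1 ∈ S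
    rw [hi1]
    exact hj1
  have hPi0 : ¬P i0 := by
    show ¬j.succAbove i0 ∈ S
    rw [hi0]
    exact hj0
  have hbi1 : b i1 ≠ 0 := by
    intro h
    have h1 := hDRb i1 i1
    rw [h, map_zero, if_pos rfl] at h1
    exact zero_ne_one h1
  have hβ0 : β ≠ 0 := by
    intro h
    have h1 := congrArg (DR i1) h
    rw [map_zero, hβ, map_sum, Finset.sum_eq_single i1] at h1
    · rw [if_pos hPi1, Derivation.leibniz_pow, hDRb, if_pos rfl, smul_eq_mul, mul_one,
        nsmul_eq_mul] at h1
      push_cast at h1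
      norm_num at h1
      exact hbi1 h1
    · intro k _ hk
      split
      · rw [Derivation.leibniz_pow, hDRb, if_neg (Ne.symm hk), smul_zero, smul_zero]
      · rw [map_zero]
    · intro h
      exact absurd (Finset.mem_univ i1) h
  obtain ⟨y0, hy0⟩ := IsAlgClosed.exists_pow_nat_eq (-β) two_pos
  have hy00 : y0 ≠ 0 := by
    rintro rfl
    apply hβ0
    rw [zero_pow two_ne_zero] at hy0
    linear_combination hy0
  have hsum : ∀ {K : Type} [CommRing K] [Algebra ℝ K] (y : K) (z : Fin n → K),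
      aeval (Fin.insertNth (α := fun _ => K) j y z) (SqS ℝ S) =
        y ^ 2 + ∑ i, if P i then z i ^ 2 else 0 := by
    intro K _ _ y z
    have h1 : SqS ℝ S = ∑ a, if a ∈ S then X a ^ 2 else 0 := by
      rw [SqS, Finset.sum_ite_mem, Finset.univ_inter]
    rw [h1, map_sum, Fin.sum_univ_succAbove _ j, if_pos hj, map_pow, aeval_X,
      Fin.insertNth_apply_same]
    congr 1
    refine Finset.sum_congr rfl fun i _ => ?_
    by_cases h : j.succAbove i ∈ S
    · rw [if_pos h, if_pos h, map_pow, aeval_X, Fin.insertNth_apply_succAbove]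
    · rw [if_neg h, if_neg h, map_zero]
  have hfz : aeval (Fin.insertNth (α := fun _ => L) j y0 b) f = 0 := by
    obtain ⟨g, hg⟩ := hdvd
    rw [hg, map_mul, hsum, ← hβ, hy0, neg_add_cancel, zero_mul]
  obtain ⟨M, hM, η, hη0, hη⟩ := exists_lift (L := L) hb j hF.ne_zero (y := y0) (by
    rw [weightedTotalDegree_one]
    exact hfz)
  choose E hE using fun i => exists_frD (DR i)
  obtain ⟨S', hS'⟩ := exists_Es (L := L)
  have hE' : ∀ i (f : PS L), E i (io f) = io (psD (DR i) f) := hE
  set T : Inf n (L) := ⟨b, DR, hDRb, hDRc, M, hM, E, hE', S', hS'⟩ with hT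
  set Y : FK L := io η * vs L ^ (-(T.M : ℤ)) with hY
  have hYl : Lead (-(T.M : ℤ)) Y y0 := ⟨η, by rw [hY, mul_comm], hη0⟩
  have hY0 : Y ≠ 0 := hYl.ne_zero hy00
  have hηT : aeval (Fin.insertNth (α := fun _ => FK L) j Y T.xi) F = 0 := hη
  obtain ⟨hR0, hgj, hgv, hit⟩ := T.hit hF hWF j hFj hY0 hηT
  have hPv : ∀ i, P i → T.v Y i = T.xi i := by
    intro i hi
    have h1 := congrArg (aeval (Fin.insertNth (α := fun _ => FK L) j Y T.xi)) (hrot _ hi)
    rw [map_mul, map_mul, aeval_X, aeval_X, Fin.insertNth_apply_same,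
      Fin.insertNth_apply_succAbove, hgv i, mul_comm] at h1
    exact (mul_left_cancel₀ hgj h1).symm
  have hps0 : T.ps P Y ≠ 0 := by
    intro h
    apply hR0
    rw [Inf.R_ps hPv, h, zero_add]
    apply Finset.sum_eq_zero
    intro i _
    rw [Inf.vv]
    split
    · ring
    · rename_i hi
      rw [Inf.v_of_not hPv hi, h, map_zero]
      ring
  obtain ⟨e, a, ha, hps⟩ := exists_lead hps0
  have hpsl : Lead (-(2 * (T.M : ℤ))) (T.ps P Y) 0 := by
    have h1 : Lead (-(2 * (T.M : ℤ))) (T.ps P Y) (y0 * y0 + β) := by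
      rw [Inf.ps, pow_two]
      refine ((hYl.mul hYl).cast (by ring) rfl rfl).add (Lead.sum _ fun i _ => ?_)
      split
      · rw [pow_two, pow_two]
        exact ((T.lead_xi i).mul (T.lead_xi i)).cast (by ring) rfl rfl
      · exact Lead.zero _
    refine h1.cast rfl rfl ?_
    rw [← pow_two, hy0, neg_add_cancel]
  have he : 1 - 2 * (T.M : ℤ) ≤ e := by
    by_contra h
    rcases (show e ≤ -(2 * (T.M : ℤ)) by omega).lt_or_eq with h1 | h1
    · exact ha (hps.unique (hpsl.mono h1))
    · rw [h1] at hps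
      exact ha (hps.unique hpsl)
  refine Inf.block_false hPv ha hps he hl hPi0 (c := c (j.succAbove i0)) ?_
  have h1 := hit l _ (hd (j.succAbove i0))
  rwa [map_sub, aeval_X, aeval_C, Fin.insertNth_apply_succAbove] at h1

theorem block_F {n : ℕ} {F : MvPolynomial (Fin (n + 1)) ℝ} (hF : Irreducible F)
    (hWF : ¬F ∣ WW F) {l : List ℝ} (hl : ∀ μ ∈ l, μ ≠ 0) {c : Fin (n + 1) → ℝ}
    (hd : ∀ a, F ∣ iter F l 0 (X a - C (c a))) {S : Finset (Fin (n + 1))} {j j1 j0 : Fin (n + 1)}
    (hj : j ∈ S) (hj1 : j1 ∈ S) (hjj : j1 ≠ j) (hj0 : j0 ∉ S)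
    (hrot : ∀ a ∈ S, X a * pderiv j F = X j * pderiv a F)
    (hdvd : SqS ℝ S ∣ homogeneousComponent F.totalDegree F) : False := by
  obtain ⟨b, D, hDb, hDc⟩ := exists_genField_comm n
  choose DR hDR using fun i => exists_real_derivation (L := LL' n) (fun x => D i x)
    (fun x y => map_add (D i) x y) (fun x y => (D i).leibniz x y) (fun r => by
      have h1 : algebraMap ℝ (LL' n) r = algebraMap ℂ (LL' n) (algebraMap ℝ ℂ r) :=
        IsScalarTower.algebraMap_apply ℝ ℂ (LL' n) r
      rw [h1]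
      exact (D i).map_algebraMap _)
  exact block_L (L := LL' n) (b := b) (DR := DR)
    (fun i k => by rw [hDR]; exact hDb i k) (fun i k x => by
      rw [hDR, hDR, hDR, hDR]
      exact hDc i k x) hF hWF hl hd hj hj1 hjj hj0 hrot hdvd

end

end Run7.h978
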