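import Mathlib
import Pool.Agent.Run7.h978.Rev4

set_option autoImplicit false

/-!
The leading form of a polynomial in two quadratic forms.
-/

open MvPolynomial

namespace Run7.h978

theorem chainR {R K σ : Type*} [CommRing R] [CommRing K] [Algebra R K] [Fintype σ]
    (D : Derivation R K K) (x : σ → K) (p : MvPolynomial σ R) :
    D (aeval x p) = ∑ a, aeval x (pderiv a p) * D (x a) := by
  classical
  induction p using MvPolynomial.induction_on with
  | C r => simp
  | add p q hp hq => simp only [map_add, hp, hq, add_mul, Finset.sum_add_distrib]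
  | mul_X p i hp =>
    have h4 : ∀ a, aeval x (pderiv a (p * X i)) * D (x a) =
        (if a = i then aeval x p * D (x a) else 0) +
          x i * (aeval x (pderiv a p) * D (x a)) := by
      intro a
      rw [Derivation.leibniz, pderiv_X, map_add, smul_eq_mul, smul_eq_mul, map_mul, map_mul,
        aeval_X]
      by_cases hia : a = i
      · subst hia
        rw [if_pos rfl, Pi.single_eq_same, map_one]
        ring
      · rw [if_neg hia, Pi.single_eq_of_ne (Ne.symm hia), map_zero]
        ring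
    simp only [h4, Finset.sum_add_distrib, Finset.sum_ite_eq', Finset.mem_univ, if_true,
      ← Finset.mul_sum, ← hp]
    rw [map_mul, aeval_X, Derivation.leibniz, smul_eq_mul, smul_eq_mul]

theorem SqS_hom (R : Type) [CommRing R] {N : ℕ} (S : Finset (Fin N)) :
    (SqS R S).IsHomogeneous 2 :=
  IsHomogeneous.sum _ _ _ fun i _ => isHomogeneous_X_pow i 2

theorem SqS_add_compl (R : Type) [CommRing R] {N : ℕ} (S : Finset (Fin N)) :
    SqS R S + SqS R Sᶜ = Sq R N := by
  rw [SqS, SqS, Sq]
  exact Finset.sum_add_sum_compl S _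

theorem map_SqS {N : ℕ} (S : Finset (Fin N)) :
    map (algebraMap ℝ ℂ) (SqS ℝ S) = SqS ℂ S := by
  rw [SqS, SqS, map_sum]
  refine Finset.sum_congr rfl fun a _ => ?_
  rw [map_pow, map_X]

/-- the structure of the leading form -/
theorem leading_two {N : ℕ} {A Y B : MvPolynomial (Fin N) ℝ} {wY e : ℕ} (hA : A.IsHomogeneous 2)
    (hY : Y.IsHomogeneous wY) (he : wY * e = 2) (hB : B = Y ^ e) (G : MvPolynomial (Fin 2) ℝ)
    {d : ℕ} (hf : homogeneousComponent d (aeval ![A, Y] G) ≠ 0) :
    ∃ (γ : Polynomial ℝ) (t : ℕ), γ ≠ 0 ∧ homogeneousComponent d (aeval ![A, Y] G) =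
      Y ^ t * ∑ i ∈ Finset.range (γ.natDegree + 1),
        C (γ.coeff i) * A ^ i * B ^ (γ.natDegree - i) := by
  classical
  have hwY : 0 < wY := Nat.pos_of_ne_zero (by
    rintro rfl
    rw [zero_mul] at he
    omega)
  set T := G.support.filter (fun s => 2 * s 0 + wY * s 1 = d) with hT
  have h1 : homogeneousComponent d (aeval ![A, Y] G) =
      ∑ s ∈ T, C (coeff s G) * A ^ s 0 * Y ^ s 1 := by
    rw [aeval_def, eval₂_eq', map_sum, hT, Finset.sum_filter]
    refine Finset.sum_congr rfl fun s _ => ?_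
    rw [Fin.prod_univ_two]
    have h2 : (C (coeff s G) * A ^ s 0 * Y ^ s 1).IsHomogeneous (2 * s 0 + wY * s 1) := by
      have h3 := (((isHomogeneous_C (Fin N) (coeff s G)).mul (hA.pow (s 0))).mul (hY.pow (s 1)))
      rwa [zero_add] at h3
    have h4 : algebraMap ℝ (MvPolynomial (Fin N) ℝ) (coeff s G) *
        (![A, Y] 0 ^ s 0 * ![A, Y] 1 ^ s 1) = C (coeff s G) * A ^ s 0 * Y ^ s 1 := by
      rw [MvPolynomial.algebraMap_eq]
      simp only [Matrix.cons_val_zero, Matrix.cons_val_one]
      ring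
    rw [h4, homogeneousComponent_of_mem h2]
    by_cases h : 2 * s 0 + wY * s 1 = d
    · rw [if_pos h.symm, if_pos h]
    · rw [if_neg (fun h' => h h'.symm), if_neg h]
  set γ : Polynomial ℝ := ∑ s ∈ T, Polynomial.monomial (s 0) (coeff s G) with hγ
  have hinj : ∀ s ∈ T, ∀ s' ∈ T, s 0 = s' 0 → s = s' := by
    intro s hs s' hs' h
    rw [hT, Finset.mem_filter] at hs hs'
    have h2 : wY * s 1 = wY * s' 1 := by omega
    have h3 := Nat.eq_of_mul_eq_mul_left hwY h2
    ext i
    fin_cases i
    · exact h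
    · exact h3
  have hcoef : ∀ s ∈ T, γ.coeff (s 0) = coeff s G := by
    intro s hs
    rw [hγ, Polynomial.finsetSum_coeff, Finset.sum_eq_single s]
    · rw [Polynomial.coeff_monomial, if_pos rfl]
    · intro s' hs' hne
      rw [Polynomial.coeff_monomial, if_neg]
      intro h
      exact hne (hinj s' hs' s hs h)
    · intro h
      exact absurd hs h
  have hTne : T.Nonempty := by
    rw [Finset.nonempty_iff_ne_empty]
    intro h
    rw [h1, h, Finset.sum_empty] at hf
    exact hf rfl
  have hcne : ∀ s ∈ T, coeff s G ≠ 0 := by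
    intro s hs
    rw [hT, Finset.mem_filter] at hs
    exact mem_support_iff.1 hs.1
  have hγ0 : γ ≠ 0 := by
    obtain ⟨s, hs⟩ := hTne
    intro h
    have h2 := hcoef s hs
    rw [h, Polynomial.coeff_zero] at h2
    exact hcne s hs h2.symm
  have hex : ∀ i, γ.coeff i ≠ 0 → ∃ s ∈ T, s 0 = i := by
    intro i hi
    by_contra h
    push Not at h
    apply hi
    rw [hγ, Polynomial.finsetSum_coeff]
    refine Finset.sum_eq_zero fun s hs => ?_
    rw [Polynomial.coeff_monomial, if_neg (h s hs)]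
  obtain ⟨s0, hs0, hs0k⟩ := hex γ.natDegree (by
    have h2 := Polynomial.leadingCoeff_ne_zero.2 hγ0
    exact h2)
  refine ⟨γ, s0 1, hγ0, ?_⟩
  have h2 : ∑ i ∈ Finset.range (γ.natDegree + 1), C (γ.coeff i) * A ^ i * B ^ (γ.natDegree - i) =
      ∑ s ∈ T, C (coeff s G) * A ^ s 0 * B ^ (γ.natDegree - s 0) := by
    symm
    have h3 : ∀ s ∈ T, s 0 ∈ Finset.range (γ.natDegree + 1) := by
      intro s hs
      rw [Finset.mem_range]
      have h4 : s 0 ≤ γ.natDegree := Polynomial.le_natDegree_of_ne_zero (by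
        rw [hcoef s hs]
        exact hcne s hs)
      omega
    have h5 : ∑ s ∈ T, C (coeff s G) * A ^ s 0 * B ^ (γ.natDegree - s 0) =
        ∑ s ∈ T, C (γ.coeff (s 0)) * A ^ s 0 * B ^ (γ.natDegree - s 0) :=
      Finset.sum_congr rfl fun s hs => by rw [hcoef s hs]
    rw [h5]
    refine Finset.sum_bij_ne_zero (fun s _ _ => s 0) (fun s hs _ => h3 s hs)
      (fun s hs _ s' hs' _ h => hinj s hs s' hs' h) ?_ (fun s hs _ => rfl)
    intro i hi hne
    obtain ⟨s, hs, rfl⟩ := hex i (by
      intro h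
      rw [h, C_0, zero_mul, zero_mul] at hne
      exact hne rfl)
    exact ⟨s, hs, hne, rfl⟩
  rw [h1, h2, Finset.mul_sum]
  refine Finset.sum_congr rfl fun s hs => ?_
  have h3 : s 1 = s0 1 + e * (γ.natDegree - s 0) := by
    have h4 : s 0 ≤ γ.natDegree := Polynomial.le_natDegree_of_ne_zero (by
      rw [hcoef s hs]
      exact hcne s hs)
    have h5 := (Finset.mem_filter.1 hs).2
    have h6 := (Finset.mem_filter.1 hs0).2
    apply Nat.eq_of_mul_eq_mul_left hwY
    rw [mul_add, ← mul_assoc, he]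
    rw [← hs0k] at h4 ⊢
    omega
  rw [h3, hB, ← pow_mul, pow_add]
  ring

end Run7.h978
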