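import Mathlib
import Pool.Agent.Run7.h978.Rev5

set_option autoImplicit false

/-!
Isotropic forms in two quadratic forms.
-/

open MvPolynomial

namespace Run7.h978

theorem SqS_ne {R : Type} [CommRing R] [Nontrivial R] {N : ℕ} {S : Finset (Fin N)}
    (hS : S.Nonempty) : SqS R S ≠ 0 := by
  classical
  obtain ⟨a, ha⟩ := hS
  intro h
  have h1 := congrArg (eval (Pi.single a (1 : R))) h
  rw [SqS, map_sum, map_zero, Finset.sum_eq_single a] at h1
  · simp at h1
  · intro b _ hb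
    simp [Pi.single_eq_of_ne hb]
  · intro h
    exact absurd ha h

theorem degreeOf_SqS {R : Type} [CommRing R] [Nontrivial R] {N : ℕ} {S : Finset (Fin N)}
    {i : Fin N} (hi : i ∉ S) : degreeOf i (SqS R S) = 0 := by
  rw [← Nat.le_zero]
  refine (degreeOf_sum_le i S _).trans ?_
  apply Finset.sup_le
  intro a ha
  refine (degreeOf_pow_le i (X a) 2).trans ?_
  have hia : i ≠ a := by
    rintro rfl
    exact hi ha
  rw [degreeOf_X_of_ne hia, mul_zero]

theorem coprime_blocks {N : ℕ} {S : Finset (Fin N)} {q : MvPolynomial (Fin N) ℂ}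
    (hS : S.Nonempty) (hS' : Sᶜ.Nonempty) (h1 : q ∣ SqS ℂ S) (h2 : q ∣ SqS ℂ Sᶜ) : IsUnit q := by
  classical
  have hA := SqS_ne (R := ℂ) hS
  have hB := SqS_ne (R := ℂ) hS'
  have hq0 : q ≠ 0 := ne_zero_of_dvd_ne_zero hA h1
  have hdeg : ∀ i, degreeOf i q = 0 := by
    have key : ∀ i (p : MvPolynomial (Fin N) ℂ), p ≠ 0 → q ∣ p → degreeOf i p = 0 →
        degreeOf i q = 0 := by
      intro i p hp hd h0
      obtain ⟨r, rfl⟩ := hd
      rw [degreeOf_mul_eq hq0 (right_ne_zero_of_mul hp)] at h0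
      omega
    intro i
    by_cases hi : i ∈ S
    · exact key i _ hB h2 (degreeOf_SqS (by
        rw [Finset.mem_compl]
        exact fun h => h hi))
    · exact key i _ hA h1 (degreeOf_SqS hi)
  have ht : q.totalDegree = 0 := by
    rw [totalDegree_eq_zero_iff]
    intro m hm i
    have h3 := monomial_le_degreeOf i hm
    rw [hdeg i] at h3
    omega
  rw [totalDegree_eq_zero_iff_eq_C] at ht
  rw [ht]
  refine (isUnit_iff_ne_zero.2 ?_).map C
  intro h
  rw [h, C_0] at ht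
  exact hq0 ht

theorem tau_eq {N : ℕ} {S : Finset (Fin N)} (hS : S.Nonempty) (hS' : Sᶜ.Nonempty) {τ : ℂ}
    {q : MvPolynomial (Fin N) ℂ} (hq : Irreducible q)
    (hd : q ∣ SqS ℂ S - C τ * SqS ℂ Sᶜ) (hg : q ∣ ∑ a, pderiv a q ^ 2) (hτ : τ ≠ 0) :
    τ = -1 := by
  classical
  by_contra hcon
  have h0 : q ∣ 4 * (SqS ℂ S + C (τ ^ 2) * SqS ℂ Sᶜ) := by
    obtain ⟨r, hr⟩ := hd
    have h1 : 4 * (SqS ℂ S + C (τ ^ 2) * SqS ℂ Sᶜ) =
        ∑ a, pderiv a (SqS ℂ S - C τ * SqS ℂ Sᶜ) ^ 2 := by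
      have h2 : ∀ a, pderiv a (SqS ℂ S - C τ * SqS ℂ Sᶜ) ^ 2 =
          4 * ((if a ∈ S then X a ^ 2 else 0) + C (τ ^ 2) * (if a ∈ Sᶜ then X a ^ 2 else 0)) := by
        intro a
        rw [map_sub, pderiv_C_mul, pderiv_SqS, pderiv_SqS, C_pow]
        by_cases ha : a ∈ S
        · have ha' : a ∉ Sᶜ := by
            rw [Finset.mem_compl]
            exact fun h => h ha
          rw [if_pos ha, if_neg ha', if_pos ha, if_neg ha']
          ring
        · have ha' : a ∈ Sᶜ := Finset.mem_compl.2 ha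
          rw [if_neg ha, if_pos ha', if_neg ha, if_pos ha']
          ring
      simp only [h2]
      rw [← Finset.mul_sum, Finset.sum_add_distrib, ← Finset.mul_sum, Finset.sum_ite_mem,
        Finset.sum_ite_mem, Finset.univ_inter, Finset.univ_inter, SqS, SqS]
    rw [h1, hr]
    have h3 : ∀ a, pderiv a (q * r) ^ 2 = q * (q * pderiv a r ^ 2 +
        2 * r * pderiv a q * pderiv a r) + r ^ 2 * pderiv a q ^ 2 := by
      intro a
      rw [Derivation.leibniz, smul_eq_mul, smul_eq_mul]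
      ring
    simp only [h3]
    rw [Finset.sum_add_distrib, ← Finset.mul_sum, ← Finset.mul_sum]
    exact dvd_add (Dvd.intro _ rfl) (hg.mul_left _)
  have h1 : q ∣ C (4 * (τ ^ 2 + τ)) * SqS ℂ Sᶜ := by
    have h2 := dvd_sub h0 (hd.mul_left 4)
    have h3 : 4 * (SqS ℂ S + C (τ ^ 2) * SqS ℂ Sᶜ) - 4 * (SqS ℂ S - C τ * SqS ℂ Sᶜ) =
        C (4 * (τ ^ 2 + τ)) * SqS ℂ Sᶜ := by
      have h4 : (C (4 : ℂ) : MvPolynomial (Fin N) ℂ) = 4 := map_ofNat C 4
      rw [C_mul, C_add, C_pow, h4]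
      ring
    rwa [h3] at h2
  have h2 : 4 * (τ ^ 2 + τ) ≠ 0 := by
    refine mul_ne_zero (by norm_num) ?_
    intro h
    have h3 : τ * (τ + 1) = 0 := by linear_combination h
    rcases mul_eq_zero.1 h3 with h4 | h4
    · exact hτ h4
    · exact hcon (by linear_combination h4)
  have hB : q ∣ SqS ℂ Sᶜ := by
    have h3 : IsUnit (C (4 * (τ ^ 2 + τ)) : MvPolynomial (Fin N) ℂ) :=
      (isUnit_iff_ne_zero.2 h2).map C
    exact h3.dvd_mul_left.1 h1
  have hA : q ∣ SqS ℂ S := by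
    have h3 := dvd_add hd (hB.mul_left (C τ))
    rwa [sub_add_cancel] at h3
  exact hq.not_isUnit (coprime_blocks hS hS' hA hB)

theorem roots_form {γ : Polynomial ℝ} (hγ : γ ≠ 0)
    (h : ∀ τ : ℂ, (γ.map (algebraMap ℝ ℂ)).IsRoot τ → τ = -1) :
    ∃ κ : ℝ, κ ≠ 0 ∧ γ = Polynomial.C κ * (Polynomial.X + 1) ^ γ.natDegree := by
  set γ' := γ.map (algebraMap ℝ ℂ) with hγ'
  have h0 : γ' ≠ 0 := (Polynomial.map_ne_zero_iff (algebraMap ℝ ℂ).injective).2 hγ
  have h1 := (IsAlgClosed.splits γ').eq_prod_roots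
  have h2 : γ'.roots = Multiset.replicate (Multiset.card γ'.roots) (-1) := by
    rw [Multiset.eq_replicate]
    exact ⟨rfl, fun τ hτ => h τ ((Polynomial.mem_roots h0).1 hτ)⟩
  have h3 : γ' = Polynomial.C γ'.leadingCoeff *
      (Polynomial.X + 1) ^ (Multiset.card γ'.roots) := by
    conv_lhs => rw [h1, h2]
    rw [Multiset.map_replicate, Multiset.prod_replicate, Polynomial.C_neg, Polynomial.C_1,
      sub_neg_eq_add]
  have h4 : γ'.natDegree = Multiset.card γ'.roots :=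
    (IsAlgClosed.splits γ').natDegree_eq_card_roots
  have h5 : γ'.natDegree = γ.natDegree := Polynomial.natDegree_map _
  have h6 : γ'.leadingCoeff = algebraMap ℝ ℂ γ.leadingCoeff := Polynomial.leadingCoeff_map _
  refine ⟨γ.leadingCoeff, Polynomial.leadingCoeff_ne_zero.2 hγ, ?_⟩
  apply Polynomial.map_injective (algebraMap ℝ ℂ) (algebraMap ℝ ℂ).injective
  rw [Polynomial.map_mul, Polynomial.map_pow, Polynomial.map_add, Polynomial.map_C,
    Polynomial.map_X, Polynomial.map_one, ← h6, ← h5, h4]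
  exact h3

theorem binom_form {R : Type} [CommRing R] [Algebra ℝ R] {γ : Polynomial ℝ} {κ : ℝ} {k : ℕ}
    (h : γ = Polynomial.C κ * (Polynomial.X + 1) ^ k) (A B : R) :
    ∑ i ∈ Finset.range (k + 1), algebraMap ℝ R (γ.coeff i) * A ^ i * B ^ (k - i) =
      algebraMap ℝ R κ * (A + B) ^ k := by
  rw [add_pow, Finset.mul_sum]
  refine Finset.sum_congr rfl fun i _ => ?_
  rw [h, Polynomial.coeff_C_mul, Polynomial.coeff_X_add_one_pow, map_mul, map_natCast]
  ring

theorem root_dvd {N : ℕ} {γ : Polynomial ℂ} {τ : ℂ} (hτ : γ.IsRoot τ)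
    (A B : MvPolynomial (Fin N) ℂ) {k : ℕ} (hk : γ.natDegree = k) :
    A - C τ * B ∣ ∑ i ∈ Finset.range (k + 1), C (γ.coeff i) * A ^ i * B ^ (k - i) := by
  have h1 : ∑ i ∈ Finset.range (k + 1), C (γ.coeff i) * (C τ * B) ^ i * B ^ (k - i) = 0 := by
    have h2 : ∀ i ∈ Finset.range (k + 1), C (γ.coeff i) * (C τ * B) ^ i * B ^ (k - i) =
        C (γ.coeff i * τ ^ i) * B ^ k := by
      intro i hi
      rw [Finset.mem_range] at hi
      have h3 : B ^ k = B ^ i * B ^ (k - i) := by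
        rw [← pow_add]
        congr 1
        omega
      rw [h3, mul_pow, C_mul, C_pow]
      ring
    rw [Finset.sum_congr rfl h2, ← Finset.sum_mul, ← map_sum]
    have h3 : ∑ i ∈ Finset.range (k + 1), γ.coeff i * τ ^ i = 0 := by
      rw [← hk, ← Polynomial.eval_eq_sum_range]
      exact hτ
    rw [h3, C_0, zero_mul]
  have h2 : ∑ i ∈ Finset.range (k + 1), C (γ.coeff i) * A ^ i * B ^ (k - i) =
      ∑ i ∈ Finset.range (k + 1), C (γ.coeff i) * (A ^ i - (C τ * B) ^ i) * B ^ (k - i) := by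
    rw [← sub_zero (∑ i ∈ Finset.range (k + 1), C (γ.coeff i) * A ^ i * B ^ (k - i)), ← h1,
      ← Finset.sum_sub_distrib]
    refine Finset.sum_congr rfl fun i _ => ?_
    ring
  rw [h2]
  refine Finset.dvd_sum fun i _ => ?_
  exact ((sub_dvd_pow_sub_pow A (C τ * B) i).mul_left _).mul_right _

end Run7.h978
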