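import Mathlib
import Pool.Agent.Run7.h978.Rev6
import Pool.Agent.Run7.h978.Sph14

set_option autoImplicit false

/-!
Algebraic hypersurfaces which are invariant under the rotations of two complementary blocks of
coordinates.
-/

open Set Filter Topology MvPolynomial
open scoped RealInnerProductSpace ContDiff Manifold

namespace Run7.h978

variable {n : ℕ} {M : Type*} [TopologicalSpace M] [ChartedSpace (Eu n) M]

theorem sphere_of_form [CompactSpace M] [ConnectedSpace M] (hn : n ≠ 0) {x : M → Eu (n + 1)}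
    (hx : IsImmersion n x) (hft : IsFiniteType n x) {O : Set M} (hO : IsOpen O)
    (hOne : O.Nonempty) {F : MvPolynomial (Fin (n + 1)) ℝ} (hF : Irreducible F)
    (hF0 : ∀ p ∈ O, ev F (x p) = 0) {κ : ℝ} {m : ℕ} (hκ : κ ≠ 0)
    (hlead : homogeneousComponent F.totalDegree F = C κ * Sq ℝ (n + 1) ^ m) :
    ∃ (c : Eu (n + 1)) (r : ℝ), 0 < r ∧ (∀ p ∈ O, dist (x p) c = r) ∧
      (O = univ → range x = Metric.sphere c r) := by
  classical
  set d := F.totalDegree with hd
  have hf0 : homogeneousComponent d F ≠ 0 := by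
    have h1 := (top_weighted (1 : Fin (n + 1) → ℕ) hF.ne_zero).2
    rw [weightedTotalDegree_one] at h1
    exact h1
  have hhom : (C κ * Sq ℝ (n + 1) ^ m).IsHomogeneous (2 * m) := (Sq_hom ℝ (n + 1) m).C_mul κ
  have hdm : d = 2 * m := by
    rw [hlead] at hf0
    refine IsHomogeneous.inj_right ?_ hhom hf0
    rw [← hlead]
    exact homogeneousComponent_isHomogeneous d F
  have hm : m ≠ 0 := by
    rintro rfl
    rw [mul_zero] at hdm
    have h1 := totalDegree_eq_zero_iff_eq_C.1 (hd.symm.trans hdm)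
    rw [h1] at hF
    have h2 : coeff 0 F ≠ 0 := by
      intro h3
      rw [h3, C_0] at hF
      exact hF.ne_zero rfl
    exact hF.not_isUnit ((isUnit_iff_ne_zero.2 h2).map C)
  set F' := C κ⁻¹ * F with hF'
  have hu : IsUnit (C κ⁻¹ : MvPolynomial (Fin (n + 1)) ℝ) :=
    (isUnit_iff_ne_zero.2 (inv_ne_zero hκ)).map C
  have hF'i : Irreducible F' := (irreducible_isUnit_mul hu).2 hF
  have hF'0 : ∀ p ∈ O, ev F' (x p) = 0 := by
    intro p hp
    have h1 := hF0 p hp
    rw [ev] at h1 ⊢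
    rw [hF', map_mul, h1, mul_zero]
  have hF'd : F'.totalDegree = 2 * m := by
    have h1 : F'.totalDegree ≤ F.totalDegree := by
      refine (totalDegree_mul _ _).trans ?_
      rw [totalDegree_C, zero_add]
    have h2 : F.totalDegree ≤ F'.totalDegree := by
      have h3 : F = C κ * F' := by
        rw [hF', ← mul_assoc, ← C_mul, mul_inv_cancel₀ hκ, C_1, one_mul]
      conv_lhs => rw [h3]
      refine (totalDegree_mul _ _).trans ?_
      rw [totalDegree_C, zero_add]
    omega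
  have hF'l : homogeneousComponent (2 * m) F' = Sq ℝ (n + 1) ^ m := by
    rw [hF', homogeneousComponent_C_mul, ← hdm, hlead, ← mul_assoc, ← C_mul,
      inv_mul_cancel₀ hκ, C_1, one_mul]
  obtain ⟨c, l, hl, hdv⟩ := exists_iter_dvd_mfd hx hft hO hOne hF'i hF'0
  obtain ⟨g, hg0, hg⟩ := radial_c hn hF'i (not_dvd_WW_mfd hx hO hOne hF'i hF'0) hl hdv hm hF'd hF'l
  obtain ⟨r, hr, hr2⟩ := sphere_of_dvd hn hx hO hOne hF'i hF'0 c hg0 hg
  refine ⟨c, r, hr, hr2, fun hOu => ?_⟩
  exact range_eq_sphere hn hx hr fun p => hr2 p (by rw [hOu]; trivial)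


theorem dvd_grad {N : ℕ} {p q : MvPolynomial (Fin N) ℂ} (hd : q ∣ p)
    (hg : q ∣ ∑ a, pderiv a q ^ 2) : q ∣ ∑ a, pderiv a p ^ 2 := by
  obtain ⟨r, rfl⟩ := hd
  have h3 : ∀ a, pderiv a (q * r) ^ 2 = q * (q * pderiv a r ^ 2 +
      2 * r * pderiv a q * pderiv a r) + r ^ 2 * pderiv a q ^ 2 := by
    intro a
    rw [Derivation.leibniz, smul_eq_mul, smul_eq_mul]
    ring
  simp only [h3]
  rw [Finset.sum_add_distrib, ← Finset.mul_sum, ← Finset.mul_sum]
  exact dvd_add (Dvd.intro _ rfl) (hg.mul_left _)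

/-- the rotations of a block -/
theorem rot_block {N : ℕ} {S : Finset (Fin N)} {F U V : MvPolynomial (Fin N) ℝ}
    {G : MvPolynomial (Fin 2) ℝ} (hG : F = aeval ![U, V] G) {c d : MvPolynomial (Fin N) ℝ}
    (hU : ∀ a ∈ S, pderiv a U = c * X a) (hV : ∀ a ∈ S, pderiv a V = d * X a) {j : Fin N}
    (hj : j ∈ S) : ∀ a ∈ S, X a * pderiv j F = X j * pderiv a F := by
  intro a ha
  have h1 : ∀ a ∈ S, pderiv a F = (aeval ![U, V] (pderiv 0 G) * c +
      aeval ![U, V] (pderiv 1 G) * d) * X a := by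
    intro a ha
    rw [hG, chainR, Fin.sum_univ_two]
    simp only [Matrix.cons_val_zero, Matrix.cons_val_one]
    rw [hU a ha, hV a ha]
    ring
  rw [h1 a ha, h1 j hj]
  ring

/-- the main theorem -/
theorem two_blocks [CompactSpace M] [ConnectedSpace M] (hn : n ≠ 0) {x : M → Eu (n + 1)}
    (hx : IsImmersion n x) (hft : IsFiniteType n x) {O : Set M} (hO : IsOpen O)
    (hOne : O.Nonempty) {F : MvPolynomial (Fin (n + 1)) ℝ} (hF : Irreducible F)
    (hF0 : ∀ p ∈ O, ev F (x p) = 0) {S : Finset (Fin (n + 1))} (hS2 : 2 ≤ S.card)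
    (hS' : Sᶜ.Nonempty) {Y : MvPolynomial (Fin (n + 1)) ℝ}
    (hY : Y = SqS ℝ Sᶜ ∨ ∃ b, Sᶜ = {b} ∧ Y = X b) {G : MvPolynomial (Fin 2) ℝ}
    (hG : F = aeval ![SqS ℝ S, Y] G) :
    ∃ (c : Eu (n + 1)) (r : ℝ), 0 < r ∧ (∀ p ∈ O, dist (x p) c = r) ∧
      (O = univ → range x = Metric.sphere c r) := by
  classical
  obtain ⟨c, l, hl, hdv⟩ := exists_iter_dvd_mfd hx hft hO hOne hF hF0
  have hWF := not_dvd_WW_mfd hx hO hOne hF hF0
  set f := homogeneousComponent F.totalDegree F with hf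
  have hf0 : f ≠ 0 := by
    have h1 := (top_weighted (1 : Fin (n + 1) → ℕ) hF.ne_zero).2
    rw [weightedTotalDegree_one] at h1
    exact h1
  have hcrit : ∀ q : MvPolynomial (Fin (n + 1)) ℂ, Irreducible q →
      q ∣ map (algebraMap ℝ ℂ) f → q ∣ ∑ a, pderiv a q ^ 2 := by
    intro q hq hqf
    have h1 := criterion_factor hn hx hft hO hOne hF hF0 (w := (1 : Fin (n + 1) → ℕ)) (by
      intro h2
      exact one_ne_zero (congrFun h2 0)) (m := 1) (fun a => le_rfl) hq (by
        rw [weightedTotalDegree_one]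
        exact hqf)
    have h2 : gsq (1 : Fin (n + 1) → ℕ) 1 q = ∑ a, pderiv a q ^ 2 := by
      rw [gsq]
      refine Finset.sum_congr rfl fun a _ => ?_
      rw [if_pos (by rfl)]
    rwa [h2] at h1
  have hSne : S.Nonempty := Finset.card_pos.1 (by omega)
  have hScc : Sᶜᶜ = S := compl_compl S
  obtain ⟨j, hj, j1, hj1, hjj⟩ := Finset.one_lt_card.1 (show 1 < S.card by omega)
  obtain ⟨j0, hj0⟩ := hS'
  have hj0S : j0 ∉ S := Finset.mem_compl.1 hj0
  have hdA : ∀ a ∈ S, pderiv a (SqS ℝ S) = 2 * X a := fun a ha => by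
    rw [pderiv_SqS, if_pos ha]
  have hdA' : ∀ a ∈ Sᶜ, pderiv a (SqS ℝ S) = 0 * X a := fun a ha => by
    rw [pderiv_SqS, if_neg (Finset.mem_compl.1 ha), zero_mul]
  have hdY : ∀ a ∈ S, pderiv a Y = 0 * X a := by
    intro a ha
    have ha' : a ∉ Sᶜ := by
      rw [Finset.mem_compl]
      exact fun h => h ha
    rw [zero_mul]
    rcases hY with rfl | ⟨b, hb, rfl⟩
    · rw [pderiv_SqS, if_neg ha']
    · apply pderiv_X_of_ne
      rintro rfl
      apply ha'
      rw [hb, Finset.mem_singleton]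
  obtain ⟨wY, e, he, hYh, hB⟩ : ∃ wY e : ℕ, wY * e = 2 ∧ Y.IsHomogeneous wY ∧
      SqS ℝ Sᶜ = Y ^ e := by
    rcases hY with rfl | ⟨b, hb, rfl⟩
    · exact ⟨2, 1, rfl, SqS_hom ℝ Sᶜ, by rw [pow_one]⟩
    · refine ⟨1, 2, rfl, isHomogeneous_X ℝ b, ?_⟩
      rw [SqS, hb, Finset.sum_singleton]
  obtain ⟨γ, t, hγ, hfγ⟩ := leading_two (SqS_hom ℝ S) hYh he hB G (d := F.totalDegree) (by
    rw [← hG]
    exact hf0)
  rw [← hG, ← hf] at hfγ
  -- the leading form is not divisible by `Y`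
  have ht : t = 0 := by
    by_contra ht
    have hYf : Y ∣ f := by
      rw [hfγ]
      exact (dvd_pow_self Y ht).mul_right _
    rcases Nat.lt_or_ge 1 (Sᶜ).card with hc | hc
    · have hYB : Y = SqS ℝ Sᶜ := by
        rcases hY with h | ⟨b, hb, _⟩
        · exact h
        · rw [hb, Finset.card_singleton] at hc
          omega
      obtain ⟨k, hk, k1, hk1, hkk⟩ := Finset.one_lt_card.1 hc
      refine block_F hF hWF hl hdv (S := Sᶜ) hk hk1 (Ne.symm hkk) (j0 := j)
        (fun h => (Finset.mem_compl.1 h) hj) ?_ (by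
          rw [← hYB]
          exact hYf)
      refine rot_block hG (c := 0) (d := 2) hdA' (fun a ha => ?_) hk
      rw [hYB, pderiv_SqS, if_pos ha]
    · obtain ⟨b, hb⟩ := Finset.card_eq_one.1 (le_antisymm hc (Finset.card_pos.2 ⟨j0, hj0⟩))
      have hXf : X b ∣ f := by
        rcases hY with h | ⟨b', hb', h⟩
        · refine dvd_trans ?_ hYf
          rw [h, SqS, hb, Finset.sum_singleton]
          exact dvd_pow_self _ two_ne_zero
        · rw [hb, Finset.singleton_inj] at hb'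
          rw [hb', ← h]
          exact hYf
      have hXne : (X b : MvPolynomial (Fin (n + 1)) ℂ) ≠ 0 := X_ne_zero b
      have hXu : ¬IsUnit (X b : MvPolynomial (Fin (n + 1)) ℂ) := by
        intro h
        have h1 := h.map (eval (fun _ => (0 : ℂ)))
        rw [eval_X] at h1
        exact not_isUnit_zero h1
      obtain ⟨q, hq, hqX⟩ := WfDvdMonoid.exists_irreducible_factor hXu hXne
      have h1 := hcrit q hq (hqX.trans (by
        have h2 := map_dvd (MvPolynomial.map (algebraMap ℝ ℂ)) hXf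
        rwa [map_X] at h2))
      have h2 := dvd_grad hqX h1
      have h3 : ∑ a, pderiv a (X b : MvPolynomial (Fin (n + 1)) ℂ) ^ 2 = 1 := by
        rw [Finset.sum_eq_single b]
        · rw [pderiv_X_self, one_pow]
        · intro a _ hab
          rw [pderiv_X_of_ne (Ne.symm hab), zero_pow two_ne_zero]
        · intro h
          exact absurd (Finset.mem_univ b) h
      rw [h3] at h2
      exact hq.not_isUnit (isUnit_of_dvd_one h2)
  rw [ht, pow_zero, one_mul] at hfγ
  -- the leading form is not divisible by the form of the first block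
  have hγ0 : γ.coeff 0 ≠ 0 := by
    intro h0
    refine block_F hF hWF hl hdv hj hj1 (Ne.symm hjj) hj0S
      (rot_block hG hdA hdY hj) ?_
    rw [← hf, hfγ]
    refine Finset.dvd_sum fun i _ => ?_
    rcases Nat.eq_zero_or_pos i with rfl | hi
    · rw [h0, C_0, zero_mul, zero_mul]
      exact dvd_zero _
    · exact ((dvd_pow_self _ hi.ne').mul_left _).mul_right _
  have hroots : ∀ τ : ℂ, (γ.map (algebraMap ℝ ℂ)).IsRoot τ → τ = -1 := by
    intro τ hτ
    have hτ0 : τ ≠ 0 := by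
      rintro rfl
      rw [Polynomial.IsRoot, ← Polynomial.coeff_zero_eq_eval_zero, Polynomial.coeff_map] at hτ
      exact hγ0 ((map_eq_zero_iff _ (algebraMap ℝ ℂ).injective).1 hτ)
    have h1 := root_dvd hτ (SqS ℂ S) (SqS ℂ Sᶜ) (Polynomial.natDegree_map (algebraMap ℝ ℂ))
    have h2 : ∑ i ∈ Finset.range (γ.natDegree + 1), C ((γ.map (algebraMap ℝ ℂ)).coeff i) *
        SqS ℂ S ^ i * SqS ℂ Sᶜ ^ (γ.natDegree - i) = map (algebraMap ℝ ℂ) f := by
      rw [hfγ, map_sum]
      refine Finset.sum_congr rfl fun i _ => ?_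
      rw [map_mul, map_mul, map_pow, map_pow, map_SqS, map_SqS, map_C, Polynomial.coeff_map]
    rw [h2] at h1
    have hne : SqS ℂ S - C τ * SqS ℂ Sᶜ ≠ 0 := by
      intro h
      rw [h, zero_dvd_iff] at h1
      exact hf0 (MvPolynomial.map_injective _ (algebraMap ℝ ℂ).injective (by rw [h1, map_zero]))
    have hnu : ¬IsUnit (SqS ℂ S - C τ * SqS ℂ Sᶜ) := by
      intro h
      have h3 := h.map (eval (fun _ => (0 : ℂ)))
      rw [map_sub, map_mul, SqS, SqS, map_sum, map_sum] at h3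
      simp at h3
    obtain ⟨q, hq, hqd⟩ := WfDvdMonoid.exists_irreducible_factor hnu hne
    exact tau_eq hSne ⟨j0, hj0⟩ hq hqd (hcrit q hq (hqd.trans h1)) hτ0
  obtain ⟨κ, hκ, hγκ⟩ := roots_form hγ hroots
  have hfin : f = C κ * Sq ℝ (n + 1) ^ γ.natDegree := by
    rw [hfγ, ← SqS_add_compl ℝ S]
    exact binom_form (R := MvPolynomial (Fin (n + 1)) ℝ) hγκ (SqS ℝ S) (SqS ℝ Sᶜ)
  exact sphere_of_form hn hx hft hO hOne hF hF0 hκ hfin

end Run7.h978
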