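import Mathlib
import Pool.Agent.Run7.h978.Defs
import Pool.Agent.Run7.h978.Cubic2

set_option autoImplicit false

open scoped Manifold ContDiff
open Run7.h978

namespace Pool.Agent.Results.MP_157c12_gt.Cubic

/-- No nonempty open piece of a compact connected hypersurface of finite type in the Euclidean
space of dimension `n + 1`, `n ≥ 2`, lies on an irreducible real algebraic hypersurface of
degree 3. -/
theorem result {n : ℕ} (_hn : 2 ≤ n) {M : Type*} [TopologicalSpace M] [ChartedSpace (Eu n) M]
    [IsManifold (𝓡 n) ∞ M] [CompactSpace M] [ConnectedSpace M] {x : M → Eu (n + 1)}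
    (hx : IsImmersion n x) (hft : IsFiniteType n x) {O : Set M} (hO : IsOpen O)
    (hne : O.Nonempty) {F : MvPolynomial (Fin (n + 1)) ℝ} (hF : Irreducible F)
    (hd : F.totalDegree = 3) : ¬∀ p ∈ O, MvPolynomial.eval (fun a => x p a) F = 0 :=
  fun hOF => not_cubic hx hft hO hne hF hd hOF

end Pool.Agent.Results.MP_157c12_gt.Cubic
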