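import Mathlib
import Pool.Agent.Run7.h978.Defs
import Pool.Agent.Run7.h978.Crit

set_option autoImplicit false

open scoped Manifold ContDiff
open Run7.h978

namespace Pool.Agent.Results.MP_157c12_gt.LeadingForm

/-- The part of highest weighted degree of the polynomial `F`, for the weights `w`. -/
noncomputable def leading {N : ℕ} (w : Fin N → ℕ) (F : MvPolynomial (Fin N) ℝ) :
    MvPolynomial (Fin N) ℝ :=
  MvPolynomial.weightedHomogeneousComponent w (MvPolynomial.weightedTotalDegree w F) F

/-- The sum of the squares of the partial derivatives of `f` at `b`, over the coordinates of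
weight `m`. -/
noncomputable def gradSq {N : ℕ} (w : Fin N → ℕ) (m : ℕ) (f : MvPolynomial (Fin N) ℝ)
    (b : Fin N → ℂ) : ℂ :=
  ∑ a, if w a = m then MvPolynomial.aeval b (MvPolynomial.pderiv a f) ^ 2 else 0

/-- `F` vanishes at every point `x p`, `p ∈ O`. -/
def VanishesOn {N : ℕ} {M : Type*} (F : MvPolynomial (Fin N) ℝ) (x : M → Eu N) (O : Set M) :
    Prop :=
  ∀ p ∈ O, MvPolynomial.eval (fun a => x p a) F = 0

/-- Let `x` be an immersion of finite type of a compact connected `n`-manifold into the Euclidean
space of dimension `n + 1`, `n ≥ 2`, and let some nonempty open set be mapped into `{F = 0}`, where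
`F` is an irreducible real polynomial. Then, for all weights `w a ≥ 1` with the minimum `m`, the
leading part `f` of `F` satisfies: every complex zero `b` of `f` is a zero of
`∑ (∂f/∂x_a)²`, the sum over the coordinates `a` of minimal weight. -/
theorem result {n : ℕ} (hn : 2 ≤ n) {M : Type*} [TopologicalSpace M] [ChartedSpace (Eu n) M]
    [IsManifold (𝓡 n) ∞ M] [CompactSpace M] [ConnectedSpace M] {x : M → Eu (n + 1)}
    (hx : IsImmersion n x) (hft : IsFiniteType n x) {O : Set M} (hO : IsOpen O)
    (hne : O.Nonempty) {F : MvPolynomial (Fin (n + 1)) ℝ} (hF : Irreducible F)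
    (hOF : VanishesOn F x O) (w : Fin (n + 1) → ℕ) {m : ℕ} (hm : 1 ≤ m) (hw : ∀ a, m ≤ w a)
    (b : Fin (n + 1) → ℂ) (hb : MvPolynomial.aeval b (leading w F) = 0) :
    gradSq w m (leading w F) b = 0 :=
  criterion_all (by omega) hx hft hO hne hF hOF w hm hw b hb

end Pool.Agent.Results.MP_157c12_gt.LeadingForm
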