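import Mathlib
import Pool.Agent.Run7.h978.Iso9

set_option autoImplicit false

/-!
Points of a complex hypersurface at which the gradient is isotropic.
-/

open MvPolynomial

namespace Run7.h978

section

variable {N : ℕ}

theorem PP_shift (W A : MvPolynomial (Fin N) ℝ) (j : ℕ) (a : Fin N) :
    PP W (j + 1) (W * A) a = W * PP W j A a := by
  rw [PP, PP, Derivation.leibniz, smul_eq_mul, smul_eq_mul]
  push_cast
  rw [C_add, C_1]
  ring

theorem LL_shift (F A : MvPolynomial (Fin N) ℝ) (j : ℕ) :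
    LL F (j + 1) (WW F * A) = WW F * LL F j A := by
  simp only [LL, PP_shift]
  have h1 : ∑ a, ∑ b, WW F * PP (WW F) (j + 1) (PP (WW F) j A a) b * pderiv b F * pderiv a F =
      WW F * ∑ a, ∑ b, PP (WW F) (j + 1) (PP (WW F) j A a) b * pderiv b F * pderiv a F := by
    rw [Finset.mul_sum]
    refine Finset.sum_congr rfl fun a _ => ?_
    rw [Finset.mul_sum]
    refine Finset.sum_congr rfl fun b _ => ?_
    ring
  have h2 : ∑ a, WW F * PP (WW F) (j + 1) (PP (WW F) j A a) a =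
      WW F * ∑ a, PP (WW F) (j + 1) (PP (WW F) j A a) a := by
    rw [Finset.mul_sum]
  have h3 : ∑ a, pderiv a F * (WW F * PP (WW F) j A a) =
      WW F * ∑ a, pderiv a F * PP (WW F) j A a := by
    rw [Finset.mul_sum]
    refine Finset.sum_congr rfl fun a _ => ?_
    ring
  rw [h1, h2, h3]
  ring

theorem iter_shift (F : MvPolynomial (Fin N) ℝ) (l : List ℝ) :
    ∀ (j : ℕ) (A : MvPolynomial (Fin N) ℝ), iter F l (j + 1) (WW F * A) = WW F * iter F l j A := by
  induction l with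
  | nil => intro j A; rfl
  | cons μ l ih =>
    intro j A
    rw [iter, iter, LL_shift, ← ih]
    congr 1
    ring

theorem sum_pderiv_WW (F : MvPolynomial (Fin N) ℝ) :
    ∑ a, pderiv a F * pderiv a (WW F) = 2 * QF F := by
  have h1 : ∀ a, pderiv a (WW F) = ∑ b, 2 * (pderiv b F * pderiv a (pderiv b F)) := by
    intro a
    rw [WW, map_sum]
    refine Finset.sum_congr rfl fun b _ => ?_
    rw [Derivation.leibniz_pow, smul_eq_mul, nsmul_eq_mul]
    push_cast
    ring
  simp only [h1, QF, Finset.mul_sum]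
  rw [Finset.sum_comm]
  refine Finset.sum_congr rfl fun a _ => Finset.sum_congr rfl fun b _ => ?_
  ring

theorem LL_mod (F A : MvPolynomial (Fin N) ℝ) (j : ℕ) :
    ∃ B, LL F j A = C (2 * j * (2 * j + 3) : ℝ) * QF F ^ 2 * A + WW F * B := by
  classical
  set W := WW F with hW
  set J : MvPolynomial (Fin N) ℝ := C (j : ℝ) with hJ
  have hJ1 : (C ((j + 1 : ℕ) : ℝ) : MvPolynomial (Fin N) ℝ) = J + 1 := by
    push_cast
    rw [C_add, C_1]
  -- the second order terms
  have h1 : ∀ a b, PP W (j + 1) (PP W j A a) b =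
      J * (J + 1) * A * pderiv a W * pderiv b W + W * (pderiv b (PP W j A a) -
        (J + 1) * pderiv a A * pderiv b W) := by
    intro a b
    rw [PP, hJ1]
    have h2 : PP W j A a = pderiv a A * W - J * A * pderiv a W := rfl
    rw [h2]
    ring
  set B1 : Fin N → Fin N → MvPolynomial (Fin N) ℝ := fun a b =>
    pderiv b (PP W j A a) - (J + 1) * pderiv a A * pderiv b W with hB1
  have h1' : ∀ a b, PP W (j + 1) (PP W j A a) b =
      J * (J + 1) * A * pderiv a W * pderiv b W + W * B1 a b := h1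
  have h3 : ∑ a, ∑ b, PP W (j + 1) (PP W j A a) b * pderiv b F * pderiv a F =
      J * (J + 1) * A * (2 * QF F) ^ 2 + W * ∑ a, ∑ b, B1 a b * pderiv b F * pderiv a F := by
    have h4 : (2 * QF F) ^ 2 = ∑ a, ∑ b, (pderiv a F * pderiv a W) * (pderiv b F * pderiv b W) := by
      rw [← sum_pderiv_WW, pow_two, Finset.sum_mul_sum]
    rw [h4, Finset.mul_sum, Finset.mul_sum, ← Finset.sum_add_distrib]
    refine Finset.sum_congr rfl fun a _ => ?_
    rw [Finset.mul_sum, Finset.mul_sum, ← Finset.sum_add_distrib]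
    refine Finset.sum_congr rfl fun b _ => ?_
    rw [h1']
    ring
  have h5 : ∑ a, pderiv a F * PP W j A a = -(J * A * (2 * QF F)) +
      W * ∑ a, pderiv a F * pderiv a A := by
    rw [← sum_pderiv_WW, Finset.mul_sum, Finset.mul_sum, ← Finset.sum_neg_distrib,
      ← Finset.sum_add_distrib]
    refine Finset.sum_congr rfl fun a _ => ?_
    rw [PP]
    ring
  refine ⟨-∑ a, PP W (j + 1) (PP W j A a) a + ∑ a, ∑ b, B1 a b * pderiv b F * pderiv a F +
    (∑ c, pderiv c (pderiv c F)) * ∑ a, pderiv a F * PP W j A a -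
    QF F * ∑ a, pderiv a F * pderiv a A, ?_⟩
  rw [LL, h3]
  have h6 : (C (2 * j * (2 * j + 3) : ℝ) : MvPolynomial (Fin N) ℝ) = 4 * (J * (J + 1)) + 2 * J := by
    have h7 : (2 * j * (2 * j + 3) : ℝ) = 4 * ((j : ℝ) * (j + 1)) + 2 * j := by ring
    rw [h7, C_add, C_mul, C_mul, C_mul, C_add, C_1]
    rw [show (C (4 : ℝ) : MvPolynomial (Fin N) ℝ) = 4 from map_ofNat C 4,
      show (C (2 : ℝ) : MvPolynomial (Fin N) ℝ) = 2 from map_ofNat C 2]
  rw [h6]
  have h8 : (W * ∑ c, pderiv c (pderiv c F) - QF F) * ∑ a, pderiv a F * PP W j A a =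
      W * ((∑ c, pderiv c (pderiv c F)) * ∑ a, pderiv a F * PP W j A a) -
        QF F * (-(J * A * (2 * QF F)) + W * ∑ a, pderiv a F * pderiv a A) := by
    rw [← h5]
    ring
  rw [h8]
  ring

theorem iter_mod (F : MvPolynomial (Fin N) ℝ) (l : List ℝ) :
    ∀ (j : ℕ) (A : MvPolynomial (Fin N) ℝ), j ≠ 0 → ∃ (κ : ℝ) (B : MvPolynomial (Fin N) ℝ),
      κ ≠ 0 ∧ iter F l j A = C κ * QF F ^ (2 * l.length) * A + WW F * B := by
  induction l with
  | nil =>
    intro j A _
    exact ⟨1, 0, one_ne_zero, by simp [iter]⟩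
  | cons μ l ih =>
    intro j A hj
    obtain ⟨B, hB⟩ := LL_mod F A j
    obtain ⟨κ, B', hκ, hB'⟩ := ih (j + 3) (LL F j A - C μ * WW F ^ 3 * A) (by omega)
    refine ⟨κ * (2 * j * (2 * j + 3)), B' + C κ * QF F ^ (2 * l.length) *
      (B - C μ * WW F ^ 2 * A), ?_, ?_⟩
    · have : (0 : ℝ) < j := by
        have := Nat.pos_of_ne_zero hj
        exact_mod_cast this
      positivity
    · have h7 : (C (κ * (2 * j * (2 * j + 3)) : ℝ) : MvPolynomial (Fin N) ℝ) =
          C κ * C (2 * j * (2 * j + 3) : ℝ) := C_mul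
      rw [iter, hB', hB, List.length_cons, h7]
      ring

theorem LL_zero_X (F : MvPolynomial (Fin N) ℝ) (a : Fin N) (c : ℝ) :
    LL F 0 (X a - C c) = WW F * (pderiv a F * (WW F * ∑ c, pderiv c (pderiv c F) - QF F)) := by
  classical
  have h1 : ∀ b, PP (WW F) 0 (X a - C c) b = (if b = a then WW F else 0) := by
    intro b
    rw [PP, map_sub, pderiv_X, pderiv_C, Pi.single_apply, Nat.cast_zero, C_0]
    by_cases h : b = a
    · rw [if_pos h, if_pos h.symm]
      ring
    · rw [if_neg h, if_neg (Ne.symm h)]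
      ring
  have h2 : ∀ b d, PP (WW F) (0 + 1) (PP (WW F) 0 (X a - C c) b) d = 0 := by
    intro b d
    rw [h1, PP]
    split
    · push_cast
      rw [C_1]
      ring
    · rw [map_zero]
      ring
  rw [LL]
  simp only [h2, mul_zero, zero_mul, Finset.sum_const_zero, neg_zero, zero_add]
  simp only [h1, mul_ite, mul_zero]
  rw [Finset.sum_ite_eq', if_pos (Finset.mem_univ a)]
  ring

/-- the condition at the points with an isotropic gradient, in terms of ideals -/
theorem null_ideal {F : MvPolynomial (Fin N) ℝ} (hF : Irreducible F) (hWF : ¬F ∣ WW F)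
    {l : List ℝ} (hl : l ≠ []) {c : Fin N → ℝ} (hd : ∀ a, F ∣ iter F l 0 (X a - C (c a)))
    (a : Fin N) : ∃ (e : ℕ) (U V : MvPolynomial (Fin N) ℝ),
      QF F ^ (2 * e + 1) * pderiv a F = F * U + WW F * V := by
  obtain ⟨μ, l, rfl⟩ := List.exists_cons_of_ne_nil hl
  have h1 := hd a
  rw [iter, LL_zero_X] at h1
  set A1 := pderiv a F * (WW F * ∑ c, pderiv c (pderiv c F) - QF F) -
    C μ * WW F ^ 2 * (X a - C (c a)) with hA1
  have h2 : WW F * (pderiv a F * (WW F * ∑ c, pderiv c (pderiv c F) - QF F)) -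
      C μ * WW F ^ 3 * (X a - C (c a)) = WW F * A1 := by
    rw [hA1]
    ring
  rw [h2, show (0 + 3 : ℕ) = 2 + 1 from rfl, iter_shift] at h1
  have h3 := (hF.prime.dvd_or_dvd h1).resolve_left hWF
  obtain ⟨κ, B, hκ, hB⟩ := iter_mod F l 2 A1 two_ne_zero
  obtain ⟨U, hU⟩ := h3
  rw [hB] at hU
  refine ⟨l.length, -(C κ⁻¹ * U), C κ⁻¹ * B + QF F ^ (2 * l.length) *
    (pderiv a F * (∑ c, pderiv c (pderiv c F)) - C μ * WW F * (X a - C (c a))), ?_⟩
  have hκ' : (C κ⁻¹ : MvPolynomial (Fin N) ℝ) * C κ = 1 := by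
    rw [← C_mul, inv_mul_cancel₀ hκ, C_1]
  have h4 : C κ⁻¹ * (C κ * QF F ^ (2 * l.length) * A1 + WW F * B) = C κ⁻¹ * (F * U) := by
    rw [hU]
  have h5 : C κ⁻¹ * (C κ * QF F ^ (2 * l.length) * A1 + WW F * B) =
      QF F ^ (2 * l.length) * A1 + C κ⁻¹ * (WW F * B) := by
    linear_combination QF F ^ (2 * l.length) * A1 * hκ'
  rw [h5, hA1] at h4
  linear_combination -h4

theorem null_point {F : MvPolynomial (Fin N) ℝ} (hF : Irreducible F) (hWF : ¬F ∣ WW F)
    {l : List ℝ} (hl : l ≠ []) {c : Fin N → ℝ} (hd : ∀ a, F ∣ iter F l 0 (X a - C (c a)))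
    {z : Fin N → ℂ} (hz : aeval z F = 0) (hWz : aeval z (WW F) = 0) : aeval z (QF F) = 0 := by
  by_contra hcon
  apply hcon
  have h1 : ∀ a, aeval z (pderiv a F) = 0 := by
    intro a
    obtain ⟨e, U, V, h⟩ := null_ideal hF hWF hl hd a
    have h2 := congrArg (aeval z) h
    rw [map_mul, map_pow, map_add, map_mul, map_mul, hz, hWz, zero_mul, zero_mul, add_zero] at h2
    exact (mul_eq_zero.1 h2).resolve_left (pow_ne_zero _ hcon)
  rw [QF, map_sum]
  apply Finset.sum_eq_zero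
  intro a _
  rw [map_sum]
  apply Finset.sum_eq_zero
  intro b _
  rw [map_mul, h1 a, mul_zero]

end

end Run7.h978
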