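import Mathlib
import Pool.Agent.Run7.h978.Nul1
import Pool.Agent.Run7.h978.Sph14

set_option autoImplicit false

/-!
Points with isotropic gradient, for compact manifolds.
-/

open Set Filter Topology MvPolynomial
open scoped RealInnerProductSpace ContDiff Manifold

namespace Run7.h978

variable {n : ℕ} {M : Type*} [TopologicalSpace M] [ChartedSpace (Eu n) M]

theorem not_const (hn : n ≠ 0) {x : M → Eu (n + 1)} (hx : IsImmersion n x) {O : Set M}
    (hO : IsOpen O) (hOne : O.Nonempty) (c : Eu (n + 1)) : ¬∀ p ∈ O, x p = c := by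
  intro h
  obtain ⟨p, hp⟩ := hOne
  set e := chartAt (Eu n) p with he
  have hea : e ∈ atlas (Eu n) M := chart_mem_atlas (Eu n) p
  have hps : p ∈ e.source := mem_chart_source (Eu n) p
  have hi := imm_of_chart hx hea
  have hU : e.target ∩ e.symm ⁻¹' O ∈ 𝓝 (e p) := by
    refine (e.symm.isOpen_inter_preimage hO).mem_nhds ⟨e.map_source hps, ?_⟩
    show e.symm (e p) ∈ O
    rw [e.left_inv hps]
    exact hp
  have h4 : fderiv ℝ (x ∘ e.symm) (e p) = 0 := by
    have h5 : (x ∘ e.symm) =ᶠ[𝓝 (e p)] fun _ => c := by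
      filter_upwards [hU] with y hy
      exact h _ hy.2
    rw [h5.fderiv_eq]
    simp
  have h6 : (EuclideanSpace.single (⟨0, Nat.pos_of_ne_zero hn⟩ : Fin n) (1 : ℝ) : Eu n) = 0 := by
    apply hi.inj (e p) (e.map_source hps)
    rw [h4]
    simp
  have h7 := congrArg norm h6
  simp at h7

theorem null_mfd [CompactSpace M] [ConnectedSpace M] (hn : n ≠ 0) {x : M → Eu (n + 1)}
    (hx : IsImmersion n x) (hft : IsFiniteType n x) {O : Set M} (hO : IsOpen O)
    (hOne : O.Nonempty) {F : MvPolynomial (Fin (n + 1)) ℝ} (hF : Irreducible F)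
    (hF0 : ∀ p ∈ O, ev F (x p) = 0) {z : Fin (n + 1) → ℂ} (hz : aeval z F = 0)
    (hWz : aeval z (WW F) = 0) : aeval z (QF F) = 0 := by
  obtain ⟨c, l, hl, hdv⟩ := exists_iter_dvd_mfd hx hft hO hOne hF hF0
  refine null_point hF (not_dvd_WW_mfd hx hO hOne hF hF0) ?_ hdv hz hWz
  rintro rfl
  apply not_const hn hx hO hOne c
  intro p hp
  ext a
  obtain ⟨G, hG⟩ := hdv a
  have h1 := hF0 p hp
  have h2 : ev (iter F [] 0 (X a - C (c a))) (x p) = 0 := by
    rw [ev] at h1 ⊢
    rw [hG, map_mul, h1, zero_mul]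
  have h3 : ev (iter F [] 0 (X a - C (c a))) (x p) = x p a - c a := by
    rw [iter, ev, map_sub, eval_X, eval_C]
  linarith

end Run7.h978
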