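import Mathlib
import Pool.Agent.Run7.h978.Defs
import Pool.Agent.Run7.h978.Nul2

set_option autoImplicit false

open scoped Manifold ContDiff
open Run7.h978

namespace Pool.Agent.Results.MP_157c12_gt.NullGradient

/-- The sum of the squares of the partial derivatives of `F`. -/
noncomputable def gradSq {N : ℕ} (F : MvPolynomial (Fin N) ℝ) : MvPolynomial (Fin N) ℝ :=
  ∑ a, MvPolynomial.pderiv a F ^ 2

/-- The second derivative of `F` in the direction of the gradient of `F`, that is
`∑ (∂²F/∂x_a∂x_b) (∂F/∂x_a) (∂F/∂x_b)`. -/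
noncomputable def gradHess {N : ℕ} (F : MvPolynomial (Fin N) ℝ) : MvPolynomial (Fin N) ℝ :=
  ∑ a, ∑ b, MvPolynomial.pderiv b (MvPolynomial.pderiv a F) * MvPolynomial.pderiv b F *
    MvPolynomial.pderiv a F

/-- `F` vanishes at every point `x p`, `p ∈ O`. -/
def VanishesOn {N : ℕ} {M : Type*} (F : MvPolynomial (Fin N) ℝ) (x : M → Eu N) (O : Set M) :
    Prop :=
  ∀ p ∈ O, MvPolynomial.eval (fun a => x p a) F = 0

/-- Let `x` be an immersion of finite type of a compact connected `n`-manifold `M` into the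
Euclidean space of dimension `n + 1`, `n ≥ 2`, and let some nonempty open set `O` be mapped into
`{F = 0}`, where `F` is an irreducible real polynomial. Then at every complex point `z` with
`F = 0` and `∑ (∂F/∂x_a)² = 0` one has `∑ (∂²F/∂x_a∂x_b) (∂F/∂x_a) (∂F/∂x_b) = 0`. -/
theorem result {n : ℕ} (hn : 2 ≤ n) {M : Type*} [TopologicalSpace M] [ChartedSpace (Eu n) M]
    [IsManifold (𝓡 n) ∞ M] [CompactSpace M] [ConnectedSpace M] {x : M → Eu (n + 1)}
    (hx : IsImmersion n x) (hft : IsFiniteType n x) {O : Set M} (hO : IsOpen O)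
    (hne : O.Nonempty) {F : MvPolynomial (Fin (n + 1)) ℝ} (hF : Irreducible F)
    (hOF : VanishesOn F x O) {z : Fin (n + 1) → ℂ} (hz : MvPolynomial.aeval z F = 0)
    (hgz : MvPolynomial.aeval z (gradSq F) = 0) : MvPolynomial.aeval z (gradHess F) = 0 := by
  have h1 := null_mfd (by omega) hx hft hO hne hF hOF hz hgz
  exact h1

end Pool.Agent.Results.MP_157c12_gt.NullGradient
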