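import Mathlib
import Pool.Agent.Run7.h978.Defs
import Pool.Agent.Run7.h978.Sph14

set_option autoImplicit false

open scoped Manifold ContDiff
open Run7.h978

namespace Pool.Agent.Results.MP_157c12_gt.SphereLeading

/-- The leading form of the polynomial `F`, that is its homogeneous part of the highest degree, as
a complex polynomial. -/
noncomputable def leadingForm {N : ℕ} (F : MvPolynomial (Fin N) ℝ) : MvPolynomial (Fin N) ℂ :=
  MvPolynomial.map (algebraMap ℝ ℂ) (MvPolynomial.homogeneousComponent F.totalDegree F)

/-- The sum of the squares of the partial derivatives of `q`. -/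
noncomputable def gradSq {N : ℕ} (q : MvPolynomial (Fin N) ℂ) : MvPolynomial (Fin N) ℂ :=
  ∑ a, MvPolynomial.pderiv a q ^ 2

/-- The sum of the squares of the coordinates. -/
noncomputable def distSq (N : ℕ) : MvPolynomial (Fin N) ℂ :=
  ∑ a, MvPolynomial.X a ^ 2

/-- `F` vanishes at every point `x p`, `p ∈ O`. -/
def VanishesOn {N : ℕ} {M : Type*} (F : MvPolynomial (Fin N) ℝ) (x : M → Eu N) (O : Set M) :
    Prop :=
  ∀ p ∈ O, MvPolynomial.eval (fun a => x p a) F = 0

/-- Let `x` be an immersion of finite type of a compact connected `n`-manifold `M` into the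
Euclidean space of dimension `n + 1`, `n ≥ 2`, and let some nonempty open set `O` be mapped into
`{F = 0}`, where `F` is an irreducible real polynomial. Assume that every complex irreducible
factor `q` of the leading form of `F` which divides `∑ (∂q/∂x_a)²` is a constant multiple of
`∑ x_a²`. Then `x` maps `O` into a round sphere, and if `O = M`, then the image of `x` is a round
sphere. -/
theorem result {n : ℕ} (hn : 2 ≤ n) {M : Type*} [TopologicalSpace M] [ChartedSpace (Eu n) M]
    [IsManifold (𝓡 n) ∞ M] [CompactSpace M] [ConnectedSpace M] {x : M → Eu (n + 1)}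
    (hx : IsImmersion n x) (hft : IsFiniteType n x) {O : Set M} (hO : IsOpen O)
    (hne : O.Nonempty) {F : MvPolynomial (Fin (n + 1)) ℝ} (hF : Irreducible F)
    (hOF : VanishesOn F x O)
    (hlead : ∀ q : MvPolynomial (Fin (n + 1)) ℂ, Irreducible q → q ∣ leadingForm F →
      q ∣ gradSq q → Associated q (distSq (n + 1))) :
    ∃ (c : Eu (n + 1)) (r : ℝ), 0 < r ∧ (∀ p ∈ O, x p ∈ Metric.sphere c r) ∧
      (O = Set.univ → Set.range x = Metric.sphere c r) :=
  sphere_of_leading (by omega) hx hft hO hne hF hOF hlead

end Pool.Agent.Results.MP_157c12_gt.SphereLeading
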